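import Mathlib

/-!
# The definitions of the statement (MP_e5f854_an)

All definitions are made for a finite dimensional normed space `X` with its measure; they are used
for `X = EuclideanSpace ℝ (Fin n)` with Lebesgue measure.
-/

open Set Metric Filter Topology MeasureTheory
open scoped ContDiff ENNReal

namespace SM.Stm

/-- Euclidean space of dimension `n`. -/
abbrev Rn (n : ℕ) := EuclideanSpace ℝ (Fin n)

section

variable {X : Type} [NormedAddCommGroup X] [NormedSpace ℝ X]

/-- The closed simplex with the given `n + 1` vertices. -/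
def simplex {n : ℕ} (s : Fin (n + 1) → X) : Set X := convexHull ℝ (range s)

/-- The closed simplices with the vertices `s i` are nondegenerate, lie in `Ω`, have pairwise
disjoint interiors, cover `Ω` and are locally finite in `Ω` (each compact subset of `Ω` meets
only finitely many of them). -/
structure LocFinSimplices {n : ℕ} (Ω : Set X) {ι : Type} (s : ι → Fin (n + 1) → X) : Prop where
  nondegenerate : ∀ i, AffineIndependent ℝ (s i)
  subset : ∀ i, simplex (s i) ⊆ Ω
  disjoint : ∀ i j, i ≠ j → Disjoint (interior (simplex (s i))) (interior (simplex (s j)))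
  cover : Ω ⊆ ⋃ i, simplex (s i)
  locFin : ∀ K : Set X, IsCompact K → K ⊆ Ω → {i | (simplex (s i) ∩ K).Nonempty}.Finite

/-- `f` is affine on each simplex of a countable locally finite family of `n`-simplices
covering `Ω`. -/
def PiecewiseAffine (n : ℕ) (Ω : Set X) (f : X → X) : Prop :=
  ∃ (ι : Type) (_ : Countable ι) (s : ι → Fin (n + 1) → X), LocFinSimplices Ω s ∧
    ∀ i, ∃ A : X →ᵃ[ℝ] X, EqOn f A (simplex (s i))

/-- `f` is a homeomorphism of `Ω` onto `f(Ω)`. -/
structure HomeoOn (Ω : Set X) (f : X → X) : Prop where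
  cont : ContinuousOn f Ω
  inj : InjOn f Ω
  cont_inv : ∃ g : X → X, ContinuousOn g (f '' Ω) ∧ ∀ x ∈ Ω, g (f x) = x

/-- Piecewise affine homeomorphisms of `Ω` onto the image; `n` is the dimension of `X`. -/
def IsPAHomeo (n : ℕ) (Ω : Set X) (f : X → X) : Prop := HomeoOn Ω f ∧ PiecewiseAffine n Ω f

/-- `g` is a diffeomorphism of `Ω` onto its image, which is open. -/
structure IsDiffeoOn (Ω : Set X) (g : X → X) : Prop where
  smooth : ContDiffOn ℝ ∞ g Ω
  inj : InjOn g Ω
  open_image : IsOpen (g '' Ω)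
  smooth_inv : ∃ k : X → X, ContDiffOn ℝ ∞ k (g '' Ω) ∧ ∀ x ∈ Ω, k (g x) = x

variable [MeasureSpace X]

/-- `F` is the weak derivative of `f` on the open set `Ω`. -/
def HasWeakDeriv (Ω : Set X) (f : X → X) (F : X → X →L[ℝ] X) : Prop :=
  ∀ φ : X → ℝ, ContDiff ℝ ∞ φ → HasCompactSupport φ → tsupport φ ⊆ Ω → ∀ v : X,
    ∫ x in Ω, (fderiv ℝ φ x v) • f x = -∫ x in Ω, φ x • F x v

/-- `f` lies in `W^{1,p}(Ω, X)`, with weak derivative `F`. -/
structure MemW (Ω : Set X) (p : ℝ≥0∞) (f : X → X) (F : X → X →L[ℝ] X) : Prop where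
  memf : MemLp f p (volume.restrict Ω)
  memF : MemLp F p (volume.restrict Ω)
  weak : HasWeakDeriv Ω f F

/-- `f` lies in `W^{1,p}(Ω, X)`. -/
def InW (Ω : Set X) (p : ℝ≥0∞) (f : X → X) : Prop := ∃ F : X → X →L[ℝ] X, MemW Ω p f F

/-- The distance in `W^{1,p}(Ω, X)` of `f`, `g` with the weak derivatives `F`, `G`: the norm of
`g - f` in `L^p(Ω)` plus the norm of `G - F` in `L^p(Ω)`. -/
noncomputable def distW (Ω : Set X) (p : ℝ≥0∞) (f g : X → X) (F G : X → X →L[ℝ] X) : ℝ≥0∞ :=
  eLpNorm (fun x => g x - f x) p (volume.restrict Ω) +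
    eLpNorm (fun x => G x - F x) p (volume.restrict Ω)

/-- `f` lies in `W^{1,p}(Ω, X)`, with weak derivative `F`, and for every `ε > 0` there is a
diffeomorphism `g` of `Ω` onto its image, with weak derivative `G`, whose distance from `f` in
`W^{1,p}(Ω, X)` is less than `ε`. -/
def DiffeoApproximable (Ω : Set X) (p : ℝ≥0∞) (f : X → X) : Prop :=
  ∃ F : X → X →L[ℝ] X, MemW Ω p f F ∧ ∀ ε : ℝ≥0∞, ε ≠ 0 →
    ∃ (g : X → X) (G : X → X →L[ℝ] X), IsDiffeoOn Ω g ∧ MemW Ω p g G ∧ distW Ω p f g F G < ε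

end

/-! ## The case of Euclidean space -/

/-- Piecewise affine homeomorphisms of `Ω ⊆ ℝⁿ` onto the image. -/
def PAHomeo {n : ℕ} (Ω : Set (Rn n)) (f : Rn n → Rn n) : Prop := IsPAHomeo n Ω f

/-- `f` lies in the Sobolev space `W^{1,p}(Ω, ℝⁿ)`. -/
def Sobolev {n : ℕ} (Ω : Set (Rn n)) (p : ℝ≥0∞) (f : Rn n → Rn n) : Prop := InW Ω p f

/-- `f` can be approximated in `W^{1,p}(Ω, ℝⁿ)` by diffeomorphisms of `Ω` onto open sets. -/
def Approximable {n : ℕ} (Ω : Set (Rn n)) (p : ℝ≥0∞) (f : Rn n → Rn n) : Prop :=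
  DiffeoApproximable Ω p f

end SM.Stm
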