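import Pool.Agent.SM.Defs

/-!
# Project SM, module GRM
-/

open Set Metric Filter Topology MeasureTheory
open scoped ContDiff Pointwise

set_option linter.unusedSectionVars false

noncomputable section

namespace SM

variable {X Y : Type*} [NormedAddCommGroup X] [NormedSpace ℝ X]
  [NormedAddCommGroup Y] [NormedSpace ℝ Y]

section aux

theorem grm_zero {h : X → Y} (hh : PosHom h) : h 0 = 0 := by
  have := hh 0 le_rfl 0
  simpa using this

/-- a small positive scale -/
theorem grm_small_scale (R : ℝ) (hR : 0 < R) (v v' : X) :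
    ∃ s : ℝ, 0 < s ∧ ‖s • v‖ < R ∧ ‖s • v'‖ < R := by
  have hm : 0 < ‖v‖ + ‖v'‖ + 1 := by positivity
  refine ⟨R / (‖v‖ + ‖v'‖ + 1), div_pos hR hm, ?_, ?_⟩
  · rw [norm_smul, Real.norm_of_nonneg (div_pos hR hm).le, div_mul_eq_mul_div, div_lt_iff₀ hm]
    have h1 : 0 ≤ ‖v'‖ := norm_nonneg _
    nlinarith
  · rw [norm_smul, Real.norm_of_nonneg (div_pos hR hm).le, div_mul_eq_mul_div, div_lt_iff₀ hm]
    have h1 : 0 ≤ ‖v‖ := norm_nonneg _
    nlinarith

theorem grm_smul_cancel {s : ℝ} (hs : 0 < s) {y y' : Y} (h : s • y = s • y') : y = y' := by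
  have h2 : s⁻¹ • (s • y) = s⁻¹ • (s • y') := by rw [h]
  rwa [smul_smul, smul_smul, inv_mul_cancel₀ hs.ne', one_smul, one_smul] at h2

end aux

theorem PosHom.mem_lin {h : X → Y} (hh : PosHom h) {w : X} :
    w ∈ lin h ↔ ∀ v, h (v + w) = h v + h w := by
  constructor
  · intro hw
    unfold lin at hw
    induction hw using Submodule.span_induction with
    | mem x hx => exact hx
    | zero => intro v; rw [add_zero, grm_zero hh, add_zero]
    | add x y _ _ hx hy =>
      intro v
      rw [← add_assoc, hy, hx, hy x, add_assoc]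
    | smul a x _ hx =>
      have hpos : ∀ b : ℝ, 0 < b → ∀ v, h (v + b • x) = h v + h (b • x) := by
        intro b hb v
        have e1 : v + b • x = b • (b⁻¹ • v + x) := by
          rw [smul_add, smul_smul, mul_inv_cancel₀ hb.ne', one_smul]
        rw [e1, hh b hb.le, hx, smul_add, ← hh b hb.le, smul_smul, mul_inv_cancel₀ hb.ne', one_smul,
          hh b hb.le]
      intro v
      rcases lt_trichotomy a 0 with ha | ha | ha
      · have h1 := hpos (-a) (by linarith)
        have e2 : ∀ v, h (v + a • x) = h v - h ((-a) • x) := by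
          intro v
          have h2 := h1 (v + a • x)
          have e3 : v + a • x + (-a) • x = v := by rw [neg_smul]; abel
          rw [e3] at h2
          rw [h2]; abel
        have e4 := e2 0
        rw [zero_add, grm_zero hh] at e4
        rw [e2 v, e4]; abel
      · subst ha
        rw [zero_smul, add_zero, grm_zero hh, add_zero]
      · exact hpos a ha v
  · intro hw
    exact Submodule.subset_span hw

theorem grm_conicAt_unique {f : X → Y} {x : X} {R R' : ℝ} {h h' : X → Y} (hR : 0 < R) (hR' : 0 < R')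
    (hh : PosHom h) (hh' : PosHom h') (hc : ConicAt f x R h) (hc' : ConicAt f x R' h') :
    h = h' := by
  funext v
  obtain ⟨s, hs, h1, -⟩ := grm_small_scale (min R R') (lt_min hR hR') v v
  have e1 := hc (s • v) (lt_of_lt_of_le h1 (min_le_left _ _))
  have e2 := hc' (s • v) (lt_of_lt_of_le h1 (min_le_right _ _))
  rw [e1] at e2
  have e3 := add_left_cancel e2
  rw [hh s hs.le, hh' s hs.le] at e3
  exact grm_smul_cancel hs e3

theorem germ_eq {f : X → Y} {x : X} {R : ℝ} {h : X → Y} (hR : 0 < R) (hh : PosHom h)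
    (hc : ConicAt f x R h) : germ f x = h := by
  have H : ∃ h : X → Y, PosHom h ∧ ∃ R > 0, ConicAt f x R h := ⟨h, hh, R, hR, hc⟩
  have e : germ f x = H.choose := by
    unfold germ
    rw [dif_pos H]
  rw [e]
  obtain ⟨h1, R', hR', hc'⟩ := H.choose_spec
  exact grm_conicAt_unique hR' hR h1 hh hc' hc

theorem LocConic.germ_spec {f : X → Y} {Ω : Set X} (hf : LocConic f Ω) {x : X} (hx : x ∈ Ω) :
    PosHom (germ f x) ∧ ∃ R > 0, ball x R ⊆ Ω ∧ ConicAt f x R (germ f x) := by
  obtain ⟨R, hR, hb, h, hh, hc⟩ := hf x hx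
  rw [germ_eq hR hh hc]
  exact ⟨hh, R, hR, hb, hc⟩

/-- shifting the base point -/
theorem ConicAt.shift {f : X → Y} {x w : X} {R r : ℝ} {h g : X → Y} (_hh : PosHom h)
    (hc : ConicAt f x R h) (hr : 0 < r) (hw : ‖w‖ + r ≤ R) :
    ConicAt f (x + w) r g ↔ ConicAt h w r g := by
  have hwR : ‖w‖ < R := by linarith
  have e0 : f (x + w) = f x + h w := hc w hwR
  have e1 : ∀ v, ‖v‖ < r → f (x + w + v) = f x + h (w + v) := by
    intro v hv
    rw [add_assoc]
    exact hc (w + v) (lt_of_le_of_lt (norm_add_le _ _) (by linarith))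
  constructor
  · intro H v hv
    have h1 := H v hv
    rw [e1 v hv, e0, add_assoc] at h1
    exact add_left_cancel h1
  · intro H v hv
    rw [e1 v hv, e0, H v hv, add_assoc]

theorem ConicAt.smul {h g : X → Y} (hh : PosHom h) (hg : PosHom g) {w : X} {r a : ℝ} (ha : 0 < a)
    (hc : ConicAt h w r g) : ConicAt h (a • w) (a * r) g := by
  intro v hv
  have e1 : a • w + v = a • (w + a⁻¹ • v) := by
    rw [smul_add, smul_smul, mul_inv_cancel₀ ha.ne', one_smul]
  have h1 : ‖a⁻¹ • v‖ < r := by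
    rw [norm_smul, Real.norm_of_nonneg (inv_pos.2 ha).le, inv_mul_lt_iff₀ ha]
    exact hv
  rw [e1, hh a ha.le, hc _ h1, smul_add, ← hh a ha.le, ← hg a ha.le, smul_smul,
    mul_inv_cancel₀ ha.ne', one_smul]

theorem ConicAt.of_lin {f : X → Y} {x w : X} {R r : ℝ} {h : X → Y} (hh : PosHom h)
    (hc : ConicAt f x R h) (hw : w ∈ lin h) (hr : ‖w‖ + r ≤ R) : ConicAt f (x + w) r h := by
  intro v hv
  have hv0 : 0 ≤ ‖v‖ := norm_nonneg v
  have h1 : ‖w + v‖ < R := lt_of_le_of_lt (norm_add_le _ _) (by linarith)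
  have h2 : ‖w‖ < R := by linarith
  rw [add_assoc, hc _ h1, hc _ h2, add_comm w v, hh.mem_lin.1 hw v]
  abel

/-- the germ at a nearby point in terms of the germ at the centre -/
theorem grm_shift_small {f : X → Y} {x w : X} {R r : ℝ} {h g : X → Y}
    (hc : ConicAt f x R h) (hw : ‖w‖ < R) (hc' : ConicAt f (x + w) r g) :
    ∀ v, ‖v‖ < min r (R - ‖w‖) → h (w + v) = h w + g v := by
  intro v hv
  have h1 : ‖v‖ < r := lt_of_lt_of_le hv (min_le_left _ _)
  have h2 : ‖v‖ < R - ‖w‖ := lt_of_lt_of_le hv (min_le_right _ _)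
  have e1 := hc' v h1
  rw [hc w hw, add_assoc, hc (w + v) (lt_of_le_of_lt (norm_add_le _ _) (by linarith)),
    add_assoc] at e1
  exact add_left_cancel e1

theorem lin_mono {f : X → Y} {x w : X} {R r : ℝ} {h g : X → Y} (hh : PosHom h) (hg : PosHom g)
    (hc : ConicAt f x R h) (hw : ‖w‖ < R) (hr : 0 < r) (hc' : ConicAt f (x + w) r g) :
    lin h ≤ lin g ∧ w ∈ lin g ∧ ∀ l ∈ lin h, g l = h l := by
  have hδ : 0 < min r (R - ‖w‖) := lt_min hr (by linarith)
  have key := grm_shift_small hc hw hc'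
  have hadd : ∀ l ∈ lin h, ∀ v, g (v + l) = g v + h l := by
    intro l hl v
    obtain ⟨s, hs, h1, h2⟩ := grm_small_scale _ hδ (v + l) v
    have e1 := key _ h1
    have e2 := key _ h2
    have e3 : h (w + s • (v + l)) = h (w + s • v) + s • h l := by
      have hsl : s • l ∈ lin h := Submodule.smul_mem _ _ hl
      rw [smul_add, ← add_assoc, hh.mem_lin.1 hsl, hh s hs.le]
    rw [e1, e2, hg s hs.le, hg s hs.le, add_assoc] at e3
    have e4 := add_left_cancel e3
    rw [← smul_add] at e4
    exact grm_smul_cancel hs e4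
  have hl0 : ∀ l ∈ lin h, g l = h l := by
    intro l hl
    have e := hadd l hl 0
    rwa [zero_add, grm_zero hg, zero_add] at e
  have hwadd : ∀ v, g (v + w) = g v + h w := by
    intro v
    obtain ⟨s, hs, h1, h2⟩ := grm_small_scale _ hδ (v + w) v
    have hs1 : 0 < 1 + s := by linarith
    have e1 := key _ h1
    have h3 : ‖(s / (1 + s)) • v‖ < min r (R - ‖w‖) := by
      refine lt_of_le_of_lt ?_ h2
      rw [norm_smul, norm_smul]
      refine mul_le_mul_of_nonneg_right ?_ (norm_nonneg _)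
      rw [Real.norm_of_nonneg hs.le, Real.norm_of_nonneg (div_pos hs hs1).le]
      exact div_le_self hs.le (by linarith)
    have e2 := key _ h3
    have e3 : w + s • (v + w) = (1 + s) • (w + (s / (1 + s)) • v) := by
      rw [smul_add, smul_add, smul_smul, mul_div_cancel₀ _ hs1.ne', add_smul, one_smul]
      abel
    rw [e3, hh _ hs1.le, e2, smul_add, ← hg _ hs1.le, smul_smul, mul_div_cancel₀ _ hs1.ne',
      hg s hs.le, hg s hs.le, add_smul, one_smul, add_assoc] at e1
    have e4 := add_left_cancel e1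
    rw [← smul_add] at e4
    have e5 := grm_smul_cancel hs e4
    rw [← e5, add_comm]
  have hw0 : g w = h w := by
    have e := hwadd 0
    rwa [zero_add, grm_zero hg, zero_add] at e
  refine ⟨?_, ?_, hl0⟩
  · intro l hl
    rw [hg.mem_lin]
    intro v
    rw [hadd l hl v, hl0 l hl]
  · rw [hg.mem_lin]
    intro v
    rw [hwadd v, hw0]

theorem LocConic.germ_locConic {f : X → Y} {Ω : Set X} (hf : LocConic f Ω) {x : X}
    (hx : x ∈ Ω) : LocConic (germ f x) univ := by
  obtain ⟨hh, R, hR, hb, hc⟩ := hf.germ_spec hx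
  intro w _
  obtain ⟨a, ha, h1, -⟩ := grm_small_scale R hR w w
  have hmem : x + a • w ∈ Ω := hb (by simpa [mem_ball, dist_eq_norm] using h1)
  obtain ⟨R', hR', -, g, hg, hc'⟩ := hf _ hmem
  have hδ : 0 < min R' (R - ‖a • w‖) := lt_min hR' (by linarith)
  have key := grm_shift_small hc h1 hc'
  have hc2 : ConicAt (germ f x) (a • w) (min R' (R - ‖a • w‖)) g := key
  have hc3 := ConicAt.smul hh hg (inv_pos.2 ha) hc2
  rw [smul_smul, inv_mul_cancel₀ ha.ne', one_smul] at hc3
  exact ⟨a⁻¹ * min R' (R - ‖a • w‖), mul_pos (inv_pos.2 ha) hδ, subset_univ _, g, hg, hc3⟩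

theorem germ_injective {f : X → Y} {Ω : Set X} (hf : LocConic f Ω) (hinj : InjOn f Ω) {x : X}
    (hx : x ∈ Ω) : Function.Injective (germ f x) := by
  obtain ⟨hh, R, hR, hb, hc⟩ := hf.germ_spec hx
  intro v v' hvv
  obtain ⟨s, hs, h1, h2⟩ := grm_small_scale R hR v v'
  have e1 := hc _ h1
  have e2 := hc _ h2
  rw [hh s hs.le, hvv, ← hh s hs.le, ← e2] at e1
  have e3 := hinj (hb (by simpa [mem_ball, dist_eq_norm] using h1))
    (hb (by simpa [mem_ball, dist_eq_norm] using h2)) e1
  have e4 := add_left_cancel e3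
  exact grm_smul_cancel hs e4

theorem germ_continuous {f : X → Y} {Ω : Set X} (hf : LocConic f Ω) (hΩ : IsOpen Ω)
    (hc : ContinuousOn f Ω) {x : X} (hx : x ∈ Ω) : Continuous (germ f x) := by
  obtain ⟨hh, R, hR, hb, hcon⟩ := hf.germ_spec hx
  rw [continuous_iff_continuousAt]
  intro w
  obtain ⟨a, ha, h1, -⟩ := grm_small_scale R hR w w
  have hmem : x + a • w ∈ Ω := hb (by simpa [mem_ball, dist_eq_norm] using h1)
  have hfc : ContinuousAt f (x + a • w) := hc.continuousAt (hΩ.mem_nhds hmem)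
  have hg : ContinuousAt (fun v : X => a⁻¹ • (f (x + a • v) - f x)) w := by
    have h2 : ContinuousAt (fun v : X => f (x + a • v)) w :=
      ContinuousAt.comp (f := fun v : X => x + a • v) hfc (by fun_prop)
    exact (h2.sub continuousAt_const).const_smul _
  refine hg.congr ?_
  have hopen : ∀ᶠ v in 𝓝 w, ‖a • v‖ < R := by
    have hcn : ContinuousAt (fun v : X => ‖a • v‖) w := by fun_prop
    exact hcn.eventually (gt_mem_nhds h1)
  filter_upwards [hopen] with v hv
  rw [hcon _ hv, add_sub_cancel_left, hh a ha.le, smul_smul, inv_mul_cancel₀ ha.ne', one_smul]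

end SM
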