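import Pool.Agent.SM.Defs
import Pool.Agent.SM.Grm

/-!
# Project SM, module PAH
-/

open Set Metric Filter Topology MeasureTheory
open scoped ContDiff Pointwise

noncomputable section

namespace SM

/-- a map which is affine on short radial segments is conic -/
theorem exists_conic_of_radial {X Y : Type*} [NormedAddCommGroup X] [NormedSpace ℝ X]
    [NormedAddCommGroup Y] [NormedSpace ℝ Y] {f : X → Y} {x : X} {R : ℝ} (hR : 0 < R)
    (h : ∀ v, ‖v‖ < R → ∀ t ∈ Icc (0 : ℝ) 1, f (x + t • v) - f x = t • (f (x + v) - f x)) :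
    ∃ g : X → Y, PosHom g ∧ ConicAt f x R g := by
  -- independence of the scale
  have key1 : ∀ (v : X) (a b : ℝ), 0 < a → a ≤ b → ‖b • v‖ < R →
      a⁻¹ • (f (x + a • v) - f x) = b⁻¹ • (f (x + b • v) - f x) := by
    intro v a b ha hab hb
    have hb0 : 0 < b := lt_of_lt_of_le ha hab
    have h1 := h (b • v) hb (a / b) ⟨by positivity, by rw [div_le_one hb0]; exact hab⟩
    rw [smul_smul, div_mul_cancel₀ _ hb0.ne'] at h1
    rw [h1, smul_smul]
    congr 1
    field_simp
  have key : ∀ (v : X) (a b : ℝ), 0 < a → 0 < b → ‖a • v‖ < R → ‖b • v‖ < R →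
      a⁻¹ • (f (x + a • v) - f x) = b⁻¹ • (f (x + b • v) - f x) := by
    intro v a b ha hb ha' hb'
    rcases le_total a b with hab | hab
    · exact key1 v a b ha hab hb'
    · exact (key1 v b a hb hab ha').symm
  have hl : ∀ v : X, ‖(R / (‖v‖ + R)) • v‖ < R := by
    intro v
    have h1 : 0 < ‖v‖ + R := by positivity
    rw [norm_smul, Real.norm_of_nonneg (by positivity), div_mul_eq_mul_div, div_lt_iff₀ h1]
    nlinarith [norm_nonneg v]
  have hl0 : ∀ v : X, 0 < R / (‖v‖ + R) := fun v => by positivity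
  refine ⟨fun v => (R / (‖v‖ + R))⁻¹ • (f (x + (R / (‖v‖ + R)) • v) - f x), ?_, ?_⟩
  · intro a ha v
    rcases ha.eq_or_lt with rfl | ha0
    · simp
    · have h1 := hl (a • v)
      have h2 := hl0 (a • v)
      set l := R / (‖a • v‖ + R) with hldef
      rw [smul_smul] at h1
      have h3 := key v (l * a) (R / (‖v‖ + R)) (by positivity) (hl0 v) h1 (hl v)
      simp only
      rw [← h3, smul_smul, smul_smul, ← hldef]
      congr 1
      field_simp
  · intro v hv
    have h1 := key v 1 (R / (‖v‖ + R)) one_pos (hl0 v) (by rwa [one_smul]) (hl v)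
    simp only
    rw [← h1, inv_one, one_smul, one_smul]
    abel

theorem IsPAHomeo.locConic {Ω : Set E3} (hΩ : IsOpen Ω) {f : E3 → E3} (hf : IsPAHomeo Ω f) :
    LocConic f Ω := by
  obtain ⟨ι, _, s, -, -, -, hcov, hfin, haff⟩ := hf.pieces
  intro x hx
  obtain ⟨r, hr, hrΩ⟩ := Metric.isOpen_iff.mp hΩ x hx
  have hcb : closedBall x (r / 2) ⊆ Ω :=
    (closedBall_subset_ball (by linarith)).trans hrΩ
  set I : Set ι := {i | (convexHull ℝ (range (s i)) ∩ closedBall x (r / 2)).Nonempty} with hI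
  have hIf : I.Finite := hfin _ (isCompact_closedBall x (r / 2)) hcb
  set J : Set ι := {i | i ∈ I ∧ x ∉ convexHull ℝ (range (s i))} with hJ
  have hJf : J.Finite := hIf.subset fun i hi => hi.1
  have hclosed : IsClosed (⋃ i ∈ J, convexHull ℝ (range (s i))) :=
    hJf.isClosed_biUnion fun i _ => ((finite_range (s i)).isCompact_convexHull (𝕜 := ℝ)).isClosed
  have hxJ : x ∈ (⋃ i ∈ J, convexHull ℝ (range (s i)))ᶜ := by
    intro h
    rw [mem_iUnion₂] at h
    obtain ⟨i, hi, hxi⟩ := h
    exact hi.2 hxi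
  obtain ⟨ρ, hρ, hρJ⟩ := Metric.isOpen_iff.mp hclosed.isOpen_compl x hxJ
  set R : ℝ := min ρ (r / 2) with hR
  have hR0 : 0 < R := lt_min hρ (by linarith)
  refine ⟨R, hR0, (ball_subset_ball (min_le_right _ _)).trans
    (ball_subset_closedBall.trans hcb), ?_⟩
  apply exists_conic_of_radial hR0
  intro v hv t ht
  have hy : x + v ∈ ball x R := by
    rw [mem_ball_iff_norm, add_sub_cancel_left]
    exact hv
  have hyΩ : x + v ∈ Ω := hcb (ball_subset_closedBall (ball_subset_ball (min_le_right _ _) hy))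
  obtain ⟨i, hi⟩ := mem_iUnion.mp (hcov hyΩ)
  have hiI : i ∈ I :=
    ⟨x + v, hi, ball_subset_closedBall (ball_subset_ball (min_le_right _ _) hy)⟩
  have hxi : x ∈ convexHull ℝ (range (s i)) := by
    by_contra hxi
    apply hρJ (ball_subset_ball (min_le_left _ _) hy)
    rw [mem_iUnion₂]
    exact ⟨i, ⟨hiI, hxi⟩, hi⟩
  obtain ⟨A, hA⟩ := haff i
  have h1 : x + t • v = AffineMap.lineMap x (x + v) t := by
    rw [AffineMap.lineMap_apply_module']
    rw [add_sub_cancel_left, add_comm]
  have hseg : x + t • v ∈ convexHull ℝ (range (s i)) := by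
    have h2 : x + t • v = (1 - t) • x + t • (x + v) := by
      rw [smul_add, sub_smul, one_smul]
      abel
    rw [h2]
    exact (convex_convexHull ℝ _) hxi hi (by linarith [ht.2]) ht.1 (by ring)
  rw [hA hseg, hA hi, hA hxi, h1, AffineMap.apply_lineMap, AffineMap.lineMap_apply_module']
  abel

end SM
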