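import Pool.Agent.SM.Defs

/-!
# Project SM, module CON (constants of edge germs)
-/

open Set Metric Filter Topology MeasureTheory
open scoped ContDiff Pointwise

noncomputable section

namespace SM

theorem cOf_pos (h : E3 → E3) : 0 < cOf h := by
  unfold cOf pathOf
  split_ifs with H
  · exact H.choose_spec.cpos
  · norm_num

theorem COf_pos (h : E3 → E3) : 0 < COf h := by
  unfold COf pathOf
  split_ifs with H
  · exact H.choose_spec.Cpos
  · norm_num

theorem NOf_ge (h : E3 → E3) : 16 ≤ NOf h := by
  have h1 := cOf_pos h
  have h2 := COf_pos h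
  have h3 : 0 < COf h / cOf h := div_pos h2 h1
  unfold NOf
  linarith

end SM
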