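import Pool.Agent.SM.Defs

/-!
# Project SM, module CUT
-/

open Set Metric Filter Topology MeasureTheory
open scoped ContDiff Pointwise

noncomputable section

namespace SM

theorem cut_inner_pos (M r : ℝ) : 0 < max (Real.exp (-M)) (min r 1) :=
  lt_of_lt_of_le (Real.exp_pos _) (le_max_left _ _)

theorem cut_inner_le_one {M r : ℝ} (hM : 0 < M) : max (Real.exp (-M)) (min r 1) ≤ 1 := by
  refine max_le ?_ (min_le_right _ _)
  rw [Real.exp_le_one_iff]
  linarith

theorem cut_nonneg {M r : ℝ} (hM : 0 < M) : 0 ≤ cut M r := by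
  unfold cut
  have h1 := Real.log_nonpos (cut_inner_pos M r).le (cut_inner_le_one hM)
  exact div_nonneg (by linarith) hM.le

theorem cut_le_one {M r : ℝ} (hM : 0 < M) : cut M r ≤ 1 := by
  unfold cut
  rw [div_le_one hM]
  have h1 : Real.log (Real.exp (-M)) ≤ Real.log (max (Real.exp (-M)) (min r 1)) :=
    Real.log_le_log (Real.exp_pos _) (le_max_left _ _)
  rw [Real.log_exp] at h1
  linarith

theorem cut_of_one_le {M r : ℝ} (hM : 0 < M) (hr : 1 ≤ r) : cut M r = 0 := by
  unfold cut
  have h0 : Real.exp (-M) ≤ 1 := by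
    rw [Real.exp_le_one_iff]
    linarith
  rw [min_eq_right hr, max_eq_right h0, Real.log_one]
  simp

theorem cut_of_le {M r : ℝ} (hM : 0 < M) (hr : r ≤ Real.exp (-M)) : cut M r = 1 := by
  unfold cut
  have h0 : Real.exp (-M) ≤ 1 := by
    rw [Real.exp_le_one_iff]
    linarith
  rw [min_eq_left (hr.trans h0), max_eq_left hr, Real.log_exp]
  simp [hM.ne']

theorem continuous_cut (M : ℝ) : Continuous (cut M) := by
  unfold cut
  refine Continuous.div_const (Continuous.neg ?_) _
  refine Continuous.log ?_ (fun r => (cut_inner_pos M r).ne')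
  exact continuous_const.max (continuous_id.min continuous_const)

theorem cut_slow_aux {M a a' b b' : ℝ} (hM : 0 < M) (ha : 0 ≤ a) (ha' : 0 ≤ a') (hb : 0 < b)
    (hb' : 0 < b') (h : cut M (a' / b') < cut M (a / b)) :
    (cut M (a / b) - cut M (a' / b')) * min a a' ≤ (|a - a'| + |b - b'|) / M := by
  rcases ha.eq_or_lt with h0 | hapos
  · rw [← h0, min_eq_left ha', mul_zero]
    positivity
  rw [le_div_iff₀ hM]
  set r := a / b with hr
  set r' := a' / b' with hr'
  have hrpos : 0 < r := div_pos hapos hb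
  have hlog : (cut M r - cut M r') * M =
      Real.log (max (Real.exp (-M)) (min r' 1)) - Real.log (max (Real.exp (-M)) (min r 1)) := by
    unfold cut
    field_simp
    ring
  have hlt : Real.log (max (Real.exp (-M)) (min r 1)) <
      Real.log (max (Real.exp (-M)) (min r' 1)) := by
    have := mul_pos (sub_pos.2 h) hM
    rw [hlog] at this
    linarith
  have hlt2 : max (Real.exp (-M)) (min r 1) < max (Real.exp (-M)) (min r' 1) :=
    (Real.log_lt_log_iff (cut_inner_pos _ _) (cut_inner_pos _ _)).1 hlt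
  have h1 : Real.exp (-M) < min r' 1 := by
    by_contra hcon
    push Not at hcon
    rw [max_eq_left hcon] at hlt2
    exact absurd (le_max_left (Real.exp (-M)) (min r 1)) (not_le.2 hlt2)
  have hmax' : max (Real.exp (-M)) (min r' 1) = min r' 1 := max_eq_right h1.le
  have hr1 : r < 1 := by
    by_contra hcon
    push Not at hcon
    rw [min_eq_right hcon] at hlt2
    exact absurd (cut_inner_le_one (r := r') hM) (not_le.2 (lt_of_le_of_lt (le_max_right _ _) hlt2))
  have hminr : min r 1 = r := min_eq_left hr1.le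
  have h2 : r ≤ max (Real.exp (-M)) (min r 1) := by
    rw [hminr]; exact le_max_right _ _
  have h3 : Real.log r ≤ Real.log (max (Real.exp (-M)) (min r 1)) := Real.log_le_log hrpos h2
  have hm'pos : 0 < min r' 1 := lt_trans (Real.exp_pos _) h1
  have h4 : (cut M r - cut M r') * M ≤ min r' 1 / r - 1 := by
    rw [hlog, hmax']
    have h5 := Real.log_le_sub_one_of_pos (div_pos hm'pos hrpos)
    rw [Real.log_div hm'pos.ne' hrpos.ne'] at h5
    linarith
  have h5 : 0 ≤ (cut M r - cut M r') * M := (mul_pos (sub_pos.2 h) hM).le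
  have h6 : (cut M r - cut M r') * min a a' * M ≤ min r' 1 * b - a := by
    calc (cut M r - cut M r') * min a a' * M = (cut M r - cut M r') * M * min a a' := by ring
      _ ≤ (cut M r - cut M r') * M * a := mul_le_mul_of_nonneg_left (min_le_left _ _) h5
      _ ≤ (min r' 1 / r - 1) * a := mul_le_mul_of_nonneg_right h4 hapos.le
      _ = min r' 1 * b - a := by
        rw [hr]
        field_simp
  refine h6.trans ?_
  rcases le_or_gt a' b' with hle | hgt
  · have hr'1 : r' ≤ 1 := (div_le_one hb').2 hle
    have hr'0 : 0 ≤ r' := div_nonneg ha' hb'.le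
    rw [min_eq_left hr'1]
    have e1 : r' * b' = a' := by rw [hr']; field_simp
    have e2 : r' * b - a = r' * (b - b') + (a' - a) := by
      rw [← e1]; ring
    rw [e2]
    have e3 : r' * (b - b') ≤ |b - b'| := by
      calc r' * (b - b') ≤ r' * |b - b'| := mul_le_mul_of_nonneg_left (le_abs_self _) hr'0
        _ ≤ 1 * |b - b'| := mul_le_mul_of_nonneg_right hr'1 (abs_nonneg _)
        _ = |b - b'| := one_mul _
    have e4 : a' - a ≤ |a - a'| := by rw [abs_sub_comm]; exact le_abs_self _
    linarith
  · have hr'1 : 1 ≤ r' := (one_le_div hb').2 hgt.le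
    rw [min_eq_right hr'1, one_mul]
    have e3 : b - b' ≤ |b - b'| := le_abs_self _
    have e4 : a' - a ≤ |a - a'| := by rw [abs_sub_comm]; exact le_abs_self _
    linarith

theorem cut_slow {M a a' b b' : ℝ} (hM : 0 < M) (ha : 0 ≤ a) (ha' : 0 ≤ a') (hb : 0 < b)
    (hb' : 0 < b') :
    |cut M (a / b) - cut M (a' / b')| * min a a' ≤ (|a - a'| + |b - b'|) / M := by
  rcases lt_trichotomy (cut M (a / b)) (cut M (a' / b')) with h | h | h
  · have h1 := cut_slow_aux hM ha' ha hb' hb h
    rw [abs_of_neg (sub_neg.2 h), neg_sub, min_comm, abs_sub_comm a a', abs_sub_comm b b']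
    exact h1
  · rw [h, sub_self, abs_zero, zero_mul]
    positivity
  · rw [abs_of_pos (sub_pos.2 h)]
    exact cut_slow_aux hM ha ha' hb hb' h

end SM
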