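import Pool.Agent.SM.Defs

/-!
# Project SM, module SEC (secant calculus)
-/

open Set Metric Filter Topology MeasureTheory
open scoped ContDiff Pointwise

noncomputable section

namespace SM

variable {X Y P Q : Type*} [NormedAddCommGroup X] [NormedSpace ℝ X] [FiniteDimensional ℝ X]
  [NormedAddCommGroup Y] [NormedSpace ℝ Y] [FiniteDimensional ℝ Y]
  [TopologicalSpace P] [TopologicalSpace Q]

theorem GoodSet.thicken {c ε : ℝ} {K : Set (X →L[ℝ] Y)} (hK : GoodSet c K) (hε : 0 ≤ ε) :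
    GoodSet (c - ε) (K + closedBall 0 ε) := by
  have : ProperSpace (X →L[ℝ] Y) := FiniteDimensional.proper ℝ _
  refine ⟨hK.convex.add (convex_closedBall _ _), hK.compact.add (isCompact_closedBall _ _), ?_⟩
  rintro M ⟨M₁, h₁, M₂, h₂, rfl⟩ x
  have h3 : ‖M₂‖ ≤ ε := by simpa using h₂
  have h4 : ‖M₂ x‖ ≤ ε * ‖x‖ := (M₂.le_opNorm x).trans
    (mul_le_mul_of_nonneg_right h3 (norm_nonneg _))
  have h5 := hK.lower M₁ h₁ x
  have h6 : ‖M₁ x‖ ≤ ‖(M₁ + M₂) x‖ + ‖M₂ x‖ := by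
    have : M₁ x = (M₁ + M₂) x - M₂ x := by simp
    rw [this]
    exact norm_sub_le _ _
  change (c - ε) * ‖x‖ ≤ ‖(M₁ + M₂) x‖
  nlinarith

omit [FiniteDimensional ℝ X] [FiniteDimensional ℝ Y] in
theorem GoodSet.mono {c c' : ℝ} {K : Set (X →L[ℝ] Y)} (hK : GoodSet c K) (h : c' ≤ c) :
    GoodSet c' K :=
  ⟨hK.convex, hK.compact, fun M hM x =>
    (mul_le_mul_of_nonneg_right h (norm_nonneg _)).trans (hK.lower M hM x)⟩

omit [FiniteDimensional ℝ X] [FiniteDimensional ℝ Y] in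
theorem goodSet_singleton {c : ℝ} {A : X →L[ℝ] Y} (h : ∀ x, c * ‖x‖ ≤ ‖A x‖) :
    GoodSet c {A} :=
  ⟨convex_singleton _, isCompact_singleton, fun M hM x => by
    rw [mem_singleton_iff] at hM
    rw [hM]
    exact h x⟩

/-- a rank one correction -/
theorem exists_rank_one {v : X} {e : Y} {ε : ℝ} (hε : 0 ≤ ε) (h : ‖e‖ ≤ ε * ‖v‖) :
    ∃ N : X →L[ℝ] Y, N ∈ closedBall (0 : X →L[ℝ] Y) ε ∧ N v = e := by
  rcases eq_or_ne v 0 with rfl | hv
  · refine ⟨0, by simpa using hε, ?_⟩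
    have : ‖e‖ ≤ 0 := by simpa using h
    simpa using (norm_le_zero_iff.1 this).symm
  · obtain ⟨l, hl1, hl2⟩ := exists_dual_vector ℝ v (norm_ne_zero_iff.2 hv)
    have hv' : (0 : ℝ) < ‖v‖ := norm_pos_iff.2 hv
    refine ⟨l.smulRight (‖v‖⁻¹ • e), ?_, ?_⟩
    · rw [mem_closedBall, dist_zero_right]
      refine ContinuousLinearMap.opNorm_le_bound _ hε fun x => ?_
      simp only [ContinuousLinearMap.smulRight_apply, norm_smul, norm_inv, norm_norm]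
      have h1 : ‖l x‖ ≤ ‖x‖ := by
        have := l.le_opNorm x
        rwa [hl1, one_mul] at this
      have h2 : ‖v‖⁻¹ * ‖e‖ ≤ ε := by
        rw [inv_mul_le_iff₀ hv']
        linarith [h]
      calc ‖l x‖ * (‖v‖⁻¹ * ‖e‖) ≤ ‖x‖ * ε := by
            apply mul_le_mul h1 h2 (by positivity) (norm_nonneg _)
        _ = ε * ‖x‖ := mul_comm _ _
    · have hl3 : l v = ‖v‖ := by simpa using hl2
      rw [ContinuousLinearMap.smulRight_apply, hl3, smul_smul, mul_inv_cancel₀ hv'.ne', one_smul]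

/-- an approximate secant condition gives a true one -/
theorem secOn_of_near {f : X → Y} {K : Set (X →L[ℝ] Y)} {U : Set X} {ε : ℝ} (hε : 0 ≤ ε)
    (h : ∀ x ∈ U, ∀ x' ∈ U, ∃ M ∈ K, ‖f x - f x' - M (x - x')‖ ≤ ε * ‖x - x'‖) :
    SecOn f (K + closedBall 0 ε) U := by
  intro x hx x' hx'
  obtain ⟨M, hM, hM'⟩ := h x hx x' hx'
  obtain ⟨N, hN, hN'⟩ := exists_rank_one hε hM'
  refine ⟨M + N, Set.add_mem_add hM hN, ?_⟩
  rw [add_apply, hN']
  abel

theorem famGood_of_near {h : P → X → Y} {p : P} {x₀ : X} {c ε r : ℝ} {K : Set (X →L[ℝ] Y)}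
    (hK : GoodSet c K) (hε : 0 ≤ ε) (hr : 0 < r)
    (H : ∀ᶠ q in 𝓝 p, ∀ x ∈ ball x₀ r, ∀ x' ∈ ball x₀ r,
      ∃ M ∈ K, ‖h q x - h q x' - M (x - x')‖ ≤ ε * ‖x - x'‖) :
    FamGood (c - ε) h p x₀ :=
  ⟨K + closedBall 0 ε, hK.thicken hε, r, hr, H.mono fun _ hq => secOn_of_near hε hq⟩

theorem secGood_of_near {f : X → Y} {x₀ : X} {c ε r : ℝ} {K : Set (X →L[ℝ] Y)}
    (hK : GoodSet c K) (hε : 0 ≤ ε) (hr : 0 < r)
    (H : ∀ x ∈ ball x₀ r, ∀ x' ∈ ball x₀ r,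
      ∃ M ∈ K, ‖f x - f x' - M (x - x')‖ ≤ ε * ‖x - x'‖) :
    SecGood (c - ε) f x₀ :=
  ⟨K + closedBall 0 ε, hK.thicken hε, r, hr, secOn_of_near hε H⟩

omit [FiniteDimensional ℝ X] [FiniteDimensional ℝ Y] in
theorem SecGood.mono {c c' : ℝ} {f : X → Y} {x : X} (h : SecGood c f x) (hc : c' ≤ c) :
    SecGood c' f x := by
  obtain ⟨K, hK, r, hr, H⟩ := h
  exact ⟨K, hK.mono hc, r, hr, H⟩

omit [FiniteDimensional ℝ X] [FiniteDimensional ℝ Y] in
theorem FamGood.mono {c c' : ℝ} {h : P → X → Y} {p : P} {x : X} (hg : FamGood c h p x)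
    (hc : c' ≤ c) : FamGood c' h p x := by
  obtain ⟨K, hK, r, hr, H⟩ := hg
  exact ⟨K, hK.mono hc, r, hr, H⟩

omit [FiniteDimensional ℝ X] [FiniteDimensional ℝ Y] in
theorem FamGood.secGood {c : ℝ} {h : P → X → Y} {p : P} {x : X} (hg : FamGood c h p x) :
    SecGood c (h p) x := by
  obtain ⟨K, hK, r, hr, H⟩ := hg
  exact ⟨K, hK, r, hr, H.self_of_nhds⟩

omit [FiniteDimensional ℝ X] [FiniteDimensional ℝ Y] in
theorem SecGood.famGood {c : ℝ} {f : X → Y} {x : X} (hg : SecGood c f x) (p : P) :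
    FamGood c (fun _ : P => f) p x := by
  obtain ⟨K, hK, r, hr, H⟩ := hg
  exact ⟨K, hK, r, hr, Eventually.of_forall fun _ => H⟩

omit [FiniteDimensional ℝ X] [FiniteDimensional ℝ Y] in
theorem FamGood.comp_param {c : ℝ} {h : P → X → Y} {φ : Q → P} {q : Q} {x : X}
    (hg : FamGood c h (φ q) x) (hφ : ContinuousAt φ q) :
    FamGood c (fun q => h (φ q)) q x := by
  obtain ⟨K, hK, r, hr, H⟩ := hg
  exact ⟨K, hK, r, hr, hφ.eventually H⟩

omit [FiniteDimensional ℝ X] [FiniteDimensional ℝ Y] in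
theorem FamGood.congr {c : ℝ} {h h' : P → X → Y} {p : P} {x : X} (hg : FamGood c h p x)
    (he : ∀ᶠ z : P × X in 𝓝 (p, x), h z.1 z.2 = h' z.1 z.2) : FamGood c h' p x := by
  obtain ⟨K, hK, r, hr, H⟩ := hg
  rw [nhds_prod_eq, Filter.eventually_prod_iff] at he
  obtain ⟨pa, hpa, pb, hpb, hab⟩ := he
  obtain ⟨r', hr', hb⟩ := Metric.eventually_nhds_iff_ball.1 hpb
  refine ⟨K, hK, min r r', lt_min hr hr', ?_⟩
  filter_upwards [H, hpa] with q hq hq' y hy y' hy'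
  have h1 := hab hq' (hb y (ball_subset_ball (min_le_right _ _) hy))
  have h2 := hab hq' (hb y' (ball_subset_ball (min_le_right _ _) hy'))
  obtain ⟨M, hM, hM'⟩ := hq y (ball_subset_ball (min_le_left _ _) hy) y'
    (ball_subset_ball (min_le_left _ _) hy')
  refine ⟨M, hM, ?_⟩
  simp only at h1 h2
  rw [← h1, ← h2, hM']

omit [FiniteDimensional ℝ X] [FiniteDimensional ℝ Y] in
theorem SecGood.congr {c : ℝ} {f f' : X → Y} {x : X} (hg : SecGood c f x)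
    (he : f =ᶠ[𝓝 x] f') : SecGood c f' x := by
  obtain ⟨K, hK, r, hr, H⟩ := hg
  obtain ⟨r', hr', hb⟩ := Metric.eventually_nhds_iff_ball.1 he
  refine ⟨K, hK, min r r', lt_min hr hr', fun y hy y' hy' => ?_⟩
  obtain ⟨M, hM, hM'⟩ := H y (ball_subset_ball (min_le_left _ _) hy) y'
    (ball_subset_ball (min_le_left _ _) hy')
  exact ⟨M, hM, by rw [← hb y (ball_subset_ball (min_le_right _ _) hy),
    ← hb y' (ball_subset_ball (min_le_right _ _) hy'), hM']⟩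

omit [FiniteDimensional ℝ X] [FiniteDimensional ℝ Y] in
theorem FamGood.eventually {c : ℝ} {h : P → X → Y} {p : P} {x : X} (hg : FamGood c h p x) :
    ∀ᶠ z : P × X in 𝓝 (p, x), FamGood c h z.1 z.2 := by
  obtain ⟨K, hK, r, hr, H⟩ := hg
  rw [nhds_prod_eq]
  have h1 : ∀ᶠ q in 𝓝 p, ∀ᶠ q' in 𝓝 q, SecOn (h q') K (ball x r) :=
    eventually_eventually_nhds.2 H
  have h2 : ∀ᶠ y in 𝓝 x, y ∈ ball x r := ball_mem_nhds x hr
  filter_upwards [h1.prod_mk h2] with z hz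
  obtain ⟨s, hs, hs'⟩ : ∃ s > 0, ball z.2 s ⊆ ball x r :=
    Metric.isOpen_iff.1 isOpen_ball z.2 hz.2
  exact ⟨K, hK, s, hs, hz.1.mono fun q hq y hy y' hy' => hq y (hs' hy) y' (hs' hy')⟩

/-- injective linear maps in finite dimension are bounded below -/
theorem exists_lower {A : X →L[ℝ] Y} (hA : ∀ v, A v = 0 → v = 0) :
    ∃ a > 0, ∀ v, a * ‖v‖ ≤ ‖A v‖ := by
  have hk : LinearMap.ker (A : X →ₗ[ℝ] Y) = ⊥ := by
    rw [LinearMap.ker_eq_bot']
    intro m hm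
    exact hA m hm
  obtain ⟨K, hK, hA'⟩ := (A : X →ₗ[ℝ] Y).exists_antilipschitzWith hk
  refine ⟨(K : ℝ)⁻¹, by positivity, fun v => ?_⟩
  have := hA'.le_mul_dist v 0
  simp only [dist_zero_right, map_zero] at this
  rw [inv_mul_le_iff₀ (by exact_mod_cast hK)]
  exact this

omit [FiniteDimensional ℝ X] [FiniteDimensional ℝ Y] in
/-- a compact family of linear maps is bounded -/
theorem GoodSet.bounded {c : ℝ} {K : Set (X →L[ℝ] Y)} (hK : GoodSet c K) :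
    ∃ Λ > 0, ∀ M ∈ K, ‖M‖ ≤ Λ := by
  obtain ⟨R, hR⟩ := hK.compact.isBounded.exists_norm_le
  exact ⟨max R 1, lt_max_of_lt_right one_pos, fun M hM => (hR M hM).trans (le_max_left _ _)⟩

/-- `C¹` families with injective derivative are good. -/
theorem famGood_of_contDiffAt {h : ℝ → X → Y} {t₀ : ℝ} {x₀ : X}
    (hh : ContDiffAt ℝ 1 (fun q : ℝ × X => h q.1 q.2) (t₀, x₀))
    (hinj : ∀ v, fderiv ℝ (h t₀) x₀ v = 0 → v = 0) : ∃ c > 0, FamGood c h t₀ x₀ := by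
  obtain ⟨a, ha, hA⟩ := exists_lower hinj
  have hs := hh.hasStrictFDerivAt (by norm_num)
  set D := fderiv ℝ (fun q : ℝ × X => h q.1 q.2) (t₀, x₀) with hD
  have hd : fderiv ℝ (h t₀) x₀ = D.comp (ContinuousLinearMap.inr ℝ ℝ X) := by
    have h1 : HasFDerivAt (fun x : X => (t₀, x)) (ContinuousLinearMap.inr ℝ ℝ X) x₀ :=
      hasFDerivAt_prodMk_right t₀ x₀
    exact (HasFDerivAt.comp x₀ hs.hasFDerivAt h1).fderiv
  refine ⟨a - a / 2, by linarith, ?_⟩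
  have hε : 0 < a / 2 := by linarith
  have h2 := hs.isLittleO.def hε
  rw [nhds_prod_eq] at h2
  obtain ⟨s, hs1, hs2⟩ : ∃ s > 0, ∀ q ∈ ball ((t₀, x₀) : ℝ × X) s,
      ∀ q' ∈ ball ((t₀, x₀) : ℝ × X) s, ‖h q.1 q.2 - h q'.1 q'.2 - D (q - q')‖ ≤
        a / 2 * ‖q - q'‖ := by
    rw [← nhds_prod_eq, Metric.eventually_nhds_iff_ball] at h2
    obtain ⟨s, hs1, hs2⟩ := h2
    refine ⟨s, hs1, fun q hq q' hq' => hs2 (q, q') ?_⟩
    rw [mem_ball, Prod.dist_eq]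
    exact max_lt hq hq'
  refine famGood_of_near (K := {fderiv ℝ (h t₀) x₀}) (goodSet_singleton hA) hε.le hs1 ?_
  filter_upwards [ball_mem_nhds t₀ hs1] with t ht x hx x' hx'
  refine ⟨_, rfl, ?_⟩
  have hq : ((t, x) : ℝ × X) ∈ ball ((t₀, x₀) : ℝ × X) s := by
    rw [mem_ball, Prod.dist_eq]
    exact max_lt ht hx
  have hq' : ((t, x') : ℝ × X) ∈ ball ((t₀, x₀) : ℝ × X) s := by
    rw [mem_ball, Prod.dist_eq]
    exact max_lt ht hx'
  have := hs2 _ hq _ hq'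
  rw [hd]
  simp only [Prod.mk_sub_mk, sub_self] at this
  have h3 : ‖((0 : ℝ), x - x')‖ = ‖x - x'‖ := by
    rw [Prod.norm_def]
    simp
  rw [h3] at this
  simpa using this

theorem secGood_of_contDiffAt {f : X → Y} {x₀ : X} (hf : ContDiffAt ℝ 1 f x₀)
    (hinj : ∀ v, fderiv ℝ f x₀ v = 0 → v = 0) : ∃ c > 0, SecGood c f x₀ := by
  have h1 : ContDiffAt ℝ 1 (fun q : ℝ × X => (fun _ : ℝ => f) q.1 q.2) (0, x₀) :=
    ContDiffAt.comp (0, x₀) (g := f) (f := Prod.snd) hf contDiffAt_snd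
  obtain ⟨c, hc, hg⟩ := famGood_of_contDiffAt (h := fun _ : ℝ => f) h1 hinj
  exact ⟨c, hc, hg.secGood⟩

/-- composition with strictly differentiable maps on both sides -/
theorem FamGood.conj {X' Y' : Type*} [NormedAddCommGroup X'] [NormedSpace ℝ X']
    [FiniteDimensional ℝ X'] [NormedAddCommGroup Y'] [NormedSpace ℝ Y'] [FiniteDimensional ℝ Y']
    {c : ℝ} {h : P → X → Y} {p : P} {φ : X' → X} {χ : Y → Y'} {x₀ : X'} {A : X' →L[ℝ] X}
    {B : Y →L[ℝ] Y'} (hc : 0 < c) (hg : FamGood c h p (φ x₀))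
    (hcont : ContinuousAt (fun z : P × X => h z.1 z.2) (p, φ x₀))
    (hφ : HasStrictFDerivAt φ A x₀) (hA : ∀ v, A v = 0 → v = 0)
    (hχ : HasStrictFDerivAt χ B (h p (φ x₀))) (hB : ∀ v, B v = 0 → v = 0) :
    ∃ c' > 0, FamGood c' (fun q x => χ (h q (φ x))) p x₀ := by
  obtain ⟨K, hK, r, hr, H⟩ := hg
  obtain ⟨a, ha, hA'⟩ := exists_lower hA
  obtain ⟨b, hb, hB'⟩ := exists_lower hB
  obtain ⟨Λ, hΛ, hΛ'⟩ := hK.bounded
  set α := ‖A‖ + 1 with hα
  have hα0 : 0 < α := by positivity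
  set β := ‖B‖ + 1 with hβ
  have hβ0 : 0 < β := by positivity
  -- error size
  set ε := b * c * a / (2 * (Λ * α + β * Λ)) with hε
  have hden : 0 < 2 * (Λ * α + β * Λ) := by positivity
  have hε0 : 0 < ε := by positivity
  have hε' : ε * (Λ * α + β * Λ) = b * c * a / 2 := by
    rw [hε]
    field_simp
  set η := min ε 1 with hη
  have hη0 : 0 < η := lt_min hε0 one_pos
  -- the set
  let L : (X →L[ℝ] Y) → (X' →L[ℝ] Y') := fun M => (B.comp M).comp A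
  have hLc : Continuous L := by
    have h1 : Continuous fun M : X →L[ℝ] Y => B.comp M := by fun_prop
    have h2 : Continuous fun N : X →L[ℝ] Y' => N.comp A := by fun_prop
    exact h2.comp h1
  have hKL : GoodSet (b * c * a) (L '' K) := by
    refine ⟨?_, hK.compact.image hLc, ?_⟩
    · rintro _ ⟨M, hM, rfl⟩ _ ⟨N, hN, rfl⟩ s t hs ht hst
      refine ⟨s • M + t • N, hK.convex hM hN hs ht hst, ?_⟩
      ext v
      simp [L]
    · rintro _ ⟨M, hM, rfl⟩ v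
      have h1 := hA' v
      have h2 := hK.lower M hM (A v)
      have h3 := hB' (M (A v))
      simp only [L, ContinuousLinearMap.comp_apply]
      have h4 : c * (a * ‖v‖) ≤ c * ‖A v‖ := mul_le_mul_of_nonneg_left h1 hc.le
      have h5 : b * (c * (a * ‖v‖)) ≤ b * ‖M (A v)‖ :=
        mul_le_mul_of_nonneg_left (h4.trans h2) hb.le
      calc b * c * a * ‖v‖ = b * (c * (a * ‖v‖)) := by ring
        _ ≤ _ := h5.trans h3
  -- strict derivative of φ near x₀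
  obtain ⟨s₁, hs₁, hφ1⟩ : ∃ s > 0, ∀ x ∈ ball x₀ s, ∀ x' ∈ ball x₀ s,
      ‖φ x - φ x' - A (x - x')‖ ≤ η * ‖x - x'‖ := by
    have h1 := hφ.isLittleO.def hη0
    rw [Metric.eventually_nhds_iff_ball] at h1
    obtain ⟨s, hs, h1⟩ := h1
    refine ⟨s, hs, fun x hx x' hx' => h1 (x, x') ?_⟩
    rw [mem_ball, Prod.dist_eq]
    exact max_lt hx hx'
  obtain ⟨s₂, hs₂, hχ1⟩ : ∃ s > 0, ∀ y ∈ ball (h p (φ x₀)) s, ∀ y' ∈ ball (h p (φ x₀)) s,
      ‖χ y - χ y' - B (y - y')‖ ≤ ε * ‖y - y'‖ := by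
    have h1 := hχ.isLittleO.def hε0
    rw [Metric.eventually_nhds_iff_ball] at h1
    obtain ⟨s, hs, h1⟩ := h1
    refine ⟨s, hs, fun x hx x' hx' => h1 (x, x') ?_⟩
    rw [mem_ball, Prod.dist_eq]
    exact max_lt hx hx'
  have hcont' : ∀ᶠ z : P × X in 𝓝 (p, φ x₀), h z.1 z.2 ∈ ball (h p (φ x₀)) s₂ :=
    hcont.eventually (ball_mem_nhds _ hs₂)
  rw [nhds_prod_eq, Filter.eventually_prod_iff] at hcont'
  obtain ⟨pa, hpa, pb, hpb, hab⟩ := hcont'
  have hφc : ContinuousAt φ x₀ := hφ.continuousAt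
  have hev : ∀ᶠ x in 𝓝 x₀, φ x ∈ ball (φ x₀) r ∧ pb (φ x) :=
    (hφc.eventually (ball_mem_nhds _ hr)).and (hφc.eventually hpb)
  obtain ⟨s₃, hs₃, hev'⟩ := Metric.eventually_nhds_iff_ball.1 hev
  refine ⟨b * c * a - b * c * a / 2, ?_, ?_⟩
  · have : 0 < b * c * a := by positivity
    linarith
  refine famGood_of_near (r := min s₁ s₃) hKL (by positivity) (lt_min hs₁ hs₃) ?_
  filter_upwards [H, hpa] with q hq hq' x hx x' hx'
  have hx1 := ball_subset_ball (min_le_left _ _) hx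
  have hx1' := ball_subset_ball (min_le_left _ _) hx'
  have hx3 := hev' x (ball_subset_ball (min_le_right _ _) hx)
  have hx3' := hev' x' (ball_subset_ball (min_le_right _ _) hx')
  obtain ⟨M, hM, hM'⟩ := hq _ hx3.1 _ hx3'.1
  refine ⟨L M, mem_image_of_mem _ hM, ?_⟩
  have e1 := hφ1 x hx1 x' hx1'
  have e2 := hχ1 _ (hab hq' hx3.2) _ (hab hq' hx3'.2)
  simp only at e2
  have e3 : ‖φ x - φ x'‖ ≤ α * ‖x - x'‖ := by
    have h1 : ‖φ x - φ x'‖ ≤ ‖φ x - φ x' - A (x - x')‖ + ‖A (x - x')‖ := by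
      have := norm_add_le (φ x - φ x' - A (x - x')) (A (x - x'))
      rwa [sub_add_cancel] at this
    have h2 := A.le_opNorm (x - x')
    have h3 : η * ‖x - x'‖ ≤ 1 * ‖x - x'‖ :=
      mul_le_mul_of_nonneg_right (min_le_right _ _) (norm_nonneg _)
    rw [hα]
    linarith
  have e4 : ‖h q (φ x) - h q (φ x')‖ ≤ Λ * (α * ‖x - x'‖) := by
    rw [hM']
    calc ‖M (φ x - φ x')‖ ≤ ‖M‖ * ‖φ x - φ x'‖ := M.le_opNorm _
      _ ≤ Λ * (α * ‖x - x'‖) := mul_le_mul (hΛ' M hM) e3 (norm_nonneg _) hΛ.le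
  have e5 : χ (h q (φ x)) - χ (h q (φ x')) - L M (x - x') =
      (χ (h q (φ x)) - χ (h q (φ x')) - B (h q (φ x) - h q (φ x'))) +
        B (M (φ x - φ x' - A (x - x'))) := by
    rw [hM']
    simp only [L, ContinuousLinearMap.comp_apply, map_sub]
    abel
  rw [e5]
  have e6 : ‖B (M (φ x - φ x' - A (x - x')))‖ ≤ β * (Λ * (ε * ‖x - x'‖)) := by
    have h1 := B.le_opNorm (M (φ x - φ x' - A (x - x')))
    have h2 := M.le_opNorm (φ x - φ x' - A (x - x'))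
    have h3 : ‖φ x - φ x' - A (x - x')‖ ≤ ε * ‖x - x'‖ :=
      e1.trans (mul_le_mul_of_nonneg_right (min_le_left _ _) (norm_nonneg _))
    have h4 : ‖M‖ * ‖φ x - φ x' - A (x - x')‖ ≤ Λ * (ε * ‖x - x'‖) :=
      mul_le_mul (hΛ' M hM) h3 (norm_nonneg _) hΛ.le
    refine h1.trans (mul_le_mul (by rw [hβ]; linarith) (h2.trans h4) (norm_nonneg _) hβ0.le)
  have e7 : ε * ‖h q (φ x) - h q (φ x')‖ ≤ ε * (Λ * (α * ‖x - x'‖)) :=
    mul_le_mul_of_nonneg_left e4 hε0.le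
  calc _ ≤ _ := norm_add_le _ _
    _ ≤ ε * (Λ * (α * ‖x - x'‖)) + β * (Λ * (ε * ‖x - x'‖)) := add_le_add (e2.trans e7) e6
    _ = ε * (Λ * α + β * Λ) * ‖x - x'‖ := by ring
    _ = b * c * a / 2 * ‖x - x'‖ := by rw [hε']

/-- slow variation of the parameter -/
theorem slow_famGood {h : P → X → Y} {τ : Q → X → P} {q₀ : Q} {x₀ : X} {c ε r : ℝ}
    (hg : FamGood c h (τ q₀ x₀) x₀)
    (hτ : ContinuousAt (fun z : Q × X => τ z.1 z.2) (q₀, x₀)) (hr : 0 < r) (hε : 0 ≤ ε)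
    (he : ∀ᶠ q in 𝓝 q₀, ∀ x ∈ ball x₀ r, ∀ x' ∈ ball x₀ r,
      ‖h (τ q x) x' - h (τ q x') x'‖ ≤ ε * ‖x - x'‖ ∨
      ‖h (τ q x) x - h (τ q x') x‖ ≤ ε * ‖x - x'‖) :
    FamGood (c - ε) (fun q x => h (τ q x) x) q₀ x₀ := by
  obtain ⟨K, hK, s, hs, H⟩ := hg
  have h1 : ∀ᶠ z : Q × X in 𝓝 (q₀, x₀), SecOn (h (τ z.1 z.2)) K (ball x₀ s) := hτ.eventually H
  rw [nhds_prod_eq, Filter.eventually_prod_iff] at h1
  obtain ⟨pa, hpa, pb, hpb, hab⟩ := h1
  obtain ⟨s', hs', hb⟩ := Metric.eventually_nhds_iff_ball.1 hpb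
  refine famGood_of_near (r := min r (min s s')) hK hε (lt_min hr (lt_min hs hs')) ?_
  filter_upwards [he, hpa] with q hq hq' x hx x' hx'
  have hxr := ball_subset_ball (min_le_left _ _) hx
  have hxr' := ball_subset_ball (min_le_left _ _) hx'
  have hxs := ball_subset_ball ((min_le_right _ _).trans (min_le_left _ _)) hx
  have hxs' := ball_subset_ball ((min_le_right _ _).trans (min_le_left _ _)) hx'
  have hxt := ball_subset_ball ((min_le_right _ _).trans (min_le_right _ _)) hx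
  have hxt' := ball_subset_ball ((min_le_right _ _).trans (min_le_right _ _)) hx'
  rcases hq x hxr x' hxr' with h2 | h2
  · obtain ⟨M, hM, hM'⟩ := (hab hq' (hb x hxt)) x hxs x' hxs'
    refine ⟨M, hM, ?_⟩
    simp only at hM'
    rw [← hM']
    have : h (τ q x) x - h (τ q x') x' - (h (τ q x) x - h (τ q x) x') =
      h (τ q x) x' - h (τ q x') x' := by abel
    rw [this]
    exact h2
  · obtain ⟨M, hM, hM'⟩ := (hab hq' (hb x' hxt')) x hxs x' hxs'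
    refine ⟨M, hM, ?_⟩
    simp only at hM'
    rw [← hM']
    have : h (τ q x) x - h (τ q x') x' - (h (τ q x') x - h (τ q x') x') =
      h (τ q x) x - h (τ q x') x := by abel
    rw [this]
    exact h2

theorem slow_secGood {h : P → X → Y} {τ : X → P} {x₀ : X} {c ε r : ℝ}
    (hg : FamGood c h (τ x₀) x₀) (hτ : ContinuousAt τ x₀) (hr : 0 < r) (hε : 0 ≤ ε)
    (he : ∀ x ∈ ball x₀ r, ∀ x' ∈ ball x₀ r,
      ‖h (τ x) x' - h (τ x') x'‖ ≤ ε * ‖x - x'‖ ∨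
      ‖h (τ x) x - h (τ x') x‖ ≤ ε * ‖x - x'‖) :
    SecGood (c - ε) (fun x => h (τ x) x) x₀ := by
  have h1 : FamGood (c - ε) (fun (_ : Unit) x => h (τ x) x) () x₀ := by
    refine slow_famGood (τ := fun (_ : Unit) x => τ x) hg ?_ hr hε
      (Eventually.of_forall fun _ => he)
    exact ContinuousAt.comp (g := τ) (f := Prod.snd) hτ continuousAt_snd
  exact h1.secGood

omit [FiniteDimensional ℝ X] [FiniteDimensional ℝ Y] in
theorem SecOn.lip {f : X → Y} {K : Set (X →L[ℝ] Y)} {U : Set X} {Λ : ℝ}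
    (h : SecOn f K U) (hΛ : ∀ M ∈ K, ‖M‖ ≤ Λ) : ∀ x ∈ U, ∀ x' ∈ U, ‖f x - f x'‖ ≤ Λ * ‖x - x'‖ := by
  intro x hx x' hx'
  obtain ⟨M, hM, hM'⟩ := h x hx x' hx'
  rw [hM']
  exact (M.le_opNorm _).trans (mul_le_mul_of_nonneg_right (hΛ M hM) (norm_nonneg _))

omit [FiniteDimensional ℝ X] [FiniteDimensional ℝ Y] in
theorem SecOn.low {c : ℝ} {f : X → Y} {K : Set (X →L[ℝ] Y)} {U : Set X}
    (h : SecOn f K U) (hK : GoodSet c K) : ∀ x ∈ U, ∀ x' ∈ U, c * ‖x - x'‖ ≤ ‖f x - f x'‖ := by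
  intro x hx x' hx'
  obtain ⟨M, hM, hM'⟩ := h x hx x' hx'
  rw [hM']
  exact hK.lower M hM _

omit [FiniteDimensional ℝ X] [FiniteDimensional ℝ Y] in
theorem SecGood.lipAt {c : ℝ} {f : X → Y} {x : X} (h : SecGood c f x) : ∃ C, LipAt C f x := by
  obtain ⟨K, hK, r, hr, H⟩ := h
  obtain ⟨Λ, _, hΛ⟩ := hK.bounded
  exact ⟨Λ, r, hr, fun y hy y' hy' => SecOn.lip H hΛ y hy y' hy'⟩

omit [FiniteDimensional ℝ X] [NormedSpace ℝ X] [FiniteDimensional ℝ Y] [NormedSpace ℝ Y] in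
theorem LipAt.continuousAt {C : ℝ} {f : X → Y} {x : X} (h : LipAt C f x) : ContinuousAt f x := by
  obtain ⟨r, hr, H⟩ := h
  rw [Metric.continuousAt_iff]
  intro ε hε
  refine ⟨min r (ε / (|C| + 1)), lt_min hr (by positivity), fun {y} hy => ?_⟩
  have h1 : y ∈ ball x r := lt_of_lt_of_le hy (min_le_left _ _)
  have h2 : dist y x < ε / (|C| + 1) := lt_of_lt_of_le hy (min_le_right _ _)
  have h3 := H y h1 x (mem_ball_self hr)
  rw [dist_eq_norm] at h2 ⊢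
  have h4 : ‖f y - f x‖ ≤ (|C| + 1) * ‖y - x‖ := by
    refine h3.trans (mul_le_mul_of_nonneg_right ?_ (norm_nonneg _))
    have := le_abs_self C
    linarith
  have h5 : (|C| + 1) * ‖y - x‖ < (|C| + 1) * (ε / (|C| + 1)) :=
    mul_lt_mul_of_pos_left h2 (by positivity)
  rw [mul_div_cancel₀ _ (by positivity : (|C| + 1) ≠ 0)] at h5
  exact lt_of_le_of_lt h4 h5

omit [FiniteDimensional ℝ X] [FiniteDimensional ℝ Y] in
theorem SecGood.continuousAt {c : ℝ} {f : X → Y} {x : X} (h : SecGood c f x) :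
    ContinuousAt f x := by
  obtain ⟨C, hC⟩ := h.lipAt
  exact hC.continuousAt

omit [FiniteDimensional ℝ X] [FiniteDimensional ℝ Y] in
/-- the derivative of a map with good secants is bounded below -/
theorem SecGood.fderiv_lower {c : ℝ} {f : X → Y} {x : X} (h : SecGood c f x)
    (hd : DifferentiableAt ℝ f x) (v : X) : c * ‖v‖ ≤ ‖fderiv ℝ f x v‖ := by
  obtain ⟨K, hK, r, hr, H⟩ := h
  have hlow := SecOn.low H hK
  have h1 : Tendsto (fun t : ℝ => t⁻¹ • (f (x + t • v) - f x)) (𝓝[>] 0) (𝓝 (fderiv ℝ f x v)) := by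
    have h2 := (hd.hasFDerivAt.hasLineDerivAt v).tendsto_slope_zero
    exact h2.mono_left (nhdsWithin_mono _ fun t ht => ne_of_gt ht)
  have h3 : ∀ᶠ t : ℝ in 𝓝[>] 0, c * ‖v‖ ≤ ‖t⁻¹ • (f (x + t • v) - f x)‖ := by
    have h4 : ∀ᶠ t : ℝ in 𝓝[>] 0, x + t • v ∈ ball x r := by
      have h5 : ContinuousAt (fun t : ℝ => x + t • v) 0 := by fun_prop
      have h6 : ∀ᶠ t : ℝ in 𝓝 0, x + t • v ∈ ball x r := by
        apply h5.eventually
        have h7 : (fun t : ℝ => x + t • v) 0 = x := by simp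
        rw [h7]
        exact ball_mem_nhds x hr
      exact h6.filter_mono nhdsWithin_le_nhds
    filter_upwards [h4, self_mem_nhdsWithin] with t ht ht0
    have ht0' : (0 : ℝ) < t := ht0
    have h5 := hlow _ ht x (mem_ball_self hr)
    rw [add_sub_cancel_left, norm_smul, Real.norm_of_nonneg ht0'.le] at h5
    rw [norm_smul, norm_inv, Real.norm_of_nonneg ht0'.le, le_inv_mul_iff₀ ht0']
    linarith
  exact ge_of_tendsto h1.norm h3

end SM
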