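import Pool.Agent.SM.Defs
import Pool.Agent.SM.Sec

/-!
# Project SM, module HC
-/

open Set Metric Filter Topology MeasureTheory
open scoped ContDiff Pointwise

noncomputable section

namespace SM

variable {X : Type*} [NormedAddCommGroup X] [NormedSpace ℝ X] [FiniteDimensional ℝ X]

/-- uniformity on compact sets of a monotone sequence of locally true conditions -/
theorem hc_compact {Z : Type*} [TopologicalSpace Z] {S : Set Z} (hS : IsCompact S)
    {Φ : ℕ → Z → Prop} (mono : ∀ n m z, n ≤ m → Φ n z → Φ m z)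
    (loc : ∀ z ∈ S, ∃ n, ∀ᶠ z' in 𝓝[S] z, Φ n z') : ∃ n, ∀ z ∈ S, Φ n z := by
  refine hS.induction_on (p := fun s => ∃ n, ∀ z ∈ s, Φ n z) ?_ ?_ ?_ ?_
  · exact ⟨0, fun z hz => absurd hz (notMem_empty z)⟩
  · rintro s t hst ⟨n, hn⟩
    exact ⟨n, fun z hz => hn z (hst hz)⟩
  · rintro s t ⟨n, hn⟩ ⟨m, hm⟩
    refine ⟨max n m, ?_⟩
    rintro z (hz | hz)
    · exact mono n _ z (le_max_left _ _) (hn z hz)
    · exact mono m _ z (le_max_right _ _) (hm z hz)
  · intro z hz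
    obtain ⟨n, hn⟩ := loc z hz
    exact ⟨{z' | Φ n z'}, hn, n, fun z' hz' => hz'⟩

omit [FiniteDimensional ℝ X] in
private theorem hc_zero {Y : Type*} [NormedAddCommGroup Y] [NormedSpace ℝ Y] {f : X → Y}
    (hf : PosHom f) : f 0 = 0 := by
  have h := hf 0 le_rfl 0
  rwa [zero_smul, zero_smul] at h

omit [FiniteDimensional ℝ X] in
private theorem hc_unit (x : X) (hx : x ≠ 0) : ∃ u : X, ‖u‖ = 1 ∧ x = ‖x‖ • u := by
  have h : ‖x‖ ≠ 0 := norm_ne_zero_iff.mpr hx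
  refine ⟨‖x‖⁻¹ • x, ?_, ?_⟩
  · rw [norm_smul, norm_inv, norm_norm, inv_mul_cancel₀ h]
  · rw [smul_smul, mul_inv_cancel₀ h, one_smul]

omit [FiniteDimensional ℝ X] in
/-- scaling of a secant condition -/
private theorem hc_scale {Y : Type*} [NormedAddCommGroup Y] [NormedSpace ℝ Y] {f : X → Y}
    (hf : PosHom f) {K : Set (X →L[ℝ] Y)} {u : X} {a r : ℝ} (ha : 0 < a)
    (h : SecOn f K (ball u r)) : SecOn f K (ball (a • u) (r * a)) := by
  intro x hx x' hx'
  have key : ∀ y ∈ ball (a • u) (r * a), a⁻¹ • y ∈ ball u r := by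
    intro y hy
    rw [mem_ball_iff_norm] at hy ⊢
    have h1 : a⁻¹ • y - u = a⁻¹ • (y - a • u) := by
      rw [smul_sub, smul_smul, inv_mul_cancel₀ ha.ne', one_smul]
    rw [h1, norm_smul, Real.norm_eq_abs, abs_of_pos (inv_pos.mpr ha), inv_mul_lt_iff₀ ha]
    linarith
  have hfy : ∀ y : X, f y = a • f (a⁻¹ • y) := by
    intro y
    have h1 := hf a ha.le (a⁻¹ • y)
    rw [smul_smul, mul_inv_cancel₀ ha.ne', one_smul] at h1
    exact h1
  obtain ⟨M, hM, hMe⟩ := h _ (key x hx) _ (key x' hx')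
  refine ⟨M, hM, ?_⟩
  rw [hfy x, hfy x', ← smul_sub, hMe, ← smul_sub, map_smul, smul_smul, mul_inv_cancel₀ ha.ne',
    one_smul]

omit [FiniteDimensional ℝ X] in
private theorem hc_lip {Y : Type*} [NormedAddCommGroup Y] [NormedSpace ℝ Y] {f : X → Y}
    (hf : PosHom f) {Λ B r : ℝ} (hr : 0 < r) (hB0 : 0 ≤ B) (hB : ∀ u, ‖u‖ = 1 → ‖f u‖ ≤ B)
    (hloc : ∀ x, x ≠ 0 → ∀ x' ∈ ball x (r * ‖x‖), ‖f x - f x'‖ ≤ Λ * ‖x - x'‖) :
    ∀ x x', ‖f x - f x'‖ ≤ max Λ (2 * B / r) * ‖x - x'‖ := by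
  have hbd : ∀ x, ‖f x‖ ≤ B * ‖x‖ := by
    intro x
    rcases eq_or_ne x 0 with rfl | hx
    · rw [hc_zero hf]
      simp
    · obtain ⟨u, hu, hxu⟩ := hc_unit x hx
      have h1 : f x = ‖x‖ • f u := by
        conv_lhs => rw [hxu]
        exact hf _ (norm_nonneg _) _
      rw [h1, norm_smul, norm_norm, mul_comm]
      exact mul_le_mul_of_nonneg_right (hB u hu) (norm_nonneg _)
  have key : ∀ x x', ‖x'‖ ≤ ‖x‖ → ‖f x - f x'‖ ≤ max Λ (2 * B / r) * ‖x - x'‖ := by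
    intro x x' hxx
    rcases eq_or_ne x 0 with rfl | hx
    · have h1 : x' = 0 := by
        rw [norm_zero] at hxx
        exact norm_le_zero_iff.mp hxx
      rw [h1]
      simp
    · by_cases hb : x' ∈ ball x (r * ‖x‖)
      · refine (hloc x hx x' hb).trans ?_
        exact mul_le_mul_of_nonneg_right (le_max_left _ _) (norm_nonneg _)
      · rw [mem_ball_iff_norm, not_lt, norm_sub_rev] at hb
        have h1 : ‖f x - f x'‖ ≤ 2 * B * ‖x‖ := by
          refine (norm_sub_le _ _).trans ?_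
          have h2 := hbd x
          have h3 := hbd x'
          have h4 : B * ‖x'‖ ≤ B * ‖x‖ := mul_le_mul_of_nonneg_left hxx hB0
          linarith
        have h5 : 2 * B * ‖x‖ ≤ 2 * B / r * ‖x - x'‖ := by
          have h6 : 2 * B * ‖x‖ = 2 * B / r * (r * ‖x‖) := by
            field_simp
          rw [h6]
          apply mul_le_mul_of_nonneg_left hb
          positivity
        refine h1.trans (h5.trans ?_)
        exact mul_le_mul_of_nonneg_right (le_max_right _ _) (norm_nonneg _)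
  intro x x'
  rcases le_total ‖x'‖ ‖x‖ with h | h
  · exact key x x' h
  · rw [norm_sub_rev (f x), norm_sub_rev x]
    exact key x' x h

omit [FiniteDimensional ℝ X] in
private theorem hc_low {Y : Type*} [NormedAddCommGroup Y] [NormedSpace ℝ Y] {f : X → Y}
    (hf : PosHom f) {c m r : ℝ} (hc : 0 ≤ c) (hm0 : 0 ≤ m)
    (hm : ∀ u v, ‖u‖ = 1 → ‖v‖ ≤ 1 → r ≤ ‖u - v‖ → m ≤ ‖f u - f v‖)
    (hloc : ∀ x, x ≠ 0 → ∀ x' ∈ ball x (r * ‖x‖), c * ‖x - x'‖ ≤ ‖f x - f x'‖) :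
    ∀ x x', min c (m / 2) * ‖x - x'‖ ≤ ‖f x - f x'‖ := by
  have key : ∀ x x', ‖x'‖ ≤ ‖x‖ → min c (m / 2) * ‖x - x'‖ ≤ ‖f x - f x'‖ := by
    intro x x' hxx
    rcases eq_or_ne x 0 with rfl | hx
    · have h1 : x' = 0 := by
        rw [norm_zero] at hxx
        exact norm_le_zero_iff.mp hxx
      rw [h1]
      simp
    · by_cases hb : x' ∈ ball x (r * ‖x‖)
      · refine le_trans ?_ (hloc x hx x' hb)
        exact mul_le_mul_of_nonneg_right (min_le_left _ _) (norm_nonneg _)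
      · rw [mem_ball_iff_norm, not_lt, norm_sub_rev] at hb
        obtain ⟨u, hu, hxu⟩ := hc_unit x hx
        have hx0 : 0 < ‖x‖ := norm_pos_iff.mpr hx
        have hx' : x' = ‖x‖ • (‖x‖⁻¹ • x') := by
          rw [smul_smul, mul_inv_cancel₀ hx0.ne', one_smul]
        have h1 : f x = ‖x‖ • f u := by
          conv_lhs => rw [hxu]
          exact hf _ (norm_nonneg _) _
        have h2 : f x' = ‖x‖ • f (‖x‖⁻¹ • x') := by
          conv_lhs => rw [hx']
          exact hf _ (norm_nonneg _) _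
        have h3 : ‖‖x‖⁻¹ • x'‖ ≤ 1 := by
          rw [norm_smul, norm_inv, norm_norm, inv_mul_le_iff₀ hx0, mul_one]
          exact hxx
        have h4 : r ≤ ‖u - ‖x‖⁻¹ • x'‖ := by
          have h5 : u - ‖x‖⁻¹ • x' = ‖x‖⁻¹ • (x - x') := by
            rw [smul_sub]
            congr 1
            conv_rhs => rw [hxu, norm_smul, norm_norm, hu, mul_one, smul_smul,
              inv_mul_cancel₀ hx0.ne', one_smul]
          rw [h5, norm_smul, norm_inv, norm_norm, le_inv_mul_iff₀ hx0]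
          linarith
        have h6 := hm u _ hu h3 h4
        rw [h1, h2, ← smul_sub, norm_smul, norm_norm]
        have h7 : ‖x - x'‖ ≤ 2 * ‖x‖ := by
          refine (norm_sub_le _ _).trans ?_
          linarith
        have h8 : min c (m / 2) * ‖x - x'‖ ≤ (m / 2) * (2 * ‖x‖) := by
          apply mul_le_mul (min_le_right _ _) h7 (norm_nonneg _)
          positivity
        nlinarith [mul_le_mul_of_nonneg_left h6 hx0.le]
  intro x x'
  rcases le_total ‖x'‖ ‖x‖ with h | h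
  · exact key x x' h
  · rw [norm_sub_rev (f x), norm_sub_rev x]
    exact key x' x h

private theorem hc_sphere : IsCompact {u : X | ‖u‖ = 1} := by
  have : ProperSpace X := FiniteDimensional.proper ℝ X
  have h := isCompact_sphere (0 : X) 1
  have h2 : {u : X | ‖u‖ = 1} = sphere (0 : X) 1 := by
    ext u
    simp
  rw [h2]
  exact h

theorem posHom_lipschitz {Y : Type*} [NormedAddCommGroup Y] [NormedSpace ℝ Y] {f : X → Y}
    (hf : PosHom f) (h : ∀ x, x ≠ 0 → ∃ C, LipAt C f x) :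
    ∃ C > 0, ∀ x x', ‖f x - f x'‖ ≤ C * ‖x - x'‖ := by
  obtain ⟨n, hn⟩ := hc_compact (hc_sphere (X := X))
    (Φ := fun n u => ‖f u‖ ≤ n ∧ ∀ y ∈ ball u (1 / ((n : ℝ) + 1)), ‖f u - f y‖ ≤ n * ‖u - y‖) (by
      rintro n m u hnm ⟨h1, h2⟩
      have hnm' : (n : ℝ) ≤ m := by exact_mod_cast hnm
      refine ⟨h1.trans hnm', ?_⟩
      intro y hy
      have h3 : y ∈ ball u (1 / ((n : ℝ) + 1)) := by
        refine ball_subset_ball ?_ hy
        apply one_div_le_one_div_of_le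
        · positivity
        · linarith
      exact (h2 y h3).trans (mul_le_mul_of_nonneg_right hnm' (norm_nonneg _))) (by
      intro u hu
      have hu0 : u ≠ 0 := by
        rintro rfl
        have h1 : ‖(0 : X)‖ = 1 := hu
        rw [norm_zero] at h1
        exact zero_ne_one h1
      obtain ⟨C, r, hr, hl⟩ := h u hu0
      obtain ⟨n1, hn1⟩ := exists_nat_ge (max C (‖f u‖ + |C| * r))
      obtain ⟨n2, hn2⟩ := exists_nat_one_div_lt (half_pos hr)
      refine ⟨max n1 n2, ?_⟩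
      have hev : ∀ᶠ z in 𝓝 u, z ∈ ball u (r / 2) := ball_mem_nhds u (half_pos hr)
      filter_upwards [hev.filter_mono nhdsWithin_le_nhds] with z hz
      have hz1 : z ∈ ball u r := ball_subset_ball (by linarith) hz
      have hN1 : (n1 : ℝ) ≤ ((max n1 n2 : ℕ) : ℝ) := by exact_mod_cast le_max_left _ _
      have hN2 : (n2 : ℝ) ≤ ((max n1 n2 : ℕ) : ℝ) := by exact_mod_cast le_max_right _ _
      have hC1 : C ≤ n1 := (le_max_left _ _).trans hn1
      have hC2 : ‖f u‖ + |C| * r ≤ n1 := (le_max_right _ _).trans hn1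
      constructor
      · have h1 := hl z hz1 u (mem_ball_self hr)
        have h2 : ‖f z‖ ≤ ‖f u‖ + ‖f z - f u‖ := by
          have h3 := norm_add_le (f u) (f z - f u)
          rwa [add_sub_cancel] at h3
        have h4 : C * ‖z - u‖ ≤ |C| * r := by
          have h5 : ‖z - u‖ ≤ r := (mem_ball_iff_norm.mp hz1).le
          calc C * ‖z - u‖ ≤ |C| * ‖z - u‖ :=
                mul_le_mul_of_nonneg_right (le_abs_self C) (norm_nonneg _)
            _ ≤ |C| * r := mul_le_mul_of_nonneg_left h5 (abs_nonneg _)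
        linarith
      · intro y hy
        have hy1 : y ∈ ball u r := by
          have h1 : dist y z < r / 2 := by
            refine lt_of_lt_of_le hy ?_
            refine le_trans ?_ hn2.le
            apply one_div_le_one_div_of_le
            · positivity
            · linarith
          have h2 : dist z u < r / 2 := hz
          have h3 := dist_triangle y z u
          show dist y u < r
          linarith
        refine (hl z hz1 y hy1).trans ?_
        exact mul_le_mul_of_nonneg_right (by linarith) (norm_nonneg _))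
  have hn0 : (0 : ℝ) ≤ n := Nat.cast_nonneg n
  have hr : (0 : ℝ) < 1 / ((n : ℝ) + 1) := by positivity
  have hfin := hc_lip hf (Λ := n) (B := n) (r := 1 / ((n : ℝ) + 1)) hr hn0
    (fun u hu => (hn u hu).1) (by
      intro x hx x' hx'
      obtain ⟨u, hu, hxu⟩ := hc_unit x hx
      have hx0 : 0 < ‖x‖ := norm_pos_iff.mpr hx
      have h2 : x' = ‖x‖ • (‖x‖⁻¹ • x') := by
        rw [smul_smul, mul_inv_cancel₀ hx0.ne', one_smul]
      have h5 : u - ‖x‖⁻¹ • x' = ‖x‖⁻¹ • (x - x') := by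
        rw [smul_sub]
        congr 1
        conv_rhs => rw [hxu, norm_smul, norm_norm, hu, mul_one, smul_smul,
          inv_mul_cancel₀ hx0.ne', one_smul]
      have h3 : ‖x‖⁻¹ • x' ∈ ball u (1 / ((n : ℝ) + 1)) := by
        rw [mem_ball_iff_norm, norm_sub_rev, h5, norm_smul, norm_inv, norm_norm,
          inv_mul_lt_iff₀ hx0]
        rw [mem_ball_iff_norm, norm_sub_rev] at hx'
        linarith
      have h4 := (hn u hu).2 _ h3
      have h6 : f x = ‖x‖ • f u := by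
        conv_lhs => rw [hxu]
        exact hf _ (norm_nonneg _) _
      have h7 : f x' = ‖x‖ • f (‖x‖⁻¹ • x') := by
        conv_lhs => rw [h2]
        exact hf _ (norm_nonneg _) _
      rw [h6, h7, ← smul_sub, norm_smul, norm_norm]
      rw [h5, norm_smul, norm_inv, norm_norm] at h4
      calc ‖x‖ * ‖f u - f (‖x‖⁻¹ • x')‖ ≤ ‖x‖ * (n * (‖x‖⁻¹ * ‖x - x'‖)) :=
            mul_le_mul_of_nonneg_left h4 hx0.le
        _ = n * ‖x - x'‖ := by field_simp)
  refine ⟨max (n : ℝ) (2 * n / (1 / ((n : ℝ) + 1))) + 1, ?_, ?_⟩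
  · have h1 := le_max_left (n : ℝ) (2 * n / (1 / ((n : ℝ) + 1)))
    linarith
  · intro x x'
    refine (hfin x x').trans ?_
    exact mul_le_mul_of_nonneg_right (by linarith) (norm_nonneg _)

/-- the local data of a family, with all constants in terms of one integer -/
private def HcP (H : ℝ → X → X) (n : ℕ) (z : ℝ × X) : Prop :=
  ∃ K : Set (X →L[ℝ] X), GoodSet (1 / ((n : ℝ) + 1)) K ∧ (∀ M ∈ K, ‖M‖ ≤ n) ∧
    ∀ᶠ q in 𝓝 z.1, SecOn (H q) K (ball z.2 (1 / ((n : ℝ) + 1)))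

private theorem hcP_mono (H : ℝ → X → X) (n m : ℕ) (z : ℝ × X) (hnm : n ≤ m) (h : HcP H n z) :
    HcP H m z := by
  obtain ⟨K, h1, h2, h3⟩ := h
  have hnm' : (n : ℝ) ≤ m := by exact_mod_cast hnm
  have hle : 1 / ((m : ℝ) + 1) ≤ 1 / ((n : ℝ) + 1) := by
    apply one_div_le_one_div_of_le
    · positivity
    · linarith
  refine ⟨K, h1.mono hle, fun M hM => (h2 M hM).trans hnm', ?_⟩
  filter_upwards [h3] with q hq y hy y' hy'
  exact hq y (ball_subset_ball hle hy) y' (ball_subset_ball hle hy')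

private theorem hcP_loc {H : ℝ → X → X} {z : ℝ × X} (h : ∃ c > 0, FamGood c H z.1 z.2) :
    ∃ n, ∀ᶠ z' in 𝓝 z, HcP H n z' := by
  obtain ⟨c, hc, K, hK, r, hr, hev⟩ := h
  obtain ⟨Λ, hΛ0, hΛ⟩ := hK.bounded
  obtain ⟨n1, hn1⟩ := exists_nat_ge Λ
  obtain ⟨n2, hn2⟩ := exists_nat_one_div_lt (half_pos hr)
  obtain ⟨n3, hn3⟩ := exists_nat_one_div_lt hc
  refine ⟨max n1 (max n2 n3), ?_⟩
  set N := max n1 (max n2 n3) with hN
  have hN1 : (n1 : ℝ) ≤ N := by exact_mod_cast le_max_left _ _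
  have hN2 : (n2 : ℝ) ≤ N := by
    exact_mod_cast (le_max_left n2 n3).trans (le_max_right n1 (max n2 n3))
  have hN3 : (n3 : ℝ) ≤ N := by
    exact_mod_cast (le_max_right n2 n3).trans (le_max_right n1 (max n2 n3))
  have hle2 : 1 / ((N : ℝ) + 1) ≤ r / 2 := by
    refine le_trans ?_ hn2.le
    apply one_div_le_one_div_of_le
    · positivity
    · linarith
  have hle3 : 1 / ((N : ℝ) + 1) ≤ c := by
    refine le_trans ?_ hn3.le
    apply one_div_le_one_div_of_le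
    · positivity
    · linarith
  have h1 : ∀ᶠ q in 𝓝 z.1, ∀ᶠ q' in 𝓝 q, SecOn (H q') K (ball z.2 r) :=
    eventually_eventually_nhds.2 hev
  have h2 : ∀ᶠ y in 𝓝 z.2, y ∈ ball z.2 (r / 2) := ball_mem_nhds z.2 (half_pos hr)
  have h12 : ∀ᶠ z' : ℝ × X in 𝓝 z, (∀ᶠ q' in 𝓝 z'.1, SecOn (H q') K (ball z.2 r)) ∧
      z'.2 ∈ ball z.2 (r / 2) := by
    have h3 := h1.prod_mk h2
    rw [← nhds_prod_eq] at h3
    exact h3
  filter_upwards [h12] with z' hz'
  refine ⟨K, hK.mono hle3, fun M hM => ((hΛ M hM).trans hn1).trans hN1, ?_⟩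
  filter_upwards [hz'.1] with q hq
  have hsub : ball z'.2 (1 / ((N : ℝ) + 1)) ⊆ ball z.2 r := by
    intro y hy
    have h4 : dist y z'.2 < r / 2 := lt_of_lt_of_le hy hle2
    have h5 : dist z'.2 z.2 < r / 2 := hz'.2
    have h6 := dist_triangle y z'.2 z.2
    show dist y z.2 < r
    linarith
  intro y hy y' hy'
  exact hq y (hsub hy) y' (hsub hy')

/-- uniform local data for a family on a compact set of parameters -/
private theorem hc_fam {H : ℝ → X → X} {T : Set ℝ} (hT : IsCompact T)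
    (hhom : ∀ t, PosHom (H t)) (good : ∀ t, ∀ x, x ≠ 0 → ∃ c > 0, FamGood c H t x) :
    ∃ n : ℕ, ∀ t ∈ T, ∀ x, x ≠ 0 → ∃ K : Set (X →L[ℝ] X), GoodSet (1 / ((n : ℝ) + 1)) K ∧
      (∀ M ∈ K, ‖M‖ ≤ n) ∧
      ∀ᶠ q in 𝓝 t, SecOn (H q) K (ball x (1 / ((n : ℝ) + 1) * ‖x‖)) := by
  obtain ⟨n, hn⟩ := hc_compact (hT.prod (hc_sphere (X := X))) (Φ := HcP H)
    (hcP_mono H) (by
      rintro ⟨t, u⟩ ⟨_, hu⟩
      have hu0 : u ≠ 0 := by
        rintro rfl
        have h1 : ‖(0 : X)‖ = 1 := hu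
        rw [norm_zero] at h1
        exact zero_ne_one h1
      obtain ⟨n, hn⟩ := hcP_loc (H := H) (z := (t, u)) (good t u hu0)
      exact ⟨n, hn.filter_mono nhdsWithin_le_nhds⟩)
  refine ⟨n, ?_⟩
  intro t ht x hx
  obtain ⟨u, hu, hxu⟩ := hc_unit x hx
  have hx0 : 0 < ‖x‖ := norm_pos_iff.mpr hx
  obtain ⟨K, h1, h2, h3⟩ := hn (t, u) ⟨ht, hu⟩
  refine ⟨K, h1, h2, ?_⟩
  filter_upwards [h3] with q hq
  have h4 := hc_scale (hhom q) hx0 hq
  rw [← hxu] at h4
  exact h4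

/-- a homogeneous map with good secants off zero has uniform good secants -/
theorem posHom_uniform {f : X → X} (hf : PosHom f) (h : ∀ x, x ≠ 0 → ∃ c > 0, SecGood c f x) :
    ∃ c > 0, ∃ Λ > 0, ∃ r > 0, r < 1 ∧ ∀ x, x ≠ 0 → ∃ K : Set (X →L[ℝ] X), GoodSet c K ∧
      (∀ M ∈ K, ‖M‖ ≤ Λ) ∧ SecOn f K (ball x (r * ‖x‖)) := by
  obtain ⟨n, hn⟩ := hc_fam (H := fun _ : ℝ => f) (isCompact_singleton (x := (0 : ℝ)))
    (fun _ => hf) (by
      intro t x hx
      obtain ⟨c, hc, hs⟩ := h x hx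
      exact ⟨c, hc, hs.famGood t⟩)
  have hn0 : (0 : ℝ) ≤ n := Nat.cast_nonneg n
  refine ⟨1 / ((n : ℝ) + 1), by positivity, (n : ℝ) + 1, by positivity, 1 / ((n : ℝ) + 2),
    by positivity, ?_, ?_⟩
  · rw [div_lt_one (by positivity)]
    linarith
  · intro x hx
    obtain ⟨K, h1, h2, h3⟩ := hn 0 rfl x hx
    refine ⟨K, h1, fun M hM => (h2 M hM).trans (by linarith), ?_⟩
    have h4 := h3.self_of_nhds
    have hsub : ball x (1 / ((n : ℝ) + 2) * ‖x‖) ⊆ ball x (1 / ((n : ℝ) + 1) * ‖x‖) := by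
      apply ball_subset_ball
      apply mul_le_mul_of_nonneg_right _ (norm_nonneg _)
      apply one_div_le_one_div_of_le
      · positivity
      · linarith
    intro y hy y' hy'
    exact h4 y (hsub hy) y' (hsub hy')

/-- joint continuity -/
private theorem hc_cont {H : ℝ → X → X} {C Λ : ℝ}
    (lipt : ∀ t t' x, ‖H t x - H t' x‖ ≤ C * |t - t'| * ‖x‖)
    (hlip : ∀ t x x', ‖H t x - H t x'‖ ≤ Λ * ‖x - x'‖) :
    Continuous (fun p : ℝ × X => H p.1 p.2) := by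
  rw [continuous_iff_continuousAt]
  rintro ⟨t0, x0⟩
  rw [ContinuousAt, tendsto_iff_norm_sub_tendsto_zero]
  have hbound : ∀ p : ℝ × X, ‖H p.1 p.2 - H t0 x0‖ ≤
      Λ * ‖p.2 - x0‖ + C * |p.1 - t0| * ‖x0‖ := by
    intro p
    have h1 : H p.1 p.2 - H t0 x0 = (H p.1 p.2 - H p.1 x0) + (H p.1 x0 - H t0 x0) := by abel
    rw [h1]
    exact (norm_add_le _ _).trans (add_le_add (hlip _ _ _) (lipt _ _ _))
  refine squeeze_zero (fun p => norm_nonneg _) hbound ?_
  have hc : Continuous (fun p : ℝ × X => Λ * ‖p.2 - x0‖ + C * |p.1 - t0| * ‖x0‖) := by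
    fun_prop
  have h2 := hc.tendsto (t0, x0)
  simpa using h2

/-- the far pairs -/
private theorem hc_far {H : ℝ → X → X} {T : Set ℝ} (hT : IsCompact T) {r : ℝ} (hr : 0 < r)
    (hcont : Continuous (fun p : ℝ × X => H p.1 p.2)) (inj : ∀ t, Function.Injective (H t)) :
    ∃ m > 0, ∀ t ∈ T, ∀ u v, ‖u‖ = 1 → ‖v‖ ≤ 1 → r ≤ ‖u - v‖ → m ≤ ‖H t u - H t v‖ := by
  have : ProperSpace X := FiniteDimensional.proper ℝ X
  have hcomp : IsCompact (T ×ˢ ({p : X × X | ‖p.1‖ = 1 ∧ ‖p.2‖ ≤ 1 ∧ r ≤ ‖p.1 - p.2‖})) := by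
    apply hT.prod
    have h1 : IsCompact ((closedBall (0 : X) 1) ×ˢ (closedBall (0 : X) 1)) :=
      (isCompact_closedBall _ _).prod (isCompact_closedBall _ _)
    apply h1.of_isClosed_subset
    · apply IsClosed.and
      · exact isClosed_eq (by fun_prop) (by fun_prop)
      · apply IsClosed.and
        · exact isClosed_le (by fun_prop) (by fun_prop)
        · exact isClosed_le (by fun_prop) (by fun_prop)
    · rintro ⟨u, v⟩ ⟨hu, hv, _⟩
      have hu' : ‖u‖ = 1 := hu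
      have hv' : ‖v‖ ≤ 1 := hv
      refine ⟨?_, ?_⟩
      · rw [mem_closedBall_zero_iff]
        exact hu'.le
      · rw [mem_closedBall_zero_iff]
        exact hv'
  have hg : Continuous (fun p : ℝ × (X × X) => ‖H p.1 p.2.1 - H p.1 p.2.2‖) := by
    have h1 : Continuous (fun p : ℝ × (X × X) => H p.1 p.2.1) :=
      hcont.comp (continuous_fst.prodMk (continuous_fst.comp continuous_snd))
    have h2 : Continuous (fun p : ℝ × (X × X) => H p.1 p.2.2) :=
      hcont.comp (continuous_fst.prodMk (continuous_snd.comp continuous_snd))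
    exact (h1.sub h2).norm
  rcases (T ×ˢ ({p : X × X | ‖p.1‖ = 1 ∧ ‖p.2‖ ≤ 1 ∧ r ≤ ‖p.1 - p.2‖})).eq_empty_or_nonempty
    with he | hne
  · refine ⟨1, one_pos, ?_⟩
    intro t ht u v hu hv huv
    exfalso
    have h1 : (t, (u, v)) ∈ T ×ˢ ({p : X × X | ‖p.1‖ = 1 ∧ ‖p.2‖ ≤ 1 ∧ r ≤ ‖p.1 - p.2‖}) :=
      ⟨ht, hu, hv, huv⟩
    rw [he] at h1
    exact h1
  · obtain ⟨p, hp, hmin⟩ := hcomp.exists_isMinOn hne hg.continuousOn
    refine ⟨‖H p.1 p.2.1 - H p.1 p.2.2‖, ?_, ?_⟩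
    · rw [gt_iff_lt, norm_pos_iff, sub_ne_zero]
      intro heq
      have h1 := inj p.1 heq
      have h2 := hp.2.2.2
      rw [h1, sub_self, norm_zero] at h2
      linarith
    · intro t ht u v hu hv huv
      exact hmin (show (t, (u, v)) ∈ T ×ˢ _ from ⟨ht, hu, hv, huv⟩)

theorem posHom_lower {f : X → X} (hf : PosHom f) (hinj : Function.Injective f)
    (h : ∀ x, x ≠ 0 → ∃ c > 0, SecGood c f x) :
    ∃ c > 0, ∀ x x', c * ‖x - x'‖ ≤ ‖f x - f x'‖ := by
  obtain ⟨C, hC0, hC⟩ := posHom_lipschitz hf (fun x hx => by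
    obtain ⟨c, _, hs⟩ := h x hx
    exact hs.lipAt)
  obtain ⟨c, hc, Λ, hΛ, r, hr, hr1, hK⟩ := posHom_uniform hf h
  have hcont : Continuous (fun p : ℝ × X => (fun _ : ℝ => f) p.1 p.2) :=
    hc_cont (C := 0) (Λ := C) (fun t t' x => by simp) (fun t x x' => hC x x')
  obtain ⟨m, hm, hfar⟩ := hc_far (isCompact_singleton (x := (0 : ℝ))) hr hcont (fun _ => hinj)
  refine ⟨min c (m / 2), lt_min hc (half_pos hm), ?_⟩
  apply hc_low hf hc.le hm.le (fun u v hu hv huv => hfar 0 rfl u v hu hv huv)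
  intro x hx x' hx'
  obtain ⟨K, hK1, hK2, hK3⟩ := hK x hx
  have hx0 : 0 < ‖x‖ := norm_pos_iff.mpr hx
  obtain ⟨M, hM, hMe⟩ := hK3 x (mem_ball_self (by positivity)) x' hx'
  rw [hMe]
  exact hK1.lower M hM _

theorem HomFam.uniform {H : ℝ → X → X} {C : ℝ} (hH : HomFam H C) :
    ∃ c > 0, ∃ Λ > 0, (∀ t x x', c * ‖x - x'‖ ≤ ‖H t x - H t x'‖) ∧
      (∀ t x x', ‖H t x - H t x'‖ ≤ Λ * ‖x - x'‖) ∧ ∀ t x, x ≠ 0 → FamGood c H t x := by
  obtain ⟨n, hn⟩ := hc_fam (H := H) (isCompact_Icc (a := (0 : ℝ)) (b := 1)) hH.hom hH.good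
  have hn0 : (0 : ℝ) ≤ n := Nat.cast_nonneg n
  have hr0 : (0 : ℝ) < 1 / ((n : ℝ) + 1) := by positivity
  -- reduction to the unit interval
  have hred : ∀ t : ℝ, ∃ t' ∈ Icc (0 : ℝ) 1, H t = H t' := by
    intro t
    rcases le_total t 0 with h | h
    · exact ⟨0, ⟨le_rfl, zero_le_one⟩, hH.left t h⟩
    · rcases le_total 1 t with h' | h'
      · exact ⟨1, ⟨zero_le_one, le_rfl⟩, hH.right t h'⟩
      · exact ⟨t, ⟨h, h'⟩, rfl⟩
  -- a bound on the sphere
  obtain ⟨C0, hC0, hL0⟩ := posHom_lipschitz (hH.hom 0) (fun x hx => by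
    obtain ⟨c, _, hs⟩ := hH.good 0 x hx
    exact hs.secGood.lipAt)
  have hB : ∀ t ∈ Icc (0 : ℝ) 1, ∀ u, ‖u‖ = 1 → ‖H t u‖ ≤ C0 + |C| := by
    intro t ht u hu
    have h1 := hH.lipt t 0 u
    have h2 := hL0 u 0
    rw [hc_zero (hH.hom 0), sub_zero, sub_zero, hu, mul_one] at h2
    rw [hu, mul_one, sub_zero, abs_of_nonneg ht.1] at h1
    have h3 : ‖H t u‖ ≤ ‖H 0 u‖ + ‖H t u - H 0 u‖ := by
      have h4 := norm_add_le (H 0 u) (H t u - H 0 u)
      rwa [add_sub_cancel] at h4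
    have h5 : C * t ≤ |C| := by
      calc C * t ≤ |C| * t := mul_le_mul_of_nonneg_right (le_abs_self C) ht.1
        _ ≤ |C| * 1 := mul_le_mul_of_nonneg_left ht.2 (abs_nonneg C)
        _ = |C| := mul_one _
    linarith
  set Λ := max (n : ℝ) (2 * (C0 + |C|) / (1 / ((n : ℝ) + 1))) + 1 with hΛ
  have hB0 : 0 ≤ C0 + |C| := by positivity
  have hΛ0 : 0 < Λ := by
    have h1 := le_max_left (n : ℝ) (2 * (C0 + |C|) / (1 / ((n : ℝ) + 1)))
    linarith
  have hloc : ∀ t ∈ Icc (0 : ℝ) 1, ∀ x, x ≠ 0 → ∀ x' ∈ ball x (1 / ((n : ℝ) + 1) * ‖x‖),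
      ∃ M : X →L[ℝ] X, ‖M‖ ≤ n ∧ (∀ y, 1 / ((n : ℝ) + 1) * ‖y‖ ≤ ‖M y‖) ∧
      H t x - H t x' = M (x - x') := by
    intro t ht x hx x' hx'
    obtain ⟨K, h1, h2, h3⟩ := hn t ht x hx
    have hx0 : 0 < ‖x‖ := norm_pos_iff.mpr hx
    obtain ⟨M, hM, hMe⟩ := h3.self_of_nhds x (mem_ball_self (by positivity)) x' hx'
    exact ⟨M, h2 M hM, h1.lower M hM, hMe⟩
  have hlip : ∀ t x x', ‖H t x - H t x'‖ ≤ Λ * ‖x - x'‖ := by
    intro t x x'
    obtain ⟨t', ht', htt⟩ := hred t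
    rw [htt]
    have h1 := hc_lip (hH.hom t') (Λ := n) hr0 hB0 (hB t' ht') (by
      intro x hx x' hx'
      obtain ⟨M, hM1, hM2, hM3⟩ := hloc t' ht' x hx x' hx'
      rw [hM3]
      exact (M.le_opNorm _).trans (mul_le_mul_of_nonneg_right hM1 (norm_nonneg _))) x x'
    refine h1.trans ?_
    exact mul_le_mul_of_nonneg_right (by rw [hΛ]; linarith) (norm_nonneg _)
  have hcont := hc_cont hH.lipt hlip
  obtain ⟨m, hm, hfar⟩ := hc_far (isCompact_Icc (a := (0 : ℝ)) (b := 1)) hr0 hcont hH.inj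
  have hmin0 : 0 < min (1 / ((n : ℝ) + 1)) (m / 2) := lt_min hr0 (half_pos hm)
  refine ⟨min (1 / ((n : ℝ) + 1)) (m / 2), hmin0, Λ, hΛ0, ?_, hlip, ?_⟩
  · intro t x x'
    obtain ⟨t', ht', htt⟩ := hred t
    rw [htt]
    apply hc_low (hH.hom t') hr0.le hm.le (fun u v hu hv huv => hfar t' ht' u v hu hv huv)
    intro x hx x' hx'
    obtain ⟨M, hM1, hM2, hM3⟩ := hloc t' ht' x hx x' hx'
    rw [hM3]
    exact hM2 _
  · intro t x hx
    have hx0 : 0 < ‖x‖ := norm_pos_iff.mpr hx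
    have hcase : ∀ t' ∈ Icc (0 : ℝ) 1, (∀ᶠ q in 𝓝 t, H q = H t') →
        FamGood (min (1 / ((n : ℝ) + 1)) (m / 2)) H t x := by
      intro t' ht' hev
      obtain ⟨K, h1, h2, h3⟩ := hn t' ht' x hx
      refine ⟨K, h1.mono (min_le_left _ _), 1 / ((n : ℝ) + 1) * ‖x‖, by positivity, ?_⟩
      filter_upwards [hev] with q hq
      rw [hq]
      exact h3.self_of_nhds
    rcases lt_or_ge t 0 with h | h
    · apply hcase 0 ⟨le_rfl, zero_le_one⟩
      filter_upwards [Iio_mem_nhds h] with q hq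
      exact hH.left q (le_of_lt hq)
    · rcases lt_or_ge 1 t with h' | h'
      · apply hcase 1 ⟨zero_le_one, le_rfl⟩
        filter_upwards [Ioi_mem_nhds h'] with q hq
        exact hH.right q (le_of_lt hq)
      · obtain ⟨K, h1, h2, h3⟩ := hn t ⟨h, h'⟩ x hx
        exact ⟨K, h1.mono (min_le_left _ _), 1 / ((n : ℝ) + 1) * ‖x‖, by positivity, h3⟩

end SM
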