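import Pool.Agent.SM.Defs
import Pool.Agent.SM.Sec

/-!
# Project SM, module OPN
-/

open Set Metric Filter Topology MeasureTheory
open scoped ContDiff Pointwise

noncomputable section

namespace SM

variable {E : Type*} [NormedAddCommGroup E] [InnerProductSpace ℝ E] [FiniteDimensional ℝ E]

/-- a direction in which all maps of a good set move towards a half space -/
private theorem opn_direction {K : Set (E →L[ℝ] E)} {c : ℝ} (hK : GoodSet c K) (hc : 0 < c)
    {q : E} (hq : q ≠ 0) : ∃ (d : E) (u : ℝ), u < 0 ∧ ∀ M ∈ K, inner ℝ q (M d) < u := by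
  have : CompleteSpace E := FiniteDimensional.complete ℝ E
  set T : Set E := (fun M : E →L[ℝ] E => ContinuousLinearMap.adjoint M q) '' K with hT
  have hlin : IsLinearMap ℝ (fun M : E →L[ℝ] E => ContinuousLinearMap.adjoint M q) :=
    { map_add := fun M N => by simp
      map_smul := fun a M => by simp }
  have hTc : Convex ℝ T := by
    rw [hT]
    exact hK.convex.is_linear_image hlin
  have hcont : Continuous (fun M : E →L[ℝ] E => ContinuousLinearMap.adjoint M q) := by
    have h1 : Continuous (fun M : E →L[ℝ] E => ContinuousLinearMap.adjoint M) :=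
      (ContinuousLinearMap.adjoint (𝕜 := ℝ) (E := E) (F := E)).continuous
    exact h1.clm_apply continuous_const
  have hTK : IsCompact T := hK.compact.image hcont
  have h0 : (0 : E) ∉ T := by
    rintro ⟨M, hM, h0⟩
    have hinj : Function.Injective M := by
      rw [injective_iff_map_eq_zero]
      intro v hv
      have h1 := hK.lower M hM v
      rw [hv, norm_zero] at h1
      have h2 : ‖v‖ ≤ 0 := by
        by_contra h
        rw [not_le] at h
        nlinarith
      exact norm_le_zero_iff.1 h2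
    have hsurj : Function.Surjective M := by
      have := (LinearMap.injective_iff_surjective (f := (M : E →ₗ[ℝ] E))).1 hinj
      exact this
    obtain ⟨v, hv⟩ := hsurj q
    have h1 : inner ℝ (ContinuousLinearMap.adjoint M q) v = inner ℝ q (M v) :=
      ContinuousLinearMap.adjoint_inner_left M v q
    have h2 : ContinuousLinearMap.adjoint M q = 0 := h0
    rw [h2, inner_zero_left, hv, real_inner_self_eq_norm_sq] at h1
    have h3 : 0 < ‖q‖ := norm_pos_iff.2 hq
    nlinarith
  obtain ⟨f, u, v, hf, huv, hv⟩ := geometric_hahn_banach_compact_closed hTc hTK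
    (convex_singleton (0 : E)) isClosed_singleton (disjoint_singleton_right.2 h0)
  have hv0 : v < 0 := by simpa using hv 0 rfl
  refine ⟨(InnerProductSpace.toDual ℝ E).symm f, u, huv.trans hv0, fun M hM => ?_⟩
  have h1 := hf _ ⟨M, hM, rfl⟩
  rw [← InnerProductSpace.toDual_symm_apply (𝕜 := ℝ) (y := f)] at h1
  change inner ℝ ((InnerProductSpace.toDual ℝ E).symm f) (ContinuousLinearMap.adjoint M q) < u at h1
  rw [ContinuousLinearMap.adjoint_inner_right, real_inner_comm] at h1
  exact h1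

omit [FiniteDimensional ℝ E] in
private theorem opn_contOn {f : E → E} {K : Set (E →L[ℝ] E)} {c : ℝ} {U : Set E}
    (hK : GoodSet c K) (h : SecOn f K U) : ContinuousOn f U := by
  obtain ⟨B, hB⟩ := hK.compact.isBounded.exists_norm_le
  have hlip : LipschitzOnWith (Real.toNNReal B) f U := by
    refine LipschitzOnWith.of_dist_le_mul fun x hx y hy => ?_
    obtain ⟨M, hM, hxy⟩ := h x hx y hy
    rw [dist_eq_norm, dist_eq_norm, hxy]
    refine (M.le_opNorm _).trans ?_
    refine mul_le_mul_of_nonneg_right ?_ (norm_nonneg _)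
    exact (hB M hM).trans (Real.le_coe_toNNReal B)
  exact hlip.continuousOn

theorem ball_subset_image {f : E → E} {K : Set (E →L[ℝ] E)} {c r s : ℝ} {x₀ : E}
    (hK : GoodSet c K) (hc : 0 < c) (h : SecOn f K (ball x₀ r)) (hs : 0 < s) (hsr : s < r) :
    ball (f x₀) (c * s / 2) ⊆ f '' closedBall x₀ s := by
  have : ProperSpace E := FiniteDimensional.proper ℝ E
  intro p hp
  rw [mem_ball, dist_eq_norm] at hp
  have hsub : closedBall x₀ s ⊆ ball x₀ r := closedBall_subset_ball hsr
  have hcont : ContinuousOn f (closedBall x₀ s) := (opn_contOn hK h).mono hsub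
  obtain ⟨x, hx, hmin⟩ := (isCompact_closedBall x₀ s).exists_isMinOn
    ⟨x₀, mem_closedBall_self hs.le⟩ (f := fun x => ‖f x - p‖)
    ((hcont.sub continuousOn_const).norm)
  have hmin' : ∀ y ∈ closedBall x₀ s, ‖f x - p‖ ≤ ‖f y - p‖ := fun y hy => hmin hy
  -- the minimiser is interior
  have hx1 : ‖x - x₀‖ < s := by
    rw [mem_closedBall, dist_eq_norm] at hx
    refine lt_of_le_of_ne hx fun heq => ?_
    have h1 := hmin' x₀ (mem_closedBall_self hs.le)
    obtain ⟨M, hM, hxy⟩ := h x (hsub (by rw [mem_closedBall, dist_eq_norm]; exact hx)) x₀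
      (mem_ball_self (hs.trans hsr))
    have h2 := hK.lower M hM (x - x₀)
    rw [← hxy, heq] at h2
    have h3 : ‖f x - f x₀‖ ≤ ‖f x - p‖ + ‖f x₀ - p‖ := by
      have : f x - f x₀ = (f x - p) - (f x₀ - p) := by abel
      rw [this]
      exact norm_sub_le _ _
    rw [norm_sub_rev] at hp
    linarith
  refine ⟨x, hx, ?_⟩
  by_contra hne
  have hq : f x - p ≠ 0 := sub_ne_zero.2 hne
  obtain ⟨d, u, hu, hdir⟩ := opn_direction hK hc hq
  obtain ⟨B, hB⟩ := hK.compact.isBounded.exists_norm_le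
  have hB0 : 0 ≤ max B 0 := le_max_right _ _
  set D : ℝ := (max B 0 * ‖d‖) ^ 2 + 1 with hD
  have hD0 : 0 < D := by positivity
  set σ : ℝ := min (-u / D) ((s - ‖x - x₀‖) / (‖d‖ + 1)) with hσ
  have hσ0 : 0 < σ := by
    rw [hσ]
    refine lt_min (div_pos (by linarith) hD0) (div_pos (by linarith) (by positivity))
  have hσ1 : σ * D ≤ -u := by
    have := min_le_left (-u / D) ((s - ‖x - x₀‖) / (‖d‖ + 1))
    rw [← hσ, le_div_iff₀ hD0] at this
    exact this
  have hσ2 : σ * (‖d‖ + 1) ≤ s - ‖x - x₀‖ := by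
    have := min_le_right (-u / D) ((s - ‖x - x₀‖) / (‖d‖ + 1))
    rw [← hσ, le_div_iff₀ (by positivity)] at this
    exact this
  have hy : x + σ • d ∈ closedBall x₀ s := by
    rw [mem_closedBall, dist_eq_norm]
    have h1 : ‖x + σ • d - x₀‖ ≤ ‖x - x₀‖ + σ * ‖d‖ := by
      have h2 : x + σ • d - x₀ = (x - x₀) + σ • d := by abel
      rw [h2]
      refine (norm_add_le _ _).trans ?_
      rw [norm_smul, Real.norm_of_nonneg hσ0.le]
    nlinarith
  obtain ⟨M, hM, hxy⟩ := h _ (hsub hy) x (hsub hx)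
  have h4 : x + σ • d - x = σ • d := by abel
  rw [h4, map_smul] at hxy
  have h5 := hmin' _ hy
  have h6 : f (x + σ • d) - p = (f x - p) + σ • M d := by
    rw [← hxy]
    abel
  rw [h6] at h5
  have h7 : ‖(f x - p) + σ • M d‖ ^ 2 = ‖f x - p‖ ^ 2 + 2 * (σ * inner ℝ (f x - p) (M d)) +
      (σ * ‖M d‖) ^ 2 := by
    rw [norm_add_sq_real, inner_smul_right, norm_smul, Real.norm_of_nonneg hσ0.le]
  have h8 : ‖f x - p‖ ^ 2 ≤ ‖(f x - p) + σ • M d‖ ^ 2 := by
    gcongr
  have h9 := hdir M hM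
  have h10 : ‖M d‖ ≤ max B 0 * ‖d‖ := (M.le_opNorm _).trans
    (mul_le_mul_of_nonneg_right ((hB M hM).trans (le_max_left _ _)) (norm_nonneg _))
  have h11 : ‖M d‖ ^ 2 ≤ D := by
    have : ‖M d‖ ^ 2 ≤ (max B 0 * ‖d‖) ^ 2 := by gcongr
    rw [hD]
    linarith
  rw [h7] at h8
  have h12 : 0 ≤ 2 * (σ * inner ℝ (f x - p) (M d)) + (σ * ‖M d‖) ^ 2 := by linarith
  have h13 : (σ * ‖M d‖) ^ 2 ≤ σ * (-u) := by
    calc (σ * ‖M d‖) ^ 2 = σ * (σ * ‖M d‖ ^ 2) := by ring
      _ ≤ σ * (σ * D) := by gcongr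
      _ ≤ σ * (-u) := by gcongr
  nlinarith

theorem separation {f : E → E} {Ω : Set E} (hΩ : IsOpen Ω) (hinj : InjOn f Ω)
    (h : ∀ x ∈ Ω, ∃ c > 0, SecGood c f x) :
    ∀ x ∈ Ω, ∀ r > 0, ∃ m > 0, ∀ y ∈ Ω, r ≤ ‖y - x‖ → m ≤ ‖f y - f x‖ := by
  intro x hx r hr
  obtain ⟨c, hc, K, hK, r₁, hr₁, hsec⟩ := h x hx
  obtain ⟨r₂, hr₂, hsub⟩ := Metric.isOpen_iff.1 hΩ x hx
  set s : ℝ := min r (min r₁ r₂) / 2 with hs
  have hm : 0 < min r (min r₁ r₂) := lt_min hr (lt_min hr₁ hr₂)
  have hs0 : 0 < s := by positivity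
  have hs1 : s < r := by
    have := min_le_left r (min r₁ r₂)
    linarith
  have hs2 : s < r₁ := by
    have := (min_le_right r (min r₁ r₂)).trans (min_le_left _ _)
    linarith
  have hs3 : s < r₂ := by
    have := (min_le_right r (min r₁ r₂)).trans (min_le_right _ _)
    linarith
  refine ⟨c * s / 2, by positivity, fun y hy hxy => ?_⟩
  by_contra hlt
  rw [not_le] at hlt
  have h1 : f y ∈ ball (f x) (c * s / 2) := by rwa [mem_ball, dist_eq_norm]
  obtain ⟨z, hz, hfz⟩ := ball_subset_image hK hc hsec hs0 hs2 h1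
  have h2 : z = y := hinj (hsub (closedBall_subset_ball hs3 hz)) hy hfz
  rw [h2, mem_closedBall, dist_eq_norm] at hz
  linarith

theorem surjective_of_secGood {f : E → E} (h : ∀ x, ∃ c > 0, SecGood c f x) {a : ℝ} (ha : 0 < a)
    (hlow : ∀ x x', a * ‖x - x'‖ ≤ ‖f x - f x'‖) : Function.Surjective f := by
  have : CompleteSpace E := FiniteDimensional.complete ℝ E
  have hcont : Continuous f := continuous_iff_continuousAt.2 fun x => by
    obtain ⟨c, -, hc⟩ := h x
    exact hc.continuousAt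
  have hopen : IsOpen (range f) := by
    rw [Metric.isOpen_iff]
    rintro _ ⟨x, rfl⟩
    obtain ⟨c, hc, K, hK, r, hr, hsec⟩ := h x
    refine ⟨c * (r / 2) / 2, by positivity, ?_⟩
    exact (ball_subset_image hK hc hsec (half_pos hr) (half_lt_self hr)).trans
      (image_subset_range _ _)
  have hclosed : IsClosed (range f) := by
    refine IsSeqClosed.isClosed fun y z hy hyz => ?_
    choose x hx using hy
    have hcs : CauchySeq x := by
      have h1 : CauchySeq y := hyz.cauchySeq
      rw [Metric.cauchySeq_iff] at h1 ⊢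
      intro ε hε
      obtain ⟨N, hN⟩ := h1 (a * ε) (by positivity)
      refine ⟨N, fun m hm n hn => ?_⟩
      have h2 := hN m hm n hn
      have h3 := hlow (x m) (x n)
      rw [hx, hx, ← dist_eq_norm, ← dist_eq_norm] at h3
      have h4 : a * dist (x m) (x n) < a * ε := h3.trans_lt h2
      exact lt_of_mul_lt_mul_left h4 ha.le
    obtain ⟨w, hw⟩ := cauchySeq_tendsto_of_complete hcs
    refine ⟨w, ?_⟩
    have h5 : Tendsto (fun n => f (x n)) atTop (𝓝 (f w)) := (hcont.tendsto w).comp hw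
    have h6 : (fun n => f (x n)) = y := funext hx
    rw [h6] at h5
    exact tendsto_nhds_unique h5 hyz
  have := IsClopen.eq_univ ⟨hclosed, hopen⟩ (range_nonempty f)
  exact range_eq_univ.1 this

end SM
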