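import Pool.Agent.SM.Defs
import Pool.Agent.SM.Sec
import Pool.Agent.SM.Opn
import Pool.Agent.SM.Hc
import Pool.Agent.SM.Cut

/-!
# Project SM, module DTH
-/

open Set Metric Filter Topology MeasureTheory
open scoped ContDiff Pointwise

noncomputable section

namespace SM

theorem fill_of_homPath {h : E3 → E3} {A : E3 →L[ℝ] E3} (hp : HomPath h A) :
    ∃ (g : E3 → E3) (C : ℝ), (∀ x, 1 ≤ ‖x‖ → g x = h x) ∧ (∀ x, ∃ c > 0, SecGood c g x) ∧
      Function.Injective g ∧ (∀ x x', ‖g x - g x'‖ ≤ C * ‖x - x'‖) ∧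
      Function.Surjective h := by
  obtain ⟨H, C, hH, hH0, hH1⟩ := hp
  obtain ⟨c, hc, Λ, hΛ, hlow, hlip, hgood⟩ := hH.uniform
  set C' : ℝ := max C 0 with hC'
  have hC0 : 0 ≤ C' := le_max_right _ _
  set M : ℝ := max 1 (2 * C' / c) with hM
  have hM1 : 1 ≤ M := le_max_left _ _
  have hM0 : 0 < M := lt_of_lt_of_le one_pos hM1
  have hM2 : 2 * C' ≤ M * c := by
    have := le_max_right 1 (2 * C' / c)
    rwa [← hM, div_le_iff₀ hc] at this
  have hCM : C' / M ≤ c / 2 := by
    rw [div_le_iff₀ hM0]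
    linarith
  set τ : E3 → ℝ := fun x => cut M ‖x‖ with hτ
  have hτc : Continuous τ := (continuous_cut M).comp continuous_norm
  -- slow variation
  have hslow : ∀ x x', |τ x - τ x'| * min ‖x‖ ‖x'‖ ≤ ‖x - x'‖ / M := by
    intro x x'
    have h1 := cut_slow (M := M) (a := ‖x‖) (a' := ‖x'‖) (b := 1) (b' := 1) hM0
      (norm_nonneg _) (norm_nonneg _) one_pos one_pos
    rw [div_one, div_one, sub_self, abs_zero, add_zero] at h1
    refine h1.trans ?_
    gcongr
    exact abs_norm_sub_norm_le x x'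
  have herr : ∀ x x', ‖H (τ x) x' - H (τ x') x'‖ ≤ c / 2 * ‖x - x'‖ ∨
      ‖H (τ x) x - H (τ x') x‖ ≤ c / 2 * ‖x - x'‖ := by
    intro x x'
    have key : ∀ z : E3, ‖z‖ = min ‖x‖ ‖x'‖ → ‖H (τ x) z - H (τ x') z‖ ≤ c / 2 * ‖x - x'‖ := by
      intro z hz
      have h1 := hH.lipt (τ x) (τ x') z
      have h2 := hslow x x'
      rw [hz] at h1
      have h3 : 0 ≤ |τ x - τ x'| * min ‖x‖ ‖x'‖ :=
        mul_nonneg (abs_nonneg _) (le_min (norm_nonneg _) (norm_nonneg _))
      calc ‖H (τ x) z - H (τ x') z‖ ≤ C * |τ x - τ x'| * min ‖x‖ ‖x'‖ := h1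
        _ = C * (|τ x - τ x'| * min ‖x‖ ‖x'‖) := by ring
        _ ≤ C' * (|τ x - τ x'| * min ‖x‖ ‖x'‖) := by
          refine mul_le_mul_of_nonneg_right (le_max_left _ _) h3
        _ ≤ C' * (‖x - x'‖ / M) := by gcongr
        _ = C' / M * ‖x - x'‖ := by ring
        _ ≤ c / 2 * ‖x - x'‖ := by gcongr
    rcases le_total ‖x‖ ‖x'‖ with hle | hle
    · exact Or.inr (key x (min_eq_left hle).symm)
    · exact Or.inl (key x' (min_eq_right hle).symm)
  -- two point estimates
  have htwo : ∀ x x', c / 2 * ‖x - x'‖ ≤ ‖H (τ x) x - H (τ x') x'‖ ∧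
      ‖H (τ x) x - H (τ x') x'‖ ≤ (Λ + c / 2) * ‖x - x'‖ := by
    intro x x'
    rcases herr x x' with he | he
    · have e1 : H (τ x) x - H (τ x') x' =
          (H (τ x) x - H (τ x) x') + (H (τ x) x' - H (τ x') x') := by abel
      have e2 := hlow (τ x) x x'
      have e3 := hlip (τ x) x x'
      have e4 := norm_add_le (H (τ x) x - H (τ x) x') (H (τ x) x' - H (τ x') x')
      have e5 := norm_sub_le (H (τ x) x - H (τ x') x') (H (τ x) x' - H (τ x') x')
      have e6 : H (τ x) x - H (τ x') x' - (H (τ x) x' - H (τ x') x') =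
        H (τ x) x - H (τ x) x' := by abel
      rw [e6] at e5
      rw [← e1] at e4
      constructor <;> nlinarith
    · have e1 : H (τ x) x - H (τ x') x' =
          (H (τ x) x - H (τ x') x) + (H (τ x') x - H (τ x') x') := by abel
      have e2 := hlow (τ x') x x'
      have e3 := hlip (τ x') x x'
      have e4 := norm_add_le (H (τ x) x - H (τ x') x) (H (τ x') x - H (τ x') x')
      have e5 := norm_sub_le (H (τ x) x - H (τ x') x') (H (τ x) x - H (τ x') x)
      have e6 : H (τ x) x - H (τ x') x' - (H (τ x) x - H (τ x') x) =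
        H (τ x') x - H (τ x') x' := by abel
      rw [e6] at e5
      rw [← e1] at e4
      constructor <;> nlinarith
  set g : E3 → E3 := fun x => H (τ x) x with hg
  have hout : ∀ x, 1 ≤ ‖x‖ → g x = h x := by
    intro x hx
    change H (cut M ‖x‖) x = h x
    rw [cut_of_one_le hM0 hx, hH0]
  have hsec : ∀ x, ∃ c > 0, SecGood c g x := by
    intro x
    rcases eq_or_ne x 0 with rfl | hx
    · refine ⟨c, hc, {A}, goodSet_singleton fun v => ?_, Real.exp (-M), Real.exp_pos _, ?_⟩
      · have h1 := hlow 1 v 0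
        rw [hH1, sub_zero, map_zero, sub_zero] at h1
        exact h1
      · have h2 : ∀ y ∈ ball (0 : E3) (Real.exp (-M)), g y = A y := by
          intro y hy
          rw [mem_ball_zero_iff] at hy
          change H (cut M ‖y‖) y = A y
          rw [cut_of_le hM0 hy.le, hH1]
        intro y hy y' hy'
        refine ⟨A, rfl, ?_⟩
        rw [h2 y hy, h2 y' hy', map_sub]
    · refine ⟨c - c / 2, by linarith, ?_⟩
      exact slow_secGood (h := H) (τ := τ) (hgood (τ x) x hx) hτc.continuousAt one_pos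
        (by positivity) fun y _ y' _ => herr y y'
  refine ⟨g, Λ + c / 2, hout, hsec, ?_, fun x x' => (htwo x x').2, ?_⟩
  · intro x x' hxx
    have h1 := (htwo x x').1
    change H (τ x) x = H (τ x') x' at hxx
    rw [hxx, sub_self, norm_zero] at h1
    have h2 : ‖x - x'‖ ≤ 0 := by
      by_contra hlt
      rw [not_le] at hlt
      nlinarith
    exact sub_eq_zero.1 (norm_le_zero_iff.1 h2)
  · have hgs : Function.Surjective g :=
      surjective_of_secGood hsec (show 0 < c / 2 by positivity) fun x x' => (htwo x x').1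
    have hh : PosHom h := hH0 ▸ hH.hom 0
    have hg0 : g 0 = 0 := by
      have h3 := hH.hom (τ 0) 0 le_rfl 0
      rw [zero_smul, zero_smul] at h3
      exact h3
    intro y
    rcases eq_or_ne y 0 with rfl | hy
    · refine ⟨0, ?_⟩
      have h3 := hh 0 le_rfl 0
      rwa [zero_smul, zero_smul] at h3
    · have hy0 : 0 < ‖y‖ := norm_pos_iff.2 hy
      set t : ℝ := (Λ + c / 2 + 1) / ‖y‖ with ht
      have ht0 : 0 < t := by positivity
      obtain ⟨x, hx⟩ := hgs (t • y)
      have h4 := (htwo x 0).2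
      have h5 : ‖g x‖ = Λ + c / 2 + 1 := by
        rw [hx, norm_smul, Real.norm_of_nonneg ht0.le, ht]
        field_simp
      have h6 : ‖g x‖ ≤ (Λ + c / 2) * ‖x‖ := by
        have h7 : g x - g 0 = g x := by rw [hg0, sub_zero]
        have h8 : ‖g x - g 0‖ ≤ (Λ + c / 2) * ‖x - 0‖ := h4
        rwa [h7, sub_zero] at h8
      have h9 : 1 ≤ ‖x‖ := by
        by_contra hlt
        rw [not_le] at hlt
        have : (Λ + c / 2) * ‖x‖ ≤ (Λ + c / 2) * 1 := by gcongr
        linarith
      refine ⟨t⁻¹ • x, ?_⟩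
      rw [hh _ (by positivity), ← hout x h9, hx, smul_smul, inv_mul_cancel₀ ht0.ne', one_smul]

end SM
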