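import Pool.Agent.SM.Defs
import Pool.Agent.SM.Sec
import Pool.Agent.SM.Cut

/-!
# Project SM, module HAM
-/

open Set Metric Filter Topology MeasureTheory
open scoped ContDiff Pointwise

noncomputable section

namespace SM

/-- the local model -/
theorem edge_model {h : E3 → E3} {hp : ℝ → E3 → E3} {c C M : ℝ} (hE : EdgePath h hp c C)
    (hM : M = 4 * C / c) {b : E3 → ℝ} (hb : LipschitzWith (1 / 8) b) {U : Set E3}
    (hU : ∀ x ∈ U, 0 < b x) (hUo : IsOpen U) (hUc : Convex ℝ U) :
    (∀ x ∈ U, SecGood (c / 2)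
      (fun x => hp (cut M (infDist x (lin h : Set E3) / b x)) x) x) ∧
    (∀ x ∈ U, ∀ x' ∈ U, c / 2 * ‖x - x'‖ ≤
      ‖hp (cut M (infDist x (lin h : Set E3) / b x)) x -
        hp (cut M (infDist x' (lin h : Set E3) / b x')) x'‖ ∧
      ‖hp (cut M (infDist x (lin h : Set E3) / b x)) x -
        hp (cut M (infDist x' (lin h : Set E3) / b x')) x'‖ ≤ 2 * C * ‖x - x'‖) := by
  have hc := hE.cpos
  have hC := hE.Cpos
  have hM0 : 0 < M := by
    rw [hM]
    positivity
  set L : Set E3 := (lin h : Set E3) with hL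
  have hLc : IsClosed L := (lin h).closed_of_finiteDimensional
  have hLn : L.Nonempty := ⟨0, (lin h).zero_mem⟩
  set τ : E3 → ℝ := fun x => cut M (infDist x L / b x) with hτ
  have hlipt : ∀ t t' x, ‖hp t x - hp t' x‖ ≤ C * |t - t'| * infDist x L := by
    intro t t' x
    obtain ⟨l, hl, hl'⟩ := hLc.exists_infDist_eq_dist hLn x
    rw [hl', dist_eq_norm]
    exact hE.lipt t t' x l hl
  have hdist : ∀ x x', |infDist x L - infDist x' L| ≤ ‖x - x'‖ := by
    intro x x'
    have := (lipschitz_infDist_pt L).dist_le_mul x x'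
    rwa [Real.dist_eq, NNReal.coe_one, one_mul, dist_eq_norm] at this
  have hbd : ∀ x x', |b x - b x'| ≤ 1 / 8 * ‖x - x'‖ := by
    intro x x'
    have := hb.dist_le_mul x x'
    rw [Real.dist_eq, dist_eq_norm] at this
    have h3 : (((1 / 8 : NNReal)) : ℝ) = 1 / 8 := by norm_num
    rwa [h3] at this
  have hslow : ∀ x ∈ U, ∀ x' ∈ U, C * (|τ x - τ x'| * min (infDist x L) (infDist x' L)) ≤
      9 / 32 * c * ‖x - x'‖ := by
    intro x hx x' hx'
    have h1 := cut_slow (M := M) hM0 (infDist_nonneg (x := x) (s := L))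
      (infDist_nonneg (x := x') (s := L)) (hU x hx) (hU x' hx')
    have h2 : (|infDist x L - infDist x' L| + |b x - b x'|) / M ≤ (9 / 8 * ‖x - x'‖) / M := by
      apply div_le_div_of_nonneg_right _ hM0.le
      have := hdist x x'
      have := hbd x x'
      linarith
    calc C * (|τ x - τ x'| * min (infDist x L) (infDist x' L))
        ≤ C * ((9 / 8 * ‖x - x'‖) / M) := mul_le_mul_of_nonneg_left (h1.trans h2) hC.le
      _ = 9 / 32 * c * ‖x - x'‖ := by
        rw [hM]
        field_simp
        ring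
  have halt : ∀ x ∈ U, ∀ x' ∈ U,
      ‖hp (τ x) x' - hp (τ x') x'‖ ≤ 9 / 32 * c * ‖x - x'‖ ∨
      ‖hp (τ x) x - hp (τ x') x‖ ≤ 9 / 32 * c * ‖x - x'‖ := by
    intro x hx x' hx'
    have h1 := hslow x hx x' hx'
    rcases le_total (infDist x' L) (infDist x L) with h2 | h2
    · left
      rw [min_eq_right h2] at h1
      have h3 := hlipt (τ x) (τ x') x'
      linarith
    · right
      rw [min_eq_left h2] at h1
      have h3 := hlipt (τ x) (τ x') x
      linarith
  constructor
  · intro x hx
    obtain ⟨r, hr, hrU⟩ := Metric.isOpen_iff.1 hUo x hx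
    have hτc : ContinuousAt τ x := by
      have h1 : ContinuousAt (fun x => infDist x L / b x) x :=
        (continuous_infDist_pt L).continuousAt.div hb.continuous.continuousAt (hU x hx).ne'
      exact (continuous_cut M).continuousAt.comp h1
    by_cases hxL : x ∈ lin h
    · have h0 : infDist x L = 0 := infDist_zero_of_mem hxL
      have h1 : ∀ᶠ y in 𝓝 x, infDist y L / b y < Real.exp (-M) := by
        have h2 : ContinuousAt (fun x => infDist x L / b x) x :=
          (continuous_infDist_pt L).continuousAt.div hb.continuous.continuousAt (hU x hx).ne'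
        apply h2.eventually (gt_mem_nhds _)
        show infDist x L / b x < Real.exp (-M)
        rw [h0, zero_div]
        exact Real.exp_pos _
      obtain ⟨A, hA⟩ := hE.one
      have hlow : ∀ v, c * ‖v‖ ≤ ‖A v‖ := by
        intro v
        have h3 := hE.lower 1 v 0
        rw [hA 1 le_rfl, sub_zero, map_zero, sub_zero] at h3
        exact h3
      have h2 : SecGood c (A : E3 → E3) x :=
        ⟨{A}, goodSet_singleton hlow, 1, one_pos, fun y _ y' _ => ⟨A, rfl, (map_sub A y y').symm⟩⟩
      refine (h2.mono (by linarith)).congr ?_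
      filter_upwards [h1] with y hy
      have h3 : cut M (infDist y L / b y) = 1 := cut_of_le hM0 hy.le
      rw [h3, hA 1 le_rfl]
    · have h1 := slow_secGood (h := hp) (τ := τ) (hE.good (τ x) x hxL) hτc hr
        (ε := 9 / 32 * c) (by positivity)
        (fun y hy y' hy' => halt y (hrU hy) y' (hrU hy'))
      exact h1.mono (by linarith)
  · intro x hx x' hx'
    have hCc : c * ‖x - x'‖ ≤ C * ‖x - x'‖ := (hE.lower 0 x x').trans (hE.lip 0 x x')
    have hn := norm_nonneg (x - x')
    change c / 2 * ‖x - x'‖ ≤ ‖hp (τ x) x - hp (τ x') x'‖ ∧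
      ‖hp (τ x) x - hp (τ x') x'‖ ≤ 2 * C * ‖x - x'‖
    rcases halt x hx x' hx' with h1 | h1
    · have h2 := hE.lower (τ x) x x'
      have h3 := hE.lip (τ x) x x'
      have h4 : hp (τ x) x - hp (τ x') x' = (hp (τ x) x - hp (τ x) x') +
        (hp (τ x) x' - hp (τ x') x') := by abel
      have h5 := norm_add_le (hp (τ x) x - hp (τ x) x') (hp (τ x) x' - hp (τ x') x')
      have h6 : ‖hp (τ x) x - hp (τ x) x'‖ ≤ ‖hp (τ x) x - hp (τ x') x'‖ +
          ‖hp (τ x) x' - hp (τ x') x'‖ := by
        have := norm_sub_le (hp (τ x) x - hp (τ x') x') (hp (τ x) x' - hp (τ x') x')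
        have h7 : hp (τ x) x - hp (τ x') x' - (hp (τ x) x' - hp (τ x') x') =
          hp (τ x) x - hp (τ x) x' := by abel
        rwa [h7] at this
      rw [← h4] at h5
      constructor
      · linarith
      · linarith
    · have h2 := hE.lower (τ x') x x'
      have h3 := hE.lip (τ x') x x'
      have h4 : hp (τ x) x - hp (τ x') x' = (hp (τ x) x - hp (τ x') x) +
        (hp (τ x') x - hp (τ x') x') := by abel
      have h5 := norm_add_le (hp (τ x) x - hp (τ x') x) (hp (τ x') x - hp (τ x') x')
      have h6 : ‖hp (τ x') x - hp (τ x') x'‖ ≤ ‖hp (τ x) x - hp (τ x') x'‖ +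
          ‖hp (τ x) x - hp (τ x') x‖ := by
        have := norm_sub_le (hp (τ x) x - hp (τ x') x') (hp (τ x) x - hp (τ x') x)
        have h7 : hp (τ x) x - hp (τ x') x' - (hp (τ x) x - hp (τ x') x) =
          hp (τ x') x - hp (τ x') x' := by abel
        rwa [h7] at this
      rw [← h4] at h5
      constructor
      · linarith
      · linarith

end SM
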