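import Pool.Agent.SM.Defs
import Pool.Agent.SM.Sec
import Pool.Agent.SM.Grm

/-!
# Project SM, module STA
-/

open Set Metric Filter Topology MeasureTheory
open scoped ContDiff Pointwise

set_option linter.unusedSectionVars false

noncomputable section

namespace SM

variable {f : E3 → E3} {Ω : Set E3}

theorem rk_le_three (f : E3 → E3) (x : E3) : rk f x ≤ 3 := by
  unfold rk
  have h := Submodule.finrank_le (lin (germ f x))
  have h2 : Module.finrank ℝ E3 = 3 := by simp [E3]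
  omega

theorem sta_nearby (hf : LocConic f Ω) {x w : E3} {R : ℝ} (hx : x ∈ Ω) (hb : ball x R ⊆ Ω)
    (hc : ConicAt f x R (germ f x)) (hw : ‖w‖ < R) :
    x + w ∈ Ω ∧ lin (germ f x) ≤ lin (germ f (x + w)) ∧ w ∈ lin (germ f (x + w)) := by
  have hmem : x + w ∈ Ω := hb (by simpa [mem_ball, dist_eq_norm] using hw)
  obtain ⟨hh, -⟩ := hf.germ_spec hx
  obtain ⟨hg, r, hr, -, hc'⟩ := hf.germ_spec hmem
  obtain ⟨h1, h2, -⟩ := lin_mono hh hg hc hw hr hc'
  exact ⟨hmem, h1, h2⟩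

theorem rk_nearby (hf : LocConic f Ω) {x : E3} (hx : x ∈ Ω) :
    ∃ r > 0, ∀ y ∈ ball x r, y ∈ Ω ∧ rk f x ≤ rk f y ∧ (y ≠ x → 1 ≤ rk f y) := by
  obtain ⟨hh, R, hR, hb, hc⟩ := hf.germ_spec hx
  refine ⟨R, hR, fun y hy => ?_⟩
  have hw : ‖y - x‖ < R := by rwa [mem_ball, dist_eq_norm] at hy
  obtain ⟨h1, h2, h3⟩ := sta_nearby hf hx hb hc hw
  have e : x + (y - x) = y := by abel
  rw [e] at h1 h2 h3
  refine ⟨h1, Submodule.finrank_mono h2, fun hne => ?_⟩
  unfold rk
  rw [Nat.one_le_iff_ne_zero]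
  intro h0
  rw [Submodule.finrank_eq_zero] at h0
  rw [h0, Submodule.mem_bot] at h3
  exact hne (sub_eq_zero.1 h3)

theorem sta_edge_germ (hf : LocConic f Ω) {e w : E3} {R : ℝ} (he : e ∈ Ω)
    (hc : ConicAt f e R (germ f e)) (hw : ‖w‖ < R)
    (hw' : w ∈ lin (germ f e)) : germ f (e + w) = germ f e := by
  obtain ⟨hh, -⟩ := hf.germ_spec he
  have h1 : ConicAt f (e + w) (R - ‖w‖) (germ f e) :=
    ConicAt.of_lin hh hc hw' (by linarith)
  exact germ_eq (by linarith) hh h1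

/-- near an edge point the edge is a segment with constant germ -/
theorem edge_iff (hf : LocConic f Ω) {e w : E3} {R : ℝ} (he : e ∈ Es f Ω)
    (hR : ball e R ⊆ Ω) (hc : ConicAt f e R (germ f e)) (hw : ‖w‖ < R) :
    e + w ∈ Es f Ω ↔ w ∈ lin (germ f e) := by
  obtain ⟨h1, h2, h3⟩ := sta_nearby hf he.1 hR hc hw
  constructor
  · intro hmem
    have h4 : Module.finrank ℝ (lin (germ f e)) = Module.finrank ℝ (lin (germ f (e + w))) := by
      have a := he.2
      have b := hmem.2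
      unfold rk at a b
      rw [a, b]
    rw [Submodule.eq_of_le_of_finrank_eq h2 h4]
    exact h3
  · intro hw'
    refine ⟨h1, ?_⟩
    have h4 := sta_edge_germ hf he.1 hc hw hw'
    have a := he.2
    unfold rk at a ⊢
    rw [h4, a]

theorem edge_germ (hf : LocConic f Ω) {e w : E3} {R : ℝ} (he : e ∈ Es f Ω)
    (_hR : ball e R ⊆ Ω) (hc : ConicAt f e R (germ f e)) (hw : ‖w‖ < R)
    (hw' : w ∈ lin (germ f e)) : germ f (e + w) = germ f e :=
  sta_edge_germ hf he.1 hc hw hw'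

theorem sta_smul_lin {h : E3 → E3} (hh : PosHom h) {l : E3} (hl : l ∈ lin h) (c : ℝ) :
    h (c • l) = c • h l := by
  rcases le_total 0 c with hc | hc
  · exact hh c hc l
  · have h1 := hh.mem_lin.1 (Submodule.smul_mem _ c hl) ((-c) • l)
    have e : (-c) • l + c • l = 0 := by rw [neg_smul]; abel
    rw [e, grm_zero hh, hh (-c) (by linarith)] at h1
    have h2 : h (c • l) = -((-c) • h l) := by
      rw [eq_neg_iff_add_eq_zero, add_comm]
      exact h1.symm
    rw [h2, neg_smul, neg_neg]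

theorem rk_eq_three (hf : LocConic f Ω) {x : E3} (hx : x ∈ Ω) (h : rk f x = 3) :
    ∃ A : E3 →L[ℝ] E3, germ f x = A := by
  obtain ⟨hh, -⟩ := hf.germ_spec hx
  have htop : lin (germ f x) = ⊤ := by
    apply Submodule.eq_top_of_finrank_eq
    unfold rk at h
    rw [h]
    simp [E3]
  have hmem : ∀ v : E3, v ∈ lin (germ f x) := fun v => by rw [htop]; trivial
  let B : E3 →ₗ[ℝ] E3 :=
    { toFun := germ f x
      map_add' := fun v w => hh.mem_lin.1 (hmem w) v
      map_smul' := fun c v => sta_smul_lin hh (hmem v) c }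
  exact ⟨LinearMap.toContinuousLinearMap B, rfl⟩

/-- a compact convex set of injective maps is good -/
theorem sta_good {K : Set (E3 →L[ℝ] E3)} (hKc : Convex ℝ K) (hKK : IsCompact K)
    (hinj : ∀ M ∈ K, ∀ v, M v = 0 → v = 0) : ∃ c > 0, GoodSet c K := by
  rcases K.eq_empty_or_nonempty with he | hne
  · refine ⟨1, one_pos, hKc, hKK, ?_⟩
    intro M hM
    rw [he] at hM
    exact absurd hM (notMem_empty M)
  have hS : IsCompact (K ×ˢ sphere (0 : E3) 1) := hKK.prod (isCompact_sphere _ _)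
  have hSne : (K ×ˢ sphere (0 : E3) 1).Nonempty := by
    obtain ⟨u, hu⟩ := exists_norm_eq E3 (zero_le_one' ℝ)
    obtain ⟨M, hM⟩ := hne
    exact ⟨(M, u), hM, by simpa using hu⟩
  have hcont : Continuous (fun z : (E3 →L[ℝ] E3) × E3 => ‖z.1 z.2‖) :=
    (isBoundedBilinearMap_apply (𝕜 := ℝ) (E := E3) (F := E3)).continuous.norm
  obtain ⟨z, hz, hmin⟩ := hS.exists_isMinOn hSne hcont.continuousOn
  have hzpos : 0 < ‖z.1 z.2‖ := by
    rw [norm_pos_iff]
    intro h0
    have h1 := hinj z.1 hz.1 z.2 h0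
    have h2 : ‖z.2‖ = 1 := by simpa using hz.2
    rw [h1, norm_zero] at h2
    exact zero_ne_one h2
  refine ⟨‖z.1 z.2‖, hzpos, hKc, hKK, ?_⟩
  intro M hM x
  rcases eq_or_ne x 0 with rfl | hx
  · simp
  have hxn : 0 < ‖x‖ := norm_pos_iff.2 hx
  have hu : ‖x‖⁻¹ • x ∈ sphere (0 : E3) 1 := by
    rw [mem_sphere_zero_iff_norm, norm_smul, norm_inv, norm_norm, inv_mul_cancel₀ hxn.ne']
  have h3 := hmin (show (M, ‖x‖⁻¹ • x) ∈ K ×ˢ sphere (0 : E3) 1 from ⟨hM, hu⟩)
  simp only [Set.mem_ofPred_eq, map_smul, norm_smul, norm_inv, norm_norm] at h3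
  rwa [le_inv_mul_iff₀ hxn, mul_comm] at h3

theorem sta_secGood_three (hf : LocConic f Ω) (hinj : InjOn f Ω) {x : E3} (hx : x ∈ Ω)
    (h : rk f x = 3) : ∃ c > 0, SecGood c f x := by
  obtain ⟨A, hA⟩ := rk_eq_three hf hx h
  obtain ⟨hh, R, hR, hb, hc⟩ := hf.germ_spec hx
  have hi := germ_injective hf hinj hx
  have hAi : ∀ M ∈ ({A} : Set (E3 →L[ℝ] E3)), ∀ v, M v = 0 → v = 0 := by
    intro M hM v hv
    rw [mem_singleton_iff] at hM
    subst hM
    apply hi
    rw [hA, hv, map_zero]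
  obtain ⟨c, hcpos, hgood⟩ := sta_good (convex_singleton A) isCompact_singleton hAi
  refine ⟨c, hcpos, {A}, hgood, R, hR, ?_⟩
  intro y hy y' hy'
  refine ⟨A, rfl, ?_⟩
  rw [mem_ball, dist_eq_norm] at hy hy'
  have e1 := hc _ hy
  have e2 := hc _ hy'
  rw [hA] at e1 e2
  have e3 : x + (y - x) = y := by abel
  have e4 : x + (y' - x) = y' := by abel
  rw [e3] at e1
  rw [e4] at e2
  rw [e1, e2, map_sub, map_sub, map_sub]
  abel

/-- the secant parameter of the piecewise linear function of one variable -/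
theorem sta_frac (a b : E3) (φ : ℝ → E3) (h1 : ∀ s, 0 ≤ s → φ s = s • b)
    (h2 : ∀ s, s ≤ 0 → φ s = s • a) (s s' : ℝ) :
    ∃ t ∈ Icc (0 : ℝ) 1, φ s - φ s' = (s - s') • ((1 - t) • a + t • b) := by
  wlog hss : s' ≤ s generalizing s s'
  · obtain ⟨t, ht, h⟩ := this s' s (le_of_not_ge hss)
    refine ⟨t, ht, ?_⟩
    have e : s - s' = -(s' - s) := by ring
    rw [e, neg_smul, ← h]
    abel
  rcases le_total 0 s' with h0 | h0
  · refine ⟨1, ⟨zero_le_one, le_rfl⟩, ?_⟩
    rw [h1 s (h0.trans hss), h1 s' h0]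
    module
  rcases le_total s 0 with h0' | h0'
  · refine ⟨0, ⟨le_rfl, zero_le_one⟩, ?_⟩
    rw [h2 s h0', h2 s' h0]
    module
  rcases eq_or_lt_of_le hss with he | hlt
  · refine ⟨0, ⟨le_rfl, zero_le_one⟩, ?_⟩
    subst he
    simp
  have hpos : 0 < s - s' := by linarith
  refine ⟨s / (s - s'), ⟨div_nonneg h0' hpos.le, (div_le_one hpos).2 (by linarith)⟩, ?_⟩
  rw [h1 s h0', h2 s' h0, smul_add, smul_smul, smul_smul, mul_sub, mul_one,
    mul_div_cancel₀ _ hpos.ne']
  module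

theorem sta_secGood_two (hf : LocConic f Ω) (hinj : InjOn f Ω) {x : E3} (hx : x ∈ Ω)
    (h : rk f x = 2) : ∃ c > 0, SecGood c f x := by
  obtain ⟨hh, R, hR, hb, hc⟩ := hf.germ_spec hx
  have hi := germ_injective hf hinj hx
  set g := germ f x with hg
  set L := lin g with hL
  have hL2 : Module.finrank ℝ L = 2 := h
  have hperp : Module.finrank ℝ Lᗮ = 1 := by
    have h1 := Submodule.finrank_add_finrank_orthogonal L
    have h2 : Module.finrank ℝ E3 = 3 := by simp [E3]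
    omega
  obtain ⟨⟨m, hm⟩, hm0, hspan⟩ := finrank_eq_one_iff'.1 hperp
  have hm0' : m ≠ 0 := fun h0 => hm0 (by ext1; simpa using h0)
  have hmn : 0 < ‖m‖ := norm_pos_iff.2 hm0'
  set n : E3 := ‖m‖⁻¹ • m with hn
  have hn1 : ‖n‖ = 1 := by rw [hn, norm_smul, norm_inv, norm_norm, inv_mul_cancel₀ hmn.ne']
  have hnL : n ∈ Lᗮ := Submodule.smul_mem _ _ hm
  have hnn : inner ℝ n n = (1 : ℝ) := by rw [real_inner_self_eq_norm_sq, hn1, one_pow]
  let ψ : E3 →L[ℝ] ℝ := innerSL ℝ n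
  have hψ : ∀ v, ψ v = inner ℝ n v := fun v => rfl
  have hψn : ψ n = 1 := by rw [hψ, hnn]
  have hψL : ∀ l ∈ L, ψ l = 0 := fun l hl => by
    rw [hψ, real_inner_comm]
    exact (Submodule.mem_orthogonal L n).1 hnL l hl
  have hproj : ∀ v, v - ψ v • n ∈ L := by
    intro v
    rw [← Submodule.orthogonal_orthogonal L, Submodule.mem_orthogonal]
    intro u hu
    obtain ⟨c, hc'⟩ := hspan ⟨u, hu⟩
    have hu' : u = (c * ‖m‖) • n := by
      have h3 : c • m = u := congrArg Subtype.val hc'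
      rw [← h3, hn, smul_smul, mul_assoc, mul_inv_cancel₀ hmn.ne', mul_one]
    rw [hu', inner_smul_left, inner_sub_right, inner_smul_right, hnn, hψ]
    simp
  have hadd : ∀ l ∈ L, ∀ v, g (v + l) = g v + g l := fun l hl v => hh.mem_lin.1 hl v
  -- the linear part along `L`
  let B₀ : E3 →ₗ[ℝ] E3 :=
    { toFun := fun v => g (v - ψ v • n)
      map_add' := fun v w => by
        have e : v + w - ψ (v + w) • n = (v - ψ v • n) + (w - ψ w • n) := by
          rw [map_add, add_smul]; abel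
        rw [e, hadd _ (hproj w)]
      map_smul' := fun c v => by
        have e : c • v - ψ (c • v) • n = c • (v - ψ v • n) := by
          rw [map_smul, smul_sub, smul_eq_mul, mul_smul]
        rw [e, sta_smul_lin hh (hproj v), RingHom.id_apply] }
  let B : E3 →L[ℝ] E3 := LinearMap.toContinuousLinearMap B₀
  have hB : ∀ v, B v = g (v - ψ v • n) := fun v => rfl
  let a : E3 := -g (-n)
  let b : E3 := g n
  let T : ℝ → (E3 →L[ℝ] E3) := fun θ => B + ψ.smulRight ((1 - θ) • a + θ • b)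
  have hTv : ∀ θ v, T θ v = g (v - ψ v • n) + ψ v • ((1 - θ) • a + θ • b) := fun θ v => rfl
  have hTc : Continuous T := by
    refine continuous_const.add ?_
    have h1 : Continuous (fun θ : ℝ => (1 - θ) • a + θ • b) := by fun_prop
    exact (ContinuousLinearMap.smulRightL ℝ E3 E3 ψ).continuous.comp h1
  let K : Set (E3 →L[ℝ] E3) := T '' Icc (0 : ℝ) 1
  have hKK : IsCompact K := isCompact_Icc.image hTc
  have hKc : Convex ℝ K := by
    rintro _ ⟨θ₁, h₁, rfl⟩ _ ⟨θ₂, h₂, rfl⟩ p q hp hq hpq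
    refine ⟨p * θ₁ + q * θ₂, ?_, ?_⟩
    · have := (convex_Icc (0 : ℝ) 1) h₁ h₂ hp hq hpq
      simpa using this
    · ext1 v
      rw [hTv]
      change _ = p • T θ₁ v + q • T θ₂ v
      rw [hTv, hTv]
      have hq' : q = 1 - p := by linarith
      subst hq'
      module
  have hKi : ∀ M ∈ K, ∀ v, M v = 0 → v = 0 := by
    rintro _ ⟨θ, hθ, rfl⟩ v hv
    rw [hTv] at hv
    set l := v - ψ v • n with hl
    have hlL : l ∈ L := hproj v
    rcases eq_or_ne (ψ v) 0 with h0 | h0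
    · rw [h0, zero_smul, add_zero] at hv
      have h1 : l = 0 := hi (by rw [hv, grm_zero hh])
      rw [hl, h0, zero_smul, sub_zero] at h1
      exact h1
    · exfalso
      set s := ψ v with hs
      have hl' : s⁻¹ • l ∈ L := Submodule.smul_mem _ _ hlL
      have h1 : g (s⁻¹ • l) + ((1 - θ) • a + θ • b) = 0 := by
        rw [sta_smul_lin hh hlL]
        have h2 : s⁻¹ • (g l + s • ((1 - θ) • a + θ • b)) = 0 := by rw [hv, smul_zero]
        rwa [smul_add, smul_smul, inv_mul_cancel₀ h0, one_smul] at h2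
      have h2 : g (θ • n + s⁻¹ • l) = g ((1 - θ) • (-n)) := by
        rw [hadd _ hl', hh θ hθ.1, hh (1 - θ) (by linarith [hθ.2])]
        have h3 : θ • b + g (s⁻¹ • l) = -((1 - θ) • a) := by
          rw [eq_neg_iff_add_eq_zero, ← h1]
          abel
        change θ • b + g (s⁻¹ • l) = _
        rw [h3]
        simp [a]
      have h3 := hi h2
      have h4 : n = -(s⁻¹ • l) := by
        have h5 : n = (θ • n + s⁻¹ • l) - (1 - θ) • (-n) - s⁻¹ • l := by module
        rw [h3, sub_self, zero_sub] at h5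
        exact h5
      have h5 : n ∈ L := by rw [h4]; exact Submodule.neg_mem _ hl'
      have h6 := hψL n h5
      rw [hψn] at h6
      exact one_ne_zero h6
  obtain ⟨c, hcpos, hgood⟩ := sta_good hKc hKK hKi
  refine ⟨c, hcpos, K, hgood, R, hR, ?_⟩
  intro y hy y' hy'
  rw [mem_ball, dist_eq_norm] at hy hy'
  have e1 := hc _ hy
  have e2 := hc _ hy'
  have e3 : x + (y - x) = y := by abel
  have e4 : x + (y' - x) = y' := by abel
  rw [e3] at e1
  rw [e4] at e2
  have hdec : ∀ v, g v = g (ψ v • n) + g (v - ψ v • n) := by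
    intro v
    rw [← hadd _ (hproj v)]
    congr 1
    abel
  have hφ1 : ∀ s : ℝ, 0 ≤ s → g (s • n) = s • b := fun s hs => hh s hs n
  have hφ2 : ∀ s : ℝ, s ≤ 0 → g (s • n) = s • a := by
    intro s hs
    have e : s • n = (-s) • (-n) := by simp
    rw [e, hh (-s) (by linarith)]
    simp [a]
  obtain ⟨t, ht, hts⟩ := sta_frac a b (fun s => g (s • n)) hφ1 hφ2 (ψ (y - x)) (ψ (y' - x))
  refine ⟨T t, ⟨t, ht, rfl⟩, ?_⟩
  have hyy : y - y' = (y - x) - (y' - x) := by abel
  have hψd : ψ (y - y') = ψ (y - x) - ψ (y' - x) := by rw [hyy, map_sub]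
  have hlin : g (y - y' - ψ (y - y') • n) =
      g ((y - x) - ψ (y - x) • n) - g ((y' - x) - ψ (y' - x) • n) := by
    have h1 := hB (y - y')
    rw [hyy, map_sub, hB, hB, ← hyy] at h1
    exact h1.symm
  rw [hTv, hlin, hψd, e1, e2, hdec (y - x), hdec (y' - x)]
  have hts' : g (ψ (y - x) • n) = g (ψ (y' - x) • n) +
      (ψ (y - x) - ψ (y' - x)) • ((1 - t) • a + t • b) := by
    rw [← hts]
    abel
  rw [hts']
  abel

theorem secGood_of_two_le (hf : LocConic f Ω) (hinj : InjOn f Ω) (_hΩ : IsOpen Ω)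
    (_hc : ContinuousOn f Ω) {x : E3} (hx : x ∈ Ω) (h : 2 ≤ rk f x) : ∃ c > 0, SecGood c f x := by
  have h3 := rk_le_three f x
  rcases (show rk f x = 2 ∨ rk f x = 3 by omega) with h2 | h2
  · exact sta_secGood_two hf hinj hx h2
  · exact sta_secGood_three hf hinj hx h2

end SM
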