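import Pool.Agent.SM.Defs

/-!
# Angular logarithm of a planar conic map (module LGA of project SM)
-/

open Set Metric Filter Topology MeasureTheory

noncomputable section

namespace SM

/-- Continuous logarithm along the line. -/
theorem lga_lift {w : ℝ → ℂ} (hw : Continuous w) (h0 : ∀ θ, w θ ≠ 0) :
    ∃ ν : ℝ → ℂ, Continuous ν ∧ ∀ θ, Complex.exp (ν θ) = w θ := by
  rcases Complex.isCoveringMapOn_exp.existsUnique_continuousMap_lifts
    (⟨w, hw⟩ : C(ℝ, ℂ)) (a₀ := 0) (e₀ := Complex.log (w 0)) (Complex.exp_log (h0 0))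
    (fun x => h0 x) with ⟨f, ⟨-, hf⟩, -⟩
  exact ⟨f, f.continuous, fun θ => congrFun hf θ⟩

/-- A continuous integer valued function on the line is constant. -/
theorem lga_const_int {D : ℝ → ℝ} (hD : Continuous D) (hint : ∀ θ, ∃ m : ℤ, D θ = m) :
    ∃ m : ℤ, ∀ θ, D θ = m := by
  obtain ⟨m, hm⟩ := hint 0
  refine ⟨m, fun θ => ?_⟩
  by_contra hne
  obtain ⟨k, hk⟩ := hint θ
  have hkm : k ≠ m := by
    rintro rfl
    exact hne hk
  have hpre : IsPreconnected (range D) := isPreconnected_range hD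
  have hord : OrdConnected (range D) := hpre.ordConnected
  rcases lt_or_gt_of_ne hkm with h | h
  · have h1 : ((k : ℝ) + 1 / 2) ∈ range D := by
      apply hord.out (mem_range_self θ) (mem_range_self 0)
      constructor
      · rw [hk]; linarith
      · rw [hm]
        have : (k : ℝ) + 1 ≤ m := by exact_mod_cast h
        linarith
    obtain ⟨s, hs⟩ := h1
    obtain ⟨l, hl⟩ := hint s
    rw [hs] at hl
    have h2 : (2 * k + 1 : ℤ) = 2 * l := by
      have : (2 * (k : ℝ) + 1) = 2 * l := by linarith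
      exact_mod_cast this
    omega
  · have h1 : ((m : ℝ) + 1 / 2) ∈ range D := by
      apply hord.out (mem_range_self 0) (mem_range_self θ)
      constructor
      · rw [hm]; linarith
      · rw [hk]
        have : (m : ℝ) + 1 ≤ k := by exact_mod_cast h
        linarith
    obtain ⟨s, hs⟩ := h1
    obtain ⟨l, hl⟩ := hint s
    rw [hs] at hl
    have h2 : (2 * m + 1 : ℤ) = 2 * l := by
      have : (2 * (m : ℝ) + 1) = 2 * l := by linarith
      exact_mod_cast this
    omega

/-- The winding number of an angularly injective loop is `1` or `-1`. -/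
theorem lga_winding {w ν : ℝ → ℂ} (hν : Continuous ν) (he : ∀ θ, Complex.exp (ν θ) = w θ)
    (hper : ∀ θ, w (θ + 2 * Real.pi) = w θ)
    (hinj : ∀ θ θ' r : ℝ, 0 < r → w θ = r * w θ' → ∃ k : ℤ, θ = θ' + k * (2 * Real.pi)) :
    ((∀ θ, ν (θ + 2 * Real.pi) = ν θ + 2 * Real.pi * Complex.I) ∧
        StrictMono (fun θ => (ν θ).im)) ∨
      ((∀ θ, ν (θ + 2 * Real.pi) = ν θ - 2 * Real.pi * Complex.I) ∧
        StrictAnti (fun θ => (ν θ).im)) := by
  have hpi := Real.pi_pos
  have hmul : ∀ θ, ∃ m : ℤ, ν (θ + 2 * Real.pi) = ν θ + m * (2 * Real.pi * Complex.I) := by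
    intro θ
    have h1 : Complex.exp (ν (θ + 2 * Real.pi)) = Complex.exp (ν θ) := by
      rw [he, he, hper]
    rwa [Complex.exp_eq_exp_iff_exists_int] at h1
  have hcD : Continuous (fun θ => ((ν (θ + 2 * Real.pi)).im - (ν θ).im) / (2 * Real.pi)) := by
    fun_prop
  obtain ⟨m, hm⟩ := lga_const_int hcD (by
    intro θ
    obtain ⟨m, hm⟩ := hmul θ
    refine ⟨m, ?_⟩
    rw [hm]
    have : (ν θ + m * (2 * Real.pi * Complex.I)).im = (ν θ).im + m * (2 * Real.pi) := by
      simp
    rw [this]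
    field_simp
    ring)
  have hm' : ∀ θ, ν (θ + 2 * Real.pi) = ν θ + m * (2 * Real.pi * Complex.I) := by
    intro θ
    obtain ⟨k, hk⟩ := hmul θ
    have h1 := hm θ
    rw [hk] at h1
    have h2 : (ν θ + k * (2 * Real.pi * Complex.I)).im = (ν θ).im + k * (2 * Real.pi) := by
      simp
    rw [h2] at h1
    have h3 : (k : ℝ) = m := by
      rw [← h1]
      field_simp
      ring
    have h4 : k = m := by exact_mod_cast h3
    rw [hk, h4]
  -- the angle
  have hα : ∀ θ, (ν (θ + 2 * Real.pi)).im = (ν θ).im + m * (2 * Real.pi) := by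
    intro θ
    rw [hm' θ]
    simp
  have hcα : Continuous (fun θ => (ν θ).im) := by fun_prop
  have hkey : ∀ θ θ' : ℝ, ∀ l : ℤ, (ν θ).im = (ν θ').im + l * (2 * Real.pi) →
      ∃ k : ℤ, θ = θ' + k * (2 * Real.pi) := by
    intro θ θ' l h
    apply hinj θ θ' (Real.exp ((ν θ).re - (ν θ').re)) (Real.exp_pos _)
    rw [← he, ← he, Complex.ofReal_exp, ← Complex.exp_add, Complex.exp_eq_exp_iff_exists_int]
    refine ⟨l, ?_⟩
    apply Complex.ext
    · simp
    · simp [h]
  -- m is not zero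
  have hm0 : m ≠ 0 := by
    rintro rfl
    have e0 : (ν (2 * Real.pi)).im = (ν 0).im := by
      have := hα 0
      simpa using this
    -- intermediate value on [0, π] and [π, 2π]
    have i1 : uIcc ((ν 0).im) ((ν Real.pi).im) ⊆ (fun θ => (ν θ).im) '' uIcc 0 Real.pi :=
      intermediate_value_uIcc hcα.continuousOn
    have i2 : uIcc ((ν Real.pi).im) ((ν (2 * Real.pi)).im) ⊆
        (fun θ => (ν θ).im) '' uIcc Real.pi (2 * Real.pi) :=
      intermediate_value_uIcc hcα.continuousOn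
    have m1 : ((ν 0).im + (ν Real.pi).im) / 2 ∈ uIcc ((ν 0).im) ((ν Real.pi).im) := by
      rw [mem_uIcc]
      rcases le_total (ν 0).im (ν Real.pi).im with h | h
      · left; constructor <;> linarith
      · right; constructor <;> linarith
    have m2 : ((ν 0).im + (ν Real.pi).im) / 2 ∈
        uIcc ((ν Real.pi).im) ((ν (2 * Real.pi)).im) := by
      rw [e0, uIcc_comm]
      exact m1
    obtain ⟨a, ha, ha'⟩ := i1 m1
    obtain ⟨b, hb, hb'⟩ := i2 m2
    simp only at ha' hb'
    rw [uIcc_of_le hpi.le] at ha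
    rw [uIcc_of_le (by linarith)] at hb
    have hne : (ν Real.pi).im ≠ (ν 0).im := by
      intro h
      obtain ⟨k, hk⟩ := hkey Real.pi 0 0 (by simpa using h)
      have h1 : (1 : ℝ) = k * 2 := by
        have : Real.pi * 1 = Real.pi * (k * 2) := by linarith
        exact mul_left_cancel₀ hpi.ne' this
      have h2 : (1 : ℤ) = k * 2 := by exact_mod_cast h1
      omega
    have hapi : a ≠ Real.pi := by
      rintro rfl
      apply hne
      linarith
    have hbpi : b ≠ Real.pi := by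
      rintro rfl
      apply hne
      linarith
    have ha0 : a ≠ 0 := by
      rintro rfl
      apply hne
      linarith
    have a1 : 0 < a := lt_of_le_of_ne ha.1 (Ne.symm ha0)
    have a2 : a < Real.pi := lt_of_le_of_ne ha.2 hapi
    have b1 : Real.pi < b := lt_of_le_of_ne hb.1 (Ne.symm hbpi)
    obtain ⟨k, hk⟩ := hkey b a 0 (by rw [hb', ha']; simp)
    have h1 : 0 < (k : ℝ) * (2 * Real.pi) := by linarith
    have h2 : (k : ℝ) * (2 * Real.pi) < 1 * (2 * Real.pi) := by linarith [hb.2]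
    have h3 : (0 : ℝ) < k := by
      by_contra hcon
      push Not at hcon
      have : (k : ℝ) * (2 * Real.pi) ≤ 0 := mul_nonpos_of_nonpos_of_nonneg hcon (by linarith)
      linarith
    have h4 : (k : ℝ) < 1 := lt_of_mul_lt_mul_right h2 (by linarith)
    have h5 : (0 : ℤ) < k := by exact_mod_cast h3
    have h6 : k < (1 : ℤ) := by exact_mod_cast h4
    omega
  -- integer translations
  have hnat : ∀ (n : ℕ) θ, (ν (θ + n * (2 * Real.pi))).im = (ν θ).im + n * (m * (2 * Real.pi)) := by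
    intro n
    induction n with
    | zero => intro θ; simp
    | succ n ih =>
      intro θ
      have h1 : θ + ((n + 1 : ℕ) : ℝ) * (2 * Real.pi) = (θ + n * (2 * Real.pi)) + 2 * Real.pi := by
        push_cast; ring
      rw [h1, hα, ih]
      push_cast
      ring
  have hint : ∀ (k : ℤ) θ, (ν (θ + k * (2 * Real.pi))).im = (ν θ).im + k * (m * (2 * Real.pi)) := by
    intro k θ
    rcases le_total 0 k with h | h
    · lift k to ℕ using h
      have := hnat k θ
      simpa using this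
    · obtain ⟨n, hn⟩ : ∃ n : ℕ, k = -n := ⟨k.natAbs, by omega⟩
      have := hnat n (θ + k * (2 * Real.pi))
      rw [hn] at this ⊢
      push_cast at this ⊢
      have h1 : θ + -(n : ℝ) * (2 * Real.pi) + n * (2 * Real.pi) = θ := by ring
      rw [h1] at this
      linarith
  have hinjα : Function.Injective (fun θ => (ν θ).im) := by
    intro θ θ' h
    simp only at h
    obtain ⟨k, hk⟩ := hkey θ θ' 0 (by rw [h]; simp)
    have h1 := hint k θ'
    rw [← hk, h] at h1
    have h2 : (k : ℝ) * (m * (2 * Real.pi)) = 0 := by linarith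
    rcases mul_eq_zero.1 h2 with h3 | h3
    · rw [hk, h3]; simp
    · exfalso
      rcases mul_eq_zero.1 h3 with h4 | h4
      · exact hm0 (by exact_mod_cast h4)
      · linarith
  have hmono := hcα.strictMono_of_inj hinjα
  have hα0 : (ν (2 * Real.pi)).im = (ν 0).im + m * (2 * Real.pi) := by
    have := hα 0
    simpa using this
  have hexc : ∀ θ, 0 < θ → θ < 2 * Real.pi → ∀ l : ℤ, (ν θ).im ≠ (ν 0).im + l * (2 * Real.pi) := by
    intro θ h1 h2 l h3
    obtain ⟨k, hk⟩ := hkey θ 0 l h3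
    have h4 : 0 < (k : ℝ) * (2 * Real.pi) := by linarith
    have h5 : (k : ℝ) * (2 * Real.pi) < 1 * (2 * Real.pi) := by linarith
    have h6 : (0 : ℝ) < k := by
      by_contra hcon
      push Not at hcon
      have : (k : ℝ) * (2 * Real.pi) ≤ 0 := mul_nonpos_of_nonpos_of_nonneg hcon (by linarith)
      linarith
    have h7 : (k : ℝ) < 1 := lt_of_mul_lt_mul_right h5 (by linarith)
    have h8 : (0 : ℤ) < k := by exact_mod_cast h6
    have h9 : k < (1 : ℤ) := by exact_mod_cast h7
    omega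
  rcases hmono with hs | hs
  · left
    refine ⟨?_, hs⟩
    have h1 : (ν 0).im < (ν (2 * Real.pi)).im := hs (by linarith : (0 : ℝ) < 2 * Real.pi)
    have hmpos : 0 < m := by
      rw [hα0] at h1
      by_contra hcon
      push Not at hcon
      have h2 : (m : ℝ) ≤ 0 := by exact_mod_cast hcon
      have : (m : ℝ) * (2 * Real.pi) ≤ 0 := mul_nonpos_of_nonpos_of_nonneg h2 (by linarith)
      linarith
    have hm1 : m = 1 := by
      by_contra hcon
      have h2 : (2 : ℤ) ≤ m := by omega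
      have h3 : (2 : ℝ) ≤ m := by exact_mod_cast h2
      have h4 : 2 * (2 * Real.pi) ≤ m * (2 * Real.pi) :=
        mul_le_mul_of_nonneg_right h3 (by linarith)
      have h5 : (ν 0).im + 2 * Real.pi ∈ Ioo ((ν 0).im) ((ν (2 * Real.pi)).im) := by
        constructor
        · linarith
        · rw [hα0]; linarith
      obtain ⟨θ, hθ, hθ'⟩ := intermediate_value_Ioo (by linarith : (0 : ℝ) ≤ 2 * Real.pi)
        hcα.continuousOn h5
      simp only at hθ'
      exact hexc θ hθ.1 hθ.2 1 (by rw [hθ']; simp)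
    intro θ
    rw [hm' θ, hm1]
    simp
  · right
    refine ⟨?_, hs⟩
    have h1 : (ν (2 * Real.pi)).im < (ν 0).im := hs (by linarith : (0 : ℝ) < 2 * Real.pi)
    have hmneg : m < 0 := by
      rw [hα0] at h1
      by_contra hcon
      push Not at hcon
      have h2 : (0 : ℝ) ≤ m := by exact_mod_cast hcon
      have : 0 ≤ (m : ℝ) * (2 * Real.pi) := mul_nonneg h2 (by linarith)
      linarith
    have hm1 : m = -1 := by
      by_contra hcon
      have h2 : m ≤ (-2 : ℤ) := by omega
      have h3 : (m : ℝ) ≤ -2 := by exact_mod_cast h2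
      have h4 : m * (2 * Real.pi) ≤ -2 * (2 * Real.pi) :=
        mul_le_mul_of_nonneg_right h3 (by linarith)
      have h5 : (ν 0).im - 2 * Real.pi ∈ Ioo ((ν (2 * Real.pi)).im) ((ν 0).im) := by
        constructor
        · rw [hα0]; linarith
        · linarith
      obtain ⟨θ, hθ, hθ'⟩ := intermediate_value_Ioo' (by linarith : (0 : ℝ) ≤ 2 * Real.pi)
        hcα.continuousOn h5
      simp only at hθ'
      exact hexc θ hθ.1 hθ.2 (-1) (by rw [hθ']; push_cast; ring)
    intro θ
    rw [hm' θ, hm1]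
    push_cast
    ring

/-- Derivative of a continuous logarithm. -/
theorem lga_lift_deriv {w ν : ℝ → ℂ} {t : ℝ} {w' : ℂ} {s : Set ℝ} (hν : Continuous ν)
    (he : ∀ θ, Complex.exp (ν θ) = w θ) (hw : HasDerivWithinAt w w' s t) :
    HasDerivWithinAt ν (w' / w t) s t := by
  have hwt : w t ≠ 0 := by
    rw [← he]
    exact Complex.exp_ne_zero _
  have h1 : HasDerivWithinAt (fun x => w x / w t) (w' / w t) s t := hw.div_const _
  have h2 : HasDerivWithinAt (fun x => Complex.log (w x / w t)) (w' / w t / (w t / w t)) s t :=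
    h1.clog_real (by rw [div_self hwt]; simp)
  have h3 : HasDerivWithinAt (fun x => ν t + Complex.log (w x / w t)) (w' / w t) s t := by
    have := h2.const_add (ν t)
    rwa [div_self hwt, div_one] at this
  have hev : ∀ᶠ x in 𝓝 t, ν x = ν t + Complex.log (w x / w t) := by
    have hpi := Real.pi_pos
    have hb : ∀ᶠ x in 𝓝 t, ν x ∈ ball (ν t) Real.pi :=
      hν.continuousAt.eventually (ball_mem_nhds _ hpi)
    filter_upwards [hb] with x hx
    rw [mem_ball, dist_eq_norm] at hx
    have him : |(ν x - ν t).im| < Real.pi := lt_of_le_of_lt (Complex.abs_im_le_norm _) hx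
    rw [abs_lt] at him
    rw [← he, ← he, ← Complex.exp_sub, Complex.log_exp him.1 him.2.le]
    ring
  exact h3.congr_of_eventuallyEq (hev.filter_mono nhdsWithin_le_nhds) hev.self_of_nhds

/-- The logarithmic derivative of the image of the circle by an injective linear map. -/
theorem lga_lin (A : ℂ →L[ℝ] ℂ) (hA : ∀ v, A v = 0 → v = 0) :
    ∃ C c : ℝ, 0 < c ∧ (∀ u : ℂ, ‖u‖ = 1 → ‖A (Complex.I * u) / A u‖ ≤ C) ∧
      ((∀ u : ℂ, ‖u‖ = 1 → c ≤ (A (Complex.I * u) / A u).im) ∨
        (∀ u : ℂ, ‖u‖ = 1 → (A (Complex.I * u) / A u).im < 0)) := by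
  set d : ℝ := crs (A 1) (A Complex.I) with hd
  have hA1 : A 1 ≠ 0 := fun h => one_ne_zero (hA 1 h)
  have hd0 : d ≠ 0 := by
    intro h0
    have hn : (A 1).re ^ 2 + (A 1).im ^ 2 ≠ 0 := by
      intro h
      apply hA1
      apply Complex.ext
      · simp only [Complex.zero_re]; nlinarith [sq_nonneg (A 1).re, sq_nonneg (A 1).im]
      · simp only [Complex.zero_im]; nlinarith [sq_nonneg (A 1).re, sq_nonneg (A 1).im]
    set r : ℝ := ((A 1).re * (A Complex.I).re + (A 1).im * (A Complex.I).im) /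
      ((A 1).re ^ 2 + (A 1).im ^ 2) with hr
    rw [hd] at h0
    simp only [crs] at h0
    have h2 : A Complex.I = r • A 1 := by
      apply Complex.ext
      · simp only [Complex.real_smul, Complex.mul_re, Complex.ofReal_re, Complex.ofReal_im,
          zero_mul, sub_zero]
        rw [hr, div_mul_eq_mul_div, eq_div_iff hn]
        linear_combination (-(A 1).im) * h0
      · simp only [Complex.real_smul, Complex.mul_im, Complex.ofReal_re, Complex.ofReal_im,
          zero_mul, add_zero]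
        rw [hr, div_mul_eq_mul_div, eq_div_iff hn]
        linear_combination ((A 1).re) * h0
    have h3 : A (Complex.I - r • (1 : ℂ)) = 0 := by
      rw [map_sub, A.map_smul, h2, sub_self]
    have h4 := hA _ h3
    have h5 := congrArg Complex.im h4
    simp at h5
  -- formulas
  have hAu : ∀ u : ℂ, A u = u.re • A 1 + u.im • A Complex.I := by
    intro u
    rw [← A.map_smul, ← A.map_smul, ← map_add]
    congr 1
    apply Complex.ext <;> simp
  have hAiu : ∀ u : ℂ, A (Complex.I * u) = (-u.im) • A 1 + u.re • A Complex.I := by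
    intro u
    rw [hAu]
    simp
  have hcrs : ∀ u : ℂ, ‖u‖ = 1 → crs (A u) (A (Complex.I * u)) = d := by
    intro u hu
    have h1 : u.re ^ 2 + u.im ^ 2 = 1 := by
      have := Complex.sq_norm u
      rw [hu, Complex.normSq_apply] at this
      nlinarith
    rw [hAiu, hAu u, hd]
    simp only [crs, Complex.add_re, Complex.add_im, Complex.real_smul, Complex.mul_re,
      Complex.mul_im, Complex.ofReal_re, Complex.ofReal_im, zero_mul, sub_zero, add_zero]
    linear_combination ((A 1).re * (A Complex.I).im - (A 1).im * (A Complex.I).re) * h1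
  have hne : ∀ u : ℂ, ‖u‖ = 1 → A u ≠ 0 := by
    intro u hu h
    have := hA u h
    rw [this] at hu
    simp at hu
  have him : ∀ u : ℂ, ‖u‖ = 1 → (A (Complex.I * u) / A u).im = d / ‖A u‖ ^ 2 := by
    intro u hu
    have h1 := hcrs u hu
    rw [Complex.div_im, Complex.sq_norm, ← h1]
    simp only [crs]
    ring
  have hle : ∀ u : ℂ, ‖u‖ = 1 → ‖A u‖ ≤ ‖A‖ := by
    intro u hu
    have := A.le_opNorm u
    rwa [hu, mul_one] at this
  -- lower bound of the norm by the determinant
  have hApos : 0 < ‖A‖ := by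
    have h1 := hle 1 (by simp)
    exact lt_of_lt_of_le (norm_pos_iff.2 hA1) h1
  have hlow : ∀ u : ℂ, ‖u‖ = 1 → |d| / ‖A‖ ≤ ‖A u‖ := by
    intro u hu
    rw [div_le_iff₀ hApos]
    have h1 := hcrs u hu
    have h2 : |crs (A u) (A (Complex.I * u))| ≤ ‖A u‖ * ‖A (Complex.I * u)‖ := by
      have h3 : crs (A u) (A (Complex.I * u)) =
          ((starRingEnd ℂ) (A u) * A (Complex.I * u)).im := by
        simp [crs, Complex.mul_im]
        ring
      rw [h3]
      refine (Complex.abs_im_le_norm _).trans ?_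
      rw [norm_mul, Complex.norm_conj]
    rw [h1] at h2
    refine h2.trans (mul_le_mul_of_nonneg_left ?_ (norm_nonneg _))
    apply hle
    simp [hu]
  have hdabs : 0 < |d| := abs_pos.2 hd0
  refine ⟨‖A‖ / (|d| / ‖A‖), |d| / ‖A‖ ^ 2, by positivity, ?_, ?_⟩
  · intro u hu
    rw [norm_div]
    apply div_le_div₀ hApos.le (hle _ (by simp [hu])) (by positivity) (hlow u hu)
  · rcases lt_or_gt_of_ne hd0 with h | h
    · right
      intro u hu
      rw [him u hu]
      apply div_neg_of_neg_of_pos h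
      have := norm_pos_iff.2 (hne u hu)
      positivity
    · left
      intro u hu
      rw [him u hu, abs_of_pos h]
      have h1 := norm_pos_iff.2 (hne u hu)
      apply div_le_div_of_nonneg_left h.le (by positivity)
      exact pow_le_pow_left₀ h1.le (hle u hu) 2

/-- Derivative of the image of the circle. -/
theorem lga_circle_deriv (A : ℂ →L[ℝ] ℂ) (t : ℝ) :
    HasDerivAt (fun s : ℝ => A (Complex.exp (s * Complex.I)))
      (A (Complex.I * Complex.exp (t * Complex.I))) t := by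
  have h1 : HasDerivAt (fun s : ℝ => Complex.exp (s * Complex.I))
      (Complex.I * Complex.exp (t * Complex.I)) t := by
    have h2 : HasDerivAt (fun s : ℝ => (s : ℂ) * Complex.I) (1 * Complex.I) t :=
      (Complex.ofRealCLM.hasDerivAt (x := t)).mul_const Complex.I
    have h3 := h2.cexp
    convert h3 using 1
    ring
  exact A.hasFDerivAt.comp_hasDerivAt t h1

/-- Local bounds of the right derivative. -/
theorem lga_local {H : ℂ → ℂ} {ν : ℝ → ℂ} (hν : Continuous ν)
    (he : ∀ θ : ℝ, Complex.exp (ν θ) = H (Complex.exp (θ * Complex.I)))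
    (hmono : StrictMono (fun θ => (ν θ).im))
    (hlin : ∀ y : ℂ, y ≠ 0 → ∃ R > 0, ∃ A₁ A₂ : ℂ →L[ℝ] ℂ, (∀ v, A₁ v = 0 → v = 0) ∧
      (∀ v, A₂ v = 0 → v = 0) ∧ ∀ y' ∈ ball y R, (0 ≤ crs y y' → H y' = A₁ y') ∧
        (crs y y' ≤ 0 → H y' = A₂ y')) (θ₀ : ℝ) :
    ∃ δ > 0, ∃ C c : ℝ, 0 < c ∧ ∀ t ∈ ball θ₀ δ, ∃ g : ℂ,
      HasDerivWithinAt ν g (Ici t) t ∧ ‖g‖ ≤ C ∧ c ≤ g.im := by
  obtain ⟨R, hR, A₁, A₂, hA₁, hA₂, hloc⟩ := hlin (Complex.exp (θ₀ * Complex.I))
    (Complex.exp_ne_zero _)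
  have hcont : Continuous (fun s : ℝ => Complex.exp (s * Complex.I)) := by fun_prop
  obtain ⟨δ, hδ, hδR⟩ : ∃ δ > 0, ∀ t ∈ ball θ₀ δ,
      Complex.exp (t * Complex.I) ∈ ball (Complex.exp (θ₀ * Complex.I)) R := by
    have h0 : ContinuousAt (fun s : ℝ => Complex.exp (s * Complex.I)) θ₀ := hcont.continuousAt
    obtain ⟨δ, hδ, h⟩ := Metric.continuousAt_iff.1 h0 R hR
    exact ⟨δ, hδ, fun t ht => h ht⟩
  have hcrs : ∀ s : ℝ, crs (Complex.exp (θ₀ * Complex.I)) (Complex.exp (s * Complex.I)) =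
      Real.sin (s - θ₀) := by
    intro s
    simp only [crs, Complex.exp_ofReal_mul_I_re, Complex.exp_ofReal_mul_I_im]
    rw [Real.sin_sub]
    ring
  have hnorm : ∀ s : ℝ, ‖Complex.exp (s * Complex.I)‖ = 1 := fun s =>
    Complex.norm_exp_ofReal_mul_I s
  -- general statement for one linear map
  have hgen : ∀ (A : ℂ →L[ℝ] ℂ), (∀ v, A v = 0 → v = 0) → ∀ t : ℝ,
      (∀ᶠ s : ℝ in 𝓝[Ici t] t, H (Complex.exp (s * Complex.I)) =
        A (Complex.exp (s * Complex.I))) →
      H (Complex.exp (t * Complex.I)) = A (Complex.exp (t * Complex.I)) →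
      HasDerivWithinAt ν (A (Complex.I * Complex.exp (t * Complex.I)) /
        A (Complex.exp (t * Complex.I))) (Ici t) t := by
    intro A hA t hev ht
    have h1 : HasDerivWithinAt (fun s : ℝ => H (Complex.exp (s * Complex.I)))
        (A (Complex.I * Complex.exp (t * Complex.I))) (Ici t) t :=
      (lga_circle_deriv A t).hasDerivWithinAt.congr_of_eventuallyEq hev ht
    have h2 := lga_lift_deriv hν he h1
    rwa [ht] at h2
  -- the imaginary part of a right derivative is nonnegative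
  have hnonneg : ∀ (t : ℝ) (g : ℂ), HasDerivWithinAt ν g (Ici t) t → 0 ≤ g.im := by
    intro t g hg
    have h1 : HasDerivWithinAt (fun s => (ν s).im) g.im (Ici t) t :=
      (Complex.imCLM.hasFDerivAt (x := ν t)).comp_hasDerivWithinAt t hg
    have h2 : HasDerivWithinAt (fun s => (ν s).im) g.im (Ioi t) t :=
      h1.mono Ioi_subset_Ici_self
    rw [hasDerivWithinAt_iff_tendsto_slope' (by simp)] at h2
    have hbot : (𝓝[Ioi t] t).NeBot := inferInstance
    apply ge_of_tendsto h2
    filter_upwards [self_mem_nhdsWithin] with s hs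
    rw [slope_def_field]
    have h3 : (ν t).im < (ν s).im := hmono hs
    have h4 : t < s := hs
    apply div_nonneg <;> linarith
  obtain ⟨C₁, c₁, hc₁, hC₁, hd₁⟩ := lga_lin A₁ hA₁
  obtain ⟨C₂, c₂, hc₂, hC₂, hd₂⟩ := lga_lin A₂ hA₂
  have hpi := Real.pi_pos
  refine ⟨min δ Real.pi, lt_min hδ hpi, max C₁ C₂, min c₁ c₂, lt_min hc₁ hc₂, ?_⟩
  intro t ht
  rw [mem_ball, Real.dist_eq] at ht
  have ht1 : |t - θ₀| < δ := lt_of_lt_of_le ht (min_le_left _ _)
  have ht2 : |t - θ₀| < Real.pi := lt_of_lt_of_le ht (min_le_right _ _)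
  have hnear : ∀ᶠ s in 𝓝[Ici t] t, |s - θ₀| < δ ∧ |s - θ₀| < Real.pi := by
    apply Filter.Eventually.filter_mono nhdsWithin_le_nhds
    have hc : Continuous (fun s : ℝ => |s - θ₀|) := by fun_prop
    exact (hc.continuousAt.eventually_lt continuousAt_const ht1).and
      (hc.continuousAt.eventually_lt continuousAt_const ht2)
  rcases le_or_gt θ₀ t with hle | hlt
  · have hval : ∀ s : ℝ, θ₀ ≤ s → |s - θ₀| < δ → |s - θ₀| < Real.pi →
        H (Complex.exp (s * Complex.I)) = A₁ (Complex.exp (s * Complex.I)) := by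
      intro s h1 h2 h3
      apply (hloc _ (hδR s (by rw [mem_ball, Real.dist_eq]; exact h2))).1
      rw [hcrs]
      rw [abs_lt] at h3
      exact Real.sin_nonneg_of_nonneg_of_le_pi (by linarith) h3.2.le
    have hder := hgen A₁ hA₁ t (by
      filter_upwards [hnear, self_mem_nhdsWithin] with s hs hs'
      exact hval s (hle.trans hs') hs.1 hs.2) (hval t hle ht1 ht2)
    refine ⟨_, hder, (hC₁ _ (hnorm t)).trans (le_max_left _ _), ?_⟩
    rcases hd₁ with h | h
    · exact (min_le_left _ _).trans (h _ (hnorm t))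
    · exact absurd (h _ (hnorm t)) (not_lt.2 (hnonneg _ _ hder))
  · have hval : ∀ s : ℝ, s ≤ θ₀ → |s - θ₀| < δ → |s - θ₀| < Real.pi →
        H (Complex.exp (s * Complex.I)) = A₂ (Complex.exp (s * Complex.I)) := by
      intro s h1 h2 h3
      apply (hloc _ (hδR s (by rw [mem_ball, Real.dist_eq]; exact h2))).2
      rw [hcrs]
      rw [abs_lt] at h3
      exact Real.sin_nonpos_of_nonpos_of_neg_pi_le (by linarith) h3.1.le
    have hlt' : ∀ᶠ s in 𝓝[Ici t] t, s < θ₀ :=
      (eventually_lt_nhds hlt).filter_mono nhdsWithin_le_nhds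
    have hder := hgen A₂ hA₂ t (by
      filter_upwards [hnear, hlt'] with s hs hs'
      exact hval s hs'.le hs.1 hs.2) (hval t hlt.le ht1 ht2)
    refine ⟨_, hder, (hC₂ _ (hnorm t)).trans (le_max_right _ _), ?_⟩
    rcases hd₂ with h | h
    · exact (min_le_right _ _).trans (h _ (hnorm t))
    · exact absurd (h _ (hnorm t)) (not_lt.2 (hnonneg _ _ hder))

/-- The core statement, for an increasing angle. -/
theorem lga_core {H : ℂ → ℂ} {ν : ℝ → ℂ} (hh : PosHom H) (hν : Continuous ν)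
    (he : ∀ θ : ℝ, Complex.exp (ν θ) = H (Complex.exp (θ * Complex.I)))
    (hmono : StrictMono (fun θ => (ν θ).im))
    (hper : ∀ θ, ν (θ + 2 * Real.pi) = ν θ + 2 * Real.pi * Complex.I)
    (hlin : ∀ y : ℂ, y ≠ 0 → ∃ R > 0, ∃ A₁ A₂ : ℂ →L[ℝ] ℂ, (∀ v, A₁ v = 0 → v = 0) ∧
      (∀ v, A₂ v = 0 → v = 0) ∧ ∀ y' ∈ ball y R, (0 ≤ crs y y' → H y' = A₁ y') ∧
        (crs y y' ≤ 0 → H y' = A₂ y')) :
    ∃ (μ : ℝ → ℂ) (C c : ℝ) (c₀ : ℂ), 0 < c ∧ c ≤ 1 ∧ c₀ ≠ 0 ∧
      (∀ θ, μ (θ + 2 * Real.pi) = μ θ) ∧ (∀ θ θ', ‖μ θ - μ θ'‖ ≤ C * |θ - θ'|) ∧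
      (∀ θ θ', θ' ≤ θ → -(1 - c) * (θ - θ') ≤ (μ θ).im - (μ θ').im) ∧
      (∀ z, H z = c₀ * logMap μ 0 z) := by
  have hpi := Real.pi_pos
  -- uniform bounds on a period
  have hunif : ∃ C c : ℝ, 0 < c ∧ ∀ t ∈ Icc (0 : ℝ) (2 * Real.pi), ∃ g : ℂ,
      HasDerivWithinAt ν g (Ici t) t ∧ ‖g‖ ≤ C ∧ c ≤ g.im := by
    have hK : IsCompact (Icc (0 : ℝ) (2 * Real.pi)) := isCompact_Icc
    apply hK.induction_on (p := fun s => ∃ C c : ℝ, 0 < c ∧ ∀ t ∈ s, ∃ g : ℂ,
      HasDerivWithinAt ν g (Ici t) t ∧ ‖g‖ ≤ C ∧ c ≤ g.im)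
    · exact ⟨0, 1, one_pos, fun t ht => absurd ht (notMem_empty t)⟩
    · rintro s s' hss ⟨C, c, hc, h⟩
      exact ⟨C, c, hc, fun t ht => h t (hss ht)⟩
    · rintro s s' ⟨C, c, hc, h⟩ ⟨C', c', hc', h'⟩
      refine ⟨max C C', min c c', lt_min hc hc', ?_⟩
      rintro t (ht | ht)
      · obtain ⟨g, hg, h1, h2⟩ := h t ht
        exact ⟨g, hg, h1.trans (le_max_left _ _), (min_le_left _ _).trans h2⟩
      · obtain ⟨g, hg, h1, h2⟩ := h' t ht
        exact ⟨g, hg, h1.trans (le_max_right _ _), (min_le_right _ _).trans h2⟩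
    · intro x _
      obtain ⟨δ, hδ, C, c, hc, h⟩ := lga_local hν he hmono hlin x
      exact ⟨ball x δ, mem_nhdsWithin_of_mem_nhds (ball_mem_nhds x hδ), C, c, hc, h⟩
  obtain ⟨C, c, hc, hunif⟩ := hunif
  -- periodicity by integer multiples
  have hnat : ∀ (n : ℕ) θ, ν (θ + n * (2 * Real.pi)) = ν θ + n * (2 * Real.pi * Complex.I) := by
    intro n
    induction n with
    | zero => intro θ; simp
    | succ n ih =>
      intro θ
      have h1 : θ + ((n + 1 : ℕ) : ℝ) * (2 * Real.pi) = (θ + n * (2 * Real.pi)) + 2 * Real.pi := by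
        push_cast; ring
      rw [h1, hper, ih]
      push_cast
      ring
  have hint : ∀ (k : ℤ) θ, ν (θ + k * (2 * Real.pi)) = ν θ + k * (2 * Real.pi * Complex.I) := by
    intro k θ
    rcases le_total 0 k with h | h
    · lift k to ℕ using h
      have := hnat k θ
      simpa using this
    · obtain ⟨n, hn⟩ : ∃ n : ℕ, k = -n := ⟨k.natAbs, by omega⟩
      have := hnat n (θ + k * (2 * Real.pi))
      rw [hn] at this ⊢
      push_cast at this ⊢
      have h1 : θ + -(n : ℝ) * (2 * Real.pi) + n * (2 * Real.pi) = θ := by ring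
      rw [h1] at this
      rw [this]
      ring
  have hall : ∀ t : ℝ, ∃ g : ℂ, HasDerivWithinAt ν g (Ici t) t ∧ ‖g‖ ≤ C ∧ c ≤ g.im := by
    intro t
    set k : ℤ := ⌊t / (2 * Real.pi)⌋ with hk
    have h1 : (k : ℝ) ≤ t / (2 * Real.pi) := Int.floor_le _
    have h2 : t / (2 * Real.pi) < k + 1 := Int.lt_floor_add_one _
    rw [le_div_iff₀ (by positivity)] at h1
    rw [div_lt_iff₀ (by positivity)] at h2
    obtain ⟨g, hg, hg1, hg2⟩ := hunif (t - k * (2 * Real.pi))
      ⟨by linarith, by linarith⟩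
    refine ⟨g, ?_, hg1, hg2⟩
    have h3 : HasDerivWithinAt (fun s : ℝ => s - k * (2 * Real.pi)) 1 (Ici t) t :=
      ((hasDerivAt_id t).sub_const _).hasDerivWithinAt
    have h4 : HasDerivWithinAt (fun s : ℝ => ν (s - k * (2 * Real.pi))) ((1 : ℝ) • g) (Ici t) t :=
      HasDerivWithinAt.scomp t hg h3 (by
        intro s hs
        simp only [mem_Ici] at hs ⊢
        linarith)
    have h5 : HasDerivWithinAt (fun s : ℝ => ν (s - k * (2 * Real.pi)) +
        k * (2 * Real.pi * Complex.I)) g (Ici t) t := by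
      rw [one_smul] at h4
      exact h4.add_const _
    have h6 : (fun s : ℝ => ν (s - k * (2 * Real.pi)) + k * (2 * Real.pi * Complex.I)) = ν := by
      funext s
      rw [← hint k]
      congr 1
      ring
    rwa [h6] at h5
  choose g hg hg1 hg2 using hall
  -- Lipschitz bound
  have hlipν : ∀ θ θ', θ' ≤ θ → ‖ν θ - ν θ'‖ ≤ C * (θ - θ') := by
    intro θ θ' h
    exact norm_image_sub_le_of_norm_deriv_right_le_segment (f' := g) hν.continuousOn
      (fun x _ => hg x) (fun x _ => hg1 x) θ ⟨h, le_rfl⟩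
  have hlowν : ∀ θ θ', θ' ≤ θ → c * (θ - θ') ≤ (ν θ).im - (ν θ').im := by
    intro θ θ' h
    have hcα : Continuous (fun θ => (ν θ).im) := by fun_prop
    have := image_le_of_deriv_right_le_deriv_boundary (f := fun x => (ν θ').im + c * (x - θ'))
      (f' := fun _ => c) (a := θ') (b := θ) (B := fun x => (ν x).im) (B' := fun x => (g x).im)
      (by fun_prop)
      (by
        intro x _
        have h1 : HasDerivAt (fun x => (ν θ').im + c * (x - θ')) (c * 1) x :=
          (((hasDerivAt_id x).sub_const θ').const_mul c).const_add _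
        rw [mul_one] at h1
        exact h1.hasDerivWithinAt)
      (by simp) hcα.continuousOn
      (by
        intro x _
        exact (Complex.imCLM.hasFDerivAt (x := ν x)).comp_hasDerivWithinAt x (hg x))
      (fun x _ => hg2 x) (x := θ) ⟨h, le_rfl⟩
    linarith
  have hC0 : 0 ≤ C := (norm_nonneg (g 0)).trans (hg1 0)
  refine ⟨fun θ => ν θ - ν 0 - θ * Complex.I, C + 1, min c 1, Complex.exp (ν 0),
    lt_min hc one_pos, min_le_right _ _, Complex.exp_ne_zero _, ?_, ?_, ?_, ?_⟩
  · intro θ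
    simp only
    rw [hper]
    push_cast
    ring
  · have hmain : ∀ θ θ' : ℝ, θ' ≤ θ →
        ‖(ν θ - ν 0 - θ * Complex.I) - (ν θ' - ν 0 - θ' * Complex.I)‖ ≤ (C + 1) * |θ - θ'| := by
      intro θ θ' h
      have h1 : (ν θ - ν 0 - θ * Complex.I) - (ν θ' - ν 0 - θ' * Complex.I) =
          (ν θ - ν θ') - ((θ - θ' : ℝ) : ℂ) * Complex.I := by
        push_cast; ring
      rw [h1, abs_of_nonneg (by linarith)]
      refine (norm_sub_le _ _).trans ?_
      have h2 : ‖((θ - θ' : ℝ) : ℂ) * Complex.I‖ = θ - θ' := by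
        rw [norm_mul, Complex.norm_I, mul_one, Complex.norm_real, Real.norm_eq_abs,
          abs_of_nonneg (by linarith)]
      rw [h2]
      have := hlipν θ θ' h
      linarith
    intro θ θ'
    simp only
    rcases le_total θ' θ with h | h
    · exact hmain θ θ' h
    · rw [norm_sub_rev, abs_sub_comm]
      exact hmain θ' θ h
  · intro θ θ' h
    have h1 := hlowν θ θ' h
    have h2 : min c 1 * (θ - θ') ≤ c * (θ - θ') :=
      mul_le_mul_of_nonneg_right (min_le_left _ _) (by linarith)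
    simp only [Complex.sub_im, Complex.mul_im, Complex.ofReal_re, Complex.I_im, mul_one,
      Complex.ofReal_im, Complex.I_re, mul_zero, add_zero]
    nlinarith
  · intro z
    have h1 : H z = (‖z‖ : ℝ) • H (Complex.exp (Complex.arg z * Complex.I)) := by
      rw [← hh _ (norm_nonneg z), Complex.real_smul, Complex.norm_mul_exp_arg_mul_I]
    rw [h1, ← he, Complex.real_smul]
    unfold logMap
    have h2 : ((1 - max 0 (min 1 0) : ℝ) : ℂ) = 1 := by norm_num
    rw [h2, one_mul]
    have hz : z = ‖z‖ * Complex.exp (z.arg * Complex.I) := (Complex.norm_mul_exp_arg_mul_I z).symm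
    have h3 : Complex.exp (ν z.arg) = Complex.exp (ν 0) *
        (Complex.exp (z.arg * Complex.I) * Complex.exp (ν z.arg - ν 0 - z.arg * Complex.I)) := by
      rw [← Complex.exp_add, ← Complex.exp_add]
      congr 1
      ring
    calc (‖z‖ : ℂ) * Complex.exp (ν z.arg) = Complex.exp (ν 0) *
        ((‖z‖ * Complex.exp (z.arg * Complex.I)) *
          Complex.exp (ν z.arg - ν 0 - z.arg * Complex.I)) := by
          rw [h3]
          ring
      _ = _ := by rw [← hz]

theorem exists_angular_log {H : ℂ → ℂ} (hh : PosHom H) (hc : Continuous H)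
    (hinj : Function.Injective H)
    (hlin : ∀ y : ℂ, y ≠ 0 → ∃ R > 0, ∃ A₁ A₂ : ℂ →L[ℝ] ℂ, (∀ v, A₁ v = 0 → v = 0) ∧
      (∀ v, A₂ v = 0 → v = 0) ∧ ∀ y' ∈ ball y R, (0 ≤ crs y y' → H y' = A₁ y') ∧
        (crs y y' ≤ 0 → H y' = A₂ y')) :
    ∃ (μ : ℝ → ℂ) (C c : ℝ) (c₀ : ℂ), 0 < c ∧ c ≤ 1 ∧ c₀ ≠ 0 ∧
      (∀ θ, μ (θ + 2 * Real.pi) = μ θ) ∧ (∀ θ θ', ‖μ θ - μ θ'‖ ≤ C * |θ - θ'|) ∧
      (∀ θ θ', θ' ≤ θ → -(1 - c) * (θ - θ') ≤ (μ θ).im - (μ θ').im) ∧
      ((∀ z, H z = c₀ * logMap μ 0 z) ∨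
        (∀ z, H ((starRingEnd ℂ) z) = c₀ * logMap μ 0 z)) := by
  have h0 : H 0 = 0 := by
    have := hh 0 le_rfl 0
    simpa using this
  set w : ℝ → ℂ := fun θ => H (Complex.exp (θ * Complex.I)) with hw
  have hcw : Continuous w := by
    rw [hw]
    exact hc.comp (by fun_prop)
  have hw0 : ∀ θ, w θ ≠ 0 := by
    intro θ h
    have h1 : H (Complex.exp (θ * Complex.I)) = H 0 := by rw [h0]; exact h
    exact Complex.exp_ne_zero _ (hinj h1)
  obtain ⟨ν, hν, he⟩ := lga_lift hcw hw0
  have hperw : ∀ θ, w (θ + 2 * Real.pi) = w θ := by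
    intro θ
    simp only [hw]
    congr 1
    rw [Complex.exp_eq_exp_iff_exists_int]
    exact ⟨1, by push_cast; ring⟩
  have hinjw : ∀ θ θ' r : ℝ, 0 < r → w θ = r * w θ' → ∃ k : ℤ, θ = θ' + k * (2 * Real.pi) := by
    intro θ θ' r hr h
    have h' : H (Complex.exp (θ * Complex.I)) = r • H (Complex.exp (θ' * Complex.I)) := by
      rw [Complex.real_smul]
      exact h
    rw [← hh r hr.le] at h'
    have h1 := hinj h'
    have h2 : r = 1 := by
      have := congrArg norm h1
      rw [norm_smul, Complex.norm_exp_ofReal_mul_I, Complex.norm_exp_ofReal_mul_I, mul_one,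
        Real.norm_eq_abs, abs_of_pos hr] at this
      exact this.symm
    rw [h2, one_smul, Complex.exp_eq_exp_iff_exists_int] at h1
    obtain ⟨k, hk⟩ := h1
    refine ⟨k, ?_⟩
    have := congrArg Complex.im hk
    simpa using this
  rcases lga_winding hν he hperw hinjw with ⟨h1, h2⟩ | ⟨h1, h2⟩
  · obtain ⟨μ, C, c, c₀, a1, a2, a3, a4, a5, a6, a7⟩ := lga_core hh hν he h2 h1 hlin
    exact ⟨μ, C, c, c₀, a1, a2, a3, a4, a5, a6, Or.inl a7⟩
  · have hh' : PosHom (fun z => H ((starRingEnd ℂ) z)) := by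
      intro a ha z
      simp only
      rw [← hh a ha]
      congr 1
      simp [Complex.real_smul]
    have hν' : Continuous (fun θ => ν (-θ)) := by fun_prop
    have he' : ∀ θ : ℝ, Complex.exp (ν (-θ)) =
        (fun z => H ((starRingEnd ℂ) z)) (Complex.exp (θ * Complex.I)) := by
      intro θ
      rw [he]
      simp only [hw]
      congr 1
      rw [← Complex.exp_conj]
      congr 1
      simp
    have hmono' : StrictMono (fun θ => (ν (-θ)).im) := by
      intro a b hab
      exact h2 (neg_lt_neg hab)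
    have hper' : ∀ θ, ν (-(θ + 2 * Real.pi)) = ν (-θ) + 2 * Real.pi * Complex.I := by
      intro θ
      have h3 := h1 (-(θ + 2 * Real.pi))
      have h4 : -(θ + 2 * Real.pi) + 2 * Real.pi = -θ := by ring
      rw [h4] at h3
      rw [h3]
      ring
    have hlin' : ∀ y : ℂ, y ≠ 0 → ∃ R > 0, ∃ A₁ A₂ : ℂ →L[ℝ] ℂ, (∀ v, A₁ v = 0 → v = 0) ∧
        (∀ v, A₂ v = 0 → v = 0) ∧ ∀ y' ∈ ball y R,
          (0 ≤ crs y y' → (fun z => H ((starRingEnd ℂ) z)) y' = A₁ y') ∧
          (crs y y' ≤ 0 → (fun z => H ((starRingEnd ℂ) z)) y' = A₂ y') := by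
      intro y hy
      obtain ⟨R, hR, A₁, A₂, hA₁, hA₂, hloc⟩ := hlin ((starRingEnd ℂ) y)
        (by simpa using hy)
      refine ⟨R, hR, A₂.comp (Complex.conjCLE : ℂ →L[ℝ] ℂ), A₁.comp (Complex.conjCLE : ℂ →L[ℝ] ℂ),
        ?_, ?_, ?_⟩
      · intro v hv
        have := hA₂ _ hv
        simpa using this
      · intro v hv
        have := hA₁ _ hv
        simpa using this
      · intro y' hy'
        have hb : (starRingEnd ℂ) y' ∈ ball ((starRingEnd ℂ) y) R := by
          rw [mem_ball, dist_eq_norm, ← map_sub, Complex.norm_conj, ← dist_eq_norm]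
          exact hy'
        have hcr : crs ((starRingEnd ℂ) y) ((starRingEnd ℂ) y') = - crs y y' := by
          simp [crs]
          ring
        obtain ⟨l1, l2⟩ := hloc _ hb
        rw [hcr] at l1 l2
        exact ⟨fun h => l2 (by linarith), fun h => l1 (by linarith)⟩
    obtain ⟨μ, C, c, c₀, a1, a2, a3, a4, a5, a6, a7⟩ :=
      lga_core hh' hν' he' hmono' hper' hlin'
    exact ⟨μ, C, c, c₀, a1, a2, a3, a4, a5, a6, Or.inr a7⟩

end SM
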