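import Pool.Agent.SM.Defs
import Pool.Agent.SM.Sec

/-!
# Project SM, module LGP
-/

open Set Metric Filter Topology MeasureTheory
open scoped ContDiff Pointwise

noncomputable section

namespace SM

/-- the clamped parameter -/
private def lq (t : ℝ) : ℝ := 1 - max 0 (min 1 t)

private lemma lq_nonneg (t : ℝ) : 0 ≤ lq t := by
  have : max 0 (min 1 t) ≤ 1 := max_le zero_le_one (min_le_left _ _)
  unfold lq
  linarith

private lemma lq_le_one (t : ℝ) : lq t ≤ 1 := by
  have : 0 ≤ max 0 (min 1 t) := le_max_left _ _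
  unfold lq
  linarith

private lemma lq_lip (t t' : ℝ) : |lq t - lq t'| ≤ |t - t'| := by
  unfold lq
  have h1 : |max 0 (min 1 t) - max 0 (min 1 t')| ≤ |min 1 t - min 1 t'| := by
    have := abs_max_sub_max_le_abs (min 1 t) (min 1 t') 0
    rwa [max_comm (min 1 t) 0, max_comm (min 1 t') 0] at this
  have h2 : |min 1 t - min 1 t'| ≤ |t - t'| := by
    have := abs_min_sub_min_le_max 1 t 1 t'
    simpa using this
  calc |1 - max 0 (min 1 t) - (1 - max 0 (min 1 t'))| = |max 0 (min 1 t) - max 0 (min 1 t')| := by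
        rw [abs_sub_comm]
        congr 1
        ring
    _ ≤ _ := h1.trans h2

private lemma lq_cont : Continuous lq := by
  unfold lq
  fun_prop

private lemma logMap_def (μ : ℝ → ℂ) (t : ℝ) (z : ℂ) :
    logMap μ t z = z * Complex.exp ((lq t : ℂ) * μ (Complex.arg z)) := rfl

private lemma per_zsmul {μ : ℝ → ℂ} (hper : ∀ θ, μ (θ + 2 * Real.pi) = μ θ) (θ : ℝ) (n : ℤ) :
    μ (θ - n • (2 * Real.pi)) = μ θ := by
  have h : Function.Periodic μ (2 * Real.pi) := hper
  exact h.sub_zsmul_eq n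

/-- the value of `μ` at the argument depends only on the angle modulo `2π` -/
private lemma mu_arg {μ : ℝ → ℂ} (hper : ∀ θ, μ (θ + 2 * Real.pi) = μ θ) {r : ℝ} (hr : 0 < r)
    (θ : ℝ) : μ (Complex.arg (r * Complex.exp (θ * Complex.I))) = μ θ := by
  have h1 : Complex.arg (r * Complex.exp (θ * Complex.I)) =
      toIocMod Real.two_pi_pos (-Real.pi) θ := by
    rw [Complex.arg_real_mul _ hr, Complex.arg_exp_mul_I]
  rw [h1]
  have h2 : toIocMod Real.two_pi_pos (-Real.pi) θ =
      θ - toIocDiv Real.two_pi_pos (-Real.pi) θ • (2 * Real.pi) := rfl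
  rw [h2, per_zsmul hper]

private lemma mu_arg_exp {μ : ℝ → ℂ} (hper : ∀ θ, μ (θ + 2 * Real.pi) = μ θ) (w : ℂ) :
    μ (Complex.arg (Complex.exp w)) = μ w.im := by
  have h : Complex.exp w = (Real.exp w.re : ℂ) * Complex.exp (w.im * Complex.I) := by
    rw [Complex.ofReal_exp, ← Complex.exp_add, Complex.re_add_im]
  rw [h, mu_arg hper (Real.exp_pos _)]

private lemma logMap_exp {μ : ℝ → ℂ} (hper : ∀ θ, μ (θ + 2 * Real.pi) = μ θ) (t : ℝ) (w : ℂ) :
    logMap μ t (Complex.exp w) = Complex.exp (w + (lq t : ℂ) * μ w.im) := by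
  rw [logMap_def, mu_arg_exp hper, Complex.exp_add]

private lemma C_nonneg {μ : ℝ → ℂ} {C : ℝ} (hlip : ∀ θ θ', ‖μ θ - μ θ'‖ ≤ C * |θ - θ'|) :
    0 ≤ C := by
  have := hlip 1 0
  have h2 := norm_nonneg (μ 1 - μ 0)
  simp at this
  linarith

private lemma g_mono {μ : ℝ → ℂ} {c : ℝ} (hc1 : c ≤ 1)
    (hsl : ∀ θ θ', θ' ≤ θ → -(1 - c) * (θ - θ') ≤ (μ θ).im - (μ θ').im) (t : ℝ) {θ θ' : ℝ}
    (h : θ' ≤ θ) : c * (θ - θ') ≤ (θ + lq t * (μ θ).im) - (θ' + lq t * (μ θ').im) := by
  have h1 := hsl θ θ' h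
  have h2 := lq_nonneg t
  have h3 := lq_le_one t
  have h4 : lq t * (-(1 - c) * (θ - θ')) ≤ lq t * ((μ θ).im - (μ θ').im) :=
    mul_le_mul_of_nonneg_left h1 h2
  have h5 : 0 ≤ (1 - lq t) * ((1 - c) * (θ - θ')) :=
    mul_nonneg (by linarith) (mul_nonneg (by linarith) (by linarith))
  nlinarith

private lemma logMap_inj {μ : ℝ → ℂ} {c : ℝ} (hc : 0 < c) (hc1 : c ≤ 1)
    (hper : ∀ θ, μ (θ + 2 * Real.pi) = μ θ)
    (hsl : ∀ θ θ', θ' ≤ θ → -(1 - c) * (θ - θ') ≤ (μ θ).im - (μ θ').im) (t : ℝ) :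
    Function.Injective (logMap μ t) := by
  intro z z' h
  by_cases hz : z = 0
  · by_cases hz' : z' = 0
    · rw [hz, hz']
    · exfalso
      rw [logMap_def, logMap_def, hz, zero_mul] at h
      exact (mul_ne_zero hz' (Complex.exp_ne_zero _)) h.symm
  by_cases hz' : z' = 0
  · exfalso
    rw [logMap_def, logMap_def, hz', zero_mul] at h
    exact (mul_ne_zero hz (Complex.exp_ne_zero _)) h
  have e1 : Complex.exp (Complex.log z) = z := Complex.exp_log hz
  have e1' : Complex.exp (Complex.log z') = z' := Complex.exp_log hz'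
  rw [← e1, ← e1', logMap_exp hper, logMap_exp hper, Complex.exp_eq_exp_iff_exists_int] at h
  obtain ⟨n, hn⟩ := h
  have him := congrArg Complex.im hn
  have hre := congrArg Complex.re hn
  simp at him hre
  rw [Complex.log_im, Complex.log_im] at him hre
  rw [Complex.log_re, Complex.log_re] at hre
  set θ := Complex.arg z with hθ
  set θ' := Complex.arg z' with hθ'
  -- g θ = g (θ' + 2 π n)
  have hg : θ = θ' + n * (2 * Real.pi) := by
    have hp : (μ (θ' + n * (2 * Real.pi))) = μ θ' := by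
      have := per_zsmul hper θ' (-n)
      rwa [show θ' - (-n) • (2 * Real.pi) = θ' + n * (2 * Real.pi) by
        simp] at this
    rcases lt_trichotomy θ (θ' + n * (2 * Real.pi)) with hlt | heq | hgt
    · have := g_mono hc1 hsl t hlt.le
      rw [hp] at this
      nlinarith
    · exact heq
    · have := g_mono hc1 hsl t hgt.le
      rw [hp] at this
      nlinarith
  have hb1 := Complex.neg_pi_lt_arg z
  have hb2 := Complex.arg_le_pi z
  have hb1' := Complex.neg_pi_lt_arg z'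
  have hb2' := Complex.arg_le_pi z'
  have hpi := Real.pi_pos
  have hn0 : n = 0 := by
    have h1 : (n : ℝ) < 1 := by
      by_contra hcon
      push Not at hcon
      nlinarith
    have h2 : (-1 : ℝ) < n := by
      by_contra hcon
      push Not at hcon
      nlinarith
    have h3 : n < 1 := by exact_mod_cast h1
    have h4 : -1 < n := by exact_mod_cast h2
    omega
  rw [hn0] at hg
  simp at hg
  rw [hg] at hre
  have hlog : Real.log ‖z‖ = Real.log ‖z'‖ := by linarith
  have hnorm : ‖z‖ = ‖z'‖ :=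
    Real.log_injOn_pos (norm_pos_iff.2 hz) (norm_pos_iff.2 hz') hlog
  exact Complex.ext_norm_arg hnorm hg

private lemma mu_cont {μ : ℝ → ℂ} {C : ℝ} (hlip : ∀ θ θ', ‖μ θ - μ θ'‖ ≤ C * |θ - θ'|) :
    Continuous μ := by
  have : LipschitzWith (Real.toNNReal C) μ := by
    refine LipschitzWith.of_dist_le_mul fun x y => ?_
    rw [dist_eq_norm, Real.coe_toNNReal C (C_nonneg hlip), Real.dist_eq]
    exact hlip x y
  exact this.continuous

private lemma logMap_surj {μ : ℝ → ℂ} {C c : ℝ} (hc : 0 < c) (hc1 : c ≤ 1)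
    (hper : ∀ θ, μ (θ + 2 * Real.pi) = μ θ) (hlip : ∀ θ θ', ‖μ θ - μ θ'‖ ≤ C * |θ - θ'|)
    (hsl : ∀ θ θ', θ' ≤ θ → -(1 - c) * (θ - θ') ≤ (μ θ).im - (μ θ').im) (t : ℝ) :
    Function.Surjective (logMap μ t) := by
  intro w
  by_cases hw : w = 0
  · exact ⟨0, by rw [logMap_def, hw, zero_mul]⟩
  set g : ℝ → ℝ := fun θ => θ + lq t * (μ θ).im with hg
  have hgc : Continuous g := by
    have := mu_cont hlip
    have h2 : Continuous fun θ => (μ θ).im := Complex.continuous_im.comp this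
    fun_prop
  have htop : Tendsto g atTop atTop := by
    refine tendsto_atTop_mono' _ (f₁ := fun θ => c * θ + g 0) ?_ ?_
    · filter_upwards [eventually_ge_atTop (0 : ℝ)] with θ hθ
      have := g_mono hc1 hsl t hθ
      simp only [hg]
      linarith
    · exact tendsto_atTop_add_const_right _ _ (tendsto_id.const_mul_atTop hc)
  have hbot : Tendsto g atBot atBot := by
    have h1 : Tendsto (fun θ : ℝ => c * θ + g 0) atBot atBot :=
      tendsto_atBot_add_const_right _ _ (tendsto_id.const_mul_atBot hc)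
    refine tendsto_atBot_mono' _ ?_ h1
    filter_upwards [eventually_le_atBot (0 : ℝ)] with θ hθ
    have := g_mono hc1 hsl t hθ
    simp only [hg]
    linarith
  obtain ⟨θ, hθ⟩ := hgc.surjective htop hbot (Complex.log w).im
  refine ⟨Complex.exp (((Complex.log w).re - lq t * (μ θ).re : ℝ) + θ * Complex.I), ?_⟩
  rw [logMap_exp hper]
  have him : ((((Complex.log w).re - lq t * (μ θ).re : ℝ) : ℂ) + θ * Complex.I).im = θ := by
    simp
  rw [him]
  have : (((Complex.log w).re - lq t * (μ θ).re : ℝ) : ℂ) + θ * Complex.I + (lq t : ℂ) * μ θ =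
      Complex.log w := by
    apply Complex.ext
    · simp
    · simp only [Complex.add_im, Complex.ofReal_im, Complex.mul_im, Complex.ofReal_re,
        Complex.I_im, Complex.I_re]
      simp only [hg] at hθ
      rw [← hθ]
      ring
  rw [this, Complex.exp_log hw]

/-- the matrices of the secants in logarithmic coordinates -/
private def lgM (p : ℂ) : ℂ →L[ℝ] ℂ :=
  ContinuousLinearMap.id ℝ ℂ + Complex.imCLM.smulRight p

private lemma lgM_apply (p ξ : ℂ) : lgM p ξ = ξ + ξ.im • p := rfl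

private def lgK (C c : ℝ) : Set (ℂ →L[ℝ] ℂ) :=
  lgM '' {p : ℂ | p.re ∈ Icc (-C) C ∧ p.im ∈ Icc (-(1 - c)) C}

private lemma lgM_cont : Continuous lgM := by
  unfold lgM
  have h : Continuous fun p : ℂ => Complex.imCLM.smulRight p := by
    have := (ContinuousLinearMap.smulRightL ℝ ℂ ℂ Complex.imCLM).continuous
    exact this
  exact continuous_const.add h

private lemma lgK_good {C c : ℝ} (hc : 0 < c) (hC : 0 ≤ C) :
    GoodSet (1 / (1 + C / c + 1 / c)) (lgK C c) := by
  have hrect : {p : ℂ | p.re ∈ Icc (-C) C ∧ p.im ∈ Icc (-(1 - c)) C} =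
      Icc (-C) C ×ℂ Icc (-(1 - c)) C := by
    ext p
    rw [Complex.mem_reProdIm]
    rfl
  refine ⟨?_, ?_, ?_⟩
  · rintro _ ⟨p, hp, rfl⟩ _ ⟨p', hp', rfl⟩ s s' hs hs' hss
    refine ⟨s • p + s' • p', ⟨?_, ?_⟩, ?_⟩
    · have := (convex_Icc (-C) C) hp.1 hp'.1 hs hs' hss
      simpa using this
    · have := (convex_Icc (-(1 - c)) C) hp.2 hp'.2 hs hs' hss
      simpa using this
    · have h1 : s • (ContinuousLinearMap.id ℝ ℂ) + s' • (ContinuousLinearMap.id ℝ ℂ) =
          ContinuousLinearMap.id ℝ ℂ := by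
        refine ContinuousLinearMap.ext fun ξ => ?_
        simp only [add_apply, smul_apply, ContinuousLinearMap.id_apply]
        rw [← add_smul, hss, one_smul]
      have h2 : Complex.imCLM.smulRight (s • p + s' • p') =
          s • Complex.imCLM.smulRight p + s' • Complex.imCLM.smulRight p' := by
        refine ContinuousLinearMap.ext fun ξ => ?_
        simp only [ContinuousLinearMap.smulRight_apply, add_apply, smul_apply, smul_add]
        rw [smul_comm, smul_comm (Complex.imCLM ξ) s' p']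
      unfold lgM
      rw [h2, smul_add, smul_add]
      nth_rewrite 1 [← h1]
      abel
  · unfold lgK
    rw [hrect]
    exact (isCompact_Icc.reProdIm isCompact_Icc).image lgM_cont
  · rintro _ ⟨p, hp, rfl⟩ ξ
    rw [lgM_apply]
    obtain ⟨⟨h1, h2⟩, h3, h4⟩ := hp
    set N := ‖ξ + ξ.im • p‖ with hN
    have hN0 : 0 ≤ N := norm_nonneg _
    have e1 : |ξ.re + ξ.im * p.re| ≤ N := by
      have := Complex.abs_re_le_norm (ξ + ξ.im • p)
      rwa [show (ξ + ξ.im • p).re = ξ.re + ξ.im * p.re by simp] at this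
    have e2 : |ξ.im + ξ.im * p.im| ≤ N := by
      have := Complex.abs_im_le_norm (ξ + ξ.im • p)
      rwa [show (ξ + ξ.im • p).im = ξ.im + ξ.im * p.im by simp] at this
    have e3 : c * |ξ.im| ≤ N := by
      have h5 : |ξ.im + ξ.im * p.im| = (1 + p.im) * |ξ.im| := by
        rw [show ξ.im + ξ.im * p.im = (1 + p.im) * ξ.im by ring, abs_mul,
          abs_of_pos (by linarith)]
      rw [h5] at e2
      have := abs_nonneg ξ.im
      nlinarith
    have e4 : |ξ.im| ≤ N / c := by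
      rw [le_div_iff₀ hc]
      linarith
    have e5 : |ξ.re| ≤ N + C * (N / c) := by
      have h5 : |ξ.re| ≤ |ξ.re + ξ.im * p.re| + |ξ.im * p.re| := by
        have := abs_sub (ξ.re + ξ.im * p.re) (ξ.im * p.re)
        simpa using this
      have h6 : |ξ.im * p.re| ≤ (N / c) * C := by
        rw [abs_mul]
        exact mul_le_mul e4 (abs_le.2 ⟨h1, h2⟩) (abs_nonneg _) (by positivity)
      linarith
    have e6 : ‖ξ‖ ≤ |ξ.re| + |ξ.im| := Complex.norm_le_abs_re_add_abs_im ξ
    have hD : 0 < 1 + C / c + 1 / c := by positivity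
    rw [div_mul_eq_mul_div, one_mul, div_le_iff₀ hD]
    calc ‖ξ‖ ≤ N + C * (N / c) + N / c := by linarith
      _ = N * (1 + C / c + 1 / c) := by
        field_simp

private lemma zero_mem_rect {C c : ℝ} (hc1 : c ≤ 1) (hC : 0 ≤ C) :
    (0 : ℂ) ∈ {p : ℂ | p.re ∈ Icc (-C) C ∧ p.im ∈ Icc (-(1 - c)) C} := by
  refine ⟨⟨?_, ?_⟩, ?_, ?_⟩ <;> simp <;> linarith

/-- secants in logarithmic coordinates -/
private lemma log_sec {μ : ℝ → ℂ} {C c : ℝ} (hc1 : c ≤ 1)
    (hlip : ∀ θ θ', ‖μ θ - μ θ'‖ ≤ C * |θ - θ'|)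
    (hsl : ∀ θ θ', θ' ≤ θ → -(1 - c) * (θ - θ') ≤ (μ θ).im - (μ θ').im) (θ₀ t : ℝ) :
    SecOn (fun ξ : ℂ => ξ + (lq t : ℂ) * μ (θ₀ + ξ.im)) (lgK C c) univ := by
  intro ξ _ ξ' _
  have hC := C_nonneg hlip
  have hq0 := lq_nonneg t
  have hq1 := lq_le_one t
  rcases eq_or_ne ξ.im ξ'.im with he | hne
  · refine ⟨lgM 0, mem_image_of_mem _ (zero_mem_rect hc1 hC), ?_⟩
    rw [lgM_apply]
    simp only [he, smul_zero]
    ring
  · set d := ξ.im - ξ'.im with hd
    have hd0 : d ≠ 0 := sub_ne_zero.2 hne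
    set p : ℂ := (lq t : ℂ) * (μ (θ₀ + ξ.im) - μ (θ₀ + ξ'.im)) / (d : ℂ) with hp
    have hp' : d • p = (lq t : ℂ) * (μ (θ₀ + ξ.im) - μ (θ₀ + ξ'.im)) := by
      rw [hp, Complex.real_smul]
      have : (d : ℂ) ≠ 0 := by exact_mod_cast hd0
      field_simp
    have hnorm : ‖p‖ ≤ C := by
      have h1 := hlip (θ₀ + ξ.im) (θ₀ + ξ'.im)
      have h2 : θ₀ + ξ.im - (θ₀ + ξ'.im) = d := by rw [hd]; ring
      rw [h2] at h1
      rw [hp, norm_div, norm_mul, Complex.norm_real, Complex.norm_real, Real.norm_eq_abs,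
        Real.norm_eq_abs, div_le_iff₀ (abs_pos.2 hd0), abs_of_nonneg hq0]
      calc lq t * ‖μ (θ₀ + ξ.im) - μ (θ₀ + ξ'.im)‖ ≤ 1 * (C * |d|) :=
            mul_le_mul hq1 h1 (norm_nonneg _) zero_le_one
        _ = C * |d| := one_mul _
    have him : d * p.im = lq t * ((μ (θ₀ + ξ.im)).im - (μ (θ₀ + ξ'.im)).im) := by
      have := congrArg Complex.im hp'
      simpa using this
    refine ⟨lgM p, mem_image_of_mem _ ⟨⟨?_, ?_⟩, ?_, ?_⟩, ?_⟩
    · have := Complex.abs_re_le_norm p
      linarith [(abs_le.1 this).1]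
    · have := Complex.abs_re_le_norm p
      linarith [(abs_le.1 this).2]
    · rcases lt_or_gt_of_ne hd0 with hneg | hpos
      · have h1 := hsl (θ₀ + ξ'.im) (θ₀ + ξ.im) (by rw [hd] at hneg; linarith)
        have h2 : lq t * (-(1 - c) * (θ₀ + ξ'.im - (θ₀ + ξ.im))) ≤
            lq t * ((μ (θ₀ + ξ'.im)).im - (μ (θ₀ + ξ.im)).im) :=
          mul_le_mul_of_nonneg_left h1 hq0
        have h3 : 0 ≤ (1 - lq t) * ((1 - c) * (-d)) :=
          mul_nonneg (by linarith) (mul_nonneg (by linarith) (by linarith))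
        have h4 : θ₀ + ξ'.im - (θ₀ + ξ.im) = -d := by rw [hd]; ring
        rw [h4] at h2
        have h5 : (-d) * (-(1 - c)) ≤ (-d) * p.im := by nlinarith
        exact le_of_mul_le_mul_left h5 (by linarith)
      · have h1 := hsl (θ₀ + ξ.im) (θ₀ + ξ'.im) (by rw [hd] at hpos; linarith)
        have h2 : lq t * (-(1 - c) * (θ₀ + ξ.im - (θ₀ + ξ'.im))) ≤
            lq t * ((μ (θ₀ + ξ.im)).im - (μ (θ₀ + ξ'.im)).im) :=
          mul_le_mul_of_nonneg_left h1 hq0
        have h3 : 0 ≤ (1 - lq t) * ((1 - c) * d) :=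
          mul_nonneg (by linarith) (mul_nonneg (by linarith) (by linarith))
        have h4 : θ₀ + ξ.im - (θ₀ + ξ'.im) = d := by rw [hd]; ring
        rw [h4] at h2
        have h5 : d * (-(1 - c)) ≤ d * p.im := by nlinarith
        exact le_of_mul_le_mul_left h5 hpos
    · have := Complex.abs_im_le_norm p
      linarith [(abs_le.1 this).2]
    · rw [lgM_apply, Complex.sub_im, ← hd, hp']
      ring

private lemma logMap_famGood {μ : ℝ → ℂ} {C c : ℝ} (hc : 0 < c) (hc1 : c ≤ 1)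
    (hper : ∀ θ, μ (θ + 2 * Real.pi) = μ θ) (hlip : ∀ θ θ', ‖μ θ - μ θ'‖ ≤ C * |θ - θ'|)
    (hsl : ∀ θ θ', θ' ≤ θ → -(1 - c) * (θ - θ') ≤ (μ θ).im - (μ θ').im) (t₀ : ℝ) {z₀ : ℂ}
    (hz₀ : z₀ ≠ 0) : ∃ c' > 0, FamGood c' (logMap μ) t₀ z₀ := by
  have hC := C_nonneg hlip
  set h : ℝ → ℂ → ℂ := fun t ξ => ξ + (lq t : ℂ) * μ (Complex.arg z₀ + ξ.im) with hh
  have hc0 : 0 < 1 / (1 + C / c + 1 / c) := by positivity
  have hfam : FamGood (1 / (1 + C / c + 1 / c)) h t₀ (Complex.log (z₀ / z₀)) := by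
    refine ⟨lgK C c, lgK_good hc hC, 1, one_pos, Eventually.of_forall fun t => ?_⟩
    intro ξ _ ξ' _
    exact log_sec hc1 hlip hsl (Complex.arg z₀) t ξ (mem_univ _) ξ' (mem_univ _)
  have hcont : Continuous fun z : ℝ × ℂ => h z.1 z.2 := by
    have h1 := mu_cont hlip
    have h2 : Continuous fun z : ℝ × ℂ => μ (Complex.arg z₀ + z.2.im) := by
      refine h1.comp ?_
      have : Continuous fun z : ℝ × ℂ => z.2.im := Complex.continuous_im.comp continuous_snd
      fun_prop
    have h3 : Continuous fun z : ℝ × ℂ => ((lq z.1 : ℝ) : ℂ) :=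
      Complex.continuous_ofReal.comp (lq_cont.comp continuous_fst)
    simp only [hh]
    exact continuous_snd.add (h3.mul h2)
  -- the two strictly differentiable maps
  have hφ : HasStrictFDerivAt (fun z : ℂ => Complex.log (z / z₀))
      ((((1 : ℂ →L[ℂ] ℂ).smulRight (z₀⁻¹))).restrictScalars ℝ) z₀ := by
    have h1 : HasStrictDerivAt (fun z : ℂ => z / z₀) (z₀⁻¹) z₀ := by
      have := (hasStrictDerivAt_id z₀).div_const z₀
      simpa using this
    have h2 : HasStrictDerivAt (fun z : ℂ => Complex.log (z / z₀)) ((z₀ / z₀)⁻¹ * z₀⁻¹) z₀ := by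
      have hs : z₀ / z₀ ∈ Complex.slitPlane := by
        rw [div_self hz₀]
        exact Complex.one_mem_slitPlane
      exact HasStrictDerivAt.comp (h := fun z : ℂ => z / z₀) z₀
        (Complex.hasStrictDerivAt_log hs) h1
    have h3 : (z₀ / z₀)⁻¹ * z₀⁻¹ = z₀⁻¹ := by
      rw [div_self hz₀, inv_one, one_mul]
    rw [h3] at h2
    exact h2.hasStrictFDerivAt.restrictScalars ℝ
  have hχ : HasStrictFDerivAt (fun w : ℂ => z₀ * Complex.exp w)
      ((((1 : ℂ →L[ℂ] ℂ).smulRight (z₀ * Complex.exp (h t₀ (Complex.log (z₀ / z₀)))))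
        ).restrictScalars ℝ) (h t₀ (Complex.log (z₀ / z₀))) := by
    have h1 := (Complex.hasStrictDerivAt_exp (h t₀ (Complex.log (z₀ / z₀)))).const_mul z₀
    exact h1.hasStrictFDerivAt.restrictScalars ℝ
  obtain ⟨c', hc', hg⟩ := FamGood.conj (φ := fun z : ℂ => Complex.log (z / z₀))
    (χ := fun w : ℂ => z₀ * Complex.exp w) (x₀ := z₀) hc0 hfam hcont.continuousAt hφ
    (by
      intro v hv
      have hv' : v * z₀⁻¹ = 0 := by simpa using hv
      rcases mul_eq_zero.1 hv' with h1 | h1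
      · exact h1
      · exact absurd h1 (inv_ne_zero hz₀)) hχ
    (by
      intro v hv
      have hv' : v * (z₀ * Complex.exp (h t₀ (Complex.log (z₀ / z₀)))) = 0 := by
        simpa using hv
      rcases mul_eq_zero.1 hv' with h1 | h1
      · exact h1
      · exact absurd h1 (mul_ne_zero hz₀ (Complex.exp_ne_zero _)))
  refine ⟨c', hc', hg.congr ?_⟩
  have hev : ∀ᶠ z : ℝ × ℂ in 𝓝 (t₀, z₀), z.2 ≠ 0 :=
    continuous_snd.continuousAt.eventually_ne hz₀
  filter_upwards [hev] with z hz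
  set ξ := Complex.log (z.2 / z₀) with hξ
  have hzξ : z.2 = z₀ * Complex.exp ξ := by
    rw [hξ, Complex.exp_log (div_ne_zero hz hz₀)]
    field_simp
  have hz₀' : z₀ = Complex.exp (Complex.log z₀) := (Complex.exp_log hz₀).symm
  have e1 : z.2 = Complex.exp (Complex.log z₀ + ξ) := by
    rw [Complex.exp_add, ← hz₀', ← hzξ]
  rw [e1, logMap_exp hper]
  simp only [hh]
  rw [show (Complex.log z₀ + ξ).im = Complex.arg z₀ + ξ.im by
    rw [Complex.add_im, Complex.log_im]]
  rw [add_assoc, Complex.exp_add (Complex.log z₀), ← hz₀']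

private lemma exp_lip {w : ℂ} {M : ℝ} (hw : ‖w‖ ≤ M) {s s' : ℝ} (hs : s ∈ Icc (0 : ℝ) 1)
    (hs' : s' ∈ Icc (0 : ℝ) 1) :
    ‖Complex.exp ((s : ℂ) * w) - Complex.exp ((s' : ℂ) * w)‖ ≤ M * Real.exp M * |s - s'| := by
  have hM : 0 ≤ M := (norm_nonneg _).trans hw
  have hd : ∀ x ∈ Icc (0 : ℝ) 1, HasDerivWithinAt (fun s : ℝ => Complex.exp ((s : ℂ) * w))
      (Complex.exp ((x : ℂ) * w) * w) (Icc 0 1) x := by
    intro x _
    have h1 : HasDerivAt (fun s : ℝ => (s : ℂ) * w) w x := by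
      have := (Complex.ofRealCLM.hasDerivAt (x := x)).mul_const w
      simpa using this
    exact h1.cexp.hasDerivWithinAt
  have hb : ∀ x ∈ Icc (0 : ℝ) 1, ‖Complex.exp ((x : ℂ) * w) * w‖ ≤ M * Real.exp M := by
    intro x hx
    rw [norm_mul, Complex.norm_exp, mul_comm]
    have h1 : ((x : ℂ) * w).re ≤ M := by
      have h2 : ((x : ℂ) * w).re = x * w.re := by simp
      rw [h2]
      have h3 : w.re ≤ ‖w‖ := Complex.re_le_norm w
      nlinarith [hx.1, hx.2, norm_nonneg w]
    exact mul_le_mul hw (Real.exp_le_exp.2 h1) (Real.exp_pos _).le hM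
  have := (convex_Icc (0 : ℝ) 1).norm_image_sub_le_of_norm_hasDerivWithin_le hd hb hs' hs
  rwa [Real.norm_eq_abs] at this

theorem logMap_homFam {μ : ℝ → ℂ} {C c : ℝ} (hc : 0 < c) (hc1 : c ≤ 1)
    (hper : ∀ θ, μ (θ + 2 * Real.pi) = μ θ) (hlip : ∀ θ θ', ‖μ θ - μ θ'‖ ≤ C * |θ - θ'|)
    (hsl : ∀ θ θ', θ' ≤ θ → -(1 - c) * (θ - θ') ≤ (μ θ).im - (μ θ').im) :
    (∃ C', HomFam (logMap μ) C') ∧ (∀ t, Function.Surjective (logMap μ t)) ∧
      logMap μ 1 = id := by
  have hC := C_nonneg hlip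
  refine ⟨?_, logMap_surj hc hc1 hper hlip hsl, ?_⟩
  · set M := ‖μ 0‖ + C * Real.pi with hM
    have hpi := Real.pi_pos
    have hM0 : 0 ≤ M := by positivity
    have hbd : ∀ z : ℂ, ‖μ (Complex.arg z)‖ ≤ M := by
      intro z
      have h1 := hlip (Complex.arg z) 0
      have h2 : ‖μ (Complex.arg z)‖ ≤ ‖μ 0‖ + ‖μ (Complex.arg z) - μ 0‖ := by
        have := norm_add_le (μ 0) (μ (Complex.arg z) - μ 0)
        rwa [add_sub_cancel] at this
      have h3 : |Complex.arg z - 0| ≤ Real.pi := by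
        rw [sub_zero]
        exact Complex.abs_arg_le_pi z
      have h4 : C * |Complex.arg z - 0| ≤ C * Real.pi := mul_le_mul_of_nonneg_left h3 hC
      rw [hM]
      linarith
    refine ⟨M * Real.exp M, ?_, ?_, ?_, ?_, ?_, ?_⟩
    · intro t ht
      funext z
      have : lq t = lq 0 := by
        unfold lq
        rw [min_eq_right (by linarith), max_eq_left ht]
        simp
      rw [logMap_def, logMap_def, this]
    · intro t ht
      funext z
      have : lq t = lq 1 := by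
        unfold lq
        rw [min_eq_left ht]
        simp
      rw [logMap_def, logMap_def, this]
    · intro t a ha z
      rcases ha.eq_or_lt with rfl | ha'
      · rw [zero_smul, zero_smul, logMap_def, zero_mul]
      · rw [logMap_def, logMap_def, Complex.real_smul, Complex.real_smul,
          Complex.arg_real_mul _ ha', mul_assoc]
    · intro t t' z
      rw [logMap_def, logMap_def, ← mul_sub, norm_mul, mul_comm]
      refine mul_le_mul_of_nonneg_right ?_ (norm_nonneg _)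
      refine (exp_lip (hbd z) ⟨lq_nonneg t, lq_le_one t⟩ ⟨lq_nonneg t', lq_le_one t'⟩).trans ?_
      exact mul_le_mul_of_nonneg_left (lq_lip t t') (by positivity)
    · exact logMap_inj hc hc1 hper hsl
    · intro t z hz
      exact logMap_famGood hc hc1 hper hlip hsl t hz
  · funext z
    have : lq 1 = 0 := by
      unfold lq
      simp
    rw [logMap_def, this]
    simp

end SM
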