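import Pool.Agent.SM.Defs
import Pool.Agent.SM.Sec
import Pool.Agent.SM.Hc
import Pool.Agent.SM.Grm
import Pool.Agent.SM.Lga
import Pool.Agent.SM.Lgp

/-!
# Project SM, module EDG
-/

open Set Metric Filter Topology MeasureTheory
open scoped ContDiff Pointwise

noncomputable section

namespace SM

/-! ## Linear conjugation -/

private theorem edg_equiv_lower {X Y : Type*} [NormedAddCommGroup X] [NormedSpace ℝ X]
    [NormedAddCommGroup Y] [NormedSpace ℝ Y] (A : X ≃L[ℝ] Y) :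
    ∃ a > 0, ∀ v, a * ‖v‖ ≤ ‖A v‖ := by
  refine ⟨(‖(A.symm : Y →L[ℝ] X)‖ + 1)⁻¹, by positivity, fun v => ?_⟩
  have h1 : ‖v‖ ≤ ‖(A.symm : Y →L[ℝ] X)‖ * ‖A v‖ := by
    have := (A.symm : Y →L[ℝ] X).le_opNorm (A v)
    simpa using this
  rw [inv_mul_le_iff₀ (by positivity)]
  nlinarith [norm_nonneg (A v)]

private theorem edg_clm_upper {X Y : Type*} [NormedAddCommGroup X] [NormedSpace ℝ X]
    [NormedAddCommGroup Y] [NormedSpace ℝ Y] (A : X →L[ℝ] Y) :
    ∃ a > 0, ∀ v, ‖A v‖ ≤ a * ‖v‖ := by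
  refine ⟨‖A‖ + 1, by positivity, fun v => ?_⟩
  have := A.le_opNorm v
  nlinarith [norm_nonneg v]

private theorem edg_famGood_conj {X Y X' Y' P : Type*} [NormedAddCommGroup X] [NormedSpace ℝ X]
    [NormedAddCommGroup Y] [NormedSpace ℝ Y] [NormedAddCommGroup X'] [NormedSpace ℝ X']
    [NormedAddCommGroup Y'] [NormedSpace ℝ Y'] [TopologicalSpace P] {c a b : ℝ}
    {h : P → X → Y} {p : P} {x₀ : X'} (A : X' →L[ℝ] X) (B : Y →L[ℝ] Y') (hc : 0 ≤ c)
    (hb : 0 ≤ b) (hA : ∀ v, a * ‖v‖ ≤ ‖A v‖) (hB : ∀ w, b * ‖w‖ ≤ ‖B w‖)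
    (hg : FamGood c h p (A x₀)) :
    FamGood (b * (c * a)) (fun q x => B (h q (A x))) p x₀ := by
  obtain ⟨K, hK, r, hr, hev⟩ := hg
  set L : (X →L[ℝ] Y) →L[ℝ] (X' →L[ℝ] Y') :=
    ((ContinuousLinearMap.compL ℝ X' X Y').flip A).comp (ContinuousLinearMap.compL ℝ X Y Y' B)
    with hL
  have hLa : ∀ M v, L M v = B (M (A v)) := by
    intro M v
    simp [hL]
  refine ⟨L '' K, ⟨?_, ?_, ?_⟩, r / (‖A‖ + 1), by positivity, ?_⟩
  · exact hK.convex.linear_image L.toLinearMap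
  · exact hK.compact.image L.continuous
  · rintro _ ⟨M, hM, rfl⟩ v
    rw [hLa]
    calc b * (c * a) * ‖v‖ = b * (c * (a * ‖v‖)) := by ring
      _ ≤ b * (c * ‖A v‖) := by gcongr; exact hA v
      _ ≤ b * ‖M (A v)‖ := by gcongr; exact hK.lower M hM _
      _ ≤ ‖B (M (A v))‖ := hB _
  · have hball : ∀ x ∈ ball x₀ (r / (‖A‖ + 1)), A x ∈ ball (A x₀) r := by
      intro x hx
      rw [mem_ball_iff_norm] at hx ⊢
      rw [← map_sub]
      rw [lt_div_iff₀ (by positivity)] at hx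
      have := A.le_opNorm (x - x₀)
      nlinarith [norm_nonneg (x - x₀)]
    filter_upwards [hev] with q hq
    intro x hx x' hx'
    obtain ⟨M, hM, hMx⟩ := hq (A x) (hball x hx) (A x') (hball x' hx')
    refine ⟨L M, ⟨M, hM, rfl⟩, ?_⟩
    simp only
    rw [hLa, ← map_sub, hMx, map_sub A]

private theorem edg_low {c D u v m : ℝ} (hc : 0 < c) (hD : 0 ≤ D) (hm : 0 ≤ m) (h1 : c * u ≤ m)
    (h2 : v ≤ m + D * u) : c / (c + 1 + D) * max u v ≤ m := by
  have h3 : 0 < c + 1 + D := by positivity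
  rw [div_mul_eq_mul_div, div_le_iff₀ h3]
  rcases le_total u v with h | h
  · rw [max_eq_right h]
    have h4 : c * v ≤ c * m + D * (c * u) := by nlinarith
    have h5 : D * (c * u) ≤ D * m := mul_le_mul_of_nonneg_left h1 hD
    nlinarith
  · rw [max_eq_left h]
    nlinarith [mul_nonneg hm hc.le, mul_nonneg hm hD]

/-! ## The planar family -/

private theorem edg_planar {H : ℂ → ℂ} (hh : PosHom H) (hc : Continuous H)
    (hinj : Function.Injective H)
    (hlin : ∀ y : ℂ, y ≠ 0 → ∃ R > 0, ∃ A₁ A₂ : ℂ →L[ℝ] ℂ, (∀ v, A₁ v = 0 → v = 0) ∧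
      (∀ v, A₂ v = 0 → v = 0) ∧ ∀ y' ∈ ball y R, (0 ≤ crs y y' → H y' = A₁ y') ∧
        (crs y y' ≤ 0 → H y' = A₂ y')) :
    ∃ (Ht : ℝ → ℂ → ℂ) (c Λ : ℝ) (A : ℂ →L[ℝ] ℂ), 0 < c ∧ 0 < Λ ∧ (∀ t, t ≤ 0 → Ht t = H) ∧
      (∀ t, 1 ≤ t → Ht t = A) ∧ (∀ t, PosHom (Ht t)) ∧
      (∀ t t' y, ‖Ht t y - Ht t' y‖ ≤ Λ * |t - t'| * ‖y‖) ∧
      (∀ t y y', c * ‖y - y'‖ ≤ ‖Ht t y - Ht t y'‖) ∧
      (∀ t y y', ‖Ht t y - Ht t y'‖ ≤ Λ * ‖y - y'‖) ∧
      (∀ t y, y ≠ 0 → FamGood c Ht t y) ∧ Function.Surjective H := by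
  obtain ⟨μ, C, c, c₀, hc0, hc1, hc₀, hper, hlip, hsl, hor⟩ := exists_angular_log hh hc hinj hlin
  obtain ⟨⟨C', hF⟩, hsurj, hid⟩ := logMap_homFam hc0 hc1 hper hlip hsl
  obtain ⟨c', hc', Λ, hΛ, hlow, hup, hgood⟩ := hF.uniform
  obtain ⟨σ, hσ, hσσ, hHσ⟩ : ∃ σ : ℂ →L[ℝ] ℂ, (∀ v, ‖σ v‖ = ‖v‖) ∧ (∀ v, σ (σ v) = v) ∧
      ∀ z, H (σ z) = c₀ * logMap μ 0 z := by
    rcases hor with h | h
    · exact ⟨ContinuousLinearMap.id ℝ ℂ, fun v => rfl, fun v => rfl, h⟩
    · refine ⟨(Complex.conjCLE : ℂ →L[ℝ] ℂ), fun v => ?_, fun v => ?_, fun z => ?_⟩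
      · simp
      · simp
      · simpa using h z
  have hH : ∀ z, H z = c₀ * logMap μ 0 (σ z) := by
    intro z
    rw [← hHσ, hσσ]
  have hn : 0 < ‖c₀‖ := norm_pos_iff.mpr hc₀
  set m : ℂ →L[ℝ] ℂ := ContinuousLinearMap.mul ℝ ℂ c₀ with hm
  have hmm : ∀ w, m w = c₀ * w := fun w => rfl
  refine ⟨fun t z => c₀ * logMap μ t (σ z), ‖c₀‖ * (c' * 1), ‖c₀‖ * (Λ + |C'| + 1), m.comp σ,
    by positivity, by positivity, ?_, ?_, ?_, ?_, ?_, ?_, ?_, ?_⟩
  · intro t ht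
    funext z
    show c₀ * logMap μ t (σ z) = H z
    rw [hF.left t ht, hH]
  · intro t ht
    funext z
    show c₀ * logMap μ t (σ z) = m (σ z)
    rw [hF.right t ht, hid]
    rfl
  · intro t a ha x
    simp only
    rw [map_smul, hF.hom t a ha, mul_smul_comm]
  · intro t t' y
    simp only
    rw [← mul_sub, norm_mul]
    have h1 := hF.lipt t t' (σ y)
    rw [hσ] at h1
    have h2 : C' * |t - t'| * ‖y‖ ≤ (Λ + |C'| + 1) * |t - t'| * ‖y‖ := by
      have := le_abs_self C'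
      gcongr
      linarith
    calc ‖c₀‖ * ‖logMap μ t (σ y) - logMap μ t' (σ y)‖
        ≤ ‖c₀‖ * ((Λ + |C'| + 1) * |t - t'| * ‖y‖) := by gcongr; exact h1.trans h2
      _ = _ := by ring
  · intro t y y'
    simp only
    rw [← mul_sub, norm_mul]
    have h1 := hlow t (σ y) (σ y')
    rw [← map_sub, hσ] at h1
    calc ‖c₀‖ * (c' * 1) * ‖y - y'‖ = ‖c₀‖ * (c' * ‖y - y'‖) := by ring
      _ ≤ _ := by gcongr
  · intro t y y'
    simp only
    rw [← mul_sub, norm_mul]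
    have h1 := hup t (σ y) (σ y')
    rw [← map_sub, hσ] at h1
    have h2 : Λ * ‖y - y'‖ ≤ (Λ + |C'| + 1) * ‖y - y'‖ := by
      have := abs_nonneg C'
      gcongr
      linarith
    calc ‖c₀‖ * ‖logMap μ t (σ y) - logMap μ t (σ y')‖
        ≤ ‖c₀‖ * ((Λ + |C'| + 1) * ‖y - y'‖) := by gcongr; exact h1.trans h2
      _ = _ := by ring
  · intro t y hy
    have hσy : σ y ≠ 0 := by
      intro h
      apply hy
      rw [← norm_eq_zero, ← hσ, h, norm_zero]
    have h1 := edg_famGood_conj (a := 1) (b := ‖c₀‖) σ m hc'.le hn.le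
      (fun v => by rw [hσ, one_mul]) (fun w => by rw [hmm, norm_mul]) (hgood t (σ y) hσy)
    exact h1
  · intro w
    obtain ⟨z, hz⟩ := hsurj 0 (w / c₀)
    refine ⟨σ z, ?_⟩
    rw [hHσ, hz, mul_div_cancel₀ _ hc₀]

/-! ## The local structure of an edge germ -/

private theorem edg_lin_smul {k : E3 → E3} (hk : PosHom k) {x : E3} (hx : x ∈ lin k) (s : ℝ) :
    k (s • x) = s • k x := by
  rcases le_total 0 s with h | h
  · exact hk s h x
  · have h1 : k (-s • x) = -s • k x := hk (-s) (by linarith) x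
    have h2 := (hk.mem_lin).mp ((lin k).smul_mem s hx) (-s • x)
    have h0 : k 0 = 0 := by
      have := hk 0 le_rfl 0
      simpa using this
    have h3 : -s • x + s • x = (0 : E3) := by
      rw [← add_smul]; simp
    rw [h3, h0, h1] at h2
    have h4 : k (s • x) = -(-s • k x) := by
      rw [eq_neg_iff_add_eq_zero, add_comm]
      exact h2.symm
    rw [h4]
    simp

private theorem edg_zero {X Y : Type*} [NormedAddCommGroup X] [NormedSpace ℝ X]
    [NormedAddCommGroup Y] [NormedSpace ℝ Y] {k : X → Y} (hk : PosHom k) : k 0 = 0 := by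
  have := hk 0 le_rfl 0
  simpa using this

private theorem edg_neg_part {k : E3 → E3} (hk : PosHom k) (n : E3) (b : ℝ) :
    k (b • n) = max b 0 • k n + max (-b) 0 • k (-n) := by
  rcases le_total 0 b with h | h
  · rw [max_eq_left h, max_eq_right (by linarith : -b ≤ 0), zero_smul, add_zero]
    exact hk b h n
  · rw [max_eq_right h, max_eq_left (by linarith : 0 ≤ -b), zero_smul, zero_add]
    have := hk (-b) (by linarith) (-n)
    rw [← this]
    congr 1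
    simp

/-- local form of the section of an edge germ -/
private theorem edg_section {h : E3 → E3} (hh : PosHom h) (hl : LocConic h univ)
    (φ : ℂ →L[ℝ] E3) (Ψ : E3 →L[ℝ] ℂ × ℝ) {y : ℂ} (hy : y ≠ 0) :
    ∃ R > 0, ∃ ν₁ ν₂ : ℂ × ℝ, ∀ y' ∈ ball y R,
      Ψ (h (φ y')) = (y' / y).re • Ψ (h (φ y)) + max (y' / y).im 0 • ν₁ +
        max (-(y' / y).im) 0 • ν₂ := by
  set x : E3 := φ y with hx
  obtain ⟨R₀, hR₀, -, k, hk, hkc⟩ := hl x (mem_univ _)
  have hc0 : ConicAt h 0 (‖x‖ + 1) h := by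
    intro v _
    rw [zero_add, edg_zero hh, zero_add]
  obtain ⟨-, hxk, -⟩ := lin_mono hh hk hc0 (w := x) (by linarith) hR₀ (by rwa [zero_add])
  -- the value of the germ at x
  have hkx : k x = h x := by
    set ε : ℝ := R₀ / (‖x‖ + 1) / 2 with hε
    have hε0 : 0 < ε := by positivity
    have h1 : ‖ε • x‖ < R₀ := by
      rw [norm_smul, Real.norm_of_nonneg hε0.le]
      have h2 : ε * (‖x‖ + 1) = R₀ / 2 := by
        rw [hε]; field_simp
      nlinarith [norm_nonneg x]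
    have h2 := hkc (ε • x) h1
    have h3 : x + ε • x = (1 + ε) • x := by rw [add_smul, one_smul]
    rw [h3, hh (1 + ε) (by linarith), hk ε hε0.le, add_smul, one_smul] at h2
    have h4 := add_left_cancel h2
    exact (smul_right_injective _ hε0.ne' h4).symm
  refine ⟨R₀ / (‖φ‖ + 1), by positivity, Ψ (k (φ (Complex.I * y))),
    Ψ (k (-φ (Complex.I * y))), fun y' hy' => ?_⟩
  set a : ℝ := (y' / y).re with ha
  set b : ℝ := (y' / y).im with hb
  have hy'e : y' = a • y + b • (Complex.I * y) := by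
    have h1 : y' = (y' / y) * y := by field_simp
    have h2 : (y' / y) = (a : ℂ) + (b : ℂ) * Complex.I := (Complex.re_add_im _).symm
    rw [h2] at h1
    rw [h1]
    simp only [Complex.real_smul]
    ring
  have hv : φ y' = x + (b • φ (Complex.I * y) + (a - 1) • x) := by
    conv_lhs => rw [hy'e]
    rw [map_add, map_smul, map_smul, ← hx, sub_smul, one_smul]
    abel
  have hvn : ‖b • φ (Complex.I * y) + (a - 1) • x‖ < R₀ := by
    have h1 : b • φ (Complex.I * y) + (a - 1) • x = φ (y' - y) := by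
      rw [map_sub, hv, ← hx]
      abel
    rw [h1]
    rw [mem_ball_iff_norm, lt_div_iff₀ (by positivity)] at hy'
    have := φ.le_opNorm (y' - y)
    nlinarith [norm_nonneg (y' - y)]
  have h1 := hkc _ hvn
  rw [hv, h1, (hk.mem_lin).mp ((lin k).smul_mem (a - 1) hxk), edg_lin_smul hk hxk, hkx,
    edg_neg_part hk, sub_smul, one_smul]
  simp only [map_add, map_sub, map_smul]
  abel

private theorem edg_im (y y' : ℂ) : (y' / y).im = crs y y' / Complex.normSq y := by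
  rw [Complex.div_im]
  unfold crs
  ring

/-- the linear map of a sector -/
private def edgLin (y ν₀ ν : ℂ) : ℂ →L[ℝ] ℂ :=
  (Complex.reCLM.comp (ContinuousLinearMap.mul ℝ ℂ y⁻¹)).smulRight ν₀ +
    (Complex.imCLM.comp (ContinuousLinearMap.mul ℝ ℂ y⁻¹)).smulRight ν

private theorem edgLin_apply (y ν₀ ν y' : ℂ) :
    edgLin y ν₀ ν y' = (y' / y).re • ν₀ + (y' / y).im • ν := by
  simp only [edgLin, add_apply, ContinuousLinearMap.smulRight_apply,
    ContinuousLinearMap.comp_apply, ContinuousLinearMap.mul_apply', Complex.reCLM_apply,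
    Complex.imCLM_apply]
  rw [div_eq_inv_mul]

private theorem edg_inj {H : ℂ → ℂ} (hinj : Function.Injective H) {y : ℂ} {R : ℝ} (hR : 0 < R)
    {A : ℂ →L[ℝ] ℂ} {s : ℝ} (h : ∀ y' ∈ ball y R, 0 ≤ s * crs y y' → H y' = A y') (v : ℂ)
    (hv : A v = 0) : v = 0 := by
  -- we may choose the sign of v
  obtain ⟨w, hw, hAw, hsw⟩ : ∃ w : ℂ, (w = 0 → v = 0) ∧ A w = 0 ∧ 0 ≤ s * crs y w := by
    rcases le_total 0 (s * crs y v) with h1 | h1
    · exact ⟨v, id, hv, h1⟩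
    · refine ⟨-v, fun h => neg_eq_zero.mp h, by rw [map_neg, hv, neg_zero], ?_⟩
      have : crs y (-v) = -crs y v := by unfold crs; simp; ring
      rw [this]
      linarith
  apply hw
  have hyy : crs y y = 0 := by unfold crs; ring
  set t : ℝ := R / (‖w‖ + 1) / 2 with ht
  have ht0 : 0 < t := by positivity
  have h1 : y + t • w ∈ ball y R := by
    rw [mem_ball_iff_norm, add_sub_cancel_left, norm_smul, Real.norm_of_nonneg ht0.le]
    have h2 : t * (‖w‖ + 1) = R / 2 := by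
      rw [ht]; field_simp
    nlinarith [norm_nonneg w]
  have h2 : crs y (y + t • w) = t * crs y w := by
    unfold crs
    simp only [Complex.add_re, Complex.add_im, Complex.real_smul, Complex.mul_re, Complex.mul_im,
      Complex.ofReal_re, Complex.ofReal_im]
    ring
  have h3 := h _ h1 (by rw [h2]; nlinarith)
  have h4 := h y (mem_ball_self hR) (by rw [hyy, mul_zero])
  rw [map_add, map_smul, hAw, smul_zero, add_zero, ← h4] at h3
  have h5 := hinj h3
  rw [add_eq_left] at h5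
  exact (smul_eq_zero.mp h5).resolve_left ht0.ne'

private theorem edg_functional (w : ℂ) {s D : ℝ} (hs : |s| ≤ D * ‖w‖) (hD : 0 ≤ D) :
    ∃ q : ℂ →L[ℝ] ℝ, ‖q‖ ≤ D ∧ q w = s := by
  by_cases hw : w = 0
  · subst hw
    rw [norm_zero, mul_zero] at hs
    refine ⟨0, by simpa using hD, ?_⟩
    rw [map_zero]
    exact (abs_nonpos_iff.mp hs).symm
  · obtain ⟨g, hg1, hg2⟩ := exists_dual_vector ℝ w (norm_ne_zero_iff.mpr hw)
    have hwn : 0 < ‖w‖ := norm_pos_iff.mpr hw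
    refine ⟨(s / ‖w‖) • g, ?_, ?_⟩
    · rw [norm_smul, hg1, mul_one, norm_div, Real.norm_eq_abs, norm_norm,
        div_le_iff₀ hwn]
      exact hs
    · rw [smul_apply, hg2]
      simp only [smul_eq_mul]
      rw [div_mul_eq_mul_div, div_eq_iff hwn.ne']
      simp

/-! ## Block families -/

/-- the block matrices over a planar family -/
private def edgBlock : (ℂ →L[ℝ] ℂ) × (ℂ →L[ℝ] ℝ) →L[ℝ] (ℂ × ℝ →L[ℝ] ℂ × ℝ) :=
  ((ContinuousLinearMap.compL ℝ (ℂ × ℝ) ℂ (ℂ × ℝ)) (ContinuousLinearMap.inl ℝ ℂ ℝ)).comp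
      ((((ContinuousLinearMap.compL ℝ (ℂ × ℝ) ℂ ℂ).flip (ContinuousLinearMap.fst ℝ ℂ ℝ))).comp
        (ContinuousLinearMap.fst ℝ _ _)) +
    ((ContinuousLinearMap.compL ℝ (ℂ × ℝ) ℝ (ℂ × ℝ)) (ContinuousLinearMap.inr ℝ ℂ ℝ)).comp
      ((((ContinuousLinearMap.compL ℝ (ℂ × ℝ) ℂ ℝ).flip (ContinuousLinearMap.fst ℝ ℂ ℝ))).comp
        (ContinuousLinearMap.snd ℝ _ _))

private theorem edgBlock_apply (M : ℂ →L[ℝ] ℂ) (q : ℂ →L[ℝ] ℝ) (v : ℂ × ℝ) :
    edgBlock (M, q) v = (M v.1, q v.1) := by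
  simp [edgBlock]

private theorem edg_block_good {Ht : ℝ → ℂ → ℂ} {d : ℂ → ℝ} {θ : ℝ → ℝ} {c D t : ℝ} {y : ℂ}
    {z : ℝ} (hc : 0 < c) (hD : 0 ≤ D) (hd : ∀ y y', ‖d y - d y'‖ ≤ D * ‖y - y'‖)
    (hθ : ∀ t, |θ t| ≤ 1) (hg : FamGood c Ht t y) :
    FamGood (c / (c + 1 + D)) (fun t (q : ℂ × ℝ) => (Ht t q.1, q.2 + θ t * d q.1)) t (y, z) := by
  obtain ⟨K, hK, r, hr, hev⟩ := hg
  refine ⟨edgBlock '' (K ×ˢ closedBall 0 D) +
    {(ContinuousLinearMap.inr ℝ ℂ ℝ).comp (ContinuousLinearMap.snd ℝ ℂ ℝ)}, ⟨?_, ?_, ?_⟩, r, hr,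
    ?_⟩
  · exact ((hK.convex.prod (convex_closedBall 0 D)).linear_image edgBlock.toLinearMap).add
      (convex_singleton _)
  · exact ((hK.compact.prod (isCompact_closedBall 0 D)).image edgBlock.continuous).add
      isCompact_singleton
  · rintro _ ⟨_, ⟨⟨M, q⟩, ⟨hM, hq⟩, rfl⟩, _, rfl, rfl⟩ v
    simp only [add_apply, edgBlock_apply, ContinuousLinearMap.comp_apply,
      ContinuousLinearMap.inr_apply, ContinuousLinearMap.coe_snd', Prod.mk_add_mk, add_zero]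
    rw [Prod.norm_def, Prod.norm_def]
    apply edg_low hc hD (le_trans (norm_nonneg _) (le_max_left _ _))
    · exact (hK.lower M hM v.1).trans (le_max_left _ _)
    · simp only [mem_closedBall, dist_zero_right] at hq
      have h1 : ‖q v.1‖ ≤ D * ‖v.1‖ := (q.le_opNorm v.1).trans (by gcongr)
      have h2 : ‖v.2‖ ≤ ‖q v.1 + v.2‖ + ‖q v.1‖ := by
        have := norm_sub_le (q v.1 + v.2) (q v.1)
        rwa [add_sub_cancel_left] at this
      exact h2.trans (add_le_add (le_max_right _ _) h1)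
  · filter_upwards [hev] with t' ht'
    rintro ⟨y₁, z₁⟩ h₁ ⟨y₂, z₂⟩ h₂
    rw [← ball_prod_same] at h₁ h₂
    obtain ⟨M, hM, hMy⟩ := ht' y₁ h₁.1 y₂ h₂.1
    obtain ⟨q, hq, hqy⟩ := edg_functional (y₁ - y₂) (s := θ t' * (d y₁ - d y₂)) (D := D) (by
      rw [abs_mul]
      have h3 := hd y₁ y₂
      rw [Real.norm_eq_abs] at h3
      calc |θ t'| * |d y₁ - d y₂| ≤ 1 * (D * ‖y₁ - y₂‖) := by
            apply mul_le_mul (hθ t') h3 (abs_nonneg _) zero_le_one
        _ = _ := one_mul _) hD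
    refine ⟨_, ⟨edgBlock (M, q), ⟨(M, q), ⟨hM, by simpa using hq⟩, rfl⟩, _, rfl, rfl⟩, ?_⟩
    simp only [add_apply, edgBlock_apply, ContinuousLinearMap.comp_apply,
      ContinuousLinearMap.inr_apply, ContinuousLinearMap.coe_snd', Prod.mk_add_mk, add_zero,
      Prod.mk_sub_mk]
    rw [hMy, hqy]
    congr 1
    ring

private def edgClamp (t : ℝ) : ℝ := 1 - max 0 (min 1 t)

private theorem edgClamp_abs (t : ℝ) : |edgClamp t| ≤ 1 := by
  unfold edgClamp
  have h1 : 0 ≤ max 0 (min 1 t) := le_max_left _ _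
  have h2 : max 0 (min 1 t) ≤ 1 := max_le zero_le_one (min_le_left _ _)
  rw [abs_le]
  constructor <;> linarith

private theorem edgClamp_lip (t t' : ℝ) : |edgClamp t - edgClamp t'| ≤ |t - t'| := by
  unfold edgClamp
  have h1 : (1 - max 0 (min 1 t)) - (1 - max 0 (min 1 t')) =
      max 0 (min 1 t') - max 0 (min 1 t) := by ring
  rw [h1]
  have h2 := abs_max_sub_max_le_abs (min 1 t') (min 1 t) 0
  have h3 := abs_min_sub_min_le_max 1 t' 1 t
  rw [max_comm 0, max_comm 0]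
  refine h2.trans (h3.trans ?_)
  rw [sub_self, abs_zero, max_eq_right (abs_nonneg _), abs_sub_comm]

private theorem edg_iso {a : E3} (ha : a ≠ 0) : ∃ Φ : E3 ≃L[ℝ] ℂ × ℝ, Φ a = (0, 1) := by
  have h1 : Module.finrank ℝ E3 = Module.finrank ℝ (ℂ × ℝ) := by
    rw [Module.finrank_prod, Complex.finrank_real_complex]
    simp
  set T := ContinuousLinearEquiv.ofFinrankEq h1
  have hT : T a ≠ 0 := by
    intro h
    apply ha
    simpa using h
  have h01 : ((0 : ℂ), (1 : ℝ)) ≠ 0 := by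
    intro h
    have := congrArg Prod.snd h
    simp at this
  obtain ⟨A, hA⟩ := SeparatingDual.exists_continuousLinearEquiv_apply_eq (R := ℝ) hT h01
  exact ⟨T.trans A, hA⟩

theorem exists_edgePath {h : E3 → E3} (hh : PosHom h) (hc : Continuous h)
    (hinj : Function.Injective h) (hl : LocConic h univ) (hr : Module.finrank ℝ (lin h) = 1) :
    ∃ hp c C, EdgePath h hp c C := by
  obtain ⟨⟨e, he⟩, he0, hspan⟩ := finrank_eq_one_iff'.mp hr
  have he0' : e ≠ 0 := fun h => he0 (Subtype.ext h)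
  have hspan' : ∀ l ∈ lin h, ∃ s : ℝ, l = s • e := by
    intro l hl
    obtain ⟨s, hs⟩ := hspan ⟨l, hl⟩
    exact ⟨s, (congrArg Subtype.val hs).symm⟩
  have h0 := edg_zero hh
  have hhe : h e ≠ 0 := by
    intro h1
    exact he0' (hinj (h1.trans h0.symm))
  obtain ⟨Φ, hΦ⟩ := edg_iso he0'
  obtain ⟨Ψ, hΨ⟩ := edg_iso hhe
  have hadd : ∀ (x : E3) (s : ℝ), h (x + s • e) = h x + s • h e := by
    intro x s
    rw [(hh.mem_lin).mp ((lin h).smul_mem s he) x, edg_lin_smul hh he]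
  -- the section
  set φ : ℂ →L[ℝ] E3 := (Φ.symm : ℂ × ℝ →L[ℝ] E3).comp (ContinuousLinearMap.inl ℝ ℂ ℝ) with hφ
  have hφa : ∀ y, φ y = Φ.symm (y, 0) := fun y => rfl
  set G : ℂ → ℂ × ℝ := fun y => Ψ (h (φ y)) with hG
  have hGc : Continuous G := Ψ.continuous.comp (hc.comp φ.continuous)
  have hGh : PosHom G := by
    intro a ha y
    simp only [hG]
    rw [map_smul, hh a ha, map_smul]
  have hGf : ∀ x, Ψ (h x) = G (Φ x).1 + (0, (Φ x).2) := by
    intro x
    have h1 : x = φ (Φ x).1 + (Φ x).2 • e := by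
      apply Φ.injective
      rw [map_add, map_smul, hΦ, hφa, ContinuousLinearEquiv.apply_symm_apply]
      ext <;> simp
    conv_lhs => rw [h1, hadd, map_add, map_smul, hΨ]
    simp [hG]
  set H : ℂ → ℂ := fun y => (G y).1 with hH
  set d : ℂ → ℝ := fun y => (G y).2 with hd
  have hHh : PosHom H := fun a ha y => by simp only [hH, hGh a ha y, Prod.smul_fst]
  have hdh : PosHom d := fun a ha y => by simp only [hd, hGh a ha y, Prod.smul_snd]
  have hfe : ∀ x, h x = Ψ.symm (H (Φ x).1, (Φ x).2 + d (Φ x).1) := by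
    intro x
    rw [ContinuousLinearEquiv.eq_symm_apply, hGf]
    ext <;> simp [hH, hd, add_comm]
  have hHinj : Function.Injective H := by
    intro y y' hyy
    have h1 : h (Φ.symm (y, d y' - d y)) = h (Φ.symm (y', 0)) := by
      rw [hfe, hfe]
      simp only [ContinuousLinearEquiv.apply_symm_apply]
      rw [hyy]
      congr 2
      ring
    have h2 := Φ.symm.injective (hinj h1)
    exact congrArg Prod.fst h2
  have hsec := fun (y : ℂ) (hy : y ≠ 0) => edg_section hh hl φ (Ψ : E3 →L[ℝ] ℂ × ℝ) hy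
  have hHlin : ∀ y : ℂ, y ≠ 0 → ∃ R > 0, ∃ A₁ A₂ : ℂ →L[ℝ] ℂ, (∀ v, A₁ v = 0 → v = 0) ∧
      (∀ v, A₂ v = 0 → v = 0) ∧ ∀ y' ∈ ball y R, (0 ≤ crs y y' → H y' = A₁ y') ∧
        (crs y y' ≤ 0 → H y' = A₂ y') := by
    intro y hy
    obtain ⟨R, hR, ν₁, ν₂, hν⟩ := hsec y hy
    have hns : 0 < Complex.normSq y := Complex.normSq_pos.mpr hy
    have c1 : ∀ y' ∈ ball y R, 0 ≤ crs y y' → H y' = edgLin y (H y) ν₁.1 y' := by
      intro y' hy' hcr
      have h1 : 0 ≤ (y' / y).im := by rw [edg_im]; positivity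
      have h2 := congrArg Prod.fst (hν y' hy')
      rw [max_eq_left h1, max_eq_right (by linarith : -(y' / y).im ≤ 0)] at h2
      rw [edgLin_apply]
      simpa [hH, hG] using h2
    have c2 : ∀ y' ∈ ball y R, crs y y' ≤ 0 → H y' = edgLin y (H y) (-ν₂.1) y' := by
      intro y' hy' hcr
      have h1 : (y' / y).im ≤ 0 := by
        rw [edg_im]
        exact div_nonpos_of_nonpos_of_nonneg hcr hns.le
      have h2 := congrArg Prod.fst (hν y' hy')
      rw [max_eq_right h1, max_eq_left (by linarith : 0 ≤ -(y' / y).im)] at h2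
      rw [edgLin_apply]
      simpa [hH, hG] using h2
    refine ⟨R, hR, edgLin y (H y) ν₁.1, edgLin y (H y) (-ν₂.1), ?_, ?_, fun y' hy' =>
      ⟨c1 y' hy', c2 y' hy'⟩⟩
    · exact edg_inj hHinj hR (s := 1) (fun y' hy' hs => c1 y' hy' (by linarith))
    · exact edg_inj hHinj hR (s := -1) (fun y' hy' hs => c2 y' hy' (by linarith))
  obtain ⟨Ht, c, Λ, A, hc0, hΛ0, hleft, hright, hhom, hlipt, hlow, hup, hgood, hsurj⟩ :=
    edg_planar hHh (continuous_fst.comp hGc) hHinj hHlin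
  -- Lipschitz bound for the height
  obtain ⟨D, hD0, hDl⟩ : ∃ D > 0, ∀ y y', ‖d y - d y'‖ ≤ D * ‖y - y'‖ := by
    apply posHom_lipschitz hdh
    intro y hy
    obtain ⟨R, hR, ν₁, ν₂, hν⟩ := hsec y hy
    have hyn : 0 < ‖y‖ := norm_pos_iff.mpr hy
    refine ⟨(|d y| + |ν₁.2| + |ν₂.2|) / ‖y‖, R, hR, fun y₁ h₁ y₂ h₂ => ?_⟩
    have e1 := congrArg Prod.snd (hν y₁ h₁)
    have e2 := congrArg Prod.snd (hν y₂ h₂)
    have e3 : d y₁ - d y₂ = ((y₁ / y).re - (y₂ / y).re) * d y +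
        (max (y₁ / y).im 0 - max (y₂ / y).im 0) * ν₁.2 +
        (max (-(y₁ / y).im) 0 - max (-(y₂ / y).im) 0) * ν₂.2 := by
      have e1' : d y₁ = (y₁ / y).re * d y + max (y₁ / y).im 0 * ν₁.2 +
          max (-(y₁ / y).im) 0 * ν₂.2 := by simpa [hd, hG] using e1
      have e2' : d y₂ = (y₂ / y).re * d y + max (y₂ / y).im 0 * ν₁.2 +
          max (-(y₂ / y).im) 0 * ν₂.2 := by simpa [hd, hG] using e2
      rw [e1', e2']
      ring
    have hq : ‖(y₁ / y) - (y₂ / y)‖ = ‖y₁ - y₂‖ / ‖y‖ := by rw [← sub_div, norm_div]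
    have f1 : |(y₁ / y).re - (y₂ / y).re| ≤ ‖y₁ - y₂‖ / ‖y‖ := by
      rw [← hq, ← Complex.sub_re]
      exact Complex.abs_re_le_norm _
    have f0 : |(y₁ / y).im - (y₂ / y).im| ≤ ‖y₁ - y₂‖ / ‖y‖ := by
      rw [← hq, ← Complex.sub_im]
      exact Complex.abs_im_le_norm _
    have f2 : |max (y₁ / y).im 0 - max (y₂ / y).im 0| ≤ ‖y₁ - y₂‖ / ‖y‖ :=
      (abs_max_sub_max_le_abs _ _ _).trans f0
    have f3 : |max (-(y₁ / y).im) 0 - max (-(y₂ / y).im) 0| ≤ ‖y₁ - y₂‖ / ‖y‖ := by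
      refine (abs_max_sub_max_le_abs _ _ _).trans ?_
      rw [← abs_neg]
      have : -(-(y₁ / y).im - -(y₂ / y).im) = (y₁ / y).im - (y₂ / y).im := by ring
      rw [this]
      exact f0
    rw [Real.norm_eq_abs, e3]
    calc _ ≤ |((y₁ / y).re - (y₂ / y).re) * d y| +
          |(max (y₁ / y).im 0 - max (y₂ / y).im 0) * ν₁.2| +
          |(max (-(y₁ / y).im) 0 - max (-(y₂ / y).im) 0) * ν₂.2| := abs_add_three _ _ _
      _ ≤ ‖y₁ - y₂‖ / ‖y‖ * |d y| + ‖y₁ - y₂‖ / ‖y‖ * |ν₁.2| + ‖y₁ - y₂‖ / ‖y‖ * |ν₂.2| := by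
          rw [abs_mul, abs_mul, abs_mul]
          gcongr
      _ = _ := by ring
  have hd0 : d 0 = 0 := edg_zero hdh
  obtain ⟨a₁, ha₁, hΦl⟩ := edg_equiv_lower Φ
  obtain ⟨a₂, ha₂, hΦu⟩ := edg_clm_upper (Φ : E3 →L[ℝ] ℂ × ℝ)
  obtain ⟨b₁, hb₁, hΨl⟩ := edg_equiv_lower Ψ.symm
  obtain ⟨b₂, hb₂, hΨu⟩ := edg_clm_upper (Ψ.symm : ℂ × ℝ →L[ℝ] E3)
  set gt : ℝ → ℂ × ℝ → ℂ × ℝ := fun t q => (Ht t q.1, q.2 + edgClamp t * d q.1) with hgt
  set κ : ℝ := c / (c + 1 + D) with hκ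
  have hκ0 : 0 < κ := by positivity
  have hgadd : ∀ t (q : ℂ × ℝ) (s : ℝ), gt t (q + (0, s)) = gt t q + (0, s) := by
    intro t q s
    simp only [hgt]
    refine Prod.ext ?_ ?_
    · simp
    · simp only [Prod.fst_add, Prod.snd_add, add_zero]
      ring
  have hgzero : ∀ t, t ≤ 0 → ∀ x, Ψ.symm (gt t (Φ x)) = h x := by
    intro t ht x
    have h1 : edgClamp t = 1 := by
      unfold edgClamp
      rw [min_eq_right (by linarith), max_eq_left ht, sub_zero]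
    simp only [hgt]
    rw [hleft t ht, h1, one_mul, ← hfe]
  have hglip : ∀ t q q', ‖gt t q - gt t q'‖ ≤ (Λ + 1 + D) * ‖q - q'‖ := by
    intro t q q'
    have h1 := hup t q.1 q'.1
    have h2 : ‖q.1 - q'.1‖ ≤ ‖q - q'‖ := norm_fst_le (q - q')
    have h3 : ‖q.2 - q'.2‖ ≤ ‖q - q'‖ := norm_snd_le (q - q')
    have h4 := hDl q.1 q'.1
    rw [Prod.norm_def]
    apply max_le
    · show ‖Ht t q.1 - Ht t q'.1‖ ≤ _
      nlinarith [norm_nonneg (q.1 - q'.1), norm_nonneg (q - q')]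
    · show ‖(q.2 + edgClamp t * d q.1) - (q'.2 + edgClamp t * d q'.1)‖ ≤ _
      have h5 : (q.2 + edgClamp t * d q.1) - (q'.2 + edgClamp t * d q'.1) =
          (q.2 - q'.2) + edgClamp t * (d q.1 - d q'.1) := by ring
      rw [h5]
      have h6 : ‖edgClamp t * (d q.1 - d q'.1)‖ ≤ 1 * (D * ‖q.1 - q'.1‖) := by
        rw [norm_mul]
        exact mul_le_mul (edgClamp_abs t) h4 (norm_nonneg _) zero_le_one
      have h7 := norm_add_le (q.2 - q'.2) (edgClamp t * (d q.1 - d q'.1))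
      nlinarith [norm_nonneg (q - q')]
  have hglow : ∀ t q q', κ * ‖q - q'‖ ≤ ‖gt t q - gt t q'‖ := by
    intro t q q'
    have h1 := hlow t q.1 q'.1
    have h4 := hDl q.1 q'.1
    rw [Prod.norm_def (q - q')]
    apply edg_low hc0 hD0.le (norm_nonneg _)
    · exact h1.trans (norm_fst_le (gt t q - gt t q'))
    · have h5 : q.2 - q'.2 = ((q.2 + edgClamp t * d q.1) - (q'.2 + edgClamp t * d q'.1)) -
          edgClamp t * (d q.1 - d q'.1) := by ring
      have h6 : ‖edgClamp t * (d q.1 - d q'.1)‖ ≤ 1 * (D * ‖q.1 - q'.1‖) := by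
        rw [norm_mul]
        exact mul_le_mul (edgClamp_abs t) h4 (norm_nonneg _) zero_le_one
      have h7 : ‖(q.2 + edgClamp t * d q.1) - (q'.2 + edgClamp t * d q'.1)‖ ≤
          ‖gt t q - gt t q'‖ := norm_snd_le (gt t q - gt t q')
      show ‖q.2 - q'.2‖ ≤ _ + D * ‖q.1 - q'.1‖
      rw [h5]
      refine (norm_sub_le _ _).trans ?_
      linarith
  have hglipt : ∀ t t' q, ‖gt t q - gt t' q‖ ≤ (Λ + D) * |t - t'| * ‖q‖ := by
    intro t t' q
    have h1 := hlipt t t' q.1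
    have h2 : ‖q.1‖ ≤ ‖q‖ := norm_fst_le q
    have h3 := edgClamp_lip t t'
    have h4 := hDl q.1 0
    rw [hd0, sub_zero, sub_zero] at h4
    rw [Prod.norm_def]
    apply max_le
    · show ‖Ht t q.1 - Ht t' q.1‖ ≤ _
      refine h1.trans ?_
      gcongr
      linarith
    · show ‖(q.2 + edgClamp t * d q.1) - (q.2 + edgClamp t' * d q.1)‖ ≤ _
      have h5 : (q.2 + edgClamp t * d q.1) - (q.2 + edgClamp t' * d q.1) =
          (edgClamp t - edgClamp t') * d q.1 := by ring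
      rw [h5, norm_mul, Real.norm_eq_abs]
      calc |edgClamp t - edgClamp t'| * ‖d q.1‖ ≤ |t - t'| * (D * ‖q‖) := by
            apply mul_le_mul h3 (h4.trans (by gcongr)) (norm_nonneg _) (abs_nonneg _)
        _ = D * |t - t'| * ‖q‖ := by ring
        _ ≤ _ := by gcongr; linarith
  refine ⟨fun t x => Ψ.symm (gt t (Φ x)), b₁ * (κ * a₁), b₂ * (Λ + 1 + D) * a₂,
    ⟨by positivity, by positivity, ?_, ?_, ?_, ?_, ?_, ?_, ?_, ?_, ?_⟩⟩
  · intro t ht
    funext x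
    exact hgzero t ht x
  · refine ⟨(Ψ.symm : ℂ × ℝ →L[ℝ] E3).comp (((A.comp (ContinuousLinearMap.fst ℝ ℂ ℝ)).prod
      (ContinuousLinearMap.snd ℝ ℂ ℝ)).comp (Φ : E3 →L[ℝ] ℂ × ℝ)), fun t ht => ?_⟩
    funext x
    have h1 : edgClamp t = 0 := by
      unfold edgClamp
      rw [min_eq_left ht, max_eq_right zero_le_one, sub_self]
    simp only [hgt]
    rw [hright t ht, h1]
    simp
  · intro t a ha x
    simp only [hgt]
    rw [← map_smul]
    congr 1
    rw [map_smul]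
    refine Prod.ext ?_ ?_
    · simp only [Prod.smul_fst, hhom t a ha]
    · simp only [Prod.smul_fst, Prod.smul_snd, hdh a ha, smul_eq_mul]
      ring
  · intro t l hl x
    obtain ⟨s, rfl⟩ := hspan' l hl
    have h1 : Φ (x + s • e) = Φ x + (0, s) := by
      rw [map_add, map_smul, hΦ]
      simp
    have h2 : h (s • e) = Ψ.symm (0, s) := by
      rw [edg_lin_smul hh he, ContinuousLinearEquiv.eq_symm_apply, map_smul, hΨ]
      simp
    rw [h1, hgadd, map_add, h2]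
  · intro t t' x l hl
    obtain ⟨s, rfl⟩ := hspan' l hl
    have h1 : Φ x = Φ (x - s • e) + (0, s) := by
      have : Φ x = Φ ((x - s • e) + s • e) := by rw [sub_add_cancel]
      rw [this, map_add, map_smul Φ s e, hΦ]
      simp
    rw [h1, hgadd, hgadd, ← map_sub, add_sub_add_right_eq_sub]
    have h2 := hΨu (gt t (Φ (x - s • e)) - gt t' (Φ (x - s • e)))
    have h3 := hglipt t t' (Φ (x - s • e))
    have h4 := hΦu (x - s • e)
    have h5 : 0 ≤ |t - t'| := abs_nonneg _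
    calc _ ≤ b₂ * ((Λ + D) * |t - t'| * (a₂ * ‖x - s • e‖)) := by
          refine h2.trans ?_
          gcongr
          refine h3.trans ?_
          gcongr
          exact h4
      _ = b₂ * (Λ + D) * a₂ * |t - t'| * ‖x - s • e‖ := by ring
      _ ≤ _ := by gcongr; linarith
  · intro t x x'
    rw [← map_sub]
    have h2 := hΨu (gt t (Φ x) - gt t (Φ x'))
    have h3 := hglip t (Φ x) (Φ x')
    have h4 := hΦu (x - x')
    calc _ ≤ b₂ * ((Λ + 1 + D) * (a₂ * ‖x - x'‖)) := by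
          refine h2.trans ?_
          gcongr
          refine h3.trans ?_
          gcongr
          rw [← map_sub]
          exact h4
      _ = _ := by ring
  · intro t x x'
    rw [← map_sub]
    have h2 := hΨl (gt t (Φ x) - gt t (Φ x'))
    have h3 := hglow t (Φ x) (Φ x')
    have h4 := hΦl (x - x')
    rw [map_sub] at h4
    calc b₁ * (κ * a₁) * ‖x - x'‖ = b₁ * (κ * (a₁ * ‖x - x'‖)) := by ring
      _ ≤ b₁ * (κ * ‖Φ x - Φ x'‖) := by gcongr
      _ ≤ b₁ * ‖gt t (Φ x) - gt t (Φ x')‖ := by gcongr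
      _ ≤ _ := h2
  · intro t x hx
    have hy : (Φ x).1 ≠ 0 := by
      intro h1
      apply hx
      have h2 : x = (Φ x).2 • e := by
        apply Φ.injective
        rw [map_smul, hΦ]
        refine Prod.ext ?_ ?_
        · simp [h1]
        · simp
      rw [h2]
      exact (lin h).smul_mem _ he
    have h1 := edg_block_good (z := (Φ x).2) hc0 hD0.le hDl edgClamp_abs (hgood t (Φ x).1 hy)
    exact edg_famGood_conj (Φ : E3 →L[ℝ] ℂ × ℝ) (Ψ.symm : ℂ × ℝ →L[ℝ] E3) hκ0.le hb₁.le hΦl hΨl h1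
  · intro w
    obtain ⟨y, hy⟩ := hsurj (Ψ w).1
    refine ⟨Φ.symm (y, (Ψ w).2 - d y), ?_⟩
    rw [hfe, ContinuousLinearEquiv.symm_apply_eq]
    simp only [ContinuousLinearEquiv.apply_symm_apply]
    rw [hy]
    ext <;> simp

end SM
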