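import Pool.Agent.SM.Defs
import Pool.Agent.SM.Cst
import Pool.Agent.SM.Cut
import Pool.Agent.SM.Grm
import Pool.Agent.SM.Sta
import Pool.Agent.SM.Edg

/-!
# Project SM, module TUB
-/

open Set Metric Filter Topology MeasureTheory
open scoped ContDiff Pointwise

noncomputable section

namespace SM

variable {f : E3 → E3} {Ω : Set E3} {B : E3 → ℝ}

theorem edgePath_of {h : E3 → E3} (hh : PosHom h) (hc : Continuous h)
    (hinj : Function.Injective h) (hl : LocConic h univ) (hr : Module.finrank ℝ (lin h) = 1) :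
    EdgePath h (hpOf h) (cOf h) (COf h) := by
  obtain ⟨hp, c, C, H⟩ := exists_edgePath hh hc hinj hl hr
  have H' : ∃ q : (ℝ → E3 → E3) × ℝ × ℝ, EdgePath h q.1 q.2.1 q.2.2 := ⟨(hp, c, C), H⟩
  unfold hpOf cOf COf pathOf
  rw [dif_pos H']
  exact H'.choose_spec

/-- the edge path of the germ at an edge point -/
theorem edgePath_germ (hf : LocConic f Ω) (hinj : InjOn f Ω) (hΩ : IsOpen Ω)
    (hc : ContinuousOn f Ω) {e : E3} (he : e ∈ Es f Ω) :
    EdgePath (germ f e) (hpOf (germ f e)) (cOf (germ f e)) (COf (germ f e)) :=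
  edgePath_of (hf.germ_spec he.1).1 (germ_continuous hf hΩ hc he.1)
    (germ_injective hf hinj he.1) (hf.germ_locConic he.1) he.2

/-- the foot of a point on a line -/
theorem exists_foot (L : Submodule ℝ E3) (y : E3) :
    ∃ l ∈ L, (∀ m ∈ L, inner ℝ (y - l) m = 0) ∧ infDist y (L : Set E3) = ‖y - l‖ ∧ ‖l‖ ≤ ‖y‖ := by
  refine ⟨L.starProjection y, L.starProjection_apply_mem y, ?_, ?_, ?_⟩
  · intro m hm
    exact Submodule.starProjection_inner_eq_zero y m hm
  · apply le_antisymm
    · have := infDist_le_dist_of_mem (x := y) (L.starProjection_apply_mem y)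
      rwa [dist_eq_norm] at this
    · refine (le_infDist ⟨0, L.zero_mem⟩).2 fun m hm => ?_
      rw [dist_eq_norm]
      have h1 : inner ℝ (y - L.starProjection y) (L.starProjection y - m) = 0 :=
        Submodule.starProjection_inner_eq_zero y _ (L.sub_mem (L.starProjection_apply_mem y) hm)
      have h2 := norm_add_sq_eq_norm_sq_add_norm_sq_of_inner_eq_zero _ _ h1
      rw [sub_add_sub_cancel] at h2
      nlinarith [norm_nonneg (y - m), norm_nonneg (y - L.starProjection y),
        norm_nonneg (L.starProjection y - m)]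
  · have h1 : inner ℝ (y - L.starProjection y) (L.starProjection y) = 0 :=
      Submodule.starProjection_inner_eq_zero y _ (L.starProjection_apply_mem y)
    have h2 := norm_add_sq_eq_norm_sq_add_norm_sq_of_inner_eq_zero _ _ h1
    rw [sub_add_cancel] at h2
    nlinarith [norm_nonneg y, norm_nonneg (y - L.starProjection y),
      norm_nonneg (L.starProjection y)]

theorem foot_unique (L : Submodule ℝ E3) {y l l' : E3} (hl : l ∈ L) (hl' : l' ∈ L)
    (h : ∀ m ∈ L, inner ℝ (y - l) m = 0) (h' : ∀ m ∈ L, inner ℝ (y - l') m = 0) : l = l' := by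
  have h1 : l' - l ∈ L := L.sub_mem hl' hl
  have h2 := h _ h1
  have h3 := h' _ h1
  have h4 : inner ℝ (l' - l) (l' - l) = 0 := by
    have : l' - l = (y - l) - (y - l') := by abel
    conv_lhs => rw [this, inner_sub_left]
    rw [this] at h2 h3
    rw [h2, h3, sub_zero]
  have h5 := inner_self_eq_zero.1 h4
  exact (sub_eq_zero.1 h5).symm

theorem TubeFun.le (hB : TubeFun f Ω B) (p e : E3) : B p ≤ B e + ‖p - e‖ / 8 := by
  have h1 := hB.lip.dist_le_mul p e
  rw [Real.dist_eq, dist_eq_norm] at h1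
  have h2 := le_abs_self (B p - B e)
  have h3 : (((1 / 8 : NNReal)) : ℝ) = 1 / 8 := by norm_num
  rw [h3] at h1
  linarith

theorem inTube_bounds (hB : TubeFun f Ω B) {p e : E3} (h : InTube f Ω B p e) :
    0 < B p ∧ B p < 8 / 7 * B e ∧ 2 * B p < NOf (germ f e) * B e := by
  have h1 := h.2.2
  have h2 := norm_nonneg (p - e)
  have h3 := hB.le p e
  have h4 : 0 < B p := by linarith
  have h5 : B p < 8 / 7 * B e := by linarith
  refine ⟨h4, h5, ?_⟩
  have h6 := NOf_ge (germ f e)
  nlinarith

theorem inTube_mem (hB : TubeFun f Ω B) {p e : E3} (h : InTube f Ω B p e) : p ∈ Ω := by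
  have h1 := inTube_bounds hB h
  apply (hB.conic e h.1).1
  rw [mem_ball, dist_eq_norm]
  linarith [h.2.2]

theorem inTube_unique (hf : LocConic f Ω) (hB : TubeFun f Ω B) {p e e' : E3}
    (hp : p ∈ Ω) (h : InTube f Ω B p e) (h' : InTube f Ω B p e') : e = e' := by
  have h1 := inTube_bounds hB h
  have hw : ‖e' - e‖ < NOf (germ f e) * B e := by
    have h2 : ‖e' - e‖ ≤ ‖p - e‖ + ‖p - e'‖ := by
      have := norm_sub_le (p - e) (p - e')
      rwa [sub_sub_sub_cancel_left] at this
    linarith [h.2.2, h'.2.2]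
  have hcon := hB.conic e h.1
  have h3 : e' - e ∈ lin (germ f e) := by
    rw [← edge_iff hf h.1 hcon.1 hcon.2 hw, add_sub_cancel]
    exact h'.1
  have h4 : germ f e' = germ f e := by
    have := edge_germ hf h.1 hcon.1 hcon.2 hw h3
    rwa [add_sub_cancel] at this
  have h5 := foot_unique (lin (germ f e)) (y := p - e) (l := 0) (l' := e' - e)
    (Submodule.zero_mem _) h3 (fun m hm => by
      rw [sub_zero]
      exact h.2.1 m hm) (fun m hm => by
      have h6 := h'.2.1 m (by rw [h4]; exact hm)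
      have h7 : p - e - (e' - e) = p - e' := by abel
      rw [h7]
      exact h6)
  have h6 : e' - e = 0 := h5.symm
  exact (sub_eq_zero.1 h6).symm

theorem hatMap_eq_of_inTube (hf : LocConic f Ω) (hB : TubeFun f Ω B) {p e : E3}
    (h : InTube f Ω B p e) : hatMap f Ω B p = f e + hpOf (germ f e)
      (cut (MOf (germ f e)) (‖p - e‖ / B p)) (p - e) := by
  have H : ∃ e, InTube f Ω B p e := ⟨e, h⟩
  have h1 : H.choose = e := inTube_unique hf hB (inTube_mem hB h) H.choose_spec h
  unfold hatMap
  rw [dif_pos H, h1]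

theorem hatMap_local (hf : LocConic f Ω) (hinj : InjOn f Ω) (hΩ : IsOpen Ω)
    (hc : ContinuousOn f Ω) (hB : TubeFun f Ω B) {e p : E3} (he : e ∈ Es f Ω)
    (hp : p ∈ ball e (NOf (germ f e) * B e / 2)) :
    hatMap f Ω B p = f e + hpOf (germ f e) (cut (MOf (germ f e))
      (infDist (p - e) (lin (germ f e) : Set E3) / B p)) (p - e) := by
  have hE := edgePath_germ hf hinj hΩ hc he
  have hN := NOf_ge (germ f e)
  have hcon := hB.conic e he
  have hM : 0 < MOf (germ f e) := by
    have h1 := cOf_pos (germ f e)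
    have h2 := COf_pos (germ f e)
    unfold MOf
    positivity
  rw [mem_ball, dist_eq_norm] at hp
  have hBe : 0 < B e := by
    by_contra h1
    rw [not_lt] at h1
    have h2 : NOf (germ f e) * B e ≤ 0 := mul_nonpos_of_nonneg_of_nonpos (by linarith) h1
    linarith [norm_nonneg (p - e)]
  have hNB : 16 * B e ≤ NOf (germ f e) * B e := mul_le_mul_of_nonneg_right hN hBe.le
  have hpΩ : p ∈ Ω := by
    apply hcon.1
    rw [mem_ball, dist_eq_norm]
    linarith [norm_nonneg (p - e)]
  have hy : ‖p - e‖ < NOf (germ f e) * B e := by linarith [norm_nonneg (p - e)]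
  -- `p` is not a vertex
  have hBp : 0 < B p := by
    apply hB.pos p hpΩ
    intro hv
    obtain ⟨h1, R, hR, -, h2⟩ := hf.germ_spec hpΩ
    have h3 : ConicAt f (e + (p - e)) R (germ f p) := by rwa [add_sub_cancel]
    have h4 := lin_mono (hf.germ_spec he.1).1 h1 hcon.2 hy hR h3
    have h5 := Submodule.finrank_mono h4.1
    have h6 := he.2
    have h7 := hv.2
    unfold rk at h6 h7
    omega
  obtain ⟨l, hl, hl1, hl2, hl3⟩ := exists_foot (lin (germ f e)) (p - e)
  rw [hl2]
  have hlN : ‖l‖ < NOf (germ f e) * B e := by linarith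
  have he' : e + l ∈ Es f Ω := (edge_iff hf he hcon.1 hcon.2 hlN).2 hl
  have hge : germ f (e + l) = germ f e := edge_germ hf he hcon.1 hcon.2 hlN hl
  have hpe : p - (e + l) = p - e - l := by abel
  by_cases h : ‖p - e - l‖ < B p
  · have hT : InTube f Ω B p (e + l) := by
      refine ⟨he', fun m hm => ?_, by rwa [hpe]⟩
      rw [hge] at hm
      rw [hpe]
      exact hl1 m hm
    rw [hatMap_eq_of_inTube hf hB hT, hge, hpe, hcon.2 l hlN]
    have h1 := hE.add (cut (MOf (germ f e)) (‖p - e - l‖ / B p)) l hl (p - e - l)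
    rw [sub_add_cancel] at h1
    rw [h1]
    abel
  · rw [not_lt] at h
    have hno : ¬ ∃ e'', InTube f Ω B p e'' := by
      rintro ⟨e'', hT⟩
      have h1 := hT.2.2
      have h2 := hB.le p e
      have h3 : ‖e'' - e‖ ≤ ‖p - e‖ + ‖p - e''‖ := by
        have := norm_sub_le (p - e) (p - e'')
        rwa [sub_sub_sub_cancel_left] at this
      have h4 : ‖e'' - e‖ < NOf (germ f e) * B e := by linarith
      have h5 : e'' - e ∈ lin (germ f e) := by
        rw [← edge_iff hf he hcon.1 hcon.2 h4, add_sub_cancel]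
        exact hT.1
      have h6 : germ f e'' = germ f e := by
        have := edge_germ hf he hcon.1 hcon.2 h4 h5
        rwa [add_sub_cancel] at this
      have h7 : l = e'' - e := foot_unique (lin (germ f e)) (y := p - e) hl h5 hl1
        fun m hm => by
          have h8 := hT.2.1 m (by rw [h6]; exact hm)
          have h9 : p - e - (e'' - e) = p - e'' := by abel
          rw [h9]
          exact h8
      rw [h7] at h
      have h9 : p - e - (e'' - e) = p - e'' := by abel
      rw [h9] at h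
      linarith
    have h1 : hatMap f Ω B p = f p := by
      unfold hatMap
      rw [dif_neg hno]
    have h2 : cut (MOf (germ f e)) (‖p - e - l‖ / B p) = 0 := by
      apply cut_of_one_le hM
      rwa [le_div_iff₀ hBp, one_mul]
    rw [h1, h2, hE.zero 0 le_rfl]
    have h3 := hcon.2 (p - e) hy
    rwa [add_sub_cancel] at h3

theorem hatMap_eq_of_far {p : E3} (h : ∀ e ∈ Es f Ω, B p ≤ ‖p - e‖) : hatMap f Ω B p = f p := by
  have hno : ¬ ∃ e'', InTube f Ω B p e'' := by
    rintro ⟨e, hT⟩
    have h1 := h e hT.1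
    have h2 := hT.2.2
    linarith
  unfold hatMap
  rw [dif_neg hno]

theorem hatMap_near_far (hB : TubeFun f Ω B) {p : E3} (hp : 0 < B p)
    (h : ∀ e ∈ Es f Ω, 2 * B p ≤ ‖p - e‖) : hatMap f Ω B =ᶠ[𝓝 p] f := by
  filter_upwards [ball_mem_nhds p (by linarith : (0 : ℝ) < B p / 4)] with p' hp'
  refine hatMap_eq_of_far fun e he => ?_
  rw [mem_ball, dist_eq_norm] at hp'
  have h1 := hB.le p' p
  have h2 := h e he
  have h3 : ‖p - e‖ ≤ ‖p' - p‖ + ‖p' - e‖ := by
    have := norm_sub_le (p' - e) (p' - p)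
    rw [sub_sub_sub_cancel_left] at this
    linarith
  linarith

theorem hatMap_dist (hf : LocConic f Ω) (hinj : InjOn f Ω) (hΩ : IsOpen Ω)
    (hc : ContinuousOn f Ω) (hB : TubeFun f Ω B) {p e : E3} (h : InTube f Ω B p e) :
    ‖hatMap f Ω B p - f p‖ ≤ COf (germ f e) * B p := by
  have hE := edgePath_germ hf hinj hΩ hc h.1
  have hb := inTube_bounds hB h
  have hcon := hB.conic e h.1
  have hM : 0 < MOf (germ f e) := by
    have h1 := cOf_pos (germ f e)
    have h2 := COf_pos (germ f e)
    unfold MOf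
    positivity
  have h1 := hcon.2 (p - e) (by linarith [h.2.2])
  rw [add_sub_cancel] at h1
  rw [hatMap_eq_of_inTube hf hB h, h1, add_sub_add_left_eq_sub]
  have h2 := hE.lipt (cut (MOf (germ f e)) (‖p - e‖ / B p)) 0 (p - e) 0 (Submodule.zero_mem _)
  rw [hE.zero 0 le_rfl, sub_zero, sub_zero, abs_of_nonneg (cut_nonneg hM)] at h2
  refine h2.trans ?_
  have h3 := cut_le_one (r := ‖p - e‖ / B p) hM
  have h4 := cut_nonneg (r := ‖p - e‖ / B p) hM
  have h5 := hE.Cpos
  calc COf (germ f e) * cut (MOf (germ f e)) (‖p - e‖ / B p) * ‖p - e‖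
      ≤ COf (germ f e) * 1 * B p := by
        apply mul_le_mul _ h.2.2.le (norm_nonneg _) (by positivity)
        exact mul_le_mul_of_nonneg_left h3 h5.le
    _ = _ := by rw [mul_one]

end SM
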