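import Pool.Agent.SM.Defs
import Pool.Agent.SM.Sec
import Pool.Agent.SM.Grm
import Pool.Agent.SM.Sta
import Pool.Agent.SM.Cst
import Pool.Agent.SM.Tub
import Pool.Agent.SM.Ham

/-!
# Project SM, module HAT
-/

open Set Metric Filter Topology MeasureTheory
open scoped ContDiff Pointwise

noncomputable section

namespace SM

variable {f : E3 → E3} {Ω : Set E3} {B : E3 → ℝ}

theorem tube_pos (hf : LocConic f Ω) (hB : TubeFun f Ω B) {e p : E3} (he : e ∈ Es f Ω)
    (hp : p ∈ ball e (NOf (germ f e) * B e)) : 0 < B p := by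
  have hcon := hB.conic e he
  have hpΩ : p ∈ Ω := hcon.1 hp
  rw [mem_ball, dist_eq_norm] at hp
  apply hB.pos p hpΩ
  intro hv
  obtain ⟨h1, R, hR, -, h2⟩ := hf.germ_spec hpΩ
  have h3 : ConicAt f (e + (p - e)) R (germ f p) := by rwa [add_sub_cancel]
  have h4 := lin_mono (hf.germ_spec he.1).1 h1 hcon.2 hp hR h3
  have h5 := Submodule.finrank_mono h4.1
  have h6 := he.2
  have h7 := hv.2
  unfold rk at h6 h7
  omega

/-- the local model of `hatMap` near an edge point -/
def model (f : E3 → E3) (B : E3 → ℝ) (e : E3) (x : E3) : E3 :=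
  hpOf (germ f e) (cut (MOf (germ f e)) (infDist x (lin (germ f e) : Set E3) / B (e + x))) x

theorem model_spec (hf : LocConic f Ω) (hinj : InjOn f Ω) (hΩ : IsOpen Ω)
    (hc : ContinuousOn f Ω) (hB : TubeFun f Ω B) {e : E3} (he : e ∈ Es f Ω) :
    (∀ x ∈ ball (0 : E3) (NOf (germ f e) * B e / 2),
      SecGood (cOf (germ f e) / 2) (model f B e) x) ∧
    (∀ x ∈ ball (0 : E3) (NOf (germ f e) * B e / 2),
      ∀ x' ∈ ball (0 : E3) (NOf (germ f e) * B e / 2),
      cOf (germ f e) / 2 * ‖x - x'‖ ≤ ‖model f B e x - model f B e x'‖ ∧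
      ‖model f B e x - model f B e x'‖ ≤ 2 * COf (germ f e) * ‖x - x'‖) := by
  have hE := edgePath_germ hf hinj hΩ hc he
  have hb : LipschitzWith (1 / 8) (fun x => B (e + x)) := by
    have h1 := hB.lip.comp (isometry_add_left e).lipschitz
    rwa [mul_one] at h1
  refine edge_model hE rfl hb (fun x hx => ?_) isOpen_ball (convex_ball _ _)
  apply tube_pos hf hB he
  rw [mem_ball, dist_eq_norm, add_sub_cancel_left]
  rw [mem_ball, dist_zero_right] at hx
  linarith [norm_nonneg x]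

theorem hatMap_eq_model (hf : LocConic f Ω) (hinj : InjOn f Ω) (hΩ : IsOpen Ω)
    (hc : ContinuousOn f Ω) (hB : TubeFun f Ω B) {e p : E3} (he : e ∈ Es f Ω)
    (hp : p ∈ ball e (NOf (germ f e) * B e / 2)) :
    hatMap f Ω B p = f e + model f B e (p - e) := by
  rw [hatMap_local hf hinj hΩ hc hB he hp]
  unfold model
  rw [add_sub_cancel]

theorem secGood_shift {F : E3 → E3} {b e p : E3} {c : ℝ} (h : SecGood c F (p - e)) :
    SecGood c (fun x => b + F (x - e)) p := by
  obtain ⟨K, hK, r, hr, H⟩ := h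
  refine ⟨K, hK, r, hr, fun x hx x' hx' => ?_⟩
  have key : ∀ y ∈ ball p r, y - e ∈ ball (p - e) r := by
    intro y hy
    rwa [mem_ball, dist_eq_norm, sub_sub_sub_cancel_right, ← dist_eq_norm]
  obtain ⟨M, hM, hM'⟩ := H _ (key x hx) _ (key x' hx')
  refine ⟨M, hM, ?_⟩
  rw [sub_sub_sub_cancel_right] at hM'
  rw [add_sub_add_left_eq_sub, hM']

/-- points close to an edge point lie in the ball where the model is valid -/
theorem near_edge (hB : TubeFun f Ω B) {e p : E3} (hp : 0 < B p) (h : ‖p - e‖ < 2 * B p) :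
    p ∈ ball e (NOf (germ f e) * B e / 2) := by
  have h1 := hB.le p e
  have h2 := NOf_ge (germ f e)
  have h3 : 3 / 4 * B p ≤ B e := by linarith
  have h4 : 16 * B e ≤ NOf (germ f e) * B e := mul_le_mul_of_nonneg_right h2 (by linarith)
  rw [mem_ball, dist_eq_norm]
  linarith

theorem hatMap_secGood (hf : LocConic f Ω) (hinj : InjOn f Ω) (hΩ : IsOpen Ω)
    (hc : ContinuousOn f Ω) (hB : TubeFun f Ω B) {p : E3} (hp : p ∈ Ω) (hv : p ∉ Vs f Ω) :
    ∃ c > 0, SecGood c (hatMap f Ω B) p := by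
  have hBp := hB.pos p hp hv
  by_cases h : ∃ e ∈ Es f Ω, ‖p - e‖ < 2 * B p
  · obtain ⟨e, he, h1⟩ := h
    have h2 := near_edge hB hBp h1
    have h3 : p - e ∈ ball (0 : E3) (NOf (germ f e) * B e / 2) := by
      rwa [mem_ball, dist_zero_right, ← dist_eq_norm]
    refine ⟨_, half_pos (cOf_pos (germ f e)),
      (secGood_shift (b := f e) ((model_spec hf hinj hΩ hc hB he).1 _ h3)).congr ?_⟩
    filter_upwards [isOpen_ball.mem_nhds h2] with y hy
    exact (hatMap_eq_model hf hinj hΩ hc hB he hy).symm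
  · push Not at h
    have h1 : p ∉ Es f Ω := by
      intro he
      have h2 := h p he
      rw [sub_self, norm_zero] at h2
      linarith
    have h2 : 2 ≤ rk f p := by
      by_contra h3
      rw [not_le] at h3
      interval_cases h4 : rk f p
      · exact hv ⟨hp, h4⟩
      · exact h1 ⟨hp, h4⟩
    obtain ⟨c, hc', h3⟩ := secGood_of_two_le hf hinj hΩ hc hp h2
    exact ⟨c, hc', h3.congr (hatMap_near_far hB hBp h).symm⟩

theorem hatMap_lipAt (hf : LocConic f Ω) (hinj : InjOn f Ω) (hΩ : IsOpen Ω)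
    (hc : ContinuousOn f Ω) (hB : TubeFun f Ω B) {p : E3} {Λ : ℝ} (hp : p ∈ Ω)
    (hv : p ∉ Vs f Ω) (hΛ : LipAt Λ f p)
    (hΛ' : ∀ e ∈ Es f Ω, ‖p - e‖ < 2 * B p → 2 * COf (germ f e) ≤ Λ) :
    LipAt Λ (hatMap f Ω B) p := by
  have hBp := hB.pos p hp hv
  by_cases h : ∃ e ∈ Es f Ω, ‖p - e‖ < 2 * B p
  · obtain ⟨e, he, h1⟩ := h
    have h2 := near_edge hB hBp h1
    have hCΛ := hΛ' e he h1
    obtain ⟨r, hr, hr'⟩ := Metric.isOpen_iff.1 isOpen_ball p h2
    refine ⟨r, hr, fun y hy y' hy' => ?_⟩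
    have key : ∀ y ∈ ball p r, y - e ∈ ball (0 : E3) (NOf (germ f e) * B e / 2) := by
      intro y hy
      rw [mem_ball, dist_zero_right, ← dist_eq_norm]
      exact hr' hy
    have h3 := ((model_spec hf hinj hΩ hc hB he).2 _ (key y hy) _ (key y' hy')).2
    rw [hatMap_eq_model hf hinj hΩ hc hB he (hr' hy), hatMap_eq_model hf hinj hΩ hc hB he (hr' hy'),
      add_sub_add_left_eq_sub]
    rw [sub_sub_sub_cancel_right] at h3
    exact h3.trans (mul_le_mul_of_nonneg_right hCΛ (norm_nonneg _))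
  · push Not at h
    obtain ⟨r, hr, H⟩ := hΛ
    obtain ⟨r', hr', hb⟩ := Metric.eventually_nhds_iff_ball.1 (hatMap_near_far hB hBp h)
    refine ⟨min r r', lt_min hr hr', fun y hy y' hy' => ?_⟩
    rw [hb y (ball_subset_ball (min_le_right _ _) hy),
      hb y' (ball_subset_ball (min_le_right _ _) hy')]
    exact H y (ball_subset_ball (min_le_left _ _) hy) y' (ball_subset_ball (min_le_left _ _) hy')

theorem tube_pre (hf : LocConic f Ω) (hinj : InjOn f Ω) (hΩ : IsOpen Ω)
    (hc : ContinuousOn f Ω) (hB : TubeFun f Ω B) {e p : E3} (h : InTube f Ω B p e) :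
    ‖p - e‖ < NOf (germ f e) * B e / 14 ∧ ∃ q ∈ Ω, hatMap f Ω B p = f q ∧
      ‖q - e‖ < NOf (germ f e) * B e / 14 := by
  have hE := edgePath_germ hf hinj hΩ hc h.1
  have hb := inTube_bounds hB h
  have hcon := hB.conic e h.1
  have hc0 := cOf_pos (germ f e)
  have hC0 := COf_pos (germ f e)
  have hN := NOf_ge (germ f e)
  have hBe : 0 < B e := by linarith [hb.1, hb.2.1]
  have hNC : COf (germ f e) / cOf (germ f e) < NOf (germ f e) / 16 := by
    unfold NOf
    linarith
  have h1 : ‖p - e‖ < 8 / 7 * B e := h.2.2.trans hb.2.1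
  have h2 : ‖p - e‖ < NOf (germ f e) * B e / 14 := by nlinarith
  refine ⟨h2, ?_⟩
  rw [hatMap_eq_of_inTube hf hB h]
  set t := cut (MOf (germ f e)) (‖p - e‖ / B p) with ht
  obtain ⟨q', hq'⟩ := hE.surj (hpOf (germ f e) t (p - e))
  have h00 : ∀ t, hpOf (germ f e) t 0 = 0 := by
    intro t
    have := hE.hom t 0 le_rfl 0
    simpa using this
  have h3 : cOf (germ f e) * ‖q'‖ ≤ COf (germ f e) * ‖p - e‖ := by
    have h4 := hE.lower 0 q' 0
    rw [h00, hE.zero 0 le_rfl, hq', sub_zero, sub_zero] at h4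
    have h5 := hE.lip t (p - e) 0
    rw [h00, sub_zero, sub_zero] at h5
    exact h4.trans h5
  have h4 : ‖q'‖ ≤ COf (germ f e) / cOf (germ f e) * ‖p - e‖ := by
    rw [div_mul_eq_mul_div, le_div_iff₀ hc0]
    linarith
  have h5 : ‖q'‖ < NOf (germ f e) * B e / 14 := by
    have h6 : 0 < COf (germ f e) / cOf (germ f e) := div_pos hC0 hc0
    have h7 : COf (germ f e) / cOf (germ f e) * ‖p - e‖ ≤
        COf (germ f e) / cOf (germ f e) * (8 / 7 * B e) := mul_le_mul_of_nonneg_left h1.le h6.le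
    have h8 : COf (germ f e) / cOf (germ f e) * (8 / 7 * B e) <
        NOf (germ f e) / 16 * (8 / 7 * B e) := mul_lt_mul_of_pos_right hNC (by positivity)
    linarith
  have h6 : ‖q'‖ < NOf (germ f e) * B e := by
    have : 0 < NOf (germ f e) * B e := by positivity
    linarith
  refine ⟨e + q', ?_, ?_, by rwa [add_sub_cancel_left]⟩
  · apply hcon.1
    rwa [mem_ball, dist_eq_norm, add_sub_cancel_left]
  · rw [hcon.2 q' h6, hq']

theorem hatMap_inj_local (hf : LocConic f Ω) (hinj : InjOn f Ω) (hΩ : IsOpen Ω)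
    (hc : ContinuousOn f Ω) (hB : TubeFun f Ω B) {e p p' : E3} (he : e ∈ Es f Ω)
    (hp : ‖p - e‖ < NOf (germ f e) * B e / 2) (hp' : ‖p' - e‖ < NOf (germ f e) * B e / 2)
    (h : hatMap f Ω B p = hatMap f Ω B p') : p = p' := by
  have h1 : p ∈ ball e (NOf (germ f e) * B e / 2) := by rwa [mem_ball, dist_eq_norm]
  have h1' : p' ∈ ball e (NOf (germ f e) * B e / 2) := by rwa [mem_ball, dist_eq_norm]
  rw [hatMap_eq_model hf hinj hΩ hc hB he h1, hatMap_eq_model hf hinj hΩ hc hB he h1'] at h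
  have h2 := ((model_spec hf hinj hΩ hc hB he).2 (p - e) (by rwa [mem_ball, dist_zero_right])
    (p' - e) (by rwa [mem_ball, dist_zero_right])).1
  rw [add_left_cancel h, sub_self, norm_zero, sub_sub_sub_cancel_right] at h2
  have h3 := cOf_pos (germ f e)
  have h4 : ‖p - p'‖ ≤ 0 := by
    by_contra h5
    rw [not_le] at h5
    have : 0 < cOf (germ f e) / 2 * ‖p - p'‖ := by positivity
    linarith
  exact sub_eq_zero.1 (norm_le_zero_iff.1 h4)

theorem hatMap_injOn (hf : LocConic f Ω) (hinj : InjOn f Ω) (hΩ : IsOpen Ω)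
    (hc : ContinuousOn f Ω) (hB : TubeFun f Ω B) : InjOn (hatMap f Ω B) Ω := by
  have hno : ∀ p, (¬ ∃ e, InTube f Ω B p e) → hatMap f Ω B p = f p := by
    intro p h
    unfold hatMap
    rw [dif_neg h]
  -- one point in a tube
  have key1 : ∀ p ∈ Ω, ∀ p' ∈ Ω, hatMap f Ω B p = hatMap f Ω B p' → ∀ e, InTube f Ω B p e →
      (¬ ∃ e, InTube f Ω B p' e) → p = p' := by
    intro p hp p' hp' he e h h'
    obtain ⟨h1, q, hq, h2, h3⟩ := tube_pre hf hinj hΩ hc hB h
    rw [hno p' h', h2] at he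
    have h4 := hinj hq hp' he
    subst h4
    have h5 := norm_nonneg (p - e)
    refine hatMap_inj_local hf hinj hΩ hc hB h.1 (by linarith) (by linarith) ?_
    rw [h2, hno q h']
  -- both points in tubes
  have key2 : ∀ p ∈ Ω, ∀ p' ∈ Ω, hatMap f Ω B p = hatMap f Ω B p' → ∀ e e', InTube f Ω B p e →
      InTube f Ω B p' e' → NOf (germ f e') * B e' ≤ NOf (germ f e) * B e → p = p' := by
    intro p hp p' hp' he e e' h h' hle
    obtain ⟨h1, q, hq, h2, h3⟩ := tube_pre hf hinj hΩ hc hB h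
    obtain ⟨h1', q', hq', h2', h3'⟩ := tube_pre hf hinj hΩ hc hB h'
    have h4 : q = q' := hinj hq hq' (by rw [← h2, ← h2', he])
    subst h4
    have h5 : ‖e' - e‖ ≤ ‖q - e‖ + ‖q - e'‖ := by
      have := norm_sub_le (q - e) (q - e')
      rwa [sub_sub_sub_cancel_left] at this
    have h6 : ‖p' - e‖ ≤ ‖p' - e'‖ + ‖e' - e‖ := by
      have := norm_add_le (p' - e') (e' - e)
      rwa [sub_add_sub_cancel] at this
    have h7 := norm_nonneg (p - e)
    exact hatMap_inj_local hf hinj hΩ hc hB h.1 (by linarith) (by linarith) he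
  intro p hp p' hp' he
  by_cases h : ∃ e, InTube f Ω B p e
  · obtain ⟨e, h⟩ := h
    by_cases h' : ∃ e, InTube f Ω B p' e
    · obtain ⟨e', h'⟩ := h'
      rcases le_total (NOf (germ f e') * B e') (NOf (germ f e) * B e) with hle | hle
      · exact key2 p hp p' hp' he e e' h h' hle
      · exact (key2 p' hp' p hp he.symm e' e h' h hle).symm
    · exact key1 p hp p' hp' he e h h'
  · by_cases h' : ∃ e, InTube f Ω B p' e
    · obtain ⟨e', h'⟩ := h'
      exact (key1 p' hp' p hp he.symm e' h' h).symm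
    · rw [hno p h, hno p' h'] at he
      exact hinj hp hp' he

end SM
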