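import Pool.Agent.SM.Defs
import Pool.Agent.SM.Sec

/-!
# Project SM, module MOA : variable radius mollification
-/

open Set Metric Filter Topology MeasureTheory
open scoped ContDiff Pointwise

noncomputable section

namespace SM

/-- the mollification kernel -/
private def ker (u : E3) : ℝ := bump.normed volume u

private lemma ker_nonneg (u : E3) : 0 ≤ ker u := bump.nonneg_normed u

private lemma ker_continuous : Continuous ker := bump.continuous_normed

private lemma ker_integral : ∫ u, ker u = 1 := bump.integral_normed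

private lemma ker_integrable : Integrable ker := bump.integrable_normed

private lemma ker_contDiff : ContDiff ℝ ∞ ker := bump.contDiff_normed

private lemma ker_neg (u : E3) : ker (-u) = ker u := bump.normed_neg u

private lemma ker_zero {u : E3} (hu : u ∉ ball (0 : E3) 1) : ker u = 0 := by
  have h : Function.support ker = ball (0 : E3) 1 := bump.support_normed_eq
  by_contra h0
  exact hu (h ▸ (Function.mem_support.2 h0))

private lemma moll_eq (f : E3 → E3) (δ : E3 → ℝ) (x : E3) :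
    moll f δ x = ∫ u, ker u • f (x - δ x • u) := rfl

private lemma mem_cb {x u : E3} {d : ℝ} (hd : 0 ≤ d) (hu : u ∈ closedBall (0 : E3) 1) :
    x - d • u ∈ closedBall x d := by
  rw [mem_closedBall, dist_eq_norm]
  have h1 : x - d • u - x = -(d • u) := by abel
  rw [h1, norm_neg, norm_smul, Real.norm_of_nonneg hd]
  have h2 : ‖u‖ ≤ 1 := by simpa using hu
  nlinarith

private lemma integrand_integrable {g : E3 → E3} (hg : ContinuousOn g (closedBall (0 : E3) 1)) :
    Integrable (fun u => ker u • g u) := by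
  have h1 : (fun u => ker u • g u) = (closedBall (0 : E3) 1).indicator (fun u => ker u • g u) := by
    funext u
    by_cases hu : u ∈ closedBall (0 : E3) 1
    · rw [indicator_of_mem hu]
    · rw [indicator_of_notMem hu, ker_zero (fun h => hu (ball_subset_closedBall h)), zero_smul]
  rw [h1, integrable_indicator_iff measurableSet_closedBall]
  exact (ker_continuous.continuousOn.smul hg).integrableOn_compact (isCompact_closedBall _ _)

private lemma comp_cont {f : E3 → E3} {x : E3} {d : ℝ} (hd : 0 ≤ d)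
    (hf : ContinuousOn f (closedBall x d)) :
    ContinuousOn (fun u => f (x - d • u)) (closedBall (0 : E3) 1) := by
  apply hf.comp (by fun_prop)
  intro u hu
  exact mem_cb hd hu

/-- averages against the kernel stay in closed convex sets -/
private lemma avg_mem {S : Set E3} (hS : Convex ℝ S) (hSc : IsClosed S) {g : E3 → E3}
    (hg : ContinuousOn g (closedBall (0 : E3) 1)) (hm : ∀ u ∈ closedBall (0 : E3) 1, g u ∈ S) :
    ∫ u, ker u • g u ∈ S := by
  set ρ : E3 → NNReal := fun u => ⟨ker u, ker_nonneg u⟩ with hρ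
  have hρm : Measurable ρ := by
    apply Measurable.subtype_mk
    exact ker_continuous.measurable
  have h1 : ∫ u, ker u • g u = ∫ u, g u ∂(volume.withDensity fun u => (ρ u : ENNReal)) := by
    rw [integral_withDensity_eq_integral_smul hρm]
    rfl
  have hprob : IsProbabilityMeasure (volume.withDensity fun u => (ρ u : ENNReal)) := by
    constructor
    rw [withDensity_apply _ MeasurableSet.univ, Measure.restrict_univ]
    have h2 : (fun u => (ρ u : ENNReal)) = fun u => ENNReal.ofReal (ker u) := by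
      funext u
      rw [ENNReal.ofReal, Real.toNNReal_of_nonneg (ker_nonneg u)]
      rfl
    rw [h2, ← ofReal_integral_eq_lintegral_ofReal ker_integrable
      (Filter.Eventually.of_forall ker_nonneg), ker_integral, ENNReal.ofReal_one]
  rw [h1]
  apply Convex.integral_mem hS hSc
  · rw [ae_withDensity_iff hρm.coe_nnreal_ennreal]
    refine Filter.Eventually.of_forall fun u hu => hm u ?_
    by_contra hc
    apply hu
    have h3 : ker u = 0 := ker_zero (fun h => hc (ball_subset_closedBall h))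
    have h4 : ρ u = 0 := by
      apply NNReal.eq
      exact h3
    rw [h4, ENNReal.coe_zero]
  · rw [integrable_withDensity_iff_integrable_smul hρm]
    exact integrand_integrable hg

private lemma secOn_cont {f : E3 → E3} {W : Set E3} {K : Set (E3 →L[ℝ] E3)} {Λ : ℝ}
    (hΛ : ∀ M ∈ K, ‖M‖ ≤ Λ) (hf : SecOn f K W) : ContinuousOn f W := by
  have h1 : ∀ x ∈ W, ∀ y ∈ W, ‖f x - f y‖ ≤ Λ * ‖x - y‖ := by
    intro x hx y hy
    obtain ⟨M, hM, h⟩ := hf x hx y hy
    rw [h]
    exact (M.le_opNorm _).trans (mul_le_mul_of_nonneg_right (hΛ M hM) (norm_nonneg _))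
  have h2 : LipschitzOnWith (Real.toNNReal (max Λ 0)) f W := by
    apply LipschitzOnWith.of_dist_le_mul
    intro x hx y hy
    rw [dist_eq_norm, dist_eq_norm, Real.coe_toNNReal _ (le_max_right _ _)]
    exact (h1 x hx y hy).trans (mul_le_mul_of_nonneg_right (le_max_left _ _) (norm_nonneg _))
  exact h2.continuousOn

/-- variant with two different radii -/
theorem moll_sec' {f : E3 → E3} {δ δ' : E3 → ℝ} {W : Set E3} {K : Set (E3 →L[ℝ] E3)} {Λ : ℝ}
    (hKc : Convex ℝ K) (hKK : IsCompact K) (hΛ : ∀ M ∈ K, ‖M‖ ≤ Λ) (hf : SecOn f K W)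
    {x x' : E3} (hδ : 0 ≤ δ x) (hδ' : 0 ≤ δ' x') (hx : closedBall x (δ x) ⊆ W)
    (hx' : closedBall x' (δ' x') ⊆ W) :
    ∃ M ∈ K, ‖moll f δ x - moll f δ' x' - M (x - x')‖ ≤ Λ * |δ x - δ' x'| := by
  set d := δ x with hd
  set d' := δ' x' with hd'
  have hfc : ContinuousOn f W := secOn_cont hΛ hf
  have hc1 := comp_cont hδ (hfc.mono hx)
  have hc2 := comp_cont hδ' (hfc.mono hx')
  have hi1 := integrand_integrable hc1
  have hi2 := integrand_integrable hc2
  have hΛ0 : 0 ≤ Λ := by
    obtain ⟨M, hM, -⟩ := hf x (hx (mem_closedBall_self hδ)) x (hx (mem_closedBall_self hδ))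
    exact (norm_nonneg M).trans (hΛ M hM)
  have heq : moll f δ x - moll f δ' x' =
      ∫ u, ker u • (f (x - d • u) - f (x' - d' • u)) := by
    rw [moll_eq, moll_eq, ← integral_sub hi1 hi2]
    congr 1
    funext u
    rw [smul_sub]
  set T : Set E3 := (fun M : E3 →L[ℝ] E3 => M (x - x')) '' K with hT
  have hTc : Convex ℝ T := by
    have : T = (ContinuousLinearMap.apply ℝ E3 (x - x')) '' K := rfl
    rw [this]
    exact hKc.linear_image (ContinuousLinearMap.apply ℝ E3 (x - x')).toLinearMap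
  have hTK : IsCompact T := hKK.image (by fun_prop)
  have hmem : ∫ u, ker u • (f (x - d • u) - f (x' - d' • u)) ∈
      T + closedBall (0 : E3) (Λ * |d - d'|) := by
    apply avg_mem (hTc.add (convex_closedBall _ _))
      ((hTK.add (isCompact_closedBall _ _)).isClosed) (hc1.sub hc2)
    intro u hu
    obtain ⟨M, hM, h⟩ := hf _ (hx (mem_cb hδ hu)) _ (hx' (mem_cb hδ' hu))
    refine mem_add.2 ⟨M (x - x'), ⟨M, hM, rfl⟩, -((d - d') • M u), ?_, ?_⟩
    · rw [mem_closedBall, dist_zero_right, norm_neg, norm_smul, Real.norm_eq_abs, mul_comm]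
      apply mul_le_mul_of_nonneg_right _ (abs_nonneg _)
      have h1 : ‖u‖ ≤ 1 := by simpa using hu
      calc ‖M u‖ ≤ ‖M‖ * ‖u‖ := M.le_opNorm u
        _ ≤ Λ * 1 := mul_le_mul (hΛ M hM) h1 (norm_nonneg _) hΛ0
        _ = Λ := mul_one _
    · show M (x - x') + -((d - d') • M u) = f (x - d • u) - f (x' - d' • u)
      rw [h, ← map_smul, ← map_neg, ← map_add]
      congr 1
      rw [sub_smul]
      abel
  rw [← heq] at hmem
  obtain ⟨t, ⟨M, hM, rfl⟩, e, he, hte⟩ := mem_add.1 hmem
  refine ⟨M, hM, ?_⟩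
  rw [← hte]
  have : (fun M : E3 →L[ℝ] E3 => M (x - x')) M + e - M (x - x') = e := by simp
  rw [this]
  simpa using he

theorem moll_sec {f : E3 → E3} {δ : E3 → ℝ} {W : Set E3} {K : Set (E3 →L[ℝ] E3)} {Λ : ℝ}
    (hKc : Convex ℝ K) (hKK : IsCompact K) (hΛ : ∀ M ∈ K, ‖M‖ ≤ Λ) (hf : SecOn f K W)
    {x x' : E3} (hδ : 0 ≤ δ x) (hδ' : 0 ≤ δ x') (hx : closedBall x (δ x) ⊆ W)
    (hx' : closedBall x' (δ x') ⊆ W) :
    ∃ M ∈ K, ‖moll f δ x - moll f δ x' - M (x - x')‖ ≤ Λ * |δ x - δ x'| :=
  moll_sec' hKc hKK hΛ hf hδ hδ' hx hx'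

theorem moll_near {f : E3 → E3} {δ : E3 → ℝ} {x : E3} {Λ : ℝ} (hδ : 0 ≤ δ x)
    (hf : ContinuousOn f (closedBall x (δ x)))
    (h : ∀ y ∈ closedBall x (δ x), ‖f y - f x‖ ≤ Λ * ‖y - x‖) :
    ‖moll f δ x - f x‖ ≤ Λ * δ x := by
  have h1 : ∀ y ∈ closedBall x (δ x), f y ∈ closedBall (f x) (Λ * δ x) := by
    intro y hy
    rw [mem_closedBall, dist_eq_norm]
    rcases le_or_gt 0 Λ with hΛ | hΛ
    · refine (h y hy).trans (mul_le_mul_of_nonneg_left ?_ hΛ)
      rw [← dist_eq_norm]
      exact hy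
    · have h2 : δ x = 0 := by
        by_contra h3
        have h4 : 0 < δ x := lt_of_le_of_ne hδ (Ne.symm h3)
        obtain ⟨v, hv⟩ := exists_norm_eq E3 hδ
        have h5 := h (x + v) (by rw [mem_closedBall, dist_eq_norm, add_sub_cancel_left, hv])
        rw [add_sub_cancel_left, hv] at h5
        have := norm_nonneg (f (x + v) - f x)
        nlinarith
      rw [h2] at hy ⊢
      have h6 : y = x := by simpa using hy
      rw [h6]
      simp
  have h7 : ∫ u, ker u • f (x - δ x • u) ∈ closedBall (f x) (Λ * δ x) :=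
    avg_mem (convex_closedBall _ _) isClosed_closedBall (comp_cont hδ hf)
      (fun u hu => h1 _ (mem_cb hδ hu))
  rw [← moll_eq, mem_closedBall, dist_eq_norm] at h7
  exact h7

theorem moll_affine {f : E3 → E3} {δ : E3 → ℝ} {x : E3} {A : E3 →L[ℝ] E3} {b : E3}
    (hδ : 0 ≤ δ x) (hf : ∀ y ∈ closedBall x (δ x), f y = A y + b) :
    moll f δ x = A x + b := by
  have h1 : moll f δ x = ∫ u, ((ker u) • (A x + b) - δ x • (ker u • A u)) := by
    rw [moll_eq]
    congr 1
    funext u
    by_cases hu : u ∈ closedBall (0 : E3) 1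
    · rw [hf _ (mem_cb hδ hu), map_sub, map_smul, smul_comm (δ x) (ker u) (A u), ← smul_sub]
      congr 1
      abel
    · rw [ker_zero (fun h => hu (ball_subset_closedBall h)), zero_smul, zero_smul, zero_smul,
        smul_zero, sub_zero]
  have h2 : ∫ u, ker u • A u = 0 := by
    have h3 : ∫ u, ker u • A u = -∫ u, ker u • A u := by
      calc ∫ u, ker u • A u = ∫ u, ker (-u) • A (-u) :=
            (integral_neg_eq_self (fun u => ker u • A u) volume).symm
        _ = ∫ u, -(ker u • A u) := by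
            congr 1
            funext u
            rw [ker_neg, map_neg, smul_neg]
        _ = -∫ u, ker u • A u := integral_neg _
    have h4 : (2 : ℝ) • ∫ u, ker u • A u = 0 := by
      rw [two_smul]
      nth_rewrite 1 [h3]
      exact neg_add_cancel _
    exact (smul_eq_zero.1 h4).resolve_left two_ne_zero
  have hi1 : Integrable (fun u => ker u • (A x + b)) := ker_integrable.smul_const _
  have hi2 : Integrable (fun u => δ x • (ker u • A u)) :=
    (integrand_integrable A.continuous.continuousOn).smul (δ x)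
  rw [h1, integral_sub hi1 hi2, integral_smul_const, ker_integral, one_smul, integral_smul, h2,
    smul_zero, sub_zero]

/-- the rescaled kernel -/
private def kerd (d : ℝ) (z : E3) : ℝ := (d ^ 3)⁻¹ * ker (d⁻¹ • z)

private lemma kerd_smooth : ContDiffOn ℝ ∞ (fun q : ℝ × E3 => kerd q.1 q.2)
    (Ioi (0 : ℝ) ×ˢ univ) := by
  have h0 : ∀ q ∈ Ioi (0 : ℝ) ×ˢ (univ : Set E3), q.1 ≠ 0 := fun q hq => (ne_of_gt hq.1)
  apply ContDiffOn.mul
  · exact (contDiff_fst.pow 3).contDiffOn.inv (fun q hq => pow_ne_zero _ (h0 q hq))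
  · exact ker_contDiff.comp_contDiffOn
      ((contDiff_fst.contDiffOn.inv h0).smul contDiff_snd.contDiffOn)

private lemma kerd_zero {d : ℝ} (hd : 0 < d) {z : E3} (hz : z ∉ closedBall (0 : E3) d) :
    kerd d z = 0 := by
  have h1 : d⁻¹ • z ∉ ball (0 : E3) 1 := by
    intro h
    apply hz
    rw [mem_ball, dist_zero_right, norm_smul, norm_inv, Real.norm_of_nonneg hd.le,
      inv_mul_lt_iff₀ hd, mul_one] at h
    rw [mem_closedBall, dist_zero_right]
    exact h.le
  rw [kerd, ker_zero h1, mul_zero]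

private lemma change_var (g : E3 → E3) (x : E3) {d : ℝ} (hd : 0 < d) :
    ∫ u, ker u • g (x - d • u) = ∫ w, kerd d (x - w) • g w := by
  set G : E3 → E3 := fun u => ker u • g (x - d • u) with hG
  have h1 : ∫ w, G (d⁻¹ • (x - w)) = ∫ w, G (d⁻¹ • w) :=
    integral_sub_left_eq_self (fun w => G (d⁻¹ • w)) volume x
  have h2 : ∫ w, G (d⁻¹ • w) = d ^ 3 • ∫ w, G w := by
    rw [Measure.integral_comp_smul]
    congr 1
    rw [finrank_euclideanSpace_fin, inv_pow, inv_inv, abs_of_pos (pow_pos hd 3)]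
  have h3 : ∀ w, G (d⁻¹ • (x - w)) = ker (d⁻¹ • (x - w)) • g w := by
    intro w
    rw [hG]
    simp only
    rw [smul_smul, mul_inv_cancel₀ hd.ne', one_smul, sub_sub_cancel]
  have h4 : ∫ w, kerd d (x - w) • g w = (d ^ 3)⁻¹ • ∫ w, G (d⁻¹ • (x - w)) := by
    rw [← integral_smul]
    congr 1
    funext w
    rw [h3, kerd, mul_smul]
  rw [h4, h1, h2, smul_smul, inv_mul_cancel₀ (pow_pos hd 3).ne', one_smul]

theorem moll_smooth {f : E3 → E3} {δ : E3 → ℝ} {U Ω : Set E3} (hU : IsOpen U) (hΩ : IsOpen Ω)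
    (hf : ContinuousOn f Ω) (hδ : ContDiffOn ℝ ∞ δ U) (hδ0 : ∀ x ∈ U, 0 < δ x)
    (hb : ∀ x ∈ U, closedBall x (δ x) ⊆ Ω) : ContDiffOn ℝ ∞ (moll f δ) U := by
  intro x₀ hx₀
  apply ContDiffAt.contDiffWithinAt
  obtain ⟨ε, hε, hεΩ⟩ := (isCompact_closedBall x₀ (δ x₀)).exists_cthickening_subset_open hΩ
    (hb x₀ hx₀)
  set Kc : Set E3 := cthickening ε (closedBall x₀ (δ x₀)) with hKc
  have hKcc : IsCompact Kc := (isCompact_closedBall x₀ (δ x₀)).cthickening
  set f1 : E3 → E3 := Kc.indicator f with hf1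
  have hf1i : Integrable f1 := by
    rw [hf1, integrable_indicator_iff hKcc.measurableSet]
    exact (hf.mono hεΩ).integrableOn_compact hKcc
  have hd0 : 0 < δ x₀ := hδ0 x₀ hx₀
  have hδc : ContinuousAt δ x₀ := (hδ.continuousOn.continuousAt (hU.mem_nhds hx₀))
  -- near `x₀` the balls are in `Kc`
  have hev : ∀ᶠ x in 𝓝 x₀, x ∈ U ∧ closedBall x (δ x) ⊆ Kc ∧ δ x < 2 * δ x₀ := by
    have e1 : ∀ᶠ x in 𝓝 x₀, x ∈ U := hU.mem_nhds hx₀
    have e2 : ∀ᶠ x in 𝓝 x₀, dist x x₀ < ε / 2 := by
      exact Metric.ball_mem_nhds x₀ (half_pos hε)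
    have e3 : ∀ᶠ x in 𝓝 x₀, δ x < δ x₀ + ε / 2 :=
      hδc.eventually_lt continuousAt_const (by linarith)
    have e4 : ∀ᶠ x in 𝓝 x₀, δ x < 2 * δ x₀ :=
      hδc.eventually_lt continuousAt_const (by linarith)
    filter_upwards [e1, e2, e3, e4] with x h1 h2 h3 h4
    refine ⟨h1, ?_, h4⟩
    intro y hy
    have h5 : dist y x₀ ≤ δ x₀ + ε := by
      have := dist_triangle y x x₀
      rw [mem_closedBall] at hy
      linarith
    rw [hKc, cthickening_closedBall hε.le hd0.le, mem_closedBall]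
    linarith
  have hcong : moll f δ =ᶠ[𝓝 x₀] fun x =>
      (convolution f1 (fun z => kerd (δ x) z) (ContinuousLinearMap.lsmul ℝ ℝ).flip volume) x := by
    filter_upwards [hev] with x hx
    obtain ⟨hxU, hxK, -⟩ := hx
    rw [convolution_def]
    have h1 : ∫ t, (ContinuousLinearMap.lsmul ℝ ℝ).flip (f1 t) (kerd (δ x) (x - t)) =
        ∫ t, kerd (δ x) (x - t) • f1 t := rfl
    rw [h1, ← change_var f1 x (hδ0 x hxU), moll_eq]
    congr 1
    funext u
    by_cases hu : u ∈ closedBall (0 : E3) 1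
    · have h2 : x - δ x • u ∈ Kc := hxK (mem_cb (hδ0 x hxU).le hu)
      rw [hf1, indicator_of_mem h2]
    · rw [ker_zero (fun h => hu (ball_subset_closedBall h)), zero_smul, zero_smul]
  refine ContDiffAt.congr_of_eventuallyEq ?_ hcong
  have hconv := contDiffOn_convolution_right_with_param (n := ⊤) (μ := (volume : Measure E3))
    (ContinuousLinearMap.lsmul ℝ ℝ : ℝ →L[ℝ] E3 →L[ℝ] E3).flip (f := f1)
    (g := fun d z => kerd d z) (s := Ioo 0 (2 * δ x₀)) (k := closedBall (0 : E3) (2 * δ x₀))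
    isOpen_Ioo (isCompact_closedBall _ _)
    (fun d z hd hz => kerd_zero hd.1 (fun h => hz (closedBall_subset_closedBall hd.2.le h)))
    hf1i.locallyIntegrable
    (kerd_smooth.mono (prod_mono (fun d hd => hd.1) Subset.rfl))
  have hat : ContDiffAt ℝ ∞ (fun q : ℝ × E3 => (convolution f1 (fun z => kerd q.1 z)
      (ContinuousLinearMap.lsmul ℝ ℝ).flip volume) q.2) (δ x₀, x₀) := by
    apply hconv.contDiffAt
    apply (isOpen_Ioo.prod isOpen_univ).mem_nhds
    exact ⟨⟨hd0, by linarith⟩, mem_univ _⟩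
  have hδat : ContDiffAt ℝ ∞ δ x₀ := hδ.contDiffAt (hU.mem_nhds hx₀)
  exact hat.comp (g := fun q : ℝ × E3 => (convolution f1 (fun z => kerd q.1 z)
      (ContinuousLinearMap.lsmul ℝ ℝ).flip volume) q.2) (f := fun x => (δ x, x)) x₀
      (hδat.prodMk contDiffAt_id)

end SM
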