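import Pool.Agent.SM.Defs

/-!
# Project SM, module MOB
-/

open Set Metric Filter Topology MeasureTheory
open scoped ContDiff Pointwise

noncomputable section

namespace SM

/-- a locally positive function is bounded below on compact sets -/
private theorem mob_lower {Ω : Set E3} {β : E3 → ℝ} (hβ : LPos β Ω) {K : Set E3}
    (hK : IsCompact K) (hKΩ : K ⊆ Ω) : ∃ b > 0, ∀ y ∈ K, b ≤ β y := by
  refine hK.induction_on (p := fun S => ∃ b > 0, ∀ y ∈ S, b ≤ β y) ?_ ?_ ?_ ?_
  · exact ⟨1, one_pos, fun y hy => absurd hy (notMem_empty y)⟩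
  · rintro S T hST ⟨b, hb, h⟩
    exact ⟨b, hb, fun y hy => h y (hST hy)⟩
  · rintro S T ⟨b, hb, h⟩ ⟨b', hb', h'⟩
    refine ⟨min b b', lt_min hb hb', fun y hy => ?_⟩
    rcases hy with hy | hy
    · exact (min_le_left _ _).trans (h y hy)
    · exact (min_le_right _ _).trans (h' y hy)
  · intro x hx
    obtain ⟨b, hb, r, hr, h⟩ := hβ x (hKΩ hx)
    exact ⟨ball x r, mem_nhdsWithin_of_mem_nhds (ball_mem_nhds x hr), b, hb, h⟩

/-- a smooth radius function -/
theorem exists_smooth_radius {Ω : Set E3} (hΩ : IsOpen Ω) {β : E3 → ℝ} (hβ : LPos β Ω) :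
    ∃ δ : E3 → ℝ, ContDiffOn ℝ ∞ δ Ω ∧ ∀ x ∈ Ω, 0 < δ x ∧ δ x ≤ β x ∧ ‖fderiv ℝ δ x‖ ≤ β x := by
  rcases eq_empty_or_nonempty Ω with rfl | hne
  · exact ⟨0, contDiffOn_const, fun x hx => absurd hx (notMem_empty x)⟩
  let ι := {f : E3 → ℝ // tsupport f ⊆ Ω ∧ HasCompactSupport f ∧ ContDiff ℝ ∞ f ∧
    range f ⊆ Icc 0 1}
  obtain ⟨T, T_count, hT⟩ : ∃ T : Set ι, T.Countable ∧
      ⋃ f ∈ T, Function.support (f : E3 → ℝ) = Ω := by
    have : ⋃ f : ι, Function.support (f : E3 → ℝ) = Ω := by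
      refine Subset.antisymm (iUnion_subset fun f => (subset_tsupport _).trans f.2.1) ?_
      intro x hx
      rcases exists_contDiff_tsupport_subset (hΩ.mem_nhds hx) with ⟨f, hf⟩
      let g : ι := ⟨f, hf.1, hf.2.1, hf.2.2.1, hf.2.2.2.1⟩
      have : x ∈ Function.support (g : E3 → ℝ) := by
        simp only [g, hf.2.2.2.2, Function.mem_support, Ne, one_ne_zero, not_false_iff]
      exact mem_iUnion_of_mem _ this
    simp_rw [← this]
    apply TopologicalSpace.isOpen_iUnion_countable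
    rintro ⟨f, hf⟩
    exact hf.2.2.1.continuous.isOpen_support
  have hTne : T.Nonempty := by
    rcases eq_empty_or_nonempty T with rfl | h
    · obtain ⟨x, hx⟩ := hne
      rw [← hT] at hx
      simp at hx
    · exact h
  obtain ⟨g0, hg⟩ : ∃ g0 : ℕ → ι, T = range g0 := T_count.exists_eq_range hTne
  let g : ℕ → E3 → ℝ := fun n => (g0 n).1
  have g_t : ∀ n, tsupport (g n) ⊆ Ω := fun n => (g0 n).2.1
  have s_g : ∀ x ∈ Ω, ∃ n, g n x ≠ 0 := by
    intro x hx
    rw [← hT] at hx
    obtain ⟨i, iT, hi⟩ : ∃ i ∈ T, x ∈ Function.support (i : E3 → ℝ) := by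
      simpa only [mem_iUnion, exists_prop] using hx
    rw [hg] at iT
    obtain ⟨n, rfl⟩ := iT
    exact ⟨n, hi⟩
  have g_smooth : ∀ n, ContDiff ℝ ∞ (g n) := fun n => (g0 n).2.2.2.1
  have g_comp : ∀ n, HasCompactSupport (g n) := fun n => (g0 n).2.2.1
  have g_nonneg : ∀ n x, 0 ≤ g n x := fun n x => ((g0 n).2.2.2.2 (mem_range_self x)).1
  have hlow : ∀ n, ∃ b > 0, ∀ y ∈ tsupport (g n), b ≤ β y := fun n =>
    mob_lower hβ (g_comp n).isCompact (g_t n)
  choose b hb0 hb using hlow
  let v : ℕ → ℝ := fun n => 1 / 2 / 2 ^ n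
  have hv0 : ∀ n, 0 < v n := fun n => by positivity
  have hv : HasSum v 1 := hasSum_geometric_two' 1
  have hr : ∀ n : ℕ, ∃ r : ℝ, 0 < r ∧
      ∀ i ≤ n + 1, ∀ x, ‖iteratedFDeriv ℝ i (r • g n) x‖ ≤ v n * min (b n) 1 := by
    intro n
    have hR : ∀ i, ∃ R, ∀ x, ‖iteratedFDeriv ℝ i (fun x => g n x) x‖ ≤ R := by
      intro i
      have hbdd : BddAbove (range fun x => ‖iteratedFDeriv ℝ i (fun x : E3 => g n x) x‖) := by
        apply ((g_smooth n).continuous_iteratedFDeriv
          (mod_cast le_top)).norm.bddAbove_range_of_hasCompactSupport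
        apply HasCompactSupport.comp_left _ norm_zero
        apply (g_comp n).iteratedFDeriv
      rcases hbdd with ⟨R, hR⟩
      exact ⟨R, fun x => hR (mem_range_self _)⟩
    choose R hR using hR
    let M := max (((Finset.range (n + 2)).image R).max' (by simp)) 1
    have hM1 : 1 ≤ M := le_max_right _ _
    have hM0 : 0 < M := lt_of_lt_of_le one_pos hM1
    have IR : ∀ i ≤ n + 1, R i ≤ M := by
      intro i hi
      refine le_trans ?_ (le_max_left _ _)
      apply Finset.le_max'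
      apply Finset.mem_image_of_mem
      simp only [Finset.mem_range]
      lia
    have hmin : 0 < min (b n) 1 := lt_min (hb0 n) one_pos
    have hvn := hv0 n
    refine ⟨M⁻¹ * (v n * min (b n) 1), by positivity, fun i hi x => ?_⟩
    calc
      ‖iteratedFDeriv ℝ i ((M⁻¹ * (v n * min (b n) 1)) • g n) x‖
          = ‖(M⁻¹ * (v n * min (b n) 1)) • iteratedFDeriv ℝ i (g n) x‖ := by
        rw [iteratedFDeriv_const_smul_apply]
        exact (g_smooth n).contDiffAt.of_le (mod_cast le_top)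
      _ = M⁻¹ * (v n * min (b n) 1) * ‖iteratedFDeriv ℝ i (g n) x‖ := by
        rw [norm_smul _ (iteratedFDeriv ℝ i (g n) x), Real.norm_of_nonneg]
        positivity
      _ ≤ M⁻¹ * (v n * min (b n) 1) * M := by
        gcongr
        exact (hR i x).trans (IR i hi)
      _ = v n * min (b n) 1 := by field_simp
  choose r rpos hr using hr
  have hle_v : ∀ n, v n * min (b n) 1 ≤ v n := fun n =>
    mul_le_of_le_one_right (hv0 n).le (min_le_right _ _)
  have h0 : ∀ n x, |(r n • g n) x| ≤ v n * min (b n) 1 := by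
    intro n x
    have := hr n 0 (Nat.zero_le _) x
    rwa [norm_iteratedFDeriv_zero, Real.norm_eq_abs] at this
  have h1 : ∀ n x, ‖fderiv ℝ (r n • g n) x‖ ≤ v n * min (b n) 1 := by
    intro n x
    have := hr n 1 (Nat.le_add_left _ _) x
    rwa [norm_iteratedFDeriv_one] at this
  have hS : ∀ x, Summable fun n => (r n • g n) x := fun x =>
    Summable.of_norm_bounded hv.summable fun n => by
      rw [Real.norm_eq_abs]
      exact (h0 n x).trans (hle_v n)
  have hβ0 : ∀ x ∈ Ω, 0 < β x := fun x hx => by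
    obtain ⟨c, hc, ε, hε, h⟩ := hβ x hx
    exact hc.trans_le (h x (mem_ball_self hε))
  -- pointwise bounds
  have hpt : ∀ x ∈ Ω, ∀ n, |(r n • g n) x| ≤ β x / 2 / 2 ^ n ∧
      ‖fderiv ℝ (r n • g n) x‖ ≤ β x / 2 / 2 ^ n := by
    intro x hx n
    have hβx := hβ0 x hx
    have e1 : β x / 2 / 2 ^ n = v n * β x := by
      change _ = 1 / 2 / 2 ^ n * β x
      ring
    by_cases hxs : x ∈ tsupport (g n)
    · have h2 : v n * min (b n) 1 ≤ v n * β x :=
        mul_le_mul_of_nonneg_left ((min_le_left _ _).trans (hb n x hxs)) (hv0 n).le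
      rw [e1]
      exact ⟨(h0 n x).trans h2, (h1 n x).trans h2⟩
    · have h3 : g n x = 0 := image_eq_zero_of_notMem_tsupport hxs
      have h4 : fderiv ℝ (r n • g n) x = 0 := by
        have h5 : (r n • g n) =ᶠ[𝓝 x] fun _ => (0 : ℝ) := by
          have h6 : (tsupport (g n))ᶜ ∈ 𝓝 x := (isClosed_tsupport (g n)).isOpen_compl.mem_nhds hxs
          filter_upwards [h6] with y hy
          simp [image_eq_zero_of_notMem_tsupport hy]
        rw [h5.fderiv_eq]
        simp
      refine ⟨?_, ?_⟩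
      · simp only [Pi.smul_apply, smul_eq_mul, h3, mul_zero, abs_zero]
        positivity
      · rw [h4, norm_zero]
        positivity
  refine ⟨fun x => ∑' n, (r n • g n) x, ?_, fun x hx => ⟨?_, ?_, ?_⟩⟩
  · refine ContDiff.contDiffOn ?_
    refine contDiff_tsum_of_eventually (v := fun _ n => v n)
      (fun k => (g_smooth k).const_smul (r k)) (fun k _ => hv.summable) ?_
    intro i _
    simp only [Nat.cofinite_eq_atTop, Filter.eventually_atTop]
    exact ⟨i, fun n hn x => (hr _ _ (by lia) _).trans (hle_v n)⟩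
  · obtain ⟨n, hn⟩ := s_g x hx
    have I : 0 < r n * g n x := mul_pos (rpos n) (lt_of_le_of_ne (g_nonneg n x) (Ne.symm hn))
    exact (hS x).tsum_pos (fun i => mul_nonneg (rpos i).le (g_nonneg i x)) n I
  · have A : HasSum (fun n : ℕ => β x / 2 / 2 ^ n) (β x) := hasSum_geometric_two' (β x)
    rw [← A.tsum_eq]
    exact Summable.tsum_le_tsum (fun n => (le_abs_self _).trans (hpt x hx n).1) (hS x) A.summable
  · have A : HasSum (fun n : ℕ => β x / 2 / 2 ^ n) (β x) := hasSum_geometric_two' (β x)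
    have h5 : fderiv ℝ (fun y => ∑' n, (r n • g n) y) x = ∑' n, fderiv ℝ (r n • g n) x := by
      refine fderiv_tsum_apply (u := v) hv.summable (fun n => ?_)
        (fun n y => (h1 n y).trans (hle_v n)) (hS x) x
      exact ((g_smooth n).const_smul (r n)).differentiable (by simp)
    rw [h5]
    exact tsum_of_norm_bounded A fun n => (hpt x hx n).2

end SM
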