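import Pool.Agent.SM.Defs

/-!
# Project SM, module SRD
-/

open Set Metric Filter Topology MeasureTheory
open scoped ContDiff Pointwise

noncomputable section

namespace SM

variable {X Y : Type*} [NormedAddCommGroup X] [NormedSpace ℝ X] [FiniteDimensional ℝ X]
  [NormedAddCommGroup Y] [NormedSpace ℝ Y] [FiniteDimensional ℝ Y]

theorem secOn_of_rightDeriv {f : X → Y} {K : Set (X →L[ℝ] Y)} {U : Set X} (hU : Convex ℝ U)
    (hKc : Convex ℝ K) (hKK : IsCompact K) (hf : ContinuousOn f U)
    (hd : ∀ x ∈ U, ∀ d, x + d ∈ U →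
      ∃ M ∈ K, HasDerivWithinAt (fun s : ℝ => f (x + s • d)) (M d) (Ici 0) 0) :
    SecOn f K U := by
  intro x hx x' hx'
  -- evaluation at the direction
  have hseg : ∀ t ∈ Icc (0 : ℝ) 1, x + t • (x' - x) ∈ U := by
    intro t ht
    have h1 := hU.add_smul_sub_mem hx hx' ht
    exact h1
  set d : X := x' - x with hdd
  let ev : (X →L[ℝ] Y) →L[ℝ] Y := ContinuousLinearMap.apply ℝ Y d
  have hTc : Convex ℝ (ev '' K) := hKc.linear_image (ev : (X →L[ℝ] Y) →ₗ[ℝ] Y)
  have hTK : IsCompact (ev '' K) := hKK.image ev.continuous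
  by_cases hmem : f x' - f x ∈ ev '' K
  · obtain ⟨M, hM, hMe⟩ := hmem
    refine ⟨M, hM, ?_⟩
    have h1 : M d = f x' - f x := hMe
    have h2 : x - x' = - d := by
      rw [hdd]
      abel
    rw [h2, map_neg, h1]
    abel
  · exfalso
    obtain ⟨l, α, hl1, hl2⟩ := geometric_hahn_banach_closed_point hTc hTK.isClosed hmem
    have hder : ∀ s ∈ Ico (0 : ℝ) 1, ∃ M ∈ K,
        HasDerivWithinAt (fun t : ℝ => f (x + t • d)) (M d) (Ici s) s := by
      intro s hs
      have hs1 : 0 < 1 - s := by
        have := hs.2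
        linarith
      have hxs : x + s • d ∈ U := hseg s ⟨hs.1, hs.2.le⟩
      have hxs' : x + s • d + (1 - s) • d ∈ U := by
        have h1 : x + s • d + (1 - s) • d = x' := by
          rw [add_assoc, ← add_smul]
          have h2 : s + (1 - s) = 1 := by ring
          rw [h2, one_smul, hdd]
          abel
        rw [h1]
        exact hx'
      obtain ⟨M, hM, hMd⟩ := hd _ hxs _ hxs'
      refine ⟨M, hM, ?_⟩
      have hinner : HasDerivWithinAt (fun t : ℝ => (t - s) / (1 - s)) (1 / (1 - s)) (Ici s) s := by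
        exact (((hasDerivAt_id s).sub_const s).div_const (1 - s)).hasDerivWithinAt
      have hmaps : MapsTo (fun t : ℝ => (t - s) / (1 - s)) (Ici s) (Ici 0) := by
        intro t ht
        have ht' : s ≤ t := ht
        exact div_nonneg (by linarith) hs1.le
      have h0 : (fun t : ℝ => (t - s) / (1 - s)) s = 0 := by
        simp
      have hMd' : HasDerivWithinAt (fun r : ℝ => f (x + s • d + r • (1 - s) • d))
          (M ((1 - s) • d)) (Ici 0) ((fun t : ℝ => (t - s) / (1 - s)) s) := by
        rw [h0]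
        exact hMd
      have hcomp := hMd'.scomp s hinner hmaps
      have h5 : (1 / (1 - s)) • M ((1 - s) • d) = M d := by
        rw [map_smul, smul_smul, one_div, inv_mul_cancel₀ hs1.ne', one_smul]
      rw [h5] at hcomp
      refine hcomp.congr_of_eventuallyEq ?_ ?_
      · refine Eventually.of_forall ?_
        intro t
        show f (x + t • d) = f (x + s • d + ((t - s) / (1 - s)) • (1 - s) • d)
        rw [smul_smul, div_mul_cancel₀ _ hs1.ne', add_assoc, ← add_smul]
        congr 3
        ring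
      · show f (x + s • d) = f (x + s • d + ((s - s) / (1 - s)) • (1 - s) • d)
        rw [sub_self, zero_div, zero_smul, add_zero]
    choose! M hMK hMder using hder
    have hcont : ContinuousOn (fun t : ℝ => l (f (x + t • d))) (Icc 0 1) := by
      apply l.continuous.comp_continuousOn
      apply hf.comp
      · exact (continuous_const.add (continuous_id.smul continuous_const)).continuousOn
      · intro t ht
        exact hseg t ht
    have h6 := image_le_of_deriv_right_le_deriv_boundary (f := fun t : ℝ => l (f (x + t • d)))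
      (f' := fun t => l ((M t) d)) (a := 0) (b := 1) hcont
      (fun t ht => (l.hasFDerivAt.comp_hasDerivWithinAt t (hMder t ht)))
      (B := fun t => l (f x) + α * t) (B' := fun _ => α)
      (by simp)
      (continuous_const.add (continuous_const.mul continuous_id)).continuousOn
      (fun t _ => by
        have h7 : HasDerivAt (fun t : ℝ => l (f x) + α * t) (0 + α * 1) t :=
          (hasDerivAt_const t _).add ((hasDerivAt_id t).const_mul α)
        rw [zero_add, mul_one] at h7
        exact h7.hasDerivWithinAt)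
      (fun t ht => (hl1 _ ⟨M t, hMK t ht, rfl⟩).le)
    have h8 := h6 (right_mem_Icc.mpr zero_le_one)
    have h9 : x + (1 : ℝ) • d = x' := by
      rw [one_smul, hdd]
      abel
    simp only [h9, mul_one] at h8
    rw [map_sub] at hl2
    linarith

/-- locally `C`-Lipschitz on a convex set implies `C`-Lipschitz -/
theorem lip_of_lipAt {f : X → Y} {C : ℝ} {U : Set X} (hU : Convex ℝ U)
    (h : ∀ x ∈ U, LipAt C f x) : ∀ x ∈ U, ∀ x' ∈ U, ‖f x - f x'‖ ≤ C * ‖x - x'‖ := by
  intro x hx x' hx'
  have hseg : ∀ t ∈ Icc (0 : ℝ) 1, x + t • (x' - x) ∈ U := by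
    intro t ht
    exact hU.add_smul_sub_mem hx hx' ht
  set d : X := x' - x with hdd
  have hcontf : ∀ y ∈ U, ContinuousAt f y := by
    intro y hy
    obtain ⟨r, hr, hl⟩ := h y hy
    rw [Metric.continuousAt_iff]
    intro ε hε
    refine ⟨min r (ε / (|C| + 1)), lt_min hr (by positivity), ?_⟩
    intro z hz
    have hz1 : z ∈ ball y r := lt_of_lt_of_le hz (min_le_left _ _)
    have hz2 : dist z y < ε / (|C| + 1) := lt_of_lt_of_le hz (min_le_right _ _)
    have h1 := hl z hz1 y (mem_ball_self hr)
    rw [dist_eq_norm] at hz2 ⊢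
    have h2 : C * ‖z - y‖ ≤ (|C| + 1) * ‖z - y‖ := by
      apply mul_le_mul_of_nonneg_right _ (norm_nonneg _)
      have := le_abs_self C
      linarith
    have h3 : (|C| + 1) * ‖z - y‖ < ε := by
      have h4 : 0 < |C| + 1 := by positivity
      rw [lt_div_iff₀ h4] at hz2
      linarith
    linarith
  have hcont : ContinuousOn (fun t : ℝ => f (x + t • d)) (Icc 0 1) := by
    intro t ht
    have h1 : ContinuousAt (fun t : ℝ => x + t • d) t :=
      (continuous_const.add (continuous_id.smul continuous_const)).continuousAt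
    exact (ContinuousAt.comp (g := f) (f := fun t : ℝ => x + t • d)
      (hcontf _ (hseg t ht)) h1).continuousWithinAt
  have hclosed : IsClosed ({t : ℝ | ‖f (x + t • d) - f x‖ ≤ C * (t * ‖d‖)} ∩ Icc 0 1) := by
    have h1 : {t : ℝ | ‖f (x + t • d) - f x‖ ≤ C * (t * ‖d‖)} ∩ Icc 0 1 =
        {t ∈ Icc (0 : ℝ) 1 | ‖f (x + t • d) - f x‖ ≤ C * (t * ‖d‖)} := by
      ext t
      constructor
      · rintro ⟨h2, h3⟩
        exact ⟨h3, h2⟩
      · rintro ⟨h2, h3⟩
        exact ⟨h3, h2⟩
    rw [h1]
    apply isClosed_Icc.isClosed_le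
    · exact (hcont.sub continuousOn_const).norm
    · exact (continuous_const.mul (continuous_id.mul continuous_const)).continuousOn
  have h0 : (0 : ℝ) ∈ {t : ℝ | ‖f (x + t • d) - f x‖ ≤ C * (t * ‖d‖)} := by
    simp
  have hsub := hclosed.Icc_subset_of_forall_mem_nhdsWithin h0 (by
    rintro t ⟨ht, ht2⟩
    have ht' : ‖f (x + t • d) - f x‖ ≤ C * (t * ‖d‖) := ht
    obtain ⟨r, hr, hl⟩ := h _ (hseg t ⟨ht2.1, ht2.2.le⟩)
    have h1 : ContinuousAt (fun t : ℝ => x + t • d) t :=
      (continuous_const.add (continuous_id.smul continuous_const)).continuousAt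
    have h2 : ∀ᶠ s in 𝓝 t, x + s • d ∈ ball (x + t • d) r := h1 (ball_mem_nhds _ hr)
    have h3 : ∀ᶠ s in 𝓝[>] t, x + s • d ∈ ball (x + t • d) r := h2.filter_mono nhdsWithin_le_nhds
    filter_upwards [h3, self_mem_nhdsWithin] with s hs hst
    have hst' : t < s := hst
    have h4 := hl _ hs _ (mem_ball_self hr)
    have h5 : x + s • d - (x + t • d) = (s - t) • d := by
      rw [sub_smul]
      abel
    rw [h5, norm_smul, Real.norm_eq_abs, abs_of_pos (by linarith : (0 : ℝ) < s - t)] at h4
    show ‖f (x + s • d) - f x‖ ≤ C * (s * ‖d‖)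
    calc ‖f (x + s • d) - f x‖ = ‖(f (x + s • d) - f (x + t • d)) + (f (x + t • d) - f x)‖ := by
          congr 1
          abel
      _ ≤ ‖f (x + s • d) - f (x + t • d)‖ + ‖f (x + t • d) - f x‖ := norm_add_le _ _
      _ ≤ C * ((s - t) * ‖d‖) + C * (t * ‖d‖) := add_le_add h4 ht'
      _ = C * (s * ‖d‖) := by ring)
  have h1 : ‖f (x + (1 : ℝ) • d) - f x‖ ≤ C * ((1 : ℝ) * ‖d‖) :=
    hsub (right_mem_Icc.mpr zero_le_one)
  have h9 : x + (1 : ℝ) • d = x' := by
    rw [one_smul, hdd]
    abel
  rw [h9, one_mul] at h1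
  rw [norm_sub_rev (f x) (f x'), norm_sub_rev x x']
  exact h1

end SM
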