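import Pool.Agent.SM.Defs
import Pool.Agent.SM.Sec
import Pool.Agent.SM.Srd
import Pool.Agent.SM.Opn
import Pool.Agent.SM.Moa
import Pool.Agent.SM.Mob

/-!
# Project SM, module MST
-/

open Set Metric Filter Topology MeasureTheory
open scoped ContDiff Pointwise

noncomputable section

namespace SM

/-- local radii can be chosen in a locally positive (and Lipschitz) way -/
private theorem mst_sup {P : E3 → ℝ → Prop} {Ω : Set E3}
    (mono : ∀ x r r', 0 < r' → r' ≤ r → P x r → P x r')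
    (loc : ∀ x ∈ Ω, ∃ r > 0, ∃ ε > 0, ∀ y ∈ ball x ε, P y r) :
    ∃ b : E3 → ℝ, LPos b Ω ∧ (∀ x ∈ Ω, 0 < b x ∧ b x ≤ 1 / 2 ∧ P x (b x)) ∧
      ((∀ x y r, P x r → ‖y - x‖ < r → P y (r - ‖y - x‖)) →
        ∀ x y, b x ≤ b y + ‖y - x‖ / 2) := by
  classical
  let S : E3 → Set ℝ := fun x => {r | 0 < r ∧ r ≤ 1 ∧ P x r}
  have hbdd : ∀ x, BddAbove (S x) := fun x => ⟨1, fun r hr => hr.2.1⟩
  have hnn : ∀ x, 0 ≤ sSup (S x) := fun x => Real.sSup_nonneg fun r hr => hr.1.le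
  have hle : ∀ x, sSup (S x) ≤ 1 := fun x => Real.sSup_le (fun r hr => hr.2.1) zero_le_one
  have hloc : ∀ x ∈ Ω, ∃ r > 0, r ≤ 1 ∧ ∃ ε > 0, ∀ y ∈ ball x ε, r ∈ S y := by
    intro x hx
    obtain ⟨r, hr, ε, hε, h⟩ := loc x hx
    refine ⟨min r 1, lt_min hr one_pos, min_le_right _ _, ε, hε, fun y hy => ?_⟩
    exact ⟨lt_min hr one_pos, min_le_right _ _,
      mono y r _ (lt_min hr one_pos) (min_le_left _ _) (h y hy)⟩
  refine ⟨fun x => sSup (S x) / 2, ?_, ?_, ?_⟩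
  · intro x hx
    obtain ⟨r, hr, hr1, ε, hε, h⟩ := hloc x hx
    refine ⟨r / 2, by positivity, ε, hε, fun y hy => ?_⟩
    have := le_csSup (hbdd y) (h y hy)
    change r / 2 ≤ sSup (S y) / 2
    linarith
  · intro x hx
    obtain ⟨r, hr, hr1, ε, hε, h⟩ := hloc x hx
    have h1 := le_csSup (hbdd x) (h x (mem_ball_self hε))
    have hpos : 0 < sSup (S x) := hr.trans_le h1
    have h2 := hle x
    refine ⟨by change 0 < sSup (S x) / 2; positivity, ?_, ?_⟩
    · change sSup (S x) / 2 ≤ 1 / 2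
      linarith
    · obtain ⟨r', hr', hlt⟩ := exists_lt_of_lt_csSup ⟨r, h x (mem_ball_self hε)⟩
        (show sSup (S x) / 2 < sSup (S x) by linarith)
      exact mono x r' _ (by positivity) hlt.le hr'.2.2
  · intro hP x y
    change sSup (S x) / 2 ≤ sSup (S y) / 2 + ‖y - x‖ / 2
    have : sSup (S x) ≤ sSup (S y) + ‖y - x‖ := by
      refine Real.sSup_le (fun r hr => ?_) (add_nonneg (hnn y) (norm_nonneg _))
      rcases lt_or_ge ‖y - x‖ r with hlt | hge
      · have h3 : r - ‖y - x‖ ∈ S y := by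
          refine ⟨by linarith, by linarith [hr.2.1, norm_nonneg (y - x)], hP x y r hr.2.2 hlt⟩
        have := le_csSup (hbdd y) h3
        linarith
      · linarith [hnn y]
    linarith

/-- the quality radius -/
private theorem mst_quality {Ω : Set E3} (hΩ : IsOpen Ω) {F : E3 → E3}
    (hgood : ∀ x ∈ Ω, ∃ c > 0, SecGood c F x) :
    ∃ s : E3 → ℝ, (∀ x y, s x ≤ s y + ‖y - x‖ / 2) ∧ ∀ x ∈ Ω, 0 < s x ∧ s x ≤ 1 / 2 ∧
      ball x (s x) ⊆ Ω ∧ ∃ K : Set (E3 →L[ℝ] E3), GoodSet (s x) K ∧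
        (∀ M ∈ K, ‖M‖ ≤ (s x)⁻¹) ∧ SecOn F K (ball x (s x)) := by
  have hsup := @mst_sup (fun x r => 0 < r ∧ ball x r ⊆ Ω ∧ ∃ K : Set (E3 →L[ℝ] E3), GoodSet r K ∧
        (∀ M ∈ K, ‖M‖ ≤ r⁻¹) ∧ SecOn F K (ball x r)) Ω
  refine (?_ : _ → _) (hsup ?_ ?_)
  · rintro ⟨b, -, hb, hlip⟩
    refine ⟨b, hlip ?_, fun x hx => ?_⟩
    · rintro x y r ⟨hr, hsub, K, hK, hn, hsec⟩ hyx
      have h1 : ball y (r - ‖y - x‖) ⊆ ball x r := by
        refine ball_subset_ball' ?_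
        rw [dist_eq_norm]
        linarith
      have h2 : 0 < r - ‖y - x‖ := by linarith
      refine ⟨h2, h1.trans hsub, K, hK.mono (by linarith [norm_nonneg (y - x)]), fun M hM => ?_,
        fun z hz z' hz' => hsec z (h1 hz) z' (h1 hz')⟩
      refine (hn M hM).trans ?_
      gcongr
      linarith [norm_nonneg (y - x)]
    · obtain ⟨h1, h2, h3, h4, h5⟩ := hb x hx
      exact ⟨h1, h2, h4, h5⟩
  · rintro x r r' hr' hle ⟨hr, hsub, K, hK, hn, hsec⟩
    have h1 : ball x r' ⊆ ball x r := ball_subset_ball hle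
    refine ⟨hr', h1.trans hsub, K, hK.mono hle, fun M hM => ?_,
        fun z hz z' hz' => hsec z (h1 hz) z' (h1 hz')⟩
    refine (hn M hM).trans ?_
    gcongr
  · intro x hx
    obtain ⟨c, hc, K, hK, r, hr, hsec⟩ := hgood x hx
    obtain ⟨r₁, hr₁, hsub⟩ := Metric.isOpen_iff.1 hΩ x hx
    obtain ⟨B, hB⟩ := hK.compact.isBounded.exists_norm_le
    have hB' : 0 < max B 1 := lt_of_lt_of_le one_pos (le_max_right _ _)
    set t : ℝ := min (min (r / 2) (r₁ / 2)) (min c (max B 1)⁻¹) with ht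
    have ht0 : 0 < t := by
      rw [ht]
      refine lt_min (lt_min (by positivity) (by positivity)) (lt_min hc (by positivity))
    have ht1 : t ≤ r / 2 := (min_le_left _ _).trans (min_le_left _ _)
    have ht2 : t ≤ r₁ / 2 := (min_le_left _ _).trans (min_le_right _ _)
    have ht3 : t ≤ c := (min_le_right _ _).trans (min_le_left _ _)
    have ht4 : t ≤ (max B 1)⁻¹ := (min_le_right _ _).trans (min_le_right _ _)
    refine ⟨t, ht0, t, ht0, fun y hy => ?_⟩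
    have hy' : dist y x < t := hy
    have h1 : ball y t ⊆ ball x r := ball_subset_ball' (by linarith)
    have h2 : ball y t ⊆ ball x r₁ := ball_subset_ball' (by linarith)
    refine ⟨ht0, h2.trans hsub, K, hK.mono ht3, fun M hM => ?_,
        fun z hz z' hz' => hsec z (h1 hz) z' (h1 hz')⟩
    refine (hB M hM).trans ?_
    refine (le_max_left B 1).trans ?_
    exact (le_inv_comm₀ ht0 hB').1 ht4

/-- separation radius -/
private theorem mst_sep {Ω : Set E3} (hΩ : IsOpen Ω) {F : E3 → E3} (hinj : InjOn F Ω)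
    (hgood : ∀ x ∈ Ω, ∃ c > 0, SecGood c F x) {s : E3 → ℝ}
    (hs : ∀ x y, s x ≤ s y + ‖y - x‖ / 2) (hs0 : ∀ x ∈ Ω, 0 < s x) :
    ∃ m : E3 → ℝ, LPos m Ω ∧ ∀ x ∈ Ω, 0 < m x ∧
      ∀ y ∈ Ω, s x / 8 ≤ ‖y - x‖ → m x ≤ ‖F y - F x‖ := by
  have hsup := @mst_sup (fun x r => x ∈ Ω ∧ ∀ y ∈ Ω, s x / 8 ≤ ‖y - x‖ → r ≤ ‖F y - F x‖) Ω
  refine (?_ : _ → _) (hsup ?_ ?_)
  · rintro ⟨b, hb1, hb, -⟩
    exact ⟨b, hb1, fun x hx => ⟨(hb x hx).1, (hb x hx).2.2.2⟩⟩
  · rintro x r r' - hle ⟨hx, h⟩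
    exact ⟨hx, fun y hy hxy => hle.trans (h y hy hxy)⟩
  · intro x hx
    have hsx := hs0 x hx
    obtain ⟨m, hm, hmm⟩ := separation hΩ hinj hgood x hx (s x / 32) (by positivity)
    obtain ⟨c, hc, hcg⟩ := hgood x hx
    have hcont := hcg.continuousAt
    obtain ⟨ε₁, hε₁, h₁⟩ := Metric.continuousAt_iff.1 hcont (m / 2) (by positivity)
    obtain ⟨ε₂, hε₂, h₂⟩ := Metric.isOpen_iff.1 hΩ x hx
    refine ⟨m / 2, by positivity, min (min ε₁ ε₂) (s x / 32),
      lt_min (lt_min hε₁ hε₂) (by positivity), fun y hy => ?_⟩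
    have hy' : dist y x < min (min ε₁ ε₂) (s x / 32) := hy
    have hy1 : dist y x < ε₁ := hy'.trans_le ((min_le_left _ _).trans (min_le_left _ _))
    have hy2 : dist y x < ε₂ := hy'.trans_le ((min_le_left _ _).trans (min_le_right _ _))
    have hy3 : dist y x < s x / 32 := hy'.trans_le (min_le_right _ _)
    refine ⟨h₂ hy2, fun z hz hzy => ?_⟩
    have h3 := h₁ hy1
    rw [dist_eq_norm] at h3 hy3
    have h4 := hs x y
    have h5 : ‖z - y‖ ≤ ‖z - x‖ + ‖y - x‖ := by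
      have : z - y = (z - x) - (y - x) := by abel
      rw [this]
      exact norm_sub_le _ _
    have h6 := hmm z hz (by linarith)
    have h7 : ‖F z - F x‖ ≤ ‖F z - F y‖ + ‖F y - F x‖ := by
      have : F z - F x = (F z - F y) + (F y - F x) := by abel
      rw [this]
      exact norm_add_le _ _
    linarith

/-- Lipschitz radius -/
private theorem mst_lip {Ω : Set E3} (hΩ : IsOpen Ω) {F : E3 → E3} {Λ : E3 → ℝ}
    (hΛc : ContinuousOn Λ Ω) (hΛ : ∀ x ∈ Ω, LipAt (Λ x) F x) :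
    ∃ ρ : E3 → ℝ, LPos ρ Ω ∧ ∀ x ∈ Ω, 0 < ρ x ∧ ball x (ρ x) ⊆ Ω ∧
      ∀ y ∈ ball x (ρ x), ∀ y' ∈ ball x (ρ x), ‖F y - F y'‖ ≤ (Λ x + 1 / 4) * ‖y - y'‖ := by
  have hsup := @mst_sup (fun x r => ball x r ⊆ Ω ∧ ∀ y ∈ ball x r, Λ y ≤ Λ x + 1 / 4) Ω
  refine (?_ : _ → _) (hsup ?_ ?_)
  · rintro ⟨b, hb1, hb, -⟩
    refine ⟨b, hb1, fun x hx => ⟨(hb x hx).1, (hb x hx).2.2.1, ?_⟩⟩
    obtain ⟨-, -, h1, h2⟩ := hb x hx
    refine lip_of_lipAt (convex_ball _ _) fun y hy => ?_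
    obtain ⟨r, hr, h⟩ := hΛ y (h1 hy)
    refine ⟨r, hr, fun z hz z' hz' => (h z hz z' hz').trans ?_⟩
    exact mul_le_mul_of_nonneg_right (h2 y hy) (norm_nonneg _)
  · rintro x r r' - hle ⟨h1, h2⟩
    exact ⟨(ball_subset_ball hle).trans h1, fun y hy => h2 y (ball_subset_ball hle hy)⟩
  · intro x hx
    obtain ⟨ε₁, hε₁, h₁⟩ := Metric.continuousAt_iff.1 (hΛc.continuousAt (hΩ.mem_nhds hx)) (1 / 8)
      (by norm_num)
    obtain ⟨ε₂, hε₂, h₂⟩ := Metric.isOpen_iff.1 hΩ x hx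
    have hε : 0 < min ε₁ ε₂ / 2 := by
      have := lt_min hε₁ hε₂
      positivity
    refine ⟨min ε₁ ε₂ / 2, hε, min ε₁ ε₂ / 2, hε, fun y hy => ?_⟩
    have hy' : dist y x < min ε₁ ε₂ / 2 := hy
    have hsub : ball y (min ε₁ ε₂ / 2) ⊆ ball x (min ε₁ ε₂) := ball_subset_ball' (by linarith)
    refine ⟨(hsub.trans (ball_subset_ball (min_le_right _ _))).trans h₂, fun z hz => ?_⟩
    have hz1 : dist z x < ε₁ := (ball_subset_ball (min_le_left _ _)) (hsub hz)
    have hy1 : dist y x < ε₁ := by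
      have := min_le_left ε₁ ε₂
      linarith
    have h3 := h₁ hz1
    have h4 := h₁ hy1
    rw [Real.dist_eq, abs_lt] at h3 h4
    linarith [h3.2, h4.1]

theorem mollify_step {Ω : Set E3} (hΩ : IsOpen Ω) {F : E3 → E3} (hinj : InjOn F Ω)
    (hgood : ∀ x ∈ Ω, ∃ c > 0, SecGood c F x) {Λ : E3 → ℝ} (hΛc : ContinuousOn Λ Ω)
    (hΛ0 : ∀ x ∈ Ω, 0 ≤ Λ x) (hΛ : ∀ x ∈ Ω, LipAt (Λ x) F x) {β : E3 → ℝ} (hβ : LPos β Ω) :
    ∃ g : E3 → E3, ContDiffOn ℝ ∞ g Ω ∧ InjOn g Ω ∧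
      (∀ x ∈ Ω, ∀ v, fderiv ℝ g x v = 0 → v = 0) ∧
      (∀ x ∈ Ω, ‖fderiv ℝ g x‖ ≤ 2 * Λ x + 1) ∧ (∀ x ∈ Ω, ‖g x - F x‖ ≤ β x) ∧
      ∀ x ∈ Ω, ∀ A : E3 →L[ℝ] E3, (∀ y ∈ ball x (β x), F y - F x = A (y - x)) →
        g =ᶠ[𝓝 x] F := by
  obtain ⟨s, hslip, hs⟩ := mst_quality hΩ hgood
  obtain ⟨m, hm1, hm⟩ := mst_sep hΩ hinj hgood hslip fun x hx => (hs x hx).1
  obtain ⟨ρ, hρ1, hρ⟩ := mst_lip hΩ hΛc hΛ
  have hFc : ContinuousOn F Ω := fun x hx => by
    obtain ⟨c, -, hcg⟩ := hgood x hx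
    exact hcg.continuousAt.continuousWithinAt
  -- the bound for the radius
  have hsup := @mst_sup (fun x r => r ≤ s x ^ 2 / 200 ∧ r ≤ ρ x / 4 ∧
    r * (8 * (Λ x + 2)) ≤ m x ∧ r * (8 * (Λ x + 2)) ≤ β x ∧ r ≤ 1 / 8 ∧ 0 ≤ Λ x) Ω
  refine (?_ : _ → _) (hsup ?_ ?_)
  rotate_left
  · rintro x r r' hr' hle ⟨h1, h2, h3, h4, h5, h6⟩
    have h7 : r' * (8 * (Λ x + 2)) ≤ r * (8 * (Λ x + 2)) :=
      mul_le_mul_of_nonneg_right hle (by positivity)
    exact ⟨by linarith, by linarith, by linarith, by linarith, by linarith, h6⟩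
  · intro x hx
    obtain ⟨m₀, hm₀, ε₁, hε₁, h₁⟩ := hm1 x hx
    obtain ⟨ρ₀, hρ₀, ε₂, hε₂, h₂⟩ := hρ1 x hx
    obtain ⟨β₀, hβ₀, ε₃, hε₃, h₃⟩ := hβ x hx
    obtain ⟨ε₄, hε₄, h₄⟩ := Metric.continuousAt_iff.1 (hΛc.continuousAt (hΩ.mem_nhds hx)) 1
      one_pos
    obtain ⟨ε₅, hε₅, h₅⟩ := Metric.isOpen_iff.1 hΩ x hx
    have hsx := (hs x hx).1
    have hΛx := hΛ0 x hx
    set r : ℝ := min (min (s x ^ 2 / 800) (ρ₀ / 4)) (min (min (m₀ / (8 * (Λ x + 3)))
      (β₀ / (8 * (Λ x + 3)))) (1 / 8)) with hr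
    have hD : 0 < 8 * (Λ x + 3) := by positivity
    have hr0 : 0 < r := by
      rw [hr]
      refine lt_min (lt_min (by positivity) (by positivity))
        (lt_min (lt_min (by positivity) (by positivity)) (by norm_num))
    have hr1 : r ≤ s x ^ 2 / 800 := (min_le_left _ _).trans (min_le_left _ _)
    have hr2 : r ≤ ρ₀ / 4 := (min_le_left _ _).trans (min_le_right _ _)
    have hr3 : r ≤ m₀ / (8 * (Λ x + 3)) :=
      (min_le_right _ _).trans ((min_le_left _ _).trans (min_le_left _ _))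
    have hr4 : r ≤ β₀ / (8 * (Λ x + 3)) :=
      (min_le_right _ _).trans ((min_le_left _ _).trans (min_le_right _ _))
    have hr5 : r ≤ 1 / 8 := (min_le_right _ _).trans (min_le_right _ _)
    rw [le_div_iff₀ hD] at hr3 hr4
    refine ⟨r, hr0, min (min (min ε₁ ε₂) (min ε₃ ε₄)) (min ε₅ (s x)), ?_, fun y hy => ?_⟩
    · exact lt_min (lt_min (lt_min hε₁ hε₂) (lt_min hε₃ hε₄)) (lt_min hε₅ hsx)
    · rw [mem_ball] at hy
      simp only [lt_min_iff] at hy
      obtain ⟨⟨⟨hy1, hy2⟩, hy3, hy4⟩, hy5, hy6⟩ := hy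
      have hyΩ : y ∈ Ω := h₅ hy5
      have e1 := h₁ y hy1
      have e2 := h₂ y hy2
      have e3 := h₃ y hy3
      have e4 := h₄ hy4
      rw [Real.dist_eq, abs_lt] at e4
      rw [dist_eq_norm] at hy6
      have e5 := hslip x y
      have e6 : s x / 2 ≤ s y := by linarith
      have e7 : (s x / 2) ^ 2 ≤ s y ^ 2 := by gcongr
      have e8 := hΛ0 y hyΩ
      have e9 : r * (8 * (Λ y + 2)) ≤ r * (8 * (Λ x + 3)) := by
        refine mul_le_mul_of_nonneg_left ?_ hr0.le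
        linarith [e4.2]
      refine ⟨by linarith, by linarith, by linarith, by linarith, hr5, e8⟩
  rintro ⟨b, hb1, hb, -⟩
  obtain ⟨δ, hδs, hδ⟩ := exists_smooth_radius hΩ hb1
  have hδ0 : ∀ x ∈ Ω, 0 < δ x := fun x hx => (hδ x hx).1
  have hδb : ∀ x ∈ Ω, δ x ≤ b x := fun x hx => (hδ x hx).2.1
  have hδd : ∀ x ∈ Ω, ‖fderiv ℝ δ x‖ ≤ b x := fun x hx => (hδ x hx).2.2
  have hδc : ∀ x ∈ Ω, ContinuousAt δ x := fun x hx =>
    (hδs.continuousOn).continuousAt (hΩ.mem_nhds hx)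
  have hδD : ∀ x ∈ Ω, DifferentiableAt ℝ δ x := fun x hx =>
    ((hδs.differentiableOn (by simp)) x hx).differentiableAt (hΩ.mem_nhds hx)
  -- basic consequences
  have hbs : ∀ x ∈ Ω, b x ≤ s x ^ 2 / 200 := fun x hx => (hb x hx).2.2.1
  have hsmall : ∀ x ∈ Ω, δ x < s x := fun x hx => by
    have h1 := hδb x hx
    have h2 := hbs x hx
    have h3 := (hs x hx).1
    have h4 := (hs x hx).2.1
    nlinarith
  have hsub : ∀ x ∈ Ω, closedBall x (δ x) ⊆ Ω := fun x hx =>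
    (closedBall_subset_ball (hsmall x hx)).trans (hs x hx).2.2.1
  have hnear : ∀ x ∈ Ω, ‖moll F δ x - F x‖ ≤ (Λ x + 1 / 4) * δ x := by
    intro x hx
    obtain ⟨h1, h2, h3⟩ := hρ x hx
    have h4 : δ x < ρ x := by
      have e1 := hδb x hx
      have e2 := (hb x hx).2.2.2.1
      linarith
    refine moll_near (hδ0 x hx).le (hFc.mono (hsub x hx)) fun y hy => ?_
    exact h3 y (closedBall_subset_ball h4 hy) x (mem_ball_self h1)
  have hnear_m : ∀ x ∈ Ω, ‖moll F δ x - F x‖ ≤ m x / 8 := by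
    intro x hx
    refine (hnear x hx).trans ?_
    have h1 := hδb x hx
    have h2 := (hb x hx).2.2.2.2.1
    have h3 := hΛ0 x hx
    have h4 := hδ0 x hx
    nlinarith
  have hnear_b : ∀ x ∈ Ω, ‖moll F δ x - F x‖ ≤ β x := by
    intro x hx
    refine (hnear x hx).trans ?_
    have h1 := hδb x hx
    have h2 := (hb x hx).2.2.2.2.2.1
    have h3 := hΛ0 x hx
    have h4 := hδ0 x hx
    nlinarith
  -- local secants of the mollification
  have hloc : ∀ x ∈ Ω, ∀ K : Set (E3 →L[ℝ] E3), GoodSet (s x) K → (∀ M ∈ K, ‖M‖ ≤ (s x)⁻¹) →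
      SecOn F K (ball x (s x)) → ∀ y ∈ ball x (s x / 8), ∀ y' ∈ ball x (s x / 8),
      ∃ M ∈ K, ‖moll F δ y - moll F δ y' - M (y - y')‖ ≤ s x / 100 * ‖y - y'‖ := by
    intro x hx K hK hn hsec y hy y' hy'
    obtain ⟨hs0, hs1, hsΩ, -⟩ := hs x hx
    have hsz : ∀ z ∈ ball x (s x / 8), z ∈ Ω ∧ s z ≤ 17 / 16 * s x := by
      intro z hz
      refine ⟨hsΩ (ball_subset_ball (by linarith) hz), ?_⟩
      have h1 := hslip z x
      rw [mem_ball, dist_eq_norm] at hz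
      rw [norm_sub_rev] at h1
      linarith
    have hbz : ∀ z ∈ ball x (s x / 8), b z ≤ s x ^ 2 / 100 := by
      intro z hz
      obtain ⟨hzΩ, hz2⟩ := hsz z hz
      have h1 := hbs z hzΩ
      have h2 := (hs z hzΩ).1
      nlinarith
    have hcb : ∀ z ∈ ball x (s x / 8), closedBall z (δ z) ⊆ ball x (s x) := by
      intro z hz
      have h1 := hbz z hz
      have h2 := hδb z (hsz z hz).1
      rw [mem_ball] at hz
      refine closedBall_subset_ball' ?_
      nlinarith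
    obtain ⟨M, hM, hMM⟩ := moll_sec hK.convex hK.compact hn hsec (hδ0 y (hsz y hy).1).le
      (hδ0 y' (hsz y' hy').1).le (hcb y hy) (hcb y' hy')
    refine ⟨M, hM, hMM.trans ?_⟩
    have h5 : ‖δ y - δ y'‖ ≤ s x ^ 2 / 100 * ‖y - y'‖ :=
      (convex_ball x (s x / 8)).norm_image_sub_le_of_norm_fderiv_le
        (fun z hz => hδD z (hsz z hz).1)
        (fun z hz => (hδd z (hsz z hz).1).trans (hbz z hz)) hy' hy
    rw [Real.norm_eq_abs] at h5
    calc (s x)⁻¹ * |δ y - δ y'| ≤ (s x)⁻¹ * (s x ^ 2 / 100 * ‖y - y'‖) := by gcongr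
      _ = s x / 100 * ‖y - y'‖ := by field_simp
  have hsmooth : ContDiffOn ℝ ∞ (moll F δ) Ω := moll_smooth hΩ hΩ hFc hδs hδ0 hsub
  have hgD : ∀ x ∈ Ω, DifferentiableAt ℝ (moll F δ) x := fun x hx =>
    ((hsmooth.differentiableOn (by simp)) x hx).differentiableAt (hΩ.mem_nhds hx)
  refine ⟨moll F δ, hsmooth, ?_, ?_, ?_, hnear_b, ?_⟩
  · -- injectivity
    have key : ∀ x ∈ Ω, ∀ y ∈ Ω, s y ≤ s x → moll F δ x = moll F δ y → x = y := by
      intro x hx y hy hsy hxy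
      by_contra hne
      obtain ⟨hs0, hs1, hsΩ, K, hK, hn, hsec⟩ := hs x hx
      rcases lt_or_ge ‖y - x‖ (s x / 8) with hlt | hge
      · obtain ⟨M, hM, hMM⟩ := hloc x hx K hK hn hsec y (by rwa [mem_ball, dist_eq_norm]) x
          (mem_ball_self (by positivity))
        rw [hxy, sub_self, zero_sub, norm_neg] at hMM
        have h1 := hK.lower M hM (y - x)
        have h2 : 0 < ‖y - x‖ := norm_pos_iff.2 (sub_ne_zero.2 (Ne.symm hne))
        nlinarith
      · have h1 := (hm x hx).2 y hy hge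
        have h2 := (hm y hy).2 x hx (by rw [norm_sub_rev]; linarith)
        have h3 := hnear_m x hx
        have h4 := hnear_m y hy
        have h5 : ‖F y - F x‖ ≤ ‖moll F δ x - F x‖ + ‖moll F δ y - F y‖ := by
          have : F y - F x = (moll F δ x - F x) - (moll F δ y - F y) := by
            rw [hxy]
            abel
          rw [this]
          exact norm_sub_le _ _
        rw [norm_sub_rev] at h2
        have h6 := (hm x hx).1
        have h7 := (hm y hy).1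
        linarith
    intro x hx y hy hxy
    rcases le_total (s y) (s x) with h | h
    · exact key x hx y hy h hxy
    · exact (key y hy x hx h hxy.symm).symm
  · -- the derivative is injective
    intro x hx v hv
    obtain ⟨hs0, hs1, hsΩ, K, hK, hn, hsec⟩ := hs x hx
    have h1 : SecGood (s x - s x / 100) (moll F δ) x :=
      secGood_of_near hK (by positivity) (show 0 < s x / 8 by positivity)
        (hloc x hx K hK hn hsec)
    have h2 := h1.fderiv_lower (hgD x hx) v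
    rw [hv, norm_zero] at h2
    have h3 : 0 < s x - s x / 100 := by linarith
    have h4 : ‖v‖ ≤ 0 := by
      by_contra h
      rw [not_le] at h
      nlinarith
    exact norm_le_zero_iff.1 h4
  · -- bound for the derivative
    intro x hx
    obtain ⟨hρ0, hρΩ, hρl⟩ := hρ x hx
    have hΛx := hΛ0 x hx
    set L : ℝ := Λ x + 1 / 4 with hL
    have hL0 : 0 ≤ L := by positivity
    have hsec : SecOn F ({0} + closedBall (0 : E3 →L[ℝ] E3) L) (ball x (ρ x)) := by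
      refine secOn_of_near hL0 fun y hy y' hy' => ⟨0, rfl, ?_⟩
      simpa using hρl y hy y' hy'
    have : ProperSpace (E3 →L[ℝ] E3) := FiniteDimensional.proper ℝ _
    have hKc : Convex ℝ ({0} + closedBall (0 : E3 →L[ℝ] E3) L) :=
      (convex_singleton _).add (convex_closedBall _ _)
    have hKK : IsCompact ({0} + closedBall (0 : E3 →L[ℝ] E3) L) :=
      isCompact_singleton.add (isCompact_closedBall _ _)
    have hKn : ∀ M ∈ ({0} + closedBall (0 : E3 →L[ℝ] E3) L), ‖M‖ ≤ L := by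
      rintro M ⟨M₁, h₁, M₂, h₂, rfl⟩
      rw [mem_singleton_iff] at h₁
      rw [h₁]
      simpa using h₂
    have hδx : δ x < ρ x / 2 := by
      have e1 := hδb x hx
      have e2 := (hb x hx).2.2.2.1
      linarith
    have ev1 : ∀ᶠ y in 𝓝 x, δ y < ρ x / 2 := (hδc x hx).eventually (gt_mem_nhds hδx)
    have ev2 : ∀ᶠ y in 𝓝 x, ‖fderiv ℝ δ y‖ ≤ 1 / 8 := by
      filter_upwards [hΩ.mem_nhds hx] with y hy
      exact (hδd y hy).trans (hb y hy).2.2.2.2.2.2.1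
    obtain ⟨ε, hε, hεs⟩ := Metric.eventually_nhds_iff_ball.1
      ((ev1.and ev2).and ((hΩ.mem_nhds hx : ∀ᶠ y in 𝓝 x, y ∈ Ω)))
    have hlip : ∀ᶠ y in 𝓝 x, ‖moll F δ y - moll F δ x‖ ≤ (L * (9 / 8)) * ‖y - x‖ := by
      filter_upwards [ball_mem_nhds x (lt_min hε (show 0 < ρ x / 2 by positivity))] with y hy
      have hy1 : y ∈ ball x ε := ball_subset_ball (min_le_left _ _) hy
      have hy2 : dist y x < ρ x / 2 := ball_subset_ball (min_le_right _ _) hy
      obtain ⟨⟨e1, e2⟩, e3⟩ := hεs y hy1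
      obtain ⟨M, hM, hMM⟩ := moll_sec (x := y) (x' := x) hKc hKK hKn hsec (hδ0 y e3).le
        (hδ0 x hx).le (closedBall_subset_ball' (by linarith))
        (closedBall_subset_ball (by linarith))
      have h5 : ‖δ y - δ x‖ ≤ 1 / 8 * ‖y - x‖ :=
        (convex_ball x ε).norm_image_sub_le_of_norm_fderiv_le
          (fun z hz => hδD z (hεs z hz).2)
          (fun z hz => (hεs z hz).1.2) (mem_ball_self hε) hy1
      rw [Real.norm_eq_abs] at h5
      have h6 : ‖M (y - x)‖ ≤ L * ‖y - x‖ := (M.le_opNorm _).trans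
        (mul_le_mul_of_nonneg_right (hKn M hM) (norm_nonneg _))
      have h7 : ‖moll F δ y - moll F δ x‖ ≤
          ‖moll F δ y - moll F δ x - M (y - x)‖ + ‖M (y - x)‖ := by
        have : moll F δ y - moll F δ x = (moll F δ y - moll F δ x - M (y - x)) + M (y - x) := by
          abel
        nth_rewrite 1 [this]
        exact norm_add_le _ _
      nlinarith
    have h8 := (hgD x hx).hasFDerivAt.le_of_lip' (by positivity) hlip
    linarith
  · -- locally affine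
    intro x hx A hA
    have hδx : δ x < β x := by
      have e1 := hδb x hx
      have e2 := (hb x hx).2.2.2.2.2.1
      have e3 := hΛ0 x hx
      have e4 := hδ0 x hx
      nlinarith
    have ev1 : ∀ᶠ y in 𝓝 x, dist y x + δ y < β x := by
      have hc : ContinuousAt (fun y => dist y x + δ y) x :=
        (continuous_id.dist continuous_const).continuousAt.add (hδc x hx)
      refine hc.eventually (gt_mem_nhds ?_)
      simpa using hδx
    filter_upwards [ev1, hΩ.mem_nhds hx] with y hy hyΩ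
    have h1 : ∀ z ∈ ball x (β x), F z = A z + (F x - A x) := by
      intro z hz
      have h2 := hA z hz
      rw [map_sub] at h2
      rw [← sub_eq_zero]
      have : F z - (A z + (F x - A x)) = (F z - F x) - (A z - A x) := by abel
      rw [this, h2, sub_self]
    have h3 : closedBall y (δ y) ⊆ ball x (β x) := closedBall_subset_ball' (by linarith)
    rw [moll_affine (hδ0 y hyΩ).le fun z hz => h1 z (h3 hz),
      h1 y (h3 (mem_closedBall_self (hδ0 y hyΩ).le))]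

end SM
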