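import Pool.Agent.SM.Defs
import Pool.Agent.SM.Sec
import Pool.Agent.SM.Srd
import Pool.Agent.SM.Hc
import Pool.Agent.SM.Grm
import Pool.Agent.SM.Sta

/-!
# Project SM, module STB
-/

open Set Metric Filter Topology MeasureTheory
open scoped ContDiff Pointwise

set_option linter.unusedSectionVars false

noncomputable section

namespace SM

variable {f : E3 → E3} {Ω : Set E3}

theorem stb_stratum (hf : LocConic f Ω) (k : ℕ) (hk : k < 3) :
    volume {x | x ∈ Ω ∧ rk f x = k} = 0 := by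
  apply measure_null_of_locally_null
  rintro x ⟨hx, hxk⟩
  obtain ⟨hh, R, hR, hb, hc⟩ := hf.germ_spec hx
  refine ⟨ball x R ∩ {x | x ∈ Ω ∧ rk f x = k}, ?_, ?_⟩
  · rw [inter_comm]
    exact inter_mem_nhdsWithin _ (ball_mem_nhds x hR)
  · have hsub : ball x R ∩ {x | x ∈ Ω ∧ rk f x = k} ⊆
        (fun y => -x + y) ⁻¹' (lin (germ f x) : Set E3) := by
      rintro y ⟨hy, hyΩ, hyk⟩
      have hw : ‖-x + y‖ < R := by
        rw [mem_ball, dist_eq_norm] at hy
        rwa [neg_add_eq_sub]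
      obtain ⟨h1, h2, h3⟩ := sta_nearby hf hx hb hc hw
      have e : x + (-x + y) = y := by abel
      rw [e] at h1 h2 h3
      have h4 : Module.finrank ℝ (lin (germ f x)) = Module.finrank ℝ (lin (germ f y)) := by
        unfold rk at hxk hyk
        rw [hxk, hyk]
      rw [← Submodule.eq_of_le_of_finrank_eq h2 h4] at h3
      exact h3
    refine measure_mono_null hsub ?_
    rw [measure_preimage_add]
    apply Measure.addHaar_submodule
    intro htop
    unfold rk at hxk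
    rw [htop, finrank_top] at hxk
    have h3 : Module.finrank ℝ E3 = 3 := by simp [E3]
    omega

theorem volume_Zs (hf : LocConic f Ω) (_hΩ : IsOpen Ω) : volume (Zs f Ω) = 0 := by
  have hsub : Zs f Ω ⊆ ({x | x ∈ Ω ∧ rk f x = 0} ∪ {x | x ∈ Ω ∧ rk f x = 1}) ∪
      {x | x ∈ Ω ∧ rk f x = 2} := by
    rintro x ⟨hx, hx2⟩
    rcases (show rk f x = 0 ∨ rk f x = 1 ∨ rk f x = 2 by omega) with h | h | h
    · exact Or.inl (Or.inl ⟨hx, h⟩)
    · exact Or.inl (Or.inr ⟨hx, h⟩)
    · exact Or.inr ⟨hx, h⟩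
  refine measure_mono_null hsub ?_
  exact measure_union_null (measure_union_null (stb_stratum hf 0 (by norm_num))
    (stb_stratum hf 1 (by norm_num))) (stb_stratum hf 2 (by norm_num))

theorem isClosed_Zs (hf : LocConic f Ω) (_hΩ : IsOpen Ω) :
    ∃ C, IsClosed C ∧ Zs f Ω = C ∩ Ω := by
  refine ⟨{x | x ∈ Ω ∧ rk f x = 3}ᶜ, ?_, ?_⟩
  · rw [isClosed_compl_iff, Metric.isOpen_iff]
    rintro x ⟨hx, hx3⟩
    obtain ⟨r, hr, h⟩ := rk_nearby hf hx
    refine ⟨r, hr, fun y hy => ?_⟩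
    obtain ⟨h1, h2, -⟩ := h y hy
    have h3 := rk_le_three f y
    exact ⟨h1, by omega⟩
  · ext x
    constructor
    · rintro ⟨hx, hx2⟩
      exact ⟨fun h => by have := h.2; omega, hx⟩
    · rintro ⟨h1, hx⟩
      refine ⟨hx, ?_⟩
      have h3 := rk_le_three f x
      by_contra h4
      exact h1 ⟨hx, by omega⟩

/-- if all points of a ball have rank three the map is affine on the ball -/
theorem affine_of_rank_three (hf : LocConic f Ω) (_hc : ContinuousOn f Ω) {x : E3} {r : ℝ}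
    (hb : ball x r ⊆ Ω) (hr : 0 < r) (h : ∀ y ∈ ball x r, y ∉ Zs f Ω) :
    ∃ A : E3 →L[ℝ] E3, ∀ y ∈ ball x r, f y - f x = A (y - x) := by
  have hloc : ∀ y ∈ ball x r, ∃ A : E3 →L[ℝ] E3, ∃ s > 0, ∀ z ∈ ball y s, f z = f y + A (z - y) := by
    intro y hy
    have hyΩ := hb hy
    have h3 : rk f y = 3 := by
      have h4 := rk_le_three f y
      by_contra h5
      exact h y hy ⟨hyΩ, by omega⟩
    obtain ⟨A, hA⟩ := rk_eq_three hf hyΩ h3
    obtain ⟨hh, R, hR, hbR, hcR⟩ := hf.germ_spec hyΩ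
    refine ⟨A, R, hR, fun z hz => ?_⟩
    rw [mem_ball, dist_eq_norm] at hz
    have e := hcR _ hz
    rw [hA] at e
    have e2 : y + (z - y) = z := by abel
    rwa [e2] at e
  have hder : ∀ y ∈ ball x r, ∃ A : E3 →L[ℝ] E3, ∃ s > 0, ∀ z ∈ ball y s, HasFDerivAt f A z := by
    intro y hy
    obtain ⟨A, s, hs, hA⟩ := hloc y hy
    refine ⟨A, s, hs, fun z hz => ?_⟩
    have h1 : HasFDerivAt (fun z => f y + A (z - y)) A z := by
      have h2 : HasFDerivAt (fun z => A (z - y)) A z := by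
        have h3 := A.hasFDerivAt (x := z - y)
        have h4 : HasFDerivAt (fun z : E3 => z - y) (ContinuousLinearMap.id ℝ E3) z :=
          (hasFDerivAt_id z).sub_const y
        exact h3.comp z h4
      exact h2.const_add _
    refine h1.congr_of_eventuallyEq ?_
    filter_upwards [isOpen_ball.mem_nhds hz] with w hw using hA w hw
  have hD : ∀ y ∈ ball x r, DifferentiableAt ℝ (fderiv ℝ f) y ∧ fderiv ℝ (fderiv ℝ f) y = 0 := by
    intro y hy
    obtain ⟨A, s, hs, hA⟩ := hder y hy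
    have he : fderiv ℝ f =ᶠ[𝓝 y] fun _ => A := by
      filter_upwards [ball_mem_nhds y hs] with z hz using (hA z hz).fderiv
    have h1 : HasFDerivAt (fderiv ℝ f) (0 : E3 →L[ℝ] (E3 →L[ℝ] E3)) y :=
      (hasFDerivAt_const A y).congr_of_eventuallyEq he
    exact ⟨h1.differentiableAt, h1.fderiv⟩
  have hpre : IsPreconnected (ball x r) := (convex_ball x r).isPreconnected
  have hxr : x ∈ ball x r := mem_ball_self hr
  have hconst : ∀ y ∈ ball x r, fderiv ℝ f y = fderiv ℝ f x := fun y hy =>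
    isOpen_ball.is_const_of_fderiv_eq_zero hpre
      (fun z hz => (hD z hz).1.differentiableWithinAt) (fun z hz => (hD z hz).2) hy hxr
  refine ⟨fderiv ℝ f x, fun y hy => ?_⟩
  have hfd : ∀ z ∈ ball x r, HasFDerivAt f (fderiv ℝ f x) z := by
    intro z hz
    obtain ⟨A, s, hs, hA⟩ := hder z hz
    have h1 := hA z (mem_ball_self hs)
    rwa [← hconst z hz, h1.fderiv]
  have hg : ∀ z ∈ ball x r, HasFDerivAt (fun z => f z - fderiv ℝ f x z)
      (0 : E3 →L[ℝ] E3) z := by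
    intro z hz
    have h1 := (hfd z hz).sub ((fderiv ℝ f x).hasFDerivAt (x := z))
    rwa [sub_self] at h1
  have h2 := isOpen_ball.is_const_of_fderiv_eq_zero hpre (f := fun z => f z - fderiv ℝ f x z)
    (fun z hz => (hg z hz).differentiableAt.differentiableWithinAt)
    (fun z hz => (hg z hz).fderiv) hy hxr
  rw [map_sub]
  rw [sub_eq_sub_iff_add_eq_add] at h2 ⊢
  rw [h2, add_comm]

/-- a globally Lipschitz germ gives a local Lipschitz constant -/
theorem stb_lipAt_of_germ {x : E3} {R : ℝ} {h : E3 → E3} (hR : 0 < R) (hc : ConicAt f x R h)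
    {C : ℝ} (hL : ∀ v v', ‖h v - h v'‖ ≤ C * ‖v - v'‖) : LipAt C f x := by
  refine ⟨R, hR, fun y hy y' hy' => ?_⟩
  rw [mem_ball, dist_eq_norm] at hy hy'
  have e1 := hc _ hy
  have e2 := hc _ hy'
  have e3 : x + (y - x) = y := by abel
  have e4 : x + (y' - x) = y' := by abel
  rw [e3] at e1
  rw [e4] at e2
  have h1 := hL (y - x) (y' - x)
  have e5 : f y - f y' = h (y - x) - h (y' - x) := by rw [e1, e2]; abel
  have e6 : y - y' = (y - x) - (y' - x) := by abel
  rw [e5, e6]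
  exact h1

theorem stb_mem_lin_germ {h : E3 → E3} (hh : PosHom h) (hl : LocConic h univ) (w : E3) :
    lin h ≤ lin (germ h w) ∧ w ∈ lin (germ h w) := by
  have hc : ConicAt h 0 (‖w‖ + 1) h := by
    intro v _
    rw [zero_add, grm_zero hh, zero_add]
  obtain ⟨hg, r, hr, -, hc'⟩ := hl.germ_spec (mem_univ w)
  have hc'' : ConicAt h (0 + w) r (germ h w) := by rwa [zero_add]
  obtain ⟨h1, h2, -⟩ := lin_mono hh hg hc (by linarith) hr hc''
  exact ⟨h1, h2⟩

theorem stb_lip_one (hf : LocConic f Ω) (hinj : InjOn f Ω) (hΩ : IsOpen Ω)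
    (hc : ContinuousOn f Ω) {x : E3} (hx : x ∈ Ω) (hk : rk f x = 1) : ∃ C, LipAt C f x := by
  obtain ⟨hh, R, hR, hb, hcon⟩ := hf.germ_spec hx
  have hgl := hf.germ_locConic hx
  have hgi := germ_injective hf hinj hx
  have hgc := germ_continuous hf hΩ hc hx
  set g := germ f x with hg
  set L := lin g with hL
  have hL1 : Module.finrank ℝ L = 1 := hk
  have hlip : ∀ w, w ∉ L → ∃ C, LipAt C g w := by
    intro w hw
    obtain ⟨h1, h2⟩ := stb_mem_lin_germ hh hgl w
    have hlt : L < lin (germ g w) := lt_of_le_of_ne h1 (fun e => hw (by rw [e]; exact h2))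
    have h3 := Submodule.finrank_lt_finrank_of_lt hlt
    rw [hL1] at h3
    obtain ⟨c, -, hs⟩ := secGood_of_two_le hgl (hgi.injOn) isOpen_univ hgc.continuousOn
      (mem_univ w) (show 2 ≤ rk g w from h3)
    exact hs.lipAt
  -- the restriction to the orthogonal complement
  let φ : Lᗮ → E3 := fun u => g (u : E3)
  have hφ : PosHom φ := fun a ha u => hh a ha (u : E3)
  have hφl : ∀ u : Lᗮ, u ≠ 0 → ∃ C, LipAt C φ u := by
    intro u hu
    have hu' : (u : E3) ∉ L := by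
      intro h0
      apply hu
      have h1 : inner ℝ (u : E3) (u : E3) = (0 : ℝ) :=
        (Submodule.mem_orthogonal L (u : E3)).1 u.2 (u : E3) h0
      rw [inner_self_eq_zero] at h1
      exact_mod_cast h1
    obtain ⟨C, r, hr, hC⟩ := hlip _ hu'
    refine ⟨C, r, hr, fun y hy y' hy' => ?_⟩
    exact hC (y : E3) (by simpa [mem_ball, dist_eq_norm] using hy) (y' : E3)
      (by simpa [mem_ball, dist_eq_norm] using hy')
  obtain ⟨C₁, hC₁, hl₁⟩ := posHom_lipschitz hφ hφl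
  let B₀ : L →ₗ[ℝ] E3 :=
    { toFun := fun l => g (l : E3)
      map_add' := fun v w => hh.mem_lin.1 w.2 (v : E3)
      map_smul' := fun c v => sta_smul_lin hh v.2 c }
  let B : L →L[ℝ] E3 := LinearMap.toContinuousLinearMap B₀
  have hB : ∀ l : L, B l = g (l : E3) := fun l => rfl
  refine ⟨C₁ + ‖B‖, stb_lipAt_of_germ hR hcon ?_⟩
  intro v v'
  obtain ⟨y, hy, z, hz, hv⟩ := Submodule.exists_add_mem_mem_orthogonal (K := L) v
  obtain ⟨y', hy', z', hz', hv'⟩ := Submodule.exists_add_mem_mem_orthogonal (K := L) v'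
  have hyy : y - y' ∈ L := Submodule.sub_mem _ hy hy'
  have hzz : z - z' ∈ Lᗮ := Submodule.sub_mem _ hz hz'
  have hdiff : v - v' = (y - y') + (z - z') := by rw [hv, hv']; abel
  have horth : inner ℝ (y - y') (z - z') = (0 : ℝ) :=
    (Submodule.mem_orthogonal L (z - z')).1 hzz _ hyy
  have hpyth : ‖v - v'‖ * ‖v - v'‖ = ‖y - y'‖ * ‖y - y'‖ + ‖z - z'‖ * ‖z - z'‖ := by
    rw [hdiff]
    exact norm_add_sq_eq_norm_sq_add_norm_sq_real horth
  have hny : ‖y - y'‖ ≤ ‖v - v'‖ := by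
    exact abs_le_of_sq_le_sq' (by nlinarith [mul_self_nonneg ‖z - z'‖]) (norm_nonneg _) |>.2
  have hnz : ‖z - z'‖ ≤ ‖v - v'‖ := by
    exact abs_le_of_sq_le_sq' (by nlinarith [mul_self_nonneg ‖y - y'‖]) (norm_nonneg _) |>.2
  have e1 : g v = g z + g y := by rw [hv, add_comm y z]; exact hh.mem_lin.1 hy z
  have e2 : g v' = g z' + g y' := by rw [hv', add_comm y' z']; exact hh.mem_lin.1 hy' z'
  have e3 : g y - g y' = B ⟨y - y', hyy⟩ := by
    have h1 : B ⟨y - y', hyy⟩ = B ⟨y, hy⟩ - B ⟨y', hy'⟩ := by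
      rw [← map_sub]; rfl
    rw [h1, hB, hB]
  have e4 : ‖g z - g z'‖ ≤ C₁ * ‖z - z'‖ := hl₁ ⟨z, hz⟩ ⟨z', hz'⟩
  have e5 : ‖g y - g y'‖ ≤ ‖B‖ * ‖y - y'‖ := by
    rw [e3]
    exact B.le_opNorm _
  have e6 : g v - g v' = (g z - g z') + (g y - g y') := by rw [e1, e2]; abel
  rw [e6]
  have hBn : 0 ≤ ‖B‖ := norm_nonneg B
  calc ‖(g z - g z') + (g y - g y')‖ ≤ ‖g z - g z'‖ + ‖g y - g y'‖ := norm_add_le _ _
    _ ≤ C₁ * ‖z - z'‖ + ‖B‖ * ‖y - y'‖ := add_le_add e4 e5
    _ ≤ C₁ * ‖v - v'‖ + ‖B‖ * ‖v - v'‖ := by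
        apply add_le_add
        · exact mul_le_mul_of_nonneg_left hnz hC₁.le
        · exact mul_le_mul_of_nonneg_left hny hBn
    _ = (C₁ + ‖B‖) * ‖v - v'‖ := by ring

/-- locally conic continuous injective maps are locally Lipschitz -/
theorem lipAt_of_locConic (hf : LocConic f Ω) (hinj : InjOn f Ω) (hΩ : IsOpen Ω)
    (hc : ContinuousOn f Ω) {x : E3} (hx : x ∈ Ω) : ∃ C, LipAt C f x := by
  have key : ∀ {F : E3 → E3} {U : Set E3}, LocConic F U → InjOn F U → IsOpen U →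
      ContinuousOn F U → ∀ {z : E3}, z ∈ U → 1 ≤ rk F z → ∃ C, LipAt C F z := by
    intro F U hF hi hU hcF z hz hk
    rcases (show rk F z = 1 ∨ 2 ≤ rk F z by omega) with h1 | h1
    · exact stb_lip_one hF hi hU hcF hz h1
    · obtain ⟨c, -, hs⟩ := secGood_of_two_le hF hi hU hcF hz h1
      exact hs.lipAt
  rcases (show rk f x = 0 ∨ 1 ≤ rk f x by omega) with h0 | h1
  · obtain ⟨hh, R, hR, hb, hcon⟩ := hf.germ_spec hx
    have hgl := hf.germ_locConic hx
    have hgi := germ_injective hf hinj hx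
    have hgc := germ_continuous hf hΩ hc hx
    have hlip : ∀ w, w ≠ 0 → ∃ C, LipAt C (germ f x) w := by
      intro w hw
      refine key hgl hgi.injOn isOpen_univ hgc.continuousOn (mem_univ w) ?_
      obtain ⟨-, h2⟩ := stb_mem_lin_germ hh hgl w
      unfold rk
      rw [Nat.one_le_iff_ne_zero]
      intro h3
      rw [Submodule.finrank_eq_zero] at h3
      rw [h3, Submodule.mem_bot] at h2
      exact hw h2
    obtain ⟨C, -, hC⟩ := posHom_lipschitz hh hlip
    exact ⟨C, stb_lipAt_of_germ hR hcon hC⟩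
  · exact key hf hinj hΩ hc hx h1

end SM
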