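import Pool.Agent.SM.Defs

/-!
# Project SM, module STC
-/

open Set Metric Filter Topology MeasureTheory
open scoped ContDiff Pointwise

noncomputable section

namespace SM

variable {f : E3 → E3} {Ω : Set E3}

private lemma bddBelow_conv {a : E3 → ℝ} (ha : ∀ z, 0 ≤ a z) (K : NNReal) (x : E3) :
    BddBelow (range fun z => a z + K * dist x z) :=
  ⟨0, by
    rintro _ ⟨z, rfl⟩
    exact add_nonneg (ha z) (mul_nonneg K.2 dist_nonneg)⟩

private lemma conv_lip {a : E3 → ℝ} (ha : ∀ z, 0 ≤ a z) (K : NNReal) :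
    LipschitzWith K (fun x => ⨅ z : E3, (a z + K * dist x z)) := by
  refine LipschitzWith.of_le_add_mul K fun x y => ?_
  rw [← sub_le_iff_le_add]
  refine le_ciInf fun z => ?_
  have h1 : (⨅ z : E3, (a z + K * dist x z)) ≤ a z + K * dist x z :=
    ciInf_le (bddBelow_conv ha K x) z
  have h2 : (K : ℝ) * dist x z ≤ K * dist x y + K * dist y z := by
    rw [← mul_add]
    exact mul_le_mul_of_nonneg_left (dist_triangle x y z) K.2
  linarith

private lemma conv_le {a : E3 → ℝ} (ha : ∀ z, 0 ≤ a z) (K : NNReal) (x : E3) :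
    (⨅ z : E3, (a z + K * dist x z)) ≤ a x := by
  have h1 : (⨅ z : E3, (a z + K * dist x z)) ≤ a x + K * dist x x :=
    ciInf_le (bddBelow_conv ha K x) x
  simpa using h1

private lemma le_conv {a : E3 → ℝ} (K : NNReal) {x : E3} {m : ℝ}
    (h : ∀ z, m ≤ a z + K * dist x z) : m ≤ ⨅ z : E3, (a z + K * dist x z) :=
  le_ciInf h

private lemma conv_pos {a : E3 → ℝ} (ha : ∀ z, 0 ≤ a z) (K : NNReal) (hK : 0 < K) {x : E3}
    {b r : ℝ} (hb : 0 < b) (hr : 0 < r) (h : ∀ z ∈ ball x r, b ≤ a z) :
    0 < ⨅ z : E3, (a z + K * dist x z) := by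
  have hK' : (0 : ℝ) < K := by exact_mod_cast hK
  refine lt_of_lt_of_le (lt_min hb (mul_pos hK' hr)) (le_conv K fun z => ?_)
  by_cases hz : z ∈ ball x r
  · exact (min_le_left _ _).trans ((h z hz).trans
      (le_add_of_nonneg_right (mul_nonneg K.2 dist_nonneg)))
  · refine (min_le_right _ _).trans ?_
    have h1 : r ≤ dist x z := by
      rw [dist_comm]
      exact not_lt.1 hz
    have h2 : (K : ℝ) * r ≤ K * dist x z := mul_le_mul_of_nonneg_left h1 K.2
    linarith [ha z]

/-- a Lipschitz minorant which is exactly conic near the vertices -/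
theorem exists_radius {V : Set E3} (hΩ : IsOpen Ω) (hV : V ⊆ Ω)
    (hVd : ∀ x ∈ Ω, ∃ r > 0, ∀ v ∈ V, v ∈ ball x r → v = x) (A : E3 → ℝ) (hA : LPos A (Ω \ V))
    (c : E3 → ℝ) (hc : ∀ v ∈ V, 0 < c v ∧ c v ≤ 1 / 8)
    (hcA : ∀ v ∈ V, ∃ r > 0, ∀ x ∈ ball v r, x ≠ v → c v * ‖x - v‖ ≤ A x) :
    ∃ B : E3 → ℝ, LipschitzWith (1 / 8) B ∧ (∀ x ∈ Ω \ V, 0 < B x ∧ B x ≤ A x) ∧
      (∀ v ∈ V, ∃ r > 0, ∀ x ∈ ball v r, B x = c v * ‖x - v‖) := by
  classical
  -- the radii of the model balls
  have hs : ∀ v : E3, ∃ s > 0, v ∈ V → (∀ w ∈ V, w ∈ ball v (4 * s) → w = v) ∧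
      (∀ x ∈ ball v s, x ≠ v → c v * ‖x - v‖ ≤ A x) := by
    intro v
    by_cases hv : v ∈ V
    · obtain ⟨r, hr, h1⟩ := hVd v (hV hv)
      obtain ⟨r', hr', h2⟩ := hcA v hv
      refine ⟨min (r / 4) r', lt_min (by positivity) hr', fun _ => ⟨?_, ?_⟩⟩
      · intro w hw hwb
        refine h1 w hw (ball_subset_ball ?_ hwb)
        have := min_le_left (r / 4) r'
        linarith
      · intro x hx
        exact h2 x (ball_subset_ball (min_le_right _ _) hx)
    · exact ⟨1, one_pos, fun h => absurd h hv⟩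
  choose s hspos hsV using hs
  -- uniqueness of the ball
  have hsep : ∀ v ∈ V, ∀ w ∈ V, v ≠ w → 2 * (s v + s w) ≤ dist v w := by
    intro v hv w hw hvw
    have h1 : 4 * s v ≤ dist w v := by
      by_contra hcon
      exact hvw ((hsV v hv).1 w hw (mem_ball.2 (not_le.1 hcon))).symm
    have h2 : 4 * s w ≤ dist v w := by
      by_contra hcon
      exact hvw ((hsV w hw).1 v hv (mem_ball.2 (not_le.1 hcon)))
    rw [dist_comm] at h1
    linarith
  have huniq : ∀ v ∈ V, ∀ w ∈ V, ∀ z, z ∈ ball v (s v) → z ∈ ball w (s w) → v = w := by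
    intro v hv w hw z hz hz'
    by_contra hvw
    have h1 := hsep v hv w hw hvw
    have h2 := dist_triangle_left v w z
    rw [mem_ball] at hz hz'
    have h3 := hspos v
    have h4 := hspos w
    linarith
  -- the modified function
  set a : E3 → ℝ := fun z => if H : ∃ v ∈ V, z ∈ ball v (s v) then
    c H.choose * ‖z - H.choose‖ else if z ∈ Ω then A z else 1 with ha
  have ha_ball : ∀ v ∈ V, ∀ z ∈ ball v (s v), a z = c v * ‖z - v‖ := by
    intro v hv z hz
    have H : ∃ v ∈ V, z ∈ ball v (s v) := ⟨v, hv, hz⟩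
    have h1 : a z = c H.choose * ‖z - H.choose‖ := dif_pos H
    have h2 : H.choose = v :=
      huniq _ H.choose_spec.1 _ hv z H.choose_spec.2 hz
    rw [h1, h2]
  have ha_out : ∀ z, (¬ ∃ v ∈ V, z ∈ ball v (s v)) → z ∈ Ω → a z = A z := by
    intro z H hz
    have h1 : a z = if z ∈ Ω then A z else 1 := dif_neg H
    rw [h1, if_pos hz]
  have ha_out' : ∀ z, (¬ ∃ v ∈ V, z ∈ ball v (s v)) → z ∉ Ω → a z = 1 := by
    intro z H hz
    have h1 : a z = if z ∈ Ω then A z else 1 := dif_neg H
    rw [h1, if_neg hz]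
  have hVball : ∀ z, (¬ ∃ v ∈ V, z ∈ ball v (s v)) → z ∉ V := by
    intro z H hz
    exact H ⟨z, hz, mem_ball_self (hspos z)⟩
  have ha0 : ∀ z, 0 ≤ a z := by
    intro z
    by_cases H : ∃ v ∈ V, z ∈ ball v (s v)
    · obtain ⟨v, hv, hz⟩ := H
      rw [ha_ball v hv z hz]
      exact mul_nonneg (hc v hv).1.le (norm_nonneg _)
    · by_cases hz : z ∈ Ω
      · rw [ha_out z H hz]
        obtain ⟨b, hb, r, hr, h⟩ := hA z ⟨hz, hVball z H⟩
        exact hb.le.trans (h z (mem_ball_self hr))
      · rw [ha_out' z H hz]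
        exact zero_le_one
  have h8 : ((1 / 8 : NNReal) : ℝ) = 1 / 8 := by norm_num
  refine ⟨fun x => ⨅ z : E3, (a z + ((1 / 8 : NNReal) : ℝ) * dist x z), conv_lip ha0 _, ?_, ?_⟩
  · intro x hx
    constructor
    · -- positivity
      obtain ⟨r, hr, h1⟩ := hVd x hx.1
      obtain ⟨b, hb, r', hr', h2⟩ := hA x hx
      have hfar : ∀ v ∈ V, r ≤ dist v x := by
        intro v hv
        by_contra hcon
        have := h1 v hv (mem_ball.2 (not_le.1 hcon))
        exact hx.2 (this ▸ hv)
      set ρ := min (r / 3) r' with hρ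
      have hρ0 : 0 < ρ := lt_min (by positivity) hr'
      have hρr : ρ ≤ r / 3 := min_le_left _ _
      have hρr' : ρ ≤ r' := min_le_right _ _
      -- the lower bound away from the model balls
      have hout : ∀ z ∈ ball x ρ, (¬ ∃ v ∈ V, z ∈ ball v (s v)) → min b 1 ≤ a z := by
        intro z hz H
        by_cases hzΩ : z ∈ Ω
        · rw [ha_out z H hzΩ]
          exact (min_le_left _ _).trans (h2 z (ball_subset_ball hρr' hz))
        · rw [ha_out' z H hzΩ]
          exact min_le_right _ _
      by_cases hex : ∃ v ∈ V, ∃ z ∈ ball x ρ, z ∈ ball v (s v)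
      · obtain ⟨v, hv, z₀, hz₀, hz₀v⟩ := hex
        have hkey : ∀ w ∈ V, ∀ z ∈ ball x ρ, z ∈ ball w (s w) → w = v := by
          intro w hw z hz hzw
          by_contra hne
          have e1 := hsep w hw v hv hne
          have e2 : dist w v ≤ dist w z + (dist z x + dist x z₀) + dist z₀ v := by
            have t1 := dist_triangle w z v
            have t2 := dist_triangle z x v
            have t3 := dist_triangle x z₀ v
            linarith
          rw [mem_ball] at hz hzw hz₀ hz₀v
          have e3 : dist w z < s w := by rw [dist_comm]; exact hzw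
          have e4 : dist x z₀ < ρ := by rw [dist_comm]; exact hz₀
          have e5 : dist v x ≤ dist z₀ v + dist z₀ x := dist_triangle_left v x z₀
          have e6 := hfar v hv
          have e7 := hspos v
          have e8 := hspos w
          linarith
        refine conv_pos (b := min (min b 1) (c v * (r - ρ))) ha0 (1 / 8) (by norm_num)
          (lt_min (lt_min hb one_pos) (mul_pos (hc v hv).1 (by linarith))) hρ0 ?_
        intro z hz
        by_cases H : ∃ w ∈ V, z ∈ ball w (s w)
        · obtain ⟨w, hw, hzw⟩ := H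
          obtain rfl := hkey w hw z hz hzw
          rw [ha_ball w hw z hzw]
          refine (min_le_right _ _).trans (mul_le_mul_of_nonneg_left ?_ (hc w hw).1.le)
          have e1 := hfar w hw
          have e2 : dist w x ≤ dist z w + dist z x := dist_triangle_left w x z
          rw [mem_ball] at hz
          rw [← dist_eq_norm]
          linarith
        · exact (min_le_left _ _).trans (hout z hz H)
      · refine conv_pos (b := min b 1) ha0 (1 / 8) (by norm_num) (lt_min hb one_pos) hρ0 ?_
        intro z hz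
        refine hout z hz ?_
        rintro ⟨v, hv, hzv⟩
        exact hex ⟨v, hv, z, hz, hzv⟩
    · -- comparison
      refine (conv_le ha0 _ x).trans ?_
      by_cases H : ∃ v ∈ V, x ∈ ball v (s v)
      · obtain ⟨v, hv, hxv⟩ := H
        rw [ha_ball v hv x hxv]
        refine (hsV v hv).2 x hxv ?_
        rintro rfl
        exact hx.2 hv
      · rw [ha_out x H hx.1]
  · intro v hv
    refine ⟨s v / 2, half_pos (hspos v), fun x hx => ?_⟩
    have hsv := hspos v
    have hxs : x ∈ ball v (s v) := ball_subset_ball (by linarith) hx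
    refine le_antisymm ?_ ?_
    · rw [← ha_ball v hv x hxs]
      exact conv_le ha0 _ x
    · refine le_conv _ fun z => ?_
      rw [h8]
      obtain ⟨hc1, hc2⟩ := hc v hv
      rw [← dist_eq_norm]
      by_cases hz : z ∈ ball v (s v)
      · rw [ha_ball v hv z hz, ← dist_eq_norm]
        have e1 : dist x v ≤ dist x z + dist z v := dist_triangle x z v
        have e2 : c v * dist x z ≤ 1 / 8 * dist x z :=
          mul_le_mul_of_nonneg_right hc2 dist_nonneg
        have e3 : c v * dist x v ≤ c v * (dist x z + dist z v) :=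
          mul_le_mul_of_nonneg_left e1 hc1.le
        linarith [mul_add (c v) (dist x z) (dist z v)]
      · have e1 : s v ≤ dist z v := not_lt.1 hz
        have e2 : dist z v ≤ dist x z + dist x v := by
          have := dist_triangle z x v
          rwa [dist_comm z x] at this
        rw [mem_ball] at hx
        have e3 : dist x v ≤ dist x z := by linarith
        have e4 : c v * dist x v ≤ 1 / 8 * dist x v :=
          mul_le_mul_of_nonneg_right hc2 dist_nonneg
        linarith [ha0 z]

/-- a Lipschitz minorant -/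
theorem exists_lipschitz_minorant (hΩ : IsOpen Ω) {β : E3 → ℝ} (hβ : LPos β Ω) :
    ∃ b : E3 → ℝ, LipschitzWith 1 b ∧ ∀ x ∈ Ω, 0 < b x ∧ b x ≤ β x := by
  classical
  set a : E3 → ℝ := fun z => if z ∈ Ω then β z else 1 with ha
  have ha0 : ∀ z, 0 ≤ a z := by
    intro z
    by_cases hz : z ∈ Ω
    · obtain ⟨b, hb, r, hr, h⟩ := hβ z hz
      simp only [ha, if_pos hz]
      exact hb.le.trans (h z (mem_ball_self hr))
    · simp only [ha, if_neg hz]
      exact zero_le_one
  refine ⟨fun x => ⨅ z : E3, (a z + ((1 : NNReal) : ℝ) * dist x z), conv_lip ha0 _, ?_⟩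
  intro x hx
  constructor
  · obtain ⟨b, hb, r, hr, h⟩ := hβ x hx
    refine conv_pos (b := min b 1) ha0 1 one_pos (lt_min hb one_pos) hr ?_
    intro z hz
    by_cases hzΩ : z ∈ Ω
    · simp only [ha, if_pos hzΩ]
      exact (min_le_left _ _).trans (h z hz)
    · simp only [ha, if_neg hzΩ]
      exact min_le_right _ _
  · refine (conv_le ha0 _ x).trans ?_
    simp only [ha, if_pos hx]
    exact le_rfl

end SM
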