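import Pool.Agent.SM.Defs
import Pool.Agent.SM.Sec
import Pool.Agent.SM.Grm
import Pool.Agent.SM.Sta
import Pool.Agent.SM.Stb
import Pool.Agent.SM.Cst

/-!
# Project SM, module STD
-/

open Set Metric Filter Topology MeasureTheory
open scoped ContDiff Pointwise

noncomputable section

namespace SM

variable {f : E3 → E3} {Ω : Set E3}

theorem std_mono {f : E3 → E3} {x : E3} {R R' : ℝ} {h : E3 → E3} (hc : ConicAt f x R h)
    (hR : R' ≤ R) : ConicAt f x R' h := fun v hv => hc v (hv.trans_le hR)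

theorem std_conic_zero {h : E3 → E3} (hh : PosHom h) (R : ℝ) : ConicAt h 0 R h := by
  intro v _
  rw [zero_add, grm_zero hh, zero_add]

/-- germs near a point are germs of the germ -/
theorem std_germ_shift (hf : LocConic f Ω) {x w : E3} {R : ℝ} (hx : x ∈ Ω)
    (hc : ConicAt f x R (germ f x)) (hw : ‖w‖ < R) :
    germ f (x + w) = germ (germ f x) w := by
  obtain ⟨hh, -⟩ := hf.germ_spec hx
  have hl := hf.germ_locConic hx
  obtain ⟨hg, r, hr, -, hcg⟩ := hl.germ_spec (mem_univ w)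
  have hmin : 0 < min r (R - ‖w‖) := lt_min hr (by linarith)
  have h1 := std_mono hcg (min_le_left r (R - ‖w‖))
  have h2 := (ConicAt.shift hh hc hmin (by linarith [min_le_right r (R - ‖w‖)])).2 h1
  exact germ_eq hmin hg h2

theorem std_rk_shift (hf : LocConic f Ω) {x w : E3} {R : ℝ} (hx : x ∈ Ω)
    (hc : ConicAt f x R (germ f x)) (hw : ‖w‖ < R) :
    rk f (x + w) = rk (germ f x) w := by
  unfold rk
  rw [std_germ_shift hf hx hc hw]

/-- near an edge point, with the radius halved -/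
theorem std_edge (hf : LocConic f Ω) {x : E3} {R : ℝ} (hx : x ∈ Ω) (hrk : rk f x = 1)
    (hb : ball x R ⊆ Ω) (hc : ConicAt f x R (germ f x)) {y : E3} (hy : y ∈ ball x (R / 2))
    (hyk : rk f y = 1) : germ f y = germ f x ∧ ConicAt f y (R / 2) (germ f x) ∧
      ball y (R / 2) ⊆ Ω := by
  have hu : ‖y - x‖ < R / 2 := by rwa [mem_ball, dist_eq_norm] at hy
  have hR : 0 < R / 2 := (norm_nonneg _).trans_lt hu
  have hu' : ‖y - x‖ < R := by linarith
  have e : x + (y - x) = y := by abel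
  have hyΩ : y ∈ Ω := hb (by rw [mem_ball, dist_eq_norm]; exact hu')
  obtain ⟨hh, -⟩ := hf.germ_spec hx
  have hlin : y - x ∈ lin (germ f x) :=
    (edge_iff hf ⟨hx, hrk⟩ hb hc hu').1 (by rw [e]; exact ⟨hyΩ, hyk⟩)
  have h1 := edge_germ hf ⟨hx, hrk⟩ hb hc hu' hlin
  rw [e] at h1
  have h2 := ConicAt.of_lin (r := R / 2) hh hc hlin (by linarith)
  rw [e] at h2
  refine ⟨h1, h2, fun z hz => hb ?_⟩
  rw [mem_ball, dist_eq_norm] at hz ⊢
  have : z - x = (z - y) + (y - x) := by abel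
  rw [this]
  exact (norm_add_le _ _).trans_lt (by linarith)

theorem std_rk_pos {h : E3 → E3} (hh : PosHom h) (hl : LocConic h univ) {w : E3} (hw : w ≠ 0) :
    1 ≤ rk h w := by
  have hg0 : germ h 0 = h := germ_eq one_pos hh (std_conic_zero hh 1)
  have hc : ConicAt h 0 (‖w‖ + 1) (germ h 0) := by
    rw [hg0]; exact std_conic_zero hh _
  obtain ⟨-, -, h3⟩ := sta_nearby hl (mem_univ (0 : E3)) (subset_univ _) hc
    (by linarith : ‖w‖ < ‖w‖ + 1)
  rw [zero_add] at h3
  unfold rk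
  rw [Nat.one_le_iff_ne_zero]
  intro h0
  rw [Submodule.finrank_eq_zero] at h0
  rw [h0, Submodule.mem_bot] at h3
  exact hw h3

theorem std_vertex {h : E3 → E3} (hh : PosHom h) (hl : LocConic h univ) :
    ∃ ρ > 0, ∃ C > 0, ∀ w, rk h w = 1 →
      ConicAt h w (NOf (germ h w) * (ρ * ‖w‖)) (germ h w) ∧
      COf (germ h w) ≤ C ∧ NOf (germ h w) ≤ C := by
  have hsph : ∃ ρ > 0, ∃ C > 0, ∀ w ∈ sphere (0 : E3) 1, rk h w = 1 →
      ConicAt h w (NOf (germ h w) * ρ) (germ h w) ∧ COf (germ h w) ≤ C ∧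
      NOf (germ h w) ≤ C := by
    apply (isCompact_sphere (0 : E3) 1).induction_on (p := fun t => ∃ ρ > 0, ∃ C > 0, ∀ w ∈ t,
      rk h w = 1 → ConicAt h w (NOf (germ h w) * ρ) (germ h w) ∧ COf (germ h w) ≤ C ∧
      NOf (germ h w) ≤ C)
    · exact ⟨1, one_pos, 1, one_pos, fun w hw => absurd hw (notMem_empty w)⟩
    · rintro s t hst ⟨ρ, hρ, C, hC, H⟩
      exact ⟨ρ, hρ, C, hC, fun w hw => H w (hst hw)⟩
    · rintro s t ⟨ρ, hρ, C, hC, H⟩ ⟨ρ', hρ', C', hC', H'⟩
      refine ⟨min ρ ρ', lt_min hρ hρ', max C C', lt_max_of_lt_left hC, ?_⟩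
      rintro w (hw | hw) hrk
      · obtain ⟨h1, h2, h3⟩ := H w hw hrk
        have hN := NOf_ge (germ h w)
        exact ⟨std_mono h1 (mul_le_mul_of_nonneg_left (min_le_left _ _) (by linarith)),
          h2.trans (le_max_left _ _), h3.trans (le_max_left _ _)⟩
      · obtain ⟨h1, h2, h3⟩ := H' w hw hrk
        have hN := NOf_ge (germ h w)
        exact ⟨std_mono h1 (mul_le_mul_of_nonneg_left (min_le_right _ _) (by linarith)),
          h2.trans (le_max_right _ _), h3.trans (le_max_right _ _)⟩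
    · intro w₀ hw₀
      have hne : w₀ ≠ 0 := by
        rintro rfl
        simp at hw₀
      have h1 := std_rk_pos hh hl hne
      by_cases h2 : rk h w₀ = 1
      · obtain ⟨-, R, hR, hb, hc⟩ := hl.germ_spec (mem_univ w₀)
        have hN := NOf_ge (germ h w₀)
        have hC := COf_pos (germ h w₀)
        refine ⟨ball w₀ (R / 2), mem_nhdsWithin_of_mem_nhds (ball_mem_nhds _ (by positivity)),
          R / 2 / NOf (germ h w₀), by positivity, COf (germ h w₀) + NOf (germ h w₀),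
          by positivity, fun w hw hrk => ?_⟩
        obtain ⟨e1, e2, -⟩ := std_edge hl (mem_univ w₀) h2 hb hc hw hrk
        rw [e1]
        refine ⟨?_, by linarith, by linarith⟩
        have : NOf (germ h w₀) * (R / 2 / NOf (germ h w₀)) = R / 2 := by
          field_simp
        rw [this]
        exact e2
      · obtain ⟨r, hr, H⟩ := rk_nearby hl (mem_univ w₀)
        refine ⟨ball w₀ r, mem_nhdsWithin_of_mem_nhds (ball_mem_nhds _ hr), 1, one_pos, 1,
          one_pos, fun w hw hrk => ?_⟩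
        have := (H w hw).2.1
        omega
  obtain ⟨ρ, hρ, C, hC, H⟩ := hsph
  have hN0 := NOf_ge (germ h 0)
  have hC0 := COf_pos (germ h 0)
  refine ⟨ρ, hρ, C + COf (germ h 0) + NOf (germ h 0), by positivity, fun w hrk => ?_⟩
  by_cases hw : w = 0
  · subst hw
    refine ⟨?_, by linarith, by linarith⟩
    rw [norm_zero, mul_zero, mul_zero]
    exact fun v hv => absurd hv (not_lt.2 (norm_nonneg v))
  · have ha : 0 < ‖w‖ := norm_pos_iff.2 hw
    have hw' : ‖w‖⁻¹ • w ∈ sphere (0 : E3) 1 := by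
      rw [mem_sphere_zero_iff_norm, norm_smul, norm_inv, norm_norm, inv_mul_cancel₀ ha.ne']
    have e : ‖w‖ • (‖w‖⁻¹ • w) = w := by
      rw [smul_smul, mul_inv_cancel₀ ha.ne', one_smul]
    obtain ⟨hg, r, hr, -, hc⟩ := hl.germ_spec (mem_univ (‖w‖⁻¹ • w))
    have h1 := ConicAt.smul hh hg ha hc
    rw [e] at h1
    have h2 : germ h w = germ h (‖w‖⁻¹ • w) := germ_eq (by positivity) hg h1
    have h3 : rk h (‖w‖⁻¹ • w) = 1 := by
      unfold rk at hrk ⊢
      rw [← h2]; exact hrk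
    obtain ⟨c1, c2, c3⟩ := H _ hw' h3
    have h4 := ConicAt.smul hh hg ha c1
    rw [e] at h4
    rw [h2]
    refine ⟨std_mono h4 (le_of_eq (by ring)), by linarith, by linarith⟩

/-- uniform conic radius along the edges of a vertex germ -/
theorem vertex_uniform {h : E3 → E3} (hh : PosHom h) (hl : LocConic h univ) :
    ∃ ρ > 0, ∃ C > 0, ∀ w ∈ Es h univ, ConicAt h w (NOf (germ h w) * (ρ * ‖w‖)) (germ h w) ∧
      COf (germ h w) ≤ C := by
  obtain ⟨ρ, hρ, C, hC, H⟩ := std_vertex hh hl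
  exact ⟨ρ, hρ, C, hC, fun w hw => ⟨(H w hw.2).1, (H w hw.2).2.1⟩⟩

/-- the largest admissible radius, halved -/
def stdRad (p : ℝ → Prop) : ℝ := sSup {b | b ∈ Icc (0 : ℝ) 1 ∧ p b} / 2

theorem stdRad_spec {p : ℝ → Prop} (hm : ∀ b b', b ≤ b' → p b' → p b) (h0 : p 0) {b : ℝ}
    (hb : b ≤ stdRad p) : p b := by
  by_cases h : stdRad p ≤ 0
  · exact hm b 0 (hb.trans h) h0
  push Not at h
  have h1 : stdRad p < sSup {b | b ∈ Icc (0 : ℝ) 1 ∧ p b} := by
    unfold stdRad at h ⊢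
    linarith
  have h2 : (0 : ℝ) ∈ {b | b ∈ Icc (0 : ℝ) 1 ∧ p b} := ⟨⟨le_rfl, zero_le_one⟩, h0⟩
  obtain ⟨b', hb', hlt⟩ := exists_lt_of_lt_csSup ⟨0, h2⟩ h1
  exact hm b b' (hb.trans hlt.le) hb'.2

theorem le_stdRad {p : ℝ → Prop} {b : ℝ} (hb0 : 0 ≤ b) (hb1 : b ≤ 1) (hp : p b) :
    b / 2 ≤ stdRad p := by
  unfold stdRad
  have h0 : b ∈ {b | b ∈ Icc (0 : ℝ) 1 ∧ p b} := ⟨⟨hb0, hb1⟩, hp⟩
  have h1 : b ≤ sSup {b | b ∈ Icc (0 : ℝ) 1 ∧ p b} :=
    le_csSup ⟨1, fun x (hx : x ∈ Icc (0 : ℝ) 1 ∧ p x) => hx.1.2⟩ h0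
  linarith

theorem exists_conic_radius (hf : LocConic f Ω) (hinj : InjOn f Ω) (hΩ : IsOpen Ω)
    (hc : ContinuousOn f Ω) :
    ∃ A : E3 → ℝ, LPos A (Ω \ Vs f Ω) ∧
      (∀ v ∈ Vs f Ω, ∃ c > 0, ∃ r > 0, ∀ x ∈ ball v r, c * ‖x - v‖ ≤ A x) ∧
      ∀ e ∈ Es f Ω, ∀ b, b ≤ A e → ball e (NOf (germ f e) * b) ⊆ Ω ∧
        ConicAt f e (NOf (germ f e) * b) (germ f e) := by
  obtain ⟨p, hp⟩ : ∃ p : E3 → ℝ → Prop, p = fun e b => e ∈ Es f Ω →
      ball e (NOf (germ f e) * b) ⊆ Ω ∧ ConicAt f e (NOf (germ f e) * b) (germ f e) := ⟨_, rfl⟩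
  have hm : ∀ e b b', b ≤ b' → p e b' → p e b := by
    intro e b b' hb
    rw [hp]
    intro h he
    have hN := NOf_ge (germ f e)
    have hN : NOf (germ f e) * b ≤ NOf (germ f e) * b' :=
      mul_le_mul_of_nonneg_left hb (by linarith)
    exact ⟨(ball_subset_ball hN).trans (h he).1, std_mono (h he).2 hN⟩
  have h0 : ∀ e, p e 0 := by
    intro e
    rw [hp]
    intro he
    rw [mul_zero, ball_zero]
    exact ⟨empty_subset _, fun v hv => absurd hv (not_lt.2 (norm_nonneg v))⟩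
  have hnot : ∀ e, e ∉ Es f Ω → 1 / 2 ≤ stdRad (p e) := by
    intro e he
    apply le_stdRad zero_le_one le_rfl
    rw [hp]
    intro he'
    exact absurd he' he
  refine ⟨fun e => stdRad (p e), ?_, ?_, fun e he b hb => ?_⟩
  · rintro x ⟨hx, hxv⟩
    by_cases hrk : rk f x = 1
    · obtain ⟨-, R, hR, hb, hcx⟩ := hf.germ_spec hx
      have hN := NOf_ge (germ f x)
      have hb' : 0 < min 1 (R / 2 / NOf (germ f x)) := lt_min one_pos (by positivity)
      refine ⟨min 1 (R / 2 / NOf (germ f x)) / 2, by positivity, R / 2, by positivity,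
        fun y hy => ?_⟩
      by_cases hyE : y ∈ Es f Ω
      · apply le_stdRad hb'.le (min_le_left _ _)
        rw [hp]
        intro _
        obtain ⟨e1, e2, e3⟩ := std_edge hf hx hrk hb hcx hy hyE.2
        rw [e1]
        have h1 : NOf (germ f x) * min 1 (R / 2 / NOf (germ f x)) ≤ R / 2 := by
          have h2 : NOf (germ f x) * min 1 (R / 2 / NOf (germ f x)) ≤
            NOf (germ f x) * (R / 2 / NOf (germ f x)) :=
            mul_le_mul_of_nonneg_left (min_le_right _ _) (by linarith)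
          have h3 : NOf (germ f x) * (R / 2 / NOf (germ f x)) = R / 2 := by field_simp
          linarith
        exact ⟨(ball_subset_ball h1).trans e3, std_mono e2 h1⟩
      · have := hnot y hyE
        have h2 := min_le_left (1 : ℝ) (R / 2 / NOf (germ f x))
        show _ ≤ stdRad (p y)
        linarith
    · obtain ⟨r, hr, H⟩ := rk_nearby hf hx
      refine ⟨1 / 2, by norm_num, r, hr, fun y hy => hnot y ?_⟩
      intro hyE
      have h1 := (H y hy).2.1
      have h2 := hyE.2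
      have h3 : rk f x ≠ 0 := fun h => hxv ⟨hx, h⟩
      omega
  · intro v hv
    have hx := hv.1
    obtain ⟨hh, R, hR, hb, hcx⟩ := hf.germ_spec hx
    obtain ⟨ρ, hρ, C, hC, H⟩ := std_vertex hh (hf.germ_locConic hx)
    have hκ : 0 < min (min ρ (1 / C)) 1 := lt_min (lt_min hρ (by positivity)) one_pos
    obtain ⟨κ, hκe⟩ : ∃ κ : ℝ, κ = min (min ρ (1 / C)) 1 := ⟨_, rfl⟩
    rw [← hκe] at hκ
    have hκρ : κ ≤ ρ := by rw [hκe]; exact (min_le_left _ _).trans (min_le_left _ _)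
    have hκC : κ ≤ 1 / C := by rw [hκe]; exact (min_le_left _ _).trans (min_le_right _ _)
    have hκ1 : κ ≤ 1 := by rw [hκe]; exact min_le_right _ _
    refine ⟨κ / 2, by positivity, min (R / 4) 1, lt_min (by positivity) one_pos,
      fun x hx' => ?_⟩
    have hn : ‖x - v‖ < min (R / 4) 1 := by rwa [mem_ball, dist_eq_norm] at hx'
    have hn1 : ‖x - v‖ < R / 4 := hn.trans_le (min_le_left _ _)
    have hn2 : ‖x - v‖ < 1 := hn.trans_le (min_le_right _ _)
    have hn0 := norm_nonneg (x - v)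
    have e : v + (x - v) = x := by abel
    by_cases hxE : x ∈ Es f Ω
    · have key : κ * ‖x - v‖ / 2 ≤ stdRad (p x) := by
        apply le_stdRad (by positivity) (by nlinarith)
        rw [hp]
        intro _
        have g1 := std_germ_shift hf hx hcx (by linarith : ‖x - v‖ < R)
        have g2 := std_rk_shift hf hx hcx (by linarith : ‖x - v‖ < R)
        rw [e] at g1 g2
        obtain ⟨c1, -, c3⟩ := H (x - v) (by rw [← g2]; exact hxE.2)
        rw [← g1] at c1 c3
        have hN := NOf_ge (germ f x)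
        have hNr : NOf (germ f x) * (κ * ‖x - v‖) ≤ ‖x - v‖ := by
          have h1 : NOf (germ f x) * κ ≤ 1 := by
            have h2 : NOf (germ f x) * κ ≤ C * (1 / C) :=
              mul_le_mul c3 hκC hκ.le hC.le
            have h3 : C * (1 / C) = 1 := by field_simp
            linarith
          nlinarith
        constructor
        · intro z hz
          apply hb
          rw [mem_ball, dist_eq_norm] at hz ⊢
          have : z - v = (z - x) + (x - v) := by abel
          rw [this]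
          exact (norm_add_le _ _).trans_lt (by linarith)
        · by_cases hpos : 0 < NOf (germ f x) * (κ * ‖x - v‖)
          · have c1' : ConicAt (germ f v) (x - v) (NOf (germ f x) * (κ * ‖x - v‖)) (germ f x) :=
              std_mono c1 (mul_le_mul_of_nonneg_left
                (mul_le_mul_of_nonneg_right hκρ hn0) (by linarith))
            have c2 := (ConicAt.shift hh hcx hpos (by linarith)).2 c1'
            rwa [e] at c2
          · exact fun u hu => absurd hu (not_lt.2 ((not_lt.1 hpos).trans (norm_nonneg u)))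
      show _ ≤ stdRad (p x)
      linarith
    · have := hnot x hxE
      show _ ≤ stdRad (p x)
      nlinarith
  · have h1 := stdRad_spec (hm e) (h0 e) hb
    rw [hp] at h1
    exact h1 he

/-- near every point the constants of the edges are bounded -/
theorem std_local (hf : LocConic f Ω) {x : E3} (hx : x ∈ Ω) :
    ∃ r > 0, ∃ C > 0, ∀ e ∈ Es f Ω, e ∈ ball x r → COf (germ f e) ≤ C := by
  obtain ⟨hh, R, hR, hb, hcx⟩ := hf.germ_spec hx
  obtain ⟨ρ, hρ, C, hC, H⟩ := std_vertex hh (hf.germ_locConic hx)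
  refine ⟨R, hR, C, hC, fun e he hex => ?_⟩
  have hn : ‖e - x‖ < R := by rwa [mem_ball, dist_eq_norm] at hex
  have e' : x + (e - x) = e := by abel
  have g1 := std_germ_shift hf hx hcx hn
  have g2 := std_rk_shift hf hx hcx hn
  rw [e'] at g1 g2
  rw [g1]
  exact (H (e - x) (by rw [← g2]; exact he.2)).2.1

theorem exists_lip_bound (hf : LocConic f Ω) (hinj : InjOn f Ω) (hΩ : IsOpen Ω)
    (hc : ContinuousOn f Ω) (κ : E3 → ℝ) :
    ∃ Λ σ : E3 → ℝ, ContinuousOn Λ Ω ∧ LPos σ Ω ∧ ∀ x ∈ Ω, 0 < Λ x ∧ LipAt (Λ x) f x ∧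
      (∀ e ∈ Es f Ω, ‖x - e‖ < σ x → 2 * COf (germ f e) ≤ Λ x) ∧
      (∀ v ∈ Vs f Ω, ‖x - v‖ < σ x → κ v ≤ Λ x) := by
  obtain ⟨Φ, hΦ⟩ : ∃ Φ : E3 → ℝ → Prop, Φ = fun x c => 0 < c ∧ ∃ r > 0,
      (∀ y ∈ ball x r, ∀ y' ∈ ball x r, ‖f y - f y'‖ ≤ c * ‖y - y'‖) ∧
      (∀ e ∈ Es f Ω, e ∈ ball x r → 2 * COf (germ f e) ≤ c) ∧
      (∀ v ∈ Vs f Ω, v ∈ ball x r → κ v ≤ c) := ⟨_, rfl⟩
  have hup : ∀ x c c', c ≤ c' → Φ x c → Φ x c' := by
    intro x c c' hcc
    rw [hΦ]
    rintro ⟨h0, r, hr, h1, h2, h3⟩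
    refine ⟨by linarith, r, hr, fun y hy y' hy' => ?_, fun e he hex => ?_, fun v hv hvx => ?_⟩
    · exact (h1 y hy y' hy').trans (mul_le_mul_of_nonneg_right hcc (norm_nonneg _))
    · exact (h2 e he hex).trans hcc
    · exact (h3 v hv hvx).trans hcc
  have hnear : ∀ x ∈ Ω, ∃ c, ∃ r > 0, ∀ y ∈ ball x r, Φ y c := by
    intro x hx
    obtain ⟨C₁, r₁, hr₁, H₁⟩ := lipAt_of_locConic hf hinj hΩ hc hx
    obtain ⟨r₂, hr₂, C₂, hC₂, H₂⟩ := std_local hf hx
    obtain ⟨r₃, hr₃, H₃⟩ := rk_nearby hf hx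
    have hr : 0 < min r₁ (min r₂ r₃) := lt_min hr₁ (lt_min hr₂ hr₃)
    refine ⟨|C₁| + 2 * C₂ + |κ x|, min r₁ (min r₂ r₃) / 2, by positivity, fun y hy => ?_⟩
    rw [hΦ]
    have hsub : ball y (min r₁ (min r₂ r₃) / 2) ⊆ ball x (min r₁ (min r₂ r₃)) := by
      intro z hz
      rw [mem_ball] at hy hz ⊢
      linarith [dist_triangle z y x]
    have hs1 : ball x (min r₁ (min r₂ r₃)) ⊆ ball x r₁ := ball_subset_ball (min_le_left _ _)
    have hs2 : ball x (min r₁ (min r₂ r₃)) ⊆ ball x r₂ :=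
      ball_subset_ball ((min_le_right _ _).trans (min_le_left _ _))
    have hs3 : ball x (min r₁ (min r₂ r₃)) ⊆ ball x r₃ :=
      ball_subset_ball ((min_le_right _ _).trans (min_le_right _ _))
    refine ⟨by positivity, min r₁ (min r₂ r₃) / 2, by positivity, ?_, ?_, ?_⟩
    · intro z hz z' hz'
      refine (H₁ z (hs1 (hsub hz)) z' (hs1 (hsub hz'))).trans ?_
      apply mul_le_mul_of_nonneg_right _ (norm_nonneg _)
      have := le_abs_self C₁
      have := abs_nonneg (κ x)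
      linarith
    · intro e he hez
      have h1 := H₂ e he (hs2 (hsub hez))
      have := abs_nonneg C₁
      have := abs_nonneg (κ x)
      linarith
    · intro v hv hvz
      have h1 := H₃ v (hs3 (hsub hvz))
      have h2 : v = x := by
        by_contra hne
        have := h1.2.2 hne
        have := hv.2
        omega
      subst h2
      have := le_abs_self (κ v)
      have := abs_nonneg C₁
      linarith
  obtain ⟨g, hg⟩ := exists_continuous_forall_mem_convex_of_local_const (X := Ω) (E := ℝ)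
    (t := fun x => {c | Φ x c}) (fun x => by
      apply OrdConnected.convex
      refine ⟨fun a ha b hb c hc' => ?_⟩
      exact hup _ _ _ hc'.1 ha) (fun x => by
      obtain ⟨c, r, hr, H⟩ := hnear x x.2
      refine ⟨c, ?_⟩
      have h1 : ∀ᶠ y in 𝓝 (x : E3), Φ y c := by
        filter_upwards [ball_mem_nhds (x : E3) hr] with y hy
        exact H y hy
      exact continuousAt_subtype_val.eventually h1)
  obtain ⟨Λ, hΛ⟩ : ∃ Λ : E3 → ℝ, ∀ x (hx : x ∈ Ω), Λ x = g ⟨x, hx⟩ + 1 := by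
    classical
    refine ⟨fun x => if hx : x ∈ Ω then g ⟨x, hx⟩ + 1 else 1, fun x hx => ?_⟩
    simp [hx]
  obtain ⟨p, hp⟩ : ∃ p : E3 → ℝ → Prop, p = fun x r =>
      (∀ e ∈ Es f Ω, ‖x - e‖ < r → 2 * COf (germ f e) ≤ Λ x) ∧
      (∀ v ∈ Vs f Ω, ‖x - v‖ < r → κ v ≤ Λ x) := ⟨_, rfl⟩
  have hm : ∀ x b b', b ≤ b' → p x b' → p x b := by
    intro x b b' hb
    rw [hp]
    rintro ⟨h1, h2⟩
    exact ⟨fun e he h => h1 e he (h.trans_le hb), fun v hv h => h2 v hv (h.trans_le hb)⟩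
  have h0 : ∀ x, p x 0 := by
    intro x
    rw [hp]
    exact ⟨fun e he h => absurd h (not_lt.2 (norm_nonneg _)),
      fun v hv h => absurd h (not_lt.2 (norm_nonneg _))⟩
  have hcont : ContinuousOn Λ Ω := by
    rw [continuousOn_iff_continuous_domRestrict]
    have : Ω.domRestrict Λ = fun x => g x + 1 := by
      funext x
      exact hΛ x x.2
    rw [this]
    exact g.continuous.add continuous_const
  refine ⟨Λ, fun x => stdRad (p x), hcont, ?_, ?_⟩
  · intro x hx
    have h1 : Φ x (g ⟨x, hx⟩) := hg ⟨x, hx⟩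
    rw [hΦ] at h1
    obtain ⟨hpos, r, hr, -, h2, h3⟩ := h1
    have h4 : ∀ᶠ y in 𝓝 x, g ⟨x, hx⟩ ≤ Λ y := by
      have h5 : ContinuousAt Λ x := hcont.continuousAt (hΩ.mem_nhds hx)
      have h6 : g ⟨x, hx⟩ < Λ x := by rw [hΛ x hx]; linarith
      exact (h5.eventually_const_lt h6).mono fun y hy => hy.le
    obtain ⟨r', hr', H⟩ := Metric.eventually_nhds_iff_ball.1 h4
    have hmin : 0 < min (r / 2) 1 := lt_min (by positivity) one_pos
    refine ⟨min (r / 2) 1 / 2, by positivity, min r' (r / 2), lt_min hr' (by positivity),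
      fun y hy => ?_⟩
    have hy1 : y ∈ ball x r' := ball_subset_ball (min_le_left _ _) hy
    have hy2 : y ∈ ball x (r / 2) := ball_subset_ball (min_le_right _ _) hy
    apply le_stdRad hmin.le (min_le_right _ _)
    rw [hp]
    have hsub : ∀ z, ‖y - z‖ < min (r / 2) 1 → z ∈ ball x r := by
      intro z hz
      rw [mem_ball] at hy2 ⊢
      have hz' : dist z y < r / 2 := by
        rw [dist_comm, dist_eq_norm]
        exact hz.trans_le (min_le_left _ _)
      linarith [dist_triangle z y x]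
    exact ⟨fun e he h => (h2 e he (hsub e h)).trans (H y hy1),
      fun v hv h => (h3 v hv (hsub v h)).trans (H y hy1)⟩
  · intro x hx
    have h1 : Φ x (g ⟨x, hx⟩) := hg ⟨x, hx⟩
    have h2 : Φ x (Λ x) := hup x _ _ (by rw [hΛ x hx]; linarith) h1
    rw [hΦ] at h2
    obtain ⟨hpos, r, hr, hlip, -, -⟩ := h2
    refine ⟨hpos, ⟨r, hr, hlip⟩, ?_, ?_⟩
    · intro e he hlt
      have h3 := stdRad_spec (hm x) (h0 x) le_rfl
      rw [hp] at h3
      exact h3.1 e he (by rw [← hp]; exact hlt)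
    · intro v hv hlt
      have h3 := stdRad_spec (hm x) (h0 x) le_rfl
      rw [hp] at h3
      exact h3.2 v hv (by rw [← hp]; exact hlt)

end SM
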