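import Pool.Agent.SM.Defs
import Pool.Agent.SM.Sec
import Pool.Agent.SM.Hc

/-!
# Project SM, module HP
-/

open Set Metric Filter Topology MeasureTheory
open scoped ContDiff Pointwise

noncomputable section

namespace SM

variable {X X' : Type*} [NormedAddCommGroup X] [NormedSpace ℝ X] [FiniteDimensional ℝ X]
  [NormedAddCommGroup X'] [NormedSpace ℝ X'] [FiniteDimensional ℝ X']

/-- joint continuity of a homogeneous family -/
theorem HomFam.continuous {H : ℝ → X → X} {C : ℝ} (hH : HomFam H C) :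
    Continuous (fun p : ℝ × X => H p.1 p.2) := by
  obtain ⟨c, _, Λ, _, _, hlip, _⟩ := hH.uniform
  rw [continuous_iff_continuousAt]
  rintro ⟨t0, x0⟩
  rw [ContinuousAt, tendsto_iff_norm_sub_tendsto_zero]
  have hbound : ∀ p : ℝ × X, ‖H p.1 p.2 - H t0 x0‖ ≤
      Λ * ‖p.2 - x0‖ + C * |p.1 - t0| * ‖x0‖ := by
    intro p
    have h1 : H p.1 p.2 - H t0 x0 = (H p.1 p.2 - H p.1 x0) + (H p.1 x0 - H t0 x0) := by abel
    rw [h1]
    exact (norm_add_le _ _).trans (add_le_add (hlip _ _ _) (hH.lipt _ _ _))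
  refine squeeze_zero (fun p => norm_nonneg _) hbound ?_
  have hc : Continuous (fun p : ℝ × X => Λ * ‖p.2 - x0‖ + C * |p.1 - t0| * ‖x0‖) := by
    fun_prop
  have h2 := hc.tendsto (t0, x0)
  simpa using h2

theorem HomPath.trans {a b c : X → X} (h₁ : HomPath a b) (h₂ : HomPath b c) : HomPath a c := by
  obtain ⟨H1, C1, hH1, ha1, hb1⟩ := h₁
  obtain ⟨H2, C2, hH2, hb2, hc2⟩ := h₂
  set H : ℝ → X → X := fun t => if t ≤ 1 / 2 then H1 (3 * t) else H2 (3 * t - 2) with hH
  have hlow : ∀ t, t ≤ 1 / 2 → H t = H1 (3 * t) := by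
    intro t ht
    simp only [hH, if_pos ht]
  have hhigh : ∀ t, 1 / 3 ≤ t → H t = H2 (3 * t - 2) := by
    intro t ht
    by_cases h : t ≤ 1 / 2
    · rw [hlow t h, hH1.right (3 * t) (by linarith), hb1, hH2.left (3 * t - 2) (by linarith), hb2]
    · simp only [hH, if_neg h]
  refine ⟨H, 3 * (|C1| + |C2|), ?_, ?_, ?_⟩
  · constructor
    · intro t ht
      rw [hlow t (by linarith), hlow 0 (by norm_num), hH1.left (3 * t) (by linarith), mul_zero]
    · intro t ht
      rw [hhigh t (by linarith), hhigh 1 (by norm_num), hH2.right (3 * t - 2) (by linarith)]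
      norm_num
    · intro t
      by_cases h : t ≤ 1 / 2
      · rw [hlow t h]
        exact hH1.hom _
      · rw [hhigh t (by linarith)]
        exact hH2.hom _
    · have hA : ∀ t t' x, t ≤ 1 / 2 → t' ≤ 1 / 2 →
          ‖H t x - H t' x‖ ≤ 3 * (|C1| + |C2|) * |t - t'| * ‖x‖ := by
        intro t t' x ht ht'
        rw [hlow t ht, hlow t' ht']
        refine (hH1.lipt _ _ _).trans ?_
        apply mul_le_mul_of_nonneg_right _ (norm_nonneg _)
        have h1 : 3 * t - 3 * t' = 3 * (t - t') := by ring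
        rw [h1, abs_mul, abs_of_pos (by norm_num : (0 : ℝ) < 3)]
        have h2 := le_abs_self C1
        have h3 := abs_nonneg C2
        have h4 := abs_nonneg (t - t')
        nlinarith
      have hB : ∀ t t' x, 1 / 3 ≤ t → 1 / 3 ≤ t' →
          ‖H t x - H t' x‖ ≤ 3 * (|C1| + |C2|) * |t - t'| * ‖x‖ := by
        intro t t' x ht ht'
        rw [hhigh t ht, hhigh t' ht']
        refine (hH2.lipt _ _ _).trans ?_
        apply mul_le_mul_of_nonneg_right _ (norm_nonneg _)
        have h1 : 3 * t - 2 - (3 * t' - 2) = 3 * (t - t') := by ring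
        rw [h1, abs_mul, abs_of_pos (by norm_num : (0 : ℝ) < 3)]
        have h2 := le_abs_self C2
        have h3 := abs_nonneg C1
        have h4 := abs_nonneg (t - t')
        nlinarith
      have hC : ∀ t t' x, t ≤ 1 / 2 → 1 / 2 ≤ t' →
          ‖H t x - H t' x‖ ≤ 3 * (|C1| + |C2|) * |t - t'| * ‖x‖ := by
        intro t t' x ht ht'
        have h1 := hA t (1 / 2) x ht le_rfl
        have h2 := hB (1 / 2) t' x (by norm_num) (by linarith)
        have h3 : H t x - H t' x = (H t x - H (1 / 2) x) + (H (1 / 2) x - H t' x) := by abel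
        rw [h3]
        refine (norm_add_le _ _).trans ((add_le_add h1 h2).trans (le_of_eq ?_))
        rw [abs_of_nonpos (by linarith : t - 1 / 2 ≤ 0),
          abs_of_nonpos (by linarith : 1 / 2 - t' ≤ 0), abs_of_nonpos (by linarith : t - t' ≤ 0)]
        ring
      intro t t' x
      rcases le_total t (1 / 2) with h | h
      · rcases le_total t' (1 / 2) with h' | h'
        · exact hA t t' x h h'
        · exact hC t t' x h h'
      · rcases le_total t' (1 / 2) with h' | h'
        · rw [norm_sub_rev, abs_sub_comm]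
          exact hC t' t x h' h
        · exact hB t t' x (by linarith) (by linarith)
    · intro t
      by_cases h : t ≤ 1 / 2
      · rw [hlow t h]
        exact hH1.inj _
      · rw [hhigh t (by linarith)]
        exact hH2.inj _
    · intro t x hx
      rcases lt_or_ge t (1 / 2) with h | h
      · obtain ⟨c, hc, hg⟩ := hH1.good (3 * t) x hx
        refine ⟨c, hc, ?_⟩
        have h1 : FamGood c (fun q => H1 (3 * q)) t x :=
          FamGood.comp_param (φ := fun q : ℝ => 3 * q) hg
            (continuous_const.mul continuous_id).continuousAt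
        refine h1.congr ?_
        have h2 : ∀ᶠ z : ℝ × X in 𝓝 (t, x), z.1 < 1 / 2 :=
          continuous_fst.continuousAt.eventually_lt continuousAt_const h
        filter_upwards [h2] with z hz
        rw [hlow z.1 hz.le]
      · obtain ⟨c, hc, hg⟩ := hH2.good (3 * t - 2) x hx
        refine ⟨c, hc, ?_⟩
        have h1 : FamGood c (fun q => H2 (3 * q - 2)) t x :=
          FamGood.comp_param (φ := fun q : ℝ => 3 * q - 2) hg
            ((continuous_const.mul continuous_id).sub continuous_const).continuousAt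
        refine h1.congr ?_
        have h2 : ∀ᶠ z : ℝ × X in 𝓝 (t, x), 1 / 3 < z.1 :=
          continuousAt_const.eventually_lt continuous_fst.continuousAt
            (by show (1 : ℝ) / 3 < t; linarith)
        filter_upwards [h2] with z hz
        rw [hhigh z.1 hz.le]
  · rw [hlow 0 (by norm_num), mul_zero, ha1]
  · rw [hhigh 1 (by norm_num)]
    have h1 : (3 : ℝ) * 1 - 2 = 1 := by norm_num
    rw [h1, hc2]

theorem HomPath.conj {a b : X → X} (h : HomPath a b) {ψ : X' → X} {χ : X → X'}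
    (hψ : PosHom ψ) (hψi : Function.Injective ψ) (hψd : ∀ x, x ≠ 0 → ContDiffAt ℝ 1 ψ x)
    (hψf : ∀ x, x ≠ 0 → ∀ v, fderiv ℝ ψ x v = 0 → v = 0)
    (hχ : PosHom χ) (hχi : Function.Injective χ) (hχd : ∀ x, x ≠ 0 → ContDiffAt ℝ 1 χ x)
    (hχf : ∀ x, x ≠ 0 → ∀ v, fderiv ℝ χ x v = 0 → v = 0) :
    HomPath (fun x => χ (a (ψ x))) (fun x => χ (b (ψ x))) := by
  obtain ⟨H, C, hH, h0, h1⟩ := h
  obtain ⟨Cχ, hCχ0, hCχ⟩ := posHom_lipschitz hχ (fun x hx => by
    obtain ⟨c, _, hs⟩ := secGood_of_contDiffAt (hχd x hx) (hχf x hx)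
    exact hs.lipAt)
  obtain ⟨Cψ, hCψ0, hCψ⟩ := posHom_lipschitz hψ (fun x hx => by
    obtain ⟨c, _, hs⟩ := secGood_of_contDiffAt (hψd x hx) (hψf x hx)
    exact hs.lipAt)
  have hψ0 : ψ 0 = 0 := by
    have h := hψ 0 le_rfl 0
    rwa [zero_smul, zero_smul] at h
  have hψn : ∀ x, ‖ψ x‖ ≤ Cψ * ‖x‖ := by
    intro x
    have h2 := hCψ x 0
    rwa [hψ0, sub_zero, sub_zero] at h2
  refine ⟨fun t x => χ (H t (ψ x)), Cχ * (|C| * Cψ), ?_, ?_, ?_⟩
  · constructor
    · intro t ht
      funext x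
      show χ (H t (ψ x)) = χ (H 0 (ψ x))
      rw [hH.left t ht]
    · intro t ht
      funext x
      show χ (H t (ψ x)) = χ (H 1 (ψ x))
      rw [hH.right t ht]
    · intro t s hs x
      show χ (H t (ψ (s • x))) = s • χ (H t (ψ x))
      rw [hψ s hs, hH.hom t s hs, hχ s hs]
    · intro t t' x
      show ‖χ (H t (ψ x)) - χ (H t' (ψ x))‖ ≤ _
      refine (hCχ _ _).trans ?_
      have h2 := hH.lipt t t' (ψ x)
      have h3 : C * |t - t'| * ‖ψ x‖ ≤ |C| * |t - t'| * (Cψ * ‖x‖) := by
        apply mul_le_mul _ (hψn x) (norm_nonneg _) (by positivity)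
        exact mul_le_mul_of_nonneg_right (le_abs_self C) (abs_nonneg _)
      calc Cχ * ‖H t (ψ x) - H t' (ψ x)‖ ≤ Cχ * (|C| * |t - t'| * (Cψ * ‖x‖)) :=
            mul_le_mul_of_nonneg_left (h2.trans h3) hCχ0.le
        _ = Cχ * (|C| * Cψ) * |t - t'| * ‖x‖ := by ring
    · intro t
      exact hχi.comp ((hH.inj t).comp hψi)
    · intro t x hx
      have hψx : ψ x ≠ 0 := by
        intro h2
        apply hx
        apply hψi
        rw [h2, hψ0]
      have hHx : H t (ψ x) ≠ 0 := by
        intro h2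
        apply hψx
        apply hH.inj t
        have h3 := hH.hom t 0 le_rfl 0
        rw [zero_smul, zero_smul] at h3
        rw [h2, h3]
      obtain ⟨c, hc, hg⟩ := hH.good t (ψ x) hψx
      exact FamGood.conj hc hg hH.continuous.continuousAt
        ((hψd x hx).hasStrictFDerivAt (by norm_num)) (hψf x hx)
        ((hχd _ hHx).hasStrictFDerivAt (by norm_num)) (hχf _ hHx)
  · funext x
    show χ (H 0 (ψ x)) = χ (a (ψ x))
    rw [h0]
  · funext x
    show χ (H 1 (ψ x)) = χ (b (ψ x))
    rw [h1]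

omit [FiniteDimensional ℝ X] in
theorem homPath_intro {H : ℝ → X → X} (hleft : ∀ t, t ≤ 0 → H t = H 0)
    (hright : ∀ t, 1 ≤ t → H t = H 1) (hhom : ∀ t, PosHom (H t))
    (hinj : ∀ t, Function.Injective (H t)) {C : ℝ}
    (hlip : ∀ t t' x, ‖H t x - H t' x‖ ≤ C * |t - t'| * ‖x‖)
    (hgood : ∀ t, ∀ x, x ≠ 0 → ∃ c > 0, FamGood c H t x) : HomPath (H 0) (H 1) :=
  ⟨H, C, ⟨hleft, hright, hhom, hlip, hinj, hgood⟩, rfl, rfl⟩

end SM
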