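import Pool.Agent.SM.Defs
import Pool.Agent.SM.Sec
import Pool.Agent.SM.Hp

/-!
# Project SM, module HMG
-/

open Set Metric Filter Topology MeasureTheory
open scoped ContDiff Pointwise

noncomputable section

namespace SM

private theorem hmg_posHom (P : ℂ → ℂ) : PosHom (homog P) := by
  intro a ha q
  rcases ha.eq_or_lt with rfl | ha
  · simp [homog]
  · unfold homog
    by_cases h : 0 < q.2
    · have h2 : 0 < (a • q).2 := by simpa using mul_pos ha h
      rw [if_pos h2, if_pos h]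
      ext1
      · have h3 : ((a * q.2)⁻¹ : ℝ) • (a • q.1) = q.2⁻¹ • q.1 := by
          rw [smul_smul]
          congr 1
          field_simp
        change (a * q.2) • P ((a * q.2)⁻¹ • (a • q.1)) = a • (q.2 • P (q.2⁻¹ • q.1))
        rw [h3, smul_smul]
      · rfl
    · have h2 : ¬ 0 < (a • q).2 := by
        rw [not_lt] at h ⊢
        change a * q.2 ≤ 0
        nlinarith
      rw [if_neg h2, if_neg h]

private theorem hmg_inj {P : ℂ → ℂ} (hP : Function.Injective P) :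
    Function.Injective (homog P) := by
  have hsnd : ∀ q, (homog P q).2 = q.2 := by
    intro q
    unfold homog
    split_ifs <;> rfl
  intro q q' h
  have h2 : q.2 = q'.2 := by rw [← hsnd q, ← hsnd q', h]
  unfold homog at h
  by_cases hq : 0 < q.2
  · rw [if_pos hq, if_pos (h2 ▸ hq)] at h
    have h3 := congrArg Prod.fst h
    dsimp only at h3
    rw [← h2] at h3
    have h4 : P (q.2⁻¹ • q.1) = P (q.2⁻¹ • q'.1) := smul_right_injective ℂ hq.ne' h3
    have h5 : q.1 = q'.1 := smul_right_injective ℂ (inv_ne_zero hq.ne') (hP h4)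
    exact Prod.ext h5 h2
  · rw [if_neg hq, if_neg (h2 ▸ hq)] at h
    exact h

private theorem hmg_joint {G : ℝ → ℂ → ℂ} {C : ℝ} (hl : ∀ t t' x, ‖G t x - G t' x‖ ≤ C * |t - t'|)
    {t : ℝ} {x : ℂ} (h2 : ContinuousAt (G t) x) :
    ContinuousAt (fun z : ℝ × ℂ => G z.1 z.2) (t, x) := by
  rw [Metric.continuousAt_iff] at h2 ⊢
  intro ε hε
  obtain ⟨r, hr, hr2⟩ := h2 (ε / 2) (half_pos hε)
  have hC' : 0 < |C| + 1 := by positivity
  refine ⟨min r (ε / 2 / (|C| + 1)), lt_min hr (by positivity), ?_⟩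
  rintro ⟨t', x'⟩ hz
  rw [Prod.dist_eq, max_lt_iff] at hz
  obtain ⟨hz1, hz2⟩ := hz
  have h3 : dist (G t x') (G t x) < ε / 2 := hr2 (hz2.trans_le (min_le_left _ _))
  have h4 : dist (G t' x') (G t x') < ε / 2 := by
    rw [dist_eq_norm]
    refine (hl t' t x').trans_lt ?_
    have h5 : |t' - t| < ε / 2 / (|C| + 1) := by
      have h6 : dist t' t < min r (ε / 2 / (|C| + 1)) := hz1
      rw [Real.dist_eq] at h6
      exact h6.trans_le (min_le_right _ _)
    rw [lt_div_iff₀ hC'] at h5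
    have h7 : C * |t' - t| ≤ |C| * |t' - t| :=
      mul_le_mul_of_nonneg_right (le_abs_self C) (abs_nonneg _)
    have h8 := abs_nonneg (t' - t)
    nlinarith
  have h9 := dist_triangle (G t' x') (G t x') (G t x)
  change dist (G t' x') (G t x) < ε
  linarith

/-- the linear part of the passage from `M` to the matrix of the homogeneous map -/
private def hmgLin (p₀ : ℂ) : (ℂ →L[ℝ] ℂ) →ₗ[ℝ] (ℂ × ℝ →L[ℝ] ℂ × ℝ) where
  toFun M := (M.comp (ContinuousLinearMap.fst ℝ ℂ ℝ) -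
    (ContinuousLinearMap.snd ℝ ℂ ℝ).smulRight (M p₀)).prod 0
  map_add' M N := by
    ext v <;> simp <;> ring
  map_smul' a M := by
    ext v <;> simp

private theorem hmgLin_apply (p₀ : ℂ) (M : ℂ →L[ℝ] ℂ) (v : ℂ × ℝ) :
    hmgLin p₀ M v = (M v.1 - v.2 • M p₀, 0) := rfl

private def hmgConst (g₀ : ℂ) : ℂ × ℝ →L[ℝ] ℂ × ℝ :=
  ((ContinuousLinearMap.snd ℝ ℂ ℝ).smulRight g₀).prod (ContinuousLinearMap.snd ℝ ℂ ℝ)

private theorem hmgConst_apply (g₀ : ℂ) (v : ℂ × ℝ) : hmgConst g₀ v = (v.2 • g₀, v.2) := rfl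

private theorem hmg_good {G : ℝ → ℂ → ℂ} {C : ℝ}
    (hl : ∀ t t' x, ‖G t x - G t' x‖ ≤ C * |t - t'|)
    (hg : ∀ t x, ∃ c > 0, FamGood c G t x) (t : ℝ) (q : ℂ × ℝ) (hq : 0 < q.2) :
    ∃ c > 0, FamGood c (fun t => homog (G t)) t q := by
  set p₀ : ℂ := q.2⁻¹ • q.1 with hp₀
  obtain ⟨c, hc, hcg⟩ := hg t p₀
  have hcont := hmg_joint hl hcg.secGood.continuousAt
  obtain ⟨K, hK, r, hr, H⟩ := hcg
  obtain ⟨B, hB⟩ := hK.compact.isBounded.exists_norm_le
  set B' : ℝ := max B 0 with hB'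
  have hB0 : 0 ≤ B' := le_max_right _ _
  have hBB : ∀ M ∈ K, ‖M‖ ≤ B' := fun M hM => (hB M hM).trans (le_max_left _ _)
  set g₀ : ℂ := G t p₀ with hg₀
  set W : ℝ := ‖g₀‖ + B' * ‖p₀‖ with hW
  have hW0 : 0 ≤ W := by positivity
  set c' : ℝ := c / (1 + c + W) with hc'
  have hD : 0 < 1 + c + W := by positivity
  have hc'0 : 0 < c' := by positivity
  have hc'1 : c' * (1 + c + W) = c := by
    rw [hc']
    field_simp
  have hc'2 : c' ≤ 1 := by
    rw [hc', div_le_one hD]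
    linarith
  set K' : Set (ℂ × ℝ →L[ℝ] ℂ × ℝ) := hmgLin p₀ '' K + {hmgConst g₀} with hK'
  have hgood' : GoodSet c' K' := by
    refine ⟨(hK.convex.linear_image _).add (convex_singleton _),
      (hK.compact.image (LinearMap.continuous_of_finiteDimensional _)).add isCompact_singleton, ?_⟩
    rintro _ ⟨_, ⟨M, hM, rfl⟩, _, rfl, rfl⟩ v
    change c' * ‖v‖ ≤ ‖hmgLin p₀ M v + hmgConst g₀ v‖
    have h4 : ‖v‖ = max ‖v.1‖ ‖v.2‖ := rfl
    rw [h4, hmgLin_apply, hmgConst_apply, Prod.mk_add_mk, zero_add]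
    change c' * max ‖v.1‖ ‖v.2‖ ≤ max ‖M v.1 - v.2 • M p₀ + v.2 • g₀‖ ‖v.2‖
    have h1 : c * ‖v.1‖ ≤ ‖M v.1‖ := hK.lower M hM v.1
    have h2 : ‖M p₀‖ ≤ B' * ‖p₀‖ := (M.le_opNorm _).trans
      (mul_le_mul_of_nonneg_right (hBB M hM) (norm_nonneg _))
    have h3 : ‖M v.1‖ ≤ ‖M v.1 - v.2 • M p₀ + v.2 • g₀‖ + ‖v.2‖ * W := by
      have e1 : M v.1 = (M v.1 - v.2 • M p₀ + v.2 • g₀) - v.2 • (g₀ - M p₀) := by
        rw [smul_sub]
        abel
      have e2 : ‖g₀ - M p₀‖ ≤ W := (norm_sub_le _ _).trans (by linarith)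
      calc ‖M v.1‖ = ‖(M v.1 - v.2 • M p₀ + v.2 • g₀) - v.2 • (g₀ - M p₀)‖ := by rw [← e1]
        _ ≤ ‖M v.1 - v.2 • M p₀ + v.2 • g₀‖ + ‖v.2 • (g₀ - M p₀)‖ := norm_sub_le _ _
        _ ≤ _ := by
          rw [norm_smul]
          gcongr
    rw [mul_max_of_nonneg _ _ hc'0.le]
    have h5 := norm_nonneg v.2
    have h6 := norm_nonneg v.1
    refine max_le ?_ ?_
    · by_contra hlt
      rw [not_le, max_lt_iff] at hlt
      obtain ⟨e1, e2⟩ := hlt
      have e3 : ‖v.2‖ * W ≤ c' * ‖v.1‖ * W := by gcongr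
      nlinarith
    · refine le_trans ?_ (le_max_right _ _)
      nlinarith
  -- closeness
  have hp1 : ContinuousAt (fun z : ℝ × (ℂ × ℝ) => z.2.2⁻¹ • z.2.1) (t, q) := by
    have e1 : ContinuousAt (fun z : ℝ × (ℂ × ℝ) => z.2.2⁻¹) (t, q) :=
      ContinuousAt.inv₀ (by fun_prop) hq.ne'
    have e2 : ContinuousAt (fun z : ℝ × (ℂ × ℝ) => z.2.1) (t, q) := by fun_prop
    exact e1.smul e2
  have hp : ContinuousAt (fun z : ℝ × (ℂ × ℝ) => (z.1, z.2.2⁻¹ • z.2.1)) (t, q) :=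
    ContinuousAt.prodMk continuousAt_fst hp1
  have hG : ContinuousAt (fun z : ℝ × (ℂ × ℝ) => G z.1 (z.2.2⁻¹ • z.2.1)) (t, q) :=
    ContinuousAt.comp (g := fun z : ℝ × ℂ => G z.1 z.2) (x := (t, q)) (by exact hcont) hp
  have hF : ContinuousAt (fun z : ℝ × (ℂ × ℝ) => ‖G z.1 (z.2.2⁻¹ • z.2.1) - g₀‖ +
      B' * ‖z.2.2⁻¹ • z.2.1 - p₀‖) (t, q) := by
    refine (hG.sub continuousAt_const).norm.add (continuousAt_const.mul ?_)
    exact (hp1.sub continuousAt_const).norm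
  have ev1 : ∀ᶠ z : ℝ × (ℂ × ℝ) in 𝓝 (t, q), ‖G z.1 (z.2.2⁻¹ • z.2.1) - g₀‖ +
      B' * ‖z.2.2⁻¹ • z.2.1 - p₀‖ < c' / 2 := by
    refine hF.eventually (gt_mem_nhds ?_)
    simp only [← hp₀, ← hg₀, sub_self, norm_zero, mul_zero, add_zero]
    positivity
  have ev2 : ∀ᶠ z : ℝ × (ℂ × ℝ) in 𝓝 (t, q), z.2.2⁻¹ • z.2.1 ∈ ball p₀ r := by
    exact hp1.eventually (ball_mem_nhds _ hr)
  have ev3 : ∀ᶠ z : ℝ × (ℂ × ℝ) in 𝓝 (t, q), 0 < z.2.2 := by
    have h7 : ContinuousAt (fun z : ℝ × (ℂ × ℝ) => z.2.2) (t, q) := by fun_prop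
    exact h7.eventually (lt_mem_nhds hq)
  have ev := (ev1.and ev2).and ev3
  rw [nhds_prod_eq, Filter.eventually_prod_iff] at ev
  obtain ⟨pa, hpa, pb, hpb, hab⟩ := ev
  obtain ⟨ρ, hρ, hb⟩ := Metric.eventually_nhds_iff_ball.1 hpb
  refine ⟨c' - c' / 2, by linarith, ?_⟩
  refine famGood_of_near (K := K') hgood' (by positivity : 0 ≤ c' / 2) hρ ?_
  filter_upwards [hpa, H] with s hs hsec x hx x' hx'
  obtain ⟨⟨e1, e2⟩, e3⟩ := hab hs (hb x hx)
  obtain ⟨⟨e1', e2'⟩, e3'⟩ := hab hs (hb x' hx')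
  dsimp only at e1 e2 e3 e1' e2' e3'
  obtain ⟨M, hM, hMM⟩ := hsec _ e2 _ e2'
  refine ⟨hmgLin p₀ M + hmgConst g₀, ⟨_, ⟨M, hM, rfl⟩, _, rfl, rfl⟩, ?_⟩
  set y := x.1
  set z := x.2
  set y' := x'.1
  set z' := x'.2
  set p' : ℂ := z'⁻¹ • y' with hp'
  have hzp' : z' • p' = y' := by
    rw [hp', smul_smul, mul_inv_cancel₀ e3'.ne', one_smul]
  have hzp : z • (z⁻¹ • y) = y := by
    rw [smul_smul, mul_inv_cancel₀ e3.ne', one_smul]
  have hval : homog (G s) x = (z • G s (z⁻¹ • y), z) := by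
    unfold homog
    rw [if_pos e3]
  have hval' : homog (G s) x' = (z' • G s p', z') := by
    unfold homog
    rw [if_pos e3']
  have key : z • G s (z⁻¹ • y) - z' • G s p' - (M (y - y') - (z - z') • M p₀ + (z - z') • g₀) =
      (z - z') • ((G s p' - g₀) - M (p' - p₀)) := by
    have k1 : z • G s (z⁻¹ • y) = z • G s p' + M (z • (z⁻¹ • y - p')) := by
      rw [map_smul, ← hMM, smul_sub]
      abel
    have k2 : z • (z⁻¹ • y - p') = (y - y') - (z - z') • p' := by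
      rw [smul_sub, hzp, sub_smul, hzp']
      abel
    rw [k1, k2, map_sub, map_smul, map_sub M p' p₀]
    simp only [sub_smul, smul_sub]
    abel
  have hkey2 : homog (G s) x - homog (G s) x' - (hmgLin p₀ M + hmgConst g₀) (x - x') =
      ((z - z') • ((G s p' - g₀) - M (p' - p₀)), 0) := by
    rw [hval, hval']
    change (z • G s (z⁻¹ • y) - z' • G s p', z - z') -
      (hmgLin p₀ M (x - x') + hmgConst g₀ (x - x')) = _
    rw [hmgLin_apply, hmgConst_apply, Prod.mk_add_mk, zero_add, Prod.mk_sub_mk]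
    ext1
    · exact key
    · change z - z' - (z - z') = 0
      ring
  rw [hkey2, Prod.norm_mk, norm_zero, max_eq_left (norm_nonneg _), norm_smul]
  have h8 : ‖(G s p' - g₀) - M (p' - p₀)‖ ≤ c' / 2 := by
    refine (norm_sub_le _ _).trans ?_
    have h9 : ‖M (p' - p₀)‖ ≤ B' * ‖p' - p₀‖ := (M.le_opNorm _).trans
      (mul_le_mul_of_nonneg_right (hBB M hM) (norm_nonneg _))
    linarith
  have h10 : ‖z - z'‖ ≤ ‖x - x'‖ := norm_snd_le (x - x')
  calc ‖z - z'‖ * ‖(G s p' - g₀) - M (p' - p₀)‖ ≤ ‖x - x'‖ * (c' / 2) := by gcongr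
    _ = c' / 2 * ‖x - x'‖ := by ring

theorem homPath_of_planePath {P : ℂ → ℂ} {G : ℝ → ℂ → ℂ} {R C : ℝ}
    (h0 : ∀ t, t ≤ 0 → G t = P) (h1 : ∀ t, 1 ≤ t → G t = id)
    (hs : ∀ t x, R ≤ ‖x‖ → G t x = x) (hl : ∀ t t' x, ‖G t x - G t' x‖ ≤ C * |t - t'|)
    (hg : ∀ t x, ∃ c > 0, FamGood c G t x) (hinj : ∀ t, Function.Injective (G t)) :
    HomPath (homog P) id := by
  have hC : 0 ≤ C := by
    have := hl 1 0 0
    rw [sub_zero, abs_one, mul_one] at this
    exact (norm_nonneg _).trans this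
  have hid : homog (G 1) = id := by
    rw [h1 1 le_rfl]
    funext q
    unfold homog
    split_ifs with h
    · ext1
      · change q.2 • (q.2⁻¹ • q.1) = q.1
        rw [smul_smul, mul_inv_cancel₀ h.ne', one_smul]
      · rfl
    · rfl
  have hpath : HomPath (homog (G 0)) (homog (G 1)) := by
    refine homPath_intro (H := fun t => homog (G t)) (C := C) ?_ ?_ (fun t => hmg_posHom _)
      (fun t => hmg_inj (hinj t)) ?_ ?_
    · intro t ht
      rw [h0 t ht, h0 0 le_rfl]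
    · intro t ht
      rw [h1 t ht, h1 1 le_rfl]
    · intro t t' q
      unfold homog
      split_ifs with h
      · rw [Prod.mk_sub_mk, sub_self, Prod.norm_mk, norm_zero, max_eq_left (norm_nonneg _),
          ← smul_sub, norm_smul, Real.norm_of_nonneg h.le]
        have h2 : q.2 ≤ ‖q‖ := (le_abs_self _).trans (norm_snd_le q)
        have h3 := hl t t' (q.2⁻¹ • q.1)
        have h4 : 0 ≤ C * |t - t'| := by positivity
        calc q.2 * ‖G t (q.2⁻¹ • q.1) - G t' (q.2⁻¹ • q.1)‖ ≤ ‖q‖ * (C * |t - t'|) := by gcongr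
          _ = C * |t - t'| * ‖q‖ := by ring
      · rw [sub_self, norm_zero]
        positivity
    · intro t q hq
      by_cases hq2 : 0 < q.2
      · exact hmg_good hl hg t q hq2
      · rw [not_lt] at hq2
        refine ⟨1, one_pos, ?_⟩
        have hidg : FamGood 1 (fun (_ : ℝ) (x : ℂ × ℝ) => x) t q :=
          ⟨{ContinuousLinearMap.id ℝ (ℂ × ℝ)}, goodSet_singleton fun v => by simp, 1, one_pos,
            Eventually.of_forall fun s x _ x' _ => ⟨_, rfl, by simp⟩⟩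
        refine hidg.congr ?_
        have hev : ∀ᶠ x : ℂ × ℝ in 𝓝 q, x.2 < 0 ∨ R * x.2 < ‖x.1‖ := by
          rcases hq2.lt_or_eq with hlt | heq
          · have h7 : ContinuousAt (fun z : ℂ × ℝ => z.2) q := by fun_prop
            filter_upwards [h7.eventually (gt_mem_nhds hlt)] with x hx
            exact Or.inl hx
          · have h8 : q.1 ≠ 0 := by
              intro h9
              exact hq (Prod.ext h9 heq)
            have h7 : ContinuousAt (fun z : ℂ × ℝ => ‖z.1‖ - R * z.2) q := by fun_prop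
            have h9 : 0 < ‖q.1‖ - R * q.2 := by
              rw [heq, mul_zero, sub_zero]
              exact norm_pos_iff.2 h8
            filter_upwards [h7.eventually (lt_mem_nhds h9)] with x hx
            right
            linarith
        have hev2 : ∀ᶠ z : ℝ × (ℂ × ℝ) in 𝓝 (t, q), z.2.2 < 0 ∨ R * z.2.2 < ‖z.2.1‖ :=
          (continuous_snd.tendsto (t, q)).eventually hev
        filter_upwards [hev2] with z hz
        unfold homog
        split_ifs with h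
        · have h10 : R * z.2.2 < ‖z.2.1‖ := by
            rcases hz with hz | hz
            · linarith
            · exact hz
          rw [hs z.1 _ ?_]
          · ext1
            · rw [smul_smul, mul_inv_cancel₀ h.ne', one_smul]
            · rfl
          · rw [norm_smul, Real.norm_of_nonneg (inv_pos.2 h).le, ← div_eq_inv_mul,
              le_div_iff₀ h]
            exact h10.le
        · rfl
  rw [hid, h0 0 le_rfl] at hpath
  exact hpath

end SM
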