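import Pool.Agent.SM.Defs
import Pool.Agent.SM.Sec
import Pool.Agent.SM.Opn

/-!
# Project SM, module INJ
-/

open Set Metric Filter Topology MeasureTheory
open scoped ContDiff Pointwise

noncomputable section

namespace SM

private theorem inj_uniform {G : ℝ → ℂ → ℂ} {R : ℝ}
    (h0 : ∀ t, t ≤ 0 → G t = G 0) (h1 : ∀ t, 1 ≤ t → G t = G 1)
    (hs : ∀ t x, R ≤ ‖x‖ → G t x = x)
    (hg : ∀ t x, ∃ c > 0, FamGood c G t x) :
    ∃ c > 0, ∃ r > 0, ∀ (t : ℝ) (x : ℂ), ∃ K : Set (ℂ →L[ℝ] ℂ), GoodSet c K ∧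
      SecOn (G t) K (ball x r) := by
  have hcomp : IsCompact (Icc (0 : ℝ) 1 ×ˢ closedBall (0 : ℂ) (R + 1)) :=
    isCompact_Icc.prod (isCompact_closedBall _ _)
  have hind : ∃ c > 0, ∃ r > 0, ∀ z ∈ Icc (0 : ℝ) 1 ×ˢ closedBall (0 : ℂ) (R + 1),
      ∃ K : Set (ℂ →L[ℝ] ℂ), GoodSet c K ∧ SecOn (G z.1) K (ball z.2 r) := by
    refine hcomp.induction_on (p := fun S => ∃ c > 0, ∃ r > 0, ∀ z ∈ S,
      ∃ K : Set (ℂ →L[ℝ] ℂ), GoodSet c K ∧ SecOn (G z.1) K (ball z.2 r)) ?_ ?_ ?_ ?_
    · exact ⟨1, one_pos, 1, one_pos, fun z hz => absurd hz (notMem_empty z)⟩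
    · rintro S T hST ⟨c, hc, r, hr, h⟩
      exact ⟨c, hc, r, hr, fun z hz => h z (hST hz)⟩
    · rintro S T ⟨c, hc, r, hr, h⟩ ⟨c', hc', r', hr', h'⟩
      refine ⟨min c c', lt_min hc hc', min r r', lt_min hr hr', fun z hz => ?_⟩
      rcases hz with hz | hz
      · obtain ⟨K, hK, hsec⟩ := h z hz
        refine ⟨K, hK.mono (min_le_left _ _), fun x hx x' hx' => ?_⟩
        exact hsec x (ball_subset_ball (min_le_left _ _) hx) x'
          (ball_subset_ball (min_le_left _ _) hx')
      · obtain ⟨K, hK, hsec⟩ := h' z hz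
        refine ⟨K, hK.mono (min_le_right _ _), fun x hx x' hx' => ?_⟩
        exact hsec x (ball_subset_ball (min_le_right _ _) hx) x'
          (ball_subset_ball (min_le_right _ _) hx')
    · rintro ⟨t, x⟩ -
      obtain ⟨c, hc, K, hK, r, hr, H⟩ := hg t x
      refine ⟨{z | SecOn (G z.1) K (ball x r)} ∩ (univ ×ˢ ball x (r / 2)), ?_, c, hc, r / 2,
        half_pos hr, ?_⟩
      · refine mem_nhdsWithin_of_mem_nhds (inter_mem ?_ ?_)
        · exact (continuous_fst.tendsto (t, x)).eventually H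
        · exact prod_mem_nhds univ_mem (ball_mem_nhds x (half_pos hr))
      · rintro ⟨t', x'⟩ ⟨hz1, -, hz2⟩
        refine ⟨K, hK, fun y hy y' hy' => ?_⟩
        have hsub : ball x' (r / 2) ⊆ ball x r := by
          refine ball_subset_ball' ?_
          have : dist x' x < r / 2 := hz2
          linarith
        exact hz1 y (hsub hy) y' (hsub hy')
  obtain ⟨c, hc, r, hr, h⟩ := hind
  refine ⟨min c 1, lt_min hc one_pos, min r 1, lt_min hr one_pos, fun t x => ?_⟩
  rcases le_or_gt ‖x‖ (R + 1) with hx | hx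
  · have key : ∀ t ∈ Icc (0 : ℝ) 1, ∃ K : Set (ℂ →L[ℝ] ℂ), GoodSet (min c 1) K ∧
        SecOn (G t) K (ball x (min r 1)) := by
      intro t ht
      obtain ⟨K, hK, hsec⟩ := h (t, x) ⟨ht, by simpa using hx⟩
      refine ⟨K, hK.mono (min_le_left _ _), fun y hy y' hy' => ?_⟩
      exact hsec y (ball_subset_ball (min_le_left _ _) hy) y'
        (ball_subset_ball (min_le_left _ _) hy')
    rcases le_total t 0 with ht | ht
    · rw [h0 t ht]
      exact key 0 ⟨le_rfl, zero_le_one⟩
    · rcases le_total t 1 with ht' | ht'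
      · exact key t ⟨ht, ht'⟩
      · rw [h1 t ht']
        exact key 1 ⟨zero_le_one, le_rfl⟩
  · refine ⟨{ContinuousLinearMap.id ℝ ℂ}, (goodSet_singleton (c := 1) fun v => by simp).mono
      (min_le_right _ _), fun y hy y' hy' => ⟨_, rfl, ?_⟩⟩
    have hout : ∀ y ∈ ball x (min r 1), G t y = y := by
      intro y hy
      refine hs t y ?_
      have h2 : dist y x < 1 := (mem_ball.1 hy).trans_le (min_le_right _ _)
      rw [dist_eq_norm] at h2
      have h3 : ‖x‖ ≤ ‖y‖ + ‖y - x‖ := by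
        have : x = y - (y - x) := by abel
        calc ‖x‖ = ‖y - (y - x)‖ := by rw [← this]
          _ ≤ ‖y‖ + ‖y - x‖ := norm_sub_le _ _
      linarith
    rw [hout y hy, hout y' hy']
    simp

theorem planePath_injective {G : ℝ → ℂ → ℂ} {R C : ℝ}
    (h0 : ∀ t, t ≤ 0 → G t = G 0) (h1 : ∀ t, 1 ≤ t → G t = G 1)
    (hs : ∀ t x, R ≤ ‖x‖ → G t x = x) (hl : ∀ t t' x, ‖G t x - G t' x‖ ≤ C * |t - t'|)
    (hg : ∀ t x, ∃ c > 0, FamGood c G t x) (hinj : Function.Injective (G 1)) :
    ∀ t, Function.Injective (G t) := by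
  obtain ⟨c, hc, r, hr, h⟩ := inj_uniform h0 h1 hs hg
  set C' : ℝ := max C 0 with hC'
  have hC0 : 0 ≤ C' := le_max_right _ _
  set η : ℝ := c * r / (8 * (C' + 1)) with hη
  have hη0 : 0 < η := by positivity
  have hη1 : 2 * (C' * η) < c * (r / 2) / 2 := by
    have h2 : η * (8 * (C' + 1)) = c * r := by
      rw [hη]
      field_simp
    nlinarith
  have hstep : ∀ t t', |t - t'| ≤ η → Function.Injective (G t) → Function.Injective (G t') := by
    intro t t' htt hi x y hxy
    by_contra hne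
    have hd : ∀ z, ‖G t z - G t' z‖ ≤ C' * η := by
      intro z
      refine (hl t t' z).trans ?_
      calc C * |t - t'| ≤ C' * |t - t'| :=
            mul_le_mul_of_nonneg_right (le_max_left _ _) (abs_nonneg _)
        _ ≤ C' * η := by gcongr
    have hfar : r ≤ ‖y - x‖ := by
      by_contra hlt
      rw [not_le] at hlt
      obtain ⟨K, hK, hsec⟩ := h t' x
      obtain ⟨M, hM, hMM⟩ := hsec y (by rwa [mem_ball, dist_eq_norm]) x (mem_ball_self hr)
      rw [hxy, sub_self] at hMM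
      have h2 := hK.lower M hM (y - x)
      rw [← hMM, norm_zero] at h2
      have h3 : 0 < ‖y - x‖ := norm_pos_iff.2 (sub_ne_zero.2 (Ne.symm hne))
      nlinarith
    obtain ⟨K, hK, hsec⟩ := h t x
    have himg := ball_subset_image hK hc hsec (half_pos hr) (half_lt_self hr)
    have hmem : G t y ∈ ball (G t x) (c * (r / 2) / 2) := by
      rw [mem_ball, dist_eq_norm]
      have h2 : G t y - G t x = (G t y - G t' y) - (G t x - G t' x) := by
        rw [hxy]
        abel
      rw [h2]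
      refine (norm_sub_le _ _).trans_lt ?_
      have h3 := hd y
      have h4 := hd x
      linarith
    obtain ⟨y', hy', hyy⟩ := himg hmem
    have h5 : y' = y := hi hyy
    rw [h5, mem_closedBall, dist_eq_norm] at hy'
    linarith
  have hall : ∀ n : ℕ, ∀ t, 1 - n * η ≤ t → Function.Injective (G t) := by
    intro n
    induction n with
    | zero =>
      intro t ht
      rw [h1 t (by simpa using ht)]
      exact hinj
    | succ n ih =>
      intro t ht
      push_cast at ht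
      have h2 : 1 - (n : ℝ) * η ≤ t + η := by linarith
      refine hstep (t + η) t ?_ (ih _ h2)
      rw [add_sub_cancel_left, abs_of_pos hη0]
  intro t
  obtain ⟨n, hn⟩ := exists_nat_ge ((1 - t) / η)
  rw [div_le_iff₀ hη0] at hn
  exact hall n t (by linarith)

theorem PlanePath.trans {P Q S : ℂ → ℂ} (h₁ : PlanePath P Q) (h₂ : PlanePath Q S) :
    PlanePath P S := by
  classical
  obtain ⟨G₁, R₁, C₁, a0, a1, as, al, ag⟩ := h₁
  obtain ⟨G₂, R₂, C₂, b0, b1, bs, bl, bg⟩ := h₂
  set G : ℝ → ℂ → ℂ := fun t => if t ≤ 1 / 2 then G₁ (3 * t) else G₂ (3 * t - 2) with hG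
  have hleft : ∀ t, t < 2 / 3 → G t = G₁ (3 * t) := by
    intro t ht
    rw [hG]
    dsimp only
    split_ifs with h
    · rfl
    · rw [b0 _ (by linarith), a1 _ (by linarith)]
  have hright : ∀ t, 1 / 3 < t → G t = G₂ (3 * t - 2) := by
    intro t ht
    rw [hG]
    dsimp only
    split_ifs with h
    · rw [b0 _ (by linarith), a1 _ (by linarith)]
    · rfl
  have hC₁ : ∀ t t' x, ‖G₁ t x - G₁ t' x‖ ≤ max C₁ 0 * |t - t'| := fun t t' x =>
    (al t t' x).trans (mul_le_mul_of_nonneg_right (le_max_left _ _) (abs_nonneg _))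
  have hC₂ : ∀ t t' x, ‖G₂ t x - G₂ t' x‖ ≤ max C₂ 0 * |t - t'| := fun t t' x =>
    (bl t t' x).trans (mul_le_mul_of_nonneg_right (le_max_left _ _) (abs_nonneg _))
  have hc1 : 0 ≤ max C₁ 0 := le_max_right _ _
  have hc2 : 0 ≤ max C₂ 0 := le_max_right _ _
  set D : ℝ := 3 * (max C₁ 0 + max C₂ 0) with hD
  have hD0 : 0 ≤ D := by positivity
  -- both on one side
  have hsame1 : ∀ t t' x, t ≤ 1 / 2 → t' ≤ 1 / 2 → ‖G t x - G t' x‖ ≤ D * |t - t'| := by
    intro t t' x ht ht'
    rw [hleft t (by linarith), hleft t' (by linarith)]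
    refine (hC₁ _ _ x).trans ?_
    rw [← mul_sub, abs_mul, abs_of_pos (show (0 : ℝ) < 3 by norm_num)]
    have := abs_nonneg (t - t')
    have h3 : 0 ≤ max C₂ 0 * |t - t'| := by positivity
    rw [hD]
    linarith
  have hsame2 : ∀ t t' x, 1 / 2 ≤ t → 1 / 2 ≤ t' → ‖G t x - G t' x‖ ≤ D * |t - t'| := by
    intro t t' x ht ht'
    rw [hright t (by linarith), hright t' (by linarith)]
    refine (hC₂ _ _ x).trans ?_
    have h2 : 3 * t - 2 - (3 * t' - 2) = 3 * (t - t') := by ring
    rw [h2, abs_mul, abs_of_pos (show (0 : ℝ) < 3 by norm_num)]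
    have := abs_nonneg (t - t')
    have h3 : 0 ≤ max C₁ 0 * |t - t'| := by positivity
    rw [hD]
    linarith
  have hmixed : ∀ t t' x, t ≤ 1 / 2 → 1 / 2 ≤ t' → ‖G t x - G t' x‖ ≤ D * |t - t'| := by
    intro t t' x ht ht'
    have h2 := hsame1 t (1 / 2) x ht le_rfl
    have h3 := hsame2 (1 / 2) t' x le_rfl ht'
    have h4 : ‖G t x - G t' x‖ ≤ ‖G t x - G (1 / 2) x‖ + ‖G (1 / 2) x - G t' x‖ :=
      norm_sub_le_norm_sub_add_norm_sub _ _ _
    rw [abs_of_nonpos (by linarith)] at h2 h3 ⊢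
    linarith
  refine ⟨G, max R₁ R₂, D, ?_, ?_, ?_, ?_, ?_⟩
  · intro t ht
    rw [hleft t (by linarith), a0 _ (by linarith)]
  · intro t ht
    rw [hright t (by linarith), b1 _ (by linarith)]
  · intro t x hx
    rcases le_total t (1 / 2) with ht | ht
    · rw [hleft t (by linarith)]
      exact as _ x ((le_max_left _ _).trans hx)
    · rw [hright t (by linarith)]
      exact bs _ x ((le_max_right _ _).trans hx)
  · intro t t' x
    rcases le_total t (1 / 2) with ht | ht <;> rcases le_total t' (1 / 2) with ht' | ht'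
    · exact hsame1 t t' x ht ht'
    · exact hmixed t t' x ht ht'
    · rw [norm_sub_rev, abs_sub_comm]
      exact hmixed t' t x ht' ht
    · exact hsame2 t t' x ht ht'
  · intro t x
    rcases le_total t (1 / 2) with ht | ht
    · obtain ⟨c, hc, hcg⟩ := ag (3 * t) x
      refine ⟨c, hc, ?_⟩
      have hφ : ContinuousAt (fun s : ℝ => 3 * s) t := by fun_prop
      refine (hcg.comp_param (φ := fun s : ℝ => 3 * s) hφ).congr ?_
      have h3 : ∀ᶠ z : ℝ × ℂ in 𝓝 (t, x), z.1 < 2 / 3 :=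
        (continuous_fst.tendsto (t, x)).eventually (gt_mem_nhds (by linarith))
      filter_upwards [h3] with z hz
      rw [hleft _ hz]
    · obtain ⟨c, hc, hcg⟩ := bg (3 * t - 2) x
      refine ⟨c, hc, ?_⟩
      have hφ : ContinuousAt (fun s : ℝ => 3 * s - 2) t := by fun_prop
      refine (hcg.comp_param (φ := fun s : ℝ => 3 * s - 2) hφ).congr ?_
      have h3 : ∀ᶠ z : ℝ × ℂ in 𝓝 (t, x), 1 / 3 < z.1 :=
        (continuous_fst.tendsto (t, x)).eventually (lt_mem_nhds (by linarith))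
      filter_upwards [h3] with z hz
      rw [hright _ hz]

theorem PlanePath.scale {P Q : ℂ → ℂ} {N : ℝ} (hN : 0 < N)
    (h : PlanePath (fun x => N • P (N⁻¹ • x)) (fun x => N • Q (N⁻¹ • x))) : PlanePath P Q := by
  obtain ⟨G, R, C, h0, h1, hs, hl, hg⟩ := h
  have hN' : N ≠ 0 := hN.ne'
  refine ⟨fun t x => N⁻¹ • G t (N • x), R / N, N⁻¹ * C, ?_, ?_, ?_, ?_, ?_⟩
  · intro t ht
    funext x
    change N⁻¹ • G t (N • x) = P x
    rw [h0 t ht]
    simp only [smul_smul, inv_mul_cancel₀ hN', one_smul]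
  · intro t ht
    funext x
    change N⁻¹ • G t (N • x) = Q x
    rw [h1 t ht]
    simp only [smul_smul, inv_mul_cancel₀ hN', one_smul]
  · intro t x hx
    rw [div_le_iff₀ hN] at hx
    change N⁻¹ • G t (N • x) = x
    rw [hs t _ (by rw [norm_smul, Real.norm_of_nonneg hN.le]; linarith), smul_smul,
      inv_mul_cancel₀ hN', one_smul]
  · intro t t' x
    change ‖N⁻¹ • G t (N • x) - N⁻¹ • G t' (N • x)‖ ≤ N⁻¹ * C * |t - t'|
    rw [← smul_sub, norm_smul, Real.norm_of_nonneg (inv_pos.2 hN).le, mul_assoc]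
    exact mul_le_mul_of_nonneg_left (hl t t' _) (inv_pos.2 hN).le
  · intro t x
    obtain ⟨c, hc, hcg⟩ := hg t (N • x)
    have hcont : ContinuousAt (fun z : ℝ × ℂ => G z.1 z.2) (t, N • x) := by
      have h2 : ContinuousAt (G t) (N • x) := hcg.secGood.continuousAt
      rw [Metric.continuousAt_iff] at h2 ⊢
      intro ε hε
      obtain ⟨r, hr, hr2⟩ := h2 (ε / 2) (half_pos hε)
      have hC' : 0 < |C| + 1 := by positivity
      refine ⟨min r (ε / 2 / (|C| + 1)), lt_min hr (by positivity), ?_⟩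
      rintro ⟨t', x'⟩ hz
      rw [Prod.dist_eq, max_lt_iff] at hz
      obtain ⟨hz1, hz2⟩ := hz
      have h3 : dist (G t x') (G t (N • x)) < ε / 2 := hr2 (hz2.trans_le (min_le_left _ _))
      have h4 : dist (G t' x') (G t x') < ε / 2 := by
        rw [dist_eq_norm]
        refine (hl t' t x').trans_lt ?_
        have h5 : |t' - t| < ε / 2 / (|C| + 1) := by
          have h6 : dist t' t < min r (ε / 2 / (|C| + 1)) := hz1
          rw [Real.dist_eq] at h6
          exact h6.trans_le (min_le_right _ _)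
        rw [lt_div_iff₀ hC'] at h5
        have h7 : C * |t' - t| ≤ |C| * |t' - t| :=
          mul_le_mul_of_nonneg_right (le_abs_self C) (abs_nonneg _)
        have h8 := abs_nonneg (t' - t)
        nlinarith
      have h9 := dist_triangle (G t' x') (G t x') (G t (N • x))
      change dist (G t' x') (G t (N • x)) < ε
      linarith
    exact FamGood.conj (h := G) (p := t) (φ := fun x : ℂ => N • x) (χ := fun y : ℂ => N⁻¹ • y)
      (x₀ := x) (A := N • ContinuousLinearMap.id ℝ ℂ) (B := N⁻¹ • ContinuousLinearMap.id ℝ ℂ) hc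
      hcg hcont (N • ContinuousLinearMap.id ℝ ℂ).hasStrictFDerivAt (fun v hv => by simpa [hN'] using hv)
      (N⁻¹ • ContinuousLinearMap.id ℝ ℂ).hasStrictFDerivAt (fun v hv => by simpa [hN'] using hv)

end SM
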