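import Pool.Agent.SM.Defs

/-!
# Project SM, module PSI
-/

open Set Metric Filter Topology MeasureTheory
open scoped ContDiff Pointwise

noncomputable section

namespace SM

theorem psi_psiInv {T : ℝ} (hT : 0 < T) (q : ℂ × ℝ) : psi T (psiInv T q) = q := by
  obtain ⟨y, w⟩ := q
  refine Prod.ext rfl ?_
  simp only [psi, psiInv]
  set r : ℝ := Real.sqrt (3 / 4 * T ^ 2 * ‖y‖ ^ 2 + w ^ 2 / 4) with hr
  have hr2 : r ^ 2 = 3 / 4 * T ^ 2 * ‖y‖ ^ 2 + w ^ 2 / 4 := Real.sq_sqrt (by positivity)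
  have hrw : w / 2 ≤ r := by
    have : |w / 2| ≤ r := Real.abs_le_sqrt (by nlinarith [sq_nonneg (T * ‖y‖)])
    exact (le_abs_self _).trans this
  have hr0 : 0 ≤ r := Real.sqrt_nonneg _
  have h1 : T ^ 2 * ‖y‖ ^ 2 + (4 / 3 * (w - r)) ^ 2 / 4 = (4 / 3 * r - w / 3) ^ 2 := by
    linear_combination (-4 / 3) * hr2
  rw [h1, Real.sqrt_sq (by linarith)]
  ring

theorem psiInv_psi {T : ℝ} (hT : 0 < T) (q : ℂ × ℝ) : psiInv T (psi T q) = q := by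
  obtain ⟨y, z⟩ := q
  refine Prod.ext rfl ?_
  simp only [psi, psiInv]
  set s : ℝ := Real.sqrt (T ^ 2 * ‖y‖ ^ 2 + z ^ 2 / 4) with hs
  have hs2 : s ^ 2 = T ^ 2 * ‖y‖ ^ 2 + z ^ 2 / 4 := Real.sq_sqrt (by positivity)
  have hsz : |z / 2| ≤ s := Real.abs_le_sqrt (by nlinarith [sq_nonneg (T * ‖y‖)])
  have hs0 : 0 ≤ s := Real.sqrt_nonneg _
  have h1 : 3 / 4 * T ^ 2 * ‖y‖ ^ 2 + (z + s) ^ 2 / 4 = (z / 4 + s) ^ 2 := by
    linear_combination (-3 / 4) * hs2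
  have h2 := (abs_le.mp hsz).1
  rw [h1, Real.sqrt_sq (by linarith)]
  ring

theorem posHom_psi (T : ℝ) : PosHom (psi T) := by
  intro a ha q
  refine Prod.ext rfl ?_
  simp only [psi, Prod.smul_fst, Prod.smul_snd, smul_eq_mul, norm_smul, Real.norm_of_nonneg ha]
  have h1 : T ^ 2 * (a * ‖q.1‖) ^ 2 + (a * q.2) ^ 2 / 4 =
      a ^ 2 * (T ^ 2 * ‖q.1‖ ^ 2 + q.2 ^ 2 / 4) := by ring
  rw [h1, Real.sqrt_mul (sq_nonneg a), Real.sqrt_sq ha]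
  ring

theorem posHom_psiInv (T : ℝ) : PosHom (psiInv T) := by
  intro a ha q
  refine Prod.ext rfl ?_
  simp only [psiInv, Prod.smul_fst, Prod.smul_snd, smul_eq_mul, norm_smul, Real.norm_of_nonneg ha]
  have h1 : 3 / 4 * T ^ 2 * (a * ‖q.1‖) ^ 2 + (a * q.2) ^ 2 / 4 =
      a ^ 2 * (3 / 4 * T ^ 2 * ‖q.1‖ ^ 2 + q.2 ^ 2 / 4) := by ring
  rw [h1, Real.sqrt_mul (sq_nonneg a), Real.sqrt_sq ha]
  ring

private theorem psi_pos {T b : ℝ} (hT : 0 < T) (hb : 0 < b) {q : ℂ × ℝ} (hq : q ≠ 0) :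
    b * T ^ 2 * ‖q.1‖ ^ 2 + q.2 ^ 2 / 4 ≠ 0 := by
  intro h
  apply hq
  have h1 : 0 ≤ b * T ^ 2 * ‖q.1‖ ^ 2 := by positivity
  have h2 : 0 ≤ q.2 ^ 2 / 4 := by positivity
  have h3 : b * T ^ 2 * ‖q.1‖ ^ 2 = 0 := by linarith
  have h4 : q.2 ^ 2 / 4 = 0 := by linarith
  refine Prod.ext ?_ ?_
  · have h5 : ‖q.1‖ ^ 2 = 0 := by
      rcases mul_eq_zero.mp h3 with h | h
      · exact absurd h (by positivity)
      · exact h
    exact norm_eq_zero.mp (by simpa using h5)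
  · have h6 : q.2 ^ 2 = 0 := by linarith
    simpa using h6

theorem contDiffAt_psi {T : ℝ} (hT : 0 < T) {q : ℂ × ℝ} (hq : q ≠ 0) :
    ContDiffAt ℝ ∞ (psi T) q := by
  have h1 : ContDiffAt ℝ ∞ (fun q : ℂ × ℝ => T ^ 2 * ‖q.1‖ ^ 2 + q.2 ^ 2 / 4) q := by
    apply ContDiff.contDiffAt
    exact (contDiff_const.mul (contDiff_fst.norm_sq ℝ)).add ((contDiff_snd.pow 2).div_const 4)
  have h2 : T ^ 2 * ‖q.1‖ ^ 2 + q.2 ^ 2 / 4 ≠ 0 := by
    have := psi_pos hT one_pos hq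
    rwa [one_mul] at this
  exact contDiffAt_fst.prodMk (contDiffAt_snd.add (h1.sqrt h2))

theorem contDiffAt_psiInv {T : ℝ} (hT : 0 < T) {q : ℂ × ℝ} (hq : q ≠ 0) :
    ContDiffAt ℝ ∞ (psiInv T) q := by
  have h1 : ContDiffAt ℝ ∞ (fun q : ℂ × ℝ => 3 / 4 * T ^ 2 * ‖q.1‖ ^ 2 + q.2 ^ 2 / 4) q := by
    apply ContDiff.contDiffAt
    exact (contDiff_const.mul (contDiff_fst.norm_sq ℝ)).add ((contDiff_snd.pow 2).div_const 4)
  have h2 : 3 / 4 * T ^ 2 * ‖q.1‖ ^ 2 + q.2 ^ 2 / 4 ≠ 0 := psi_pos hT (by norm_num) hq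
  exact contDiffAt_fst.prodMk (contDiffAt_const.mul (contDiffAt_snd.sub (h1.sqrt h2)))

private theorem psi_chain {f g : ℂ × ℝ → ℂ × ℝ} {q : ℂ × ℝ} (hf : DifferentiableAt ℝ f q)
    (hg : DifferentiableAt ℝ g (f q)) (hgf : ∀ x, g (f x) = x) (v : ℂ × ℝ)
    (hv : fderiv ℝ f q v = 0) : v = 0 := by
  have h1 : fderiv ℝ (g ∘ f) q = (fderiv ℝ g (f q)).comp (fderiv ℝ f q) := fderiv_comp q hg hf
  have h2 : g ∘ f = id := funext hgf
  rw [h2, fderiv_id] at h1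
  have h3 := congrArg (fun A : ℂ × ℝ →L[ℝ] ℂ × ℝ => A v) h1
  simp only [ContinuousLinearMap.comp_apply, hv, map_zero] at h3
  exact h3

theorem fderiv_psi {T : ℝ} (hT : 0 < T) {q : ℂ × ℝ} (hq : q ≠ 0) (v : ℂ × ℝ)
    (hv : fderiv ℝ (psi T) q v = 0) : v = 0 := by
  have h0 : psi T q ≠ 0 := by
    intro h
    apply hq
    have h1 := psiInv_psi hT q
    rw [h] at h1
    rw [← h1]
    simp [psiInv]
  exact psi_chain ((contDiffAt_psi hT hq).differentiableAt (by simp))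
    ((contDiffAt_psiInv hT h0).differentiableAt (by simp)) (psiInv_psi hT) v hv

theorem fderiv_psiInv {T : ℝ} (hT : 0 < T) {q : ℂ × ℝ} (hq : q ≠ 0) (v : ℂ × ℝ)
    (hv : fderiv ℝ (psiInv T) q v = 0) : v = 0 := by
  have h0 : psiInv T q ≠ 0 := by
    intro h
    apply hq
    have h1 := psi_psiInv hT q
    rw [h] at h1
    rw [← h1]
    simp [psi]
  exact psi_chain ((contDiffAt_psiInv hT hq).differentiableAt (by simp))
    ((contDiffAt_psi hT h0).differentiableAt (by simp)) (psi_psiInv hT) v hv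

/-- points below the cone `z ≤ ‖y‖` come from the narrow cone -/
theorem psiInv_narrow {M : ℝ} (hM : 0 < M) {q : ℂ × ℝ} (hq : q.2 ≤ ‖q.1‖) :
    (psiInv (M + 1) q).2 ≤ -M * ‖(psiInv (M + 1) q).1‖ := by
  obtain ⟨y, w⟩ := q
  simp only [psiInv] at hq ⊢
  set Y : ℝ := ‖y‖ with hY
  have hY0 : 0 ≤ Y := norm_nonneg _
  have hr0 : 0 ≤ Real.sqrt (3 / 4 * (M + 1) ^ 2 * Y ^ 2 + w ^ 2 / 4) := Real.sqrt_nonneg _
  have h1 : w + 3 / 4 * M * Y ≤ Real.sqrt (3 / 4 * (M + 1) ^ 2 * Y ^ 2 + w ^ 2 / 4) := by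
    rcases le_total (w + 3 / 4 * M * Y) 0 with h | h
    · exact h.trans hr0
    · refine (le_abs_self _).trans (Real.abs_le_sqrt ?_)
      have hMY : 0 ≤ M * Y := mul_nonneg hM.le hY0
      have h2 : 0 ≤ (Y - w) * (Y + w + 2 * (M * Y)) :=
        mul_nonneg (by linarith) (by linarith)
      nlinarith [sq_nonneg (M * Y)]
  linarith

end SM
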