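import Pool.Agent.SM.Defs
import Pool.Agent.SM.Sec
import Pool.Agent.SM.Hc
import Pool.Agent.SM.Hp

/-!
# Project SM, module SLI
-/

open Set Metric Filter Topology MeasureTheory
open scoped ContDiff Pointwise

noncomputable section

namespace SM

private theorem sli_id (t : ℝ) (q : ℂ × ℝ) :
    FamGood 1 (fun _ : ℝ => (id : ℂ × ℝ → ℂ × ℝ)) t q := by
  refine ⟨{ContinuousLinearMap.id ℝ (ℂ × ℝ)}, goodSet_singleton (fun x => by simp), 1, one_pos,
    Eventually.of_forall ?_⟩
  intro s x _ x' _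
  exact ⟨_, rfl, rfl⟩

/-- derivative along the ray -/
private theorem sli_ray {E F : Type*} [NormedAddCommGroup E] [NormedSpace ℝ E]
    [NormedAddCommGroup F] [NormedSpace ℝ F] {f : E → F} {f' : E →L[ℝ] F} {q : E}
    (hf : HasFDerivAt f f' q) {g : ℝ → F} {g' : F} (hg : HasDerivAt g g' 0)
    (h : ∀ᶠ s : ℝ in 𝓝 0, f (q + s • q) = g s) : f' q = g' := by
  have h1 : HasDerivAt (fun s : ℝ => q + s • q) q 0 := by
    have h2 := ((hasDerivAt_id (0 : ℝ)).smul_const q).const_add q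
    rw [one_smul] at h2
    exact h2
  have h0 : q + (0 : ℝ) • q = q := by rw [zero_smul, add_zero]
  have h2 : HasDerivAt (fun s : ℝ => f (q + s • q)) (f' q) 0 := by
    have hf' : HasFDerivAt f f' (q + (0 : ℝ) • q) := by rwa [h0]
    exact hf'.comp_hasDerivAt (0 : ℝ) h1
  have h3 : HasDerivAt g (f' q) 0 := h2.congr_of_eventuallyEq (by
    filter_upwards [h] with s hs
    exact hs.symm)
  exact h3.unique hg

private theorem sli_euler {E F : Type*} [NormedAddCommGroup E] [NormedSpace ℝ E]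
    [NormedAddCommGroup F] [NormedSpace ℝ F] {f : E → F} {f' : E →L[ℝ] F} {q : E}
    (hf : HasFDerivAt f f' q) (h : ∀ a : ℝ, 0 < a → f (a • q) = a • f q) : f' q = f q := by
  have hg : HasDerivAt (fun s : ℝ => (1 + s) • f q) (f q) 0 := by
    have h2 := ((hasDerivAt_id (0 : ℝ)).const_add 1).smul_const (f q)
    rw [one_smul] at h2
    exact h2
  refine sli_ray hf hg ?_
  filter_upwards [Ioi_mem_nhds (show (-1 : ℝ) < 0 by norm_num)] with s hs
  have hs' : -1 < s := hs
  have h1 : q + s • q = (1 + s) • q := by rw [add_smul, one_smul]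
  rw [h1]
  exact h (1 + s) (by linarith)

private theorem sli_zero {E F : Type*} [NormedAddCommGroup E] [NormedSpace ℝ E]
    [NormedAddCommGroup F] [NormedSpace ℝ F] {f : E → F} {f' : E →L[ℝ] F} {q : E}
    (hf : HasFDerivAt f f' q) (h : ∀ a : ℝ, 0 < a → f (a • q) = f q) : f' q = 0 := by
  refine sli_ray hf (hasDerivAt_const (0 : ℝ) (f q)) ?_
  filter_upwards [Ioi_mem_nhds (show (-1 : ℝ) < 0 by norm_num)] with s hs
  have hs' : -1 < s := hs
  have h1 : q + s • q = (1 + s) • q := by rw [add_smul, one_smul]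
  rw [h1]
  exact h (1 + s) (by linarith)

private theorem sli_inj {k : ℂ × ℝ → ℂ × ℝ} {ρ : ℂ × ℝ → ℝ} {q : ℂ × ℝ}
    (hk : DifferentiableAt ℝ k q) (hρ : DifferentiableAt ℝ ρ q)
    (hinj : ∀ v, fderiv ℝ k q v = 0 → v = 0) (h1 : ∀ a : ℝ, 0 < a → k (a • q) = a • k q)
    (h0 : ∀ a : ℝ, 0 < a → ρ (a • q) = ρ q) (hne : ρ q ≠ 0) :
    ∀ v, fderiv ℝ (fun x => ρ x • k x) q v = 0 → v = 0 := by
  intro v hv
  have he := sli_euler hk.hasFDerivAt h1
  have hz := sli_zero hρ.hasFDerivAt h0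
  have hd : fderiv ℝ (fun x => ρ x • k x) q v =
      ρ q • fderiv ℝ k q v + fderiv ℝ ρ q v • k q := by
    have h2 := (hρ.hasFDerivAt.smul hk.hasFDerivAt).fderiv
    have h3 : (fun x => ρ x • k x) = ρ • k := rfl
    rw [h3, h2]
    rfl
  rw [hd] at hv
  have h4 : fderiv ℝ k q (ρ q • v + fderiv ℝ ρ q v • q) = 0 := by
    rw [map_add, map_smul, map_smul, he]
    exact hv
  have h5 := hinj _ h4
  have h6 : ρ q * fderiv ℝ ρ q v = 0 := by
    have h7 : fderiv ℝ ρ q (ρ q • v + fderiv ℝ ρ q v • q) = 0 := by rw [h5, map_zero]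
    rw [map_add, map_smul, map_smul, hz, smul_zero, add_zero, smul_eq_mul] at h7
    exact h7
  have h8 : fderiv ℝ ρ q v = 0 := by
    rcases mul_eq_zero.mp h6 with h | h
    · exact absurd h hne
    · exact h
  rw [h8, zero_smul, add_zero] at h5
  exact (smul_eq_zero.mp h5).resolve_left hne

theorem exists_slice {k : ℂ × ℝ → ℂ × ℝ} (hk : PosHom k) (hinj : Function.Injective k)
    (hd : ∀ x, x ≠ 0 → ContDiffAt ℝ ∞ k x) (hf : ∀ x, x ≠ 0 → ∀ v, fderiv ℝ k x v = 0 → v = 0)
    (hid : ∀ q : ℂ × ℝ, q.2 ≤ ‖q.1‖ → k q = q) :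
    ∃ P : ℂ → ℂ, ContDiff ℝ ∞ P ∧ Function.Injective P ∧ (∀ x v, fderiv ℝ P x v = 0 → v = 0) ∧
      (∀ x, 1 ≤ ‖x‖ → P x = x) ∧ HomPath k (homog P) := by
  -- the narrow cone is mapped into itself
  have hcone : ∀ q : ℂ × ℝ, ‖q.1‖ < q.2 → ‖(k q).1‖ < (k q).2 := by
    intro q hq
    by_contra hcon
    have h1 := hid (k q) (not_lt.mp hcon)
    have h2 := hinj h1
    rw [h2] at hcon
    exact hcon hq
  have hpos : ∀ q : ℂ × ℝ, 0 < q.2 → 0 < (k q).2 := by
    intro q hq
    rcases lt_or_ge ‖q.1‖ q.2 with h | h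
    · exact lt_of_le_of_lt (norm_nonneg _) (hcone q h)
    · rw [hid q h]
      exact hq
  have hne0 : ∀ q : ℂ × ℝ, 0 < q.2 → q ≠ 0 := by
    rintro q hq rfl
    exact lt_irrefl _ hq
  have hcd : ∀ x, x ≠ 0 → ContDiffAt ℝ 1 k x := fun x hx => (hd x hx).of_le (by norm_cast)
  -- the path
  set ρ : ℝ → ℂ × ℝ → ℝ := fun t x => (1 - t) + t * (x.2 / (k x).2) with hρ
  have hρpos : ∀ t ∈ Icc (0 : ℝ) 1, ∀ q : ℂ × ℝ, 0 < q.2 → 0 < ρ t q := by
    intro t ht q hq
    have h1 : 0 < q.2 / (k q).2 := div_pos hq (hpos q hq)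
    show 0 < (1 - t) + t * (q.2 / (k q).2)
    rcases eq_or_lt_of_le ht.1 with h | h
    · rw [← h]
      norm_num
    · have h2 : 0 < t * (q.2 / (k q).2) := mul_pos h h1
      have h3 := ht.2
      linarith
  have hρhom : ∀ t (q : ℂ × ℝ) (a : ℝ), 0 < a → ρ t (a • q) = ρ t q := by
    intro t q a ha
    show (1 - t) + t * ((a • q).2 / (k (a • q)).2) = (1 - t) + t * (q.2 / (k q).2)
    rw [hk a ha.le, Prod.smul_snd, Prod.smul_snd, smul_eq_mul, smul_eq_mul,
      mul_div_mul_left _ _ ha.ne']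
  have hρcd : ∀ (t : ℝ) (q : ℂ × ℝ), 0 < q.2 →
      ContDiffAt ℝ 1 (fun z : ℝ × (ℂ × ℝ) => ρ z.1 z.2) (t, q) := by
    intro t q hq
    have h1 : ContDiffAt ℝ 1 (fun z : ℝ × (ℂ × ℝ) => (k z.2).2) (t, q) := by
      have h2 : ContDiffAt ℝ 1 (fun z : ℝ × (ℂ × ℝ) => k z.2) (t, q) :=
        ContDiffAt.comp (t, q) (g := k) (f := Prod.snd) (hcd q (hne0 q hq)) contDiffAt_snd
      exact contDiffAt_snd.comp (t, q) h2
    have h3 : ContDiffAt ℝ 1 (fun z : ℝ × (ℂ × ℝ) => z.2.2) (t, q) :=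
      contDiffAt_snd.comp (t, q) contDiffAt_snd
    exact (contDiffAt_const.sub contDiffAt_fst).add
      (contDiffAt_fst.mul (h3.div h1 (hpos q hq).ne'))
  have hHcd : ∀ (t : ℝ) (q : ℂ × ℝ), 0 < q.2 →
      ContDiffAt ℝ 1 (fun z : ℝ × (ℂ × ℝ) => ρ z.1 z.2 • k z.2) (t, q) := by
    intro t q hq
    have h2 : ContDiffAt ℝ 1 (fun z : ℝ × (ℂ × ℝ) => k z.2) (t, q) :=
      ContDiffAt.comp (t, q) (g := k) (f := Prod.snd) (hcd q (hne0 q hq)) contDiffAt_snd
    exact (hρcd t q hq).smul h2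
  have hρcd1 : ∀ (t : ℝ) (q : ℂ × ℝ), 0 < q.2 → ContDiffAt ℝ 1 (ρ t) q := by
    intro t q hq
    exact ContDiffAt.comp q (g := fun z : ℝ × (ℂ × ℝ) => ρ z.1 z.2) (f := fun x => (t, x))
      (hρcd t q hq) (contDiffAt_const.prodMk contDiffAt_id)
  have hHinj : ∀ t ∈ Icc (0 : ℝ) 1, ∀ q : ℂ × ℝ, 0 < q.2 →
      ∀ v, fderiv ℝ (fun x => ρ t x • k x) q v = 0 → v = 0 := by
    intro t ht q hq
    exact sli_inj ((hcd q (hne0 q hq)).differentiableAt (by norm_num))
      ((hρcd1 t q hq).differentiableAt (by norm_num)) (hf q (hne0 q hq))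
      (fun a ha => hk a ha.le q) (fun a ha => hρhom t q a ha) (hρpos t ht q hq).ne'
  -- the slice
  set P : ℂ → ℂ := fun p => (k (p, 1)).2⁻¹ • (k (p, 1)).1 with hP
  have hPH : ∀ p : ℂ, ρ 1 (p, 1) • k (p, 1) = (P p, (1 : ℝ)) := by
    intro p
    have h1 : (0 : ℝ) < (k (p, 1)).2 := hpos (p, 1) one_pos
    have h2 : ρ 1 (p, 1) = (k (p, 1)).2⁻¹ := by
      show (1 - 1) + 1 * ((1 : ℝ) / (k (p, 1)).2) = _
      rw [sub_self, zero_add, one_mul, one_div]
    rw [h2]
    apply Prod.ext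
    · rfl
    · show (k (p, 1)).2⁻¹ • (k (p, 1)).2 = 1
      rw [smul_eq_mul, inv_mul_cancel₀ h1.ne']
  have hPcd : ContDiff ℝ ∞ P := by
    rw [contDiff_iff_contDiffAt]
    intro p
    have h1 : ContDiffAt ℝ ∞ (fun p : ℂ => k (p, (1 : ℝ))) p :=
      ContDiffAt.comp p (g := k) (f := fun p : ℂ => (p, (1 : ℝ)))
        (hd (p, 1) (hne0 (p, 1) one_pos)) (contDiffAt_id.prodMk contDiffAt_const)
    have h2 : ContDiffAt ℝ ∞ (fun p : ℂ => (k (p, (1 : ℝ))).2) p := contDiffAt_snd.comp p h1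
    have h3 : ContDiffAt ℝ ∞ (fun p : ℂ => (k (p, (1 : ℝ))).1) p := contDiffAt_fst.comp p h1
    exact (h2.inv (hpos (p, 1) one_pos).ne').smul h3
  have hPinj : Function.Injective P := by
    intro p p' hpp
    have h1 : (0 : ℝ) < (k (p, 1)).2 := hpos (p, 1) one_pos
    have h1' : (0 : ℝ) < (k (p', 1)).2 := hpos (p', 1) one_pos
    have h2 : (k (p', 1)).2 • k (p, 1) = (k (p, 1)).2 • k (p', 1) := by
      have h3 : ∀ x : ℂ, (0 : ℝ) < (k (x, 1)).2 → k (x, 1) = (k (x, 1)).2 • (P x, (1 : ℝ)) := by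
        intro x hx
        apply Prod.ext
        · show (k (x, 1)).1 = (k (x, 1)).2 • (k (x, 1)).2⁻¹ • (k (x, 1)).1
          rw [smul_smul, mul_inv_cancel₀ hx.ne', one_smul]
        · show (k (x, 1)).2 = (k (x, 1)).2 • (1 : ℝ)
          rw [smul_eq_mul, mul_one]
      rw [h3 p h1]
      conv_rhs => rw [h3 p' h1', ← hpp, smul_smul]
      rw [smul_smul]
      congr 1
      show (k (p', 1)).2 * (k (p, 1)).2 = ((k (p, 1)).2 • (1 : ℝ)) * (k (p', 1)).2
      rw [smul_eq_mul, mul_one, mul_comm]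
    rw [← hk _ h1'.le, ← hk _ h1.le] at h2
    have h4 := hinj h2
    rw [Prod.smul_mk, Prod.smul_mk, smul_eq_mul, smul_eq_mul, mul_one, mul_one] at h4
    have h5 := Prod.mk.inj h4
    rw [h5.2] at h5
    exact smul_right_injective ℂ h1.ne' h5.1
  have hPd : ∀ x v, fderiv ℝ P x v = 0 → v = 0 := by
    intro p v hv
    have h1 : HasFDerivAt (fun x => ρ 1 x • k x) (fderiv ℝ (fun x => ρ 1 x • k x) (p, 1))
        ((p, 1) : ℂ × ℝ) := by
      apply DifferentiableAt.hasFDerivAt
      exact ((hρcd1 1 (p, 1) one_pos).smul (hcd _ (hne0 (p, 1) one_pos))).differentiableAt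
        (by norm_num)
    have h2 : HasFDerivAt (fun x : ℂ => (x, (1 : ℝ))) (ContinuousLinearMap.inl ℝ ℂ ℝ) p :=
      hasFDerivAt_prodMk_left p 1
    have h3 := h1.comp p h2
    have h4 : HasFDerivAt (fun x : ℂ => (P x, (1 : ℝ)))
        ((fderiv ℝ P p).prod (0 : ℂ →L[ℝ] ℝ)) p :=
      ((hPcd.differentiable (by norm_num)) p).hasFDerivAt.prodMk (hasFDerivAt_const (1 : ℝ) p)
    have h5 : ((fun x => ρ 1 x • k x) ∘ fun x : ℂ => (x, (1 : ℝ))) =
        fun x : ℂ => (P x, (1 : ℝ)) := by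
      funext x
      exact hPH x
    rw [h5] at h3
    have h6 := h3.unique h4
    have h7 : fderiv ℝ (fun x => ρ 1 x • k x) (p, 1) (v, 0) = 0 := by
      have h8 : ((fderiv ℝ (fun x => ρ 1 x • k x) (p, 1)).comp
          (ContinuousLinearMap.inl ℝ ℂ ℝ)) v = ((fderiv ℝ P p).prod (0 : ℂ →L[ℝ] ℝ)) v := by
        rw [h6]
      have h9 : ((fderiv ℝ P p).prod (0 : ℂ →L[ℝ] ℝ)) v = (fderiv ℝ P p v, (0 : ℝ)) := rfl
      rw [h9, hv] at h8
      exact h8
    have h10 := hHinj 1 ⟨zero_le_one, le_rfl⟩ (p, 1) one_pos _ h7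
    exact (Prod.mk.inj h10).1
  have hPid : ∀ x, 1 ≤ ‖x‖ → P x = x := by
    intro x hx
    show (k (x, 1)).2⁻¹ • (k (x, 1)).1 = x
    rw [hid (x, 1) hx, inv_one, one_smul]
  refine ⟨P, hPcd, hPinj, hPd, hPid, ?_⟩
  -- the family
  obtain ⟨C, hC0, hC⟩ := posHom_lipschitz hk (fun x hx => by
    obtain ⟨c, _, hs⟩ := secGood_of_contDiffAt (hcd x hx) (hf x hx)
    exact hs.lipAt)
  have hk0 : k 0 = 0 := by
    have h := hk 0 le_rfl 0
    rwa [zero_smul, zero_smul] at h
  set τ : ℝ → ℝ := fun t => max 0 (min 1 t) with hτ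
  have hτmem : ∀ t, τ t ∈ Icc (0 : ℝ) 1 := by
    intro t
    exact ⟨le_max_left _ _, max_le zero_le_one (min_le_left _ _)⟩
  have hτc : Continuous τ := continuous_const.max (continuous_const.min continuous_id)
  have hτl : ∀ t t', |τ t - τ t'| ≤ |t - t'| := by
    intro t t'
    have h1 : |max 0 (min 1 t) - max 0 (min 1 t')| ≤ |min 1 t - min 1 t'| :=
      abs_max_sub_max_le_abs (min 1 t) (min 1 t') 0 |>.trans_eq' (by
        rw [max_comm 0, max_comm 0])
    have h2 : |min 1 t - min 1 t'| ≤ |t - t'| := by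
      rcases le_total t 1 with h | h <;> rcases le_total t' 1 with h' | h'
      · rw [min_eq_right h, min_eq_right h']
      · rw [min_eq_right h, min_eq_left h', abs_of_nonpos (by linarith),
          abs_of_nonpos (by linarith)]
        linarith
      · rw [min_eq_left h, min_eq_right h', abs_of_nonneg (by linarith),
          abs_of_nonneg (by linarith)]
        linarith
      · rw [min_eq_left h, min_eq_left h', sub_self, abs_zero]
        exact abs_nonneg _
    exact h1.trans h2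
  set H : ℝ → ℂ × ℝ → ℂ × ℝ := fun t q => if 0 < q.2 then ρ (τ t) q • k q else q with hH
  have hH0 : H 0 = k := by
    funext q
    by_cases hq : 0 < q.2
    · simp only [hH, if_pos hq]
      have h1 : τ 0 = 0 := by simp [hτ]
      have h2 : ρ (τ 0) q = 1 := by
        rw [h1]
        show (1 - 0) + 0 * (q.2 / (k q).2) = 1
        ring
      rw [h2, one_smul]
    · simp only [hH, if_neg hq]
      exact (hid q ((not_lt.mp hq).trans (norm_nonneg _))).symm
  have hH1 : H 1 = homog P := by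
    funext q
    unfold homog
    by_cases hq : 0 < q.2
    · simp only [hH, if_pos hq]
      have h1 : τ 1 = 1 := by simp [hτ]
      have h2 : ρ (τ 1) q = q.2 / (k q).2 := by
        rw [h1]
        show (1 - 1) + 1 * (q.2 / (k q).2) = _
        ring
      have h3 : k q = q.2 • k (q.2⁻¹ • q.1, 1) := by
        rw [← hk _ hq.le, Prod.smul_mk, smul_smul, mul_inv_cancel₀ hq.ne', one_smul, smul_eq_mul,
          mul_one]
      have h4 : (0 : ℝ) < (k (q.2⁻¹ • q.1, 1)).2 := hpos (_, 1) one_pos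
      rw [h2, h3, Prod.smul_snd, smul_eq_mul]
      have h5 : q.2 / (q.2 * (k (q.2⁻¹ • q.1, 1)).2) = (k (q.2⁻¹ • q.1, 1)).2⁻¹ := by
        field_simp
      rw [h5, smul_comm]
      apply Prod.ext
      · rfl
      · show q.2 • (k (q.2⁻¹ • q.1, 1)).2⁻¹ • (k (q.2⁻¹ • q.1, 1)).2 = q.2
        rw [smul_eq_mul, smul_eq_mul, inv_mul_cancel₀ h4.ne', mul_one]
    · simp only [hH, if_neg hq]
  rw [← hH0, ← hH1]
  refine homPath_intro (H := H) (C := C + 1) ?_ ?_ ?_ ?_ ?_ ?_
  · intro t ht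
    have h1 : τ t = τ 0 := by
      simp only [hτ]
      rw [min_eq_right (by linarith), min_eq_right (by norm_num), max_eq_left ht, max_self]
    simp only [hH, h1]
  · intro t ht
    have h1 : τ t = τ 1 := by
      simp only [hτ]
      rw [min_eq_left ht, min_self]
    simp only [hH, h1]
  · intro t a ha q
    rcases eq_or_lt_of_le ha with h | h
    · rw [← h, zero_smul, zero_smul]
      simp only [hH]
      rw [if_neg (by simp)]
    · by_cases hq : 0 < q.2
      · have hq' : 0 < (a • q).2 := by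
          rw [Prod.smul_snd, smul_eq_mul]
          exact mul_pos h hq
        simp only [hH]
        rw [if_pos hq, if_pos hq', hρhom _ _ a h, hk a ha, smul_comm]
      · have hq' : ¬ 0 < (a • q).2 := by
          rw [Prod.smul_snd, smul_eq_mul, not_lt]
          exact mul_nonpos_of_nonneg_of_nonpos ha (not_lt.mp hq)
        simp only [hH]
        rw [if_neg hq, if_neg hq']
  · intro t q q' hqq
    by_cases hq : 0 < q.2
    · by_cases hq' : 0 < q'.2
      · simp only [hH, if_pos hq, if_pos hq'] at hqq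
        have h1 := hρpos (τ t) (hτmem t) q hq
        have h2 := hρpos (τ t) (hτmem t) q' hq'
        rw [← hk _ h1.le, ← hk _ h2.le] at hqq
        have h3 := hinj hqq
        have h4 : q' = ((ρ (τ t) q')⁻¹ * ρ (τ t) q) • q := by
          rw [mul_smul, h3, smul_smul, inv_mul_cancel₀ h2.ne', one_smul]
        have h5 : 0 < (ρ (τ t) q')⁻¹ * ρ (τ t) q := mul_pos (inv_pos.mpr h2) h1
        have h6 : ρ (τ t) q' = ρ (τ t) q := by
          conv_lhs => rw [h4]
          exact hρhom _ _ _ h5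
        rw [h6] at h3
        exact smul_right_injective _ h1.ne' h3
      · exfalso
        simp only [hH, if_pos hq, if_neg hq'] at hqq
        have h1 := hρpos (τ t) (hτmem t) q hq
        have h2 : 0 < q'.2 := by
          rw [← hqq, Prod.smul_snd, smul_eq_mul]
          exact mul_pos h1 (hpos q hq)
        exact hq' h2
    · by_cases hq' : 0 < q'.2
      · exfalso
        simp only [hH, if_neg hq, if_pos hq'] at hqq
        have h1 := hρpos (τ t) (hτmem t) q' hq'
        have h2 : 0 < q.2 := by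
          rw [hqq, Prod.smul_snd, smul_eq_mul]
          exact mul_pos h1 (hpos q' hq')
        exact hq h2
      · simp only [hH, if_neg hq, if_neg hq'] at hqq
        exact hqq
  · intro t t' q
    by_cases hq : 0 < q.2
    · simp only [hH, if_pos hq]
      rw [← sub_smul, norm_smul, Real.norm_eq_abs]
      have h1 : ρ (τ t) q - ρ (τ t') q = (τ t - τ t') * (q.2 / (k q).2 - 1) := by
        show ((1 - τ t) + τ t * (q.2 / (k q).2)) - ((1 - τ t') + τ t' * (q.2 / (k q).2)) = _
        ring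
      have h2 : |q.2 / (k q).2 - 1| * ‖k q‖ ≤ (C + 1) * ‖q‖ := by
        rcases lt_or_ge ‖q.1‖ q.2 with h | h
        · have h3 := hcone q h
          have h4 : ‖k q‖ = (k q).2 := by
            rw [Prod.norm_def, Real.norm_eq_abs, abs_of_pos (hpos q hq)]
            exact max_eq_right h3.le
          have h5 : |q.2 / (k q).2 - 1| * (k q).2 = |q.2 - (k q).2| := by
            conv_lhs => rw [← abs_of_pos (hpos q hq)]
            rw [← abs_mul]
            congr 1
            rw [abs_of_pos (hpos q hq), sub_mul, div_mul_cancel₀ _ (hpos q hq).ne', one_mul]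
          rw [h4, h5]
          have h6 : |q.2| ≤ ‖q‖ := norm_snd_le q
          have h7 : |(k q).2| ≤ ‖k q‖ := norm_snd_le (k q)
          have h8 : ‖k q‖ ≤ C * ‖q‖ := by
            have h9 := hC q 0
            rwa [hk0, sub_zero, sub_zero] at h9
          calc |q.2 - (k q).2| ≤ |q.2| + |(k q).2| := abs_sub _ _
            _ ≤ ‖q‖ + C * ‖q‖ := add_le_add h6 (h7.trans h8)
            _ = (C + 1) * ‖q‖ := by ring
        · rw [hid q h, div_self hq.ne', sub_self, abs_zero, zero_mul]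
          positivity
      rw [h1, abs_mul]
      have h3 := hτl t t'
      calc |τ t - τ t'| * |q.2 / (k q).2 - 1| * ‖k q‖ =
            |τ t - τ t'| * (|q.2 / (k q).2 - 1| * ‖k q‖) := by ring
        _ ≤ |t - t'| * ((C + 1) * ‖q‖) :=
            mul_le_mul h3 h2 (by positivity) (abs_nonneg _)
        _ = (C + 1) * |t - t'| * ‖q‖ := by ring
    · simp only [hH, if_neg hq]
      rw [sub_self, norm_zero]
      positivity
  · intro t q hq0
    by_cases hq : 0 < q.2
    · obtain ⟨c, hc, hg⟩ := famGood_of_contDiffAt (h := fun s x => ρ s x • k x)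
        (hHcd (τ t) q hq) (hHinj (τ t) (hτmem t) q hq)
      refine ⟨c, hc, ?_⟩
      have h1 : FamGood c (fun s => (fun x => ρ (τ s) x • k x)) t q :=
        FamGood.comp_param (h := fun s x => ρ s x • k x) (φ := τ) hg hτc.continuousAt
      refine h1.congr ?_
      have h2 : ∀ᶠ z : ℝ × (ℂ × ℝ) in 𝓝 (t, q), 0 < z.2.2 :=
        continuousAt_const.eventually_lt (continuous_snd.comp continuous_snd).continuousAt hq
      filter_upwards [h2] with z hz
      simp only [hH, if_pos hz]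
    · refine ⟨1, one_pos, (sli_id t q).congr ?_⟩
      have hev : ∀ᶠ z : ℝ × (ℂ × ℝ) in 𝓝 (t, q), z.2.2 < 0 ∨ z.2.2 < ‖z.2.1‖ := by
        rcases lt_or_eq_of_le (not_lt.mp hq) with h | h
        · have h2 : ∀ᶠ z : ℝ × (ℂ × ℝ) in 𝓝 (t, q), z.2.2 < 0 :=
            (continuous_snd.comp continuous_snd).continuousAt.eventually_lt continuousAt_const h
          filter_upwards [h2] with z hz
          exact Or.inl hz
        · have h3 : q.1 ≠ 0 := by
            intro h4
            apply hq0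
            exact Prod.ext h4 h
          have h5 : q.2 < ‖q.1‖ := by
            rw [h]
            exact norm_pos_iff.mpr h3
          have h6 : Continuous (fun z : ℝ × (ℂ × ℝ) => z.2.2) := by fun_prop
          have h7 : Continuous (fun z : ℝ × (ℂ × ℝ) => ‖z.2.1‖) := by fun_prop
          have h2 : ∀ᶠ z : ℝ × (ℂ × ℝ) in 𝓝 (t, q), z.2.2 < ‖z.2.1‖ :=
            h6.continuousAt.eventually_lt h7.continuousAt h5
          filter_upwards [h2] with z hz
          exact Or.inr hz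
      filter_upwards [hev] with z hz
      show z.2 = H z.1 z.2
      by_cases hz2 : 0 < z.2.2
      · have h8 : z.2.2 ≤ ‖z.2.1‖ := by
          rcases hz with h | h
          · linarith
          · exact h.le
        simp only [hH, if_pos hz2]
        have h9 : ρ (τ z.1) z.2 = 1 := by
          show (1 - τ z.1) + τ z.1 * (z.2.2 / (k z.2).2) = 1
          rw [hid z.2 h8, div_self hz2.ne']
          ring
        rw [h9, one_smul, hid z.2 h8]
      · simp only [hH, if_neg hz2]

end SM
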