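import Pool.Agent.SM.Defs

/-!
# Project SM, module CHA
-/

open Set Metric Filter Topology MeasureTheory
open scoped ContDiff Pointwise

noncomputable section

namespace SM

private theorem cha_neg {w : Fin 6 → ℂ} (hw : ValidFan w) {d : ℂ} (hd : d ≠ 0) :
    ∃ k, crs d (w k) < 0 := by
  by_contra hcon
  push Not at hcon
  have hN : 0 < d.re * d.re + d.im * d.im := by
    have h := Complex.normSq_pos.mpr hd
    rwa [Complex.normSq_apply] at h
  have key : ∀ k, 0 < (d.re * (w k).re + d.im * (w k).im) * crs d (w (k + 1)) -
      crs d (w k) * (d.re * (w (k + 1)).re + d.im * (w (k + 1)).im) := by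
    intro k
    have h1 : (d.re * (w k).re + d.im * (w k).im) * crs d (w (k + 1)) -
        crs d (w k) * (d.re * (w (k + 1)).re + d.im * (w (k + 1)).im) =
        (d.re * d.re + d.im * d.im) * crs (w k) (w (k + 1)) := by
      unfold crs
      ring
    rw [h1]
    exact mul_pos hN (hw k)
  have hpos : ∀ k, 0 < crs d (w (k + 1)) := by
    intro k
    rcases lt_or_eq_of_le (hcon (k + 1)) with h | h
    · exact h
    · exfalso
      have h1 := key k
      have h2 := key (k + 1)
      rw [← h] at h1 h2
      have h3 := hcon k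
      have h4 := hcon (k + 1 + 1)
      have h5 : 0 < d.re * (w (k + 1)).re + d.im * (w (k + 1)).im := by
        by_contra h6
        push Not at h6
        nlinarith [mul_nonneg (neg_nonneg.mpr h6) h4]
      nlinarith [mul_nonneg h3 h5.le]
  have hdec : ∀ k, (d.re * (w (k + 1 + 1)).re + d.im * (w (k + 1 + 1)).im) /
      crs d (w (k + 1 + 1)) < (d.re * (w (k + 1)).re + d.im * (w (k + 1)).im) /
      crs d (w (k + 1)) := by
    intro k
    rw [div_lt_div_iff₀ (hpos (k + 1)) (hpos k)]
    have h1 := key (k + 1)
    linarith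
  have h0 := hdec 0
  have h1 := hdec 1
  have h2 := hdec 2
  have h3 := hdec 3
  have h4 := hdec 4
  have h5 := hdec 5
  have e0 : (0 : Fin 6) + 1 = 1 := rfl
  have e1 : (1 : Fin 6) + 1 = 2 := rfl
  have e2 : (2 : Fin 6) + 1 = 3 := rfl
  have e3 : (3 : Fin 6) + 1 = 4 := rfl
  have e4 : (4 : Fin 6) + 1 = 5 := rfl
  have e5 : (5 : Fin 6) + 1 = 0 := rfl
  simp only [e0, e1, e2, e3, e4, e5] at h0 h1 h2 h3 h4 h5
  linarith

private theorem cha_step {w : Fin 6 → ℂ} (hw : ValidFan w) {v : ℂ} (hv : v ≠ 0) :
    ∃ i, 0 ≤ crs (w i) v ∧ 0 ≤ crs v (w (i + 1)) := by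
  by_contra hcon
  push Not at hcon
  obtain ⟨k, hk⟩ := cha_neg hw hv
  obtain ⟨j, hj⟩ := cha_neg hw (neg_ne_zero.mpr hv)
  have hanti : ∀ a b : ℂ, crs a b = - crs b a := by
    intro a b
    unfold crs
    ring
  have hk' : 0 < crs (w k) v := by
    rw [hanti]
    linarith
  have hj' : crs (w j) v < 0 := by
    have h1 : crs (-v) (w j) = crs (w j) v := by
      unfold crs
      simp only [Complex.neg_re, Complex.neg_im]
      ring
    linarith
  have hstep : ∀ i, 0 < crs (w i) v → 0 < crs (w (i + 1)) v := by
    intro i hi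
    have h1 := hcon i hi.le
    rw [hanti] at h1
    linarith
  have hall : ∀ m : ℕ, 0 < crs (w (k + m • (1 : Fin 6))) v := by
    intro m
    induction m with
    | zero =>
      rw [zero_nsmul, add_zero]
      exact hk'
    | succ m ih =>
      rw [succ_nsmul, ← add_assoc]
      exact hstep _ ih
  have hex : ∀ a b : Fin 6, ∃ m : Fin 6, a + m.val • (1 : Fin 6) = b := by decide
  obtain ⟨m, hm⟩ := hex k j
  have h3 := hall m.val
  rw [hm] at h3
  linarith

theorem exists_weights {w : Fin 6 → ℂ} (hw : ValidFan w) :
    ∃ l : Fin 6 → ℝ, (∀ k, 0 < l k) ∧ ∑ k, l k = 1 ∧ ∑ k, l k • w k = 0 := by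
  -- it suffices to find nonnegative `m` with `∑ m k • w k = - ∑ w k`
  suffices h : ∃ m : Fin 6 → ℝ, (∀ k, 0 ≤ m k) ∧ ∑ k, m k • w k = - ∑ k, w k by
    obtain ⟨m, hm, hs⟩ := h
    have hS : 0 < ∑ k, (1 + m k) := by
      apply Finset.sum_pos
      · intro k _
        have := hm k
        linarith
      · exact Finset.univ_nonempty
    refine ⟨fun k => (1 + m k) / ∑ j, (1 + m j), ?_, ?_, ?_⟩
    · intro k
      have := hm k
      positivity
    · rw [← Finset.sum_div]
      exact div_self hS.ne'
    · have h1 : ∑ k, ((1 + m k) / ∑ j, (1 + m j)) • w k =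
          (∑ j, (1 + m j))⁻¹ • ∑ k, (1 + m k) • w k := by
        rw [Finset.smul_sum]
        apply Finset.sum_congr rfl
        intro k _
        rw [smul_smul]
        congr 1
        rw [div_eq_inv_mul]
      rw [h1]
      have h2 : ∑ k, (1 + m k) • w k = 0 := by
        have h3 : ∑ k, (1 + m k) • w k = ∑ k, w k + ∑ k, m k • w k := by
          rw [← Finset.sum_add_distrib]
          apply Finset.sum_congr rfl
          intro k _
          rw [add_smul, one_smul]
        rw [h3, hs]
        ring
      rw [h2, smul_zero]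
  by_cases hv : (- ∑ k, w k) = 0
  · refine ⟨fun _ => 0, fun _ => le_rfl, ?_⟩
    rw [hv]
    simp
  · obtain ⟨i, h1, h2⟩ := cha_step hw hv
    have hD : 0 < crs (w i) (w (i + 1)) := hw i
    have hne : i ≠ i + 1 := by
      intro h
      have h3 : (1 : Fin 6) = 0 := by
        have h4 : i + 1 = i + 0 := by rw [add_zero]; exact h.symm
        exact add_left_cancel h4
      exact absurd h3 (by decide)
    refine ⟨fun k => if k = i then crs (- ∑ k, w k) (w (i + 1)) / crs (w i) (w (i + 1)) else
      if k = i + 1 then crs (w i) (- ∑ k, w k) / crs (w i) (w (i + 1)) else 0, ?_, ?_⟩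
    · intro k
      dsimp only
      split_ifs
      · exact div_nonneg h2 hD.le
      · exact div_nonneg h1 hD.le
      · exact le_rfl
    · generalize hvv : (- ∑ k, w k) = v
      have h3 : ∑ k, (if k = i then crs v (w (i + 1)) / crs (w i) (w (i + 1)) else
          if k = i + 1 then crs (w i) v / crs (w i) (w (i + 1)) else 0) • w k =
          (crs v (w (i + 1)) / crs (w i) (w (i + 1))) • w i +
          (crs (w i) v / crs (w i) (w (i + 1))) • w (i + 1) := by
        have h4 : ∀ k, (if k = i then crs v (w (i + 1)) / crs (w i) (w (i + 1)) else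
            if k = i + 1 then crs (w i) v / crs (w i) (w (i + 1)) else 0) • w k =
            (if k = i then (crs v (w (i + 1)) / crs (w i) (w (i + 1))) • w k else 0) +
            (if k = i + 1 then (crs (w i) v / crs (w i) (w (i + 1))) • w k else 0) := by
          intro k
          by_cases hk1 : k = i
          · have hk2 : ¬ k = i + 1 := by
              rw [hk1]
              exact hne
            simp only [if_pos hk1, if_neg hk2, add_zero]
          · by_cases hk2 : k = i + 1
            · simp only [if_pos hk2, if_neg hk1, zero_add]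
            · simp only [if_neg hk2, if_neg hk1, zero_smul, add_zero]
        rw [Finset.sum_congr rfl (fun k _ => h4 k), Finset.sum_add_distrib,
          Finset.sum_ite_eq' Finset.univ i, Finset.sum_ite_eq' Finset.univ (i + 1),
          if_pos (Finset.mem_univ _), if_pos (Finset.mem_univ _)]
      rw [h3]
      apply Complex.ext
      · simp only [Complex.add_re, Complex.real_smul, Complex.mul_re, Complex.ofReal_re,
          Complex.ofReal_im, zero_mul, sub_zero]
        rw [div_mul_eq_mul_div, div_mul_eq_mul_div, ← add_div, div_eq_iff hD.ne']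
        unfold crs
        ring
      · simp only [Complex.add_im, Complex.real_smul, Complex.mul_im, Complex.ofReal_re,
          Complex.ofReal_im, zero_mul, add_zero]
        rw [div_mul_eq_mul_div, div_mul_eq_mul_div, ← add_div, div_eq_iff hD.ne']
        unfold crs
        ring

end SM
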