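import Pool.Agent.SM.Defs

/-!
# Project SM, module DIR
-/

open Set Metric Filter Topology MeasureTheory
open scoped ContDiff Pointwise

noncomputable section

namespace SM

theorem dir_add_three (k : Fin 6) : dir (k + 3) = -dir k := by
  fin_cases k <;> rfl

theorem add_dir_add_dir (v : ℤ × ℤ) (k : Fin 6) : v + dir k + dir (k + 3) = v := by
  rw [dir_add_three, add_neg_cancel_right]

/-- If an average with positive weights is at least the upper bound, all terms are equal to it. -/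
theorem avg_eq {l : Fin 6 → ℝ} (hl : ∀ k, 0 < l k) (hs : ∑ k, l k = 1) {a : Fin 6 → ℝ} {M : ℝ}
    (ha : ∀ k, a k ≤ M) (h : M ≤ ∑ k, l k * a k) (k : Fin 6) : a k = M := by
  by_contra hne
  have hlt : a k < M := lt_of_le_of_ne (ha k) hne
  have h1 : ∑ j, l j * a j < ∑ j, l j * M := by
    apply Finset.sum_lt_sum
    · intro j _
      exact mul_le_mul_of_nonneg_left (ha j) (hl j).le
    · exact ⟨k, Finset.mem_univ k, mul_lt_mul_of_pos_left hlt (hl k)⟩
  rw [← Finset.sum_mul, hs, one_mul] at h1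
  linarith

theorem max_principle {lam : ℤ × ℤ → Fin 6 → ℝ} (hl : Wts lam) (J : Set (ℤ × ℤ)) (hJ : J.Finite)
    {u : ℤ × ℤ → ℝ} (hu : ∀ v ∈ J, HarmAt lam u v) {m : ℝ}
    (hm : ∀ v, v ∉ J → (∃ k, v + dir k ∈ J) → u v ≤ m) : ∀ v ∈ J, u v ≤ m := by
  by_contra hcon
  push Not at hcon
  obtain ⟨v₀, hv₀, hlt⟩ := hcon
  obtain ⟨v₁, hv₁, hmax⟩ := hJ.exists_maximalFor u J ⟨v₀, hv₀⟩
  have hmax' : ∀ v ∈ J, u v ≤ u v₁ := by
    intro v hv
    by_contra h1
    push Not at h1
    exact absurd (hmax hv h1.le) (not_le.mpr h1)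
  have hM : m < u v₁ := lt_of_lt_of_le hlt (hmax' v₀ hv₀)
  let T : Set (ℤ × ℤ) := {v | v ∈ J ∧ u v = u v₁}
  have hT : T.Finite := hJ.subset (fun v hv => hv.1)
  obtain ⟨v₂, hv₂, hmax2⟩ := hT.exists_maximalFor (fun v : ℤ × ℤ => v.1) T ⟨v₁, hv₁, rfl⟩
  have hle : ∀ k, u (v₂ + dir k) ≤ u v₁ := by
    intro k
    by_cases hk : v₂ + dir k ∈ J
    · exact hmax' _ hk
    · have h1 := hm _ hk ⟨k + 3, by rw [add_dir_add_dir]; exact hv₂.1⟩
      linarith
  have hh := hu v₂ hv₂.1
  unfold HarmAt at hh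
  simp only [smul_eq_mul] at hh
  have heq := avg_eq (hl v₂).1 (hl v₂).2 hle (by rw [← hh, hv₂.2]) 0
  have hin : v₂ + dir 0 ∈ J := by
    by_contra hk
    have h1 := hm _ hk ⟨0 + 3, by rw [add_dir_add_dir]; exact hv₂.1⟩
    linarith
  have h2 : (v₂ + dir 0) ∈ T := ⟨hin, heq⟩
  have h3 : (v₂ + dir 0).1 = v₂.1 + 1 := by
    rw [Prod.fst_add]
    rfl
  have h4 := hmax2 h2 (by show v₂.1 ≤ (v₂ + dir 0).1; rw [h3]; omega)
  have h5 : (v₂ + dir 0).1 ≤ v₂.1 := h4
  omega

theorem min_principle {lam : ℤ × ℤ → Fin 6 → ℝ} (hl : Wts lam) (J : Set (ℤ × ℤ)) (hJ : J.Finite)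
    {u : ℤ × ℤ → ℝ} (hu : ∀ v ∈ J, HarmAt lam u v) {m : ℝ}
    (hm : ∀ v, v ∉ J → (∃ k, v + dir k ∈ J) → m ≤ u v) : ∀ v ∈ J, m ≤ u v := by
  have h1 := max_principle hl J hJ (u := fun v => -u v) (m := -m) ?_ ?_
  · intro v hv
    have h2 := h1 v hv
    linarith
  · intro v hv
    have h2 := hu v hv
    unfold HarmAt at h2 ⊢
    simp only [smul_eq_mul] at h2 ⊢
    rw [h2, ← Finset.sum_neg_distrib]
    apply Finset.sum_congr rfl
    intro k _
    ring
  · intro v hv hk
    have h2 := hm v hv hk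
    linarith

theorem dirichlet_unique {lam : ℤ × ℤ → Fin 6 → ℝ} (hl : Wts lam) (J : Set (ℤ × ℤ))
    (hJ : J.Finite) {u u' : ℤ × ℤ → ℝ} (h0 : ∀ v, v ∉ J → u v = u' v)
    (hu : ∀ v ∈ J, HarmAt lam u v) (hu' : ∀ v ∈ J, HarmAt lam u' v) : u = u' := by
  have hd : ∀ v ∈ J, HarmAt lam (fun v => u v - u' v) v := by
    intro v hv
    have h2 := hu v hv
    have h3 := hu' v hv
    unfold HarmAt at h2 h3 ⊢
    simp only [smul_eq_mul] at h2 h3 ⊢
    rw [h2, h3, ← Finset.sum_sub_distrib]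
    apply Finset.sum_congr rfl
    intro k _
    ring
  have h1 := max_principle hl J hJ hd (m := 0) (by intro v hv _; rw [h0 v hv]; simp)
  have h2 := min_principle hl J hJ hd (m := 0) (by intro v hv _; rw [h0 v hv]; simp)
  funext v
  by_cases hv : v ∈ J
  · have h3 := h1 v hv
    have h4 := h2 v hv
    linarith
  · exact h0 v hv

open Classical in
/-- Extension by zero. -/
def extz (J : Set (ℤ × ℤ)) (w : J → ℝ) (v : ℤ × ℤ) : ℝ := if h : v ∈ J then w ⟨v, h⟩ else 0

open Classical in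
theorem extz_mem {J : Set (ℤ × ℤ)} (w : J → ℝ) {v : ℤ × ℤ} (h : v ∈ J) :
    extz J w v = w ⟨v, h⟩ := by
  unfold extz
  rw [dif_pos h]

theorem extz_not_mem {J : Set (ℤ × ℤ)} (w : J → ℝ) {v : ℤ × ℤ} (h : v ∉ J) :
    extz J w v = 0 := by
  unfold extz
  rw [dif_neg h]

theorem extz_add {J : Set (ℤ × ℤ)} (w w' : J → ℝ) (v : ℤ × ℤ) :
    extz J (w + w') v = extz J w v + extz J w' v := by
  by_cases h : v ∈ J
  · rw [extz_mem _ h, extz_mem _ h, extz_mem _ h]
    rfl
  · rw [extz_not_mem _ h, extz_not_mem _ h, extz_not_mem _ h, add_zero]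

theorem extz_smul {J : Set (ℤ × ℤ)} (c : ℝ) (w : J → ℝ) (v : ℤ × ℤ) :
    extz J (c • w) v = c * extz J w v := by
  by_cases h : v ∈ J
  · rw [extz_mem _ h, extz_mem _ h]
    rfl
  · rw [extz_not_mem _ h, extz_not_mem _ h, mul_zero]

/-- The discrete Laplace operator with zero boundary values. -/
def lapl (lam : ℤ × ℤ → Fin 6 → ℝ) (J : Set (ℤ × ℤ)) : (J → ℝ) →ₗ[ℝ] (J → ℝ) where
  toFun w := fun v => w v - ∑ k, lam v k * extz J w ((v : ℤ × ℤ) + dir k)
  map_add' w w' := by
    funext v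
    simp only [extz_add, Pi.add_apply, mul_add, Finset.sum_add_distrib]
    ring
  map_smul' c w := by
    funext v
    simp only [extz_smul, Pi.smul_apply, smul_eq_mul, RingHom.id_apply, mul_sub, Finset.mul_sum]
    congr 1
    apply Finset.sum_congr rfl
    intro k _
    ring

open Classical in
theorem dirichlet {lam : ℤ × ℤ → Fin 6 → ℝ} (hl : Wts lam) (J : Set (ℤ × ℤ)) (hJ : J.Finite)
    (g : ℤ × ℤ → ℝ) :
    ∃! u : ℤ × ℤ → ℝ, (∀ v, v ∉ J → u v = g v) ∧ ∀ v ∈ J, HarmAt lam u v := by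
  have : Fintype J := hJ.fintype
  have hinj : Function.Injective (lapl lam J) := by
    rw [injective_iff_map_eq_zero]
    intro w hw
    have h1 : extz J w = fun _ => 0 := by
      apply dirichlet_unique hl J hJ
      · intro v hv
        rw [extz_not_mem _ hv]
      · intro v hv
        unfold HarmAt
        have h2 := congrFun hw ⟨v, hv⟩
        simp only [lapl, LinearMap.coe_mk, AddHom.coe_mk, Pi.zero_apply] at h2
        simp only [smul_eq_mul]
        rw [extz_mem _ hv]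
        linarith
      · intro v hv
        unfold HarmAt
        simp
    funext v
    have h2 := congrFun h1 v
    rw [extz_mem _ v.2] at h2
    exact h2
  have hsurj : Function.Surjective (lapl lam J) := LinearMap.injective_iff_surjective.mp hinj
  let g' : ℤ × ℤ → ℝ := fun v => if v ∈ J then 0 else g v
  have hg1 : ∀ v ∈ J, g' v = 0 := by
    intro v hv
    simp only [g', if_pos hv]
  have hg2 : ∀ v, v ∉ J → g' v = g v := by
    intro v hv
    simp only [g', if_neg hv]
  obtain ⟨w, hw⟩ := hsurj (fun v => ∑ k, lam v k * g' ((v : ℤ × ℤ) + dir k))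
  refine ⟨fun v => extz J w v + g' v, ⟨?_, ?_⟩, ?_⟩
  · intro v hv
    simp only [extz_not_mem _ hv, hg2 v hv, zero_add]
  · intro v hv
    unfold HarmAt
    have h2 := congrFun hw ⟨v, hv⟩
    simp only [lapl, LinearMap.coe_mk, AddHom.coe_mk] at h2
    simp only [smul_eq_mul, mul_add, Finset.sum_add_distrib]
    rw [hg1 v hv, extz_mem _ hv]
    linarith
  · intro u' hu'
    apply dirichlet_unique hl J hJ
    · intro v hv
      rw [hu'.1 v hv]
      simp only [extz_not_mem _ hv, hg2 v hv, zero_add]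
    · exact hu'.2
    · intro v hv
      unfold HarmAt
      have h2 := congrFun hw ⟨v, hv⟩
      simp only [lapl, LinearMap.coe_mk, AddHom.coe_mk] at h2
      simp only [smul_eq_mul, mul_add, Finset.sum_add_distrib]
      rw [hg1 v hv, extz_mem _ hv]
      linarith

open Classical in
/-- strict version for the harmonic measure of a vertex -/
theorem harm_measure {lam : ℤ × ℤ → Fin 6 → ℝ} (hl : Wts lam) (J : Set (ℤ × ℤ)) (hJ : J.Finite)
    {i : ℤ × ℤ} (hi : i ∈ J) : ∃ p : ℤ × ℤ → ℝ, p i = 1 ∧ (∀ v, v ∉ J → p v = 0) ∧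
      (∀ v ∈ J, v ≠ i → HarmAt lam p v) ∧ (∀ v, 0 ≤ p v ∧ p v ≤ 1) ∧
      ∀ lam' : Fin 6 → ℝ, (∀ k, 0 < lam' k) → ∑ k, lam' k = 1 →
        ∑ k, lam' k * p (i + dir k) < 1 := by
  have hJ' : (J \ {i}).Finite := hJ.subset sdiff_subset
  obtain ⟨p, ⟨hp1, hp2⟩, -⟩ := dirichlet hl (J \ {i}) hJ' (fun v => if v = i then 1 else 0)
  have hpi : p i = 1 := by
    rw [hp1 i (fun h => h.2 rfl), if_pos rfl]
  have hp0 : ∀ v, v ∉ J → p v = 0 := by
    intro v hv
    rw [hp1 v (fun h => hv h.1), if_neg]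
    rintro rfl
    exact hv hi
  have hout : ∀ v, v ∉ J \ {i} → 0 ≤ p v ∧ p v ≤ 1 := by
    intro v hv
    rw [hp1 v hv]
    split_ifs
    · exact ⟨zero_le_one, le_rfl⟩
    · exact ⟨le_rfl, zero_le_one⟩
  have hle : ∀ v, p v ≤ 1 := by
    intro v
    by_cases hv : v ∈ J \ {i}
    · exact max_principle hl _ hJ' hp2 (fun v hv _ => (hout v hv).2) v hv
    · exact (hout v hv).2
  have hge : ∀ v, 0 ≤ p v := by
    intro v
    by_cases hv : v ∈ J \ {i}
    · exact min_principle hl _ hJ' hp2 (fun v hv _ => (hout v hv).1) v hv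
    · exact (hout v hv).1
  refine ⟨p, hpi, hp0, ?_, fun v => ⟨hge v, hle v⟩, ?_⟩
  · intro v hv hvi
    exact hp2 v ⟨hv, hvi⟩
  · intro lam' hl1 hl2
    by_contra hcon
    push Not at hcon
    have h0 : p (i + dir 0) = 1 := avg_eq hl1 hl2 (fun k => hle _) hcon 0
    have hwalk : ∀ n : ℕ, p (i + ((n : ℤ) + 1, 0)) = 1 := by
      intro n
      induction n with
      | zero =>
        have h1 : i + (((0 : ℕ) : ℤ) + 1, 0) = i + dir 0 := by
          congr 1
        rw [h1]
        exact h0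
      | succ n ih =>
        have hmem : i + ((n : ℤ) + 1, 0) ∈ J := by
          by_contra h1
          rw [hp0 _ h1] at ih
          exact zero_ne_one ih
        have hne : i + ((n : ℤ) + 1, 0) ≠ i := by
          intro h1
          have h2 := congrArg Prod.fst h1
          rw [Prod.fst_add] at h2
          simp only at h2
          omega
        have hh := hp2 _ ⟨hmem, hne⟩
        unfold HarmAt at hh
        simp only [smul_eq_mul] at hh
        have h3 := avg_eq (hl (i + ((n : ℤ) + 1, 0))).1 (hl (i + ((n : ℤ) + 1, 0))).2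
          (fun k => hle (i + ((n : ℤ) + 1, 0) + dir k)) (by rw [← hh, ih]) 0
        have h4 : i + ((n : ℤ) + 1, 0) + dir 0 = i + (((n + 1 : ℕ) : ℤ) + 1, 0) := by
          rw [add_assoc]
          congr 1
        rw [h4] at h3
        exact h3
    have hsub : Set.range (fun n : ℕ => i + ((n : ℤ) + 1, (0 : ℤ))) ⊆ J := by
      rintro _ ⟨n, rfl⟩
      by_contra h1
      have h2 := hwalk n
      rw [hp0 _ h1] at h2
      exact zero_ne_one h2
    have hinf : (Set.range (fun n : ℕ => i + ((n : ℤ) + 1, (0 : ℤ)))).Infinite := by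
      apply Set.infinite_range_of_injective
      intro a b hab
      have h2 := congrArg Prod.fst hab
      simp only [Prod.fst_add] at h2
      omega
    exact hinf (hJ.subset hsub)

end SM
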