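import Pool.Agent.SM.Defs

/-!
# Project SM, module LAT
-/

open Set Metric Filter Topology MeasureTheory
open scoped ContDiff Pointwise

noncomputable section

namespace SM

theorem emb_add (v w : ℤ × ℤ) : emb (v + w) = emb v + emb w := by
  unfold emb
  rw [Prod.fst_add, Prod.snd_add]
  push_cast
  ring

theorem sqrt3_pos : 0 < Real.sqrt 3 := Real.sqrt_pos.mpr (by norm_num)

theorem sqrt3_sq : Real.sqrt 3 * Real.sqrt 3 = 3 := Real.mul_self_sqrt (by norm_num)

theorem zeta_re : zeta.re = 1 / 2 := rfl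

theorem zeta_im : zeta.im = Real.sqrt 3 / 2 := rfl

theorem zeta_sq : zeta ^ 2 = zeta - 1 := by
  apply Complex.ext
  · rw [pow_two, Complex.mul_re, Complex.sub_re, zeta_re, zeta_im, Complex.one_re]
    nlinarith [sqrt3_sq]
  · rw [pow_two, Complex.mul_im, Complex.sub_im, zeta_re, zeta_im, Complex.one_im]
    ring

theorem conj_zeta : (starRingEnd ℂ) zeta = 1 - zeta := by
  apply Complex.ext
  · rw [Complex.conj_re, Complex.sub_re, zeta_re, Complex.one_re]
    norm_num
  · rw [Complex.conj_im, Complex.sub_im, zeta_im, Complex.one_im]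
    ring

theorem coB_add (x y : ℂ) : coB (x + y) = coB x + coB y := by
  unfold coB
  rw [Complex.add_im]
  ring

theorem coA_add (x y : ℂ) : coA (x + y) = coA x + coA y := by
  unfold coA
  rw [coB_add, Complex.add_re]
  ring

theorem coB_smul (s : ℝ) (y : ℂ) : coB (s • y) = s * coB y := by
  unfold coB
  rw [Complex.smul_im, smul_eq_mul]
  ring

theorem coA_smul (s : ℝ) (y : ℂ) : coA (s • y) = s * coA y := by
  unfold coA
  rw [coB_smul, Complex.smul_re, smul_eq_mul]
  ring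

theorem coB_sub (x y : ℂ) : coB (x - y) = coB x - coB y := by
  unfold coB
  rw [Complex.sub_im]
  ring

theorem coA_sub (x y : ℂ) : coA (x - y) = coA x - coA y := by
  unfold coA
  rw [coB_sub, Complex.sub_re]
  ring

theorem coords (y : ℂ) : y = coA y • (1 : ℂ) + coB y • zeta := by
  have h := sqrt3_pos
  apply Complex.ext
  · rw [Complex.add_re, Complex.smul_re, Complex.smul_re, Complex.one_re, zeta_re]
    simp only [smul_eq_mul]
    unfold coA
    ring
  · rw [Complex.add_im, Complex.smul_im, Complex.smul_im, Complex.one_im, zeta_im]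
    simp only [smul_eq_mul]
    unfold coB
    field_simp
    ring

theorem coB_emb (v : ℤ × ℤ) : coB (emb v) = v.2 := by
  have h := sqrt3_pos
  unfold coB emb
  simp only [Complex.add_im, Complex.intCast_im, Complex.mul_im, Complex.intCast_re, zeta_im]
  field_simp
  ring

theorem coA_emb (v : ℤ × ℤ) : coA (emb v) = v.1 := by
  unfold coA
  rw [coB_emb]
  unfold emb
  simp only [Complex.add_re, Complex.intCast_im, Complex.mul_re, Complex.intCast_re, zeta_re]
  ring

theorem eq_of_co {x y : ℂ} (hA : coA x = coA y) (hB : coB x = coB y) : x = y := by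
  rw [coords x, coords y, hA, hB]

theorem emb_injective : Function.Injective emb := by
  intro v w h
  have h1 : ((v.1 : ℤ) : ℝ) = w.1 := by rw [← coA_emb, ← coA_emb, h]
  have h2 : ((v.2 : ℤ) : ℝ) = w.2 := by rw [← coB_emb, ← coB_emb, h]
  exact Prod.ext (by exact_mod_cast h1) (by exact_mod_cast h2)

theorem emb_re (v : ℤ × ℤ) : (emb v).re = v.1 + v.2 / 2 := by
  unfold emb
  simp only [Complex.add_re, Complex.intCast_im, Complex.mul_re, Complex.intCast_re, zeta_re]
  ring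

theorem emb_im (v : ℤ × ℤ) : (emb v).im = v.2 * (Real.sqrt 3 / 2) := by
  unfold emb
  simp only [Complex.add_im, Complex.intCast_im, Complex.mul_im, Complex.intCast_re, zeta_im]
  ring

theorem normSq_emb (v : ℤ × ℤ) :
    Complex.normSq (emb v) = (v.1 : ℝ) ^ 2 + v.1 * v.2 + (v.2 : ℝ) ^ 2 := by
  rw [Complex.normSq_apply, emb_re, emb_im]
  nlinarith [sqrt3_sq]

theorem normSq_zk (k : Fin 6) : Complex.normSq (zk k) = 1 := by
  unfold zk
  rw [normSq_emb]
  fin_cases k <;> norm_num [dir]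

theorem norm_zk (k : Fin 6) : ‖zk k‖ = 1 := by
  have h1 := Complex.normSq_eq_norm_sq (zk k)
  rw [normSq_zk] at h1
  have h2 : 0 ≤ ‖zk k‖ := norm_nonneg _
  nlinarith

theorem zk_zero : zk 0 = 1 := by
  show ((1 : ℤ) : ℂ) + ((0 : ℤ) : ℂ) * zeta = 1
  push_cast
  ring

theorem zk_one : zk 1 = zeta := by
  show ((0 : ℤ) : ℂ) + ((1 : ℤ) : ℂ) * zeta = zeta
  push_cast
  ring

theorem zk_two : zk 2 = zeta - 1 := by
  show ((-1 : ℤ) : ℂ) + ((1 : ℤ) : ℂ) * zeta = zeta - 1
  push_cast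
  ring

theorem zk_three_eq : zk 3 = -1 := by
  show ((-1 : ℤ) : ℂ) + ((0 : ℤ) : ℂ) * zeta = -1
  push_cast
  ring

theorem zk_four : zk 4 = -zeta := by
  show ((0 : ℤ) : ℂ) + ((-1 : ℤ) : ℂ) * zeta = -zeta
  push_cast
  ring

theorem zk_five : zk 5 = 1 - zeta := by
  show ((1 : ℤ) : ℂ) + ((-1 : ℤ) : ℂ) * zeta = 1 - zeta
  push_cast
  ring

theorem zk_succ (k : Fin 6) : zk (k + 1) = zk k * zeta := by
  fin_cases k
  · show zk 1 = zk 0 * zeta
    rw [zk_one, zk_zero, one_mul]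
  · show zk 2 = zk 1 * zeta
    rw [zk_one, zk_two]
    linear_combination -zeta_sq
  · show zk 3 = zk 2 * zeta
    rw [zk_two, zk_three_eq]
    linear_combination -zeta_sq
  · show zk 4 = zk 3 * zeta
    rw [zk_three_eq, zk_four]
    ring
  · show zk 5 = zk 4 * zeta
    rw [zk_four, zk_five]
    linear_combination zeta_sq
  · show zk 0 = zk 5 * zeta
    rw [zk_five, zk_zero]
    linear_combination zeta_sq

theorem zk_eq (k : Fin 6) : zk k = zeta ^ (k : ℕ) := by
  fin_cases k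
  · show zk 0 = zeta ^ 0
    rw [zk_zero, pow_zero]
  · show zk 1 = zeta ^ 1
    rw [zk_one, pow_one]
  · show zk 2 = zeta ^ 2
    rw [zk_two, zeta_sq]
  · show zk 3 = zeta ^ 3
    rw [zk_three_eq]
    linear_combination (-zeta - 1) * zeta_sq
  · show zk 4 = zeta ^ 4
    rw [zk_four]
    linear_combination (-zeta ^ 2 - zeta) * zeta_sq
  · show zk 5 = zeta ^ 5
    rw [zk_five]
    linear_combination (-zeta ^ 3 - zeta ^ 2 + 1) * zeta_sq

theorem zk_three (k : Fin 6) : zk (k + 3) = -zk k := by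
  fin_cases k
  · show zk 3 = -zk 0
    rw [zk_three_eq, zk_zero]
  · show zk 4 = -zk 1
    rw [zk_four, zk_one]
  · show zk 5 = -zk 2
    rw [zk_five, zk_two]
    ring
  · show zk 0 = -zk 3
    rw [zk_three_eq, zk_zero]
    ring
  · show zk 1 = -zk 4
    rw [zk_four, zk_one]
    ring
  · show zk 2 = -zk 5
    rw [zk_five, zk_two]
    ring

theorem crs_emb (v w : ℤ × ℤ) :
    crs (emb v) (emb w) = ((v.1 : ℝ) * w.2 - v.2 * w.1) * (Real.sqrt 3 / 2) := by
  unfold crs
  rw [emb_re, emb_re, emb_im, emb_im]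
  ring

theorem crs_zk (k : Fin 6) : crs (zk k) (zk (k + 1)) = Real.sqrt 3 / 2 := by
  unfold zk
  rw [crs_emb]
  fin_cases k
  · show (((1 : ℤ) : ℝ) * ((1 : ℤ) : ℝ) - ((0 : ℤ) : ℝ) * ((0 : ℤ) : ℝ)) * (Real.sqrt 3 / 2) = _
    push_cast
    ring
  · show (((0 : ℤ) : ℝ) * ((1 : ℤ) : ℝ) - ((1 : ℤ) : ℝ) * ((-1 : ℤ) : ℝ)) * (Real.sqrt 3 / 2) = _
    push_cast
    ring
  · show (((-1 : ℤ) : ℝ) * ((0 : ℤ) : ℝ) - ((1 : ℤ) : ℝ) * ((-1 : ℤ) : ℝ)) * (Real.sqrt 3 / 2) = _
    push_cast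
    ring
  · show (((-1 : ℤ) : ℝ) * ((-1 : ℤ) : ℝ) - ((0 : ℤ) : ℝ) * ((0 : ℤ) : ℝ)) * (Real.sqrt 3 / 2) = _
    push_cast
    ring
  · show (((0 : ℤ) : ℝ) * ((-1 : ℤ) : ℝ) - ((-1 : ℤ) : ℝ) * ((1 : ℤ) : ℝ)) * (Real.sqrt 3 / 2) = _
    push_cast
    ring
  · show (((1 : ℤ) : ℝ) * ((0 : ℤ) : ℝ) - ((-1 : ℤ) : ℝ) * ((1 : ℤ) : ℝ)) * (Real.sqrt 3 / 2) = _
    push_cast
    ring

/-- Rotated coordinates. -/
def rotA (y : ℂ) : Fin 6 → ℝ :=
  ![coA y, coA y + coB y, coB y, -coA y, -coA y - coB y, -coB y]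

theorem coA_one : coA 1 = 1 := by
  have := coA_emb (1, 0)
  rw [show emb (1, 0) = 1 from zk_zero] at this
  rw [this]
  norm_num

theorem coB_one : coB 1 = 0 := by
  have := coB_emb (1, 0)
  rw [show emb (1, 0) = 1 from zk_zero] at this
  rw [this]
  norm_num

theorem coA_zeta : coA zeta = 0 := by
  have := coA_emb (0, 1)
  rw [show emb (0, 1) = zeta from zk_one] at this
  rw [this]
  norm_num

theorem coB_zeta : coB zeta = 1 := by
  have := coB_emb (0, 1)
  rw [show emb (0, 1) = zeta from zk_one] at this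
  rw [this]
  norm_num

theorem co_lin (a b : ℝ) : coA (a • (1 : ℂ) + b • zeta) = a ∧ coB (a • (1 : ℂ) + b • zeta) = b := by
  rw [coA_add, coA_smul, coA_smul, coB_add, coB_smul, coB_smul, coA_one, coB_one, coA_zeta,
    coB_zeta]
  constructor <;> ring

/-- Rotation by minus sixty degrees in coordinates. -/
theorem rot_step (y : ℂ) : y * (1 - zeta) = (coA y + coB y) • (1 : ℂ) + (-coA y) • zeta := by
  conv_lhs => rw [coords y]
  simp only [Complex.real_smul]
  push_cast
  linear_combination (-(coB y : ℂ)) * zeta_sq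

theorem conj_zk_succ (k : Fin 6) :
    (starRingEnd ℂ) (zk (k + 1)) = (starRingEnd ℂ) (zk k) * (1 - zeta) := by
  rw [zk_succ, map_mul, conj_zeta]

theorem co_rot (k : Fin 6) (y : ℂ) : coA (y * (starRingEnd ℂ) (zk k)) = rotA y k ∧
    coA (y * (starRingEnd ℂ) (zk k)) + coB (y * (starRingEnd ℂ) (zk k)) = rotA y (k + 1) := by
  have step : ∀ k : Fin 6, ∀ a b : ℝ, y * (starRingEnd ℂ) (zk k) = a • (1 : ℂ) + b • zeta →
      y * (starRingEnd ℂ) (zk (k + 1)) = (a + b) • (1 : ℂ) + (-a) • zeta := by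
    intro k a b h
    rw [conj_zk_succ, ← mul_assoc, rot_step, h, (co_lin a b).1, (co_lin a b).2]
  have h0 : y * (starRingEnd ℂ) (zk 0) = (coA y) • (1 : ℂ) + (coB y) • zeta := by
    rw [zk_zero, map_one, mul_one]
    exact coords y
  have h1 := step 0 _ _ h0
  have h2 := step (0 + 1) _ _ h1
  have h3 := step (0 + 1 + 1) _ _ h2
  have h4 := step (0 + 1 + 1 + 1) _ _ h3
  have h5 := step (0 + 1 + 1 + 1 + 1) _ _ h4
  fin_cases k
  · show coA (y * (starRingEnd ℂ) (zk 0)) = coA y ∧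
      coA (y * (starRingEnd ℂ) (zk 0)) + coB (y * (starRingEnd ℂ) (zk 0)) = coA y + coB y
    rw [h0, (co_lin _ _).1, (co_lin _ _).2]
    exact ⟨rfl, rfl⟩
  · have h : y * (starRingEnd ℂ) (zk 1) = _ := h1
    show coA (y * (starRingEnd ℂ) (zk 1)) = coA y + coB y ∧
      coA (y * (starRingEnd ℂ) (zk 1)) + coB (y * (starRingEnd ℂ) (zk 1)) = coB y
    rw [h, (co_lin _ _).1, (co_lin _ _).2]
    exact ⟨by ring, by ring⟩
  · have h : y * (starRingEnd ℂ) (zk 2) = _ := h2
    show coA (y * (starRingEnd ℂ) (zk 2)) = coB y ∧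
      coA (y * (starRingEnd ℂ) (zk 2)) + coB (y * (starRingEnd ℂ) (zk 2)) = -coA y
    rw [h, (co_lin _ _).1, (co_lin _ _).2]
    exact ⟨by ring, by ring⟩
  · have h : y * (starRingEnd ℂ) (zk 3) = _ := h3
    show coA (y * (starRingEnd ℂ) (zk 3)) = -coA y ∧
      coA (y * (starRingEnd ℂ) (zk 3)) + coB (y * (starRingEnd ℂ) (zk 3)) = -coA y - coB y
    rw [h, (co_lin _ _).1, (co_lin _ _).2]
    exact ⟨by ring, by ring⟩
  · have h : y * (starRingEnd ℂ) (zk 4) = _ := h4
    show coA (y * (starRingEnd ℂ) (zk 4)) = -coA y - coB y ∧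
      coA (y * (starRingEnd ℂ) (zk 4)) + coB (y * (starRingEnd ℂ) (zk 4)) = -coB y
    rw [h, (co_lin _ _).1, (co_lin _ _).2]
    exact ⟨by ring, by ring⟩
  · have h : y * (starRingEnd ℂ) (zk 5) = _ := h5
    show coA (y * (starRingEnd ℂ) (zk 5)) = -coB y ∧
      coA (y * (starRingEnd ℂ) (zk 5)) + coB (y * (starRingEnd ℂ) (zk 5)) = coA y
    rw [h, (co_lin _ _).1, (co_lin _ _).2]
    exact ⟨by ring, by ring⟩

theorem phik_rot (k : Fin 6) (y : ℂ) : phik k y = max 0 (min (rotA y k) (rotA y (k + 1))) := by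
  unfold phik phi0
  rw [(co_rot k y).2, (co_rot k y).1]

theorem phik_nonneg (k : Fin 6) (y : ℂ) : 0 ≤ phik k y := by
  rw [phik_rot]
  exact le_max_left _ _

theorem rotA_smul (s : ℝ) (y : ℂ) (k : Fin 6) : rotA (s • y) k = s * rotA y k := by
  unfold rotA
  rw [coA_smul, coB_smul]
  fin_cases k
  · rfl
  · show s * coA y + s * coB y = s * (coA y + coB y)
    ring
  · rfl
  · show -(s * coA y) = s * (-coA y)
    ring
  · show -(s * coA y) - s * coB y = s * (-coA y - coB y)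
    ring
  · show -(s * coB y) = s * (-coB y)
    ring

theorem phik_hom (k : Fin 6) : PosHom (phik k) := by
  intro a ha x
  rw [phik_rot, phik_rot, rotA_smul, rotA_smul, smul_eq_mul, mul_max_of_nonneg _ _ ha,
    mul_min_of_nonneg _ _ ha, mul_zero]

theorem zeta_pow_six : zeta ^ 6 = 1 := by
  linear_combination (zeta ^ 4 + zeta ^ 3 - zeta - 1) * zeta_sq

theorem zk_add (a b : Fin 6) : zk (a + b) = zk a * zk b := by
  rw [zk_eq, zk_eq, zk_eq, ← pow_add, Fin.val_add]
  conv_rhs => rw [← Nat.div_add_mod ((a : ℕ) + (b : ℕ)) 6, pow_add, pow_mul, zeta_pow_six, one_pow,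
    one_mul]

theorem zk_mul_conj (k : Fin 6) : zk k * (starRingEnd ℂ) (zk k) = 1 := by
  rw [Complex.mul_conj, normSq_zk]
  norm_num

theorem zk_mul_conj' (k j : Fin 6) : zk k * (starRingEnd ℂ) (zk j) = zk (k - j) := by
  have h1 : k = (k - j) + j := (sub_add_cancel k j).symm
  conv_lhs => rw [h1]
  rw [zk_add, mul_assoc, zk_mul_conj, mul_one]

theorem coA_zk (k : Fin 6) : coA (zk k) = (![1, 0, -1, -1, 0, 1] : Fin 6 → ℝ) k := by
  unfold zk
  rw [coA_emb]
  fin_cases k <;> norm_num [dir]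

theorem coB_zk (k : Fin 6) : coB (zk k) = (![0, 1, 1, 0, -1, -1] : Fin 6 → ℝ) k := by
  unfold zk
  rw [coB_emb]
  fin_cases k <;> norm_num [dir]

theorem rotA_eq (y : ℂ) (j : Fin 6) : rotA y j = coA (y * (starRingEnd ℂ) (zk j)) :=
  (co_rot j y).1.symm

theorem rotA_sector (k j : Fin 6) (s t : ℝ) :
    rotA (s • zk k + t • zk (k + 1)) j = s * coA (zk (k - j)) + t * coA (zk (k - j + 1)) := by
  rw [rotA_eq, add_mul, smul_mul_assoc, smul_mul_assoc, zk_mul_conj', zk_mul_conj', coA_add,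
    coA_smul, coA_smul]
  have h1 : ∀ a b : Fin 6, a + 1 - b = a - b + 1 := by decide
  rw [h1]

theorem phik_sector (k : Fin 6) {s t : ℝ} (hs : 0 ≤ s) (ht : 0 ≤ t) (j : Fin 6) :
    phik j (s • zk k + t • zk (k + 1)) =
      (if j = k then s else 0) + (if j = k + 1 then t else 0) := by
  rw [phik_rot, rotA_sector, rotA_sector]
  obtain ⟨m, hm⟩ : ∃ m : Fin 6, j = k - m := ⟨k - j, (sub_sub_cancel k j).symm⟩
  subst hm
  have h1 : k - (k - m) = m := sub_sub_cancel k m
  have h2 : k - (k - m + 1) = m - 1 := by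
    have : ∀ a b : Fin 6, a - (a - b + 1) = b - 1 := by decide
    exact this k m
  have h3 : m - 1 + 1 = m := sub_add_cancel m 1
  have e1 : (k - m = k) ↔ m = 0 := by
    have : ∀ a b : Fin 6, (a - b = a) ↔ b = 0 := by decide
    exact this k m
  have e2 : (k - m = k + 1) ↔ m = 5 := by
    have : ∀ a b : Fin 6, (a - b = a + 1) ↔ b = 5 := by decide
    exact this k m
  rw [h1, h2, h3, if_congr e1 rfl rfl, if_congr e2 rfl rfl, coA_zk, coA_zk, coA_zk]
  fin_cases m
  · show max 0 (min (s * 1 + t * 0) (s * 1 + t * 1)) = s + 0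
    rw [min_eq_left (by linarith), max_eq_right (by linarith)]
    ring
  · show max 0 (min (s * 0 + t * (-1)) (s * 1 + t * 0)) = 0 + 0
    rw [min_eq_left (by linarith), max_eq_left (by linarith)]
    ring
  · show max 0 (min (s * (-1) + t * (-1)) (s * 0 + t * (-1))) = 0 + 0
    rw [min_eq_left (by linarith), max_eq_left (by linarith)]
    ring
  · show max 0 (min (s * (-1) + t * 0) (s * (-1) + t * (-1))) = 0 + 0
    rw [min_eq_right (by linarith), max_eq_left (by linarith)]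
    ring
  · show max 0 (min (s * 0 + t * 1) (s * (-1) + t * 0)) = 0 + 0
    rw [min_eq_right (by linarith), max_eq_left (by linarith)]
    ring
  · show max 0 (min (s * 1 + t * 1) (s * 0 + t * 1)) = 0 + t
    rw [min_eq_right (by linarith), max_eq_right (by linarith)]
    ring

theorem phik_zk (j k : Fin 6) : phik k (zk j) = if j = k then 1 else 0 := by
  have h1 : zk j = (1 : ℝ) • zk j + (0 : ℝ) • zk (j + 1) := by
    rw [one_smul, zero_smul, add_zero]
  rw [h1, phik_sector j zero_le_one le_rfl k]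
  by_cases h : j = k
  · rw [if_pos h, if_pos h.symm]
    simp
  · rw [if_neg h, if_neg (fun h' => h h'.symm)]
    simp

theorem abs_coB_le (y : ℂ) : |coB y| ≤ 2 / Real.sqrt 3 * ‖y‖ := by
  unfold coB
  have h := sqrt3_pos
  rw [abs_mul, abs_of_pos (by positivity : 0 < 2 / Real.sqrt 3), mul_comm]
  exact mul_le_mul_of_nonneg_left (Complex.abs_im_le_norm y) (by positivity)

theorem inv_sqrt3_le : 1 / Real.sqrt 3 ≤ 1 := by
  rw [div_le_one sqrt3_pos]
  have h := sqrt3_pos
  nlinarith [sqrt3_sq]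

theorem abs_coA_le (y : ℂ) : |coA y| ≤ 2 * ‖y‖ := by
  unfold coA
  have h1 := abs_coB_le y
  have h2 := Complex.abs_re_le_norm y
  have h3 : 2 / Real.sqrt 3 * ‖y‖ ≤ 2 * ‖y‖ := by
    apply mul_le_mul_of_nonneg_right _ (norm_nonneg y)
    have := inv_sqrt3_le
    calc 2 / Real.sqrt 3 = 2 * (1 / Real.sqrt 3) := by ring
      _ ≤ 2 * 1 := by linarith
      _ = 2 := by ring
  rw [abs_le] at h1 h2 ⊢
  constructor <;> linarith

theorem phik_lip (k : Fin 6) (y y' : ℂ) : |phik k y - phik k y'| ≤ 2 * ‖y - y'‖ := by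
  rw [phik_rot, phik_rot]
  have hr : ∀ j : Fin 6, |rotA y j - rotA y' j| ≤ 2 * ‖y - y'‖ := by
    intro j
    rw [rotA_eq, rotA_eq, ← coA_sub, ← sub_mul]
    refine (abs_coA_le _).trans ?_
    rw [norm_mul, RCLike.norm_conj, norm_zk, mul_one]
  refine (abs_max_sub_max_le_max _ _ _ _).trans ?_
  rw [sub_self, abs_zero]
  apply max_le (by positivity)
  refine (abs_min_sub_min_le_max _ _ _ _).trans ?_
  exact max_le (hr _) (hr _)

theorem zk_comb (k : Fin 6) (s t : ℝ) : coA (s • zk k + t • zk (k + 1)) =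
    s * coA (zk k) + t * coA (zk (k + 1)) ∧ coB (s • zk k + t • zk (k + 1)) =
    s * coB (zk k) + t * coB (zk (k + 1)) := by
  rw [coA_add, coA_smul, coA_smul, coB_add, coB_smul, coB_smul]
  exact ⟨rfl, rfl⟩

/-- every vector lies in one of the six sectors -/
theorem exists_sector (y : ℂ) : ∃ k : Fin 6, ∃ s ≥ (0 : ℝ), ∃ t ≥ (0 : ℝ),
    y = s • zk k + t • zk (k + 1) := by
  have key : ∀ (k : Fin 6) (s t : ℝ), 0 ≤ s → 0 ≤ t →
      coA y = s * coA (zk k) + t * coA (zk (k + 1)) →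
      coB y = s * coB (zk k) + t * coB (zk (k + 1)) → ∃ k : Fin 6, ∃ s ≥ (0 : ℝ), ∃ t ≥ (0 : ℝ),
      y = s • zk k + t • zk (k + 1) := by
    intro k s t hs ht hA hB
    refine ⟨k, s, hs, t, ht, eq_of_co ?_ ?_⟩
    · rw [(zk_comb k s t).1]
      exact hA
    · rw [(zk_comb k s t).2]
      exact hB
  rcases le_total 0 (coA y) with ha | ha <;> rcases le_total 0 (coB y) with hb | hb <;>
    rcases le_total 0 (coA y + coB y) with hab | hab
  · refine key 0 (coA y) (coB y) ha hb ?_ ?_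
    · rw [coA_zk, coA_zk]
      show coA y = coA y * 1 + coB y * 0
      ring
    · rw [coB_zk, coB_zk]
      show coB y = coA y * 0 + coB y * 1
      ring
  · refine key 0 (coA y) (coB y) ha hb ?_ ?_
    · rw [coA_zk, coA_zk]
      show coA y = coA y * 1 + coB y * 0
      ring
    · rw [coB_zk, coB_zk]
      show coB y = coA y * 0 + coB y * 1
      ring
  · refine key 5 (-coB y) (coA y + coB y) (by linarith) (by linarith) ?_ ?_
    · rw [coA_zk, coA_zk]
      show coA y = -coB y * 1 + (coA y + coB y) * 1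
      ring
    · rw [coB_zk, coB_zk]
      show coB y = -coB y * (-1) + (coA y + coB y) * 0
      ring
  · refine key 4 (-coA y - coB y) (coA y) (by linarith) (by linarith) ?_ ?_
    · rw [coA_zk, coA_zk]
      show coA y = (-coA y - coB y) * 0 + coA y * 1
      ring
    · rw [coB_zk, coB_zk]
      show coB y = (-coA y - coB y) * (-1) + coA y * (-1)
      ring
  · refine key 1 (coA y + coB y) (-coA y) (by linarith) (by linarith) ?_ ?_
    · rw [coA_zk, coA_zk]
      show coA y = (coA y + coB y) * 0 + -coA y * (-1)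
      ring
    · rw [coB_zk, coB_zk]
      show coB y = (coA y + coB y) * 1 + -coA y * 1
      ring
  · refine key 2 (coB y) (-coA y - coB y) (by linarith) (by linarith) ?_ ?_
    · rw [coA_zk, coA_zk]
      show coA y = coB y * (-1) + (-coA y - coB y) * (-1)
      ring
    · rw [coB_zk, coB_zk]
      show coB y = coB y * 1 + (-coA y - coB y) * 0
      ring
  · refine key 3 (-coA y) (-coB y) (by linarith) (by linarith) ?_ ?_
    · rw [coA_zk, coA_zk]
      show coA y = -coA y * (-1) + -coB y * 0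
      ring
    · rw [coB_zk, coB_zk]
      show coB y = -coA y * 0 + -coB y * (-1)
      ring
  · refine key 3 (-coA y) (-coB y) (by linarith) (by linarith) ?_ ?_
    · rw [coA_zk, coA_zk]
      show coA y = -coA y * (-1) + -coB y * 0
      ring
    · rw [coB_zk, coB_zk]
      show coB y = -coA y * 0 + -coB y * (-1)
      ring

theorem fan_sector (w : Fin 6 → ℂ) (k : Fin 6) {s t : ℝ} (hs : 0 ≤ s) (ht : 0 ≤ t) :
    fan w (s • zk k + t • zk (k + 1)) = s • w k + t • w (k + 1) := by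
  unfold fan
  simp only [phik_sector k hs ht, add_smul, ite_smul, zero_smul, Finset.sum_add_distrib,
    Finset.sum_ite_eq', Finset.mem_univ, if_true]

theorem fan_zk (w : Fin 6 → ℂ) (k : Fin 6) : fan w (zk k) = w k := by
  have h1 : zk k = (1 : ℝ) • zk k + (0 : ℝ) • zk (k + 1) := by
    rw [one_smul, zero_smul, add_zero]
  rw [h1, fan_sector w k zero_le_one le_rfl, one_smul, zero_smul, add_zero]

theorem fan_hom (w : Fin 6 → ℂ) : PosHom (fan w) := by
  intro a ha x
  unfold fan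
  rw [Finset.smul_sum]
  apply Finset.sum_congr rfl
  intro k _
  rw [phik_hom k a ha x, smul_eq_mul, mul_smul]

theorem fan_id (y : ℂ) : fan zk y = y := by
  obtain ⟨k, s, hs, t, ht, rfl⟩ := exists_sector y
  exact fan_sector zk k hs ht

theorem linOf_add (w : Fin 6 → ℂ) (x y : ℂ) : linOf w (x + y) = linOf w x + linOf w y := by
  unfold linOf
  rw [coA_add, coB_add, add_smul, add_smul]
  abel

theorem linOf_smul (w : Fin 6 → ℂ) (s : ℝ) (y : ℂ) : linOf w (s • y) = s • linOf w y := by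
  unfold linOf
  rw [coA_smul, coB_smul, smul_add, mul_smul, mul_smul]

theorem fan_linOf (w : Fin 6 → ℂ) (y : ℂ) : fan (fun k => linOf w (zk k)) y = linOf w y := by
  obtain ⟨k, s, hs, t, ht, rfl⟩ := exists_sector y
  rw [fan_sector _ k hs ht, linOf_add, linOf_smul, linOf_smul]

theorem phik_zero (k : Fin 6) : phik k 0 = 0 := by
  have h := phik_hom k 0 le_rfl 0
  rw [zero_smul, zero_smul] at h
  exact h

theorem phik_le (k : Fin 6) (y : ℂ) : phik k y ≤ 2 * ‖y‖ := by
  have h := phik_lip k y 0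
  rw [phik_zero, sub_zero, sub_zero] at h
  exact (le_abs_self _).trans h

theorem fan_lip (w w' : Fin 6 → ℂ) (y : ℂ) : ‖fan w y - fan w' y‖ ≤
    2 * (∑ k, ‖w k - w' k‖) * ‖y‖ := by
  unfold fan
  rw [← Finset.sum_sub_distrib]
  refine (norm_sum_le _ _).trans ?_
  rw [Finset.mul_sum, Finset.sum_mul]
  apply Finset.sum_le_sum
  intro k _
  rw [← smul_sub, norm_smul, Real.norm_of_nonneg (phik_nonneg k y)]
  calc phik k y * ‖w k - w' k‖ ≤ (2 * ‖y‖) * ‖w k - w' k‖ :=
        mul_le_mul_of_nonneg_right (phik_le k y) (norm_nonneg _)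
    _ = 2 * ‖w k - w' k‖ * ‖y‖ := by ring

theorem fan_lip_y (w : Fin 6 → ℂ) (y y' : ℂ) : ‖fan w y - fan w y'‖ ≤
    2 * (∑ k, ‖w k‖) * ‖y - y'‖ := by
  unfold fan
  rw [← Finset.sum_sub_distrib]
  refine (norm_sum_le _ _).trans ?_
  rw [Finset.mul_sum, Finset.sum_mul]
  apply Finset.sum_le_sum
  intro k _
  rw [← sub_smul, norm_smul, Real.norm_eq_abs]
  calc |phik k y - phik k y'| * ‖w k‖ ≤ (2 * ‖y - y'‖) * ‖w k‖ :=
        mul_le_mul_of_nonneg_right (phik_lip k y y') (norm_nonneg _)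
    _ = 2 * ‖w k‖ * ‖y - y'‖ := by ring

end SM
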