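import Pool.Agent.SM.Defs

/-!
# Project SM, module CNT
-/

open Set Metric Filter Topology MeasureTheory
open scoped ContDiff Pointwise

noncomputable section

namespace SM

/-! ### One vertex -/

open Classical in
/-- The corner indicator. -/
private def cnr (f : ℤ × ℤ → ℝ) (k : Fin 6) (v : ℤ × ℤ) : ℤ :=
  if (f (v + dir k) - f v) * (f (v + dir (k + 1)) - f v) < 0 then 1 else 0

private theorem sc_eq_sum (f : ℤ × ℤ → ℝ) (v : ℤ × ℤ) : (sc f v : ℤ) = ∑ k, cnr f k v := by
  unfold sc cnr
  rw [Finset.card_filter]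
  push_cast
  apply Finset.sum_congr rfl
  intro k _
  split_ifs <;> rfl

private theorem mid_one {x y z : ℝ} (hxy : x ≠ y) (hyz : y ≠ z) (hxz : x ≠ z) :
    (if (y - x) * (z - x) < 0 then (1 : ℤ) else 0) + (if (z - y) * (x - y) < 0 then 1 else 0) +
      (if (x - z) * (y - z) < 0 then 1 else 0) = 1 := by
  have key : ∀ a b c : ℝ, a < b → b < c → ¬ ((b - a) * (c - a) < 0) ∧ ((c - b) * (a - b) < 0) ∧
      ¬ ((a - c) * (b - c) < 0) ∧ ¬ ((c - a) * (b - a) < 0) ∧ ((a - b) * (c - b) < 0) ∧
      ¬ ((b - c) * (a - c) < 0) := by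
    intro a b c h1 h2
    have h3 : 0 < b - a := by linarith
    have h4 : 0 < c - b := by linarith
    have h5 : 0 < c - a := by linarith
    refine ⟨?_, ?_, ?_, ?_, ?_, ?_⟩ <;> nlinarith [mul_pos h3 h4, mul_pos h3 h5, mul_pos h4 h5]
  rcases lt_or_gt_of_ne hxy with h1 | h1 <;> rcases lt_or_gt_of_ne hyz with h2 | h2 <;>
    rcases lt_or_gt_of_ne hxz with h3 | h3
  · obtain ⟨a1, a2, a3, a4, a5, a6⟩ := key x y z h1 h2
    simp [a1, a2, a3]
  · linarith
  · obtain ⟨a1, a2, a3, a4, a5, a6⟩ := key x z y h3 h2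
    simp [a4, a5, a6]
  · obtain ⟨a1, a2, a3, a4, a5, a6⟩ := key z x y h3 h1
    simp [a1, a2, a3]
  · obtain ⟨a1, a2, a3, a4, a5, a6⟩ := key y x z h1 h3
    simp [a4, a5, a6]
  · obtain ⟨a1, a2, a3, a4, a5, a6⟩ := key y z x h2 h3
    simp [a1, a2, a3]
  · linarith
  · obtain ⟨a1, a2, a3, a4, a5, a6⟩ := key z y x h2 h1
    simp [a4, a5, a6]

private theorem up_one {f : ℤ × ℤ → ℝ} (hf : ∀ v k, f (v + dir k) ≠ f v) (w : ℤ × ℤ) :
    cnr f 0 w + cnr f 2 (w + dir 0) + cnr f 4 (w + dir 1) = 1 := by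
  have e1 : w + dir 0 + dir 2 = w + dir 1 := by rw [add_assoc]; congr 1
  have e2 : w + dir 0 + dir (2 + 1) = w := by
    rw [add_assoc]
    have : dir 0 + dir (2 + 1) = 0 := rfl
    rw [this, add_zero]
  have e3 : w + dir 1 + dir 4 = w := by
    rw [add_assoc]
    have : dir 1 + dir 4 = 0 := rfl
    rw [this, add_zero]
  have e4 : w + dir 1 + dir (4 + 1) = w + dir 0 := by rw [add_assoc]; congr 1
  have h1 : f w ≠ f (w + dir 0) := (hf w 0).symm
  have h2 : f w ≠ f (w + dir 1) := (hf w 1).symm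
  have h3 : f (w + dir 0) ≠ f (w + dir 1) := by
    have := hf (w + dir 0) 2
    rw [e1] at this
    exact this.symm
  have h4 := mid_one h1 h3 h2
  unfold cnr
  rw [e1, e2, e3, e4]
  exact h4

private theorem down_one {f : ℤ × ℤ → ℝ} (hf : ∀ v k, f (v + dir k) ≠ f v) (w : ℤ × ℤ) :
    cnr f 1 w + cnr f 3 (w + dir 1) + cnr f 5 (w + dir 2) = 1 := by
  have e1 : w + dir 1 + dir 3 = w + dir 2 := by rw [add_assoc]; congr 1
  have e2 : w + dir 1 + dir (3 + 1) = w := by
    rw [add_assoc]
    have : dir 1 + dir (3 + 1) = 0 := rfl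
    rw [this, add_zero]
  have e3 : w + dir 2 + dir 5 = w := by
    rw [add_assoc]
    have : dir 2 + dir 5 = 0 := rfl
    rw [this, add_zero]
  have e4 : w + dir 2 + dir (5 + 1) = w + dir 1 := by rw [add_assoc]; congr 1
  have h1 : f w ≠ f (w + dir 1) := (hf w 1).symm
  have h2 : f w ≠ f (w + dir 2) := (hf w 2).symm
  have h3 : f (w + dir 1) ≠ f (w + dir 2) := by
    have := hf (w + dir 1) 3
    rw [e1] at this
    exact this.symm
  have h4 := mid_one h1 h3 h2
  unfold cnr
  rw [e1, e2, e3, e4]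
  exact h4

private theorem cnr_diff_finite {f f₀ : ℤ × ℤ → ℝ} {J : Set (ℤ × ℤ)} (hJ : J.Finite)
    (he : ∀ v, v ∉ J → f v = f₀ v) (k : Fin 6) :
    (Function.support (fun v => cnr f k v - cnr f₀ k v)).Finite := by
  have h1 : ∀ d : ℤ × ℤ, ((fun v => v + d) ⁻¹' J).Finite := by
    intro d
    exact hJ.preimage (fun a _ b _ h => add_right_cancel h)
  refine ((hJ.union (h1 (dir k))).union (h1 (dir (k + 1)))).subset ?_
  intro v hv
  by_contra hcon
  simp only [mem_union, mem_preimage, not_or] at hcon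
  obtain ⟨⟨h2, h3⟩, h4⟩ := hcon
  apply hv
  show cnr f k v - cnr f₀ k v = 0
  unfold cnr
  rw [he v h2, he _ h3, he _ h4, sub_self]

private theorem finsum_shift (d : ℤ × ℤ → ℤ) (c : ℤ × ℤ) : ∑ᶠ v, d v = ∑ᶠ v, d (v + c) := by
  exact (finsum_comp_equiv (Equiv.addRight c)).symm

private theorem shift_finite {d : ℤ × ℤ → ℤ} (hd : (Function.support d).Finite) (c : ℤ × ℤ) :
    (Function.support (fun v => d (v + c))).Finite := by
  exact hd.preimage (fun a _ b _ h => add_right_cancel h)

theorem sum_sc {f f₀ : ℤ × ℤ → ℝ} (hf : ∀ v k, f (v + dir k) ≠ f v)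
    (hf₀ : ∀ v k, f₀ (v + dir k) ≠ f₀ v) {J : Set (ℤ × ℤ)} (hJ : J.Finite)
    (he : ∀ v, v ∉ J → f v = f₀ v) : ∑ᶠ v, ((sc f v : ℤ) - (sc f₀ v : ℤ)) = 0 := by
  have hfin := fun k => cnr_diff_finite hJ he k
  have hsh := fun k c => shift_finite (hfin k) c
  have e1 : (fun v => (sc f v : ℤ) - (sc f₀ v : ℤ)) =
      fun v => ∑ k, (cnr f k v - cnr f₀ k v) := by
    funext v
    rw [sc_eq_sum, sc_eq_sum, Finset.sum_sub_distrib]
  rw [e1, finsum_sum_comm _ _ (fun k _ => hfin k)]
  rw [Fin.sum_univ_six]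
  rw [finsum_shift (fun v => cnr f 2 v - cnr f₀ 2 v) (dir 0),
    finsum_shift (fun v => cnr f 4 v - cnr f₀ 4 v) (dir 1),
    finsum_shift (fun v => cnr f 3 v - cnr f₀ 3 v) (dir 1),
    finsum_shift (fun v => cnr f 5 v - cnr f₀ 5 v) (dir 2)]
  have h1 : (∑ᶠ v, (cnr f 0 v - cnr f₀ 0 v)) + (∑ᶠ v, (cnr f 2 (v + dir 0) - cnr f₀ 2 (v + dir 0)))
      + (∑ᶠ v, (cnr f 4 (v + dir 1) - cnr f₀ 4 (v + dir 1))) = 0 := by
    rw [← finsum_add_distrib (hfin 0) (hsh 2 (dir 0)), ← finsum_add_distrib ?_ (hsh 4 (dir 1))]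
    · refine Eq.trans (finsum_congr ?_) (finsum_zero (α := ℤ × ℤ) (M := ℤ))
      intro v
      have h2 := up_one hf v
      have h3 := up_one hf₀ v
      linarith
    · exact ((hfin 0).union (hsh 2 (dir 0))).subset (Function.support_add _ _)
  have h2 : (∑ᶠ v, (cnr f 1 v - cnr f₀ 1 v)) + (∑ᶠ v, (cnr f 3 (v + dir 1) - cnr f₀ 3 (v + dir 1)))
      + (∑ᶠ v, (cnr f 5 (v + dir 2) - cnr f₀ 5 (v + dir 2))) = 0 := by
    rw [← finsum_add_distrib (hfin 1) (hsh 3 (dir 1)), ← finsum_add_distrib ?_ (hsh 5 (dir 2))]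
    · refine Eq.trans (finsum_congr ?_) (finsum_zero (α := ℤ × ℤ) (M := ℤ))
      intro v
      have h2 := down_one hf v
      have h3 := down_one hf₀ v
      linarith
    · exact ((hfin 1).union (hsh 3 (dir 1))).subset (Function.support_add _ _)
  linarith

private theorem bool_two : ∀ b : Fin 6 → Bool, (∃ k, b k = false) → (∃ k, b k = true) →
    2 ≤ (Finset.univ.filter (fun k : Fin 6 => b k ≠ b (k + 1))).card := by
  decide

private theorem bool_lin : ∀ b : Fin 6 → Bool, (∀ k, b (k + 3) = !b k) →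
    (∀ k, b k = b (k + 2) → b (k + 1) = b k) →
    (Finset.univ.filter (fun k : Fin 6 => b k ≠ b (k + 1))).card = 2 := by
  decide

open Classical in
private theorem sc_bool {f : ℤ × ℤ → ℝ} {v : ℤ × ℤ} (hf : ∀ k, f (v + dir k) ≠ f v) :
    sc f v = (Finset.univ.filter (fun k : Fin 6 =>
      decide (f v < f (v + dir k)) ≠ decide (f v < f (v + dir (k + 1))))).card := by
  unfold sc
  congr 1
  apply Finset.filter_congr
  intro k _
  have h1 := hf k
  have h2 := hf (k + 1)
  rcases lt_or_gt_of_ne h1 with h3 | h3 <;> rcases lt_or_gt_of_ne h2 with h4 | h4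
  · have h5 : ¬ (f v < f (v + dir k)) := not_lt.mpr h3.le
    have h6 : ¬ (f v < f (v + dir (k + 1))) := not_lt.mpr h4.le
    simp only [h5, h6, decide_false, ne_eq, not_true_eq_false, iff_false, not_lt]
    nlinarith
  · have h5 : ¬ (f v < f (v + dir k)) := not_lt.mpr h3.le
    have h6 : (f v < f (v + dir (k + 1))) := h4
    simp only [h5, h6, decide_false, decide_true, ne_eq, reduceCtorEq, not_false_eq_true, iff_true]
    exact mul_neg_of_neg_of_pos (by linarith) (by linarith)
  · have h5 : (f v < f (v + dir k)) := h3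
    have h6 : ¬ (f v < f (v + dir (k + 1))) := not_lt.mpr h4.le
    simp only [h5, h6, decide_false, decide_true, ne_eq, reduceCtorEq, not_false_eq_true, iff_true]
    exact mul_neg_of_pos_of_neg (by linarith) (by linarith)
  · have h5 : (f v < f (v + dir k)) := h3
    have h6 : (f v < f (v + dir (k + 1))) := h4
    simp only [h5, h6, decide_true, ne_eq, not_true_eq_false, iff_false, not_lt]
    nlinarith

open Classical in
theorem two_le_sc {f : ℤ × ℤ → ℝ} {v : ℤ × ℤ} (hf : ∀ k, f (v + dir k) ≠ f v)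
    (h1 : ∃ k, f (v + dir k) < f v) (h2 : ∃ k, f v < f (v + dir k)) : 2 ≤ sc f v := by
  rw [sc_bool hf]
  have h3 := bool_two (fun k => decide (f v < f (v + dir k))) ?_ ?_
  · exact h3
  · obtain ⟨k, hk⟩ := h1
    exact ⟨k, decide_eq_false (not_lt.mpr hk.le)⟩
  · obtain ⟨k, hk⟩ := h2
    exact ⟨k, decide_eq_true hk⟩

private theorem emb_add' (v w : ℤ × ℤ) : emb (v + w) = emb v + emb w := by
  unfold emb
  rw [Prod.fst_add, Prod.snd_add]
  push_cast
  ring

private theorem zk_three' (k : Fin 6) : zk (k + 3) = -zk k := by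
  have h1 : dir (k + 3) + dir k = 0 := by fin_cases k <;> rfl
  have h2 : zk (k + 3) + zk k = 0 := by
    unfold zk
    rw [← emb_add', h1]
    simp [emb]
  exact eq_neg_of_add_eq_zero_left h2

private theorem zk_mid (k : Fin 6) : zk (k + 1) = zk k + zk (k + 2) := by
  have h1 : dir (k + 1) = dir k + dir (k + 2) := by fin_cases k <;> rfl
  unfold zk
  rw [← emb_add', h1]

private theorem lin_step (φ : ℂ →L[ℝ] ℝ) (v : ℤ × ℤ) (k : Fin 6) :
    φ (emb (v + dir k)) = φ (emb v) + φ (zk k) := by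
  rw [emb_add', map_add]
  rfl

open Classical in
theorem sc_linear {φ : ℂ →L[ℝ] ℝ} (hφ : ∀ k, φ (zk k) ≠ 0) (v : ℤ × ℤ) :
    sc (fun v => φ (emb v)) v = 2 := by
  rw [sc_bool]
  · have h0 : ∀ k, decide (φ (emb v) < φ (emb (v + dir k))) = decide (0 < φ (zk k)) := by
      intro k
      rw [lin_step]
      congr 1
      apply propext
      constructor <;> intro h <;> linarith
    have h1 := bool_lin (fun k => decide (0 < φ (zk k))) ?_ ?_
    · simp only [h0]
      exact h1
    · intro k
      rw [zk_three', map_neg]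
      rcases lt_or_gt_of_ne (hφ k) with h2 | h2
      · rw [decide_eq_true (by linarith : 0 < -φ (zk k)), decide_eq_false (not_lt.mpr h2.le)]
        rfl
      · rw [decide_eq_false (by linarith : ¬ 0 < -φ (zk k)), decide_eq_true h2]
        rfl
    · intro k hk
      rw [zk_mid, map_add]
      rcases lt_or_gt_of_ne (hφ k) with h2 | h2
      · rw [decide_eq_false (not_lt.mpr h2.le)] at hk ⊢
        have h3 : ¬ 0 < φ (zk (k + 2)) := of_decide_eq_false hk.symm
        exact decide_eq_false (by linarith)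
      · rw [decide_eq_true h2] at hk ⊢
        have h3 : 0 < φ (zk (k + 2)) := of_decide_eq_true hk.symm
        exact decide_eq_true (by linarith)
  · intro k
    rw [lin_step]
    intro h
    exact hφ k (by linarith)

/-- in a harmonic nondegenerate configuration all counts equal two -/
theorem sc_eq_two {n : ℕ} {u : Cfg} {lam : ℤ × ℤ → Fin 6 → ℝ} (hl : Wts lam) (hu : IdOut n u)
    (hh : ∀ v : ℤ × ℤ, |v.1| < n → |v.2| < n → HarmAt lam u v) {φ : ℂ →L[ℝ] ℝ}
    (hφ : ∀ v k, φ (u (v + dir k)) ≠ φ (u v)) (hφ' : ∀ k, φ (zk k) ≠ 0) (v : ℤ × ℤ) :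
    sc (fun v => φ (u v)) v = 2 := by
  let J : Set (ℤ × ℤ) := {v | |v.1| < n ∧ |v.2| < n}
  have hJ : J.Finite := by
    apply ((Set.finite_Icc (-(n : ℤ)) n).prod (Set.finite_Icc (-(n : ℤ)) n)).subset
    rintro ⟨a, b⟩ ⟨h1, h2⟩
    simp only at h1 h2
    rw [abs_lt] at h1 h2
    exact ⟨⟨h1.1.le, h1.2.le⟩, ⟨h2.1.le, h2.2.le⟩⟩
  have he : ∀ v, v ∉ J → φ (u v) = φ (emb v) := by
    intro v hv
    rw [hu v hv]
  have hf₀ : ∀ v k, φ (emb (v + dir k)) ≠ φ (emb v) := by
    intro v k
    rw [lin_step]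
    intro h
    exact hφ' k (by linarith)
  have hge : ∀ v, 2 ≤ sc (fun v => φ (u v)) v := by
    intro v
    by_cases hv : v ∈ J
    · have h1 := hh v hv.1 hv.2
      have h2 : φ (u v) = ∑ k, lam v k * φ (u (v + dir k)) := by
        unfold HarmAt at h1
        conv_lhs => rw [h1]
        rw [map_sum]
        apply Finset.sum_congr rfl
        intro k _
        rw [map_smul, smul_eq_mul]
      have h3 : φ (u v) = ∑ k, lam v k * φ (u v) := by
        rw [← Finset.sum_mul, (hl v).2, one_mul]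
      apply two_le_sc (hφ v)
      · by_contra hcon
        push Not at hcon
        have h4 : ∑ k, lam v k * φ (u v) < ∑ k, lam v k * φ (u (v + dir k)) := by
          apply Finset.sum_lt_sum
          · intro k _
            exact mul_le_mul_of_nonneg_left (hcon k) ((hl v).1 k).le
          · exact ⟨0, Finset.mem_univ _, mul_lt_mul_of_pos_left
              (lt_of_le_of_ne (hcon 0) (hφ v 0).symm) ((hl v).1 0)⟩
        linarith
      · by_contra hcon
        push Not at hcon
        have h4 : ∑ k, lam v k * φ (u (v + dir k)) < ∑ k, lam v k * φ (u v) := by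
          apply Finset.sum_lt_sum
          · intro k _
            exact mul_le_mul_of_nonneg_left (hcon k) ((hl v).1 k).le
          · exact ⟨0, Finset.mem_univ _, mul_lt_mul_of_pos_left
              (lt_of_le_of_ne (hcon 0) (hφ v 0)) ((hl v).1 0)⟩
        linarith
    · -- a fixed vertex with two opposite fixed neighbours
      have hex : ∃ k : Fin 6, v + dir k ∉ J ∧ v + dir (k + 3) ∉ J := by
        by_cases h1 : |v.1| < n
        · have h2 : ¬ |v.2| < n := fun h => hv ⟨h1, h⟩
          refine ⟨0, ?_, ?_⟩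
          · intro h
            apply h2
            have h3 := h.2
            have h4 : (v + dir 0).2 = v.2 := by
              rw [Prod.snd_add]
              show v.2 + 0 = v.2
              ring
            rwa [h4] at h3
          · intro h
            apply h2
            have h3 := h.2
            have h4 : (v + dir (0 + 3)).2 = v.2 := by
              rw [Prod.snd_add]
              show v.2 + 0 = v.2
              ring
            rwa [h4] at h3
        · refine ⟨1, ?_, ?_⟩
          · intro h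
            apply h1
            have h3 := h.1
            have h4 : (v + dir 1).1 = v.1 := by
              rw [Prod.fst_add]
              show v.1 + 0 = v.1
              ring
            rwa [h4] at h3
          · intro h
            apply h1
            have h3 := h.1
            have h4 : (v + dir (1 + 3)).1 = v.1 := by
              rw [Prod.fst_add]
              show v.1 + 0 = v.1
              ring
            rwa [h4] at h3
      obtain ⟨k, hk1, hk2⟩ := hex
      have h1 : φ (u (v + dir k)) = φ (u v) + φ (zk k) := by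
        rw [he _ hk1, he _ hv, lin_step]
      have h2 : φ (u (v + dir (k + 3))) = φ (u v) - φ (zk k) := by
        rw [he _ hk2, he _ hv, lin_step, zk_three', map_neg]
        ring
      rcases lt_or_gt_of_ne (hφ' k) with h3 | h3
      · exact two_le_sc (hφ v) ⟨k, by rw [h1]; linarith⟩
          ⟨k + 3, by rw [h2]; linarith⟩
      · exact two_le_sc (hφ v) ⟨k + 3, by rw [h2]; linarith⟩
          ⟨k, by rw [h1]; linarith⟩
  have hsum := sum_sc (f := fun v => φ (u v)) (f₀ := fun v => φ (emb v)) hφ hf₀ hJ he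
  have hsupp : (Function.support (fun v => (sc (fun v => φ (u v)) v : ℤ) -
      (sc (fun v => φ (emb v)) v : ℤ))).Finite := by
    have e1 : (fun v => (sc (fun v => φ (u v)) v : ℤ) - (sc (fun v => φ (emb v)) v : ℤ)) =
        fun v => ∑ k, (cnr (fun v => φ (u v)) k v - cnr (fun v => φ (emb v)) k v) := by
      funext v
      rw [sc_eq_sum, sc_eq_sum, Finset.sum_sub_distrib]
    rw [e1]
    refine (Set.finite_iUnion (fun k : Fin 6 => cnr_diff_finite (f := fun v => φ (u v))
      (f₀ := fun v => φ (emb v)) hJ he k)).subset ?_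
    intro w hw
    by_contra hcon
    apply hw
    show ∑ k, _ = 0
    apply Finset.sum_eq_zero
    intro k _
    by_contra h1
    exact hcon (mem_iUnion.mpr ⟨k, h1⟩)
  by_contra hne
  have hnn : ∀ w, 0 ≤ (sc (fun v => φ (u v)) w : ℤ) - (sc (fun v => φ (emb v)) w : ℤ) := by
    intro w
    rw [sc_linear hφ' w]
    have := hge w
    push_cast
    omega
  have hpos : 0 < ∑ᶠ w, ((sc (fun v => φ (u v)) w : ℤ) - (sc (fun v => φ (emb v)) w : ℤ)) := by
    apply finsum_pos hnn _ hsupp
    refine ⟨v, ?_⟩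
    rw [sc_linear hφ' v]
    have := hge v
    push_cast
    omega
  omega

end SM
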