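import Pool.Agent.SM.Defs
import Pool.Agent.SM.Lat
import Pool.Agent.SM.Dir
import Pool.Agent.SM.Cnt

/-!
# Project SM, module SGN
-/

open Set Metric Filter Topology MeasureTheory
open scoped ContDiff Pointwise

noncomputable section

namespace SM

private theorem sgn_cyc1 : ∀ s : Fin 6 → Bool, (∃ i, s i = true) → (∃ i, s i = false) →
    ∃ k, s (k - 1) = true ∧ s k = false := by
  decide +kernel

private theorem sgn_cyc2 : ∀ s : Fin 6 → Bool, ∀ k j : Fin 6, s k = true → s (k + 1) = false →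
    s (k - 1) = false → s j = true → j ≠ k →
    (Finset.univ.filter (fun i : Fin 6 => s i ≠ s (i + 1))).card ≠ 2 := by
  decide +kernel

private theorem sgn_cyc2' {a : Fin 6 → ℝ} (ha : ∀ i, a i ≠ 0) {k j : Fin 6} (hk : 0 < a k)
    (hk1 : a (k + 1) < 0) (hk2 : a (k - 1) < 0) (hj : 0 < a j) (hjk : j ≠ k) :
    (Finset.univ.filter (fun i : Fin 6 => a i * a (i + 1) < 0)).card ≠ 2 := by
  have h := sgn_cyc2 (fun i => decide (0 < a i)) k j (by simpa using hk)
    (by simpa using hk1.le) (by simpa using hk2.le) (by simpa using hj) hjk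
  have he : (Finset.univ.filter (fun i : Fin 6 => a i * a (i + 1) < 0)) =
      (Finset.univ.filter (fun i : Fin 6 => decide (0 < a i) ≠ decide (0 < a (i + 1)))) := by
    ext i
    simp only [Finset.mem_filter, Finset.mem_univ, true_and]
    have h1 := ha i
    have h2 := ha (i + 1)
    rcases lt_or_gt_of_ne h1 with h3 | h3 <;> rcases lt_or_gt_of_ne h2 with h4 | h4
    · have h5 : ¬ (0 < a i) := not_lt.mpr h3.le
      have h6 : ¬ (0 < a (i + 1)) := not_lt.mpr h4.le
      simp only [h5, h6, decide_false, ne_eq, not_true_eq_false, iff_false, not_lt]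
      exact (mul_pos_of_neg_of_neg h3 h4).le
    · have h5 : ¬ (0 < a i) := not_lt.mpr h3.le
      simp only [h5, h4, decide_false, decide_true, ne_eq, Bool.false_eq_true, not_false_eq_true,
        iff_true]
      exact mul_neg_of_neg_of_pos h3 h4
    · have h6 : ¬ (0 < a (i + 1)) := not_lt.mpr h4.le
      simp only [h6, h3, decide_false, decide_true, ne_eq, Bool.true_eq_false, not_false_eq_true,
        iff_true]
      exact mul_neg_of_pos_of_neg h3 h4
    · simp only [h3, h4, decide_true, ne_eq, not_true_eq_false, iff_false, not_lt]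
      exact (mul_pos h3 h4).le
  rw [he]
  exact h

private theorem sgn_crs_self (a : ℂ) : crs a a = 0 := by
  unfold crs; ring

private theorem sgn_crs_swap (a b : ℂ) : crs a b = -crs b a := by
  unfold crs; ring

/-- The functional used for the sign argument. -/
private def sgnPhi (e : ℂ) (ε : ℝ) : ℂ →L[ℝ] ℝ :=
  (-e.im + ε * e.re) • Complex.reCLM + (e.re + ε * e.im) • Complex.imCLM

private theorem sgnPhi_apply (e : ℂ) (ε : ℝ) (y : ℂ) :
    sgnPhi e ε y = crs e y + ε * (e.re * y.re + e.im * y.im) := by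
  simp only [sgnPhi, add_apply, smul_apply,
    Complex.reCLM_apply, Complex.imCLM_apply, smul_eq_mul]
  unfold crs
  ring

/-- generic small parameters -/
private theorem sgn_generic {e : ℂ} (he : e ≠ 0) (S : Set ℂ) (hS : S.Countable)
    (h0 : ∀ w ∈ S, w ≠ 0) {ε₀ : ℝ} (hε : 0 < ε₀) :
    ∃ ε, 0 < ε ∧ ε < ε₀ ∧ ∀ w ∈ S, sgnPhi e ε w ≠ 0 := by
  have hc : ((fun w : ℂ => -crs e w / (e.re * w.re + e.im * w.im)) '' S).Countable :=
    hS.image _
  obtain ⟨ε, hε1, hε2⟩ := (hc.dense_compl ℝ).exists_between hε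
  refine ⟨ε, hε2.1, hε2.2, fun w hw h => ?_⟩
  rw [sgnPhi_apply] at h
  by_cases hz : e.re * w.re + e.im * w.im = 0
  · rw [hz, mul_zero, add_zero] at h
    unfold crs at h
    have h1 : (e.re ^ 2 + e.im ^ 2) * w.re = 0 := by
      linear_combination e.re * hz - e.im * h
    have h2 : (e.re ^ 2 + e.im ^ 2) * w.im = 0 := by
      linear_combination e.im * hz + e.re * h
    have h3 : e.re ^ 2 + e.im ^ 2 ≠ 0 := by
      intro h4
      apply he
      apply Complex.ext
      · simp only [Complex.zero_re]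
        nlinarith [sq_nonneg e.re, sq_nonneg e.im]
      · simp only [Complex.zero_im]
        nlinarith [sq_nonneg e.re, sq_nonneg e.im]
    apply h0 w hw
    apply Complex.ext
    · exact (mul_eq_zero.mp h1).resolve_left h3
    · exact (mul_eq_zero.mp h2).resolve_left h3
  · apply hε1
    refine ⟨w, hw, ?_⟩
    simp only
    rw [div_eq_iff hz]
    linarith

private theorem sgn_star_balance {u : Cfg} {lam : ℤ × ℤ → Fin 6 → ℝ} (hl : Wts lam)
    {v : ℤ × ℤ} (hh : HarmAt lam u v) : ∑ k, lam v k • star u v k = 0 := by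
  unfold star
  simp only [smul_sub, Finset.sum_sub_distrib]
  rw [← Finset.sum_smul, (hl v).2, one_smul, ← hh, sub_self]

private theorem sgn_same {n : ℕ} {u : Cfg} {lam : ℤ × ℤ → Fin 6 → ℝ} (hl : Wts lam)
    (hu : IdOut n u) (hh : ∀ v : ℤ × ℤ, |v.1| < n → |v.2| < n → HarmAt lam u v)
    (hD : ∀ v k, crs (star u v k) (star u v (k + 1)) ≠ 0) {v : ℤ × ℤ} (hv1 : |v.1| < n)
    (hv2 : |v.2| < n) {i : Fin 6} (hi : 0 < crs (star u v i) (star u v (i + 1))) (l : Fin 6) :
    0 < crs (star u v l) (star u v (l + 1)) := by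
  have hne : ∀ v k, star u v k ≠ 0 := by
    intro v k h
    apply hD v k
    rw [h]
    unfold crs
    simp
  by_contra hcon
  obtain ⟨k, hk1, hk2⟩ := sgn_cyc1 (fun i => decide (0 < crs (star u v i) (star u v (i + 1))))
    ⟨i, by simpa using hi⟩ ⟨l, by simpa using hcon⟩
  have hk1' : 0 < crs (star u v (k - 1)) (star u v k) := by
    have h := of_decide_eq_true hk1
    rwa [sub_add_cancel] at h
  have hk2' : crs (star u v k) (star u v (k + 1)) < 0 := by
    have h := of_decide_eq_false hk2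
    exact lt_of_le_of_ne (not_lt.mp h) (hD v k)
  set e : ℂ := star u v k with he
  have hk1'' : crs e (star u v (k - 1)) < 0 := by
    rw [sgn_crs_swap]; linarith
  -- a neighbour on the other side
  obtain ⟨j, hj⟩ : ∃ j, 0 < crs e (star u v j) := by
    by_contra hno
    push Not at hno
    have hb := sgn_star_balance hl (hh v hv1 hv2)
    have h1 : ∑ j, lam v j * crs e (star u v j) = 0 := by
      have h2 := congrArg (sgnPhi e 0) hb
      rw [map_sum, map_zero] at h2
      simpa only [map_smul, sgnPhi_apply, zero_mul, add_zero, smul_eq_mul] using h2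
    have h2 : ∑ j, lam v j * crs e (star u v j) < ∑ j : Fin 6, (0 : ℝ) := by
      apply Finset.sum_lt_sum
      · intro j _
        exact mul_nonpos_of_nonneg_of_nonpos ((hl v).1 j).le (hno j)
      · exact ⟨k + 1, Finset.mem_univ _, mul_neg_of_pos_of_neg ((hl v).1 _) hk2'⟩
    rw [h1] at h2
    simp at h2
  have hjk : j ≠ k := by
    rintro rfl
    rw [he, sgn_crs_self] at hj
    exact lt_irrefl _ hj
  set p : ℂ → ℝ := fun y => e.re * y.re + e.im * y.im with hp
  set m : ℝ := min (min (-crs e (star u v (k + 1))) (-crs e (star u v (k - 1))))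
    (crs e (star u v j)) with hm
  have hm0 : 0 < m := by
    rw [hm]
    exact lt_min (lt_min (by linarith) (by linarith)) hj
  have hm1 : m ≤ -crs e (star u v (k + 1)) := (min_le_left _ _).trans (min_le_left _ _)
  have hm2 : m ≤ -crs e (star u v (k - 1)) := (min_le_left _ _).trans (min_le_right _ _)
  have hm3 : m ≤ crs e (star u v j) := min_le_right _ _
  set B : ℝ := |p (star u v (k + 1))| + |p (star u v (k - 1))| + |p (star u v j)| + 1 with hB
  have a1 := abs_nonneg (p (star u v (k + 1)))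
  have a2 := abs_nonneg (p (star u v (k - 1)))
  have a3 := abs_nonneg (p (star u v j))
  have hB0 : 0 < B := by rw [hB]; linarith
  obtain ⟨ε, hε0, hε1, hgen⟩ := sgn_generic (hne v k)
    (Set.range (fun q : (ℤ × ℤ) × Fin 6 => star u q.1 q.2) ∪ Set.range zk)
    ((Set.countable_range _).union (Set.countable_range _))
    (by
      rintro w (⟨q, rfl⟩ | ⟨q, rfl⟩)
      · exact hne _ _
      · intro h
        have h1 := norm_zk q
        rw [h, norm_zero] at h1
        exact zero_ne_one h1) (div_pos hm0 hB0)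
  rw [← he] at hgen
  have hεB : ε * B < m := (lt_div_iff₀ hB0).mp hε1
  have hsmall : ∀ y, |p y| ≤ B → |ε * p y| < m := by
    intro y hy
    rw [abs_mul, abs_of_pos hε0]
    exact lt_of_le_of_lt (mul_le_mul_of_nonneg_left hy hε0.le) hεB
  have s1 := abs_lt.mp (hsmall (star u v (k + 1)) (by rw [hB]; linarith))
  have s2 := abs_lt.mp (hsmall (star u v (k - 1)) (by rw [hB]; linarith))
  have s3 := abs_lt.mp (hsmall (star u v j) (by rw [hB]; linarith))
  have hsc := sc_eq_two hl hu hh (φ := sgnPhi e ε)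
    (fun v' k' h => by
      apply hgen (star u v' k') (Or.inl ⟨(v', k'), rfl⟩)
      unfold star
      rw [map_sub, h, sub_self])
    (fun k' => hgen (zk k') (Or.inr ⟨k', rfl⟩)) v
  have hval : ∀ i, sgnPhi e ε (u (v + dir i)) - sgnPhi e ε (u v) = sgnPhi e ε (star u v i) := by
    intro i
    unfold star
    rw [map_sub]
  unfold sc at hsc
  simp only [hval] at hsc
  refine sgn_cyc2' (a := fun i => sgnPhi e ε (star u v i)) (k := k) (j := j)
    (fun i => hgen _ (Or.inl ⟨(v, i), rfl⟩)) ?_ ?_ ?_ ?_ hjk hsc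
  · simp only [sgnPhi_apply]
    rw [← he, sgn_crs_self, zero_add]
    apply mul_pos hε0
    have h3 : e.re ≠ 0 ∨ e.im ≠ 0 := by
      by_contra h4
      push Not at h4
      exact hne v k (Complex.ext h4.1 h4.2)
    rcases h3 with h3 | h3
    · have := mul_self_pos.mpr h3
      nlinarith [mul_self_nonneg e.im]
    · have := mul_self_pos.mpr h3
      nlinarith [mul_self_nonneg e.re]
  · simp only [sgnPhi_apply]
    have : ε * (e.re * (star u v (k + 1)).re + e.im * (star u v (k + 1)).im) < m := s1.2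
    linarith
  · simp only [sgnPhi_apply]
    have : ε * (e.re * (star u v (k - 1)).re + e.im * (star u v (k - 1)).im) < m := s2.2
    linarith
  · simp only [sgnPhi_apply]
    have : -m < ε * (e.re * (star u v j).re + e.im * (star u v j).im) := s3.1
    linarith

private theorem sgn_dir (k : Fin 6) : dir k + dir (k + 2) = dir (k + 1) := by
  fin_cases k <;> rfl

private theorem sgn_dir3 (k : Fin 6) : dir k + dir (k + 3) = 0 := by
  fin_cases k <;> rfl

private theorem sgn_rot (u : Cfg) (v : ℤ × ℤ) (k : Fin 6) :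
    crs (star u v k) (star u v (k + 1)) =
      crs (star u (v + dir k) (k + 2)) (star u (v + dir k) (k + 2 + 1)) := by
  have h1 : (k + 2 + 1 : Fin 6) = k + 3 := by fin_cases k <;> rfl
  rw [h1]
  unfold star
  rw [add_assoc v (dir k) (dir (k + 2)), add_assoc v (dir k) (dir (k + 3)), sgn_dir, sgn_dir3,
    add_zero]
  unfold crs
  simp only [Complex.sub_re, Complex.sub_im]
  ring

private theorem sgn_coA (y : ℂ) :
    coA y = (Complex.reCLM - (1 / Real.sqrt 3) • Complex.imCLM) y := by
  simp only [sub_apply, smul_apply, Complex.reCLM_apply, Complex.imCLM_apply, smul_eq_mul]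
  unfold coA coB
  ring

private theorem sgn_coA_emb (w : ℤ × ℤ) : coA (emb w) = w.1 := by
  have h3 : Real.sqrt 3 ≠ 0 := by positivity
  unfold coA coB emb zeta
  simp only [Complex.add_re, Complex.add_im, Complex.mul_re, Complex.mul_im, Complex.intCast_re,
    Complex.intCast_im]
  field_simp
  ring

private theorem sgn_crs_zeta (y : ℂ) : crs y zeta = Real.sqrt 3 / 2 * coA y := by
  have h3 : Real.sqrt 3 ≠ 0 := by positivity
  unfold crs coA coB zeta
  field_simp

private theorem sgn_bound {n : ℕ} {u : Cfg} {lam : ℤ × ℤ → Fin 6 → ℝ} (hl : Wts lam)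
    (hu : IdOut n u) (hh : ∀ v : ℤ × ℤ, |v.1| < n → |v.2| < n → HarmAt lam u v)
    {v : ℤ × ℤ} (hv1 : |v.1| < n) (hv2 : |v.2| < n) : coA (u v) ≤ n := by
  have hJ : ({v : ℤ × ℤ | |v.1| < n ∧ |v.2| < n}).Finite := by
    apply ((Set.finite_Icc (-(n : ℤ)) n).prod (Set.finite_Icc (-(n : ℤ)) n)).subset
    rintro w ⟨h1, h2⟩
    rw [abs_lt] at h1 h2
    exact ⟨⟨h1.1.le, h1.2.le⟩, ⟨h2.1.le, h2.2.le⟩⟩
  refine max_principle hl _ hJ (u := fun v => coA (u v)) (m := (n : ℝ)) ?_ ?_ v ⟨hv1, hv2⟩
  · rintro w ⟨h1, h2⟩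
    have h := hh w h1 h2
    unfold HarmAt at h ⊢
    have h' := congrArg (Complex.reCLM - (1 / Real.sqrt 3) • Complex.imCLM) h
    rw [map_sum] at h'
    simp only [map_smul] at h'
    simpa only [sgn_coA] using h'
  · intro w hw hk
    obtain ⟨k, hk1, hk2⟩ := hk
    have hw' := hu w hw
    rw [hw', sgn_coA_emb]
    have h1 : |(dir k).1| ≤ 1 := by fin_cases k <;> decide
    have h2 : w.1 ≤ n := by
      simp only [Prod.fst_add] at hk1
      rw [abs_lt] at hk1
      rw [abs_le] at h1
      omega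
    exact_mod_cast h2

private theorem sgn_free {n : ℕ} {u : Cfg} {lam : ℤ × ℤ → Fin 6 → ℝ} (hl : Wts lam)
    (hu : IdOut n u) (hh : ∀ v : ℤ × ℤ, |v.1| < n → |v.2| < n → HarmAt lam u v)
    (hD : ∀ v k, crs (star u v k) (star u v (k + 1)) ≠ 0) {b : ℤ} (hb : |b| < n) (m : ℕ) :
    |(n : ℤ) - 1 - m| < n → ∀ k, 0 < crs (star u ((n : ℤ) - 1 - m, b) k)
      (star u ((n : ℤ) - 1 - m, b) (k + 1)) := by
  induction m with
  | zero =>
    intro hm
    have hpos : 0 < crs (star u ((n : ℤ) - 1 - (0 : ℕ), b) 5)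
        (star u ((n : ℤ) - 1 - (0 : ℕ), b) (5 + 1)) := by
      apply lt_of_le_of_ne _ (hD _ 5).symm
      have e1 : ((n : ℤ) - 1 - (0 : ℕ), b) + dir 5 = ((n : ℤ), b - 1) := by
        ext
        · simp [dir]
        · simp [dir]; ring
      have e2 : ((n : ℤ) - 1 - (0 : ℕ), b) + dir (5 + 1) = ((n : ℤ), b) := by
        have : (5 + 1 : Fin 6) = 0 := rfl
        rw [this]
        ext
        · simp [dir]
        · simp [dir]
      have h5 : star u ((n : ℤ) - 1 - (0 : ℕ), b) 5 =
          emb ((n : ℤ), b - 1) - u ((n : ℤ) - 1 - (0 : ℕ), b) := by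
        unfold star
        rw [e1, hu]
        rintro ⟨h, -⟩
        simp at h
      have h6 : star u ((n : ℤ) - 1 - (0 : ℕ), b) (5 + 1) =
          emb ((n : ℤ), b) - u ((n : ℤ) - 1 - (0 : ℕ), b) := by
        unfold star
        rw [e2, hu]
        rintro ⟨h, -⟩
        simp at h
      have h7 : emb ((n : ℤ), b) = emb ((n : ℤ), b - 1) + zeta := by
        unfold emb
        push_cast
        ring
      have h8 : crs (star u ((n : ℤ) - 1 - (0 : ℕ), b) 5)
          (star u ((n : ℤ) - 1 - (0 : ℕ), b) (5 + 1)) =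
          crs (emb ((n : ℤ), b - 1) - u ((n : ℤ) - 1 - (0 : ℕ), b)) zeta := by
        rw [h5, h6, h7]
        unfold crs
        simp only [Complex.sub_re, Complex.sub_im, Complex.add_re, Complex.add_im]
        ring
      rw [h8, sgn_crs_zeta, sgn_coA, map_sub, ← sgn_coA, ← sgn_coA, sgn_coA_emb]
      have h9 := sgn_bound hl hu hh (v := ((n : ℤ) - 1 - (0 : ℕ), b)) hm hb
      have h10 : (0 : ℝ) ≤ Real.sqrt 3 / 2 := by positivity
      apply mul_nonneg h10
      simp only [Int.cast_natCast]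
      linarith
    exact sgn_same hl hu hh hD hm hb hpos
  | succ m ih =>
    intro hm
    have hm' : |(n : ℤ) - 1 - m| < n := by
      rw [abs_lt] at hm ⊢
      push_cast at hm
      omega
    have h1 := ih hm' 2
    have e1 : ((n : ℤ) - 1 - ((m + 1 : ℕ) : ℤ), b) + dir 0 = ((n : ℤ) - 1 - m, b) := by
      ext
      · simp [dir]; ring
      · simp [dir]
    have h2 := sgn_rot u ((n : ℤ) - 1 - ((m + 1 : ℕ) : ℤ), b) 0
    rw [e1] at h2
    have h3 : 0 < crs (star u ((n : ℤ) - 1 - ((m + 1 : ℕ) : ℤ), b) 0)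
        (star u ((n : ℤ) - 1 - ((m + 1 : ℕ) : ℤ), b) (0 + 1)) := by
      rw [h2]
      exact h1
    exact sgn_same hl hu hh hD hm hb h3

theorem harmonic_valid {n : ℕ} {u : Cfg} {lam : ℤ × ℤ → Fin 6 → ℝ} (hl : Wts lam)
    (hu : IdOut n u) (hh : ∀ v : ℤ × ℤ, |v.1| < n → |v.2| < n → HarmAt lam u v)
    (hD : ∀ v k, crs (star u v k) (star u v (k + 1)) ≠ 0) : ValidCfg u := by
  have hfree : ∀ v : ℤ × ℤ, |v.1| < n → |v.2| < n → ∀ k,
      0 < crs (star u v k) (star u v (k + 1)) := by
    rintro ⟨a, b⟩ h1 h2 k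
    simp only at h1 h2
    have h3 : 0 ≤ (n : ℤ) - 1 - a := by
      rw [abs_lt] at h1
      omega
    obtain ⟨m, hm⟩ := Int.eq_ofNat_of_zero_le h3
    have h4 : a = (n : ℤ) - 1 - m := by
      have : ((m : ℕ) : ℤ) = Int.ofNat m := rfl
      omega
    rw [h4] at h1 ⊢
    exact sgn_free hl hu hh hD h2 m h1 k
  intro v k
  by_cases c1 : |v.1| < n ∧ |v.2| < n
  · exact hfree v c1.1 c1.2 k
  by_cases c2 : |(v + dir k).1| < n ∧ |(v + dir k).2| < n
  · rw [sgn_rot]
    exact hfree _ c2.1 c2.2 _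
  by_cases c3 : |(v + dir (k + 1)).1| < n ∧ |(v + dir (k + 1)).2| < n
  · rw [sgn_rot, sgn_rot, add_assoc v, sgn_dir]
    exact hfree _ c3.1 c3.2 _
  have e1 : star u v k = zk k := by
    unfold star zk
    rw [hu _ c1, hu _ c2, emb_add, add_sub_cancel_left]
  have e2 : star u v (k + 1) = zk (k + 1) := by
    unfold star zk
    rw [hu _ c1, hu _ c3, emb_add, add_sub_cancel_left]
  rw [e1, e2, crs_zk]
  positivity

end SM
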