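import Pool.Agent.SM.Defs
import Pool.Agent.SM.Lat
import Pool.Agent.SM.Dir
import Pool.Agent.SM.Sgn
import Pool.Agent.SM.Cha

/-!
# Project SM, module CHB
-/

open Set Metric Filter Topology MeasureTheory
open scoped ContDiff Pointwise

noncomputable section

namespace SM

/-- The free vertices. -/
private def chbJ (n : ℕ) : Set (ℤ × ℤ) := {v | |v.1| < n ∧ |v.2| < n}

private theorem chbJ_finite (n : ℕ) : (chbJ n).Finite := by
  apply ((Set.finite_Icc (-(n : ℤ)) n).prod (Set.finite_Icc (-(n : ℤ)) n)).subset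
  rintro ⟨a, b⟩ ⟨h1, h2⟩
  simp only [abs_lt] at h1 h2
  simp only [Set.mem_prod, Set.mem_Icc]
  omega

private theorem chb_harm {lam : ℤ × ℤ → Fin 6 → ℝ} {u : Cfg} {v : ℤ × ℤ} :
    HarmAt lam u v ↔ HarmAt lam (fun w => (u w).re) v ∧ HarmAt lam (fun w => (u w).im) v := by
  unfold HarmAt
  rw [Complex.ext_iff]
  simp only [Complex.re_sum, Complex.im_sum, Complex.real_smul, Complex.mul_re, Complex.mul_im,
    Complex.ofReal_re, Complex.ofReal_im, zero_mul, sub_zero, add_zero, smul_eq_mul]

private theorem chb_unique {lam : ℤ × ℤ → Fin 6 → ℝ} (hl : Wts lam) {J : Set (ℤ × ℤ)}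
    (hJ : J.Finite) {u u' : Cfg} (h0 : ∀ v, v ∉ J → u v = u' v)
    (hu : ∀ v ∈ J, HarmAt lam u v) (hu' : ∀ v ∈ J, HarmAt lam u' v) : u = u' := by
  have h1 := dirichlet_unique hl J hJ (u := fun w => (u w).re) (u' := fun w => (u' w).re)
    (fun v hv => by simp only [h0 v hv]) (fun v hv => (chb_harm.mp (hu v hv)).1)
    (fun v hv => (chb_harm.mp (hu' v hv)).1)
  have h2 := dirichlet_unique hl J hJ (u := fun w => (u w).im) (u' := fun w => (u' w).im)
    (fun v hv => by simp only [h0 v hv]) (fun v hv => (chb_harm.mp (hu v hv)).2)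
    (fun v hv => (chb_harm.mp (hu' v hv)).2)
  funext v
  exact Complex.ext (congrFun h1 v) (congrFun h2 v)

private theorem chb_exists {lam : ℤ × ℤ → Fin 6 → ℝ} (hl : Wts lam) (n : ℕ) :
    ∃ u : Cfg, IdOut n u ∧ ∀ v ∈ chbJ n, HarmAt lam u v := by
  obtain ⟨a, ⟨ha1, ha2⟩, -⟩ := dirichlet hl (chbJ n) (chbJ_finite n) (fun v => (emb v).re)
  obtain ⟨b, ⟨hb1, hb2⟩, -⟩ := dirichlet hl (chbJ n) (chbJ_finite n) (fun v => (emb v).im)
  refine ⟨fun v => ⟨a v, b v⟩, ?_, ?_⟩
  · intro v hv
    exact Complex.ext (ha1 v hv) (hb1 v hv)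
  · intro v hv
    rw [chb_harm]
    exact ⟨ha2 v hv, hb2 v hv⟩

private theorem chb_cross (a b q : ℂ) (x y s : ℝ) :
    crs (a + (s * x) • q) (b + (s * y) • q) =
      crs a b + s * (y * crs a q + x * crs q b) := by
  unfold crs
  simp only [Complex.add_re, Complex.add_im, Complex.real_smul, Complex.mul_re, Complex.mul_im,
    Complex.ofReal_re, Complex.ofReal_im, zero_mul, sub_zero, add_zero]
  ring

private theorem chb_step {n : ℕ} {lam lam' : ℤ × ℤ → Fin 6 → ℝ} (hl : Wts lam) (hl' : Wts lam')
    {i : ℤ × ℤ} (hi : i ∈ chbJ n) (hne : ∀ v, v ≠ i → lam v = lam' v) {u u' : Cfg}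
    (hu : IdOut n u) (hu' : IdOut n u') (hh : ∀ v ∈ chbJ n, HarmAt lam u v)
    (hh' : ∀ v ∈ chbJ n, HarmAt lam' u' v) (hv : ValidCfg u) : ValidStep n u u' := by
  obtain ⟨p, hpi, hp0, hph, -, hpg⟩ := harm_measure hl (chbJ n) (chbJ_finite n) hi
  set q : ℂ := u' i - u i with hq
  -- the difference is a multiple of the harmonic measure
  have hdiff : u' = fun v => u v + p v • q := by
    apply chb_unique hl ((chbJ_finite n).subset (sdiff_subset (t := {i})))
    · intro v hv1
      by_cases hvi : v = i
      · rw [hvi, hpi, one_smul, hq, add_sub_cancel]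
      · have hvJ : v ∉ chbJ n := fun h => hv1 ⟨h, hvi⟩
        rw [hp0 v hvJ, zero_smul, add_zero, hu v hvJ, hu' v hvJ]
    · intro v hv1
      have h1 := hh' v hv1.1
      unfold HarmAt at h1 ⊢
      rw [hne v hv1.2]
      exact h1
    · intro v hv1
      have h1 := hh v hv1.1
      have h2 := hph v hv1.1 hv1.2
      unfold HarmAt at h1 h2 ⊢
      simp only [smul_add, Finset.sum_add_distrib, smul_smul, ← Finset.sum_smul]
      rw [← h1]
      congr 2
  have hg : 0 < 1 - ∑ k, lam i k * p (i + dir k) := sub_pos.mpr (hpg (lam i) (hl i).1 (hl i).2)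
  have hg' : 0 < 1 - ∑ k, lam' i k * p (i + dir k) :=
    sub_pos.mpr (hpg (lam' i) (hl' i).1 (hl' i).2)
  set g : ℝ := 1 - ∑ k, lam i k * p (i + dir k) with hgdef
  set g' : ℝ := 1 - ∑ k, lam' i k * p (i + dir k) with hgdef'
  -- the family
  let U : ℝ → Cfg := fun s v => u v + (s * p v) • q
  have hU : ∀ s, (fun v => (1 - s) • u v + s • u' v) = U s := by
    intro s
    funext v
    simp only [hdiff, U]
    module
  have hUout : ∀ s, IdOut n (U s) := by
    intro s v hvJ
    simp only [U]
    rw [hp0 v hvJ, mul_zero, zero_smul, add_zero, hu v hvJ]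
  have hstar : ∀ s v k, star (U s) v k =
      star u v k + (s * (p (v + dir k) - p v)) • q := by
    intro s v k
    simp only [star, U]
    module
  let D : ℤ × ℤ → Fin 6 → ℝ → ℝ := fun v k s =>
    crs (star u v k) (star u v (k + 1)) + s * ((p (v + dir (k + 1)) - p v) * crs (star u v k) q +
      (p (v + dir k) - p v) * crs q (star u v (k + 1)))
  have hD : ∀ s v k, crs (star (U s) v k) (star (U s) v (k + 1)) = D v k s := by
    intro s v k
    rw [hstar, hstar, chb_cross]
  -- harmonicity of the family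
  have hharm : ∀ s : ℝ, (∀ k, 0 < g' * (1 - s) * lam i k + s * g * lam' i k) →
      ∃ mu : ℤ × ℤ → Fin 6 → ℝ, Wts mu ∧ ∀ v ∈ chbJ n, HarmAt mu (U s) v := by
    intro s hs
    have hsum : ∑ k, (g' * (1 - s) * lam i k + s * g * lam' i k) = g' * (1 - s) + s * g := by
      rw [Finset.sum_add_distrib, ← Finset.mul_sum, ← Finset.mul_sum, (hl i).2, (hl' i).2,
        mul_one, mul_one]
    have hden : 0 < g' * (1 - s) + s * g := by
      rw [← hsum]
      exact Finset.sum_pos (fun k _ => hs k) Finset.univ_nonempty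
    refine ⟨fun v k => if v = i then
      (g' * (1 - s) * lam i k + s * g * lam' i k) / (g' * (1 - s) + s * g) else lam v k, ?_, ?_⟩
    · intro v
      by_cases hvi : v = i
      · simp only [hvi, if_true]
        refine ⟨fun k => div_pos (hs k) hden, ?_⟩
        rw [← Finset.sum_div, hsum, div_self hden.ne']
      · simp only [hvi, if_false]
        exact hl v
    · intro v hvJ
      by_cases hvi : v = i
      · subst hvi
        unfold HarmAt
        simp only [if_true]
        have e1 : ∀ k, ((g' * (1 - s) * lam v k + s * g * lam' v k) / (g' * (1 - s) + s * g)) •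
            U s (v + dir k) = (g' * (1 - s) + s * g)⁻¹ •
            ((g' * (1 - s)) • (lam v k • u (v + dir k)) +
             (g' * (1 - s) * s) • ((lam v k * p (v + dir k)) • q) +
             (s * g) • (lam' v k • u' (v + dir k)) +
             (s * g * (s - 1)) • ((lam' v k * p (v + dir k)) • q)) := by
          intro k
          simp only [U]
          rw [hdiff, div_eq_inv_mul]
          module
        rw [Finset.sum_congr rfl (fun k _ => e1 k), ← Finset.smul_sum]
        simp only [Finset.sum_add_distrib, ← Finset.smul_sum, ← Finset.sum_smul]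
        have h1 := hh v hvJ
        have h2 := hh' v hvJ
        unfold HarmAt at h1 h2
        rw [← h1, ← h2]
        have e2 : ∑ k, lam v k * p (v + dir k) = 1 - g := by rw [hgdef]; ring
        have e3 : ∑ k, lam' v k * p (v + dir k) = 1 - g' := by rw [hgdef']; ring
        rw [e2, e3, eq_inv_smul_iff₀ hden.ne']
        have e4 : u' v = u v + q := by rw [hq]; ring
        simp only [U]
        rw [e4, hpi]
        module
      · have h1 := hh v hvJ
        have h2 := hph v hvJ hvi
        unfold HarmAt at h1 h2 ⊢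
        simp only [hvi, if_false, U]
        have e1 : ∀ k, lam v k • (u (v + dir k) + (s * p (v + dir k)) • q) =
            lam v k • u (v + dir k) + s • ((lam v k * p (v + dir k)) • q) := by
          intro k
          module
        rw [Finset.sum_congr rfl (fun k _ => e1 k), Finset.sum_add_distrib, ← h1,
          ← Finset.smul_sum, ← Finset.sum_smul]
        simp only [smul_eq_mul] at h2
        rw [← h2]
        module
  refine ⟨hu, hu', ?_⟩
  intro s hs
  rw [hU s]
  intro v k
  rw [hD]
  by_contra hcon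
  push Not at hcon
  have hD0 : ∀ v k, 0 < D v k 0 := by
    intro v k
    simp only [D, zero_mul, add_zero]
    exact hv v k
  have hs0 : 0 < s := by
    rcases lt_or_eq_of_le hs.1 with h | h
    · exact h
    · rw [← h] at hcon
      exact absurd (hD0 v k) (not_lt.mpr hcon)
  -- an open set of good parameters
  have hopen : IsOpen {t : ℝ | ∀ k, 0 < g' * (1 - t) * lam i k + t * g * lam' i k} := by
    simp only [Set.ofPred_forall]
    apply isOpen_iInter_of_finite
    intro k
    apply isOpen_lt continuous_const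
    fun_prop
  have hmem : s ∈ {t : ℝ | ∀ k, 0 < g' * (1 - t) * lam i k + t * g * lam' i k} := by
    intro k
    have h1 := (hl i).1 k
    have h2 := (hl' i).1 k
    have h3 : 0 ≤ 1 - s := sub_nonneg.mpr hs.2
    positivity
  obtain ⟨ε, hε, hball⟩ := Metric.isOpen_iff.mp hopen s hmem
  -- countably many roots
  have hcount : (⋃ w : (ℤ × ℤ) × Fin 6, {t : ℝ | D w.1 w.2 t = 0}).Countable := by
    apply Set.countable_iUnion
    rintro ⟨w, j⟩
    apply Set.Subsingleton.countable
    intro t1 h1 t2 h2
    simp only [D, Set.mem_ofPred_eq] at h1 h2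
    have h3 := hD0 w j
    simp only [D, zero_mul, add_zero] at h3
    generalize (p (w + dir (j + 1)) - p w) * crs (star u w j) q +
      (p (w + dir j) - p w) * crs q (star u w (j + 1)) = c at h1 h2
    have h4 : (t1 - t2) * c = 0 := by linarith
    rcases mul_eq_zero.mp h4 with h5 | h5
    · linarith
    · rw [h5] at h1
      linarith
  obtain ⟨t, ht1, ht2⟩ := (hcount.dense_compl ℝ).exists_mem_open
    (isOpen_Ioo (a := s) (b := s + ε)) (nonempty_Ioo.mpr (by linarith))
  have htmem : t ∈ {t : ℝ | ∀ k, 0 < g' * (1 - t) * lam i k + t * g * lam' i k} := by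
    apply hball
    rw [Metric.mem_ball, Real.dist_eq, abs_of_pos (by linarith [ht2.1])]
    linarith [ht2.2]
  obtain ⟨mu, hmu, hmuh⟩ := hharm t htmem
  have hvalid : ValidCfg (U t) := by
    apply harmonic_valid hmu (hUout t)
    · intro w h1 h2
      exact hmuh w ⟨h1, h2⟩
    · intro w j
      rw [hD]
      intro h0
      exact ht1 (Set.mem_iUnion.mpr ⟨(w, j), h0⟩)
  have h1 := hvalid v k
  rw [hD] at h1
  have h2 := hD0 v k
  simp only [D] at h1 h2 hcon
  generalize (p (v + dir (k + 1)) - p v) * crs (star u v k) q +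
      (p (v + dir k) - p v) * crs q (star u v (k + 1)) = c at h1 h2 hcon
  have h3 : s < t := ht2.1
  nlinarith

private theorem chb_emb {lam : ℤ × ℤ → Fin 6 → ℝ} {v : ℤ × ℤ} (h : ∀ k, lam v k = 1 / 6) :
    HarmAt lam emb v := by
  unfold HarmAt
  have h1 : ∀ k, lam v k • emb (v + dir k) = (1 / 6 : ℝ) • emb v + (1 / 6 : ℝ) • emb (dir k) := by
    intro k
    rw [h k, emb_add, smul_add]
  rw [Finset.sum_congr rfl (fun k _ => h1 k), Finset.sum_add_distrib, ← Finset.smul_sum,
    ← Finset.smul_sum]
  have h2 : ∑ k, emb (dir k) = 0 := by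
    simp only [Fin.sum_univ_six, dir, emb]
    simp
    ring
  rw [h2, smul_zero, add_zero, Finset.sum_const, Finset.card_univ, Fintype.card_fin]
  rw [← Nat.cast_smul_eq_nsmul ℝ, smul_smul]
  norm_num

theorem exists_chain {n : ℕ} {u : Cfg} (hu : IdOut n u) (hv : ValidCfg u) :
    Relation.ReflTransGen (ValidStep n) u emb := by
  classical
  choose l hl1 hl2 hl3 using fun v => exists_weights (hv v)
  have hW : ∀ S : Finset (ℤ × ℤ), Wts (fun v k => if v ∈ S then 1 / 6 else l v k) := by
    intro S v
    by_cases h : v ∈ S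
    · simp only [h, if_true]
      refine ⟨fun k => by norm_num, ?_⟩
      rw [Finset.sum_const, Finset.card_univ, Fintype.card_fin]
      norm_num
    · simp only [h, if_false]
      exact ⟨hl1 v, hl2 v⟩
  have key : ∀ S : Finset (ℤ × ℤ), ∃ w : Cfg, IdOut n w ∧
      (∀ v ∈ chbJ n, HarmAt (fun v k => if v ∈ S then 1 / 6 else l v k) w v) ∧
      ValidCfg w ∧ Relation.ReflTransGen (ValidStep n) u w := by
    intro S
    induction S using Finset.induction_on with
    | empty =>
      refine ⟨u, hu, ?_, hv, Relation.ReflTransGen.refl⟩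
      intro v _
      unfold HarmAt
      simp only [Finset.notMem_empty, if_false]
      have h1 := hl3 v
      simp only [star, smul_sub, Finset.sum_sub_distrib, ← Finset.sum_smul] at h1
      rw [hl2 v, one_smul, sub_eq_zero] at h1
      exact h1.symm
    | insert i S hiS ih =>
      obtain ⟨w, hw1, hw2, hw3, hw4⟩ := ih
      by_cases hi : i ∈ chbJ n
      · obtain ⟨w', hw1', hw2'⟩ := chb_exists (hW (insert i S)) n
        have hst : ValidStep n w w' := by
          apply chb_step (hW S) (hW (insert i S)) hi ?_ hw1 hw1' hw2 hw2' hw3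
          intro v hvi
          funext k
          simp only [Finset.mem_insert, hvi, false_or]
        refine ⟨w', hw1', hw2', ?_, hw4.tail hst⟩
        have h1 := hst.2.2 1 ⟨zero_le_one, le_rfl⟩
        simpa using h1
      · refine ⟨w, hw1, ?_, hw3, hw4⟩
        intro v hvJ
        have hvi : v ≠ i := by
          rintro rfl
          exact hi hvJ
        have h1 := hw2 v hvJ
        unfold HarmAt at h1 ⊢
        simp only [Finset.mem_insert, hvi, false_or]
        exact h1
  obtain ⟨w, hw1, hw2, -, hw4⟩ := key (chbJ_finite n).toFinset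
  have hwe : w = emb := by
    apply chb_unique (hW (chbJ_finite n).toFinset) (chbJ_finite n)
    · intro v hvJ
      exact hw1 v hvJ
    · exact hw2
    · intro v hvJ
      apply chb_emb
      intro k
      rw [if_pos ((chbJ_finite n).mem_toFinset.mpr hvJ)]
  rw [← hwe]
  exact hw4

end SM
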