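import Pool.Agent.SM.Defs
import Pool.Agent.SM.Lat

/-!
# Project SM, module FNB
-/

open Set Metric Filter Topology MeasureTheory
open scoped ContDiff Pointwise

noncomputable section

namespace SM

private lemma crs_div {a b : ℂ} (h : 0 < crs a b) : a ≠ 0 ∧ b ≠ 0 ∧ 0 < (b / a).im := by
  have ha : a ≠ 0 := by
    rintro rfl
    simp [crs] at h
  have hb : b ≠ 0 := by
    rintro rfl
    simp [crs] at h
  refine ⟨ha, hb, ?_⟩
  rw [Complex.div_im]
  have hn : 0 < Complex.normSq a := Complex.normSq_pos.2 ha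
  have : b.im * a.re / Complex.normSq a - b.re * a.im / Complex.normSq a
      = crs a b / Complex.normSq a := by
    unfold crs; ring
  rw [this]
  positivity

private lemma crs_of_div {a b : ℂ} (ha : a ≠ 0) (h : 0 < (b / a).im) : 0 < crs a b := by
  rw [Complex.div_im] at h
  have hn : 0 < Complex.normSq a := Complex.normSq_pos.2 ha
  have : b.im * a.re / Complex.normSq a - b.re * a.im / Complex.normSq a
      = crs a b / Complex.normSq a := by
    unfold crs; ring
  rw [this] at h
  have := mul_pos h hn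
  rwa [div_mul_cancel₀ _ hn.ne'] at this

private lemma log_im_mem {z : ℂ} (h : 0 < z.im) :
    0 < (Complex.log z).im ∧ (Complex.log z).im < Real.pi := by
  rw [Complex.log_im]
  constructor
  · rcases (Complex.arg_nonneg_iff.2 h.le).lt_or_eq with h1 | h1
    · exact h1
    · exact absurd (Complex.arg_eq_zero_iff.1 h1.symm).2 h.ne'
  · exact Complex.arg_lt_pi_iff.2 (Or.inr h.ne')

private lemma slit_of_im {z : ℂ} (h : 0 < z.im) : z ∈ Complex.slitPlane :=
  Complex.mem_slitPlane_iff.2 (Or.inr h.ne')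

private lemma ValidFan.ne {w : Fin 6 → ℂ} (hw : ValidFan w) (k : Fin 6) : w k ≠ 0 :=
  (crs_div (hw k)).1

private lemma ValidFan.im_pos {w : Fin 6 → ℂ} (hw : ValidFan w) (k : Fin 6) :
    0 < (w (k + 1) / w k).im := (crs_div (hw k)).2.2

private lemma ValidFan.exp_log {w : Fin 6 → ℂ} (hw : ValidFan w) (k : Fin 6) :
    Complex.exp (Complex.log (w (k + 1) / w k)) = w (k + 1) / w k :=
  Complex.exp_log (div_ne_zero (hw.ne _) (hw.ne _))

theorem wind_values {w : Fin 6 → ℂ} (hw : ValidFan w) :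
    wind w = 2 * Real.pi * Complex.I ∨ wind w = 4 * Real.pi * Complex.I := by
  have hexp : Complex.exp (wind w) = 1 := by
    unfold wind
    rw [Complex.exp_sum]
    simp only [hw.exp_log]
    have h0 := hw.ne 0
    have h1 := hw.ne 1
    have h2 := hw.ne 2
    have h3 := hw.ne 3
    have h4 := hw.ne 4
    have h5 := hw.ne 5
    simp only [Fin.prod_univ_six]
    have e1 : (0 : Fin 6) + 1 = 1 := rfl
    have e2 : (1 : Fin 6) + 1 = 2 := rfl
    have e3 : (2 : Fin 6) + 1 = 3 := rfl
    have e4 : (3 : Fin 6) + 1 = 4 := rfl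
    have e5 : (4 : Fin 6) + 1 = 5 := rfl
    have e6 : (5 : Fin 6) + 1 = 0 := rfl
    rw [e1, e2, e3, e4, e5, e6]
    field_simp
  obtain ⟨n, hn⟩ := Complex.exp_eq_one_iff.1 hexp
  have him : (wind w).im = ∑ k, (Complex.log (w (k + 1) / w k)).im := by
    unfold wind
    rw [Complex.im_sum]
  have hpos : 0 < (wind w).im := by
    rw [him]
    exact Finset.sum_pos (fun k _ => (log_im_mem (hw.im_pos k)).1) Finset.univ_nonempty
  have hlt : (wind w).im < 6 * Real.pi := by
    rw [him]
    calc ∑ k, (Complex.log (w (k + 1) / w k)).im < ∑ _k : Fin 6, Real.pi :=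
          Finset.sum_lt_sum_of_nonempty Finset.univ_nonempty
            (fun k _ => (log_im_mem (hw.im_pos k)).2)
      _ = 6 * Real.pi := by simp
  have hni : (wind w).im = n * (2 * Real.pi) := by
    rw [hn]
    simp
  rw [hni] at hpos hlt
  have hpi := Real.pi_pos
  have hn1 : 0 < n := by
    by_contra hcon
    rw [not_lt] at hcon
    have : (n : ℝ) ≤ 0 := by exact_mod_cast hcon
    nlinarith
  have hn2 : n < 3 := by
    by_contra hcon
    rw [not_lt] at hcon
    have : (3 : ℝ) ≤ n := by exact_mod_cast hcon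
    nlinarith
  have hn3 : n = 1 ∨ n = 2 := by omega
  rcases hn3 with rfl | rfl
  · left
    rw [hn]; push_cast; ring
  · right
    rw [hn]; push_cast; ring

theorem continuousOn_wind : ContinuousOn wind {w | ValidFan w} := by
  intro w hw
  have hw' : ValidFan w := hw
  apply ContinuousAt.continuousWithinAt
  unfold wind
  refine tendsto_finsetSum _ (fun k _ => ?_)
  have h1 : ContinuousAt (fun w : Fin 6 → ℂ => w (k + 1) / w k) w :=
    ContinuousAt.div (continuous_apply _).continuousAt (continuous_apply _).continuousAt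
      (hw'.ne k)
  exact h1.clog (slit_of_im (hw'.im_pos k))

private lemma zeta_exp : zeta = Complex.exp (((Real.pi / 3 : ℝ) : ℂ) * Complex.I) := by
  rw [Complex.exp_mul_I, ← Complex.ofReal_cos, ← Complex.ofReal_sin, Real.cos_pi_div_three,
    Real.sin_pi_div_three]
  apply Complex.ext
  · simp [zeta]
  · simp [zeta]

private lemma log_zeta : Complex.log zeta = ((Real.pi / 3 : ℝ) : ℂ) * Complex.I := by
  rw [zeta_exp]
  apply Complex.log_exp
  · simp
    have := Real.pi_pos
    linarith
  · simp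
    have := Real.pi_pos
    linarith

theorem wind_zk : wind zk = 2 * Real.pi * Complex.I := by
  unfold wind
  have h : ∀ k : Fin 6, Complex.log (zk (k + 1) / zk k) = ((Real.pi / 3 : ℝ) : ℂ) * Complex.I := by
    intro k
    have hne : zk k ≠ 0 := by
      intro h0
      have := norm_zk k
      rw [h0] at this
      simp at this
    rw [zk_succ, mul_div_cancel_left₀ _ hne, log_zeta]
  simp only [h]
  simp
  ring

private lemma crs_linOf (w : Fin 6 → ℂ) (y y' : ℂ) :
    crs (linOf w y) (linOf w y') * (Real.sqrt 3 / 2) = crs (w 0) (w 1) * crs y y' := by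
  have hs : Real.sqrt 3 * Real.sqrt 3 = 3 := Real.mul_self_sqrt (by norm_num)
  have hs0 : Real.sqrt 3 ≠ 0 := by positivity
  simp only [crs, linOf, coA, coB, Complex.add_re, Complex.add_im, Complex.real_smul,
    Complex.mul_re, Complex.mul_im, Complex.ofReal_re, Complex.ofReal_im]
  field_simp
  ring_nf

theorem validFan_linOf {w : Fin 6 → ℂ} (hw : ValidFan w) : ValidFan (fun k => linOf w (zk k)) := by
  intro k
  have h := crs_linOf w (zk k) (zk (k + 1))
  rw [crs_zk k] at h
  have hs : (0 : ℝ) < Real.sqrt 3 / 2 := by positivity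
  have h2 := mul_right_cancel₀ hs.ne' h
  show 0 < crs (linOf w (zk k)) (linOf w (zk (k + 1)))
  rw [h2]
  exact hw 0

private lemma linOf_neg (w : Fin 6 → ℂ) (y : ℂ) : linOf w (-y) = -linOf w y := by
  have h1 : coB (-y) = -coB y := by simp [coB]
  have h2 : coA (-y) = -coA y := by
    unfold coA
    rw [h1]
    simp
    ring
  unfold linOf
  rw [h1, h2]
  simp
  ring

theorem wind_linOf {w : Fin 6 → ℂ} (hw : ValidFan w) :
    wind (fun k => linOf w (zk k)) = 2 * Real.pi * Complex.I := by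
  set z : Fin 6 → ℂ := fun k => linOf w (zk k) with hz
  have hv : ValidFan z := validFan_linOf hw
  have h3 : ∀ k, z (k + 3) = -z k := by
    intro k
    show linOf w (zk (k + 3)) = -linOf w (zk k)
    rw [zk_three, linOf_neg]
  have z3 : z 3 = -z 0 := h3 0
  have z4 : z 4 = -z 1 := h3 1
  have z5 : z 5 = -z 2 := h3 2
  have hw2 : wind z = 2 * (Complex.log (z 1 / z 0) + Complex.log (z 2 / z 1) +
      Complex.log (z 3 / z 2)) := by
    unfold wind
    simp only [Fin.sum_univ_six]
    have e1 : (0 : Fin 6) + 1 = 1 := rfl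
    have e2 : (1 : Fin 6) + 1 = 2 := rfl
    have e3 : (2 : Fin 6) + 1 = 3 := rfl
    have e4 : (3 : Fin 6) + 1 = 4 := rfl
    have e5 : (4 : Fin 6) + 1 = 5 := rfl
    have e6 : (5 : Fin 6) + 1 = 0 := rfl
    rw [e1, e2, e3, e4, e5, e6]
    have d3 : z 4 / z 3 = z 1 / z 0 := by rw [z3, z4, neg_div_neg_eq]
    have d4 : z 5 / z 4 = z 2 / z 1 := by rw [z5, z4, neg_div_neg_eq]
    have d5 : z 0 / z 5 = z 3 / z 2 := by
      rw [z3, z5, div_neg, neg_div]
    rw [d3, d4, d5]
    ring
  set S : ℂ := Complex.log (z 1 / z 0) + Complex.log (z 2 / z 1) + Complex.log (z 3 / z 2)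
    with hS
  have hexp : Complex.exp S = -1 := by
    rw [hS, Complex.exp_add, Complex.exp_add]
    have a0 := hv.exp_log 0
    have a1 := hv.exp_log 1
    have a2 := hv.exp_log 2
    rw [show (0 : Fin 6) + 1 = 1 from rfl] at a0
    rw [show (1 : Fin 6) + 1 = 2 from rfl] at a1
    rw [show (2 : Fin 6) + 1 = 3 from rfl] at a2
    rw [a0, a1, a2, z3]
    have h0 := hv.ne 0
    have h1 := hv.ne 1
    have h2 := hv.ne 2
    field_simp
  have hlo : 0 < S.im := by
    rw [hS, Complex.add_im, Complex.add_im]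
    have b0 := (log_im_mem (hv.im_pos 0)).1
    have b1 := (log_im_mem (hv.im_pos 1)).1
    have b2 := (log_im_mem (hv.im_pos 2)).1
    rw [show (0 : Fin 6) + 1 = 1 from rfl] at b0
    rw [show (1 : Fin 6) + 1 = 2 from rfl] at b1
    rw [show (2 : Fin 6) + 1 = 3 from rfl] at b2
    linarith
  have hhi : S.im < 3 * Real.pi := by
    rw [hS, Complex.add_im, Complex.add_im]
    have b0 := (log_im_mem (hv.im_pos 0)).2
    have b1 := (log_im_mem (hv.im_pos 1)).2
    have b2 := (log_im_mem (hv.im_pos 2)).2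
    rw [show (0 : Fin 6) + 1 = 1 from rfl] at b0
    rw [show (1 : Fin 6) + 1 = 2 from rfl] at b1
    rw [show (2 : Fin 6) + 1 = 3 from rfl] at b2
    linarith
  have hexp2 : Complex.exp (S - Real.pi * Complex.I) = 1 := by
    rw [Complex.exp_sub, hexp, Complex.exp_pi_mul_I]
    norm_num
  obtain ⟨n, hn⟩ := Complex.exp_eq_one_iff.1 hexp2
  have hni : S.im = Real.pi + n * (2 * Real.pi) := by
    have : S = (n : ℂ) * (2 * Real.pi * Complex.I) + Real.pi * Complex.I := by
      rw [← hn]; ring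
    rw [this]
    simp
    ring
  rw [hni] at hlo hhi
  have hpi := Real.pi_pos
  have hn1 : -1 < n := by
    by_contra hcon
    rw [not_lt] at hcon
    have : (n : ℝ) ≤ -1 := by exact_mod_cast hcon
    nlinarith
  have hn2 : n < 1 := by
    by_contra hcon
    rw [not_lt] at hcon
    have : (1 : ℝ) ≤ n := by exact_mod_cast hcon
    nlinarith
  have hn3 : n = 0 := by omega
  rw [hn3] at hn
  have hSe : S = Real.pi * Complex.I := by
    have h0 : S - Real.pi * Complex.I = 0 := by
      rw [hn]; simp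
    exact sub_eq_zero.1 h0
  rw [hw2, hSe]
  ring

private lemma linOf_zk_zero (w : Fin 6 → ℂ) : linOf w (zk 0) = w 0 := by
  have h : zk 0 = 1 := by
    rw [zk_eq]; simp
  rw [h]
  simp [linOf, coA, coB]

/-- the logarithmic corrections change by the difference of the logarithms -/
private lemma muk_succ {w : Fin 6 → ℂ} (hwi : wind w = wind (fun k => linOf w (zk k)))
    (k : Fin 6) : muk w (k + 1) - muk w k = Complex.log (w (k + 1) / w k) -
      Complex.log (linOf w (zk (k + 1)) / linOf w (zk k)) := by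
  set d : Fin 6 → ℂ := fun j => Complex.log (w (j + 1) / w j) -
      Complex.log (linOf w (zk (j + 1)) / linOf w (zk j)) with hd
  have hsum : ∑ j, d j = 0 := by
    have : ∑ j, d j = wind w - wind (fun k => linOf w (zk k)) := by
      rw [hd]
      simp only [Finset.sum_sub_distrib]
      rfl
    rw [this, hwi, sub_self]
  have hm : ∀ k, muk w k = ∑ j ∈ Finset.univ.filter (fun j : Fin 6 => j < k), d j := fun k => rfl
  show muk w (k + 1) - muk w k = d k
  simp only [Fin.sum_univ_six] at hsum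
  rw [hm, hm, Finset.sum_filter, Finset.sum_filter]
  fin_cases k
  · simp [Fin.sum_univ_six]
  · simp [Fin.sum_univ_six]
  · simp [Fin.sum_univ_six]
  · simp [Fin.sum_univ_six]
  · simp [Fin.sum_univ_six]
  · simp [Fin.sum_univ_six]
    linear_combination -hsum

private lemma muk_zero (w : Fin 6 → ℂ) : muk w 0 = 0 := by
  unfold muk
  apply Finset.sum_eq_zero
  intro j hj
  simp at hj

private lemma exp_muk {w : Fin 6 → ℂ} (hw : ValidFan w) (k : Fin 6) :
    linOf w (zk k) * Complex.exp (muk w k) = w k := by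
  have hv : ValidFan (fun k => linOf w (zk k)) := validFan_linOf hw
  have hm : muk w k = ∑ j ∈ Finset.univ.filter (fun j : Fin 6 => j < k),
    (Complex.log (w (j + 1) / w j) - Complex.log (linOf w (zk (j + 1)) / linOf w (zk j))) := rfl
  have he : ∀ j : Fin 6, Complex.exp (Complex.log (w (j + 1) / w j) -
      Complex.log (linOf w (zk (j + 1)) / linOf w (zk j))) =
      (w (j + 1) / w j) / (linOf w (zk (j + 1)) / linOf w (zk j)) := by
    intro j
    rw [Complex.exp_sub, hw.exp_log j, hv.exp_log j]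
  rw [hm, Complex.exp_sum]
  simp only [he]
  rw [Finset.prod_filter]
  have n0 := hw.ne 0
  have n1 := hw.ne 1
  have n2 := hw.ne 2
  have n3 := hw.ne 3
  have n4 := hw.ne 4
  have n5 := hw.ne 5
  have m1 : linOf w (zk 1) ≠ 0 := hv.ne 1
  have m2 : linOf w (zk 2) ≠ 0 := hv.ne 2
  have m3 : linOf w (zk 3) ≠ 0 := hv.ne 3
  have m4 : linOf w (zk 4) ≠ 0 := hv.ne 4
  have m5 : linOf w (zk 5) ≠ 0 := hv.ne 5
  have e1 : (0 : Fin 6) + 1 = 1 := rfl
  have e2 : (1 : Fin 6) + 1 = 2 := rfl
  have e3 : (2 : Fin 6) + 1 = 3 := rfl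
  have e4 : (3 : Fin 6) + 1 = 4 := rfl
  have e5 : (4 : Fin 6) + 1 = 5 := rfl
  have e6 : (5 : Fin 6) + 1 = 0 := rfl
  simp only [Fin.prod_univ_six]
  rw [e1, e2, e3, e4, e5, e6]
  have z0 := linOf_zk_zero w
  rw [z0]
  fin_cases k
  · simp [z0]
  · simp
    field_simp
  · simp
    field_simp
  · simp
    field_simp
  · simp
    field_simp
  · simp
    field_simp

theorem omg_zero {w : Fin 6 → ℂ} (hw : ValidFan w) : omg w 0 = w := by
  funext k
  unfold omg
  have : (1 - ((0 : ℝ) : ℂ)) * muk w k = muk w k := by simp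
  rw [this]
  exact exp_muk hw k

theorem omg_one (w : Fin 6 → ℂ) : omg w 1 = fun k => linOf w (zk k) := by
  funext k
  unfold omg
  simp

theorem omg_linOf {w : Fin 6 → ℂ} (hw : ValidFan w) (h : ∀ k, w k = linOf w (zk k)) (t : ℝ) :
    omg w t = w := by
  funext k
  have hm : muk w k = 0 := by
    unfold muk
    apply Finset.sum_eq_zero
    intro j _
    rw [← h, ← h, sub_self]
  unfold omg
  rw [hm, mul_zero, Complex.exp_zero, mul_one]
  exact (h k).symm

theorem omg_valid {w : Fin 6 → ℂ} (hw : ValidFan w) (hwi : wind w = 2 * Real.pi * Complex.I)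
    {t : ℝ} (ht : t ∈ Icc (0 : ℝ) 1) : ValidFan (omg w t) := by
  have hv : ValidFan (fun k => linOf w (zk k)) := validFan_linOf hw
  have hww : wind w = wind (fun k => linOf w (zk k)) := by
    rw [hwi, wind_linOf hw]
  intro k
  have hne : omg w t k ≠ 0 := by
    unfold omg
    exact mul_ne_zero (hv.ne k) (Complex.exp_ne_zero _)
  apply crs_of_div hne
  set Lw : ℂ := Complex.log (w (k + 1) / w k) with hLw
  set Lz : ℂ := Complex.log (linOf w (zk (k + 1)) / linOf w (zk k)) with hLz
  have hratio : omg w t (k + 1) / omg w t k = Complex.exp ((1 - t) * Lw + t * Lz) := by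
    have hm := muk_succ hww k
    rw [← hLw, ← hLz] at hm
    have hz : linOf w (zk (k + 1)) / linOf w (zk k) = Complex.exp Lz := (hv.exp_log k).symm
    unfold omg
    rw [mul_div_mul_comm, ← Complex.exp_sub, ← mul_sub, hm, hz, ← Complex.exp_add]
    congr 1
    ring
  rw [hratio, Complex.exp_im]
  have him : ((1 - (t : ℂ)) * Lw + t * Lz).im = (1 - t) * Lw.im + t * Lz.im := by
    have h1 : (1 - (t : ℂ)) = ((1 - t : ℝ) : ℂ) := by push_cast; ring
    rw [h1, Complex.add_im, Complex.im_ofReal_mul, Complex.im_ofReal_mul]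
  rw [him]
  have b1 := log_im_mem (hw.im_pos k)
  have b2 : 0 < Lz.im ∧ Lz.im < Real.pi := log_im_mem (hv.im_pos k)
  rw [← hLw] at b1
  have hs : 0 < Real.sin ((1 - t) * Lw.im + t * Lz.im) := by
    apply Real.sin_pos_of_pos_of_lt_pi
    · rcases eq_or_lt_of_le ht.1 with h0 | h0
      · rw [← h0]; simpa using b1.1
      · have : 0 ≤ (1 - t) * Lw.im := mul_nonneg (by linarith [ht.2]) b1.1.le
        have := mul_pos h0 b2.1
        linarith
    · rcases eq_or_lt_of_le ht.1 with h0 | h0
      · rw [← h0]; simpa using b1.2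
      · have h1 : (1 - t) * Lw.im ≤ (1 - t) * Real.pi :=
          mul_le_mul_of_nonneg_left b1.2.le (by linarith [ht.2])
        have h2 : t * Lz.im < t * Real.pi := mul_lt_mul_of_pos_left b2.2 h0
        nlinarith
  exact mul_pos (Real.exp_pos _) hs

/-- `omg` is locally Lipschitz on the valid fans -/
theorem contDiffAt_omg {w : Fin 6 → ℂ} (hw : ValidFan w) (t : ℝ) (k : Fin 6) :
    ContDiffAt ℝ 1 (fun q : (Fin 6 → ℂ) × ℝ => omg q.1 q.2 k) (w, t) := by
  have hv : ValidFan (fun k => linOf w (zk k)) := validFan_linOf hw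
  have happ : ∀ j : Fin 6, ContDiffAt ℝ 1 (fun q : (Fin 6 → ℂ) × ℝ => q.1 j) (w, t) := by
    intro j
    exact ((contDiff_apply ℝ ℂ j).comp contDiff_fst).contDiffAt
  have hlin : ∀ y : ℂ, ContDiffAt ℝ 1 (fun q : (Fin 6 → ℂ) × ℝ => linOf q.1 y) (w, t) := by
    intro y
    unfold linOf
    exact ((happ 0).const_smul _).add ((happ 1).const_smul _)
  have hlog : ∀ z : ℂ, 0 < z.im → ContDiffAt ℝ 1 Complex.log z := by
    intro z hz
    exact (Complex.contDiffAt_log (slit_of_im hz)).restrict_scalars ℝ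
  have hd1 : ∀ j : Fin 6, ContDiffAt ℝ 1
      (fun q : (Fin 6 → ℂ) × ℝ => Complex.log (q.1 (j + 1) / q.1 j)) (w, t) := by
    intro j
    have h1 : ContDiffAt ℝ 1 (fun q : (Fin 6 → ℂ) × ℝ => q.1 (j + 1) / q.1 j) (w, t) := by
      simp only [div_eq_mul_inv]
      exact (happ (j + 1)).mul ((happ j).inv (hw.ne j))
    have h2 : ContDiffAt ℝ 1 Complex.log ((fun q : (Fin 6 → ℂ) × ℝ => q.1 (j + 1) / q.1 j) (w, t)) :=
      hlog _ (hw.im_pos j)
    exact h2.comp (w, t) h1
  have hd2 : ∀ j : Fin 6, ContDiffAt ℝ 1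
      (fun q : (Fin 6 → ℂ) × ℝ => Complex.log (linOf q.1 (zk (j + 1)) / linOf q.1 (zk j)))
      (w, t) := by
    intro j
    have h1 : ContDiffAt ℝ 1
        (fun q : (Fin 6 → ℂ) × ℝ => linOf q.1 (zk (j + 1)) / linOf q.1 (zk j)) (w, t) := by
      simp only [div_eq_mul_inv]
      exact (hlin _).mul ((hlin _).inv (hv.ne j))
    have h2 : ContDiffAt ℝ 1 Complex.log
        ((fun q : (Fin 6 → ℂ) × ℝ => linOf q.1 (zk (j + 1)) / linOf q.1 (zk j)) (w, t)) :=
      hlog _ (hv.im_pos j)
    exact h2.comp (w, t) h1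
  have hmu : ContDiffAt ℝ 1 (fun q : (Fin 6 → ℂ) × ℝ => muk q.1 k) (w, t) := by
    unfold muk
    apply ContDiffAt.sum
    intro j _
    exact (hd1 j).sub (hd2 j)
  have ht : ContDiffAt ℝ 1 (fun q : (Fin 6 → ℂ) × ℝ => (1 - (q.2 : ℂ))) (w, t) := by
    apply contDiffAt_const.sub
    exact (Complex.ofRealCLM.contDiff.comp contDiff_snd).contDiffAt
  unfold omg
  exact (hlin _).mul ((ht.mul hmu).cexp)

end SM
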