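import Pool.Agent.SM.Defs
import Pool.Agent.SM.Lat

/-!
# Project SM, module LAU
-/

open Set Metric Filter Topology MeasureTheory
open scoped ContDiff Pointwise

noncomputable section

namespace SM

/-! ### Norms in coordinates -/

theorem normSq_co (y : ℂ) : ‖y‖ ^ 2 = coA y ^ 2 + coA y * coB y + coB y ^ 2 := by
  rw [← Complex.normSq_eq_norm_sq, Complex.normSq_apply]
  conv_lhs => rw [coords y]
  rw [Complex.add_re, Complex.add_im, Complex.smul_re, Complex.smul_re, Complex.smul_im,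
    Complex.smul_im, Complex.one_re, Complex.one_im, zeta_re, zeta_im]
  simp only [smul_eq_mul]
  nlinarith [sqrt3_sq]

theorem normSq_sector (k : Fin 6) (s t : ℝ) :
    ‖s • zk k + t • zk (k + 1)‖ ^ 2 = s ^ 2 + s * t + t ^ 2 := by
  have h1 : s • zk k + t • zk (k + 1) = zk k * (s • (1 : ℂ) + t • zeta) := by
    rw [zk_succ, mul_add, mul_smul_comm, mul_smul_comm, mul_one]
  rw [h1, norm_mul, norm_zk, one_mul, normSq_co, (co_lin s t).1, (co_lin s t).2]

theorem norm_sector_le (k : Fin 6) {s t : ℝ} (hs : 0 ≤ s) (ht : 0 ≤ t) :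
    ‖s • zk k + t • zk (k + 1)‖ ≤ s + t := by
  refine (norm_add_le _ _).trans ?_
  rw [norm_smul, norm_smul, norm_zk, norm_zk, Real.norm_of_nonneg hs, Real.norm_of_nonneg ht]
  linarith

theorem norm_emb_le (v : ℤ × ℤ) : ‖emb v‖ ≤ |(v.1 : ℝ)| + |(v.2 : ℝ)| := by
  unfold emb
  refine (norm_add_le _ _).trans ?_
  have h1 : ‖zeta‖ = 1 := by rw [← zk_one, norm_zk]
  rw [norm_mul, h1, mul_one, Complex.norm_intCast, Complex.norm_intCast]

theorem emb_sub (v w : ℤ × ℤ) : emb (v - w) = emb v - emb w := by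
  have h := emb_add (v - w) w
  rw [sub_add_cancel] at h
  rw [h]
  ring

theorem one_le_norm_emb {v : ℤ × ℤ} (hv : v ≠ 0) : 1 ≤ ‖emb v‖ := by
  have h1 : ‖emb v‖ ^ 2 = (v.1 : ℝ) ^ 2 + v.1 * v.2 + (v.2 : ℝ) ^ 2 := by
    rw [← Complex.normSq_eq_norm_sq, normSq_emb]
  have h2 : (1 : ℤ) ≤ v.1 ^ 2 + v.1 * v.2 + v.2 ^ 2 := by
    by_contra hcon
    push Not at hcon
    have h3 : v.1 ^ 2 + v.1 * v.2 + v.2 ^ 2 ≤ 0 := by omega
    have h4 : v.2 = 0 := by
      by_contra h5
      have h6 : 1 ≤ v.2 ^ 2 := by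
        have := sq_nonneg v.2
        have h7 : v.2 ^ 2 ≠ 0 := pow_ne_zero 2 h5
        omega
      nlinarith [sq_nonneg (2 * v.1 + v.2)]
    have h5 : v.1 = 0 := by
      rw [h4] at h3
      have h6 : v.1 ^ 2 ≤ 0 := by linarith
      have h7 := sq_nonneg v.1
      have h8 : v.1 ^ 2 = 0 := le_antisymm h6 h7
      exact pow_eq_zero_iff (two_ne_zero) |>.mp h8
    exact hv (Prod.ext h5 h4)
  have h3 : (1 : ℝ) ≤ ‖emb v‖ ^ 2 := by
    rw [h1]
    exact_mod_cast h2
  have h4 : 0 ≤ ‖emb v‖ := norm_nonneg _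
  nlinarith

theorem one_le_norm_emb_sub {v w : ℤ × ℤ} (hv : v ≠ w) : 1 ≤ ‖emb v - emb w‖ := by
  rw [← emb_sub]
  exact one_le_norm_emb (sub_ne_zero.mpr hv)

private theorem tri_bound {s t : ℝ} (hs : 0 ≤ s) (ht : 0 ≤ t) (hst : s + t ≤ 1) :
    s ^ 2 + s * t + t ^ 2 ≤ 1 / 3 ∨ (s - 1) ^ 2 + (s - 1) * t + t ^ 2 ≤ 1 / 3 ∨
      s ^ 2 + s * (t - 1) + (t - 1) ^ 2 ≤ 1 / 3 := by
  by_contra hcon
  push Not at hcon
  obtain ⟨h1, h2, h3⟩ := hcon
  have k1 : 0 ≤ (1 - s - t) * (s ^ 2 + s * t + t ^ 2 - 1 / 3) :=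
    mul_nonneg (by linarith) (by linarith)
  have k2 : 0 ≤ s * ((s - 1) ^ 2 + (s - 1) * t + t ^ 2 - 1 / 3) :=
    mul_nonneg hs (by linarith)
  have k3 : 0 ≤ t * (s ^ 2 + s * (t - 1) + (t - 1) ^ 2 - 1 / 3) :=
    mul_nonneg ht (by linarith)
  have k4 : 0 ≤ (s - 1 / 3) ^ 2 + (s - 1 / 3) * (t - 1 / 3) + (t - 1 / 3) ^ 2 := by
    nlinarith [sq_nonneg (2 * (s - 1 / 3) + (t - 1 / 3)), sq_nonneg (t - 1 / 3)]
  have hsum : (1 - s - t) * (s ^ 2 + s * t + t ^ 2 - 1 / 3) +
      s * ((s - 1) ^ 2 + (s - 1) * t + t ^ 2 - 1 / 3) +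
      t * (s ^ 2 + s * (t - 1) + (t - 1) ^ 2 - 1 / 3) +
      ((s - 1 / 3) ^ 2 + (s - 1 / 3) * (t - 1 / 3) + (t - 1 / 3) ^ 2) = 0 := by ring
  rcases lt_or_ge 0 (1 - s - t) with h4 | h4
  · have := mul_pos h4 (by linarith : 0 < s ^ 2 + s * t + t ^ 2 - 1 / 3)
    linarith
  · rcases lt_or_ge 0 s with h5 | h5
    · have := mul_pos h5 (by linarith : 0 < (s - 1) ^ 2 + (s - 1) * t + t ^ 2 - 1 / 3)
      linarith
    · have h6 : 0 < t := by linarith
      have := mul_pos h6 (by linarith : 0 < s ^ 2 + s * (t - 1) + (t - 1) ^ 2 - 1 / 3)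
      linarith

private theorem near_lattice (x : ℂ) : ∃ v : ℤ × ℤ, ‖x - emb v‖ ^ 2 ≤ 1 / 3 := by
  have hform : ∀ m n : ℤ, ‖x - emb (m, n)‖ ^ 2 = (coA x - m) ^ 2 + (coA x - m) * (coB x - n) +
      (coB x - n) ^ 2 := by
    intro m n
    rw [normSq_co, coA_sub, coB_sub, coA_emb, coB_emb]
  have ha0 := Int.floor_le (coA x)
  have ha1 := Int.lt_floor_add_one (coA x)
  have hb0 := Int.floor_le (coB x)
  have hb1 := Int.lt_floor_add_one (coB x)
  set m := ⌊coA x⌋ with hm
  set n := ⌊coB x⌋ with hn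
  rcases le_total (coA x - m + (coB x - n)) 1 with h | h
  · rcases tri_bound (s := coA x - m) (t := coB x - n) (by linarith) (by linarith) h with
      h1 | h1 | h1
    · refine ⟨(m, n), ?_⟩
      rw [hform]
      exact h1
    · refine ⟨(m + 1, n), ?_⟩
      rw [hform]
      push_cast
      linarith
    · refine ⟨(m, n + 1), ?_⟩
      rw [hform]
      push_cast
      linarith
  · rcases tri_bound (s := 1 - (coA x - m)) (t := 1 - (coB x - n)) (by linarith) (by linarith)
      (by linarith) with h1 | h1 | h1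
    · refine ⟨(m + 1, n + 1), ?_⟩
      rw [hform]
      push_cast
      linarith
    · refine ⟨(m, n + 1), ?_⟩
      rw [hform]
      push_cast
      linarith
    · refine ⟨(m + 1, n), ?_⟩
      rw [hform]
      push_cast
      linarith

theorem inv_sqrt3_sq : (1 / Real.sqrt 3) ^ 2 = 1 / 3 := by
  rw [div_pow, one_pow, Real.sq_sqrt (by norm_num)]

theorem finite_near (x : ℂ) (R : ℝ) : {v : ℤ × ℤ | ‖x - emb v‖ ≤ R}.Finite := by
  have hfin : ∀ c : ℝ, {m : ℤ | |c - m| ≤ 2 * R}.Finite := by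
    intro c
    apply (Set.finite_Icc ⌊c - 2 * R⌋ ⌈c + 2 * R⌉).subset
    intro m hm
    have h1 : |c - m| ≤ 2 * R := hm
    rw [abs_le] at h1
    constructor
    · have : (⌊c - 2 * R⌋ : ℝ) ≤ m := (Int.floor_le _).trans (by linarith)
      exact_mod_cast this
    · have : (m : ℝ) ≤ ⌈c + 2 * R⌉ := le_trans (by linarith) (Int.le_ceil _)
      exact_mod_cast this
  apply ((hfin (coA x)).prod (hfin (coB x))).subset
  rintro ⟨m, n⟩ h
  have h0 : ‖x - emb (m, n)‖ ≤ R := h
  have h1 := abs_coA_le (x - emb (m, n))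
  have h2 := abs_coB_le (x - emb (m, n))
  rw [coA_sub, coA_emb] at h1
  rw [coB_sub, coB_emb] at h2
  constructor
  · show |coA x - m| ≤ 2 * R
    linarith
  · show |coB x - n| ≤ 2 * R
    refine h2.trans ?_
    have h3 : 2 / Real.sqrt 3 ≤ 2 := by
      have := inv_sqrt3_le
      calc 2 / Real.sqrt 3 = 2 * (1 / Real.sqrt 3) := by ring
        _ ≤ 2 * 1 := by linarith
        _ = 2 := by ring
    calc 2 / Real.sqrt 3 * ‖x - emb (m, n)‖ ≤ 2 * ‖x - emb (m, n)‖ :=
          mul_le_mul_of_nonneg_right h3 (norm_nonneg _)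
      _ ≤ 2 * R := by linarith

/-- the nearest lattice point -/
theorem exists_nearest (x : ℂ) : ∃ v : ℤ × ℤ, (∀ v', ‖x - emb v‖ ≤ ‖x - emb v'‖) ∧
    ‖x - emb v‖ ≤ 1 / Real.sqrt 3 ∧ ∀ v', v' ≠ v → 1 / 2 ≤ ‖x - emb v'‖ := by
  obtain ⟨v₀, hv₀⟩ := near_lattice x
  have hle : ‖x - emb v₀‖ ≤ 1 / Real.sqrt 3 := by
    rw [← inv_sqrt3_sq] at hv₀
    exact le_of_sq_le_sq hv₀ (by have := sqrt3_pos; positivity)
  obtain ⟨v, hv, hmin⟩ := Set.exists_min_image _ (fun v => ‖x - emb v‖)
    (finite_near x (1 / Real.sqrt 3)) ⟨v₀, hle⟩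
  have hmin' : ∀ v', ‖x - emb v‖ ≤ ‖x - emb v'‖ := by
    intro v'
    by_cases h : ‖x - emb v'‖ ≤ 1 / Real.sqrt 3
    · exact hmin v' h
    · exact hv.trans (not_le.mp h).le
  refine ⟨v, hmin', hv, ?_⟩
  intro v' hne
  have h1 := one_le_norm_emb_sub hne
  have h2 := hmin' v'
  have h3 : ‖emb v' - emb v‖ ≤ ‖x - emb v‖ + ‖x - emb v'‖ := by
    have : emb v' - emb v = (x - emb v) - (x - emb v') := by ring
    rw [this]
    exact norm_sub_le _ _
  linarith

/-! ### The hat function -/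

theorem sum_phik_sector (k : Fin 6) {s t : ℝ} (hs : 0 ≤ s) (ht : 0 ≤ t) :
    ∑ j, phik j (s • zk k + t • zk (k + 1)) = s + t := by
  simp only [phik_sector k hs ht, Finset.sum_add_distrib, Finset.sum_ite_eq', Finset.mem_univ,
    if_true]

theorem norm_le_sum_phik (y : ℂ) : ‖y‖ ≤ ∑ j, phik j y := by
  obtain ⟨k, s, hs, t, ht, rfl⟩ := exists_sector y
  rw [sum_phik_sector k hs ht]
  exact norm_sector_le k hs ht

theorem hatf_zero {y : ℂ} (hy : 1 ≤ ‖y‖) : hatf y = 0 := by
  unfold hatf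
  apply max_eq_left
  have := norm_le_sum_phik y
  linarith

theorem hatf_lip (y y' : ℂ) : |hatf y - hatf y'| ≤ 12 * ‖y - y'‖ := by
  unfold hatf
  refine (abs_max_sub_max_le_max _ _ _ _).trans ?_
  rw [sub_self, abs_zero]
  apply max_le (by positivity)
  have h1 : (1 - ∑ k, phik k y) - (1 - ∑ k, phik k y') = ∑ k, (phik k y' - phik k y) := by
    rw [Finset.sum_sub_distrib]
    ring
  rw [h1]
  refine (Finset.abs_sum_le_sum_abs _ _).trans ?_
  have h2 : ∀ k : Fin 6, |phik k y' - phik k y| ≤ 2 * ‖y - y'‖ := by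
    intro k
    rw [norm_sub_rev]
    exact phik_lip k y' y
  calc ∑ k : Fin 6, |phik k y' - phik k y| ≤ ∑ k : Fin 6, 2 * ‖y - y'‖ :=
        Finset.sum_le_sum (fun k _ => h2 k)
    _ = 12 * ‖y - y'‖ := by
        rw [Finset.sum_const, Finset.card_univ, Fintype.card_fin]
        simp only [nsmul_eq_mul]
        push_cast
        ring

/-- The hexagonal norm. -/
def hexn (y : ℂ) : ℝ := max |coA y| (max |coA y + coB y| |coB y|)

theorem hexn_rot (y : ℂ) (k : Fin 6) :
    hexn y = max |rotA y k| (max |rotA y (k + 1)| |rotA y (k + 2)|) := by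
  have e0 : ∀ a b c : ℝ, max a (max b c) = max b (max c a) := by
    intro a b c
    rw [max_comm a, max_assoc]
  fin_cases k
  · rfl
  · show hexn y = max |coA y + coB y| (max |coB y| |-coA y|)
    rw [abs_neg, hexn, e0]
  · show hexn y = max |coB y| (max |-coA y| |-coA y - coB y|)
    have h1 : |-coA y - coB y| = |coA y + coB y| := by
      rw [← abs_neg]
      congr 1
      ring
    rw [abs_neg, h1, hexn, e0, e0]
  · show hexn y = max |-coA y| (max |-coA y - coB y| |-coB y|)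
    have h1 : |-coA y - coB y| = |coA y + coB y| := by
      rw [← abs_neg]
      congr 1
      ring
    rw [abs_neg, h1, abs_neg, hexn]
  · show hexn y = max |-coA y - coB y| (max |-coB y| |coA y|)
    have h1 : |-coA y - coB y| = |coA y + coB y| := by
      rw [← abs_neg]
      congr 1
      ring
    rw [abs_neg, h1, hexn, e0]
  · show hexn y = max |-coB y| (max |coA y| |coA y + coB y|)
    rw [abs_neg, hexn, e0, e0]

theorem hexn_comb (k : Fin 6) (s t : ℝ) :
    hexn (s • zk k + t • zk (k + 1)) = max |s| (max |s + t| |t|) := by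
  rw [hexn_rot _ k, rotA_sector, rotA_sector, rotA_sector]
  have h1 : k - k = 0 := sub_self k
  have h2 : k - (k + 1) = 5 := by
    have : ∀ a : Fin 6, a - (a + 1) = 5 := by decide
    exact this k
  have h3 : k - (k + 2) = 4 := by
    have : ∀ a : Fin 6, a - (a + 2) = 4 := by decide
    exact this k
  rw [h1, h2, h3]
  have c0 : coA (zk 0) = 1 := by rw [coA_zk]; rfl
  have c1 : coA (zk (0 + 1)) = 0 := by rw [coA_zk]; rfl
  have c2 : coA (zk 5) = 1 := by rw [coA_zk]; rfl
  have c3 : coA (zk (5 + 1)) = 1 := by rw [coA_zk]; rfl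
  have c4 : coA (zk 4) = 0 := by rw [coA_zk]; rfl
  have c5 : coA (zk (4 + 1)) = 1 := by rw [coA_zk]; rfl
  rw [c0, c1, c2, c3, c4, c5]
  simp

theorem sum_phik_eq (y : ℂ) : ∑ j, phik j y = hexn y := by
  obtain ⟨k, s, hs, t, ht, rfl⟩ := exists_sector y
  rw [sum_phik_sector k hs ht, hexn_comb, abs_of_nonneg hs, abs_of_nonneg ht,
    abs_of_nonneg (add_nonneg hs ht), max_eq_left (by linarith : t ≤ s + t),
    max_eq_right (by linarith)]

theorem hatf_eq (y : ℂ) : hatf y = max 0 (1 - hexn y) := by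
  unfold hatf
  rw [sum_phik_eq]

theorem hatf_comb (k : Fin 6) (s t : ℝ) :
    hatf (s • zk k + t • zk (k + 1)) = max 0 (1 - max |s| (max |s + t| |t|)) := by
  rw [hatf_eq, hexn_comb]

/-- Integer coordinates with respect to two consecutive directions. -/
theorem exists_int_coords (k : Fin 6) (d : ℤ × ℤ) :
    ∃ m n : ℤ, d = (m * (dir k).1 + n * (dir (k + 1)).1, m * (dir k).2 + n * (dir (k + 1)).2) := by
  refine ⟨d.1 * (dir (k + 1)).2 - d.2 * (dir (k + 1)).1, (dir k).1 * d.2 - (dir k).2 * d.1, ?_⟩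
  have hdet : (dir k).1 * (dir (k + 1)).2 - (dir k).2 * (dir (k + 1)).1 = 1 := by
    fin_cases k <;> rfl
  apply Prod.ext
  · show d.1 = _
    simp only
    linear_combination (-d.1) * hdet
  · show d.2 = _
    simp only
    linear_combination (-d.2) * hdet

theorem emb_comb (k : Fin 6) (m n : ℤ) :
    emb (m * (dir k).1 + n * (dir (k + 1)).1, m * (dir k).2 + n * (dir (k + 1)).2) =
      (m : ℝ) • zk k + (n : ℝ) • zk (k + 1) := by
  unfold zk emb
  simp only [Complex.real_smul]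
  push_cast
  ring

theorem hatf_far (k : Fin 6) {s t : ℝ} (hs : 0 ≤ s) (ht : 0 ≤ t) (hst : s + t ≤ 1) {d : ℤ × ℤ}
    (h0 : d ≠ 0) (h1 : d ≠ dir k) (h2 : d ≠ dir (k + 1)) :
    hatf (s • zk k + t • zk (k + 1) - emb d) = 0 := by
  obtain ⟨m, n, hd⟩ := exists_int_coords k d
  have e1 : s • zk k + t • zk (k + 1) - emb d =
      (s - m) • zk k + (t - n) • zk (k + 1) := by
    rw [hd, emb_comb]
    module
  rw [e1, hatf_comb]
  apply max_eq_left
  by_contra hcon
  push Not at hcon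
  have hlt : max |s - m| (max |s - m + (t - n)| |t - n|) < 1 := by linarith
  rw [max_lt_iff, max_lt_iff, abs_lt, abs_lt, abs_lt] at hlt
  obtain ⟨⟨a1, a2⟩, ⟨b1, b2⟩, c1, c2⟩ := hlt
  have m1 : (m : ℝ) < 2 := by linarith
  have m0 : (-1 : ℝ) < m := by linarith
  have n1 : (n : ℝ) < 2 := by linarith
  have n0 : (-1 : ℝ) < n := by linarith
  have mn : (m : ℝ) + n < 2 := by linarith
  have m1' : m < 2 := by exact_mod_cast m1
  have m0' : -1 < m := by exact_mod_cast m0
  have n1' : n < 2 := by exact_mod_cast n1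
  have n0' : -1 < n := by exact_mod_cast n0
  have mn' : m + n < 2 := by exact_mod_cast mn
  have hcases : (m = 0 ∧ n = 0) ∨ (m = 1 ∧ n = 0) ∨ (m = 0 ∧ n = 1) := by omega
  rcases hcases with ⟨rfl, rfl⟩ | ⟨rfl, rfl⟩ | ⟨rfl, rfl⟩
  · apply h0
    rw [hd]
    simp
  · apply h1
    rw [hd]
    simp
  · apply h2
    rw [hd]
    simp

/-- the interpolation in a star -/
theorem interp_star (u : Cfg) (v : ℤ × ℤ) {y : ℂ} (hy : ‖y‖ ≤ Real.sqrt 3 / 2) :
    interp u (emb v + y) = u v + fan (star u v) y := by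
  obtain ⟨k, s, hs, t, ht, rfl⟩ := exists_sector y
  have hst : s + t ≤ 1 := by
    have h1 := normSq_sector k s t
    have h2 : ‖s • zk k + t • zk (k + 1)‖ ^ 2 ≤ (Real.sqrt 3 / 2) ^ 2 :=
      pow_le_pow_left₀ (norm_nonneg _) hy 2
    have h3 : (Real.sqrt 3 / 2) ^ 2 = 3 / 4 := by
      rw [div_pow, Real.sq_sqrt (by norm_num)]
      norm_num
    rw [h1, h3] at h2
    nlinarith [sq_nonneg (s - t)]
  rw [fan_sector _ k hs ht]
  unfold interp
  have hne1 : v ≠ v + dir k := by
    intro h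
    have h1 : dir k = 0 := by
      have := congrArg (fun w => w - v) h
      simpa using this.symm
    have hd : ∀ k : Fin 6, dir k ≠ 0 := by decide
    exact hd k h1
  have hne2 : v ≠ v + dir (k + 1) := by
    intro h
    have h1 : dir (k + 1) = 0 := by
      have := congrArg (fun w => w - v) h
      simpa using this.symm
    have hd : ∀ k : Fin 6, dir k ≠ 0 := by decide
    exact hd (k + 1) h1
  have hne3 : v + dir k ≠ v + dir (k + 1) := by
    intro h
    have h1 := add_left_cancel h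
    have hd : ∀ k : Fin 6, dir k ≠ dir (k + 1) := by decide
    exact hd k h1
  have hsupp : Function.support (fun w => hatf (emb v + (s • zk k + t • zk (k + 1)) - emb w) •
      (u w - emb w)) ⊆ (({v, v + dir k, v + dir (k + 1)} : Finset (ℤ × ℤ)) : Set (ℤ × ℤ)) := by
    intro w hw
    by_contra hcon
    apply hw
    simp only [Finset.coe_insert, Finset.coe_singleton, mem_insert_iff, mem_singleton_iff,
      not_or] at hcon
    obtain ⟨g1, g2, g3⟩ := hcon
    have e1 : emb v + (s • zk k + t • zk (k + 1)) - emb w =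
        s • zk k + t • zk (k + 1) - emb (w - v) := by
      rw [emb_sub]
      ring
    show hatf (emb v + (s • zk k + t • zk (k + 1)) - emb w) • (u w - emb w) = 0
    rw [e1, hatf_far k hs ht hst, zero_smul]
    · intro h
      exact g1 (sub_eq_zero.mp h)
    · intro h
      apply g2
      rw [← h]
      abel
    · intro h
      apply g3
      rw [← h]
      abel
  rw [finsum_eq_sum_of_support_subset _ hsupp, Finset.sum_insert, Finset.sum_insert,
    Finset.sum_singleton]
  · have f1 : hatf (emb v + (s • zk k + t • zk (k + 1)) - emb v) = 1 - s - t := by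
      have : emb v + (s • zk k + t • zk (k + 1)) - emb v = s • zk k + t • zk (k + 1) := by ring
      rw [this, hatf_comb, abs_of_nonneg hs, abs_of_nonneg ht, abs_of_nonneg (add_nonneg hs ht),
        max_eq_left (by linarith : t ≤ s + t), max_eq_right (by linarith : s ≤ s + t),
        max_eq_right (by linarith)]
      ring
    have f2 : hatf (emb v + (s • zk k + t • zk (k + 1)) - emb (v + dir k)) = s := by
      have : emb v + (s • zk k + t • zk (k + 1)) - emb (v + dir k) =
          (s - 1) • zk k + t • zk (k + 1) := by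
        rw [emb_add]
        show emb v + (s • zk k + t • zk (k + 1)) - (emb v + zk k) = _
        module
      rw [this, hatf_comb, abs_of_nonpos (by linarith : s - 1 ≤ 0), abs_of_nonneg ht,
        abs_of_nonpos (by linarith : s - 1 + t ≤ 0)]
      rw [max_eq_left (max_le (by linarith) (by linarith)), max_eq_right (by linarith)]
      ring
    have f3 : hatf (emb v + (s • zk k + t • zk (k + 1)) - emb (v + dir (k + 1))) = t := by
      have : emb v + (s • zk k + t • zk (k + 1)) - emb (v + dir (k + 1)) =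
          s • zk k + (t - 1) • zk (k + 1) := by
        rw [emb_add]
        show emb v + (s • zk k + t • zk (k + 1)) - (emb v + zk (k + 1)) = _
        module
      rw [this, hatf_comb, abs_of_nonpos (by linarith : t - 1 ≤ 0), abs_of_nonneg hs,
        abs_of_nonpos (by linarith : s + (t - 1) ≤ 0)]
      rw [max_eq_right (by linarith : -(s + (t - 1)) ≤ -(t - 1)),
        max_eq_right (by linarith : s ≤ -(t - 1)), max_eq_right (by linarith)]
      ring
    rw [f1, f2, f3, emb_add, emb_add]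
    show emb v + (s • zk k + t • zk (k + 1)) + ((1 - s - t) • (u v - emb v) +
      (s • (u (v + dir k) - (emb v + zk k)) + t • (u (v + dir (k + 1)) - (emb v + zk (k + 1))))) =
      u v + (s • (u (v + dir k) - u v) + t • (u (v + dir (k + 1)) - u v))
    module
  · rw [Finset.mem_singleton]
    exact hne3
  · rw [Finset.mem_insert, Finset.mem_singleton, not_or]
    exact ⟨hne1, hne2⟩

theorem interp_of_idOut {n : ℕ} {u : Cfg} (hu : IdOut n u) {x : ℂ} (hx : 2 * (n : ℝ) + 2 ≤ ‖x‖) :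
    interp u x = x := by
  unfold interp
  have h : ∀ v, hatf (x - emb v) • (u v - emb v) = 0 := by
    intro v
    by_cases hv : |v.1| < n ∧ |v.2| < n
    · have h1 : ‖emb v‖ ≤ 2 * n := by
        refine (norm_emb_le v).trans ?_
        have h2 : |(v.1 : ℝ)| < n := by exact_mod_cast hv.1
        have h3 : |(v.2 : ℝ)| < n := by exact_mod_cast hv.2
        linarith
      have h2 : ‖x‖ - ‖emb v‖ ≤ ‖x - emb v‖ := norm_sub_norm_le _ _
      rw [hatf_zero (by linarith), zero_smul]
    · rw [hu v hv, sub_self, smul_zero]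
  simp only [h, finsum_zero, add_zero]

end SM
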