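import Pool.Agent.SM.Defs
import Pool.Agent.SM.Cut
import Pool.Agent.SM.Lat
import Pool.Agent.SM.Lau
import Pool.Agent.SM.Fnb

/-!
# Project SM, module KMA
-/

open Set Metric Filter Topology MeasureTheory
open scoped ContDiff Pointwise

noncomputable section

namespace SM

/-- the local form of `kmod` -/
theorem kmod_local {u : Cfg} (hu : ValidCfg u) {M : ℝ} (hM : 0 < M) {v : ℤ × ℤ} {y : ℂ}
    (hy : ‖y‖ ≤ Real.sqrt 3 / 2) (hfar : ∀ v', v' ≠ v → 1 / 4 ≤ ‖emb v + y - emb v'‖) :
    kmod u M (emb v + y) = u v + fan (omg (star u v) (cut M (4 * ‖y‖))) y := by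
  unfold kmod
  split_ifs with H
  · have hv : H.choose = v := by
      by_contra hne
      have h1 := hfar _ hne
      have h2 := H.choose_spec
      linarith
    rw [hv]
    have e : emb v + y - emb v = y := by ring
    rw [e]
  · have hge : 1 / 4 ≤ ‖y‖ := by
      by_contra hlt
      apply H
      refine ⟨v, ?_⟩
      have e : emb v + y - emb v = y := by ring
      rw [e]
      exact not_le.1 hlt
    rw [cut_of_one_le hM (by linarith), omg_zero (hu v), interp_star u v hy]

private lemma star_emb (v : ℤ × ℤ) : star emb v = zk := by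
  funext k
  unfold star
  rw [emb_add]
  unfold zk
  ring

private lemma validFan_zk' : ValidFan zk := by
  intro k
  rw [crs_zk]
  positivity

private lemma linOf_zk' (y : ℂ) : linOf zk y = y := by
  have h0 : zk 0 = 1 := by rw [zk_eq]; simp
  have h1 : zk 1 = zeta := by rw [zk_eq]; simp
  unfold linOf
  rw [h0, h1]
  exact (coords y).symm

theorem kmod_emb {M : ℝ} (hM : 0 < M) : kmod emb M = id := by
  funext x
  unfold kmod
  split_ifs with H
  · rw [star_emb, omg_linOf validFan_zk' (fun k => (linOf_zk' _).symm), fan_id]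
    simp
  · unfold interp
    simp

theorem wind_step {n : ℕ} {u u' : Cfg} (h : ValidStep n u u')
    (hw : ∀ v, wind (star u' v) = 2 * Real.pi * Complex.I) :
    ∀ v, wind (star u v) = 2 * Real.pi * Complex.I := by
  intro v
  set f : ℝ → ℂ := fun s => wind (star (fun v => (1 - s) • u v + s • u' v) v) with hf
  have hval : ∀ s ∈ Icc (0 : ℝ) 1, ValidFan (star (fun v => (1 - s) • u v + s • u' v) v) :=
    fun s hs => h.2.2 s hs v
  have hstar : Continuous (fun s : ℝ => star (fun v => (1 - s) • u v + s • u' v) v) := by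
    rw [continuous_pi_iff]
    intro k
    unfold star
    fun_prop
  have hcont : ContinuousOn f (Icc (0 : ℝ) 1) :=
    continuousOn_wind.comp hstar.continuousOn (fun s hs => hval s hs)
  have hmaps : MapsTo f (Icc (0 : ℝ) 1) {2 * Real.pi * Complex.I, 4 * Real.pi * Complex.I} := by
    intro s hs
    rcases wind_values (hval s hs) with h1 | h1
    · exact Or.inl h1
    · exact Or.inr h1
  obtain ⟨y, -, hy⟩ := isPreconnected_Icc.eqOn_const_of_mapsTo
    ((Set.toFinite {2 * Real.pi * Complex.I, 4 * Real.pi * Complex.I}).isDiscrete) hcont hmaps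
    ⟨2 * Real.pi * Complex.I, Or.inl rfl⟩
  have h0 : f 0 = y := hy ⟨le_refl _, zero_le_one⟩
  have h1 : f 1 = y := hy ⟨zero_le_one, le_refl _⟩
  have e0 : f 0 = wind (star u v) := by
    have : (fun v => (1 - (0 : ℝ)) • u v + (0 : ℝ) • u' v) = u := by
      funext v; simp
    show wind (star (fun v => (1 - (0 : ℝ)) • u v + (0 : ℝ) • u' v) v) = _
    rw [this]
  have e1 : f 1 = wind (star u' v) := by
    have : (fun v => (1 - (1 : ℝ)) • u v + (1 : ℝ) • u' v) = u' := by
      funext v; simp
    show wind (star (fun v => (1 - (1 : ℝ)) • u v + (1 : ℝ) • u' v) v) = _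
    rw [this]
  rw [← e0, h0, ← h1, e1, hw v]

end SM
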