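import Pool.Agent.SM.Defs
import Pool.Agent.SM.Sec
import Pool.Agent.SM.Hc
import Pool.Agent.SM.Lat

/-!
# Project SM, module FNA
-/

open Set Metric Filter Topology MeasureTheory
open scoped ContDiff Pointwise

noncomputable section

namespace SM

/-- A convex compact set of injective linear maps is good. -/
theorem goodSet_of_injective {X Y : Type*} [NormedAddCommGroup X] [NormedSpace ℝ X]
    [FiniteDimensional ℝ X] [NormedAddCommGroup Y] [NormedSpace ℝ Y]
    {K : Set (X →L[ℝ] Y)} (hc : Convex ℝ K) (hK : IsCompact K)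
    (hinj : ∀ M ∈ K, ∀ v, M v = 0 → v = 0) : ∃ c > 0, GoodSet c K := by
  have : ProperSpace X := FiniteDimensional.proper ℝ X
  have hS : IsCompact (sphere (0 : X) 1) := isCompact_sphere 0 1
  have hcomp : IsCompact (K ×ˢ sphere (0 : X) 1) := hK.prod hS
  have hcont : Continuous (fun z : (X →L[ℝ] Y) × X => ‖z.1 z.2‖) := by
    exact (isBoundedBilinearMap_apply.continuous).norm
  obtain ⟨c, hc0, hcl⟩ : ∃ c > 0, ∀ z ∈ K ×ˢ sphere (0 : X) 1, c ≤ ‖z.1 z.2‖ := by
    rcases (K ×ˢ sphere (0 : X) 1).eq_empty_or_nonempty with h | h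
    · refine ⟨1, one_pos, fun z hz => ?_⟩
      rw [h] at hz
      exact absurd hz (notMem_empty z)
    · obtain ⟨z, hz, hmin⟩ := hcomp.exists_isMinOn h hcont.continuousOn
      refine ⟨‖z.1 z.2‖, ?_, fun z' hz' => hmin hz'⟩
      rw [gt_iff_lt, norm_pos_iff]
      intro h0
      have h1 := hinj z.1 hz.1 z.2 h0
      have h2 : ‖z.2‖ = 1 := by simpa using hz.2
      rw [h1, norm_zero] at h2
      exact zero_ne_one h2
  refine ⟨c, hc0, hc, hK, ?_⟩
  intro M hM x
  rcases eq_or_ne x 0 with rfl | hx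
  · simp
  · have hx' : 0 < ‖x‖ := norm_pos_iff.mpr hx
    have h1 : ‖‖x‖⁻¹ • x‖ = 1 := by
      rw [norm_smul, norm_inv, norm_norm, inv_mul_cancel₀ hx'.ne']
    have h2 := hcl (M, ‖x‖⁻¹ • x) ⟨hM, by simpa using h1⟩
    simp only [map_smul, norm_smul, norm_inv, norm_norm] at h2
    rw [le_inv_mul_iff₀ hx'] at h2
    linarith

/-- Scaling of good families of positively homogeneous maps. -/
theorem famGood_scale {X Y P : Type*} [NormedAddCommGroup X] [NormedSpace ℝ X]
    [NormedAddCommGroup Y] [NormedSpace ℝ Y] [TopologicalSpace P] {c : ℝ} {h : P → X → Y} {p : P}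
    {u : X} (hh : ∀ q, PosHom (h q)) (hg : FamGood c h p u) {a : ℝ} (ha : 0 < a) :
    FamGood c h p (a • u) := by
  obtain ⟨K, hK, r, hr, H⟩ := hg
  refine ⟨K, hK, a * r, mul_pos ha hr, ?_⟩
  filter_upwards [H] with q hq x hx x' hx'
  have key : ∀ y ∈ ball (a • u) (a * r), a⁻¹ • y ∈ ball u r := by
    intro y hy
    rw [mem_ball_iff_norm] at hy ⊢
    have h1 : a⁻¹ • y - u = a⁻¹ • (y - a • u) := by
      rw [smul_sub, smul_smul, inv_mul_cancel₀ ha.ne', one_smul]
    rw [h1, norm_smul, norm_inv, Real.norm_of_nonneg ha.le, inv_mul_lt_iff₀ ha]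
    exact hy
  obtain ⟨M, hM, hM'⟩ := hq _ (key x hx) _ (key x' hx')
  refine ⟨M, hM, ?_⟩
  have e : ∀ y : X, h q y = a • h q (a⁻¹ • y) := by
    intro y
    rw [← hh q a ha.le, smul_smul, mul_inv_cancel₀ ha.ne', one_smul]
  rw [e x, e x', ← smul_sub, hM', ← map_smul, ← smul_sub, smul_smul, mul_inv_cancel₀ ha.ne',
    one_smul]

/-! ### Linear maps given by the images of two consecutive directions -/

theorem abs_coB_le' (y : ℂ) : |coB y| ≤ 2 * ‖y‖ := by
  refine (abs_coB_le y).trans (mul_le_mul_of_nonneg_right ?_ (norm_nonneg y))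
  have := inv_sqrt3_le
  calc 2 / Real.sqrt 3 = 2 * (1 / Real.sqrt 3) := by ring
    _ ≤ 2 * 1 := by linarith
    _ = 2 := by ring

/-- The real linear map with `zk k ↦ p` and `zk (k + 1) ↦ q`. -/
def lmk (k : Fin 6) (p q : ℂ) : ℂ →L[ℝ] ℂ :=
  LinearMap.mkContinuous
    { toFun := fun y => coA (y * (starRingEnd ℂ) (zk k)) • p +
        coB (y * (starRingEnd ℂ) (zk k)) • q
      map_add' := by
        intro x y
        simp only [add_mul, coA_add, coB_add, add_smul]
        abel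
      map_smul' := by
        intro s x
        simp only [smul_mul_assoc, coA_smul, coB_smul, RingHom.id_apply, smul_add, mul_smul] }
    (2 * (‖p‖ + ‖q‖)) (by
      intro y
      simp only [LinearMap.coe_mk, AddHom.coe_mk]
      have hn : ‖y * (starRingEnd ℂ) (zk k)‖ = ‖y‖ := by
        rw [norm_mul, RCLike.norm_conj, norm_zk, mul_one]
      have h1 := abs_coA_le (y * (starRingEnd ℂ) (zk k))
      have h2 := abs_coB_le' (y * (starRingEnd ℂ) (zk k))
      rw [hn] at h1 h2
      refine (norm_add_le _ _).trans ?_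
      rw [norm_smul, norm_smul, Real.norm_eq_abs, Real.norm_eq_abs]
      calc _ ≤ 2 * ‖y‖ * ‖p‖ + 2 * ‖y‖ * ‖q‖ := add_le_add
            (mul_le_mul_of_nonneg_right h1 (norm_nonneg _))
            (mul_le_mul_of_nonneg_right h2 (norm_nonneg _))
        _ = 2 * (‖p‖ + ‖q‖) * ‖y‖ := by ring)

theorem lmk_apply (k : Fin 6) (p q y : ℂ) : lmk k p q y =
    coA (y * (starRingEnd ℂ) (zk k)) • p + coB (y * (starRingEnd ℂ) (zk k)) • q := rfl

theorem lmk_bound (k : Fin 6) (p q y : ℂ) : ‖lmk k p q y‖ ≤ 2 * (‖p‖ + ‖q‖) * ‖y‖ := by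
  rw [lmk_apply]
  have hn : ‖y * (starRingEnd ℂ) (zk k)‖ = ‖y‖ := by
    rw [norm_mul, RCLike.norm_conj, norm_zk, mul_one]
  have h1 := abs_coA_le (y * (starRingEnd ℂ) (zk k))
  have h2 := abs_coB_le' (y * (starRingEnd ℂ) (zk k))
  rw [hn] at h1 h2
  refine (norm_add_le _ _).trans ?_
  rw [norm_smul, norm_smul, Real.norm_eq_abs, Real.norm_eq_abs]
  calc _ ≤ 2 * ‖y‖ * ‖p‖ + 2 * ‖y‖ * ‖q‖ := add_le_add
        (mul_le_mul_of_nonneg_right h1 (norm_nonneg _))
        (mul_le_mul_of_nonneg_right h2 (norm_nonneg _))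
    _ = 2 * (‖p‖ + ‖q‖) * ‖y‖ := by ring

theorem lmk_sub (k : Fin 6) (p q p' q' y : ℂ) :
    lmk k p q y - lmk k p' q' y = lmk k (p - p') (q - q') y := by
  rw [lmk_apply, lmk_apply, lmk_apply, smul_sub, smul_sub]
  abel

theorem lmk_inj {k : Fin 6} {p q : ℂ} (h : 0 < crs p q) {y : ℂ} (hy : lmk k p q y = 0) :
    y = 0 := by
  rw [lmk_apply] at hy
  set a := coA (y * (starRingEnd ℂ) (zk k)) with ha
  set b := coB (y * (starRingEnd ℂ) (zk k)) with hb
  have hre := congrArg Complex.re hy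
  have him := congrArg Complex.im hy
  simp only [Complex.add_re, Complex.add_im, Complex.smul_re, Complex.smul_im, smul_eq_mul,
    Complex.zero_re, Complex.zero_im] at hre him
  unfold crs at h
  have ha0 : a = 0 := by
    have : a * (p.re * q.im - p.im * q.re) = 0 := by
      linear_combination q.im * hre - q.re * him
    rcases mul_eq_zero.mp this with h1 | h1
    · exact h1
    · linarith
  have hb0 : b = 0 := by
    have : b * (p.re * q.im - p.im * q.re) = 0 := by
      linear_combination p.re * him - p.im * hre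
    rcases mul_eq_zero.mp this with h1 | h1
    · exact h1
    · linarith
  have h0 : y * (starRingEnd ℂ) (zk k) = 0 := by
    rw [coords (y * (starRingEnd ℂ) (zk k)), ← ha, ← hb, ha0, hb0]
    simp
  have h1 : ‖y‖ = 0 := by
    have hn : ‖y * (starRingEnd ℂ) (zk k)‖ = ‖y‖ := by
      rw [norm_mul, RCLike.norm_conj, norm_zk, mul_one]
    rw [← hn, h0, norm_zero]
  exact norm_eq_zero.mp h1

/-- coordinates in the basis `zk k`, `zk (k + 1)` -/
theorem coords_k (k : Fin 6) (y : ℂ) : y = coA (y * (starRingEnd ℂ) (zk k)) • zk k +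
    coB (y * (starRingEnd ℂ) (zk k)) • zk (k + 1) := by
  have h1 : y = (y * (starRingEnd ℂ) (zk k)) * zk k := by
    rw [mul_assoc, mul_comm ((starRingEnd ℂ) (zk k)), zk_mul_conj, mul_one]
  conv_lhs => rw [h1, coords (y * (starRingEnd ℂ) (zk k))]
  rw [zk_succ]
  simp only [Complex.real_smul]
  ring

/-- the fan map on the two sectors next to the ray `zk k` -/
theorem fan_two (w : Fin 6 → ℂ) (k : Fin 6) {s t : ℝ} (hs : 0 ≤ s) (hst : 0 ≤ s + t) :
    fan w (s • zk k + t • zk (k + 1)) = s • w k + (max t 0) • w (k + 1) +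
      (min t 0) • (w k - w (k - 1)) := by
  rcases le_total 0 t with ht | ht
  · rw [fan_sector w k hs ht, max_eq_left ht, min_eq_right ht, zero_smul, add_zero]
  · have h1 : zk (k + 1) = zk k - zk (k - 1) := by
      have h2 : zk k = zk (k - 1) * zeta := by
        rw [← zk_succ, sub_add_cancel]
      rw [zk_succ, h2]
      linear_combination (zk (k - 1)) * zeta_sq
    have h2 : s • zk k + t • zk (k + 1) = (-t) • zk (k - 1) + (s + t) • zk (k - 1 + 1) := by
      rw [h1, sub_add_cancel]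
      module
    rw [h2, fan_sector w (k - 1) (by linarith) hst, max_eq_right ht, min_eq_left ht,
      sub_add_cancel]
    module

/-- monotone splitting of a difference -/
theorem split_diff (t t' : ℝ) : ∃ θ ∈ Icc (0 : ℝ) 1, max t 0 - max t' 0 = θ * (t - t') ∧
    min t 0 - min t' 0 = (1 - θ) * (t - t') := by
  have key : ∀ a b : ℝ, a < b → ∃ θ ∈ Icc (0 : ℝ) 1, max a 0 - max b 0 = θ * (a - b) ∧
      min a 0 - min b 0 = (1 - θ) * (a - b) := by
    intro a b hab
    have hba : 0 < b - a := by linarith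
    refine ⟨(max b 0 - max a 0) / (b - a), ⟨?_, ?_⟩, ?_, ?_⟩
    · apply div_nonneg _ hba.le
      have := max_le_max_right 0 hab.le
      linarith
    · rw [div_le_one hba]
      rcases le_total a 0 with h1 | h1 <;> rcases le_total b 0 with h2 | h2 <;>
        simp [h1, h2] <;> linarith
    · field_simp
      ring
    · have h1 : min a 0 = a - max a 0 := by
        rcases le_total a 0 with h | h
        · rw [min_eq_left h, max_eq_right h]; ring
        · rw [min_eq_right h, max_eq_left h]; ring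
      have h2 : min b 0 = b - max b 0 := by
        rcases le_total b 0 with h | h
        · rw [min_eq_left h, max_eq_right h]; ring
        · rw [min_eq_right h, max_eq_left h]; ring
      rw [h1, h2]
      field_simp
      ring
  rcases lt_trichotomy t t' with h | h | h
  · exact key t t' h
  · subst h
    exact ⟨0, ⟨le_rfl, zero_le_one⟩, by ring, by ring⟩
  · obtain ⟨θ, hθ, h1, h2⟩ := key t' t h
    exact ⟨θ, hθ, by linarith, by linarith⟩

/-- the secants of the fan map near the ray `zk k` -/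
theorem fan_secant (w : Fin 6 → ℂ) (k : Fin 6) {y y' : ℂ}
    (h1 : 0 ≤ coA (y * (starRingEnd ℂ) (zk k)))
    (h2 : 0 ≤ coA (y * (starRingEnd ℂ) (zk k)) + coB (y * (starRingEnd ℂ) (zk k)))
    (h1' : 0 ≤ coA (y' * (starRingEnd ℂ) (zk k)))
    (h2' : 0 ≤ coA (y' * (starRingEnd ℂ) (zk k)) + coB (y' * (starRingEnd ℂ) (zk k))) :
    ∃ θ ∈ Icc (0 : ℝ) 1, fan w y - fan w y' =
      lmk k (w k) (θ • w (k + 1) + (1 - θ) • (w k - w (k - 1))) (y - y') := by
  obtain ⟨θ, hθ, e1, e2⟩ := split_diff (coB (y * (starRingEnd ℂ) (zk k)))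
    (coB (y' * (starRingEnd ℂ) (zk k)))
  refine ⟨θ, hθ, ?_⟩
  conv_lhs => rw [coords_k k y, coords_k k y', fan_two w k h1 h2, fan_two w k h1' h2']
  rw [lmk_apply, sub_mul, coA_sub, coB_sub]
  have e3 : ∀ a a' : ℝ, a • w k + (max (coB (y * (starRingEnd ℂ) (zk k))) 0) • w (k + 1) +
      (min (coB (y * (starRingEnd ℂ) (zk k))) 0) • (w k - w (k - 1)) -
      (a' • w k + (max (coB (y' * (starRingEnd ℂ) (zk k))) 0) • w (k + 1) +
      (min (coB (y' * (starRingEnd ℂ) (zk k))) 0) • (w k - w (k - 1))) =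
      (a - a') • w k + (max (coB (y * (starRingEnd ℂ) (zk k))) 0 -
        max (coB (y' * (starRingEnd ℂ) (zk k))) 0) • w (k + 1) +
      (min (coB (y * (starRingEnd ℂ) (zk k))) 0 - min (coB (y' * (starRingEnd ℂ) (zk k))) 0) •
        (w k - w (k - 1)) := by
    intro a a'
    module
  rw [e3, e1, e2]
  module

theorem crs_two {w : Fin 6 → ℂ} (hw : ValidFan w) (k : Fin 6) {θ : ℝ} (hθ : θ ∈ Icc (0 : ℝ) 1) :
    0 < crs (w k) (θ • w (k + 1) + (1 - θ) • (w k - w (k - 1))) := by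
  have h1 := hw k
  have h2 := hw (k - 1)
  rw [sub_add_cancel] at h2
  have h3 : crs (w k) (θ • w (k + 1) + (1 - θ) • (w k - w (k - 1))) =
      θ * crs (w k) (w (k + 1)) + (1 - θ) * crs (w (k - 1)) (w k) := by
    unfold crs
    simp only [Complex.add_re, Complex.add_im, Complex.smul_re, Complex.smul_im, smul_eq_mul,
      Complex.sub_re, Complex.sub_im]
    ring
  rw [h3]
  rcases eq_or_lt_of_le hθ.1 with h4 | h4
  · rw [← h4]
    linarith
  · have h5 : 0 < θ * crs (w k) (w (k + 1)) := mul_pos h4 h1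
    have h6 : 0 ≤ (1 - θ) * crs (w (k - 1)) (w k) := mul_nonneg (by linarith [hθ.2]) h2.le
    linarith

/-- goodness of the fan maps at one point -/
theorem fan_good_at {w : Fin 6 → ℂ} (hw : ValidFan w) {y₀ : ℂ} (hy : y₀ ≠ 0) :
    ∃ c > 0, FamGood c fan w y₀ := by
  -- a ray with positive first coordinate
  obtain ⟨k, hs0, ht0⟩ : ∃ k : Fin 6, 0 < coA (y₀ * (starRingEnd ℂ) (zk k)) ∧
      0 ≤ coB (y₀ * (starRingEnd ℂ) (zk k)) := by
    have hk : ∀ (k : Fin 6) (s t : ℝ), y₀ = s • zk k + t • zk (k + 1) →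
        coA (y₀ * (starRingEnd ℂ) (zk k)) = s ∧ coB (y₀ * (starRingEnd ℂ) (zk k)) = t := by
      intro k s t h
      have h1 : y₀ * (starRingEnd ℂ) (zk k) = s • (1 : ℂ) + t • zeta := by
        rw [h, zk_succ, add_mul, smul_mul_assoc, smul_mul_assoc, zk_mul_conj, mul_assoc,
          mul_comm zeta, ← mul_assoc, zk_mul_conj, one_mul]
      rw [h1]
      exact co_lin s t
    obtain ⟨k, s, hs, t, ht, h⟩ := exists_sector y₀
    rcases eq_or_lt_of_le hs with hs0 | hs0
    · have ht0 : 0 < t := by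
        rcases eq_or_lt_of_le ht with h1 | h1
        · exfalso
          apply hy
          rw [h, ← hs0, ← h1]
          simp
        · exact h1
      have h2 : y₀ = t • zk (k + 1) + (0 : ℝ) • zk (k + 1 + 1) := by
        rw [h, ← hs0]
        simp
      obtain ⟨e1, e2⟩ := hk (k + 1) t 0 h2
      exact ⟨k + 1, by rw [e1]; exact ht0, by rw [e2]⟩
    · obtain ⟨e1, e2⟩ := hk k s t h
      exact ⟨k, by rw [e1]; exact hs0, by rw [e2]; exact ht⟩
  set s₀ := coA (y₀ * (starRingEnd ℂ) (zk k)) with hs₀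
  -- the good set
  let K : Set (ℂ →L[ℝ] ℂ) :=
    (fun θ : ℝ => lmk k (w k) (θ • w (k + 1) + (1 - θ) • (w k - w (k - 1)))) '' Icc (0 : ℝ) 1
  have haff : ∀ θ : ℝ, lmk k (w k) (θ • w (k + 1) + (1 - θ) • (w k - w (k - 1))) =
      (1 - θ) • lmk k (w k) (w k - w (k - 1)) + θ • lmk k (w k) (w (k + 1)) := by
    intro θ
    ext y
    rw [add_apply, ContinuousLinearMap.smul_apply, ContinuousLinearMap.smul_apply, lmk_apply,
      lmk_apply, lmk_apply]
    module
  have hKc : IsCompact K := by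
    apply isCompact_Icc.image
    have h1 : (fun θ : ℝ => lmk k (w k) (θ • w (k + 1) + (1 - θ) • (w k - w (k - 1)))) =
        fun θ : ℝ => (1 - θ) • lmk k (w k) (w k - w (k - 1)) + θ • lmk k (w k) (w (k + 1)) := by
      funext θ
      exact haff θ
    rw [h1]
    fun_prop
  have hKv : Convex ℝ K := by
    rintro _ ⟨θ, hθ, rfl⟩ _ ⟨θ', hθ', rfl⟩ a b ha hb hab
    refine ⟨a * θ + b * θ', ?_, ?_⟩
    · have := (convex_Icc (0 : ℝ) 1) hθ hθ' ha hb hab
      simpa using this
    · simp only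
      rw [haff, haff, haff]
      have h1 : b = 1 - a := by linarith
      rw [h1]
      module
  obtain ⟨c, hc, hgood⟩ := goodSet_of_injective hKv hKc (by
    rintro _ ⟨θ, hθ, rfl⟩ v hv
    exact lmk_inj (crs_two hw k hθ) hv)
  refine ⟨c - c / 2, by linarith, ?_⟩
  refine famGood_of_near (r := s₀ / 8) hgood (by linarith) (by positivity) ?_
  have hev : ∀ᶠ w' in 𝓝 w, ‖w' - w‖ < c / 20 := by
    have h1 := Metric.ball_mem_nhds w (by positivity : 0 < c / 20)
    filter_upwards [h1] with w' hw'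
    rwa [mem_ball_iff_norm] at hw'
  filter_upwards [hev] with w' hw' x hx x' hx'
  have hcone : ∀ z ∈ ball y₀ (s₀ / 8), 0 ≤ coA (z * (starRingEnd ℂ) (zk k)) ∧
      0 ≤ coA (z * (starRingEnd ℂ) (zk k)) + coB (z * (starRingEnd ℂ) (zk k)) := by
    intro z hz
    rw [mem_ball_iff_norm] at hz
    have hn : ‖(z - y₀) * (starRingEnd ℂ) (zk k)‖ = ‖z - y₀‖ := by
      rw [norm_mul, RCLike.norm_conj, norm_zk, mul_one]
    have h1 := abs_coA_le ((z - y₀) * (starRingEnd ℂ) (zk k))
    have h2 := abs_coB_le' ((z - y₀) * (starRingEnd ℂ) (zk k))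
    rw [hn, sub_mul] at h1 h2
    rw [coA_sub, abs_le] at h1
    rw [coB_sub, abs_le] at h2
    constructor <;> linarith
  obtain ⟨a1, a2⟩ := hcone x hx
  obtain ⟨b1, b2⟩ := hcone x' hx'
  obtain ⟨θ, hθ, hsec⟩ := fan_secant w' k a1 a2 b1 b2
  refine ⟨_, ⟨θ, hθ, rfl⟩, ?_⟩
  show ‖fan w' x - fan w' x' - lmk k (w k) (θ • w (k + 1) + (1 - θ) • (w k - w (k - 1)))
    (x - x')‖ ≤ c / 2 * ‖x - x'‖
  rw [hsec, lmk_sub]
  refine (lmk_bound _ _ _ _).trans (mul_le_mul_of_nonneg_right ?_ (norm_nonneg _))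
  have hcomp : ∀ j, ‖w' j - w j‖ ≤ c / 20 := by
    intro j
    have h1 := norm_le_pi_norm (w' - w) j
    rw [Pi.sub_apply] at h1
    linarith
  have e1 : θ • w' (k + 1) + (1 - θ) • (w' k - w' (k - 1)) -
      (θ • w (k + 1) + (1 - θ) • (w k - w (k - 1))) =
      θ • (w' (k + 1) - w (k + 1)) + (1 - θ) • ((w' k - w k) - (w' (k - 1) - w (k - 1))) := by
    module
  have e2 : ‖θ • (w' (k + 1) - w (k + 1)) +
      (1 - θ) • ((w' k - w k) - (w' (k - 1) - w (k - 1)))‖ ≤ c / 20 + 2 * (c / 20) := by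
    refine (norm_add_le _ _).trans ?_
    rw [norm_smul, norm_smul, Real.norm_of_nonneg hθ.1,
      Real.norm_of_nonneg (by linarith [hθ.2] : 0 ≤ 1 - θ)]
    have h1 := norm_sub_le (w' k - w k) (w' (k - 1) - w (k - 1))
    have h2 := hcomp k
    have h3 := hcomp (k - 1)
    have h4 := hcomp (k + 1)
    have h5 : θ * ‖w' (k + 1) - w (k + 1)‖ ≤ 1 * (c / 20) :=
      mul_le_mul hθ.2 h4 (norm_nonneg _) zero_le_one
    have h6 : (1 - θ) * ‖(w' k - w k) - (w' (k - 1) - w (k - 1))‖ ≤ 1 * (2 * (c / 20)) :=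
      mul_le_mul (by linarith [hθ.1]) (by linarith) (norm_nonneg _) zero_le_one
    linarith
  rw [e1]
  have := hcomp k
  linarith

/-- uniform goodness of the fan maps on compact sets of valid fans -/
theorem fan_good {𝓦 : Set (Fin 6 → ℂ)} (h𝓦 : IsCompact 𝓦) (hv : ∀ w ∈ 𝓦, ValidFan w) :
    ∃ c > 0, ∀ w ∈ 𝓦, ∀ y, y ≠ 0 → FamGood c fan w y := by
  obtain ⟨n, hn⟩ := hc_compact (h𝓦.prod (isCompact_sphere (0 : ℂ) 1))
    (Φ := fun n z => FamGood (1 / ((n : ℝ) + 1)) fan z.1 z.2) (by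
      intro n m z hnm h
      apply h.mono
      apply one_div_le_one_div_of_le (by positivity)
      have : (n : ℝ) ≤ m := by exact_mod_cast hnm
      linarith) (by
      rintro ⟨w, u⟩ ⟨hw, hu⟩
      have hu0 : u ≠ 0 := by
        rintro rfl
        simp at hu
      obtain ⟨c, hc, hg⟩ := fan_good_at (hv w hw) hu0
      obtain ⟨n, hn⟩ := exists_nat_one_div_lt hc
      refine ⟨n, ?_⟩
      have h1 := (hg.mono hn.le).eventually
      exact h1.filter_mono nhdsWithin_le_nhds)
  refine ⟨1 / ((n : ℝ) + 1), by positivity, ?_⟩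
  intro w hw y hy
  have hy' : 0 < ‖y‖ := norm_pos_iff.mpr hy
  have h1 : FamGood (1 / ((n : ℝ) + 1)) fan w (‖y‖⁻¹ • y) := by
    apply hn (w, ‖y‖⁻¹ • y)
    refine ⟨hw, ?_⟩
    rw [mem_sphere_zero_iff_norm, norm_smul, norm_inv, norm_norm, inv_mul_cancel₀ hy'.ne']
  have h2 := famGood_scale fan_hom h1 hy'
  rwa [smul_smul, mul_inv_cancel₀ hy'.ne', one_smul] at h2

theorem isOpen_validFan : IsOpen {w | ValidFan w} := by
  have h1 : {w | ValidFan w} = ⋂ k : Fin 6, {w : Fin 6 → ℂ | 0 < crs (w k) (w (k + 1))} := by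
    ext w
    simp only [mem_setOf_eq, mem_iInter]
    rfl
  rw [h1]
  apply isOpen_iInter_of_finite
  intro k
  apply isOpen_lt continuous_const
  unfold crs
  have hre : ∀ j : Fin 6, Continuous (fun w : Fin 6 → ℂ => (w j).re) := fun j =>
    Complex.continuous_re.comp (continuous_apply j)
  have him : ∀ j : Fin 6, Continuous (fun w : Fin 6 → ℂ => (w j).im) := fun j =>
    Complex.continuous_im.comp (continuous_apply j)
  exact ((hre k).mul (him (k + 1))).sub ((him k).mul (hre (k + 1)))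

end SM
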