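import Pool.Agent.SM.Defs
import Pool.Agent.SM.Sec
import Pool.Agent.SM.Cut
import Pool.Agent.SM.Lat
import Pool.Agent.SM.Lau
import Pool.Agent.SM.Fna
import Pool.Agent.SM.Fnb
import Pool.Agent.SM.Kma

/-!
# Project SM, module KMB
-/

open Set Metric Filter Topology MeasureTheory
open scoped ContDiff Pointwise

noncomputable section

namespace SM

/-- interpolation of configurations -/
private def us (u u' : Cfg) (s : ℝ) : Cfg := fun v => (1 - s) • u v + s • u' v

private def cl (s : ℝ) : ℝ := max 0 (min 1 s)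

private lemma cl_mem (s : ℝ) : cl s ∈ Icc (0 : ℝ) 1 :=
  ⟨le_max_left _ _, max_le zero_le_one (min_le_left _ _)⟩

private lemma cl_lip (s s' : ℝ) : |cl s - cl s'| ≤ |s - s'| := by
  have h : LipschitzWith 1 (fun s : ℝ => max (0 : ℝ) (min 1 s)) :=
    (LipschitzWith.id.const_min 1).const_max 0
  have := h.dist_le_mul s s'
  rw [Real.dist_eq, Real.dist_eq] at this
  simpa [cl] using this

private lemma continuous_cl : Continuous cl := by
  unfold cl
  fun_prop

private lemma cl_nonpos {s : ℝ} (h : s ≤ 0) : cl s = 0 := by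
  unfold cl
  rw [min_eq_right (by linarith), max_eq_left h]

private lemma cl_one_le {s : ℝ} (h : 1 ≤ s) : cl s = 1 := by
  unfold cl
  rw [min_eq_left h, max_eq_right zero_le_one]

private lemma us_zero (u u' : Cfg) : us u u' 0 = u := by
  funext v; simp [us]

private lemma us_one (u u' : Cfg) : us u u' 1 = u' := by
  funext v; simp [us]

private lemma us_valid {n : ℕ} {u u' : Cfg} (h : ValidStep n u u') {s : ℝ}
    (hs : s ∈ Icc (0 : ℝ) 1) : ValidCfg (us u u' s) := h.2.2 s hs

private lemma us_idOut {n : ℕ} {u u' : Cfg} (h : ValidStep n u u') (s : ℝ) :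
    IdOut n (us u u' s) := by
  intro v hv
  show (1 - s) • u v + s • u' v = emb v
  rw [h.1 v hv, h.2.1 v hv, ← add_smul]
  simp

private lemma us_wind {n : ℕ} {u u' : Cfg} (h : ValidStep n u u')
    (hw : ∀ v, wind (star u v) = 2 * Real.pi * Complex.I) {s : ℝ} (hs : s ∈ Icc (0 : ℝ) 1) :
    ∀ v, wind (star (us u u' s) v) = 2 * Real.pi * Complex.I := by
  have hstep : ValidStep n (us u u' s) u := by
    refine ⟨us_idOut h s, h.1, ?_⟩
    intro r hr
    have hsr : s * (1 - r) ∈ Icc (0 : ℝ) 1 := by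
      constructor
      · exact mul_nonneg hs.1 (by linarith [hr.2])
      · exact mul_le_one₀ hs.2 (by linarith [hr.2]) (by linarith [hr.1])
    have := us_valid h hsr
    have he : (fun v => (1 - r) • us u u' s v + r • u v) = us u u' (s * (1 - r)) := by
      funext v
      simp only [us, smul_add, smul_smul, Complex.real_smul]
      push_cast
      ring
    rw [he]
    exact this
  exact wind_step hstep hw

private lemma us_star_contDiff (u u' : Cfg) (v : ℤ × ℤ) :
    ContDiff ℝ 1 (fun s : ℝ => star (us u u' s) v) := by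
  rw [contDiff_pi]
  intro k
  unfold star us
  fun_prop

/-- box of the interesting vertices -/
private lemma box_finite (n : ℕ) : {v : ℤ × ℤ | |v.1| < (n : ℤ) + 1 ∧ |v.2| < (n : ℤ) + 1}.Finite := by
  have : {v : ℤ × ℤ | |v.1| < (n : ℤ) + 1 ∧ |v.2| < (n : ℤ) + 1} ⊆
      (Icc (-(n : ℤ) - 1) ((n : ℤ) + 1)) ×ˢ (Icc (-(n : ℤ) - 1) ((n : ℤ) + 1)) := by
    rintro ⟨a, b⟩ ⟨h1, h2⟩
    simp only [abs_lt] at h1 h2
    simp only [mem_prod, mem_Icc]
    omega
  exact ((finite_Icc _ _).prod (finite_Icc _ _)).subset this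

private lemma dir_bound (k : Fin 6) : |(dir k).1| ≤ 1 ∧ |(dir k).2| ≤ 1 := by
  fin_cases k <;> simp [dir]

private lemma star_far {n : ℕ} {u : Cfg} (hu : IdOut n u) {v : ℤ × ℤ}
    (hv : ¬ (|v.1| < (n : ℤ) + 1 ∧ |v.2| < (n : ℤ) + 1)) : star u v = zk := by
  funext k
  have hb := dir_bound k
  have h1 : u v = emb v := hu v (by
    intro hc
    apply hv
    constructor <;> omega)
  have h2 : u (v + dir k) = emb (v + dir k) := hu _ (by
    rintro ⟨hc1, hc2⟩
    apply hv
    have e1 : (v + dir k).1 = v.1 + (dir k).1 := rfl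
    have e2 : (v + dir k).2 = v.2 + (dir k).2 := rfl
    rw [e1] at hc1
    rw [e2] at hc2
    rw [abs_lt] at hc1 hc2
    have hb1 := abs_le.1 hb.1
    have hb2 := abs_le.1 hb.2
    constructor
    · rw [abs_lt]; omega
    · rw [abs_lt]; omega)
  unfold star
  rw [h1, h2, emb_add]
  unfold zk
  ring

private lemma norm_zeta : ‖zeta‖ = 1 := by
  have h := norm_zk 1
  rw [zk_eq] at h
  simpa using h

private lemma kmb_norm_emb_le (v : ℤ × ℤ) : ‖emb v‖ ≤ |(v.1 : ℝ)| + |(v.2 : ℝ)| := by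
  unfold emb
  refine (norm_add_le _ _).trans ?_
  rw [norm_mul, norm_zeta, mul_one]
  have h1 : ‖((v.1 : ℤ) : ℂ)‖ = |(v.1 : ℝ)| := by
    rw [Complex.norm_intCast]
  have h2 : ‖((v.2 : ℤ) : ℂ)‖ = |(v.2 : ℝ)| := by
    rw [Complex.norm_intCast]
  rw [h1, h2]

private lemma far_of_norm {n : ℕ} {v : ℤ × ℤ} (h : 2 * (n : ℝ) < ‖emb v‖) :
    ¬ (|v.1| < (n : ℤ) + 1 ∧ |v.2| < (n : ℤ) + 1) := by
  rintro ⟨h1, h2⟩
  have h3 : |v.1| ≤ (n : ℤ) := by omega
  have h4 : |v.2| ≤ (n : ℤ) := by omega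
  have h5 : |(v.1 : ℝ)| ≤ (n : ℝ) := by exact_mod_cast h3
  have h6 : |(v.2 : ℝ)| ≤ (n : ℝ) := by exact_mod_cast h4
  have := kmb_norm_emb_le v
  linarith

private lemma validFan_zk : ValidFan zk := by
  intro k
  rw [crs_zk]
  positivity

private lemma kmb_zk_zero : zk 0 = 1 := by
  rw [zk_eq]; simp

private lemma kmb_zk_one : zk 1 = zeta := by
  rw [zk_eq]; simp

private lemma linOf_zk (y : ℂ) : linOf zk y = y := by
  unfold linOf
  rw [kmb_zk_zero, kmb_zk_one]
  exact (coords y).symm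

private lemma omg_zk (t : ℝ) : omg zk t = zk :=
  omg_linOf validFan_zk (fun k => (linOf_zk _).symm) t

private lemma linOf_eq_zero {w : Fin 6 → ℂ} (hw : 0 < crs (w 0) (w 1)) {y : ℂ}
    (h : linOf w y = 0) : y = 0 := by
  have h1 : crs (linOf w y) (w 1) = coA y * crs (w 0) (w 1) := by
    simp only [linOf, crs, Complex.add_re, Complex.add_im, Complex.real_smul,
      Complex.mul_re, Complex.mul_im, Complex.ofReal_re, Complex.ofReal_im]
    ring
  have h2 : crs (w 0) (linOf w y) = coB y * crs (w 0) (w 1) := by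
    simp only [linOf, crs, Complex.add_re, Complex.add_im, Complex.real_smul,
      Complex.mul_re, Complex.mul_im, Complex.ofReal_re, Complex.ofReal_im]
    ring
  rw [h] at h1 h2
  have z1 : crs 0 (w 1) = 0 := by simp [crs]
  have z2 : crs (w 0) 0 = 0 := by simp [crs]
  rw [z1] at h1
  rw [z2] at h2
  have hA : coA y = 0 := by
    rcases mul_eq_zero.1 h1.symm with h' | h'
    · exact h'
    · exact absurd h' hw.ne'
  have hB : coB y = 0 := by
    rcases mul_eq_zero.1 h2.symm with h' | h'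
    · exact h'
    · exact absurd h' hw.ne'
  rw [coords y, hA, hB]
  simp

/-- real linear form of `linOf` -/
private def linL (w : Fin 6 → ℂ) : ℂ →L[ℝ] ℂ :=
  (Complex.reCLM - (1 / 2 : ℝ) • ((2 / Real.sqrt 3) • Complex.imCLM)).smulRight (w 0) +
    ((2 / Real.sqrt 3) • Complex.imCLM).smulRight (w 1)

private lemma linL_apply (w : Fin 6 → ℂ) (y : ℂ) : linL w y = linOf w y := by
  simp [linL, linOf, coA, coB]
  ring

/-- the family of linear maps at a lattice point -/
private lemma famGood_lin {u u' : Cfg} {v : ℤ × ℤ} {s : ℝ} (hv : ValidFan (star (us u u' s) v))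
    (y : ℂ) : ∃ c > 0, FamGood c (fun s y => linOf (star (us u u' s) v) y) s y := by
  apply famGood_of_contDiffAt
  · apply ContDiff.contDiffAt
    have h1 : ContDiff ℝ 1 (fun q : ℝ × ℂ => star (us u u' q.1) v 0) :=
      ((contDiff_pi.1 (us_star_contDiff u u' v)) 0).comp contDiff_fst
    have h2 : ContDiff ℝ 1 (fun q : ℝ × ℂ => star (us u u' q.1) v 1) :=
      ((contDiff_pi.1 (us_star_contDiff u u' v)) 1).comp contDiff_fst
    have h3 : ContDiff ℝ 1 (fun q : ℝ × ℂ => coB q.2) := by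
      have : (fun q : ℝ × ℂ => coB q.2) =
          fun q : ℝ × ℂ => Complex.imCLM q.2 * (2 / Real.sqrt 3) := rfl
      rw [this]
      fun_prop
    have h4 : ContDiff ℝ 1 (fun q : ℝ × ℂ => coA q.2) := by
      have : (fun q : ℝ × ℂ => coA q.2) =
          fun q : ℝ × ℂ => Complex.reCLM q.2 - coB q.2 / 2 := rfl
      rw [this]
      fun_prop
    unfold linOf
    exact (h4.smul h1).add (h3.smul h2)
  · intro z hz
    have he : (fun y => linOf (star (us u u' s) v) y) = ⇑(linL (star (us u u' s) v)) := by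
      funext y
      exact (linL_apply _ y).symm
    have hz' : fderiv ℝ (fun y => linOf (star (us u u' s) v) y) y z = 0 := hz
    rw [he, ContinuousLinearMap.fderiv, linL_apply] at hz'
    exact linOf_eq_zero (hv 0) hz'

/-- uniform Lipschitz constant of the paths of fans -/
private lemma exists_omg_lip {n : ℕ} {u u' : Cfg} (h : ValidStep n u u') :
    ∃ C > 0, ∀ v, ∀ s ∈ Icc (0 : ℝ) 1, ∀ s' ∈ Icc (0 : ℝ) 1, ∀ t ∈ Icc (0 : ℝ) 1,
      ∀ t' ∈ Icc (0 : ℝ) 1, ∀ k, ‖omg (star (us u u' s) v) t k - omg (star (us u u' s') v) t' k‖ ≤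
        C * (|s - s'| + |t - t'|) := by
  have hK : ∀ (v : ℤ × ℤ) (k : Fin 6), ∃ K : NNReal, LipschitzOnWith K
      (fun q : ℝ × ℝ => omg (star (us u u' q.1) v) q.2 k)
      ((Icc (0 : ℝ) 1) ×ˢ (Icc (0 : ℝ) 1)) := by
    intro v k
    have hcd : ContDiffOn ℝ 1 (fun q : ℝ × ℝ => omg (star (us u u' q.1) v) q.2 k)
      ((Icc (0 : ℝ) 1) ×ˢ (Icc (0 : ℝ) 1)) := by
      rintro ⟨s, t⟩ ⟨hs, ht⟩
      apply ContDiffAt.contDiffWithinAt
      have h1 := contDiffAt_omg (us_valid h hs v) t k
      have h2 : ContDiffAt ℝ 1 (fun q : ℝ × ℝ => (star (us u u' q.1) v, q.2)) (s, t) :=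
        (((us_star_contDiff u u' v).comp contDiff_fst).prodMk contDiff_snd).contDiffAt
      exact ContDiffAt.comp (s, t) h1 h2
    exact hcd.exists_lipschitzOnWith one_ne_zero ((convex_Icc 0 1).prod (convex_Icc 0 1))
      (isCompact_Icc.prod isCompact_Icc)
  choose K hK using hK
  have hfin := box_finite n
  refine ⟨1 + ∑ v ∈ hfin.toFinset, ∑ k, (K v k : ℝ), by positivity, ?_⟩
  intro v s hs s' hs' t ht t' ht' k
  by_cases hv : |v.1| < (n : ℤ) + 1 ∧ |v.2| < (n : ℤ) + 1
  · have h1 := (hK v k).dist_le_mul (s, t) ⟨hs, ht⟩ (s', t') ⟨hs', ht'⟩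
    rw [dist_eq_norm] at h1
    have h2 : dist (s, t) (s', t') ≤ |s - s'| + |t - t'| := by
      rw [Prod.dist_eq, Real.dist_eq, Real.dist_eq]
      exact max_le (by linarith [abs_nonneg (t - t')]) (by linarith [abs_nonneg (s - s')])
    have h3 : (K v k : ℝ) ≤ 1 + ∑ v ∈ hfin.toFinset, ∑ k, (K v k : ℝ) := by
      have h4 : (K v k : ℝ) ≤ ∑ k, (K v k : ℝ) :=
        Finset.single_le_sum (f := fun k => (K v k : ℝ)) (fun i _ => NNReal.coe_nonneg _)
          (Finset.mem_univ k)
      have h5 : ∑ k, (K v k : ℝ) ≤ ∑ v ∈ hfin.toFinset, ∑ k, (K v k : ℝ) :=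
        Finset.single_le_sum (f := fun v => ∑ k, (K v k : ℝ))
          (fun i _ => Finset.sum_nonneg (fun j _ => NNReal.coe_nonneg _))
          (by rw [Set.Finite.mem_toFinset]; exact hv)
      linarith
    calc _ ≤ (K v k : ℝ) * dist (s, t) (s', t') := h1
      _ ≤ (K v k : ℝ) * (|s - s'| + |t - t'|) := by gcongr
      _ ≤ _ := by gcongr
  · rw [star_far (us_idOut h s) hv, star_far (us_idOut h s') hv, omg_zk, omg_zk, sub_self,
      norm_zero]
    positivity

/-- the compact set of all fans which occur -/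
private lemma exists_fan_const {n : ℕ} {u u' : Cfg} (h : ValidStep n u u')
    (hw : ∀ v, wind (star u v) = 2 * Real.pi * Complex.I) :
    ∃ c > 0, ∀ v, ∀ s ∈ Icc (0 : ℝ) 1, ∀ t ∈ Icc (0 : ℝ) 1, ∀ y, y ≠ 0 →
      FamGood c fan (omg (star (us u u' s) v) t) y := by
  have hfin := box_finite n
  set 𝓦 : Set (Fin 6 → ℂ) := (⋃ v ∈ {v : ℤ × ℤ | |v.1| < (n : ℤ) + 1 ∧ |v.2| < (n : ℤ) + 1},
      (fun q : ℝ × ℝ => omg (star (us u u' q.1) v) q.2) '' ((Icc (0 : ℝ) 1) ×ˢ (Icc (0 : ℝ) 1))) ∪
      {zk} with h𝓦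
  have hcomp : IsCompact 𝓦 := by
    apply IsCompact.union _ isCompact_singleton
    apply hfin.isCompact_biUnion
    intro v _
    apply (isCompact_Icc.prod isCompact_Icc).image_of_continuousOn
    rintro ⟨s, t⟩ ⟨hs, ht⟩
    apply ContinuousAt.continuousWithinAt
    rw [continuousAt_pi]
    intro k
    have h1 := (contDiffAt_omg (us_valid h hs v) t k).continuousAt
    have h2 : ContinuousAt (fun q : ℝ × ℝ => (star (us u u' q.1) v, q.2)) (s, t) :=
      (((us_star_contDiff u u' v).continuous.comp continuous_fst).prodMk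
        continuous_snd).continuousAt
    exact ContinuousAt.comp (f := fun q : ℝ × ℝ => (star (us u u' q.1) v, q.2))
      (g := fun q : (Fin 6 → ℂ) × ℝ => omg q.1 q.2 k) (x := (s, t)) h1 h2
  have hvalid : ∀ w ∈ 𝓦, ValidFan w := by
    intro w hw'
    rcases hw' with hw' | hw'
    · simp only [mem_iUnion] at hw'
      obtain ⟨v, _, ⟨⟨s, t⟩, ⟨hs, ht⟩, rfl⟩⟩ := hw'
      exact omg_valid (us_valid h hs v) (us_wind h hw hs v) ht
    · rw [mem_singleton_iff.1 hw']
      exact validFan_zk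
  obtain ⟨c, hc, hg⟩ := fan_good hcomp hvalid
  refine ⟨c, hc, ?_⟩
  intro v s hs t ht y hy
  apply hg _ _ y hy
  by_cases hv : |v.1| < (n : ℤ) + 1 ∧ |v.2| < (n : ℤ) + 1
  · left
    simp only [mem_iUnion]
    exact ⟨v, hv, ⟨(s, t), ⟨hs, ht⟩, rfl⟩⟩
  · right
    rw [star_far (us_idOut h s) hv, omg_zk]
    exact mem_singleton _

private lemma sqrt_three_bounds : 1.7 < Real.sqrt 3 ∧ Real.sqrt 3 < 1.8 := by
  constructor
  · rw [Real.lt_sqrt (by norm_num)]; norm_num
  · rw [Real.sqrt_lt' (by norm_num)]; norm_num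

/-- local form of the family near a point -/
private lemma local_form {n : ℕ} {u u' : Cfg} (h : ValidStep n u u') {M : ℝ} (hM : 0 < M)
    {x₀ : ℂ} {v : ℤ × ℤ} (h1 : ‖x₀ - emb v‖ ≤ 1 / Real.sqrt 3)
    (h2 : ∀ v', v' ≠ v → 1 / 2 ≤ ‖x₀ - emb v'‖) (s : ℝ) {x : ℂ} (hx : x ∈ ball x₀ (1 / 4)) :
    kmod (us u u' (cl s)) M x = us u u' (cl s) v +
      fan (omg (star (us u u' (cl s)) v) (cut M (4 * ‖x - emb v‖))) (x - emb v) := by
  have hxd : ‖x - x₀‖ < 1 / 4 := by simpa [dist_eq_norm] using hx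
  have hs3 := sqrt_three_bounds
  have hinv : 1 / Real.sqrt 3 ≤ 0.6 := by
    rw [div_le_iff₀ (by linarith [hs3.1])]
    linarith [hs3.1]
  have ht : ‖x - emb v‖ ≤ Real.sqrt 3 / 2 := by
    have : ‖x - emb v‖ ≤ ‖x - x₀‖ + ‖x₀ - emb v‖ := norm_sub_le_norm_sub_add_norm_sub _ _ _
    linarith [hs3.1]
  have key := kmod_local (us_valid h (cl_mem s)) hM (v := v) (y := x - emb v) ht (by
    intro v' hv'
    have e : emb v + (x - emb v) - emb v' = x - emb v' := by ring
    rw [e]
    have h3 := h2 v' hv'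
    have : ‖x₀ - emb v'‖ ≤ ‖x₀ - x‖ + ‖x - emb v'‖ := norm_sub_le_norm_sub_add_norm_sub _ _ _
    rw [norm_sub_rev x₀ x] at this
    linarith)
  have e : emb v + (x - emb v) = x := by ring
  rw [e] at key
  exact key

/-- transport of good families -/
private lemma famGood_translate {F G : ℝ → ℂ → ℂ} {b : ℝ → ℂ} {a x₀ : ℂ} {s c r : ℝ}
    (hF : FamGood c F s (x₀ - a)) (hr : 0 < r)
    (hG : ∀ s, ∀ x ∈ ball x₀ r, G s x = b s + F s (x - a)) : FamGood c G s x₀ := by
  obtain ⟨K, hK, ρ, hρ, hev⟩ := hF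
  refine ⟨K, hK, min ρ r, lt_min hρ hr, ?_⟩
  filter_upwards [hev] with q hq
  intro x hx x' hx'
  have hx1 : x ∈ ball x₀ r := ball_subset_ball (min_le_right _ _) hx
  have hx2 : x' ∈ ball x₀ r := ball_subset_ball (min_le_right _ _) hx'
  have hy1 : x - a ∈ ball (x₀ - a) ρ := by
    rw [mem_ball, dist_eq_norm] at hx ⊢
    have e : x - a - (x₀ - a) = x - x₀ := by ring
    rw [e]
    exact lt_of_lt_of_le hx (min_le_left _ _)
  have hy2 : x' - a ∈ ball (x₀ - a) ρ := by
    rw [mem_ball, dist_eq_norm] at hx' ⊢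
    have e : x' - a - (x₀ - a) = x' - x₀ := by ring
    rw [e]
    exact lt_of_lt_of_le hx' (min_le_left _ _)
  obtain ⟨M, hM, hMe⟩ := hq _ hy1 _ hy2
  refine ⟨M, hM, ?_⟩
  rw [hG q x hx1, hG q x' hx2, add_sub_add_left_eq_sub, hMe]
  congr 1
  ring

/-- a valid step gives paths of modified interpolations -/
theorem kmod_path {n : ℕ} {u u' : Cfg} (h : ValidStep n u u')
    (hw : ∀ v, wind (star u v) = 2 * Real.pi * Complex.I) :
    ∃ M₀ > 0, ∀ M ≥ M₀, PlanePath (kmod u M) (kmod u' M) := by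
  obtain ⟨C, hC, hlip⟩ := exists_omg_lip h
  obtain ⟨c, hc, hgood⟩ := exists_fan_const h hw
  refine ⟨24 * C / c, by positivity, ?_⟩
  intro M hM
  have hM0 : 0 < M := lt_of_lt_of_le (by positivity) hM
  have hfin := box_finite n
  have hs3 := sqrt_three_bounds
  have hinv : 1 / Real.sqrt 3 ≤ 0.6 := by
    rw [div_le_iff₀ (by linarith [hs3.1])]
    linarith [hs3.1]
  -- Lipschitz constant of the configuration
  have hcfg : ∀ v s s', ‖us u u' s v - us u u' s' v‖ ≤
      (∑ v ∈ hfin.toFinset, ‖u' v - u v‖) * |s - s'| := by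
    intro v s s'
    have he : us u u' s v - us u u' s' v = (s - s') • (u' v - u v) := by
      simp only [us, Complex.real_smul]
      push_cast
      ring
    rw [he, norm_smul, Real.norm_eq_abs, mul_comm]
    by_cases hv : |v.1| < (n : ℤ) + 1 ∧ |v.2| < (n : ℤ) + 1
    · have : ‖u' v - u v‖ ≤ ∑ v ∈ hfin.toFinset, ‖u' v - u v‖ :=
        Finset.single_le_sum (f := fun v => ‖u' v - u v‖) (fun i _ => norm_nonneg _)
          (by rw [Set.Finite.mem_toFinset]; exact hv)
      gcongr
    · have h1 : u v = emb v := h.1 v (by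
        intro hcon
        apply hv
        constructor <;> omega)
      have h2 : u' v = emb v := h.2.1 v (by
        intro hcon
        apply hv
        constructor <;> omega)
      rw [h1, h2, sub_self, norm_zero, zero_mul]
      positivity
  refine ⟨fun s => kmod (us u u' (cl s)) M, 2 * (n : ℝ) + 2,
    (∑ v ∈ hfin.toFinset, ‖u' v - u v‖) + 12 * C, ?_, ?_, ?_, ?_, ?_⟩
  · intro t ht
    show kmod (us u u' (cl t)) M = _
    rw [cl_nonpos ht, us_zero]
  · intro t ht
    show kmod (us u u' (cl t)) M = _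
    rw [cl_one_le ht, us_one]
  · -- identity far away
    intro t x hx
    obtain ⟨v, -, hv1, hv2⟩ := exists_nearest x
    have hl := local_form h hM0 hv1 hv2 t (mem_ball_self (by norm_num : (0 : ℝ) < 1 / 4))
    show kmod (us u u' (cl t)) M x = x
    rw [hl]
    have hne : 2 * (n : ℝ) < ‖emb v‖ := by
      have h3 : ‖x‖ ≤ ‖x - emb v‖ + ‖emb v‖ := by
        have := norm_add_le (x - emb v) (emb v)
        simpa using this
      linarith
    have hfar := far_of_norm hne
    rw [star_far (us_idOut h _) hfar, omg_zk, fan_id]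
    have h1 : us u u' (cl t) v = emb v := (us_idOut h (cl t)) v (by
        intro hcon
        apply hfar
        constructor <;> omega)
    rw [h1]
    ring
  · -- Lipschitz in the parameter
    intro t t' x
    obtain ⟨v, -, hv1, hv2⟩ := exists_nearest x
    have hl := local_form h hM0 hv1 hv2 t (mem_ball_self (by norm_num : (0 : ℝ) < 1 / 4))
    have hl' := local_form h hM0 hv1 hv2 t' (mem_ball_self (by norm_num : (0 : ℝ) < 1 / 4))
    show ‖kmod (us u u' (cl t)) M x - kmod (us u u' (cl t')) M x‖ ≤ _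
    rw [hl, hl']
    have hr : cut M (4 * ‖x - emb v‖) ∈ Icc (0 : ℝ) 1 := ⟨cut_nonneg hM0, cut_le_one hM0⟩
    have h1 := hcfg v (cl t) (cl t')
    have h2 := fan_lip (omg (star (us u u' (cl t)) v) (cut M (4 * ‖x - emb v‖)))
      (omg (star (us u u' (cl t')) v) (cut M (4 * ‖x - emb v‖))) (x - emb v)
    have h3 : ∑ k, ‖omg (star (us u u' (cl t)) v) (cut M (4 * ‖x - emb v‖)) k -
        omg (star (us u u' (cl t')) v) (cut M (4 * ‖x - emb v‖)) k‖ ≤
        6 * (C * |cl t - cl t'|) := by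
      calc _ ≤ ∑ _k : Fin 6, C * |cl t - cl t'| := by
            apply Finset.sum_le_sum
            intro k _
            have := hlip v _ (cl_mem t) _ (cl_mem t') _ hr _ hr k
            simpa using this
        _ = 6 * (C * |cl t - cl t'|) := by simp
    have hn1 : ‖x - emb v‖ ≤ 1 := by linarith
    have h4 : 2 * (∑ k, ‖omg (star (us u u' (cl t)) v) (cut M (4 * ‖x - emb v‖)) k -
        omg (star (us u u' (cl t')) v) (cut M (4 * ‖x - emb v‖)) k‖) * ‖x - emb v‖ ≤
        12 * C * |cl t - cl t'| := by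
      calc _ ≤ 2 * (6 * (C * |cl t - cl t'|)) * 1 := by gcongr
        _ = _ := by ring
    have h5 := cl_lip t t'
    have hsum0 : 0 ≤ ∑ v ∈ hfin.toFinset, ‖u' v - u v‖ :=
      Finset.sum_nonneg (fun i _ => norm_nonneg _)
    calc _ ≤ ‖us u u' (cl t) v - us u u' (cl t') v‖ +
          ‖fan (omg (star (us u u' (cl t)) v) (cut M (4 * ‖x - emb v‖))) (x - emb v) -
          fan (omg (star (us u u' (cl t')) v) (cut M (4 * ‖x - emb v‖))) (x - emb v)‖ := by
            rw [add_sub_add_comm]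
            exact norm_add_le _ _
      _ ≤ (∑ v ∈ hfin.toFinset, ‖u' v - u v‖) * |cl t - cl t'| + 12 * C * |cl t - cl t'| :=
            add_le_add h1 (h2.trans h4)
      _ = ((∑ v ∈ hfin.toFinset, ‖u' v - u v‖) + 12 * C) * |cl t - cl t'| := by ring
      _ ≤ _ := by gcongr
  · -- good secants
    intro t x₀
    obtain ⟨v, -, hv1, hv2⟩ := exists_nearest x₀
    by_cases hy : x₀ - emb v = 0
    · -- at a lattice point
      obtain ⟨c', hc', hg⟩ := famGood_lin (us_valid h (cl_mem t) v) (x₀ - emb v)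
      have hg2 : FamGood c' (fun s y => linOf (star (us u u' (cl s)) v) y) t (x₀ - emb v) :=
        FamGood.comp_param (φ := cl) hg continuous_cl.continuousAt
      refine ⟨c', hc', ?_⟩
      have hexp : (0 : ℝ) < Real.exp (-M) / 4 := by positivity
      refine famGood_translate (b := fun s => us u u' (cl s) v) hg2
        (lt_min hexp (by norm_num : (0 : ℝ) < 1 / 4)) ?_
      intro s x hx
      have hx1 : x ∈ ball x₀ (1 / 4) := ball_subset_ball (min_le_right _ _) hx
      have hx2 : x ∈ ball x₀ (Real.exp (-M) / 4) := ball_subset_ball (min_le_left _ _) hx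
      show kmod (us u u' (cl s)) M x = _
      rw [local_form h hM0 hv1 hv2 s hx1]
      have he : x - emb v = x - x₀ := by
        rw [sub_eq_zero.1 hy]
      have hn : 4 * ‖x - emb v‖ ≤ Real.exp (-M) := by
        rw [he]
        rw [mem_ball, dist_eq_norm] at hx2
        linarith
      rw [cut_of_le hM0 hn, omg_one, fan_linOf]
    · -- away from the lattice points
      refine ⟨c - c / 2, by linarith, ?_⟩
      set τ : ℝ → ℂ → (Fin 6 → ℂ) := fun s y => omg (star (us u u' (cl s)) v) (cut M (4 * ‖y‖))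
        with hτ
      have hr : ∀ y : ℂ, cut M (4 * ‖y‖) ∈ Icc (0 : ℝ) 1 :=
        fun y => ⟨cut_nonneg hM0, cut_le_one hM0⟩
      have hcontτ : ContinuousAt (fun z : ℝ × ℂ => τ z.1 z.2) (t, x₀ - emb v) := by
        rw [continuousAt_pi]
        intro k
        have h1 := (contDiffAt_omg (us_valid h (cl_mem t) v)
          (cut M (4 * ‖x₀ - emb v‖)) k).continuousAt
        have h2 : ContinuousAt (fun q : ℝ × ℂ => (star (us u u' (cl q.1)) v, cut M (4 * ‖q.2‖)))
            (t, x₀ - emb v) := by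
          have e1 : Continuous (fun q : ℝ × ℂ => star (us u u' (cl q.1)) v) :=
            (us_star_contDiff u u' v).continuous.comp (continuous_cl.comp continuous_fst)
          have e2 : Continuous (fun q : ℝ × ℂ => cut M (4 * ‖q.2‖)) :=
            (continuous_cut M).comp (continuous_const.mul (continuous_norm.comp continuous_snd))
          exact (e1.prodMk e2).continuousAt
        exact ContinuousAt.comp
          (f := fun q : ℝ × ℂ => (star (us u u' (cl q.1)) v, cut M (4 * ‖q.2‖)))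
          (g := fun q : (Fin 6 → ℂ) × ℝ => omg q.1 q.2 k) (x := (t, x₀ - emb v)) h1 h2
      have hcl : 12 * C / M ≤ c / 2 := by
        rw [div_le_iff₀ hM0]
        have : 24 * C / c * c ≤ M * c := mul_le_mul_of_nonneg_right hM hc.le
        rw [div_mul_cancel₀ _ hc.ne'] at this
        linarith
      have hfan : ∀ s y y' z, ‖fan (τ s y) z - fan (τ s y') z‖ ≤
          12 * C * |cut M (4 * ‖y‖) - cut M (4 * ‖y'‖)| * ‖z‖ := by
        intro s y y' z
        have h2 := fan_lip (τ s y) (τ s y') z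
        have h3 : ∑ k, ‖τ s y k - τ s y' k‖ ≤
            6 * (C * |cut M (4 * ‖y‖) - cut M (4 * ‖y'‖)|) := by
          calc _ ≤ ∑ _k : Fin 6, C * |cut M (4 * ‖y‖) - cut M (4 * ‖y'‖)| := by
                apply Finset.sum_le_sum
                intro k _
                have := hlip v _ (cl_mem s) _ (cl_mem s) _ (hr y) _ (hr y') k
                simpa using this
            _ = _ := by simp
        calc _ ≤ 2 * (∑ k, ‖τ s y k - τ s y' k‖) * ‖z‖ := h2
          _ ≤ 2 * (6 * (C * |cut M (4 * ‖y‖) - cut M (4 * ‖y'‖)|)) * ‖z‖ := by gcongr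
          _ = _ := by ring
      have hslow : ∀ y y' : ℂ, |cut M (4 * ‖y‖) - cut M (4 * ‖y'‖)| * min ‖y‖ ‖y'‖ ≤
          ‖y - y'‖ / M := by
        intro y y'
        have h1 := cut_slow hM0 (norm_nonneg y) (norm_nonneg y') (b := 1 / 4) (b' := 1 / 4)
          (by norm_num) (by norm_num)
        have e1 : ‖y‖ / (1 / 4) = 4 * ‖y‖ := by ring
        have e2 : ‖y'‖ / (1 / 4) = 4 * ‖y'‖ := by ring
        rw [e1, e2, sub_self, abs_zero, add_zero] at h1
        refine h1.trans ?_
        exact div_le_div_of_nonneg_right (abs_norm_sub_norm_le y y') hM0.le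
      have hFam : FamGood (c - c / 2) (fun s y => fan (τ s y) y) t (x₀ - emb v) := by
        apply slow_famGood (r := 1) (hgood v _ (cl_mem t) _ (hr _) _ hy) hcontτ one_pos
          (by linarith)
        apply Eventually.of_forall
        intro s y _ y' _
        rcases le_total ‖y'‖ ‖y‖ with hyy | hyy
        · left
          have h1 := hslow y y'
          rw [min_eq_right hyy] at h1
          calc _ ≤ 12 * C * |cut M (4 * ‖y‖) - cut M (4 * ‖y'‖)| * ‖y'‖ := hfan s y y' y'
            _ = 12 * C * (|cut M (4 * ‖y‖) - cut M (4 * ‖y'‖)| * ‖y'‖) := by ring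
            _ ≤ 12 * C * (‖y - y'‖ / M) := by gcongr
            _ = 12 * C / M * ‖y - y'‖ := by ring
            _ ≤ _ := by gcongr
        · right
          have h1 := hslow y y'
          rw [min_eq_left hyy] at h1
          calc _ ≤ 12 * C * |cut M (4 * ‖y‖) - cut M (4 * ‖y'‖)| * ‖y‖ := hfan s y y' y
            _ = 12 * C * (|cut M (4 * ‖y‖) - cut M (4 * ‖y'‖)| * ‖y‖) := by ring
            _ ≤ 12 * C * (‖y - y'‖ / M) := by gcongr
            _ = 12 * C / M * ‖y - y'‖ := by ring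
            _ ≤ _ := by gcongr
      exact famGood_translate (b := fun s => us u u' (cl s) v) hFam
        (by norm_num : (0 : ℝ) < 1 / 4) (fun s x hx => local_form h hM0 hv1 hv2 s hx)

end SM
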