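import Pool.Agent.SM.Defs
import Pool.Agent.SM.Sec
import Pool.Agent.SM.Srd
import Pool.Agent.SM.Cut
import Pool.Agent.SM.Lat
import Pool.Agent.SM.Lau
import Pool.Agent.SM.Fna
import Pool.Agent.SM.Fnb
import Pool.Agent.SM.Kma

/-!
# Project SM, module NEA
-/

open Set Metric Filter Topology MeasureTheory
open scoped ContDiff Pointwise

noncomputable section

namespace SM

/-- the rescaled map -/
def neaP (P : ℂ → ℂ) (N : ℕ) (x : ℂ) : ℂ := (N : ℝ) • P ((N : ℝ)⁻¹ • x)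

theorem neaP_far {P : ℂ → ℂ} (hs : ∀ x, 1 ≤ ‖x‖ → P x = x) {N : ℕ} (hN : 0 < N) {x : ℂ}
    (hx : (N : ℝ) ≤ ‖x‖) : neaP P N x = x := by
  have hN' : (0 : ℝ) < N := by exact_mod_cast hN
  have h1 : 1 ≤ ‖(N : ℝ)⁻¹ • x‖ := by
    rw [norm_smul, norm_inv, Real.norm_of_nonneg hN'.le, ← div_eq_inv_mul, le_div_iff₀ hN']
    linarith
  unfold neaP
  rw [hs _ h1, smul_inv_smul₀ hN'.ne']

theorem nea_fderiv_far {P : ℂ → ℂ} (hs : ∀ x, 1 ≤ ‖x‖ → P x = x) {x : ℂ} (hx : 1 < ‖x‖) :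
    fderiv ℝ P x = ContinuousLinearMap.id ℝ ℂ := by
  have h : P =ᶠ[𝓝 x] id := by
    filter_upwards [(isOpen_lt continuous_const continuous_norm).mem_nhds hx] with y hy
    exact hs y (le_of_lt hy)
  rw [h.fderiv_eq, fderiv_id]

theorem nea_lip {P : ℂ → ℂ} (hP : ContDiff ℝ ∞ P) (hs : ∀ x, 1 ≤ ‖x‖ → P x = x) :
    ∃ C > 0, ∀ x y, ‖fderiv ℝ P x - fderiv ℝ P y‖ ≤ C * ‖x - y‖ := by
  have h1 : HasCompactSupport (fun x => fderiv ℝ P x - ContinuousLinearMap.id ℝ ℂ) := by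
    refine HasCompactSupport.intro (isCompact_closedBall (0 : ℂ) 1) fun x hx => ?_
    have hx' : 1 < ‖x‖ := by simpa using hx
    rw [nea_fderiv_far hs hx', sub_self]
  have h2 : ContDiff ℝ 1 (fun x => fderiv ℝ P x - ContinuousLinearMap.id ℝ ℂ) :=
    (hP.fderiv_right (by norm_cast)).sub contDiff_const
  obtain ⟨C, hC⟩ := h2.lipschitzWith_of_hasCompactSupport h1 (by norm_num)
  refine ⟨(C : ℝ) + 1, by positivity, fun x y => ?_⟩
  have h3 := hC.dist_le_mul x y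
  rw [dist_eq_norm, dist_eq_norm] at h3
  have h4 : (fderiv ℝ P x - ContinuousLinearMap.id ℝ ℂ) - (fderiv ℝ P y -
      ContinuousLinearMap.id ℝ ℂ) = fderiv ℝ P x - fderiv ℝ P y := by abel
  rw [h4] at h3
  nlinarith [norm_nonneg (x - y)]

theorem nea_lower {P : ℂ → ℂ} (hP : ContDiff ℝ ∞ P)
    (hd : ∀ x v, fderiv ℝ P x v = 0 → v = 0) (hs : ∀ x, 1 ≤ ‖x‖ → P x = x) :
    ∃ c > 0, ∀ x v, c * ‖v‖ ≤ ‖fderiv ℝ P x v‖ := by
  have hcont : Continuous (fun q : ℂ × ℂ => ‖fderiv ℝ P q.1 q.2‖) :=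
    ((hP.continuous_fderiv (by norm_num)).comp continuous_fst |>.clm_apply continuous_snd).norm
  have hK : IsCompact ((closedBall (0 : ℂ) 1) ×ˢ (sphere (0 : ℂ) 1)) :=
    (isCompact_closedBall _ _).prod (isCompact_sphere _ _)
  obtain ⟨q, hq, hmin⟩ := hK.exists_isMinOn ⟨(0, 1), by simp⟩ hcont.continuousOn
  have hq2 : ‖q.2‖ = 1 := by simpa using hq.2
  have hpos : 0 < ‖fderiv ℝ P q.1 q.2‖ := by
    rw [norm_pos_iff]
    intro h0
    have := hd _ _ h0
    rw [this] at hq2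
    simp at hq2
  refine ⟨min ‖fderiv ℝ P q.1 q.2‖ 1, lt_min hpos one_pos, fun x v => ?_⟩
  by_cases hx : 1 < ‖x‖
  · rw [nea_fderiv_far hs hx]
    simp only [ContinuousLinearMap.coe_id', id]
    nlinarith [norm_nonneg v, min_le_right ‖fderiv ℝ P q.1 q.2‖ 1]
  · by_cases hv : v = 0
    · subst hv; simp
    have hv' : 0 < ‖v‖ := norm_pos_iff.mpr hv
    have h1 : (x, ‖v‖⁻¹ • v) ∈ ((closedBall (0 : ℂ) 1) ×ˢ (sphere (0 : ℂ) 1)) := by
      refine ⟨by simpa using not_lt.mp hx, ?_⟩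
      simp [hv]
    have h2 := hmin h1
    change ‖fderiv ℝ P q.1 q.2‖ ≤ ‖fderiv ℝ P x (‖v‖⁻¹ • v)‖ at h2
    rw [map_smul, norm_smul, norm_inv, norm_norm] at h2
    have h3 : ‖fderiv ℝ P q.1 q.2‖ * ‖v‖ ≤ ‖fderiv ℝ P x v‖ := by
      rwa [← div_eq_inv_mul, le_div_iff₀ hv'] at h2
    exact (mul_le_mul_of_nonneg_right (min_le_left _ _) hv'.le).trans h3

theorem crs_map (D : ℂ →L[ℝ] ℂ) (a b : ℂ) :
    crs (D a) (D b) = crs (D 1) (D Complex.I) * crs a b := by
  have h : ∀ z : ℂ, D z = z.re • D 1 + z.im • D Complex.I := by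
    intro z
    conv_lhs => rw [← Complex.re_add_im z]
    rw [map_add]
    congr 1
    · rw [← map_smul]; congr 1; simp
    · rw [← map_smul]; congr 1
  rw [h a, h b]
  unfold crs
  simp
  ring

theorem nea_det {P : ℂ → ℂ} (hP : ContDiff ℝ ∞ P)
    (hd : ∀ x v, fderiv ℝ P x v = 0 → v = 0) (hs : ∀ x, 1 ≤ ‖x‖ → P x = x) (x : ℂ) :
    0 < crs (fderiv ℝ P x 1) (fderiv ℝ P x Complex.I) := by
  have hcd := hP.continuous_fderiv (by norm_num)
  have h1 : Continuous (fun x => fderiv ℝ P x 1) := hcd.clm_apply continuous_const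
  have h2 : Continuous (fun x => fderiv ℝ P x Complex.I) := hcd.clm_apply continuous_const
  have hcont : Continuous (fun x => crs (fderiv ℝ P x 1) (fderiv ℝ P x Complex.I)) := by
    unfold crs
    exact ((Complex.continuous_re.comp h1).mul (Complex.continuous_im.comp h2)).sub
      ((Complex.continuous_im.comp h1).mul (Complex.continuous_re.comp h2))
  have hne : ∀ x, crs (fderiv ℝ P x 1) (fderiv ℝ P x Complex.I) ≠ 0 := by
    intro x h0
    set a := fderiv ℝ P x 1 with ha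
    set b := fderiv ℝ P x Complex.I with hb
    unfold crs at h0
    have e1 : fderiv ℝ P x (b.re • (1 : ℂ) - a.re • Complex.I) = 0 := by
      rw [map_sub, map_smul, map_smul, ← ha, ← hb]
      apply Complex.ext
      · simp; ring
      · simp; linarith
    have e2 : fderiv ℝ P x (b.im • (1 : ℂ) - a.im • Complex.I) = 0 := by
      rw [map_sub, map_smul, map_smul, ← ha, ← hb]
      apply Complex.ext
      · simp; linarith
      · simp; ring
    have f1 := congrArg Complex.im (hd _ _ e1)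
    have f2 := congrArg Complex.im (hd _ _ e2)
    simp at f1 f2
    have ha0 : a = 0 := Complex.ext f1 f2
    exact one_ne_zero (hd x 1 (ha ▸ ha0))
  by_contra hneg
  have hlt := lt_of_le_of_ne (not_lt.mp hneg) (hne x)
  have h2pos : (0 : ℝ) ≤ crs (fderiv ℝ P 2 1) (fderiv ℝ P 2 Complex.I) := by
    rw [nea_fderiv_far hs (by norm_num : 1 < ‖(2 : ℂ)‖)]
    simp [crs]
  obtain ⟨z, hz⟩ := intermediate_value_univ x 2 hcont ⟨hlt.le, h2pos⟩
  exact hne z hz

theorem nea_coA_emb (v : ℤ × ℤ) : coA (emb v) = v.1 := by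
  have h3 : Real.sqrt 3 ≠ 0 := by positivity
  simp only [coA, coB, emb, zeta]
  simp
  field_simp
  ring

theorem nea_coB_emb (v : ℤ × ℤ) : coB (emb v) = v.2 := by
  have h3 : Real.sqrt 3 ≠ 0 := by positivity
  simp only [coB, emb, zeta]
  simp
  field_simp

theorem nea_co_zk (k : Fin 6) : |coA (zk k)| ≤ 1 ∧ |coB (zk k)| ≤ 1 := by
  unfold zk
  rw [nea_coA_emb, nea_coB_emb]
  fin_cases k <;> simp [dir]

/-- the linear fan of `D` -/
def neaW (D : ℂ →L[ℝ] ℂ) (k : Fin 6) : ℂ := D (zk k)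

theorem nea_linOf (D : ℂ →L[ℝ] ℂ) (y : ℂ) : linOf (neaW D) y = D y := by
  have h0 : zk 0 = 1 := by simp [zk, emb, dir]
  have h1 : zk 1 = zeta := by simp [zk, emb, dir]
  unfold linOf neaW
  rw [h0, h1, ← map_smul, ← map_smul, ← map_add, ← coords]

theorem nea_valid {D : ℂ →L[ℝ] ℂ} (hD : 0 < crs (D 1) (D Complex.I)) : ValidFan (neaW D) := by
  intro k
  unfold neaW
  rw [crs_map, crs_zk]
  positivity

theorem nea_slit {a b : ℂ} (h : 0 < crs a b) : b / a ∈ Complex.slitPlane := by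
  have ha : a ≠ 0 := by
    rintro rfl
    simp [crs] at h
  have h1 : 0 < Complex.normSq a := Complex.normSq_pos.mpr ha
  right
  rw [Complex.div_im]
  unfold crs at h
  have h2 : b.im * a.re / Complex.normSq a - b.re * a.im / Complex.normSq a =
      (a.re * b.im - a.im * b.re) / Complex.normSq a := by ring
  rw [h2]
  exact (div_pos h h1).ne'

theorem nea_ne {a b : ℂ} (h : 0 < crs a b) : a ≠ 0 := by
  rintro rfl
  simp [crs] at h

theorem nea_muk {D : ℂ →L[ℝ] ℂ} (k : Fin 6) : muk (neaW D) k = 0 := by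
  unfold muk
  apply Finset.sum_eq_zero
  intro j _
  rw [nea_linOf, nea_linOf]
  unfold neaW
  rw [sub_self]

theorem nea_muk_cont {D : ℂ →L[ℝ] ℂ} (hD : 0 < crs (D 1) (D Complex.I)) (k : Fin 6) :
    ContinuousAt (fun w => muk w k) (neaW D) := by
  unfold muk
  have hv := nea_valid hD
  have hl : ∀ y, ContinuousAt (fun w : Fin 6 → ℂ => linOf w y) (neaW D) := by
    intro y
    unfold linOf
    fun_prop
  apply tendsto_finsetSum
  intro j _
  apply Tendsto.sub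
  · have h1 : ContinuousAt (fun w : Fin 6 → ℂ => w (j + 1) / w j) (neaW D) :=
      (continuousAt_apply _ _).div (continuousAt_apply _ _) (nea_ne (hv j))
    exact h1.clog (nea_slit (hv j))
  · have h0 : linOf (neaW D) (zk j) ≠ 0 := by
      rw [nea_linOf]; exact nea_ne (hv j)
    have h1 : ContinuousAt (fun w : Fin 6 → ℂ => linOf w (zk (j + 1)) / linOf w (zk j))
      (neaW D) := (hl _).div (hl _) h0
    refine h1.clog ?_
    rw [nea_linOf, nea_linOf]
    exact nea_slit (hv j)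

/-- uniform neighbourhoods of the compact set of derivatives -/
theorem nea_unif {P : ℂ → ℂ} (hP : ContDiff ℝ ∞ P)
    (hd : ∀ x v, fderiv ℝ P x v = 0 → v = 0) (hs : ∀ x, 1 ≤ ‖x‖ → P x = x) {μ : ℝ} (hμ : 0 < μ) :
    ∃ δ > 0, ∀ x, ∀ w : Fin 6 → ℂ, dist w (neaW (fderiv ℝ P x)) < δ →
      ValidFan w ∧ ∀ k, ‖muk w k‖ < μ := by
  have hcd := hP.continuous_fderiv (by norm_num)
  have hcw : Continuous (fun x => neaW (fderiv ℝ P x)) :=
    continuous_pi fun k => hcd.clm_apply continuous_const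
  have hK : IsCompact ((fun x => neaW (fderiv ℝ P x)) '' closedBall (0 : ℂ) 2) :=
    (isCompact_closedBall _ _).image hcw
  have hall : ∀ x, neaW (fderiv ℝ P x) ∈ (fun x => neaW (fderiv ℝ P x)) '' closedBall (0 : ℂ) 2 := by
    intro x
    by_cases hx : 1 < ‖x‖
    · refine ⟨2, by simp, ?_⟩
      simp only
      rw [nea_fderiv_far hs hx, nea_fderiv_far hs (by norm_num : 1 < ‖(2 : ℂ)‖)]
    · exact ⟨x, by simpa using (not_lt.mp hx).trans one_le_two, rfl⟩
  have hU : ∀ w ∈ (fun x => neaW (fderiv ℝ P x)) '' closedBall (0 : ℂ) 2,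
      w ∈ interior {w : Fin 6 → ℂ | ValidFan w ∧ ∀ k, ‖muk w k‖ < μ} := by
    rintro _ ⟨x, -, rfl⟩
    rw [mem_interior_iff_mem_nhds]
    have hD := nea_det hP hd hs x
    have h1 : ∀ᶠ w in 𝓝 (neaW (fderiv ℝ P x)), ValidFan w :=
      isOpen_validFan.mem_nhds (nea_valid hD)
    have h2 : ∀ᶠ w in 𝓝 (neaW (fderiv ℝ P x)), ∀ k, ‖muk w k‖ < μ := by
      rw [eventually_all]
      intro k
      have h3 := (nea_muk_cont hD k).norm
      refine h3.eventually_lt_const ?_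
      simp only [nea_muk, norm_zero]
      exact hμ
    exact h1.and h2
  obtain ⟨δ, hδ, hsub⟩ := hK.exists_thickening_subset_open isOpen_interior hU
  refine ⟨δ, hδ, fun x w hw => ?_⟩
  have h1 : w ∈ thickening δ ((fun x => neaW (fderiv ℝ P x)) '' closedBall (0 : ℂ) 2) :=
    mem_thickening_iff.mpr ⟨_, hall x, hw⟩
  have h2 := interior_subset (hsub h1)
  exact h2

/-- estimates for `omg` -/
theorem nea_omg {D : ℂ →L[ℝ] ℂ} {w : Fin 6 → ℂ} {δ μ B : ℝ} (hw : dist w (neaW D) ≤ δ)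
    (hδ : δ ≤ 1) (hμ : μ ≤ 1) (hm : ∀ k, ‖muk w k‖ ≤ μ) (hB : ‖D‖ ≤ B) (k : Fin 6)
    {t t' : ℝ} (ht0 : 0 ≤ t) (ht1 : t ≤ 1) (ht0' : 0 ≤ t') (ht1' : t' ≤ 1) :
    ‖omg w t k - D (zk k)‖ ≤ (B + 2) * (2 * μ) + 2 * δ ∧
      ‖omg w t k - omg w t' k‖ ≤ (B + 2) * (6 * μ) * |t - t'| := by
  have hδ0 : 0 ≤ δ := dist_nonneg.trans hw
  have hμ0 : 0 ≤ μ := (norm_nonneg _).trans (hm 0)
  have hcomp : ∀ j, ‖w j - D (zk j)‖ ≤ δ := by
    intro j
    have := dist_le_pi_dist w (neaW D) j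
    rw [dist_eq_norm] at this
    exact this.trans hw
  have hL : ‖linOf w (zk k) - D (zk k)‖ ≤ 2 * δ := by
    rw [← nea_linOf D (zk k)]
    unfold linOf neaW
    have e : coA (zk k) • w 0 + coB (zk k) • w 1 - (coA (zk k) • D (zk 0) + coB (zk k) • D (zk 1))
        = coA (zk k) • (w 0 - D (zk 0)) + coB (zk k) • (w 1 - D (zk 1)) := by
      simp only [smul_sub]; abel
    rw [e]
    refine (norm_add_le _ _).trans ?_
    rw [norm_smul, norm_smul]
    have a1 : ‖coA (zk k)‖ * ‖w 0 - D (zk 0)‖ ≤ 1 * δ :=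
      mul_le_mul (nea_co_zk k).1 (hcomp 0) (norm_nonneg _) zero_le_one
    have a2 : ‖coB (zk k)‖ * ‖w 1 - D (zk 1)‖ ≤ 1 * δ :=
      mul_le_mul (nea_co_zk k).2 (hcomp 1) (norm_nonneg _) zero_le_one
    linarith
  have hDk : ‖D (zk k)‖ ≤ B := by
    have := D.le_opNorm (zk k)
    rw [norm_zk, mul_one] at this
    exact this.trans hB
  have hLn : ‖linOf w (zk k)‖ ≤ B + 2 := by
    have : linOf w (zk k) = (linOf w (zk k) - D (zk k)) + D (zk k) := by abel
    rw [this]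
    refine (norm_add_le _ _).trans ?_
    linarith
  have hexp : ∀ s : ℝ, |s| ≤ 1 → ‖Complex.exp ((s : ℂ) * muk w k) - 1‖ ≤ 2 * μ * |s| := by
    intro s hs
    have h1 : ‖(s : ℂ) * muk w k‖ ≤ μ * |s| := by
      rw [norm_mul, Complex.norm_real, Real.norm_eq_abs, mul_comm]
      exact mul_le_mul_of_nonneg_right (hm k) (abs_nonneg _)
    have h2 : ‖(s : ℂ) * muk w k‖ ≤ 1 := h1.trans (by nlinarith [abs_nonneg s])
    have h3 := Complex.norm_exp_sub_one_le h2
    linarith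
  have habs : ∀ s : ℝ, 0 ≤ s → s ≤ 1 → |1 - s| ≤ 1 := by
    intro s h0 h1
    rw [abs_le]; constructor <;> linarith
  constructor
  · have e : omg w t k - D (zk k) = linOf w (zk k) * (Complex.exp (((1 - t : ℝ) : ℂ) * muk w k) - 1)
        + (linOf w (zk k) - D (zk k)) := by
      unfold omg
      push_cast
      ring
    rw [e]
    refine (norm_add_le _ _).trans ?_
    rw [norm_mul]
    have h1 := hexp (1 - t) (habs t ht0 ht1)
    have h2 : 2 * μ * |1 - t| ≤ 2 * μ := by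
      nlinarith [habs t ht0 ht1]
    have h3 : ‖linOf w (zk k)‖ * ‖Complex.exp (((1 - t : ℝ) : ℂ) * muk w k) - 1‖ ≤
        (B + 2) * (2 * μ) :=
      mul_le_mul hLn (h1.trans h2) (norm_nonneg _) ((norm_nonneg _).trans hLn)
    linarith
  · have e : omg w t k - omg w t' k = linOf w (zk k) *
        (Complex.exp (((1 - t' : ℝ) : ℂ) * muk w k) *
          (Complex.exp (((t' - t : ℝ) : ℂ) * muk w k) - 1)) := by
      unfold omg
      rw [mul_sub, ← Complex.exp_add]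
      push_cast
      have : (1 - (t' : ℂ)) * muk w k + ((t' : ℂ) - t) * muk w k = (1 - t) * muk w k := by ring
      rw [this]
      ring
    rw [e, norm_mul, norm_mul]
    have h1 := hexp (1 - t') (habs t' ht0' ht1')
    have h2 : 2 * μ * |1 - t'| ≤ 2 * μ := by
      nlinarith [habs t' ht0' ht1']
    have h3 : ‖Complex.exp (((1 - t' : ℝ) : ℂ) * muk w k)‖ ≤ 3 := by
      have : Complex.exp (((1 - t' : ℝ) : ℂ) * muk w k) =
        (Complex.exp (((1 - t' : ℝ) : ℂ) * muk w k) - 1) + 1 := by ring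
      rw [this]
      refine (norm_add_le _ _).trans ?_
      rw [norm_one]
      linarith
    have h4 : |t' - t| ≤ 1 := by
      rw [abs_le]; constructor <;> linarith
    have h5 := hexp (t' - t) h4
    have h6 : ‖Complex.exp (((1 - t' : ℝ) : ℂ) * muk w k)‖ *
        ‖Complex.exp (((t' - t : ℝ) : ℂ) * muk w k) - 1‖ ≤ 3 * (2 * μ * |t' - t|) :=
      mul_le_mul h3 h5 (norm_nonneg _) (by norm_num)
    have h7 : ‖linOf w (zk k)‖ * (‖Complex.exp (((1 - t' : ℝ) : ℂ) * muk w k)‖ *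
        ‖Complex.exp (((t' - t : ℝ) : ℂ) * muk w k) - 1‖) ≤ (B + 2) * (3 * (2 * μ * |t' - t|)) :=
      mul_le_mul hLn h6 (by positivity) ((norm_nonneg _).trans hLn)
    rw [abs_sub_comm t t']
    linarith

theorem nea_mvt {P : ℂ → ℂ} (hP : ContDiff ℝ ∞ P) {C : ℝ} (hC0 : 0 < C)
    (hC : ∀ x y, ‖fderiv ℝ P x - fderiv ℝ P y‖ ≤ C * ‖x - y‖) {N : ℕ} (hN : 0 < N) (x₀ : ℂ)
    {x x' : ℂ} (hx : x ∈ ball x₀ 2) (hx' : x' ∈ ball x₀ 2) :
    ‖neaP P N x - neaP P N x' - fderiv ℝ P ((N : ℝ)⁻¹ • x₀) (x - x')‖ ≤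
      2 * C / N * ‖x - x'‖ := by
  have hN' : (0 : ℝ) < N := by exact_mod_cast hN
  have hder : ∀ z, HasFDerivAt (fun z => neaP P N z - fderiv ℝ P ((N : ℝ)⁻¹ • x₀) z)
      (fderiv ℝ P ((N : ℝ)⁻¹ • z) - fderiv ℝ P ((N : ℝ)⁻¹ • x₀)) z := by
    intro z
    have h1 : HasFDerivAt (fun z : ℂ => (N : ℝ)⁻¹ • z)
        ((N : ℝ)⁻¹ • ContinuousLinearMap.id ℝ ℂ) z := by
      have := (hasFDerivAt_id (𝕜 := ℝ) z).const_smul ((N : ℝ)⁻¹)
      exact this
    have h2 : HasFDerivAt P (fderiv ℝ P ((N : ℝ)⁻¹ • z)) ((N : ℝ)⁻¹ • z) :=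
      ((hP.differentiable (by norm_num)) _).hasFDerivAt
    have h3 := (h2.comp z h1).const_smul (N : ℝ)
    have h4 : (N : ℝ) • (fderiv ℝ P ((N : ℝ)⁻¹ • z)).comp
        ((N : ℝ)⁻¹ • ContinuousLinearMap.id ℝ ℂ) = fderiv ℝ P ((N : ℝ)⁻¹ • z) := by
      ext w
      simp [hN'.ne']
    rw [h4] at h3
    exact h3.sub (fderiv ℝ P ((N : ℝ)⁻¹ • x₀)).hasFDerivAt
  have key := (convex_ball x₀ 2).norm_image_sub_le_of_norm_hasFDerivWithin_le (𝕜 := ℝ)
    (f := fun z => neaP P N z - fderiv ℝ P ((N : ℝ)⁻¹ • x₀) z)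
    (f' := fun z => fderiv ℝ P ((N : ℝ)⁻¹ • z) - fderiv ℝ P ((N : ℝ)⁻¹ • x₀))
    (C := 2 * C / N) (fun z _ => (hder z).hasFDerivWithinAt) (fun z hz => by
      refine (hC _ _).trans ?_
      rw [← smul_sub, norm_smul, norm_inv, Real.norm_of_nonneg hN'.le]
      have hz' : ‖z - x₀‖ ≤ 2 := by
        rw [← dist_eq_norm]; exact (mem_ball.mp hz).le
      rw [mul_comm 2 C, mul_div_assoc, inv_mul_eq_div]
      gcongr) hx' hx
  have e : neaP P N x - neaP P N x' - fderiv ℝ P ((N : ℝ)⁻¹ • x₀) (x - x') =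
      (neaP P N x - fderiv ℝ P ((N : ℝ)⁻¹ • x₀) x) -
      (neaP P N x' - fderiv ℝ P ((N : ℝ)⁻¹ • x₀) x') := by
    rw [map_sub]; ring
  rw [e]
  exact key

theorem nea_fan_sub (w w' : Fin 6 → ℂ) (y : ℂ) :
    fan (fun k => w k - w' k) y = fan w y - fan w' y := by
  simp [fan, mul_sub, Finset.sum_sub_distrib]

theorem nea_fanW (D : ℂ →L[ℝ] ℂ) (y : ℂ) : fan (neaW D) y = D y := by
  have h : neaW D = fun k => linOf (neaW D) (zk k) := by
    funext k
    rw [nea_linOf]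
    rfl
  rw [h, fan_linOf, nea_linOf]

theorem nea_local_aux {w : Fin 6 → ℂ} {D : ℂ →L[ℝ] ℂ} {η M : ℝ} (hM : 1 ≤ M) (hη : 0 ≤ η)
    (h1 : ∀ k t, 0 ≤ t → t ≤ 1 → ‖omg w t k - D (zk k)‖ ≤ η)
    (h2 : ∀ k t t', 0 ≤ t → t ≤ 1 → 0 ≤ t' → t' ≤ 1 → ‖omg w t k - omg w t' k‖ ≤ η * |t - t'|)
    (y y' : ℂ) (hyy : ‖y'‖ ≤ ‖y‖) :
    ‖(fan (omg w (cut M (4 * ‖y‖))) y - D y) - (fan (omg w (cut M (4 * ‖y'‖))) y' - D y')‖ ≤
      24 * η * ‖y - y'‖ := by
  have hM0 : 0 < M := lt_of_lt_of_le one_pos hM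
  set τ := cut M (4 * ‖y‖) with hτ
  set τ' := cut M (4 * ‖y'‖) with hτ'
  have t0 : 0 ≤ τ := cut_nonneg hM0
  have t1 : τ ≤ 1 := cut_le_one hM0
  have t0' : 0 ≤ τ' := cut_nonneg hM0
  have t1' : τ' ≤ 1 := cut_le_one hM0
  have e : (fan (omg w τ) y - D y) - (fan (omg w τ') y' - D y') =
      (fan (fun k => omg w τ k - neaW D k) y - fan (fun k => omg w τ k - neaW D k) y') +
      (fan (omg w τ) y' - fan (omg w τ') y') := by
    rw [nea_fan_sub, nea_fan_sub, nea_fanW, nea_fanW]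
    ring
  rw [e]
  have b1 : ‖fan (fun k => omg w τ k - neaW D k) y - fan (fun k => omg w τ k - neaW D k) y'‖ ≤
      12 * η * ‖y - y'‖ := by
    refine (fan_lip_y _ y y').trans ?_
    have : ∑ k, ‖omg w τ k - neaW D k‖ ≤ 6 * η := by
      have := Finset.sum_le_card_nsmul (Finset.univ : Finset (Fin 6))
        (fun k => ‖omg w τ k - neaW D k‖) η (fun k _ => h1 k τ t0 t1)
      simpa using this
    nlinarith [norm_nonneg (y - y')]
  have b2 : ‖fan (omg w τ) y' - fan (omg w τ') y'‖ ≤ 12 * η * (|τ - τ'| * ‖y'‖) := by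
    refine (fan_lip _ _ y').trans ?_
    have : ∑ k, ‖omg w τ k - omg w τ' k‖ ≤ 6 * (η * |τ - τ'|) := by
      have := Finset.sum_le_card_nsmul (Finset.univ : Finset (Fin 6))
        (fun k => ‖omg w τ k - omg w τ' k‖) (η * |τ - τ'|) (fun k _ => h2 k τ τ' t0 t1 t0' t1')
      simpa using this
    nlinarith [norm_nonneg y']
  have b3 : |τ - τ'| * ‖y'‖ ≤ ‖y - y'‖ := by
    have h := cut_slow (M := M) (a := 4 * ‖y‖) (a' := 4 * ‖y'‖) (b := 1) (b' := 1) hM0
      (by positivity) (by positivity) one_pos one_pos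
    rw [div_one, div_one, ← hτ, ← hτ', min_eq_right (by linarith), sub_self, abs_zero,
      add_zero, ← mul_sub, abs_mul, abs_of_pos (by norm_num : (0 : ℝ) < 4)] at h
    have h4 : 4 * |‖y‖ - ‖y'‖| / M ≤ 4 * |‖y‖ - ‖y'‖| := div_le_self (by positivity) hM
    have h5 := abs_norm_sub_norm_le y y'
    linarith
  refine (norm_add_le _ _).trans ?_
  have b4 : 12 * η * (|τ - τ'| * ‖y'‖) ≤ 12 * η * ‖y - y'‖ :=
    mul_le_mul_of_nonneg_left b3 (by positivity)
  linarith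

theorem nea_local {w : Fin 6 → ℂ} {D : ℂ →L[ℝ] ℂ} {η M : ℝ} (hM : 1 ≤ M) (hη : 0 ≤ η)
    (h1 : ∀ k t, 0 ≤ t → t ≤ 1 → ‖omg w t k - D (zk k)‖ ≤ η)
    (h2 : ∀ k t t', 0 ≤ t → t ≤ 1 → 0 ≤ t' → t' ≤ 1 → ‖omg w t k - omg w t' k‖ ≤ η * |t - t'|)
    (y y' : ℂ) :
    ‖(fan (omg w (cut M (4 * ‖y‖))) y - D y) - (fan (omg w (cut M (4 * ‖y'‖))) y' - D y')‖ ≤
      24 * η * ‖y - y'‖ := by
  rcases le_total ‖y'‖ ‖y‖ with h | h
  · exact nea_local_aux hM hη h1 h2 y y' h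
  · rw [norm_sub_rev, norm_sub_rev y y']
    exact nea_local_aux hM hη h1 h2 y' y h

theorem nea_co_le (y : ℂ) : |coA y| ≤ 2 * ‖y‖ ∧ |coB y| ≤ 2 * ‖y‖ := by
  have hre := Complex.abs_re_le_norm y
  have him := Complex.abs_im_le_norm y
  have h3 : (1 : ℝ) ≤ Real.sqrt 3 := by
    rw [Real.one_le_sqrt]; norm_num
  have h3' : 2 / Real.sqrt 3 ≤ 2 := div_le_self (by norm_num) h3
  have h3p : 0 ≤ 2 / Real.sqrt 3 := by positivity
  have hB : |coB y| ≤ 2 * ‖y‖ := by
    unfold coB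
    rw [abs_mul, abs_of_nonneg h3p]
    nlinarith [abs_nonneg y.im, norm_nonneg y]
  refine ⟨?_, hB⟩
  unfold coA
  have := abs_sub y.re (coB y / 2)
  rw [abs_div, abs_two] at this
  linarith

theorem nea_emb_large {n : ℕ} {v : ℤ × ℤ} (h : ¬ (|v.1| < (2 * n : ℕ) ∧ |v.2| < (2 * n : ℕ))) :
    (n : ℝ) ≤ ‖emb v‖ := by
  by_contra hlt
  push Not at hlt
  apply h
  have h1 := nea_co_le (emb v)
  rw [nea_coA_emb, nea_coB_emb] at h1
  constructor
  · have : |(v.1 : ℝ)| < ((2 * n : ℕ) : ℝ) := by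
      push_cast
      linarith [h1.1]
    exact_mod_cast this
  · have : |(v.2 : ℝ)| < ((2 * n : ℕ) : ℝ) := by
      push_cast
      linarith [h1.2]
    exact_mod_cast this

theorem nea_clamp (t t' : ℝ) :
    |max 0 (min 1 t) - max 0 (min 1 t')| ≤ |t - t'| := by
  have h1 := abs_max_sub_max_le_max 0 (min 1 t) 0 (min 1 t')
  have h2 := abs_min_sub_min_le_max 1 t 1 t'
  rw [sub_self, abs_zero, max_eq_right (abs_nonneg (min 1 t - min 1 t'))] at h1
  rw [sub_self, abs_zero, max_eq_right (abs_nonneg (t - t'))] at h2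
  exact h1.trans h2

theorem near_linear {P : ℂ → ℂ} (hP : ContDiff ℝ ∞ P) (hinj : Function.Injective P)
    (hd : ∀ x v, fderiv ℝ P x v = 0 → v = 0) (hs : ∀ x, 1 ≤ ‖x‖ → P x = x) :
    ∃ (N n : ℕ), 0 < N ∧ ∃ u : Cfg, ValidCfg u ∧ IdOut n u ∧
      ∀ M ≥ (1 : ℝ), PlanePath (fun x => (N : ℝ) • P ((N : ℝ)⁻¹ • x)) (kmod u M) := by
  obtain ⟨C, hC0, hC⟩ := nea_lip hP hs
  obtain ⟨c, hc, hcl⟩ := nea_lower hP hd hs
  obtain ⟨B, hB0, hB⟩ : ∃ B : ℝ, 0 ≤ B ∧ ∀ x, ‖fderiv ℝ P x‖ ≤ B := by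
    refine ⟨‖fderiv ℝ P 0‖ + C + 1, by positivity, fun x => ?_⟩
    by_cases hx : 1 < ‖x‖
    · rw [nea_fderiv_far hs hx]
      have := ContinuousLinearMap.norm_id_le (𝕜 := ℝ) (E := ℂ)
      have := norm_nonneg (fderiv ℝ P 0)
      linarith
    · have h1 := hC x 0
      rw [sub_zero] at h1
      have h2 : ‖fderiv ℝ P x‖ ≤ ‖fderiv ℝ P x - fderiv ℝ P 0‖ + ‖fderiv ℝ P 0‖ := by
        simpa using norm_add_le (fderiv ℝ P x - fderiv ℝ P 0) (fderiv ℝ P 0)
      have h3 : C * ‖x‖ ≤ C * 1 := mul_le_mul_of_nonneg_left (not_lt.mp hx) hC0.le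
      linarith
  -- constants
  obtain ⟨η, hη⟩ : ∃ η : ℝ, η = c / 192 := ⟨_, rfl⟩
  have hη0 : 0 < η := by rw [hη]; positivity
  obtain ⟨μ, hμ⟩ : ∃ μ : ℝ, μ = min 1 (η / (12 * (B + 2))) := ⟨_, rfl⟩
  have hμ0 : 0 < μ := by rw [hμ]; exact lt_min one_pos (by positivity)
  have hμ1 : μ ≤ 1 := by rw [hμ]; exact min_le_left _ _
  have hμB : (B + 2) * μ ≤ η / 12 := by
    have h1 : μ ≤ η / (12 * (B + 2)) := by rw [hμ]; exact min_le_right _ _
    have h2 : (B + 2) * μ ≤ (B + 2) * (η / (12 * (B + 2))) :=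
      mul_le_mul_of_nonneg_left h1 (by positivity)
    have h3 : (B + 2) * (η / (12 * (B + 2))) = η / 12 := by field_simp
    linarith
  obtain ⟨δ, hδ0, hδ⟩ := nea_unif hP hd hs hμ0
  obtain ⟨ρ, hρ⟩ : ∃ ρ : ℝ, ρ = min (min (δ / 2) (η / 4)) (min 1 (c / 8)) := ⟨_, rfl⟩
  have hρ0 : 0 < ρ := by
    rw [hρ]
    exact lt_min (lt_min (by positivity) (by positivity)) (lt_min one_pos (by positivity))
  have hρδ : ρ ≤ δ / 2 := by rw [hρ]; exact (min_le_left _ _).trans (min_le_left _ _)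
  have hρη : ρ ≤ η / 4 := by rw [hρ]; exact (min_le_left _ _).trans (min_le_right _ _)
  have hρ1 : ρ ≤ 1 := by rw [hρ]; exact (min_le_right _ _).trans (min_le_left _ _)
  have hρc : ρ ≤ c / 8 := by rw [hρ]; exact (min_le_right _ _).trans (min_le_right _ _)
  obtain ⟨N, hNgt⟩ := exists_nat_gt (2 * C / ρ)
  have hN' : (0 : ℝ) < N := lt_trans (by positivity) hNgt
  have hN : 0 < N := by exact_mod_cast hN'
  have hκ : 2 * C / N ≤ ρ := by
    rw [div_le_iff₀ hN']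
    rw [div_lt_iff₀ hρ0] at hNgt
    linarith
  have hκ0 : 0 ≤ 2 * C / N := by positivity
  obtain ⟨u, hu⟩ : ∃ u : Cfg, u = fun v => neaP P N (emb v) := ⟨_, rfl⟩
  have hmv := fun x₀ x x' (hx : x ∈ ball x₀ 2) (hx' : x' ∈ ball x₀ 2) =>
    (nea_mvt hP hC0 hC hN x₀ hx hx').trans (mul_le_mul_of_nonneg_right hκ (norm_nonneg _))
  -- stars
  have hstar : ∀ v, dist (star u v) (neaW (fderiv ℝ P ((N : ℝ)⁻¹ • emb v))) ≤ ρ := by
    intro v
    rw [dist_pi_le_iff hρ0.le]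
    intro k
    rw [dist_eq_norm]
    have h1 := hmv (emb v) (emb (v + dir k)) (emb v) (by
      rw [mem_ball, dist_eq_norm, emb_add, add_sub_cancel_left]
      have : ‖emb (dir k)‖ = 1 := norm_zk k
      rw [this]; norm_num) (mem_ball_self (by norm_num))
    have h2 : emb (v + dir k) - emb v = zk k := by
      rw [emb_add, add_sub_cancel_left]; rfl
    rw [h2, norm_zk, mul_one] at h1
    rw [hu]
    exact h1
  have hvalid : ValidCfg u := fun v => (hδ _ _ ((hstar v).trans_lt (by linarith))).1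
  have hfarN : ∀ v, (N : ℝ) ≤ ‖emb v‖ → u v = emb v := by
    intro v hv
    rw [hu]
    exact neaP_far hs hN hv
  have hid : IdOut (2 * N) u := fun v hv => hfarN v (nea_emb_large (by exact_mod_cast hv))
  refine ⟨N, 2 * N, hN, u, hvalid, hid, fun M hM => ?_⟩
  have hM0 : 0 < M := lt_of_lt_of_le one_pos hM
  have hsq3 : Real.sqrt 3 * Real.sqrt 3 = 3 := Real.mul_self_sqrt (by norm_num)
  have hsq : (3 : ℝ) / 2 ≤ Real.sqrt 3 := by
    apply Real.le_sqrt_of_sq_le; norm_num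
  have hr3 : 1 / Real.sqrt 3 + 1 / 4 ≤ Real.sqrt 3 / 2 := by
    have : 1 / Real.sqrt 3 = Real.sqrt 3 / 3 := by
      rw [div_eq_div_iff (by positivity) (by norm_num)]
      linarith
    rw [this]; linarith
  -- the local form of kmod
  have hloc : ∀ x₀, ∃ v, ‖x₀ - emb v‖ ≤ 1 / Real.sqrt 3 ∧ ∀ x ∈ ball x₀ (1 / 4),
      kmod u M x = u v + fan (omg (star u v) (cut M (4 * ‖x - emb v‖))) (x - emb v) := by
    intro x₀
    obtain ⟨v, -, hv1, hv2⟩ := exists_nearest x₀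
    refine ⟨v, hv1, fun x hx => ?_⟩
    rw [mem_ball, dist_eq_norm] at hx
    have h1 : ‖x - emb v‖ ≤ Real.sqrt 3 / 2 := by
      have : x - emb v = (x - x₀) + (x₀ - emb v) := by ring
      rw [this]
      refine (norm_add_le _ _).trans ?_
      linarith
    have h2 : ∀ v', v' ≠ v → 1 / 4 ≤ ‖emb v + (x - emb v) - emb v'‖ := by
      intro v' hv'
      have h3 := hv2 v' hv'
      have h4 : ‖x₀ - emb v'‖ ≤ ‖x₀ - x‖ + ‖x - emb v'‖ := by
        have : x₀ - emb v' = (x₀ - x) + (x - emb v') := by ring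
        rw [this]
        exact norm_add_le _ _
      rw [norm_sub_rev x₀ x] at h4
      rw [add_sub_cancel]
      linarith
    have h5 := kmod_local hvalid hM0 h1 h2
    rw [add_sub_cancel] at h5
    exact h5
  -- far away
  have hfar : ∀ x, (N : ℝ) + 3 ≤ ‖x‖ → kmod u M x = x := by
    intro x hx
    obtain ⟨v, hv1, hv2⟩ := hloc x
    rw [hv2 x (mem_ball_self (by norm_num))]
    have h1 : 1 / Real.sqrt 3 ≤ 1 := by
      rw [div_le_one (by positivity)]; linarith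
    have h2 : (N : ℝ) + 2 ≤ ‖emb v‖ := by
      have : ‖x‖ ≤ ‖x - emb v‖ + ‖emb v‖ := by
        simpa using norm_add_le (x - emb v) (emb v)
      linarith
    have h3 : ∀ k, u (v + dir k) = emb (v + dir k) := by
      intro k
      apply hfarN
      have h4 : ‖emb v‖ ≤ ‖emb (v + dir k)‖ + 1 := by
        have h5 : emb v = emb (v + dir k) - zk k := by
          rw [emb_add]; unfold zk; ring
        have h6 := norm_sub_le (emb (v + dir k)) (zk k)
        rw [← h5, norm_zk] at h6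
        exact h6
      linarith
    have h4 : star u v = neaW (ContinuousLinearMap.id ℝ ℂ) := by
      funext k
      unfold star neaW
      rw [h3 k, hfarN v (by linarith), emb_add, add_sub_cancel_left]
      rfl
    have h5 : ValidFan (star u v) := hvalid v
    rw [h4] at h5 ⊢
    rw [omg_linOf h5 (fun k => by rw [nea_linOf]; rfl), nea_fanW, hfarN v (by linarith)]
    simp
  -- local Lipschitz bound
  have hlipAt : ∀ x₀ ∈ (univ : Set ℂ), LipAt (c / 4) (fun x => kmod u M x - neaP P N x) x₀ := by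
    intro x₀ _
    obtain ⟨v, hv1, hv2⟩ := hloc x₀
    refine ⟨1 / 4, by norm_num, fun x hx x' hx' => ?_⟩
    simp only
    rw [hv2 x hx, hv2 x' hx']
    set D := fderiv ℝ P ((N : ℝ)⁻¹ • emb v) with hD
    have hst := hstar v
    rw [← hD] at hst
    have homg := fun k t t' h0 h1 h0' h1' => nea_omg (δ := ρ) (μ := μ) (B := B) hst hρ1 hμ1
      (fun k => ((hδ _ _ (hst.trans_lt (by linarith))).2 k).le) (hB _) k
      (t := t) (t' := t') h0 h1 h0' h1'
    have key := nea_local (w := star u v) (D := D) (η := η) hM hη0.le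
      (fun k t h0 h1 => (homg k t t h0 h1 h0 h1).1.trans (by nlinarith))
      (fun k t t' h0 h1 h0' h1' => (homg k t t' h0 h1 h0' h1').2.trans
        (mul_le_mul_of_nonneg_right (by nlinarith) (abs_nonneg _))) (x - emb v) (x' - emb v)
    have hin : ∀ x ∈ ball x₀ (1 / 4), x ∈ ball (emb v) 2 := by
      intro x hx
      rw [mem_ball, dist_eq_norm] at hx ⊢
      have : x - emb v = (x - x₀) + (x₀ - emb v) := by ring
      rw [this]
      refine (norm_add_le _ _).trans_lt ?_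
      have h1 : 1 / Real.sqrt 3 ≤ 1 := by
        rw [div_le_one (by positivity)]; linarith
      linarith
    have key2 := hmv (emb v) x x' (hin x hx) (hin x' hx')
    rw [← hD] at key2
    have e : (u v + fan (omg (star u v) (cut M (4 * ‖x - emb v‖))) (x - emb v) - neaP P N x) -
        (u v + fan (omg (star u v) (cut M (4 * ‖x' - emb v‖))) (x' - emb v) - neaP P N x') =
        ((fan (omg (star u v) (cut M (4 * ‖x - emb v‖))) (x - emb v) - D (x - emb v)) -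
        (fan (omg (star u v) (cut M (4 * ‖x' - emb v‖))) (x' - emb v) - D (x' - emb v))) -
        (neaP P N x - neaP P N x' - D (x - x')) := by
      simp only [map_sub]
      ring
    rw [e]
    have e2 : x - emb v - (x' - emb v) = x - x' := by ring
    rw [e2] at key
    refine (norm_sub_le _ _).trans ?_
    have h24 : 24 * η = c / 8 := by rw [hη]; ring
    rw [h24] at key
    nlinarith [norm_nonneg (x - x')]
  have hlip := lip_of_lipAt (convex_univ (𝕜 := ℝ)) hlipAt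
  have hlip' : ∀ x x', ‖(kmod u M x - neaP P N x) - (kmod u M x' - neaP P N x')‖ ≤
      c / 4 * ‖x - x'‖ := fun x x' => hlip x (mem_univ _) x' (mem_univ _)
  have hzero : ∀ x, (N : ℝ) + 3 ≤ ‖x‖ → kmod u M x - neaP P N x = 0 := by
    intro x hx
    rw [hfar x hx, neaP_far hs hN (by linarith), sub_self]
  have hbd : ∀ x, ‖kmod u M x - neaP P N x‖ ≤ c / 4 * (2 * (N + 3)) := by
    intro x
    by_cases hx : (N : ℝ) + 3 ≤ ‖x‖
    · rw [hzero x hx, norm_zero]; positivity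
    · push Not at hx
      have hR : ‖(((N : ℝ) + 3 : ℝ) : ℂ)‖ = N + 3 := by
        rw [Complex.norm_real, Real.norm_of_nonneg (by positivity)]
      have h1 := hlip' x (((N : ℝ) + 3 : ℝ) : ℂ)
      rw [hzero _ hR.ge, sub_zero] at h1
      refine h1.trans (mul_le_mul_of_nonneg_left ?_ (by positivity))
      refine (norm_sub_le _ _).trans ?_
      rw [hR]
      linarith
  -- the path
  refine ⟨fun t x => neaP P N x + (max 0 (min 1 t) : ℝ) • (kmod u M x - neaP P N x), N + 3,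
    c / 4 * (2 * (N + 3)), ?_, ?_, ?_, ?_, ?_⟩
  · intro t ht
    funext x
    have : max 0 (min 1 t) = 0 := by
      rw [max_eq_left]
      exact (min_le_right _ _).trans ht
    simp only [this, zero_smul, add_zero]
    rfl
  · intro t ht
    funext x
    have : max 0 (min 1 t) = 1 := by
      rw [min_eq_left ht]
      exact max_eq_right zero_le_one
    simp only [this, one_smul]
    ring
  · intro t x hx
    simp only
    rw [hzero x hx, smul_zero, add_zero, neaP_far hs hN (by linarith)]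
  · intro t t' x
    simp only
    rw [add_sub_add_left_eq_sub, ← sub_smul, norm_smul, mul_comm (c / 4 * (2 * ((N : ℝ) + 3)))]
    exact mul_le_mul (nea_clamp t t') (hbd x) (norm_nonneg _) (abs_nonneg _)
  · intro t x₀
    refine ⟨c - c / 2, by linarith, ?_⟩
    refine famGood_of_near (K := {fderiv ℝ P ((N : ℝ)⁻¹ • x₀)}) (r := 2)
      (goodSet_singleton (hcl _)) (by positivity) (by norm_num) (Eventually.of_forall ?_)
    intro q x hx x' hx'
    refine ⟨_, mem_singleton _, ?_⟩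
    have e : neaP P N x + (max 0 (min 1 q) : ℝ) • (kmod u M x - neaP P N x) -
        (neaP P N x' + (max 0 (min 1 q) : ℝ) • (kmod u M x' - neaP P N x')) -
        fderiv ℝ P ((N : ℝ)⁻¹ • x₀) (x - x') =
        (neaP P N x - neaP P N x' - fderiv ℝ P ((N : ℝ)⁻¹ • x₀) (x - x')) +
        (max 0 (min 1 q) : ℝ) • ((kmod u M x - neaP P N x) - (kmod u M x' - neaP P N x')) := by
      simp only [smul_sub]
      ring
    rw [e]
    refine (norm_add_le _ _).trans ?_
    rw [norm_smul]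
    have h1 := hmv x₀ x x' hx hx'
    have h2 := hlip' x x'
    have h3 : ‖(max 0 (min 1 q) : ℝ)‖ ≤ 1 := by
      rw [Real.norm_of_nonneg (le_max_left _ _)]
      exact max_le zero_le_one (min_le_left _ _)
    have h4 : ‖(max 0 (min 1 q) : ℝ)‖ *
        ‖(kmod u M x - neaP P N x) - (kmod u M x' - neaP P N x')‖ ≤ 1 * (c / 4 * ‖x - x'‖) :=
      mul_le_mul h3 h2 (norm_nonneg _) zero_le_one
    nlinarith [norm_nonneg (x - x')]

end SM
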