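import Pool.Agent.SM.Defs
import Pool.Agent.SM.Sec
import Pool.Agent.SM.Inj
import Pool.Agent.SM.Lat
import Pool.Agent.SM.Fnb
import Pool.Agent.SM.Kma
import Pool.Agent.SM.Kmb
import Pool.Agent.SM.Nea
import Pool.Agent.SM.Chb

/-!
# Project SM, module TH1
-/

open Set Metric Filter Topology MeasureTheory
open scoped ContDiff Pointwise

noncomputable section

namespace SM

theorem planePath_refl_id : PlanePath id id := by
  refine ⟨fun _ => id, 0, 0, fun _ _ => rfl, fun _ _ => rfl, fun _ _ _ => rfl, fun t t' x => ?_,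
    fun t x => ?_⟩
  · simp
  · obtain ⟨c, hc, h⟩ := secGood_of_contDiffAt (f := (id : ℂ → ℂ)) (x₀ := x) contDiffAt_id
      (fun v hv => by simpa using hv)
    exact ⟨c, hc, h.famGood t⟩

theorem star_emb (v : ℤ × ℤ) : star emb v = zk := by
  funext k
  unfold star zk
  rw [emb_add, add_sub_cancel_left]

theorem chain_path {n : ℕ} {u : Cfg} (h : Relation.ReflTransGen (ValidStep n) u emb) :
    (∀ v, wind (star u v) = 2 * Real.pi * Complex.I) ∧
      ∃ M₀ > 0, ∀ M ≥ M₀, PlanePath (kmod u M) id := by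
  induction h using Relation.ReflTransGen.head_induction_on with
  | refl =>
    refine ⟨fun v => by rw [star_emb]; exact wind_zk, 1, one_pos, fun M hM => ?_⟩
    rw [kmod_emb (by linarith)]
    exact planePath_refl_id
  | head hab _ ih =>
    obtain ⟨hw, M₀, hM₀, hp⟩ := ih
    have hw' := wind_step hab hw
    obtain ⟨M₁, hM₁, hp'⟩ := kmod_path hab hw'
    exact ⟨hw', max M₀ M₁, lt_max_of_lt_left hM₀, fun M hM =>
      (hp' M ((le_max_right _ _).trans hM)).trans (hp M ((le_max_left _ _).trans hM))⟩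

theorem planar_isotopy {P : ℂ → ℂ} (hP : ContDiff ℝ ∞ P) (hinj : Function.Injective P)
    (hd : ∀ x v, fderiv ℝ P x v = 0 → v = 0) (hs : ∀ x, 1 ≤ ‖x‖ → P x = x) :
    PlanePath P id := by
  obtain ⟨N, n, hN, u, hv, hid, hp⟩ := near_linear hP hinj hd hs
  obtain ⟨-, M₀, hM₀, hp'⟩ := chain_path (exists_chain hid hv)
  have h1 := (hp (max M₀ 1) (le_max_right _ _)).trans (hp' (max M₀ 1) (le_max_left _ _))
  have hN' : (0 : ℝ) < N := by exact_mod_cast hN
  refine PlanePath.scale hN' ?_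
  have h2 : (fun x : ℂ => (N : ℝ) • id ((N : ℝ)⁻¹ • x)) = id := by
    funext x
    rw [id, id, smul_smul, mul_inv_cancel₀ hN'.ne', one_smul]
  rw [h2]
  exact h1

end SM
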