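import Pool.Agent.SM.Defs
import Pool.Agent.SM.Sec
import Pool.Agent.SM.Hc
import Pool.Agent.SM.Moa

/-!
# Project SM, module VP1 : homogeneous mollification
-/

open Set Metric Filter Topology MeasureTheory
open scoped ContDiff Pointwise

noncomputable section

namespace SM

/-- the clamp to the unit interval -/
private def vcl (t : ℝ) : ℝ := max 0 (min 1 t)

private lemma vcl_nonneg (t : ℝ) : 0 ≤ vcl t := le_max_left _ _

private lemma vcl_le_one (t : ℝ) : vcl t ≤ 1 := max_le zero_le_one (min_le_left _ _)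

private lemma vcl_of_nonpos {t : ℝ} (ht : t ≤ 0) : vcl t = 0 := by
  rw [vcl, min_eq_right (ht.trans zero_le_one), max_eq_left ht]

private lemma vcl_of_one_le {t : ℝ} (ht : 1 ≤ t) : vcl t = 1 := by
  rw [vcl, min_eq_left ht, max_eq_right zero_le_one]

private lemma vcl_lip (t t' : ℝ) : |vcl t - vcl t'| ≤ |t - t'| := by
  rw [vcl, vcl]
  have h1 := abs_max_sub_max_le_abs (min 1 t) (min 1 t') 0
  rw [max_comm (min 1 t) 0, max_comm (min 1 t') 0] at h1
  have h2 := abs_min_sub_min_le_max 1 t 1 t'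
  refine h1.trans (h2.trans ?_)
  rw [sub_self, abs_zero]
  exact max_le (abs_nonneg _) le_rfl

/-- the homogeneous mollification -/
private def vmol (h : E3 → E3) (κ : ℝ) (t : ℝ) (x : E3) : E3 :=
  moll h (fun y => vcl t * κ * ‖y‖) x

private lemma vmol_posHom {h : E3 → E3} (hh : PosHom h) (κ t : ℝ) : PosHom (vmol h κ t) := by
  intro a ha x
  rw [vmol, vmol, moll, moll, ← integral_smul]
  congr 1
  funext u
  have h1 : a • x - (vcl t * κ * ‖a • x‖) • u = a • (x - (vcl t * κ * ‖x‖) • u) := by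
    rw [norm_smul, Real.norm_of_nonneg ha, smul_sub, smul_smul]
    congr 2
    ring
  rw [h1, hh a ha, smul_comm]

theorem homPath_smooth {h : E3 → E3} (hh : PosHom h) (hc : Continuous h)
    (hinj : Function.Injective h) (hg : ∀ x, x ≠ 0 → ∃ c > 0, SecGood c h x) {a : E3}
    (ha : a ≠ 0) {r : ℝ} (hr : 0 < r) {A : E3 →L[ℝ] E3} (hA : ∀ x ∈ ball a r, h x = A x) :
    ∃ h₁ : E3 → E3, HomPath h h₁ ∧ PosHom h₁ ∧ Function.Injective h₁ ∧
      (∀ x, x ≠ 0 → ContDiffAt ℝ ∞ h₁ x) ∧ (∀ x, x ≠ 0 → ∀ v, fderiv ℝ h₁ x v = 0 → v = 0) ∧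
      ∃ r' > 0, ∀ x ∈ ball a r', h₁ x = A x := by
  obtain ⟨c0, hc0, Λ, hΛ, r0, hr0, hr1, hK⟩ := posHom_uniform hh hg
  obtain ⟨c1, hc1, hlow⟩ := posHom_lower hh hinj hg
  obtain ⟨C, hC, hlip⟩ := posHom_lipschitz hh (fun x hx => by
    obtain ⟨c, -, h1⟩ := hg x hx
    exact h1.lipAt)
  have hna : 0 < ‖a‖ := norm_pos_iff.2 ha
  obtain ⟨κ, hκ, hκ1, hκ2, hκ3, hκ4⟩ : ∃ κ > 0, κ ≤ r0 / 8 ∧ κ ≤ c0 / (4 * Λ) ∧
      κ ≤ c1 * r0 / (16 * C) ∧ κ ≤ r / (4 * ‖a‖) := by
    refine ⟨min (min (r0 / 8) (c0 / (4 * Λ))) (min (c1 * r0 / (16 * C)) (r / (4 * ‖a‖))), ?_,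
      (min_le_left _ _).trans (min_le_left _ _), (min_le_left _ _).trans (min_le_right _ _),
      (min_le_right _ _).trans (min_le_left _ _), (min_le_right _ _).trans (min_le_right _ _)⟩
    positivity
  have hΛκ : Λ * κ ≤ c0 / 4 := by
    rw [le_div_iff₀ (by positivity)] at hκ2
    linarith
  have hCκ : C * κ ≤ c1 * r0 / 16 := by
    rw [le_div_iff₀ (by positivity)] at hκ3
    linarith
  have haκ : κ * ‖a‖ ≤ r / 4 := by
    rw [le_div_iff₀ (by positivity)] at hκ4
    linarith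
  have hδ0 : ∀ t (x : E3), 0 ≤ vcl t * κ * ‖x‖ := fun t x =>
    mul_nonneg (mul_nonneg (vcl_nonneg t) hκ.le) (norm_nonneg _)
  have hδ1 : ∀ t (x : E3), vcl t * κ * ‖x‖ ≤ κ * ‖x‖ := by
    intro t x
    have := mul_le_mul_of_nonneg_right (vcl_le_one t) (mul_nonneg hκ.le (norm_nonneg x))
    linarith
  -- closeness to `h`
  have hnear : ∀ t x, ‖vmol h κ t x - h x‖ ≤ C * (κ * ‖x‖) := by
    intro t x
    have h1 : ‖vmol h κ t x - h x‖ ≤ C * (vcl t * κ * ‖x‖) :=
      moll_near (δ := fun y => vcl t * κ * ‖y‖) (hδ0 t x) hc.continuousOn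
        (fun y _ => hlip y x)
    exact h1.trans (mul_le_mul_of_nonneg_left (hδ1 t x) hC.le)
  -- secants near a point
  have hsec : ∀ x₀, x₀ ≠ 0 → ∃ K : Set (E3 →L[ℝ] E3), GoodSet c0 K ∧ ∀ t,
      ∀ x ∈ ball x₀ (r0 * ‖x₀‖ / 4), ∀ x' ∈ ball x₀ (r0 * ‖x₀‖ / 4), ∃ M ∈ K,
        ‖vmol h κ t x - vmol h κ t x' - M (x - x')‖ ≤ c0 / 4 * ‖x - x'‖ := by
    intro x₀ hx₀
    obtain ⟨K, hKg, hKΛ, hKs⟩ := hK x₀ hx₀
    refine ⟨K, hKg, ?_⟩
    have hn0 : 0 < ‖x₀‖ := norm_pos_iff.2 hx₀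
    have hcb : ∀ t, ∀ x ∈ ball x₀ (r0 * ‖x₀‖ / 4),
        closedBall x (vcl t * κ * ‖x‖) ⊆ ball x₀ (r0 * ‖x₀‖) := by
      intro t x hx y hy
      rw [mem_ball] at hx ⊢
      rw [mem_closedBall] at hy
      have h1 : ‖x‖ ≤ 2 * ‖x₀‖ := by
        have h2 : ‖x‖ ≤ ‖x - x₀‖ + ‖x₀‖ := by
          have := norm_add_le (x - x₀) x₀
          rwa [sub_add_cancel] at this
        rw [dist_eq_norm] at hx
        nlinarith
      have h3 : vcl t * κ * ‖x‖ ≤ r0 / 8 * (2 * ‖x₀‖) :=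
        (hδ1 t x).trans (mul_le_mul hκ1 h1 (norm_nonneg _) (by positivity))
      have h4 := dist_triangle y x x₀
      have h5 : 0 < r0 * ‖x₀‖ := mul_pos hr0 hn0
      linarith
    intro t x hx x' hx'
    obtain ⟨M, hM, h1⟩ := moll_sec (δ := fun y => vcl t * κ * ‖y‖) hKg.convex hKg.compact hKΛ hKs
      (hδ0 t x) (hδ0 t x') (hcb t x hx) (hcb t x' hx')
    refine ⟨M, hM, h1.trans ?_⟩
    have h2 : |vcl t * κ * ‖x‖ - vcl t * κ * ‖x'‖| ≤ κ * ‖x - x'‖ := by
      rw [← mul_sub, abs_mul, abs_of_nonneg (mul_nonneg (vcl_nonneg t) hκ.le)]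
      have h3 := abs_norm_sub_norm_le x x'
      have h4 : vcl t * κ ≤ κ := by
        have := mul_le_mul_of_nonneg_right (vcl_le_one t) hκ.le
        linarith
      exact mul_le_mul h4 h3 (abs_nonneg _) hκ.le
    calc Λ * |vcl t * κ * ‖x‖ - vcl t * κ * ‖x'‖| ≤ Λ * (κ * ‖x - x'‖) :=
          mul_le_mul_of_nonneg_left h2 hΛ.le
      _ = Λ * κ * ‖x - x'‖ := by ring
      _ ≤ c0 / 4 * ‖x - x'‖ := mul_le_mul_of_nonneg_right hΛκ (norm_nonneg _)
  have hgood : ∀ t x, x ≠ 0 → FamGood (c0 - c0 / 4) (vmol h κ) t x := by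
    intro t x hx
    obtain ⟨K, hKg, hKs⟩ := hsec x hx
    have hn0 : 0 < ‖x‖ := norm_pos_iff.2 hx
    exact famGood_of_near hKg (by positivity) (by positivity)
      (Filter.Eventually.of_forall fun q => hKs q)
  have hpos : 0 < c0 - c0 / 4 := by linarith
  -- injectivity
  have hinj2 : ∀ t x x', x ≠ x' → ‖x'‖ ≤ ‖x‖ → vmol h κ t x ≠ vmol h κ t x' := by
    intro t x x' hne hle heq
    have hd : 0 < ‖x - x'‖ := norm_pos_iff.2 (sub_ne_zero.2 hne)
    have hx0 : x ≠ 0 := by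
      rintro rfl
      rw [norm_zero] at hle
      exact hne (norm_le_zero_iff.1 hle).symm
    have hn0 : 0 < ‖x‖ := norm_pos_iff.2 hx0
    rcases lt_or_ge ‖x - x'‖ (r0 * ‖x‖ / 4) with h1 | h1
    · obtain ⟨K, hKg, hKs⟩ := hsec x hx0
      obtain ⟨M, hM, h2⟩ := hKs t x (mem_ball_self (by positivity)) x' (by
        rw [mem_ball, dist_comm, dist_eq_norm]
        exact h1)
      rw [heq, sub_self, zero_sub, norm_neg] at h2
      have h3 := hKg.lower M hM (x - x')
      nlinarith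
    · have h2 := hnear t x
      have h3 := hnear t x'
      have h4 := hlow x x'
      have h5 : ‖h x - h x'‖ ≤ ‖vmol h κ t x - h x‖ + ‖vmol h κ t x' - h x'‖ := by
        have h6 : h x - h x' = -(vmol h κ t x - h x) + (vmol h κ t x' - h x') := by
          rw [heq]
          abel
        rw [h6]
        refine (norm_add_le _ _).trans ?_
        rw [norm_neg]
      have h7 : C * (κ * ‖x'‖) ≤ C * (κ * ‖x‖) :=
        mul_le_mul_of_nonneg_left (mul_le_mul_of_nonneg_left hle hκ.le) hC.le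
      have h8 : C * (κ * ‖x‖) ≤ c1 * r0 / 16 * ‖x‖ := by
        have := mul_le_mul_of_nonneg_right hCκ hn0.le
        linarith
      have h9 : c1 * (r0 * ‖x‖ / 4) ≤ c1 * ‖x - x'‖ := mul_le_mul_of_nonneg_left h1 hc1.le
      have h10 : 0 < c1 * r0 * ‖x‖ := by positivity
      nlinarith
  have hinj3 : ∀ t, Function.Injective (vmol h κ t) := by
    intro t x x' heq
    by_contra hne
    rcases le_total ‖x'‖ ‖x‖ with h1 | h1
    · exact hinj2 t x x' hne h1 heq
    · exact hinj2 t x' x (Ne.symm hne) h1 heq.symm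
  have hfam : HomFam (vmol h κ) (C * κ) := by
    refine ⟨?_, ?_, fun t => vmol_posHom hh κ t, ?_, hinj3, ?_⟩
    · intro t ht
      funext x
      rw [vmol, vmol, vcl_of_nonpos ht, vcl_of_nonpos le_rfl]
    · intro t ht
      funext x
      rw [vmol, vmol, vcl_of_one_le ht, vcl_of_one_le le_rfl]
    · intro t t' x
      have hs : SecOn h ({0} + closedBall (0 : E3 →L[ℝ] E3) C) univ := by
        apply secOn_of_near hC.le
        intro y _ y' _
        refine ⟨0, rfl, ?_⟩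
        rw [zero_apply, sub_zero]
        exact hlip y y'
      have hset : ({0} + closedBall (0 : E3 →L[ℝ] E3) C) = closedBall 0 C := by
        rw [singleton_add_closedBall, zero_add]
      rw [hset] at hs
      obtain ⟨M, hM, h1⟩ := moll_sec' (δ := fun y => vcl t * κ * ‖y‖)
        (δ' := fun y => vcl t' * κ * ‖y‖) (x := x) (x' := x) (Λ := C)
        (convex_closedBall _ _) (isCompact_closedBall _ _)
        (fun M hM => by simpa using hM) hs (hδ0 t x) (hδ0 t' x) (subset_univ _) (subset_univ _)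
      rw [sub_self, map_zero, sub_zero] at h1
      refine h1.trans ?_
      have h2 : |vcl t * κ * ‖x‖ - vcl t' * κ * ‖x‖| = |vcl t - vcl t'| * (κ * ‖x‖) := by
        have h3 : vcl t * κ * ‖x‖ - vcl t' * κ * ‖x‖ = (vcl t - vcl t') * (κ * ‖x‖) := by ring
        rw [h3, abs_mul, abs_of_nonneg (mul_nonneg hκ.le (norm_nonneg x))]
      rw [h2]
      have h4 := mul_le_mul_of_nonneg_right (vcl_lip t t') (mul_nonneg hκ.le (norm_nonneg x))
      have h5 := mul_le_mul_of_nonneg_left h4 hC.le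
      linarith
    · intro t x hx
      exact ⟨_, hpos, hgood t x hx⟩
  have hH0 : vmol h κ 0 = h := by
    funext x
    have h1 : ‖vmol h κ 0 x - h x‖ ≤ C * (vcl 0 * κ * ‖x‖) :=
      moll_near (δ := fun y => vcl 0 * κ * ‖y‖) (hδ0 0 x) hc.continuousOn
        (fun y _ => hlip y x)
    rw [vcl_of_nonpos le_rfl, zero_mul, zero_mul, mul_zero] at h1
    exact sub_eq_zero.1 (norm_le_zero_iff.1 h1)
  have hv1 : vcl 1 = 1 := vcl_of_one_le le_rfl
  refine ⟨vmol h κ 1, ⟨vmol h κ, C * κ, hfam, hH0, rfl⟩, vmol_posHom hh κ 1, hinj3 1, ?_, ?_, ?_⟩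
  · intro x hx
    have h1 : ContDiffOn ℝ ∞ (moll h (fun y => vcl 1 * κ * ‖y‖)) {x : E3 | x ≠ 0} := by
      apply moll_smooth isOpen_ne isOpen_univ hc.continuousOn
      · intro y hy
        exact (contDiffAt_const.mul (contDiffAt_norm ℝ hy)).contDiffWithinAt
      · intro y hy
        rw [hv1, one_mul]
        exact mul_pos hκ (norm_pos_iff.2 hy)
      · intro y _
        exact subset_univ _
    exact h1.contDiffAt (isOpen_ne.mem_nhds hx)
  · intro x hx v hv
    have h1 := (hgood 1 x hx).secGood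
    have hdiff : DifferentiableAt ℝ (vmol h κ 1) x := by
      have h2 : ContDiffOn ℝ ∞ (moll h (fun y => vcl 1 * κ * ‖y‖)) {x : E3 | x ≠ 0} := by
        apply moll_smooth isOpen_ne isOpen_univ hc.continuousOn
        · intro y hy
          exact (contDiffAt_const.mul (contDiffAt_norm ℝ hy)).contDiffWithinAt
        · intro y hy
          rw [hv1, one_mul]
          exact mul_pos hκ (norm_pos_iff.2 hy)
        · intro y _
          exact subset_univ _
      exact (h2.contDiffAt (isOpen_ne.mem_nhds hx)).differentiableAt (by simp)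
    have h3 := h1.fderiv_lower hdiff v
    rw [hv, norm_zero] at h3
    by_contra hv0
    have := norm_pos_iff.2 hv0
    nlinarith
  · refine ⟨min (r / 4) ‖a‖, lt_min (by positivity) hna, ?_⟩
    intro x hx
    have hx1 : dist x a < r / 4 := lt_of_lt_of_le (mem_ball.1 hx) (min_le_left _ _)
    have hx2 : dist x a < ‖a‖ := lt_of_lt_of_le (mem_ball.1 hx) (min_le_right _ _)
    have hxn : ‖x‖ ≤ 2 * ‖a‖ := by
      have h2 : ‖x‖ ≤ ‖x - a‖ + ‖a‖ := by
        have := norm_add_le (x - a) a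
        rwa [sub_add_cancel] at this
      rw [dist_eq_norm] at hx2
      linarith
    have h1 : moll h (fun y => vcl 1 * κ * ‖y‖) x = A x + 0 := by
      apply moll_affine (hδ0 1 x)
      intro y hy
      rw [add_zero]
      apply hA
      rw [mem_closedBall, hv1, one_mul] at hy
      rw [mem_ball]
      have h3 := dist_triangle y x a
      have h4 : κ * ‖x‖ ≤ κ * (2 * ‖a‖) := mul_le_mul_of_nonneg_left hxn hκ.le
      linarith
    rw [add_zero] at h1
    exact h1

end SM
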