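import Pool.Agent.SM.Defs
import Pool.Agent.SM.Sec
import Pool.Agent.SM.Hp
import Pool.Agent.SM.Vp1
import Pool.Agent.SM.Psi
import Pool.Agent.SM.Sli
import Pool.Agent.SM.Hmg
import Pool.Agent.SM.Inj
import Pool.Agent.SM.Th1

/-!
# Project SM, module VPA
-/

open Set Metric Filter Topology MeasureTheory
open scoped ContDiff Pointwise

noncomputable section

namespace SM

section comp

variable {X Y Z : Type*} [NormedAddCommGroup X] [NormedSpace ℝ X]
  [NormedAddCommGroup Y] [NormedSpace ℝ Y] [NormedAddCommGroup Z] [NormedSpace ℝ Z]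

/-- composition of smooth maps with injective derivatives -/
theorem vpa_comp {f : X → Y} {g : Y → Z} {x : X} (hf : ContDiffAt ℝ ∞ f x)
    (hf' : ∀ v, fderiv ℝ f x v = 0 → v = 0) (hg : ContDiffAt ℝ ∞ g (f x))
    (hg' : ∀ v, fderiv ℝ g (f x) v = 0 → v = 0) :
    ContDiffAt ℝ ∞ (fun x => g (f x)) x ∧ ∀ v, fderiv ℝ (fun x => g (f x)) x v = 0 → v = 0 := by
  refine ⟨hg.comp x hf, fun v hv => ?_⟩
  have h1 : HasFDerivAt f (fderiv ℝ f x) x := (hf.differentiableAt (by simp)).hasFDerivAt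
  have h2 : HasFDerivAt g (fderiv ℝ g (f x)) (f x) := (hg.differentiableAt (by simp)).hasFDerivAt
  have h3 := (h2.comp x h1).fderiv
  have h4 : fderiv ℝ (fun x => g (f x)) x = (fderiv ℝ g (f x)).comp (fderiv ℝ f x) := h3
  rw [h4] at hv
  exact hf' v (hg' _ hv)

theorem vpa_equiv (L : X ≃L[ℝ] Y) (x : X) :
    ContDiffAt ℝ ∞ (fun x => L x) x ∧ ∀ v, fderiv ℝ (fun x => L x) x v = 0 → v = 0 := by
  refine ⟨L.contDiff.contDiffAt, fun v hv => ?_⟩
  have h1 : fderiv ℝ (fun x => L x) x = (L : X →L[ℝ] Y) := L.hasFDerivAt.fderiv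
  rw [h1] at hv
  simpa using hv

end comp

theorem homPath_linear {h : E3 → E3} (hh : PosHom h) (hc : Continuous h)
    (hinj : Function.Injective h) (hg : ∀ x, x ≠ 0 → ∃ c > 0, SecGood c h x) {a : E3}
    (ha : a ≠ 0) {r : ℝ} (hr : 0 < r) {A : E3 →L[ℝ] E3} (hA : ∀ x ∈ ball a r, h x = A x) :
    HomPath h A := by
  obtain ⟨h₁, hp, hh₁, hinj₁, hd₁, hf₁, r', hr', hA₁⟩ := homPath_smooth hh hc hinj hg ha hr hA
  -- `A` is an isomorphism
  have hAinj : Function.Injective (A : E3 →ₗ[ℝ] E3) := by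
    rw [injective_iff_map_eq_zero]
    intro v hv
    have hv' : A v = 0 := hv
    by_contra hv0
    have hnv : 0 < ‖v‖ := norm_pos_iff.2 hv0
    have h1 : a + (r / (2 * ‖v‖)) • v ∈ ball a r := by
      rw [mem_ball, dist_eq_norm, add_sub_cancel_left, norm_smul,
        Real.norm_of_nonneg (by positivity)]
      field_simp
      linarith
    have h2 := hA _ h1
    rw [map_add, map_smul, hv', smul_zero, add_zero, ← hA a (mem_ball_self hr)] at h2
    have h3 := hinj h2
    have h4 : (r / (2 * ‖v‖)) • v = 0 := by simpa using h3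
    rcases smul_eq_zero.1 h4 with h5 | h5
    · have : 0 < r / (2 * ‖v‖) := by positivity
      linarith
    · exact hv0 h5
  set Ae : E3 ≃L[ℝ] E3 := (LinearEquiv.ofInjectiveEndo _ hAinj).toContinuousLinearEquiv with hAe
  have hAeA : ∀ x, Ae x = A x := fun x => rfl
  -- coordinates
  obtain ⟨Φ, hΦ⟩ : ∃ Φ : E3 ≃L[ℝ] ℂ × ℝ, Φ a = (0, -1) := by
    have h1 : Module.finrank ℝ E3 = Module.finrank ℝ (ℂ × ℝ) := by
      simp
    let e₀ : E3 ≃L[ℝ] ℂ × ℝ := ContinuousLinearEquiv.ofFinrankEq h1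
    have h2 : e₀ a ≠ 0 := by
      intro h3
      exact ha (by simpa using h3)
    have h3 : ((0, -1) : ℂ × ℝ) ≠ 0 := by
      intro h4
      have := congrArg Prod.snd h4
      simp at this
    obtain ⟨L, hL⟩ := SeparatingDual.exists_continuousLinearEquiv_apply_eq (R := ℝ) h2 h3
    exact ⟨e₀.trans L, hL⟩
  set k₀ : ℂ × ℝ → ℂ × ℝ := fun q => Φ (Ae.symm (h₁ (Φ.symm q))) with hk₀
  have hk₀h : PosHom k₀ := by
    intro t ht q
    simp only [hk₀]
    rw [map_smul, hh₁ t ht, map_smul, map_smul]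
  have hk₀i : Function.Injective k₀ := fun q q' he =>
    Φ.symm.injective (hinj₁ (Ae.symm.injective (Φ.injective he)))
  have hk₀0 : k₀ 0 = 0 := by
    have := hk₀h 0 le_rfl 0
    simpa using this
  have hk₀d : ∀ q, q ≠ 0 → ContDiffAt ℝ ∞ k₀ q ∧ ∀ v, fderiv ℝ k₀ q v = 0 → v = 0 := by
    intro q hq
    have hq' : Φ.symm q ≠ 0 := fun h => hq (by simpa using h)
    have e1 := vpa_equiv Φ.symm q
    have e2 := vpa_comp (g := h₁) e1.1 e1.2 (hd₁ _ hq') (hf₁ _ hq')
    have e3 := vpa_equiv Ae.symm (h₁ (Φ.symm q))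
    have e4 := vpa_comp (g := fun x => Ae.symm x) e2.1 e2.2 e3.1 e3.2
    have e5 := vpa_equiv Φ (Ae.symm (h₁ (Φ.symm q)))
    exact vpa_comp (g := fun x => Φ x) e4.1 e4.2 e5.1 e5.2
  obtain ⟨s, hs, hk₀id⟩ : ∃ s > 0, ∀ q ∈ ball ((0, -1) : ℂ × ℝ) s, k₀ q = q := by
    have h1 : ∀ᶠ q in 𝓝 ((0, -1) : ℂ × ℝ), Φ.symm q ∈ ball a r' := by
      apply Φ.symm.continuous.continuousAt.eventually
      rw [← hΦ, Φ.symm_apply_apply]
      exact ball_mem_nhds a hr'
    obtain ⟨s, hs, h2⟩ := Metric.eventually_nhds_iff_ball.1 h1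
    refine ⟨s, hs, fun q hq => ?_⟩
    simp only [hk₀]
    rw [hA₁ _ (h2 q hq), ← hAeA, Ae.symm_apply_apply, Φ.apply_symm_apply]
  set M : ℝ := 2 / s with hM
  have hM0 : 0 < M := by positivity
  have hcone : ∀ q : ℂ × ℝ, q.2 ≤ -M * ‖q.1‖ → k₀ q = q := by
    intro q hq
    have h0 : q.2 ≤ 0 := by nlinarith [norm_nonneg q.1]
    rcases h0.eq_or_lt with h1 | h1
    · have h2 : ‖q.1‖ = 0 := by
        by_contra h3
        have h4 : 0 < ‖q.1‖ := lt_of_le_of_ne (norm_nonneg _) (Ne.symm h3)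
        nlinarith
      have h3 : q = 0 := Prod.ext (norm_eq_zero.1 h2) h1
      rw [h3, hk₀0]
    · have hz : 0 < -q.2 := by linarith
      have h2 : q = (-q.2) • (((-q.2)⁻¹ • q.1, -1) : ℂ × ℝ) := by
        rw [Prod.smul_mk, smul_smul, mul_inv_cancel₀ hz.ne', one_smul]
        ext <;> simp
      have h3 : (((-q.2)⁻¹ • q.1, -1) : ℂ × ℝ) ∈ ball ((0, -1) : ℂ × ℝ) s := by
        rw [mem_ball, dist_eq_norm, Prod.mk_sub_mk, sub_zero, sub_self, Prod.norm_def]
        simp only [norm_zero]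
        rw [max_eq_left (norm_nonneg _), norm_smul, norm_inv, Real.norm_of_nonneg hz.le,
          inv_mul_lt_iff₀ hz]
        have h4 : M * ‖q.1‖ ≤ -q.2 := by linarith
        have h5 : ‖q.1‖ ≤ -q.2 / M := by
          rw [le_div_iff₀ hM0]
          linarith
        have h6 : -q.2 / M = -q.2 * s / 2 := by
          rw [hM]
          field_simp
        have h7 : 0 < -q.2 * s := by positivity
        linarith
      rw [h2, hk₀h _ hz.le, hk₀id _ h3]
  set T : ℝ := M + 1 with hT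
  have hT0 : 0 < T := by positivity
  have hψi : Function.Injective (psi T) := fun x y he => by
    rw [← psiInv_psi hT0 x, he, psiInv_psi hT0 y]
  have hψi' : Function.Injective (psiInv T) := fun x y he => by
    rw [← psi_psiInv hT0 x, he, psi_psiInv hT0 y]
  have hψ0 : psi T 0 = 0 := by
    have := posHom_psi T 0 le_rfl 0
    simpa using this
  have hψ0' : psiInv T 0 = 0 := by
    have := posHom_psiInv T 0 le_rfl 0
    simpa using this
  set k : ℂ × ℝ → ℂ × ℝ := fun q => psi T (k₀ (psiInv T q)) with hk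
  have hkh : PosHom k := by
    intro t ht q
    simp only [hk]
    rw [posHom_psiInv T t ht, hk₀h t ht, posHom_psi T t ht]
  have hki : Function.Injective k := fun q q' he => hψi' (hk₀i (hψi he))
  have hkd : ∀ q, q ≠ 0 → ContDiffAt ℝ ∞ k q ∧ ∀ v, fderiv ℝ k q v = 0 → v = 0 := by
    intro q hq
    have hq1 : psiInv T q ≠ 0 := fun h => hq (hψi' (by rw [h, hψ0']))
    have hq2 : k₀ (psiInv T q) ≠ 0 := fun h => hq1 (hk₀i (by rw [h, hk₀0]))
    have e2 := vpa_comp (g := k₀) (contDiffAt_psiInv hT0 hq) (fderiv_psiInv hT0 hq)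
      (hk₀d _ hq1).1 (hk₀d _ hq1).2
    exact vpa_comp (g := psi T) e2.1 e2.2 (contDiffAt_psi hT0 hq2) (fderiv_psi hT0 hq2)
  have hkid : ∀ q : ℂ × ℝ, q.2 ≤ ‖q.1‖ → k q = q := by
    intro q hq
    simp only [hk]
    rw [hcone _ (psiInv_narrow hM0 hq), psi_psiInv hT0]
  obtain ⟨P, hP1, hP2, hP3, hP4, hP5⟩ := exists_slice hkh hki (fun x hx => (hkd x hx).1)
    (fun x hx => (hkd x hx).2) hkid
  obtain ⟨G, R, C, G0, G1, Gs, Gl, Gg⟩ := planar_isotopy hP1 hP2 hP3 hP4
  have hG : ∀ t, Function.Injective (G t) := by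
    refine planePath_injective (fun t ht => ?_) (fun t ht => ?_) Gs Gl Gg ?_
    · rw [G0 t ht, G0 0 le_rfl]
    · rw [G1 t ht, G1 1 le_rfl]
    · rw [G1 1 le_rfl]
      exact Function.injective_id
  have hk1 : HomPath k id := hP5.trans (homPath_of_planePath G0 G1 Gs Gl Gg hG)
  have hk2 : HomPath k₀ id := by
    have h1 := HomPath.conj hk1 (posHom_psi T) hψi
      (fun x hx => (contDiffAt_psi hT0 hx).of_le (by simp)) (fun x hx => fderiv_psi hT0 hx)
      (posHom_psiInv T) hψi' (fun x hx => (contDiffAt_psiInv hT0 hx).of_le (by simp))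
      (fun x hx => fderiv_psiInv hT0 hx)
    have h2 : (fun x => psiInv T (k (psi T x))) = k₀ := by
      funext x
      simp only [hk]
      rw [psiInv_psi hT0, psiInv_psi hT0]
    have h3 : (fun x => psiInv T (id (psi T x))) = id := by
      funext x
      simp only [id]
      rw [psiInv_psi hT0]
    rwa [h2, h3] at h1
  have hk3 : HomPath h₁ A := by
    have h1 := HomPath.conj hk2 (ψ := fun x : E3 => Φ x) (χ := fun q => Ae (Φ.symm q))
      (fun t _ x => by simp) (fun x y he => Φ.injective he)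
      (fun x _ => (vpa_equiv Φ x).1.of_le (by simp)) (fun x _ => (vpa_equiv Φ x).2)
      (fun t _ x => by simp) (fun x y he => Φ.symm.injective (Ae.injective he))
      (fun x _ => (vpa_equiv (Φ.symm.trans Ae) x).1.of_le (by simp))
      (fun x _ => (vpa_equiv (Φ.symm.trans Ae) x).2)
    have h2 : (fun x => Ae (Φ.symm (k₀ (Φ x)))) = h₁ := by
      funext x
      simp only [hk₀]
      rw [Φ.symm_apply_apply, Φ.symm_apply_apply, Ae.apply_symm_apply]
    have h3 : (fun x => Ae (Φ.symm (id (Φ x)))) = A := by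
      funext x
      simp only [id]
      rw [Φ.symm_apply_apply, hAeA]
    rwa [h2, h3] at h1
  exact hp.trans hk3

end SM
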