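import Pool.Agent.SM.Defs
import Pool.Agent.SM.Sec
import Pool.Agent.SM.Hc
import Pool.Agent.SM.Grm
import Pool.Agent.SM.Sta
import Pool.Agent.SM.Stb
import Pool.Agent.SM.Std
import Pool.Agent.SM.Cst
import Pool.Agent.SM.Tub
import Pool.Agent.SM.Hat

/-!
# Project SM, module VTX
-/

open Set Metric Filter Topology MeasureTheory
open scoped ContDiff Pointwise

noncomputable section

namespace SM

variable {f : E3 → E3} {Ω : Set E3} {B : E3 → ℝ}

theorem germ_shift (hf : LocConic f Ω) {v : E3} {R : ℝ} {h : E3 → E3} (hh : PosHom h)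
    (hb : ball v R ⊆ Ω) (hc : ConicAt f v R h) {x : E3} (hx : ‖x‖ < R) :
    germ f (v + x) = germ h x := by
  have hxΩ : v + x ∈ Ω := by
    apply hb
    rwa [mem_ball, dist_eq_norm, add_sub_cancel_left]
  obtain ⟨h1, r, hr, -, h2⟩ := hf.germ_spec hxΩ
  have h3 : 0 < min r (R - ‖x‖) := lt_min hr (by linarith)
  have h4 : ConicAt f (v + x) (min r (R - ‖x‖)) (germ f (v + x)) := fun w hw =>
    h2 w (lt_of_lt_of_le hw (min_le_left _ _))
  have h5 := (ConicAt.shift hh hc h3 (by linarith [min_le_right r (R - ‖x‖)])).1 h4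
  exact (germ_eq h3 h1 h5).symm

theorem hatMap_vertex (hf : LocConic f Ω) (hΩ : IsOpen Ω) (hT : TubeFun f Ω B) {v : E3}
    (hv : v ∈ Vs f Ω) {c r : ℝ} (hr : 0 < r) (hB : ∀ x ∈ ball v r, B x = c * ‖x - v‖) :
    ∃ r' > 0, ∀ w ∈ ball (0 : E3) r', hatMap f Ω B (v + w) =
      f v + hatMap (germ f v) univ (fun w => c * ‖w‖) w := by
  obtain ⟨hh, R, hR, hRΩ, hRc⟩ := hf.germ_spec hv.1
  set h := germ f v with hh'
  have hc2 : 0 < |c| + 2 := by positivity
  refine ⟨min r (R / (|c| + 2)), lt_min hr (by positivity), fun w hw => ?_⟩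
  rw [mem_ball, dist_zero_right, lt_min_iff] at hw
  have hwR : (|c| + 2) * ‖w‖ < R := by
    have := hw.2
    rw [lt_div_iff₀ hc2] at this
    linarith
  have hw1 : ‖w‖ < R := by nlinarith [norm_nonneg w, abs_nonneg c]
  have hBw : B (v + w) = c * ‖w‖ := by
    have := hB (v + w) (by rw [mem_ball, dist_eq_norm, add_sub_cancel_left]; exact hw.1)
    rwa [add_sub_cancel_left] at this
  have hg : ∀ x : E3, ‖x‖ < R → germ f (v + x) = germ h x := fun x hx =>
    germ_shift hf hh hRΩ hRc hx
  have hiff : ∀ x : E3, ‖x‖ < R →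
      (InTube f Ω B (v + w) (v + x) ↔ InTube h univ (fun w => c * ‖w‖) w x) := by
    intro x hx
    have hxΩ : v + x ∈ Ω := by
      apply hRΩ
      rwa [mem_ball, dist_eq_norm, add_sub_cancel_left]
    simp only [InTube, Es, rk, mem_setOf_eq, mem_univ, true_and, hg x hx, hBw,
      add_sub_add_left_eq_sub, hxΩ]
    rw [hg x hx]
  have hsmall : ∀ x : E3, ‖w - x‖ < c * ‖w‖ → ‖x‖ < R := by
    intro x hx
    have h1 : ‖x‖ ≤ ‖w‖ + ‖w - x‖ := by
      have := norm_sub_le w (w - x)
      rwa [sub_sub_cancel] at this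
    have h2 : c * ‖w‖ ≤ |c| * ‖w‖ := mul_le_mul_of_nonneg_right (le_abs_self c) (norm_nonneg _)
    nlinarith [norm_nonneg w]
  by_cases H : ∃ x, InTube h univ (fun w => c * ‖w‖) w x
  · have hx := H.choose_spec
    have hxR := hsmall _ hx.2.2
    have hT1 := (hiff _ hxR).2 hx
    rw [hatMap_eq_of_inTube hf hT hT1, hg _ hxR, hBw, add_sub_add_left_eq_sub, hRc _ hxR]
    unfold hatMap
    rw [dif_pos H]
    abel
  · have H' : ¬ ∃ e, InTube f Ω B (v + w) e := by
      rintro ⟨e, he⟩
      have h1 : ‖w - (e - v)‖ < c * ‖w‖ := by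
        have h2 := he.2.2
        rw [hBw] at h2
        have h3 : v + w - e = w - (e - v) := by abel
        rwa [h3] at h2
      refine H ⟨e - v, (hiff (e - v) (hsmall _ h1)).1 ?_⟩
      rwa [add_sub_cancel]
    unfold hatMap
    rw [dif_neg H, dif_neg H', hRc w hw1]

theorem germ_smul {h : E3 → E3} (hh : PosHom h) (hl : LocConic h univ) {a : ℝ} (ha : 0 < a)
    (x : E3) : germ h (a • x) = germ h x := by
  obtain ⟨h1, r, hr, -, h2⟩ := hl.germ_spec (mem_univ x)
  exact germ_eq (by positivity) h1 (ConicAt.smul hh h1 ha h2)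

theorem inTube_smul {h : E3 → E3} (hh : PosHom h) (hl : LocConic h univ) {a c : ℝ} (ha : 0 < a)
    {p e : E3} (H : InTube h univ (fun w => c * ‖w‖) p e) :
    InTube h univ (fun w => c * ‖w‖) (a • p) (a • e) := by
  refine ⟨⟨mem_univ _, ?_⟩, fun l hl' => ?_, ?_⟩
  · have h1 := H.1.2
    unfold rk at h1 ⊢
    rwa [germ_smul hh hl ha]
  · rw [germ_smul hh hl ha] at hl'
    rw [← smul_sub, inner_smul_left, H.2.1 l hl', mul_zero]
  · have h1 := H.2.2
    simp only [← smul_sub, norm_smul, Real.norm_of_nonneg ha.le] at h1 ⊢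
    have h2 := mul_lt_mul_of_pos_left h1 ha
    linarith

theorem hat_germ {h : E3 → E3} (hh : PosHom h) (hc : Continuous h)
    (hinj : Function.Injective h) (hl : LocConic h univ) (hr : rk h 0 = 0) :
    ∃ c₀ > 0, ∀ c, 0 < c → c ≤ c₀ →
      TubeFun h univ (fun w => c * ‖w‖) ∧
      PosHom (hatMap h univ (fun w => c * ‖w‖)) ∧
      Continuous (hatMap h univ (fun w => c * ‖w‖)) ∧
      Function.Injective (hatMap h univ (fun w => c * ‖w‖)) ∧
      (∀ x, x ≠ 0 → ∃ c' > 0, SecGood c' (hatMap h univ (fun w => c * ‖w‖)) x) ∧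
      ∃ a : E3, a ≠ 0 ∧ ∃ r > 0, ∃ A : E3 →L[ℝ] E3, ∀ x ∈ ball a r,
        hatMap h univ (fun w => c * ‖w‖) x = A x := by
  obtain ⟨ρ, hρ, C, hC, hu⟩ := vertex_uniform hh hl
  have hh0 : h 0 = 0 := by
    have := hh 0 le_rfl 0
    simpa using this
  -- a point of rank three
  obtain ⟨a, ha⟩ : ∃ a, a ∉ Zs h univ := by
    by_contra hcon
    push Not at hcon
    have h1 : Zs h univ = univ := eq_univ_of_forall hcon
    have h2 := volume_Zs hl isOpen_univ
    rw [h1] at h2
    exact (isOpen_univ.measure_pos volume univ_nonempty).ne' h2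
  have hra : rk h a = 3 := by
    have h1 := rk_le_three h a
    by_contra h2
    exact ha ⟨mem_univ a, by omega⟩
  have ha0 : a ≠ 0 := by
    rintro rfl
    rw [hr] at hra
    omega
  have hna : 0 < ‖a‖ := norm_pos_iff.2 ha0
  obtain ⟨r₀, hr₀, h0⟩ := rk_nearby hl (mem_univ a)
  obtain ⟨r₁, hr₁, h1⟩ := rk_nearby hl (mem_univ (0 : E3))
  have hrk : ∀ x : E3, x ≠ 0 → x ∉ Vs h univ := by
    intro x hx hv
    have hnx : 0 < ‖x‖ := norm_pos_iff.2 hx
    set t := r₁ / (2 * ‖x‖) with ht
    have ht0 : 0 < t := by positivity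
    have h2 : t • x ∈ ball (0 : E3) r₁ := by
      rw [mem_ball, dist_zero_right, norm_smul, Real.norm_of_nonneg ht0.le, ht]
      field_simp
      linarith
    have h3 := (h1 _ h2).2.2 (smul_ne_zero ht0.ne' hx)
    have h4 := hv.2
    unfold rk at h3 h4
    rw [germ_smul hh hl ht0] at h3
    omega
  refine ⟨min (1 / 8) (min ρ (r₀ / (4 * ‖a‖))), by positivity, fun c hc0 hcle => ?_⟩
  have hc1 : c ≤ 1 / 8 := hcle.trans (min_le_left _ _)
  have hc2 : c ≤ ρ := hcle.trans ((min_le_right _ _).trans (min_le_left _ _))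
  have hc3 : c ≤ r₀ / (4 * ‖a‖) := hcle.trans ((min_le_right _ _).trans (min_le_right _ _))
  have hT : TubeFun h univ (fun w => c * ‖w‖) := by
    refine ⟨?_, fun x _ hx => ?_, fun e he => ⟨subset_univ _, fun w hw => ?_⟩⟩
    · refine LipschitzWith.of_dist_le_mul fun x y => ?_
      rw [Real.dist_eq, ← mul_sub, abs_mul, abs_of_pos hc0]
      have h2 := abs_norm_sub_norm_le x y
      have h3 : (((1 / 8 : NNReal)) : ℝ) = 1 / 8 := by norm_num
      rw [h3, dist_eq_norm]
      exact mul_le_mul hc1 h2 (abs_nonneg _) (by norm_num)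
    · have hx0 : x ≠ 0 := by
        rintro rfl
        exact hx ⟨mem_univ _, hr⟩
      have : 0 < ‖x‖ := norm_pos_iff.2 hx0
      positivity
    · refine (hu e he).1 w (lt_of_lt_of_le hw ?_)
      have h2 := NOf_ge (germ h e)
      exact mul_le_mul_of_nonneg_left (mul_le_mul_of_nonneg_right hc2 (norm_nonneg _))
        (by linarith)
  have hgood : ∀ x, x ≠ 0 → ∃ c' > 0, SecGood c' (hatMap h univ (fun w => c * ‖w‖)) x :=
    fun x hx => hatMap_secGood hl hinj.injOn isOpen_univ hc.continuousOn hT (mem_univ x) (hrk x hx)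
  have hno : ∀ p, (¬ ∃ e, InTube h univ (fun w => c * ‖w‖) p e) →
      hatMap h univ (fun w => c * ‖w‖) p = h p := by
    intro p hp
    unfold hatMap
    rw [dif_neg hp]
  have hhom : PosHom (hatMap h univ (fun w => c * ‖w‖)) := by
    intro t ht x
    rcases ht.eq_or_lt with rfl | ht
    · rw [zero_smul, zero_smul, hno, hh0]
      rintro ⟨e, he⟩
      have h2 := he.2.2
      simp only [norm_zero, mul_zero] at h2
      linarith [norm_nonneg ((0 : E3) - e)]
    · by_cases H : ∃ e, InTube h univ (fun w => c * ‖w‖) x e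
      · obtain ⟨e, he⟩ := H
        have hE := edgePath_germ hl hinj.injOn isOpen_univ hc.continuousOn he.1
        rw [hatMap_eq_of_inTube hl hT he, hatMap_eq_of_inTube hl hT (inTube_smul hh hl ht he),
          germ_smul hh hl ht, hh t ht.le, ← smul_sub, hE.hom _ t ht.le, smul_add]
        congr 3
        rw [norm_smul, norm_smul, Real.norm_of_nonneg ht.le]
        have h2 : t * ‖x - e‖ / (c * (t * ‖x‖)) = ‖x - e‖ / (c * ‖x‖) := by
          rw [show c * (t * ‖x‖) = t * (c * ‖x‖) by ring, mul_div_mul_left _ _ ht.ne']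
        rw [h2]
      · have H' : ¬ ∃ e, InTube h univ (fun w => c * ‖w‖) (t • x) e := by
          rintro ⟨e, he⟩
          have h2 := inTube_smul hh hl (inv_pos.2 ht) he
          rw [smul_smul, inv_mul_cancel₀ ht.ne', one_smul] at h2
          exact H ⟨_, h2⟩
        rw [hno _ H, hno _ H', hh t ht.le]
  have hcont : Continuous (hatMap h univ (fun w => c * ‖w‖)) := by
    obtain ⟨L, -, hL⟩ := posHom_lipschitz hhom fun x hx => by
      obtain ⟨c', -, h2⟩ := hgood x hx
      exact h2.lipAt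
    refine (LipschitzWith.of_dist_le' (K := L) fun x y => ?_).continuous
    rw [dist_eq_norm, dist_eq_norm]
    exact hL x y
  refine ⟨hT, hhom, hcont, ?_, hgood, a, ha0, ?_⟩
  · have := hatMap_injOn hl hinj.injOn isOpen_univ hc.continuousOn hT
    rwa [injOn_univ] at this
  · obtain ⟨A, hA⟩ := rk_eq_three hl (mem_univ a) hra
    obtain ⟨-, R, hR, -, h2⟩ := hl.germ_spec (mem_univ a)
    rw [hA] at h2
    have hfar : hatMap h univ (fun w => c * ‖w‖) =ᶠ[𝓝 a] h := by
      refine hatMap_near_far hT (by positivity) fun e he => ?_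
      have h3 : r₀ ≤ ‖a - e‖ := by
        by_contra h4
        rw [not_le] at h4
        have h5 : e ∈ ball a r₀ := by
          rwa [mem_ball, dist_comm, dist_eq_norm]
        have h6 := (h0 e h5).2.1
        have h7 := he.2
        omega
      rw [le_div_iff₀ (by positivity)] at hc3
      linarith
    have haA : h a = A a := by
      set s := R / (2 * ‖a‖) with hs
      have hs0 : 0 < s := by positivity
      have h3 : ‖s • a‖ < R := by
        rw [norm_smul, Real.norm_of_nonneg hs0.le, hs]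
        field_simp
        linarith
      have h4 := h2 _ h3
      have h5 : a + s • a = (1 + s) • a := by rw [add_smul, one_smul]
      rw [h5, hh (1 + s) (by positivity), map_smul, add_smul, one_smul] at h4
      exact smul_right_injective _ hs0.ne' (add_left_cancel h4)
    obtain ⟨r', hr', h3⟩ := Metric.eventually_nhds_iff_ball.1 hfar
    refine ⟨min r' R, lt_min hr' hR, A, fun x hx => ?_⟩
    rw [h3 x (ball_subset_ball (min_le_left _ _) hx)]
    have h4 : ‖x - a‖ < R := by
      have := ball_subset_ball (min_le_right _ _) hx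
      rwa [mem_ball, dist_eq_norm] at this
    have h5 := h2 _ h4
    rw [add_sub_cancel] at h5
    rw [h5, haA, ← map_add, add_sub_cancel]

end SM
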