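import Pool.Agent.SM.Defs
import Pool.Agent.SM.Sec
import Pool.Agent.SM.Srd
import Pool.Agent.SM.Opn
import Pool.Agent.SM.Hc
import Pool.Agent.SM.Cut
import Pool.Agent.SM.Dth
import Pool.Agent.SM.Mst
import Pool.Agent.SM.Grm
import Pool.Agent.SM.Sta
import Pool.Agent.SM.Stb
import Pool.Agent.SM.Stc
import Pool.Agent.SM.Std
import Pool.Agent.SM.Cst
import Pool.Agent.SM.Tub
import Pool.Agent.SM.Hat
import Pool.Agent.SM.Vtx
import Pool.Agent.SM.Vpa

/-!
# Project SM, module SMA (assembly of the smoothing theorem)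
-/

open Set Metric Filter Topology MeasureTheory
open scoped ContDiff Pointwise

noncomputable section

namespace SM

/-- filling a vertex -/
theorem vertex_fill {h : E3 → E3} (hh : PosHom h) (hc : Continuous h)
    (hinj : Function.Injective h) (hg : ∀ x, x ≠ 0 → ∃ c > 0, SecGood c h x) {a : E3}
    (ha : a ≠ 0) {r : ℝ} (hr : 0 < r) {A : E3 →L[ℝ] E3} (hA : ∀ x ∈ ball a r, h x = A x) :
    ∃ (g : E3 → E3) (C : ℝ), (∀ x, 1 ≤ ‖x‖ → g x = h x) ∧ (∀ x, ∃ c > 0, SecGood c g x) ∧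
      Function.Injective g ∧ (∀ x x', ‖g x - g x'‖ ≤ C * ‖x - x'‖) ∧
      Function.Surjective h :=
  fill_of_homPath (homPath_linear hh hc hinj hg ha hr hA)

namespace SMA

variable {X : Type*} [NormedAddCommGroup X]

theorem LPos.mono_set {β : X → ℝ} {Ω Ω' : Set X} (h : LPos β Ω) (hs : Ω' ⊆ Ω) : LPos β Ω' :=
  fun x hx => h x (hs hx)

theorem LPos.min {β β' : X → ℝ} {Ω : Set X} (h : LPos β Ω) (h' : LPos β' Ω) :
    LPos (fun x => min (β x) (β' x)) Ω := by
  intro x hx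
  obtain ⟨b, hb, r, hr, H⟩ := h x hx
  obtain ⟨b', hb', r', hr', H'⟩ := h' x hx
  exact ⟨_, lt_min hb hb', _, lt_min hr hr', fun y hy => min_le_min
    (H y (ball_subset_ball (min_le_left _ _) hy)) (H' y (ball_subset_ball (min_le_right _ _) hy))⟩

theorem LPos.mul_const {β : X → ℝ} {Ω : Set X} (h : LPos β Ω) {a : ℝ} (ha : 0 < a) :
    LPos (fun x => β x * a) Ω := by
  intro x hx
  obtain ⟨b, hb, r, hr, H⟩ := h x hx
  exact ⟨b * a, by positivity, r, hr, fun y hy => mul_le_mul_of_nonneg_right (H y hy) ha.le⟩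

theorem LPos.of_continuousOn {β : X → ℝ} {Ω : Set X} (hΩ : IsOpen Ω) (h : ContinuousOn β Ω)
    (h0 : ∀ x ∈ Ω, 0 < β x) : LPos β Ω := by
  intro x hx
  have h1 : ∀ᶠ y in 𝓝 x, β x / 2 < β y :=
    (h.continuousAt (hΩ.mem_nhds hx)).eventually (lt_mem_nhds (by linarith [h0 x hx]))
  obtain ⟨r, hr, H⟩ := Metric.eventually_nhds_iff_ball.1 h1
  exact ⟨β x / 2, by linarith [h0 x hx], r, hr, fun y hy => (H y hy).le⟩

theorem LPos.pos {β : X → ℝ} {Ω : Set X} (h : LPos β Ω) {x : X} (hx : x ∈ Ω) : 0 < β x := by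
  obtain ⟨b, hb, r, hr, H⟩ := h x hx
  exact lt_of_lt_of_le hb (H x (mem_ball_self hr))

theorem exists_ball_radius {Ω : Set E3} (hΩ : IsOpen Ω) :
    ∃ om : E3 → ℝ, LPos om Ω ∧ ∀ x ∈ Ω, ball x (om x) ⊆ Ω := by
  rcases Ωᶜ.eq_empty_or_nonempty with h | h
  · refine ⟨fun _ => 1, fun x _ => ⟨1, one_pos, 1, one_pos, fun _ _ => le_rfl⟩, fun x _ => ?_⟩
    rw [compl_empty_iff] at h
    rw [h]
    exact subset_univ _
  · refine ⟨fun x => infDist x Ωᶜ, LPos.of_continuousOn hΩ (continuous_infDist_pt _).continuousOn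
      fun x hx => ?_, fun x _ => ball_infDist_compl_subset⟩
    exact (hΩ.isClosed_compl.notMem_iff_infDist_pos h).1 (fun h' => h' hx)

theorem LipAt.mono {Y : Type*} [NormedAddCommGroup Y] {C C' : ℝ} {f : X → Y} {x : X}
    (h : LipAt C f x) (hC : C ≤ C') : LipAt C' f x := by
  obtain ⟨r, hr, H⟩ := h
  exact ⟨r, hr, fun y hy y' hy' => (H y hy y' hy').trans
    (mul_le_mul_of_nonneg_right hC (norm_nonneg _))⟩

theorem LipAt.congr {Y : Type*} [NormedAddCommGroup Y] {C : ℝ} {f f' : X → Y} {x : X}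
    (h : LipAt C f x) (he : f =ᶠ[𝓝 x] f') : LipAt C f' x := by
  obtain ⟨r, hr, H⟩ := h
  obtain ⟨r', hr', hb⟩ := Metric.eventually_nhds_iff_ball.1 he
  refine ⟨min r r', lt_min hr hr', fun y hy y' hy' => ?_⟩
  rw [← hb y (ball_subset_ball (min_le_right _ _) hy),
    ← hb y' (ball_subset_ball (min_le_right _ _) hy')]
  exact H y (ball_subset_ball (min_le_left _ _) hy) y' (ball_subset_ball (min_le_left _ _) hy')

/-- scaling of good secants -/
theorem secGood_scale {g : E3 → E3} {b v : E3} {δ c : ℝ} (hδ : 0 < δ) {p : E3}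
    (h : SecGood c g (δ⁻¹ • (p - v))) :
    SecGood c (fun x => b + δ • g (δ⁻¹ • (x - v))) p := by
  obtain ⟨K, hK, r, hr, H⟩ := h
  refine ⟨K, hK, δ * r, by positivity, fun x hx x' hx' => ?_⟩
  have key : ∀ y ∈ ball p (δ * r), δ⁻¹ • (y - v) ∈ ball (δ⁻¹ • (p - v)) r := by
    intro y hy
    rw [mem_ball, dist_eq_norm, ← smul_sub, norm_smul, norm_inv, Real.norm_of_nonneg hδ.le,
      sub_sub_sub_cancel_right, inv_mul_lt_iff₀ hδ]
    rwa [mem_ball, dist_eq_norm] at hy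
  obtain ⟨M, hM, hM'⟩ := H _ (key x hx) _ (key x' hx')
  refine ⟨M, hM, ?_⟩
  have h1 : δ⁻¹ • (x - v) - δ⁻¹ • (x' - v) = δ⁻¹ • (x - x') := by
    rw [← smul_sub, sub_sub_sub_cancel_right]
  rw [h1, map_smul] at hM'
  rw [add_sub_add_left_eq_sub, ← smul_sub, hM', smul_smul, mul_inv_cancel₀ hδ.ne', one_smul]

theorem lip_scale {g : E3 → E3} {b v : E3} {δ C : ℝ} (hδ : 0 < δ)
    (h : ∀ x x', ‖g x - g x'‖ ≤ C * ‖x - x'‖) (p : E3) :
    LipAt C (fun x => b + δ • g (δ⁻¹ • (x - v))) p := by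
  refine ⟨1, one_pos, fun x _ x' _ => ?_⟩
  rw [add_sub_add_left_eq_sub, ← smul_sub, norm_smul, Real.norm_of_nonneg hδ.le]
  have h1 : δ⁻¹ • (x - v) - δ⁻¹ • (x' - v) = δ⁻¹ • (x - x') := by
    rw [← smul_sub, sub_sub_sub_cancel_right]
  have h2 := h (δ⁻¹ • (x - v)) (δ⁻¹ • (x' - v))
  rw [h1, norm_smul, norm_inv, Real.norm_of_nonneg hδ.le] at h2
  calc δ * ‖g (δ⁻¹ • (x - v)) - g (δ⁻¹ • (x' - v))‖ ≤ δ * (C * (δ⁻¹ * ‖x - x'‖)) :=
        mul_le_mul_of_nonneg_left h2 hδ.le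
    _ = C * ‖x - x'‖ := by field_simp

end SMA

open SMA

/-- data attached to a vertex -/
structure VData (f : E3 → E3) (Ω : Set E3) (A : E3 → ℝ) (v : E3) (c : ℝ) (g : E3 → E3) (C : ℝ) :
    Prop where
  cpos : 0 < c
  cle : c ≤ 1 / 8
  cA : ∃ r > 0, ∀ x ∈ ball v r, c * ‖x - v‖ ≤ A x
  hom : PosHom (hatMap (germ f v) univ (fun w => c * ‖w‖))
  cont : Continuous (hatMap (germ f v) univ (fun w => c * ‖w‖))
  geq : ∀ x, 1 ≤ ‖x‖ → g x = hatMap (germ f v) univ (fun w => c * ‖w‖) x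
  ggood : ∀ x, ∃ c' > 0, SecGood c' g x
  ginj : Function.Injective g
  glip : ∀ x x', ‖g x - g x'‖ ≤ C * ‖x - x'‖
  surj : Function.Surjective (hatMap (germ f v) univ (fun w => c * ‖w‖))

theorem exists_vData {Ω : Set E3} (hΩ : IsOpen Ω) {f : E3 → E3} (hc : ContinuousOn f Ω)
    (hinj : InjOn f Ω) (hf : LocConic f Ω) {A : E3 → ℝ} {v : E3} (hv : v ∈ Vs f Ω)
    (hA : ∃ c > 0, ∃ r > 0, ∀ x ∈ ball v r, c * ‖x - v‖ ≤ A x) :
    ∃ c g C, VData f Ω A v c g C := by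
  obtain ⟨c₁, hc₁, r₁, hr₁, hA⟩ := hA
  have hv0 : v ∈ Ω := hv.1
  have h1 := (hf.germ_spec hv0).1
  have h2 := germ_continuous hf hΩ hc hv0
  have h3 := germ_injective hf hinj hv0
  have h4 := hf.germ_locConic hv0
  have h5 : germ (germ f v) 0 = germ f v := by
    refine germ_eq one_pos h1 fun w _ => ?_
    have h6 : germ f v 0 = 0 := by
      have := h1 0 le_rfl 0
      simpa using this
    rw [zero_add, h6, zero_add]
  have h6 : rk (germ f v) 0 = 0 := by
    unfold rk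
    rw [h5]
    exact hv.2
  obtain ⟨c₀, hc₀, H⟩ := hat_germ h1 h2 h3 h4 h6
  set c := min (min c₀ (1 / 8)) c₁ with hcdef
  have hcpos : 0 < c := lt_min (lt_min hc₀ (by norm_num)) hc₁
  obtain ⟨-, e1, e2, e3, e4, a, ha, r, hr, L, hL⟩ := H c hcpos
    ((min_le_left _ _).trans (min_le_left _ _))
  obtain ⟨g, C, g1, g2, g3, g4, g5⟩ := vertex_fill e1 e2 e3 e4 ha hr hL
  exact ⟨c, g, C, hcpos, (min_le_left _ _).trans (min_le_right _ _), ⟨r₁, hr₁, fun x hx =>
    (mul_le_mul_of_nonneg_right (min_le_right _ _) (norm_nonneg _)).trans (hA x hx)⟩,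
    e1, e2, g1, g2, g3, g4, g5⟩

/-- radii of the balls around the vertices -/
structure RData (f : E3 → E3) (Ω : Set E3) (B σ β : E3 → ℝ) (v : E3) (c : ℝ) (g : E3 → E3)
    (δ : ℝ) : Prop where
  pos : 0 < δ
  sub : ∀ y ∈ ball v (4 * δ), y ∈ Ω ∧ (y ≠ v → 1 ≤ rk f y)
  form : ∀ w, ‖w‖ < 2 * δ → hatMap f Ω B (v + w) =
    f v + hatMap (germ f v) univ (fun w => c * ‖w‖) w
  small : ∀ y ∈ ball v (2 * δ), 2 * δ < σ y ∧ δ ≤ β y / 16
  close : ∀ y ∈ ball v δ, ‖f v + δ • g (δ⁻¹ • (y - v)) - f y‖ ≤ β y / 2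

theorem exists_rData {Ω : Set E3} (hΩ : IsOpen Ω) {f : E3 → E3} (hc : ContinuousOn f Ω)
    (hf : LocConic f Ω) {A B σ β : E3 → ℝ} {v : E3} (hv : v ∈ Vs f Ω)
    {c C : ℝ} {g : E3 → E3} (hD : VData f Ω A v c g C) (hT : TubeFun f Ω B)
    (hB : ∃ r > 0, ∀ x ∈ ball v r, B x = c * ‖x - v‖) (hσ : LPos σ Ω) (hβ : LPos β Ω) :
    ∃ δ, RData f Ω B σ β v c g δ := by
  have hv0 : v ∈ Ω := hv.1
  obtain ⟨r₁, hr₁, hB⟩ := hB
  obtain ⟨r₂, hr₂, h2⟩ := hatMap_vertex hf hΩ hT hv hr₁ hB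
  obtain ⟨r₃, hr₃, h3⟩ := rk_nearby hf hv0
  obtain ⟨b₄, hb₄, r₄, hr₄, h4⟩ := hσ v hv0
  obtain ⟨b₅, hb₅, r₅, hr₅, h5⟩ := hβ v hv0
  obtain ⟨hg, R, hR, hRΩ, hRc⟩ := hf.germ_spec hv0
  -- bounds on the unit ball
  have hgc := germ_continuous hf hΩ hc hv0
  obtain ⟨G₁, hG₁⟩ : ∃ G, ∀ w ∈ closedBall (0 : E3) 1, ‖germ f v w‖ ≤ G :=
    (isCompact_closedBall (0 : E3) 1).exists_bound_of_continuousOn hgc.continuousOn
  have hgc' : Continuous g := by
    rw [continuous_iff_continuousAt]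
    intro x
    obtain ⟨c', -, hx⟩ := hD.ggood x
    exact hx.continuousAt
  obtain ⟨G₂, hG₂⟩ : ∃ G, ∀ w ∈ closedBall (0 : E3) 1, ‖g w‖ ≤ G :=
    (isCompact_closedBall (0 : E3) 1).exists_bound_of_continuousOn hgc'.continuousOn
  set G := |G₁| + |G₂| + 1 with hG
  have hG0 : 0 < G := by positivity
  set δ := min (min (min (r₂ / 4) (r₃ / 4)) (min (r₄ / 4) (r₅ / 4)))
    (min (min (R / 4) (b₄ / 4)) (min (b₅ / 16) (b₅ / (2 * G)))) with hδ
  have hδ0 : 0 < δ := by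
    rw [hδ]
    refine lt_min (lt_min (lt_min ?_ ?_) (lt_min ?_ ?_)) (lt_min (lt_min ?_ ?_) (lt_min ?_ ?_)) <;>
    positivity
  have a1 : δ ≤ r₂ / 4 := (min_le_left _ _).trans ((min_le_left _ _).trans (min_le_left _ _))
  have a2 : δ ≤ r₃ / 4 := (min_le_left _ _).trans ((min_le_left _ _).trans (min_le_right _ _))
  have a3 : δ ≤ r₄ / 4 := (min_le_left _ _).trans ((min_le_right _ _).trans (min_le_left _ _))
  have a4 : δ ≤ r₅ / 4 := (min_le_left _ _).trans ((min_le_right _ _).trans (min_le_right _ _))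
  have a5 : δ ≤ R / 4 := (min_le_right _ _).trans ((min_le_left _ _).trans (min_le_left _ _))
  have a6 : δ ≤ b₄ / 4 := (min_le_right _ _).trans ((min_le_left _ _).trans (min_le_right _ _))
  have a7 : δ ≤ b₅ / 16 := (min_le_right _ _).trans ((min_le_right _ _).trans (min_le_left _ _))
  have a8 : δ ≤ b₅ / (2 * G) :=
    (min_le_right _ _).trans ((min_le_right _ _).trans (min_le_right _ _))
  refine ⟨δ, hδ0, fun y hy => ?_, fun w hw => ?_, fun y hy => ?_, fun y hy => ?_⟩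
  · have h6 := h3 y (ball_subset_ball (by linarith) hy)
    exact ⟨h6.1, h6.2.2⟩
  · refine h2 w ?_
    rw [mem_ball, dist_zero_right]
    linarith
  · have h6 := h4 y (ball_subset_ball (by linarith) hy)
    have h7 := h5 y (ball_subset_ball (by linarith) hy)
    exact ⟨by linarith, by linarith⟩
  · have hy' : ‖y - v‖ < δ := by rwa [mem_ball, dist_eq_norm] at hy
    have h7 := h5 y (ball_subset_ball (by linarith) hy)
    have e1 : f y = f v + germ f v (y - v) := by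
      have := hRc (y - v) (by linarith)
      rwa [add_sub_cancel] at this
    have e2 : germ f v (y - v) = δ • germ f v (δ⁻¹ • (y - v)) := by
      rw [← hg δ hδ0.le, smul_smul, mul_inv_cancel₀ hδ0.ne', one_smul]
    have e3 : δ⁻¹ • (y - v) ∈ closedBall (0 : E3) 1 := by
      rw [mem_closedBall, dist_zero_right, norm_smul, norm_inv, Real.norm_of_nonneg hδ0.le,
        inv_mul_le_iff₀ hδ0]
      linarith
    rw [e1, e2, add_sub_add_left_eq_sub, ← smul_sub, norm_smul, Real.norm_of_nonneg hδ0.le]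
    have e4 : ‖g (δ⁻¹ • (y - v)) - germ f v (δ⁻¹ • (y - v))‖ ≤ G := by
      refine (norm_sub_le _ _).trans ?_
      have := hG₁ _ e3
      have := hG₂ _ e3
      have := le_abs_self G₁
      have := le_abs_self G₂
      rw [hG]
      linarith
    calc δ * ‖g (δ⁻¹ • (y - v)) - germ f v (δ⁻¹ • (y - v))‖ ≤ b₅ / (2 * G) * G :=
          mul_le_mul a8 e4 (norm_nonneg _) (by positivity)
      _ = b₅ / 2 := by field_simp
      _ ≤ β y / 2 := by linarith

theorem smoothing {Ω : Set E3} (hΩ : IsOpen Ω) {f : E3 → E3} (hc : ContinuousOn f Ω)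
    (hinj : InjOn f Ω) (hf : LocConic f Ω) :
    ∃ Λ : E3 → ℝ, ContinuousOn Λ Ω ∧ (∀ x ∈ Ω, 0 < Λ x ∧ LipAt (Λ x) f x) ∧
      ∀ β : E3 → ℝ, LPos β Ω → ∃ g : E3 → E3, ContDiffOn ℝ ∞ g Ω ∧ InjOn g Ω ∧
        (∀ x ∈ Ω, ∀ v, fderiv ℝ g x v = 0 → v = 0) ∧ (∀ x ∈ Ω, ‖fderiv ℝ g x‖ ≤ Λ x) ∧
        (∀ x ∈ Ω, ‖g x - f x‖ ≤ β x) ∧
        ∀ x ∈ Ω, (∀ z ∈ Zs f Ω, β x ≤ ‖x - z‖) → g =ᶠ[𝓝 x] f := by
  classical
  obtain ⟨A, hA1, hA2, hA3⟩ := exists_conic_radius hf hinj hΩ hc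
  -- vertex data
  have hVD : ∀ v : E3, ∃ q : ℝ × (E3 → E3) × ℝ, v ∈ Vs f Ω → VData f Ω A v q.1 q.2.1 q.2.2 := by
    intro v
    by_cases hv : v ∈ Vs f Ω
    · obtain ⟨c, g, C, h⟩ := exists_vData hΩ hc hinj hf hv (hA2 v hv)
      exact ⟨(c, g, C), fun _ => h⟩
    · exact ⟨(0, id, 0), fun h => absurd h hv⟩
  choose q hq using hVD
  obtain ⟨Λ, σ, hΛc, hσ, hΛ⟩ := exists_lip_bound hf hinj hΩ hc (fun v => (q v).2.2)
  refine ⟨fun x => 2 * Λ x + 1, (continuousOn_const.mul hΛc).add continuousOn_const,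
    fun x hx => ⟨by linarith [(hΛ x hx).1], LipAt.mono (hΛ x hx).2.1 (by linarith [(hΛ x hx).1])⟩,
    fun β₀ hβ₀ => ?_⟩
  obtain ⟨β, hβL, hβ⟩ := exists_lipschitz_minorant hΩ hβ₀
  have hβP : LPos β Ω := LPos.of_continuousOn hΩ hβL.continuous.continuousOn fun x hx =>
    (hβ x hx).1
  -- the upper bound for the radius
  set β₂ : E3 → ℝ := fun x => min (σ x * (1 / 2)) (β x / (16 * (Λ x + 1))) with hβ₂
  have hβ₂P : LPos β₂ Ω := by
    refine LPos.min (LPos.mul_const hσ (by norm_num)) (LPos.of_continuousOn hΩ ?_ fun x hx => ?_)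
    · refine hβL.continuous.continuousOn.div (continuousOn_const.mul
        (hΛc.add continuousOn_const)) fun x hx => ?_
      have := (hΛ x hx).1
      positivity
    · have := (hΛ x hx).1
      have := (hβ x hx).1
      positivity
  obtain ⟨B, hBL, hBA, hBv⟩ := exists_radius (V := Vs f Ω) hΩ (fun x hx => hx.1) (by
    intro x hx
    obtain ⟨r, hr, H⟩ := rk_nearby hf hx
    refine ⟨r, hr, fun v hv hv' => ?_⟩
    by_contra hne
    have h1 := (H v hv').2.2 hne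
    have h2 := hv.2
    omega) (fun x => min (A x) (β₂ x)) (LPos.min hA1 (LPos.mono_set hβ₂P diff_subset))
    (fun v => (q v).1) (fun v hv => ⟨(hq v hv).cpos, (hq v hv).cle⟩) (by
    intro v hv
    obtain ⟨r, hr, h1⟩ := (hq v hv).cA
    obtain ⟨b, hb, r', hr', h2⟩ := hβ₂P v hv.1
    refine ⟨min r (min r' b), lt_min hr (lt_min hr' hb), fun x hx _ => le_min
      (h1 x (ball_subset_ball (min_le_left _ _) hx)) ?_⟩
    have h3 := h2 x (ball_subset_ball ((min_le_right _ _).trans (min_le_left _ _)) hx)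
    have h4 : ‖x - v‖ < b := by
      have := ball_subset_ball ((min_le_right _ _).trans (min_le_right _ _)) hx
      rwa [mem_ball, dist_eq_norm] at this
    have h5 := (hq v hv).cle
    have h6 := (hq v hv).cpos
    nlinarith [norm_nonneg (x - v)])
  have hBpos : ∀ x ∈ Ω, x ∉ Vs f Ω → 0 < B x ∧ B x ≤ A x ∧ B x ≤ σ x / 2 ∧
      B x ≤ β x / (16 * (Λ x + 1)) ∧ B x ≤ β x / 16 := by
    intro x hx hv
    have h1 := hBA x ⟨hx, hv⟩
    have h2 := h1.2.trans (min_le_right _ _)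
    have h3 := h2.trans (min_le_right _ _)
    have h4 := h2.trans (min_le_left _ _)
    refine ⟨h1.1, h1.2.trans (min_le_left _ _), by linarith, h3, h3.trans ?_⟩
    have h5 := (hΛ x hx).1
    have h6 := (hβ x hx).1
    exact div_le_div_of_nonneg_left h6.le (by norm_num) (by linarith)
  have hT : TubeFun f Ω B := by
    refine ⟨hBL, fun x hx hv => (hBpos x hx hv).1, fun e he => hA3 e he _ ?_⟩
    refine (hBpos e he.1 fun h => ?_).2.1
    have h1 := he.2
    have h2 := h.2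
    omega
  -- the radii of the balls
  have hRD : ∀ v : E3, ∃ δ, v ∈ Vs f Ω → RData f Ω B σ β v (q v).1 (q v).2.1 δ := by
    intro v
    by_cases hv : v ∈ Vs f Ω
    · obtain ⟨δ, h⟩ := exists_rData hΩ hc hf hv (hq v hv) hT (hBv v hv) hσ hβP
      exact ⟨δ, fun _ => h⟩
    · exact ⟨0, fun h => absurd h hv⟩
  choose δ hδ using hRD
  -- disjointness
  have hdis : ∀ v ∈ Vs f Ω, ∀ v' ∈ Vs f Ω, ∀ y, ‖y - v‖ < 2 * δ v → ‖y - v'‖ < 2 * δ v' →
      v = v' := by
    have key : ∀ v ∈ Vs f Ω, ∀ v' ∈ Vs f Ω, ∀ y, δ v' ≤ δ v → ‖y - v‖ < 2 * δ v →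
        ‖y - v'‖ < 2 * δ v' → v = v' := by
      intro v hv v' hv' y hle h1 h2
      by_contra hne
      have h3 : v' ∈ ball v (4 * δ v) := by
        rw [mem_ball, dist_eq_norm]
        have : ‖v' - v‖ ≤ ‖y - v‖ + ‖y - v'‖ := by
          have := norm_sub_le (y - v) (y - v')
          rwa [sub_sub_sub_cancel_left] at this
        linarith
      have h4 := ((hδ v hv).sub v' h3).2 (fun h => hne h.symm)
      have h5 := hv'.2
      omega
    intro v hv v' hv' y h1 h2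
    rcases le_total (δ v') (δ v) with h | h
    · exact key v hv v' hv' y h h1 h2
    · exact (key v' hv' v hv y h h2 h1).symm
  set F₁ := hatMap f Ω B with hF₁
  set F₂ : E3 → E3 := fun p => if H : ∃ v, v ∈ Vs f Ω ∧ ‖p - v‖ < δ v then
    f H.choose + δ H.choose • (q H.choose).2.1 ((δ H.choose)⁻¹ • (p - H.choose)) else F₁ p with hF₂
  have hF₂out : ∀ p, (∀ v ∈ Vs f Ω, δ v ≤ ‖p - v‖) → F₂ p = F₁ p := by
    intro p hp
    have : ¬ ∃ v, v ∈ Vs f Ω ∧ ‖p - v‖ < δ v := by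
      rintro ⟨v, hv, h⟩
      exact absurd (hp v hv) (not_le.2 h)
    simp only [hF₂, dif_neg this]
  have hF₂in : ∀ v ∈ Vs f Ω, ∀ p, ‖p - v‖ < 2 * δ v →
      F₂ p = f v + δ v • (q v).2.1 ((δ v)⁻¹ • (p - v)) := by
    intro v hv p hp
    have hδv := (hδ v hv).pos
    by_cases h : ‖p - v‖ < δ v
    · have H : ∃ v, v ∈ Vs f Ω ∧ ‖p - v‖ < δ v := ⟨v, hv, h⟩
      have h1 : H.choose = v := by
        refine hdis _ H.choose_spec.1 v hv p ?_ hp
        have h2 := H.choose_spec.2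
        have h3 := (hδ _ H.choose_spec.1).pos
        linarith
      simp only [hF₂, dif_pos H]
      rw [h1]
    · have h1 : ∀ v' ∈ Vs f Ω, δ v' ≤ ‖p - v'‖ := by
        intro v' hv'
        by_contra h2
        rw [not_le] at h2
        have h3 := (hδ v' hv').pos
        have h4 := hdis v hv v' hv' p hp (by linarith)
        subst h4
        exact h h2
      rw [hF₂out p h1, hF₁]
      have h2 := (hδ v hv).form (p - v) hp
      rw [add_sub_cancel] at h2
      rw [h2]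
      have h3 : 1 ≤ ‖(δ v)⁻¹ • (p - v)‖ := by
        rw [norm_smul, norm_inv, Real.norm_of_nonneg hδv.le, le_inv_mul_iff₀ hδv, mul_one]
        exact not_lt.1 h
      rw [(hq v hv).geq _ h3, ← (hq v hv).hom _ hδv.le, smul_smul, mul_inv_cancel₀ hδv.ne',
        one_smul]
  -- far from the vertices
  have hF₂far : ∀ p ∈ Ω, (∀ v ∈ Vs f Ω, 2 * δ v ≤ ‖p - v‖) → F₂ =ᶠ[𝓝 p] F₁ := by
    intro p hp h
    obtain ⟨r, hr, H⟩ := rk_nearby hf hp
    filter_upwards [ball_mem_nhds p (half_pos hr)] with p' hp'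
    refine hF₂out p' fun v hv => ?_
    by_contra hlt
    rw [not_le] at hlt
    rw [mem_ball, dist_eq_norm] at hp'
    have h1 := h v hv
    have h2 : ‖p - v‖ ≤ ‖p' - p‖ + ‖p' - v‖ := by
      have := norm_sub_le (p' - v) (p' - p)
      rw [sub_sub_sub_cancel_left] at this
      linarith
    have h3 : v ∈ ball p r := by
      rw [mem_ball, dist_comm, dist_eq_norm]
      linarith
    rcases eq_or_ne v p with rfl | hne
    · have h4 := (hδ v hv).pos
      rw [sub_self, norm_zero] at h1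
      linarith
    · have h4 := (H v h3).2.2 hne
      have h5 := hv.2
      omega
  -- case distinction
  have hcase : ∀ p ∈ Ω, (∃ v ∈ Vs f Ω, ‖p - v‖ < 2 * δ v) ∨
      ((∀ v ∈ Vs f Ω, 2 * δ v ≤ ‖p - v‖) ∧ p ∉ Vs f Ω) := by
    intro p hp
    by_cases h : ∃ v ∈ Vs f Ω, ‖p - v‖ < 2 * δ v
    · exact Or.inl h
    · right
      push Not at h
      refine ⟨h, fun hpv => ?_⟩
      have h1 := h p hpv
      have h2 := (hδ p hpv).pos
      rw [sub_self, norm_zero] at h1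
      linarith
  have hloc : ∀ v ∈ Vs f Ω, ∀ p, ‖p - v‖ < 2 * δ v →
      (fun x => f v + δ v • (q v).2.1 ((δ v)⁻¹ • (x - v))) =ᶠ[𝓝 p] F₂ := by
    intro v hv p hp
    have h1 : ∀ᶠ x in 𝓝 p, ‖x - v‖ < 2 * δ v := by
      have h2 : ContinuousAt (fun x : E3 => ‖x - v‖) p := by fun_prop
      exact h2.eventually (gt_mem_nhds hp)
    filter_upwards [h1] with x hx
    exact (hF₂in v hv x hx).symm
  have hgood : ∀ x ∈ Ω, ∃ c > 0, SecGood c F₂ x := by
    intro p hp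
    rcases hcase p hp with ⟨v, hv, h⟩ | ⟨h, hpv⟩
    · obtain ⟨c, hc, h1⟩ := (hq v hv).ggood ((δ v)⁻¹ • (p - v))
      exact ⟨c, hc, (secGood_scale (hδ v hv).pos h1).congr (hloc v hv p h)⟩
    · obtain ⟨c, hc', h1⟩ := hatMap_secGood hf hinj hΩ hc hT hp hpv
      exact ⟨c, hc', h1.congr (hF₂far p hp h).symm⟩
  have hlip : ∀ x ∈ Ω, LipAt (Λ x) F₂ x := by
    intro p hp
    rcases hcase p hp with ⟨v, hv, h⟩ | ⟨h, hpv⟩
    · have h1 : (q v).2.2 ≤ Λ p := by
        refine (hΛ p hp).2.2.2 v hv ?_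
        have h2 : p ∈ ball v (2 * δ v) := by rwa [mem_ball, dist_eq_norm]
        have h3 := ((hδ v hv).small p h2).1
        linarith
      exact LipAt.mono (LipAt.congr (lip_scale (hδ v hv).pos (hq v hv).glip p)
        (hloc v hv p h)) h1
    · refine LipAt.congr (hatMap_lipAt hf hinj hΩ hc hT hp hpv (hΛ p hp).2.1 fun e he h1 => ?_)
        (hF₂far p hp h).symm
      refine (hΛ p hp).2.2.1 e he ?_
      have h2 := (hBpos p hp hpv).2.2.1
      linarith
  have hF₁inj : InjOn F₁ Ω := hatMap_injOn hf hinj hΩ hc hT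
  have hpre : ∀ p ∈ Ω, ∃ q' ∈ Ω, F₂ p = F₁ q' ∧ ((∃ v ∈ Vs f Ω, ‖p - v‖ < δ v ∧ ‖q' - v‖ ≤ δ v) ∨
      ((∀ v ∈ Vs f Ω, δ v ≤ ‖p - v‖) ∧ q' = p)) := by
    intro p hp
    by_cases h : ∃ v ∈ Vs f Ω, ‖p - v‖ < δ v
    · obtain ⟨v, hv, h⟩ := h
      have hδv := (hδ v hv).pos
      obtain ⟨u, hu⟩ := (hq v hv).surj ((q v).2.1 ((δ v)⁻¹ • (p - v)))
      have h1 : ‖u‖ ≤ 1 := by
        by_contra h2
        rw [not_le] at h2
        rw [← (hq v hv).geq u h2.le] at hu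
        have h3 := (hq v hv).ginj hu
        rw [h3, norm_smul, norm_inv, Real.norm_of_nonneg hδv.le, lt_inv_mul_iff₀ hδv] at h2
        linarith
      have h2 : ‖δ v • u‖ ≤ δ v := by
        rw [norm_smul, Real.norm_of_nonneg hδv.le]
        nlinarith
      refine ⟨v + δ v • u, ?_, ?_, Or.inl ⟨v, hv, h, by rwa [add_sub_cancel_left]⟩⟩
      · refine ((hδ v hv).sub _ ?_).1
        rw [mem_ball, dist_eq_norm, add_sub_cancel_left]
        linarith
      · rw [hF₂in v hv p (by linarith), hF₁, (hδ v hv).form _ (by linarith),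
          (hq v hv).hom _ hδv.le, hu]
    · push Not at h
      exact ⟨p, hp, hF₂out p h, Or.inr ⟨h, rfl⟩⟩
  have hinv : ∀ v ∈ Vs f Ω, ∀ p p', ‖p - v‖ < 2 * δ v → ‖p' - v‖ < 2 * δ v → F₂ p = F₂ p' →
      p = p' := by
    intro v hv p p' h h' he
    have hδv := (hδ v hv).pos
    rw [hF₂in v hv p h, hF₂in v hv p' h'] at he
    have h1 := (hq v hv).ginj (smul_right_injective _ hδv.ne' (add_left_cancel he))
    have h2 := smul_right_injective _ (inv_ne_zero hδv.ne') h1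
    exact sub_left_injective h2
  have hF₂inj : InjOn F₂ Ω := by
    intro p hp p' hp' he
    obtain ⟨a, ha, ha1, ha2⟩ := hpre p hp
    obtain ⟨a', ha', ha1', ha2'⟩ := hpre p' hp'
    have haa : a = a' := hF₁inj ha ha' (by rw [← ha1, ← ha1', he])
    subst haa
    rcases ha2 with ⟨v, hv, h1, h2⟩ | ⟨h1, rfl⟩
    · have hδv := (hδ v hv).pos
      rcases ha2' with ⟨v', hv', h1', h2'⟩ | ⟨h1', h2'⟩
      · have hδv' := (hδ v' hv').pos
        have h3 := hdis v hv v' hv' a (by linarith) (by linarith)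
        subst h3
        exact hinv v hv p p' (by linarith) (by linarith) he
      · subst h2'
        exact hinv v hv p _ (by linarith) (by linarith) he
    · rcases ha2' with ⟨v', hv', h1', h2'⟩ | ⟨h1', h2'⟩
      · have hδv' := (hδ v' hv').pos
        exact hinv v' hv' _ p' (by linarith) (by linarith) he
      · exact h2'
  -- closeness
  have hclose : ∀ p ∈ Ω, ‖F₂ p - f p‖ ≤ β p / 2 := by
    intro p hp
    have hβp := (hβ p hp).1
    by_cases h : ∃ v ∈ Vs f Ω, ‖p - v‖ < δ v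
    · obtain ⟨v, hv, h⟩ := h
      have hδv := (hδ v hv).pos
      rw [hF₂in v hv p (by linarith)]
      exact (hδ v hv).close p (by rwa [mem_ball, dist_eq_norm])
    · push Not at h
      have hpv : p ∉ Vs f Ω := by
        intro hpv
        have h1 := h p hpv
        have h2 := (hδ p hpv).pos
        rw [sub_self, norm_zero] at h1
        linarith
      rw [hF₂out p h, hF₁]
      by_cases h1 : ∃ e, InTube f Ω B p e
      · obtain ⟨e, he⟩ := h1
        have h2 := hatMap_dist hf hinj hΩ hc hT he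
        obtain ⟨b1, b2, b3, b4, b5⟩ := hBpos p hp hpv
        have h3 : 2 * COf (germ f e) ≤ Λ p := by
          refine (hΛ p hp).2.2.1 e he.1 ?_
          have := he.2.2
          linarith
        have h4 := (hΛ p hp).1
        have h5 := COf_pos (germ f e)
        refine h2.trans ?_
        have h6 : B p * (16 * (Λ p + 1)) ≤ β p := by
          rwa [le_div_iff₀ (by positivity)] at b4
        nlinarith
      · have h2 : hatMap f Ω B p = f p := by
          unfold hatMap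
          rw [dif_neg h1]
        rw [h2, sub_self, norm_zero]
        positivity
  -- far from the singular set nothing changes
  obtain ⟨om, hω, hωb⟩ := exists_ball_radius hΩ
  have hβ₃P : LPos (fun x => min (β x * (1 / 8)) (om x)) Ω := LPos.min (LPos.mul_const hβP (by norm_num)) hω
  have hfar : ∀ x ∈ Ω, (∀ z ∈ Zs f Ω, β₀ x ≤ ‖x - z‖) →
      ∀ y ∈ ball x (min (β x * (1 / 8)) (om x)), y ∈ Ω ∧ y ∉ Zs f Ω ∧ F₂ y = f y := by
    intro x hx hz y hy
    have hβx := hβ x hx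
    have hyΩ : y ∈ Ω := hωb x hx (ball_subset_ball (min_le_right _ _) hy)
    have hyx : ‖y - x‖ < β x / 8 := by
      have := ball_subset_ball (min_le_left _ _) hy
      rw [mem_ball, dist_eq_norm] at this
      linarith
    have hyz : ∀ z ∈ Zs f Ω, 7 / 8 * β x ≤ ‖y - z‖ := by
      intro z hz'
      have h1 := (hβx.2).trans (hz z hz')
      have h2 : ‖x - z‖ ≤ ‖y - x‖ + ‖y - z‖ := by
        have := norm_sub_le (y - z) (y - x)
        rw [sub_sub_sub_cancel_left] at this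
        linarith
      linarith
    have hβy : β y ≤ 9 / 8 * β x := by
      have h1 := hβL.dist_le_mul y x
      rw [Real.dist_eq, dist_eq_norm, NNReal.coe_one, one_mul] at h1
      have h2 := (abs_le.1 h1).2
      linarith
    have hVZ : ∀ v ∈ Vs f Ω, v ∈ Zs f Ω := fun v hv => ⟨hv.1, by rw [hv.2]; norm_num⟩
    have hEZ : ∀ v ∈ Es f Ω, v ∈ Zs f Ω := fun v hv => ⟨hv.1, by rw [hv.2]; norm_num⟩
    have hyZ : y ∉ Zs f Ω := by
      intro h
      have := hyz y h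
      rw [sub_self, norm_zero] at this
      linarith
    refine ⟨hyΩ, hyZ, ?_⟩
    have hyV : y ∉ Vs f Ω := fun h => hyZ (hVZ y h)
    have h1 : ∀ v ∈ Vs f Ω, δ v ≤ ‖y - v‖ := by
      intro v hv
      by_contra h2
      rw [not_le] at h2
      have hδv := (hδ v hv).pos
      have h3 := ((hδ v hv).small y (by rw [mem_ball, dist_eq_norm]; linarith)).2
      have h4 := hyz v (hVZ v hv)
      linarith
    rw [hF₂out y h1, hF₁]
    refine hatMap_eq_of_far fun e he => ?_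
    have h2 := (hBpos y hyΩ hyV).2.2.2.2
    have h3 := hyz e (hEZ e he)
    linarith
  obtain ⟨g, g1, g2, g3, g4, g5, g6⟩ := mollify_step hΩ hF₂inj hgood hΛc
    (fun x hx => (hΛ x hx).1.le) hlip hβ₃P
  refine ⟨g, g1, g2, g3, g4, fun x hx => ?_, fun x hx hz => ?_⟩
  · have h1 := g5 x hx
    have h2 := hclose x hx
    have h3 : ‖g x - f x‖ ≤ ‖g x - F₂ x‖ + ‖F₂ x - f x‖ := by
      have := norm_add_le (g x - F₂ x) (F₂ x - f x)
      rwa [sub_add_sub_cancel] at this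
    have h4 := min_le_left (β x * (1 / 8)) (om x)
    have h5 := hβ x hx
    linarith
  · have h0 := hfar x hx hz
    have hr0 : 0 < min (β x * (1 / 8)) (om x) := LPos.pos hβ₃P hx
    obtain ⟨L, hL⟩ := affine_of_rank_three hf hc (fun y hy => (h0 y hy).1) hr0
      (fun y hy => (h0 y hy).2.1)
    have h1 : g =ᶠ[𝓝 x] F₂ := by
      refine g6 x hx L fun y hy => ?_
      rw [(h0 y hy).2.2, (h0 x (mem_ball_self hr0)).2.2]
      exact hL y hy
    refine h1.trans ?_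
    filter_upwards [ball_mem_nhds x hr0] with y hy
    exact (h0 y hy).2.2

end SM
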