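import Pool.Agent.SM.Defs
import Pool.Agent.SM.Srd

/-!
# Project SM, module SOA : weak derivative of locally Lipschitz maps, uniqueness
-/

open Set Metric Filter Topology MeasureTheory
open scoped ContDiff Pointwise Manifold

noncomputable section

namespace SM

private lemma lipAt_mono' {f : E3 → E3} {C C' : ℝ} {x : E3} (h : LipAt C f x) (hC : C ≤ C') :
    LipAt C' f x := by
  obtain ⟨r, hr, h1⟩ := h
  exact ⟨r, hr, fun y hy y' hy' =>
    (h1 y hy y' hy').trans (mul_le_mul_of_nonneg_right hC (norm_nonneg _))⟩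

private lemma lipAt_near {f : E3 → E3} {C : ℝ} {x : E3} (h : LipAt C f x) :
    ∀ᶠ y in 𝓝 x, LipAt C f y := by
  obtain ⟨r, hr, h1⟩ := h
  filter_upwards [ball_mem_nhds x (half_pos hr)] with y hy
  refine ⟨r / 2, half_pos hr, fun z hz z' hz' => ?_⟩
  have key : ∀ w ∈ ball y (r / 2), w ∈ ball x r := by
    intro w hw
    rw [mem_ball] at hw hy ⊢
    have := dist_triangle w y x
    linarith
  exact h1 z (key z hz) z' (key z' hz')

/-- a locally Lipschitz map with compact support is Lipschitz -/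
private lemma lip_of_compact {g : E3 → E3} {T : Set E3} (hT : IsCompact T)
    (h : ∀ x ∈ T, ∃ C, LipAt C g x) (h0 : ∀ x, x ∉ T → g =ᶠ[𝓝 x] 0) :
    ∃ C : NNReal, LipschitzWith C g := by
  have h1 : ∃ C : ℝ, ∀ x ∈ T, LipAt C g x := by
    refine hT.induction_on (p := fun s => ∃ C : ℝ, ∀ x ∈ s, LipAt C g x) ?_ ?_ ?_ ?_
    · exact ⟨0, fun x hx => absurd hx (notMem_empty x)⟩
    · rintro s t hst ⟨C, hC⟩
      exact ⟨C, fun x hx => hC x (hst hx)⟩
    · rintro s t ⟨C, hC⟩ ⟨D, hD⟩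
      refine ⟨max C D, fun x hx => ?_⟩
      rcases hx with hx | hx
      · exact lipAt_mono' (hC x hx) (le_max_left _ _)
      · exact lipAt_mono' (hD x hx) (le_max_right _ _)
    · intro x hx
      obtain ⟨C, hC⟩ := h x hx
      exact ⟨{y | LipAt C g y}, mem_nhdsWithin_of_mem_nhds (lipAt_near hC), C, fun y hy => hy⟩
  obtain ⟨C, hC⟩ := h1
  have h2 : ∀ x ∈ (univ : Set E3), LipAt (max C 0) g x := by
    intro x _
    by_cases hx : x ∈ T
    · exact lipAt_mono' (hC x hx) (le_max_left _ _)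
    · obtain ⟨r, hr, h3⟩ := Metric.eventually_nhds_iff_ball.1 (h0 x hx)
      refine ⟨r, hr, fun y hy y' hy' => ?_⟩
      rw [h3 y hy, h3 y' hy']
      simp only [Pi.zero_apply, sub_zero, norm_zero]
      exact mul_nonneg (le_max_right _ _) (norm_nonneg _)
  have h3 := lip_of_lipAt (C := max C 0) convex_univ h2
  refine ⟨Real.toNNReal (max C 0), LipschitzWith.of_dist_le_mul fun x y => ?_⟩
  rw [dist_eq_norm, dist_eq_norm, Real.coe_toNNReal _ (le_max_right _ _)]
  exact h3 x (mem_univ _) y (mem_univ _)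

/-- a smooth cut off -/
private lemma exists_cutoff {S Ω : Set E3} (hS : IsCompact S) (hΩ : IsOpen Ω) (hSΩ : S ⊆ Ω) :
    ∃ (χ : E3 → ℝ) (T : Set E3), ContDiff ℝ ∞ χ ∧ IsCompact T ∧ T ⊆ Ω ∧
      (∀ x ∈ S, ∀ᶠ y in 𝓝 x, χ y = 1) ∧ (∀ x, x ∉ T → χ x = 0) ∧ (∀ x, χ x ∈ Icc (0 : ℝ) 1) := by
  obtain ⟨ε, hε, hεΩ⟩ := hS.exists_cthickening_subset_open hΩ hSΩ
  have hint : S ⊆ interior (cthickening ε S) :=
    (self_subset_thickening hε S).trans
      (interior_maximal (thickening_subset_cthickening ε S) isOpen_thickening)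
  obtain ⟨χ, h1, h2, h3⟩ := exists_contMDiffMap_one_nhds_of_subset_interior (n := (⊤ : ℕ∞))
    𝓘(ℝ, E3) hS.isClosed hint
  refine ⟨χ, cthickening ε S, χ.contMDiff.contDiff, hS.cthickening, hεΩ, ?_, h2, h3⟩
  intro x hx
  exact (nhds_le_nhdsSet hx) h1

/-- integration by parts for Lipschitz maps -/
private lemma lip_parts {C : NNReal} {g : E3 → E3} (hg : LipschitzWith C g)
    {φ : E3 → ℝ} (hφ : ContDiff ℝ ∞ φ) (hφc : HasCompactSupport φ) (v : E3) :
    Integrable (fun x => (fderiv ℝ φ x v) • g x) ∧ Integrable (fun x => φ x • fderiv ℝ g x v) ∧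
    ∫ x, (fderiv ℝ φ x v) • g x = -∫ x, φ x • fderiv ℝ g x v := by
  have hφ1 : ContDiff ℝ 1 φ := hφ.of_le (by exact_mod_cast le_top)
  have hdc : Continuous (fun x => fderiv ℝ φ x v) :=
    (hφ1.continuous_fderiv one_ne_zero).clm_apply continuous_const
  have hi1 : Integrable (fun x => (fderiv ℝ φ x v) • g x) := by
    apply (hdc.smul hg.continuous).integrable_of_hasCompactSupport
    apply HasCompactSupport.smul_right
    exact hφc.fderiv_apply (𝕜 := ℝ) v
  have hφi : Integrable φ := hφ.continuous.integrable_of_hasCompactSupport hφc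
  have hi2 : Integrable (fun x => φ x • fderiv ℝ g x v) := by
    apply hφi.smul_bdd (C * ‖v‖)
    · exact (measurable_fderiv_apply_const ℝ g v).aestronglyMeasurable
    · refine Filter.Eventually.of_forall fun x => ?_
      exact ((fderiv ℝ g x).le_opNorm v).trans
        (mul_le_mul_of_nonneg_right (norm_fderiv_le_of_lipschitz ℝ hg) (norm_nonneg _))
  refine ⟨hi1, hi2, ?_⟩
  obtain ⟨D, hD⟩ := hφ1.lipschitzWith_of_hasCompactSupport hφc one_ne_zero
  have key : ∀ ℓ : E3 →L[ℝ] ℝ, ℓ (∫ x, (fderiv ℝ φ x v) • g x) =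
      ℓ (-∫ x, φ x • fderiv ℝ g x v) := by
    intro ℓ
    rw [map_neg, ← ℓ.integral_comp_comm hi1, ← ℓ.integral_comp_comm hi2]
    have hgl : LipschitzWith (‖ℓ‖₊ * C) (fun x => ℓ (g x)) := ℓ.lipschitz.comp hg
    have h1 := hgl.integral_lineDeriv_mul_eq (μ := (volume : Measure E3)) hD hφc v
    have h2 : ∫ x, lineDeriv ℝ (fun x => ℓ (g x)) x v * φ x = ∫ x, ℓ (φ x • fderiv ℝ g x v) := by
      apply integral_congr_ae
      filter_upwards [hg.ae_differentiableAt (μ := (volume : Measure E3))] with x hx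
      have h3 : HasFDerivAt (fun x => ℓ (g x)) (ℓ.comp (fderiv ℝ g x)) x :=
        ℓ.hasFDerivAt.comp x hx.hasFDerivAt
      rw [h3.hasLineDerivAt v |>.lineDeriv, map_smul, smul_eq_mul, mul_comm]
      rfl
    have h4 : ∫ x, lineDeriv ℝ φ x (-v) * ℓ (g x) = -∫ x, ℓ ((fderiv ℝ φ x v) • g x) := by
      rw [← integral_neg]
      congr 1
      funext x
      have h5 : DifferentiableAt ℝ φ x := hφ1.differentiable one_ne_zero x
      rw [h5.lineDeriv_eq_fderiv, map_neg, map_smul, smul_eq_mul]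
      ring
    rw [h2, h4] at h1
    linarith
  by_contra hne
  have h6 : (∫ x, (fderiv ℝ φ x v) • g x) - (-∫ x, φ x • fderiv ℝ g x v) ≠ 0 := sub_ne_zero.2 hne
  obtain ⟨ℓ, -, hℓ⟩ := exists_dual_vector ℝ _ (norm_ne_zero_iff.2 h6)
  have h7 := key ℓ
  rw [map_sub, h7, sub_self] at hℓ
  have h8 : ‖(∫ x, (fderiv ℝ φ x v) • g x) - (-∫ x, φ x • fderiv ℝ g x v)‖ = 0 := by
    exact_mod_cast hℓ.symm
  exact h6 (norm_eq_zero.1 h8)

theorem hasWeakDeriv_of_lipAt {Ω : Set E3} (hΩ : IsOpen Ω) {f : E3 → E3}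
    (hf : ∀ x ∈ Ω, ∃ C, LipAt C f x) : HasWeakDeriv Ω f (fun x => fderiv ℝ f x) := by
  intro φ hφ hφc hφΩ v
  obtain ⟨χ, T, hχ, hT, hTΩ, hχ1, hχ0, hχI⟩ := exists_cutoff (S := tsupport φ) hφc hΩ hφΩ
  have hφ1 : ContDiff ℝ 1 φ := hφ.of_le (by exact_mod_cast le_top)
  -- the localised map
  have hχc : HasCompactSupport χ := HasCompactSupport.intro hT hχ0
  have hχ1' : ContDiff ℝ 1 χ := hχ.of_le (by exact_mod_cast le_top)
  obtain ⟨D, hD⟩ := hχ1'.lipschitzWith_of_hasCompactSupport hχc one_ne_zero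
  have hlip : ∃ C : NNReal, LipschitzWith C (fun x => χ x • f x) := by
    apply lip_of_compact hT
    · intro x hx
      obtain ⟨C, r, hr, h1⟩ := hf x (hTΩ hx)
      refine ⟨|C| + D * (‖f x‖ + |C| * r), r, hr, fun y hy y' hy' => ?_⟩
      have h2 : ‖f y'‖ ≤ ‖f x‖ + |C| * r := by
        have h3 := h1 y' hy' x (mem_ball_self hr)
        have h4 : ‖y' - x‖ ≤ r := by
          rw [← dist_eq_norm]
          exact (mem_ball.1 hy').le
        have h5 : ‖f y'‖ ≤ ‖f y' - f x‖ + ‖f x‖ := by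
          have := norm_add_le (f y' - f x) (f x)
          rwa [sub_add_cancel] at this
        have h6 : C * ‖y' - x‖ ≤ |C| * r :=
          mul_le_mul (le_abs_self C) h4 (norm_nonneg _) (abs_nonneg _)
        linarith
      have h7 : χ y • f y - χ y' • f y' = χ y • (f y - f y') + (χ y - χ y') • f y' := by
        rw [smul_sub, sub_smul]
        abel
      rw [h7]
      refine (norm_add_le _ _).trans ?_
      rw [norm_smul, norm_smul, add_mul]
      have h8 : ‖χ y‖ * ‖f y - f y'‖ ≤ |C| * ‖y - y'‖ := by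
        have h9 : ‖χ y‖ ≤ 1 := by
          rw [Real.norm_of_nonneg (hχI y).1]
          exact (hχI y).2
        calc ‖χ y‖ * ‖f y - f y'‖ ≤ 1 * ‖f y - f y'‖ :=
              mul_le_mul_of_nonneg_right h9 (norm_nonneg _)
          _ ≤ C * ‖y - y'‖ := by
              rw [one_mul]
              exact h1 y hy y' hy'
          _ ≤ |C| * ‖y - y'‖ := mul_le_mul_of_nonneg_right (le_abs_self C) (norm_nonneg _)
      have h10 : ‖χ y - χ y'‖ * ‖f y'‖ ≤ (D : ℝ) * (‖f x‖ + |C| * r) * ‖y - y'‖ := by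
        have h11 : ‖χ y - χ y'‖ ≤ D * ‖y - y'‖ := by
          rw [← dist_eq_norm, ← dist_eq_norm]
          exact hD.dist_le_mul y y'
        calc ‖χ y - χ y'‖ * ‖f y'‖ ≤ (D * ‖y - y'‖) * (‖f x‖ + |C| * r) :=
              mul_le_mul h11 h2 (norm_nonneg _) (by positivity)
          _ = (D : ℝ) * (‖f x‖ + |C| * r) * ‖y - y'‖ := by ring
      linarith
    · intro x hx
      filter_upwards [hT.isClosed.isOpen_compl.mem_nhds hx] with y hy
      rw [hχ0 y hy, zero_smul]
      rfl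
  obtain ⟨C, hC⟩ := hlip
  obtain ⟨-, -, hparts⟩ := lip_parts hC hφ hφc v
  -- comparison of the integrands
  have hA : ∀ x, (fderiv ℝ φ x v) • (χ x • f x) = (fderiv ℝ φ x v) • f x := by
    intro x
    by_cases hx : x ∈ tsupport φ
    · rw [(hχ1 x hx).self_of_nhds, one_smul]
    · have h1 : fderiv ℝ φ x = 0 := by
        have h2 : x ∉ tsupport (fderiv ℝ φ) := fun h => hx (tsupport_fderiv_subset ℝ h)
        exact image_eq_zero_of_notMem_tsupport h2
      rw [h1, zero_apply, zero_smul, zero_smul]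
  have hB : ∀ x, φ x • fderiv ℝ (fun x => χ x • f x) x v = φ x • fderiv ℝ f x v := by
    intro x
    by_cases hx : x ∈ tsupport φ
    · have h1 : (fun x => χ x • f x) =ᶠ[𝓝 x] f := by
        filter_upwards [hχ1 x hx] with y hy
        rw [hy, one_smul]
      rw [h1.fderiv_eq]
    · rw [image_eq_zero_of_notMem_tsupport hx, zero_smul, zero_smul]
  simp only [hA, hB] at hparts
  have h1 : ∫ x in Ω, (fderiv ℝ φ x v) • f x = ∫ x, (fderiv ℝ φ x v) • f x := by
    apply setIntegral_eq_integral_of_forall_compl_eq_zero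
    intro x hx
    have h2 : x ∉ tsupport (fderiv ℝ φ) := fun h => hx (hφΩ (tsupport_fderiv_subset ℝ h))
    rw [image_eq_zero_of_notMem_tsupport h2, zero_apply, zero_smul]
  have h3 : ∫ x in Ω, φ x • fderiv ℝ f x v = ∫ x, φ x • fderiv ℝ f x v := by
    apply setIntegral_eq_integral_of_forall_compl_eq_zero
    intro x hx
    rw [image_eq_zero_of_notMem_tsupport (fun h => hx (hφΩ h)), zero_smul]
  show ∫ x in Ω, (fderiv ℝ φ x v) • f x = -∫ x in Ω, φ x • fderiv ℝ f x v
  rw [h1, h3]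
  exact hparts

private lemma test_integrable {V : Type*} [NormedAddCommGroup V] [NormedSpace ℝ V]
    {Ω : Set E3} {F : E3 → V}
    (hFi : LocallyIntegrableOn F Ω) {φ : E3 → ℝ} (hφ : ContDiff ℝ ∞ φ)
    (hφc : HasCompactSupport φ) (hφΩ : tsupport φ ⊆ Ω) : Integrable (fun x => φ x • F x) := by
  have h1 : IntegrableOn F (tsupport φ) := hFi.integrableOn_compact_subset hφΩ hφc
  have h2 : IntegrableOn (fun x => φ x • F x) (tsupport φ) :=
    h1.continuousOn_smul hφ.continuous.continuousOn hφc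
  refine (integrableOn_iff_integrable_of_support_subset ?_).1 h2
  intro x hx
  by_contra hx2
  apply hx
  show φ x • F x = 0
  rw [image_eq_zero_of_notMem_tsupport hx2]
  exact zero_smul ℝ (F x)

theorem weakDeriv_unique {Ω : Set E3} (hΩ : IsOpen Ω) {f : E3 → E3}
    {F G : E3 → E3 →L[ℝ] E3} (hF : HasWeakDeriv Ω f F) (hG : HasWeakDeriv Ω f G)
    (hFi : LocallyIntegrableOn F Ω) (hGi : LocallyIntegrableOn G Ω) :
    ∀ᵐ x ∂(volume.restrict Ω), F x = G x := by
  rw [ae_restrict_iff' hΩ.measurableSet]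
  have hmain : ∀ᵐ x, x ∈ Ω → (F x - G x) = 0 := by
    apply hΩ.ae_eq_zero_of_integral_contDiff_smul_eq_zero (hFi.sub hGi)
    intro φ hφ hφc hφΩ
    have hiF := test_integrable hFi hφ hφc hφΩ
    have hiG := test_integrable hGi hφ hφc hφΩ
    have hsplit : (fun x => φ x • (F x - G x)) = fun x => φ x • F x - φ x • G x := by
      funext x
      rw [smul_sub]
    show ∫ x, φ x • (F x - G x) = 0
    rw [hsplit, integral_sub hiF hiG]
    ext1 v
    rw [sub_apply, zero_apply, ContinuousLinearMap.integral_apply hiF,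
      ContinuousLinearMap.integral_apply hiG]
    have h1 := hF φ hφ hφc hφΩ v
    have h2 := hG φ hφ hφc hφΩ v
    rw [h1] at h2
    have h3 : ∀ H : E3 → E3 →L[ℝ] E3, ∫ x in Ω, φ x • H x v = ∫ x, (φ x • H x) v := by
      intro H
      rw [setIntegral_eq_integral_of_forall_compl_eq_zero]
      · rfl
      · intro x hx
        rw [image_eq_zero_of_notMem_tsupport (fun h => hx (hφΩ h)), zero_smul]
    rw [h3, h3, neg_inj] at h2
    rw [h2, sub_self]
  filter_upwards [hmain] with x hx hxΩ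
  exact sub_eq_zero.1 (hx hxΩ)

end SM
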