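import Pool.Agent.SM.Defs

/-!
# Project SM, module SOB : small neighbourhoods of a null set
-/

open Set Metric Filter Topology MeasureTheory
open scoped ContDiff Pointwise

noncomputable section

namespace SM

/-- a positive function with a small norm -/
private lemma exists_small_fun {p : ENNReal} (hp : 1 ≤ p) (hp' : p ≠ ⊤) {ε : ENNReal}
    (hε : ε ≠ 0) (Ω : Set E3) :
    ∃ g : E3 → ℝ, Continuous g ∧ (∀ x, 0 < g x) ∧ eLpNorm g p (volume.restrict Ω) ≤ ε := by
  set g₀ : E3 → ℝ := fun x => (1 + ‖x‖) ^ (-(4 : ℝ)) with hg₀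
  have hpos : ∀ x, 0 < g₀ x := fun x => Real.rpow_pos_of_pos (by positivity) _
  have hle : ∀ x, g₀ x ≤ 1 := by
    intro x
    apply Real.rpow_le_one_of_one_le_of_nonpos
    · linarith [norm_nonneg x]
    · norm_num
  have hcont : Continuous g₀ := by
    apply Continuous.rpow_const (by fun_prop)
    intro x
    left
    positivity
  have hint : Integrable g₀ := by
    apply integrable_one_add_norm
    rw [finrank_euclideanSpace_fin]
    norm_num
  have hp0 : p ≠ 0 := (lt_of_lt_of_le zero_lt_one hp).ne'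
  have hpr : 1 ≤ p.toReal := by
    rw [← ENNReal.toReal_one]
    exact ENNReal.toReal_mono hp' hp
  have hfin : eLpNorm g₀ p (volume.restrict Ω) ≠ ⊤ := by
    rw [eLpNorm_eq_lintegral_rpow_enorm_toReal hp0 hp']
    apply ENNReal.rpow_ne_top_of_nonneg (by positivity)
    have h1 : ∫⁻ x in Ω, ‖g₀ x‖ₑ ^ p.toReal ≤ ∫⁻ x, ‖g₀ x‖ₑ := by
      refine (lintegral_mono' Measure.restrict_le_self (fun x => ?_))
      have h2 : ‖g₀ x‖ₑ ≤ 1 := by
        rw [Real.enorm_of_nonneg (hpos x).le]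
        exact ENNReal.ofReal_le_one.2 (hle x)
      calc ‖g₀ x‖ₑ ^ p.toReal ≤ ‖g₀ x‖ₑ ^ (1 : ℝ) := ENNReal.rpow_le_rpow_of_exponent_ge h2 hpr
        _ = ‖g₀ x‖ₑ := ENNReal.rpow_one _
    exact ne_top_of_le_ne_top hint.hasFiniteIntegral.ne h1
  obtain ⟨s, hs, hs2⟩ := ENNReal.exists_nnreal_pos_mul_lt hfin hε
  refine ⟨fun x => (s : ℝ) * g₀ x, continuous_const.mul hcont,
    fun x => mul_pos (by exact_mod_cast hs) (hpos x), ?_⟩
  have h3 : (fun x => (s : ℝ) * g₀ x) = (s : ℝ) • g₀ := rfl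
  rw [h3, eLpNorm_const_smul]
  refine le_trans (le_of_eq ?_) hs2.le
  congr 1
  simp

/-- a radius function with small neighbourhoods of a null set -/
theorem exists_small_radius {Ω Z : Set E3} (hΩ : IsOpen Ω) (hZ : ∃ C, IsClosed C ∧ Z = C ∩ Ω)
    (hZ0 : volume Z = 0) {Λ : E3 → ℝ} (hΛ : ContinuousOn Λ Ω) (hΛ0 : ∀ x ∈ Ω, 0 < Λ x)
    {p : ENNReal} (hp : 1 ≤ p) (hp' : p ≠ ⊤) {ε : ENNReal} (hε : ε ≠ 0) :
    ∃ β : E3 → ℝ, LPos β Ω ∧ (∀ x, 0 ≤ β x) ∧
      eLpNorm β p (volume.restrict Ω) ≤ ε ∧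
      eLpNorm (indicator {x | x ∈ Ω ∧ ∃ z ∈ Z, ‖x - z‖ < β x} Λ) p (volume.restrict Ω) ≤ ε := by
  classical
  have hp0 : p ≠ 0 := (lt_of_lt_of_le zero_lt_one hp).ne'
  have hpr0 : 0 < p.toReal := ENNReal.toReal_pos hp0 hp'
  obtain ⟨C, hC, hZC⟩ := hZ
  obtain ⟨g, hgc, hgpos, hgle⟩ := exists_small_fun hp hp' hε Ω
  -- the open neighbourhood
  obtain ⟨U, hU, hZU, hUint⟩ : ∃ U : Set E3, IsOpen U ∧ Z ⊆ U ∧
      ∫⁻ x in U ∩ Ω, ‖Λ x‖ₑ ^ p.toReal ≤ ε ^ p.toReal := by
    have hεp : ε ^ p.toReal ≠ 0 := by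
      intro h
      rcases ENNReal.rpow_eq_zero_iff.1 h with h | h
      · exact hε h.1
      · linarith [h.2]
    obtain ⟨η, hη, hηs⟩ := ENNReal.exists_pos_sum_of_countable hεp ℕ
    set O : ℕ → Set E3 := fun k => Ω ∩ Λ ⁻¹' {y : ℝ | ‖y‖ₑ ^ p.toReal < (k : ENNReal) + 1} with hO
    have hOo : ∀ k, IsOpen (O k) := by
      intro k
      apply hΛ.isOpen_inter_preimage hΩ
      apply isOpen_lt _ continuous_const
      exact ENNReal.continuous_rpow_const.comp continuous_enorm
    have hOc : ∀ x ∈ Ω, ∃ k, x ∈ O k := by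
      intro x hx
      have h1 : ‖Λ x‖ₑ ^ p.toReal ≠ ⊤ := ENNReal.rpow_ne_top_of_nonneg hpr0.le enorm_ne_top
      obtain ⟨k, hk⟩ := ENNReal.exists_nat_gt h1
      exact ⟨k, hx, hk.trans_le le_self_add⟩
    have hex : ∀ k : ℕ, ∃ V : Set E3, Z ∩ O k ⊆ V ∧ IsOpen V ∧
        volume V < (η k : ENNReal) / ((k : ENNReal) + 1) := by
      intro k
      have h1 : volume (Z ∩ O k) < (η k : ENNReal) / ((k : ENNReal) + 1) := by
        rw [measure_mono_null inter_subset_left hZ0]
        apply ENNReal.div_pos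
        · exact_mod_cast (hη k).ne'
        · exact ENNReal.add_ne_top.2 ⟨ENNReal.natCast_ne_top k, ENNReal.one_ne_top⟩
      obtain ⟨V, h2, h3, h4⟩ := (Z ∩ O k).exists_isOpen_lt_of_lt _ h1
      exact ⟨V, h2, h3, h4⟩
    choose V hV1 hV2 hV3 using hex
    refine ⟨⋃ k, V k ∩ O k, isOpen_iUnion fun k => (hV2 k).inter (hOo k), ?_, ?_⟩
    · intro z hz
      have hzΩ : z ∈ Ω := by
        rw [hZC] at hz
        exact hz.2
      obtain ⟨k, hk⟩ := hOc z hzΩ
      exact mem_iUnion.2 ⟨k, hV1 k ⟨hz, hk⟩, hk⟩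
    · calc ∫⁻ x in (⋃ k, V k ∩ O k) ∩ Ω, ‖Λ x‖ₑ ^ p.toReal
          ≤ ∫⁻ x in ⋃ k, V k ∩ O k, ‖Λ x‖ₑ ^ p.toReal :=
            lintegral_mono_set inter_subset_left
        _ ≤ ∑' k, ∫⁻ x in V k ∩ O k, ‖Λ x‖ₑ ^ p.toReal := lintegral_iUnion_le _ _
        _ ≤ ∑' k, (η k : ENNReal) := by
            apply ENNReal.tsum_le_tsum
            intro k
            have h1 : ∫⁻ x in V k ∩ O k, ‖Λ x‖ₑ ^ p.toReal ≤
                ∫⁻ _ in V k ∩ O k, ((k : ENNReal) + 1) := by
              apply setLIntegral_mono' ((hV2 k).inter (hOo k)).measurableSet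
              intro x hx
              exact (hx.2.2).le
            refine h1.trans ?_
            rw [setLIntegral_const]
            have h2 : volume (V k ∩ O k) ≤ (η k : ENNReal) / ((k : ENNReal) + 1) :=
              (measure_mono inter_subset_left).trans (hV3 k).le
            calc ((k : ENNReal) + 1) * volume (V k ∩ O k)
                ≤ ((k : ENNReal) + 1) * ((η k : ENNReal) / ((k : ENNReal) + 1)) := by gcongr
              _ ≤ (η k : ENNReal) := ENNReal.mul_div_le
        _ ≤ ε ^ p.toReal := hηs.le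
  -- the radius function
  set β₀ : E3 → ℝ := fun x => if x ∈ U ∨ Z = ∅ then 1 else infDist x Z with hβ₀
  have hβ₀n : ∀ x, 0 ≤ β₀ x := by
    intro x
    rw [hβ₀]
    simp only
    split_ifs
    · exact zero_le_one
    · exact infDist_nonneg
  refine ⟨fun x => min (β₀ x) (g x), ?_, fun x => le_min (hβ₀n x) (hgpos x).le, ?_, ?_⟩
  · intro x hx
    -- lower bound for `β₀`
    have h1 : ∃ b > 0, ∃ r > 0, ∀ y ∈ ball x r, b ≤ β₀ y := by
      by_cases hZe : Z = ∅
      · refine ⟨1, one_pos, 1, one_pos, fun y _ => ?_⟩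
        rw [hβ₀]
        simp [hZe]
      · by_cases hxU : x ∈ U
        · obtain ⟨r, hr, hrU⟩ := Metric.isOpen_iff.1 hU x hxU
          refine ⟨1, one_pos, r, hr, fun y hy => ?_⟩
          rw [hβ₀]
          simp [hrU hy]
        · have hZn : Z.Nonempty := nonempty_iff_ne_empty.2 hZe
          have hxZ : x ∉ closure Z := by
            intro hc
            have h2 : x ∈ C := by
              have h3 : closure Z ⊆ C := by
                apply closure_minimal _ hC
                rw [hZC]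
                exact inter_subset_left
              exact h3 hc
            have h4 : x ∈ Z := by
              rw [hZC]
              exact ⟨h2, hx⟩
            exact hxU (hZU h4)
          have hpos : 0 < infDist x Z := (infDist_pos_iff_notMem_closure hZn).1 hxZ
          refine ⟨min 1 (infDist x Z / 2), lt_min one_pos (half_pos hpos), infDist x Z / 2,
            half_pos hpos, fun y hy => ?_⟩
          rw [hβ₀]
          simp only
          split_ifs
          · exact min_le_left _ _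
          · refine (min_le_right _ _).trans ?_
            have h5 : infDist x Z ≤ infDist y Z + dist x y := infDist_le_infDist_add_dist
            rw [mem_ball, dist_comm] at hy
            linarith
    obtain ⟨b, hb, r, hr, h2⟩ := h1
    have h3 : ∀ᶠ y in 𝓝 x, g x / 2 < g y :=
      continuousAt_const.eventually_lt hgc.continuousAt (by linarith [hgpos x])
    obtain ⟨r', hr', h4⟩ := Metric.eventually_nhds_iff_ball.1 h3
    refine ⟨min b (g x / 2), lt_min hb (half_pos (hgpos x)), min r r', lt_min hr hr',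
      fun y hy => ?_⟩
    apply le_min
    · exact (min_le_left _ _).trans (h2 y (ball_subset_ball (min_le_left _ _) hy))
    · exact (min_le_right _ _).trans (h4 y (ball_subset_ball (min_le_right _ _) hy)).le
  · refine (eLpNorm_mono fun x => ?_).trans hgle
    rw [Real.norm_of_nonneg (le_min (hβ₀n x) (hgpos x).le), Real.norm_of_nonneg (hgpos x).le]
    exact min_le_right _ _
  · have hsub : {x | x ∈ Ω ∧ ∃ z ∈ Z, ‖x - z‖ < min (β₀ x) (g x)} ⊆ U ∩ Ω := by
      rintro x ⟨hxΩ, z, hz, hzx⟩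
      refine ⟨?_, hxΩ⟩
      by_contra hxU
      have hZe : Z ≠ ∅ := nonempty_iff_ne_empty.1 ⟨z, hz⟩
      have h1 : β₀ x = infDist x Z := by
        rw [hβ₀]
        simp [hxU, hZe]
      have h2 : ‖x - z‖ < infDist x Z := h1 ▸ hzx.trans_le (min_le_left _ _)
      have h3 : infDist x Z ≤ dist x z := infDist_le_dist_of_mem hz
      rw [dist_eq_norm] at h3
      linarith
    have h1 : eLpNorm (indicator {x | x ∈ Ω ∧ ∃ z ∈ Z, ‖x - z‖ < min (β₀ x) (g x)} Λ) p
        (volume.restrict Ω) ≤ eLpNorm (indicator (U ∩ Ω) Λ) p (volume.restrict Ω) := by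
      apply eLpNorm_mono
      intro x
      exact norm_indicator_le_of_subset hsub _ _
    refine h1.trans ?_
    have hm : MeasurableSet (U ∩ Ω) := (hU.inter hΩ).measurableSet
    rw [eLpNorm_indicator_eq_eLpNorm_restrict hm, Measure.restrict_restrict hm,
      inter_assoc, inter_self, eLpNorm_eq_lintegral_rpow_enorm_toReal hp0 hp']
    calc (∫⁻ x in U ∩ Ω, ‖Λ x‖ₑ ^ p.toReal) ^ (1 / p.toReal)
        ≤ (ε ^ p.toReal) ^ (1 / p.toReal) := ENNReal.rpow_le_rpow hUint (by positivity)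
      _ = ε := by
          rw [← ENNReal.rpow_mul, mul_one_div_cancel hpr0.ne', ENNReal.rpow_one]

end SM
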