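import Pool.Agent.SM.Defs
import Pool.Agent.SM.Grm
import Pool.Agent.SM.Stb
import Pool.Agent.SM.Sma
import Pool.Agent.SM.Soa
import Pool.Agent.SM.Sob
import Pool.Agent.SM.Pah

/-!
# Project SM, module FIN
-/

open Set Metric Filter Topology MeasureTheory
open scoped ContDiff Pointwise

noncomputable section

namespace SM

theorem isDiffeoOn_of {Ω : Set E3} (hΩ : IsOpen Ω) {g : E3 → E3} (hg : ContDiffOn ℝ ∞ g Ω)
    (hinj : InjOn g Ω) (hd : ∀ x ∈ Ω, ∀ v, fderiv ℝ g x v = 0 → v = 0) : IsDiffeoOn Ω g := by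
  have hat : ∀ x ∈ Ω, ContDiffAt ℝ ∞ g x := fun x hx => hg.contDiffAt (hΩ.mem_nhds hx)
  -- the derivative as an equivalence
  have hequiv : ∀ x ∈ Ω, ∃ L : E3 ≃L[ℝ] E3, (L : E3 →L[ℝ] E3) = fderiv ℝ g x := by
    intro x hx
    have h1 : LinearMap.ker (fderiv ℝ g x : E3 →ₗ[ℝ] E3) = ⊥ := by
      rw [LinearMap.ker_eq_bot']
      exact fun m hm => hd x hx m hm
    have h2 : Function.Injective (fderiv ℝ g x : E3 →ₗ[ℝ] E3) := LinearMap.ker_eq_bot.1 h1
    refine ⟨(LinearEquiv.ofInjectiveEndo _ h2).toContinuousLinearEquiv, ?_⟩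
    ext v
    rfl
  have hfd : ∀ x ∈ Ω, HasFDerivAt g (fderiv ℝ g x) x := fun x hx =>
    ((hat x hx).differentiableAt (by simp)).hasFDerivAt
  refine ⟨hg, hinj, ?_, ?_⟩
  · rw [isOpen_iff_mem_nhds]
    rintro _ ⟨x, hx, rfl⟩
    obtain ⟨L, hL⟩ := hequiv x hx
    have h1 : HasStrictFDerivAt g (L : E3 →L[ℝ] E3) x := by
      rw [hL]
      exact (hat x hx).hasStrictFDerivAt (by simp)
    rw [← h1.map_nhds_eq_of_equiv]
    exact image_mem_map (hΩ.mem_nhds hx)
  · refine ⟨Function.invFunOn g Ω, ?_, fun x hx => hinj.leftInvOn_invFunOn hx⟩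
    rintro _ ⟨x, hx, rfl⟩
    obtain ⟨L, hL⟩ := hequiv x hx
    have h0 : HasFDerivAt g (L : E3 →L[ℝ] E3) x := by
      rw [hL]
      exact hfd x hx
    have h1 : HasStrictFDerivAt g (L : E3 →L[ℝ] E3) x := by
      rw [hL]
      exact (hat x hx).hasStrictFDerivAt (by simp)
    have h2 := (hat x hx).to_localInverse h0 (by simp)
    have h3 : (hat x hx).localInverse h0 (by simp) (g x) = x :=
      (hat x hx).localInverse_apply_image h0 (by simp)
    have h4 : ∀ᶠ y in 𝓝 (g x), g ((hat x hx).localInverse h0 (by simp) y) = y :=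
      h1.eventually_right_inverse
    have h5 : ∀ᶠ y in 𝓝 (g x), (hat x hx).localInverse h0 (by simp) y ∈ Ω := by
      have h6 := h2.continuousAt
      apply h6.eventually
      rw [h3]
      exact hΩ.mem_nhds hx
    refine (h2.congr_of_eventuallyEq ?_).contDiffWithinAt
    filter_upwards [h4, h5] with y hy hy'
    conv_lhs => rw [← hy]
    exact hinj.leftInvOn_invFunOn hy'

theorem memLp_of_sub {Z : Type*} [NormedAddCommGroup Z] {μ : Measure E3} {p : ENNReal}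
    {u v : E3 → Z} (hu : AEStronglyMeasurable u μ) (h1 : MemLp (fun x => u x - v x) p μ)
    (h2 : MemLp v p μ) : MemLp u p μ := by
  refine (h1.add h2).congr_norm hu (Eventually.of_forall fun x => ?_)
  simp

theorem norm_fderiv_le_of_lipAt {f : E3 → E3} {x : E3} {C : ℝ} (hC : 0 ≤ C) (h : LipAt C f x) :
    ‖fderiv ℝ f x‖ ≤ C := by
  obtain ⟨r, hr, H⟩ := h
  refine norm_fderiv_le_of_lip' ℝ hC ?_
  filter_upwards [ball_mem_nhds x hr] with y hy
  exact H y hy x (mem_ball_self hr)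

theorem final {Ω : Set E3} (hΩ : IsOpen Ω) {p : ENNReal} (hp : 1 ≤ p) (hp' : p ≠ ⊤)
    {f : E3 → E3} (hf : IsPAHomeo Ω f) {F : E3 → E3 →L[ℝ] E3} (hF : MemW Ω p f F)
    {ε : ENNReal} (hε : ε ≠ 0) :
    ∃ (g : E3 → E3) (G : E3 → E3 →L[ℝ] E3), IsDiffeoOn Ω g ∧ MemW Ω p g G ∧
      eLpNorm (fun x => g x - f x) p (volume.restrict Ω) +
        eLpNorm (fun x => G x - F x) p (volume.restrict Ω) < ε := by
  have hcon := hf.locConic hΩ
  obtain ⟨Λ, hΛc, hΛ, H⟩ := smoothing hΩ hf.cont hf.inj hcon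
  -- the weak derivative of `f`
  have hlf : ∀ x ∈ Ω, ∃ C, LipAt C f x := fun x hx => ⟨Λ x, (hΛ x hx).2⟩
  have hbf : ∀ x ∈ Ω, ‖fderiv ℝ f x‖ ≤ Λ x := fun x hx =>
    norm_fderiv_le_of_lipAt (hΛ x hx).1.le (hΛ x hx).2
  have hFi : LocallyIntegrableOn F Ω :=
    locallyIntegrableOn_of_locallyIntegrable_restrict (hF.memF.locallyIntegrable hp)
  have hfi : LocallyIntegrableOn (fun x => fderiv ℝ f x) Ω := by
    intro x hx
    have h1 : ∀ᶠ y in 𝓝 x, y ∈ Ω ∧ Λ y < Λ x + 1 :=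
      (hΩ.eventually_mem hx).and ((hΛc.continuousAt (hΩ.mem_nhds hx)).eventually
        (gt_mem_nhds (by linarith)))
    obtain ⟨r, hr, h2⟩ := Metric.eventually_nhds_iff_ball.1 h1
    refine ⟨ball x r, mem_nhdsWithin_of_mem_nhds (ball_mem_nhds x hr), ?_⟩
    refine Measure.integrableOn_of_bounded (M := Λ x + 1) (measure_ball_lt_top).ne
      (measurable_fderiv ℝ f).aestronglyMeasurable ?_
    refine (ae_restrict_iff' measurableSet_ball).2 (Eventually.of_forall fun y hy => ?_)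
    exact (hbf y (h2 y hy).1).trans (h2 y hy).2.le
  have hae := weakDeriv_unique hΩ hF.weak (hasWeakDeriv_of_lipAt hΩ hlf) hFi hfi
  -- the radius
  set ε₁ : ENNReal := min ε 1 / 2 / 2 with hε₁
  have hm : min ε 1 ≠ 0 := by
    intro h
    rcases min_choice ε 1 with h1 | h1 <;> rw [h1] at h
    · exact hε h
    · exact one_ne_zero h
  have hmt : min ε 1 ≠ ⊤ := ne_top_of_le_ne_top ENNReal.one_ne_top (min_le_right _ _)
  have hε₁0 : ε₁ ≠ 0 := by
    rw [hε₁]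
    exact (ENNReal.half_pos (ENNReal.half_pos hm).ne').ne'
  have hε₁t : ε₁ ≠ ⊤ := by
    rw [hε₁]
    exact (ENNReal.div_lt_top (ENNReal.div_lt_top hmt two_ne_zero).ne two_ne_zero).ne
  obtain ⟨β, hβ, hβ0, hβ1, hβ2⟩ := exists_small_radius hΩ (isClosed_Zs hcon hΩ)
    (volume_Zs hcon hΩ) (Λ := fun x => 2 * Λ x) (continuousOn_const.mul hΛc)
    (fun x hx => by linarith [(hΛ x hx).1]) hp hp' hε₁0
  obtain ⟨g, g1, g2, g3, g4, g5, g6⟩ := H β hβ
  have hgd := isDiffeoOn_of hΩ g1 g2 g3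
  have hmΩ : MeasurableSet Ω := hΩ.measurableSet
  have hgm : AEStronglyMeasurable g (volume.restrict Ω) :=
    g1.continuousOn.aestronglyMeasurable hmΩ
  -- closeness of the values
  have e1 : eLpNorm (fun x => g x - f x) p (volume.restrict Ω) ≤ ε₁ := by
    refine (eLpNorm_mono_ae ?_).trans hβ1
    refine (ae_restrict_iff' hmΩ).2 (Eventually.of_forall fun x hx => ?_)
    rw [Real.norm_of_nonneg (hβ0 x)]
    exact g5 x hx
  have e2 : eLpNorm (fun x => fderiv ℝ g x - F x) p (volume.restrict Ω) ≤ ε₁ := by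
    refine (eLpNorm_mono_ae ?_).trans hβ2
    have h1 : ∀ᵐ x ∂(volume.restrict Ω), x ∈ Ω := ae_restrict_mem hmΩ
    filter_upwards [hae, h1] with x hx hxΩ
    rw [hx]
    by_cases h2 : ∃ z ∈ Zs f Ω, ‖x - z‖ < β x
    · have h3 : x ∈ {x | x ∈ Ω ∧ ∃ z ∈ Zs f Ω, ‖x - z‖ < β x} := ⟨hxΩ, h2⟩
      rw [indicator_of_mem h3, Real.norm_of_nonneg (by linarith [(hΛ x hxΩ).1])]
      have h4 := norm_sub_le (fderiv ℝ g x) (fderiv ℝ f x)
      have h5 := g4 x hxΩ
      have h6 := hbf x hxΩ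
      linarith
    · push Not at h2
      have h3 := (g6 x hxΩ h2).fderiv_eq (𝕜 := ℝ)
      rw [h3, sub_self, norm_zero]
      exact norm_nonneg _
  have hgl : ∀ x ∈ Ω, ∃ C, LipAt C g x := by
    intro x hx
    have h1 : ContDiffAt ℝ 1 g x := (g1.contDiffAt (hΩ.mem_nhds hx)).of_le (by simp)
    obtain ⟨K, t, ht, hK⟩ := h1.exists_lipschitzOnWith
    obtain ⟨r, hr, hb⟩ := Metric.mem_nhds_iff.1 ht
    refine ⟨K, r, hr, fun y hy y' hy' => ?_⟩
    have := hK.dist_le_mul y (hb hy) y' (hb hy')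
    rwa [dist_eq_norm, dist_eq_norm] at this
  refine ⟨g, fun x => fderiv ℝ g x, hgd, ⟨?_, ?_, hasWeakDeriv_of_lipAt hΩ hgl⟩, ?_⟩
  · have h1 : MemLp (fun x => g x - f x) p (volume.restrict Ω) :=
      ⟨hgm.sub hF.memf.1, lt_of_le_of_lt e1 hε₁t.lt_top⟩
    have h2 := h1.add hF.memf
    refine h2.congr_norm hgm ?_
    refine Eventually.of_forall fun x => ?_
    simp
  · have hgm' : AEStronglyMeasurable (fun x => fderiv ℝ g x) (volume.restrict Ω) :=
      (measurable_fderiv ℝ g).aestronglyMeasurable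
    have h1 : MemLp (fun x => fderiv ℝ g x - F x) p (volume.restrict Ω) :=
      ⟨hgm'.sub hF.memF.1, lt_of_le_of_lt e2 hε₁t.lt_top⟩
    exact memLp_of_sub hgm' h1 hF.memF
  · calc _ ≤ ε₁ + ε₁ := add_le_add e1 e2
      _ = min ε 1 / 2 := by
        rw [hε₁]
        exact ENNReal.add_halves _
      _ < min ε 1 := ENNReal.half_lt_self hm hmt
      _ ≤ ε := min_le_left _ _

end SM
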