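import Mathlib

/-!
# Definitions for the smoothing theorem of piecewise affine maps in dimension three
(MP_e5f854_an, project SM)
-/

open Set Metric Filter Topology MeasureTheory
open scoped ContDiff

noncomputable section

namespace SM

/-- Three dimensional Euclidean space. -/
abbrev E3 := EuclideanSpace ℝ (Fin 3)

section General

variable {X Y P : Type*} [NormedAddCommGroup X] [NormedSpace ℝ X]
  [NormedAddCommGroup Y] [NormedSpace ℝ Y]

/-- All secants of `f` between points of `U` are given by linear maps of the family `K`. -/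
def SecOn (f : X → Y) (K : Set (X →L[ℝ] Y)) (U : Set X) : Prop :=
  ∀ x ∈ U, ∀ x' ∈ U, ∃ M ∈ K, f x - f x' = M (x - x')

/-- A convex compact set of linear maps, bounded below by `c`. -/
structure GoodSet (c : ℝ) (K : Set (X →L[ℝ] Y)) : Prop where
  convex : Convex ℝ K
  compact : IsCompact K
  lower : ∀ M ∈ K, ∀ x, c * ‖x‖ ≤ ‖M x‖

/-- Near `x` all secants of `f` lie in one good set. -/
def SecGood (c : ℝ) (f : X → Y) (x : X) : Prop :=
  ∃ K, GoodSet c K ∧ ∃ r > 0, SecOn f K (ball x r)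

/-- Near the parameter `p` and near `x` all secants of the maps `h q` lie in one good set. -/
def FamGood [TopologicalSpace P] (c : ℝ) (h : P → X → Y) (p : P) (x : X) : Prop :=
  ∃ K, GoodSet c K ∧ ∃ r > 0, ∀ᶠ q in 𝓝 p, SecOn (h q) K (ball x r)

/-- Local Lipschitz constant at a point. -/
def LipAt (C : ℝ) (f : X → Y) (x : X) : Prop :=
  ∃ r > 0, ∀ y ∈ ball x r, ∀ y' ∈ ball x r, ‖f y - f y'‖ ≤ C * ‖y - y'‖

/-- Positive homogeneity of degree one. -/
def PosHom (f : X → Y) : Prop := ∀ a : ℝ, 0 ≤ a → ∀ x, f (a • x) = a • f x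

/-- `f` is conic at `x` on the ball of radius `R`, with germ `h`. -/
def ConicAt (f : X → Y) (x : X) (R : ℝ) (h : X → Y) : Prop :=
  ∀ v, ‖v‖ < R → f (x + v) = f x + h v

/-- `f` is conic at every point of `Ω`. -/
def LocConic (f : X → Y) (Ω : Set X) : Prop :=
  ∀ x ∈ Ω, ∃ R > 0, ball x R ⊆ Ω ∧ ∃ h, PosHom h ∧ ConicAt f x R h

open Classical in
/-- The germ of `f` at `x` (a positively homogeneous map). -/
def germ (f : X → Y) (x : X) : X → Y :=
  if H : ∃ h : X → Y, PosHom h ∧ ∃ R > 0, ConicAt f x R h then H.choose else 0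

/-- The lineality space of `h`. -/
def lin (h : X → Y) : Submodule ℝ X := Submodule.span ℝ {w | ∀ v, h (v + w) = h v + h w}

/-- The rank of the germ of `f` at `x`. -/
def rk (f : X → Y) (x : X) : ℕ := Module.finrank ℝ (lin (germ f x))

/-- A function which is locally bounded below by positive constants on `Ω`. -/
def LPos (β : X → ℝ) (Ω : Set X) : Prop :=
  ∀ x ∈ Ω, ∃ b > 0, ∃ r > 0, ∀ y ∈ ball x r, b ≤ β y

end General

/-- Points of rank zero (vertices). -/
def Vs (f : E3 → E3) (Ω : Set E3) : Set E3 := {x | x ∈ Ω ∧ rk f x = 0}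

/-- Points of rank one (edges). -/
def Es (f : E3 → E3) (Ω : Set E3) : Set E3 := {x | x ∈ Ω ∧ rk f x = 1}

/-- Points of rank at most two (the singular set). -/
def Zs (f : E3 → E3) (Ω : Set E3) : Set E3 := {x | x ∈ Ω ∧ rk f x ≤ 2}

/-- The logarithmic cut off: `1` for `r ≤ exp (-M)`, `0` for `r ≥ 1`. -/
def cut (M r : ℝ) : ℝ := -Real.log (max (Real.exp (-M)) (min r 1)) / M

/-- A path of homogeneous maps, additive along the line `lin h`, from the edge germ `h` to a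
linear map. -/
structure EdgePath (h : E3 → E3) (hp : ℝ → E3 → E3) (c C : ℝ) : Prop where
  cpos : 0 < c
  Cpos : 0 < C
  zero : ∀ t, t ≤ 0 → hp t = h
  one : ∃ A : E3 →L[ℝ] E3, ∀ t, 1 ≤ t → hp t = A
  hom : ∀ t, PosHom (hp t)
  add : ∀ t, ∀ l ∈ lin h, ∀ x, hp t (x + l) = hp t x + h l
  lipt : ∀ t t' x, ∀ l ∈ lin h, ‖hp t x - hp t' x‖ ≤ C * |t - t'| * ‖x - l‖
  lip : ∀ t x x', ‖hp t x - hp t x'‖ ≤ C * ‖x - x'‖
  lower : ∀ t x x', c * ‖x - x'‖ ≤ ‖hp t x - hp t x'‖
  good : ∀ t, ∀ x, x ∉ lin h → FamGood c hp t x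
  surj : Function.Surjective h

open Classical in
/-- A chosen edge path with its constants. -/
def pathOf (h : E3 → E3) : (ℝ → E3 → E3) × ℝ × ℝ :=
  if H : ∃ q : (ℝ → E3 → E3) × ℝ × ℝ, EdgePath h q.1 q.2.1 q.2.2 then H.choose
  else (fun _ => h, 1, 1)

/-- Path, lower constant, upper constant, slowness and safety factor of an edge germ. -/
def hpOf (h : E3 → E3) : ℝ → E3 → E3 := (pathOf h).1
def cOf (h : E3 → E3) : ℝ := (pathOf h).2.1
def COf (h : E3 → E3) : ℝ := (pathOf h).2.2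
def MOf (h : E3 → E3) : ℝ := 4 * COf h / cOf h
def NOf (h : E3 → E3) : ℝ := 16 * (COf h / cOf h) + 16

/-- `p` lies in the tube about the edge point `e`. -/
def InTube (f : E3 → E3) (Ω : Set E3) (B : E3 → ℝ) (p e : E3) : Prop :=
  e ∈ Es f Ω ∧ (∀ l ∈ lin (germ f e), inner ℝ (p - e) l = 0) ∧ ‖p - e‖ < B p

open Classical in
/-- The map modified in the tubes. -/
def hatMap (f : E3 → E3) (Ω : Set E3) (B : E3 → ℝ) (p : E3) : E3 :=
  if H : ∃ e, InTube f Ω B p e then
    f H.choose + hpOf (germ f H.choose)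
      (cut (MOf (germ f H.choose)) (‖p - H.choose‖ / B p)) (p - H.choose)
  else f p

/-- Admissible radius functions for the tubes. -/
structure TubeFun (f : E3 → E3) (Ω : Set E3) (B : E3 → ℝ) : Prop where
  lip : LipschitzWith (1 / 8) B
  pos : ∀ x ∈ Ω, x ∉ Vs f Ω → 0 < B x
  conic : ∀ e ∈ Es f Ω, ball e (NOf (germ f e) * B e) ⊆ Ω ∧
    ConicAt f e (NOf (germ f e) * B e) (germ f e)

/-- Families of positively homogeneous injective maps, locally constant outside `[0, 1]`. -/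
structure HomFam {X : Type*} [NormedAddCommGroup X] [NormedSpace ℝ X] (H : ℝ → X → X) (C : ℝ) :
    Prop where
  left : ∀ t, t ≤ 0 → H t = H 0
  right : ∀ t, 1 ≤ t → H t = H 1
  hom : ∀ t, PosHom (H t)
  lipt : ∀ t t' x, ‖H t x - H t' x‖ ≤ C * |t - t'| * ‖x‖
  inj : ∀ t, Function.Injective (H t)
  good : ∀ t, ∀ x, x ≠ 0 → ∃ c > 0, FamGood c H t x

/-- Two homogeneous maps are joined by a family. -/
def HomPath {X : Type*} [NormedAddCommGroup X] [NormedSpace ℝ X] (h₀ h₁ : X → X) : Prop :=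
  ∃ (H : ℝ → X → X) (C : ℝ), HomFam H C ∧ H 0 = h₀ ∧ H 1 = h₁

/-- Paths of compactly supported planar maps. -/
def PlanePath (P Q : ℂ → ℂ) : Prop :=
  ∃ (G : ℝ → ℂ → ℂ) (R C : ℝ), (∀ t, t ≤ 0 → G t = P) ∧ (∀ t, 1 ≤ t → G t = Q) ∧
    (∀ t x, R ≤ ‖x‖ → G t x = x) ∧ (∀ t t' x, ‖G t x - G t' x‖ ≤ C * |t - t'|) ∧
    (∀ t x, ∃ c > 0, FamGood c G t x)

/-- The homogeneous family given by an angular logarithm `μ`; it ends at the identity. -/
def logMap (μ : ℝ → ℂ) (t : ℝ) (z : ℂ) : ℂ :=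
  z * Complex.exp (((1 - max 0 (min 1 t) : ℝ) : ℂ) * μ (Complex.arg z))

/-- The homogeneous map of `ℂ × ℝ` with section `P` on the upper half space. -/
def homog (P : ℂ → ℂ) (q : ℂ × ℝ) : ℂ × ℝ :=
  if 0 < q.2 then (q.2 • P (q.2⁻¹ • q.1), q.2) else q

/-- The smooth radial bump used for mollification. -/
def bump : ContDiffBump (0 : E3) := ⟨1 / 2, 1, by norm_num, by norm_num⟩

/-- Mollification of `f` with variable radius `δ`. -/
def moll (f : E3 → E3) (δ : E3 → ℝ) (x : E3) : E3 :=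
  ∫ u, (bump.normed volume u) • f (x - δ x • u)

/-- The shear used at the vertices, and its inverse. -/
def psi (T : ℝ) (q : ℂ × ℝ) : ℂ × ℝ := (q.1, q.2 + Real.sqrt (T ^ 2 * ‖q.1‖ ^ 2 + q.2 ^ 2 / 4))

def psiInv (T : ℝ) (q : ℂ × ℝ) : ℂ × ℝ :=
  (q.1, 4 / 3 * (q.2 - Real.sqrt (3 / 4 * T ^ 2 * ‖q.1‖ ^ 2 + q.2 ^ 2 / 4)))

/-! ## The triangular lattice -/

/-- The sixth root of unity. -/
def zeta : ℂ := ⟨1 / 2, Real.sqrt 3 / 2⟩

/-- The six directions in lattice coordinates. -/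
def dir : Fin 6 → ℤ × ℤ := ![(1, 0), (0, 1), (-1, 1), (-1, 0), (0, -1), (1, -1)]

/-- The embedding of the lattice. -/
def emb (v : ℤ × ℤ) : ℂ := (v.1 : ℂ) + (v.2 : ℂ) * zeta

/-- The six unit vectors of the lattice. -/
def zk (k : Fin 6) : ℂ := emb (dir k)

/-- Cross product in the plane. -/
def crs (a b : ℂ) : ℝ := a.re * b.im - a.im * b.re

/-- Lattice coordinates of a complex number: `y = coA y + coB y * zeta`. -/
def coB (y : ℂ) : ℝ := y.im * (2 / Real.sqrt 3)
def coA (y : ℂ) : ℝ := y.re - coB y / 2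

/-- Homogeneous hat function of the direction `1`. -/
def phi0 (y : ℂ) : ℝ := max 0 (min (coA y) (coA y + coB y))

/-- Homogeneous hat function of the direction `zk k`. -/
def phik (k : Fin 6) (y : ℂ) : ℝ := phi0 (y * (starRingEnd ℂ) (zk k))

/-- The piecewise linear map sending `zk k` to `w k`. -/
def fan (w : Fin 6 → ℂ) (y : ℂ) : ℂ := ∑ k, phik k y • w k

/-- Hat function of the lattice. -/
def hatf (y : ℂ) : ℝ := max 0 (1 - ∑ k, phik k y)

/-- Lattice configurations. -/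
abbrev Cfg := ℤ × ℤ → ℂ

/-- Piecewise linear interpolation of a configuration. -/
def interp (u : Cfg) (x : ℂ) : ℂ := x + ∑ᶠ v : ℤ × ℤ, hatf (x - emb v) • (u v - emb v)

/-- The star of a configuration at a vertex. -/
def star (u : Cfg) (v : ℤ × ℤ) (k : Fin 6) : ℂ := u (v + dir k) - u v

/-- Positively oriented fans. -/
def ValidFan (w : Fin 6 → ℂ) : Prop := ∀ k, 0 < crs (w k) (w (k + 1))

/-- The total logarithmic turning of a fan. -/
def wind (w : Fin 6 → ℂ) : ℂ := ∑ k, Complex.log (w (k + 1) / w k)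

/-- The configuration is the identity outside the rhombus of size `n`. -/
def IdOut (n : ℕ) (u : Cfg) : Prop := ∀ v : ℤ × ℤ, ¬ (|v.1| < n ∧ |v.2| < n) → u v = emb v

/-- All triangles are positively oriented. -/
def ValidCfg (u : Cfg) : Prop := ∀ v, ValidFan (star u v)

/-- Linear interpolation between the two configurations stays valid. -/
def ValidStep (n : ℕ) (u u' : Cfg) : Prop :=
  IdOut n u ∧ IdOut n u' ∧ ∀ s ∈ Icc (0 : ℝ) 1, ValidCfg (fun v => (1 - s) • u v + s • u' v)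

/-- The linear map sending `1` to `w 0` and `zeta` to `w 1`. -/
def linOf (w : Fin 6 → ℂ) (y : ℂ) : ℂ := coA y • w 0 + coB y • w 1

/-- Logarithmic corrections. -/
def muk (w : Fin 6 → ℂ) (k : Fin 6) : ℂ :=
  ∑ j ∈ Finset.univ.filter (fun j : Fin 6 => j < k),
    (Complex.log (w (j + 1) / w j) - Complex.log (linOf w (zk (j + 1)) / linOf w (zk j)))

/-- The path of fans from `w` (`t = 0`) to the linear fan `linOf w` (`t = 1`). -/
def omg (w : Fin 6 → ℂ) (t : ℝ) (k : Fin 6) : ℂ :=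
  linOf w (zk k) * Complex.exp ((1 - t) * muk w k)

open Classical in
/-- The interpolation, modified near the lattice points. -/
def kmod (u : Cfg) (M : ℝ) (x : ℂ) : ℂ :=
  if H : ∃ v, ‖x - emb v‖ < 1 / 4 then
    u H.choose + fan (omg (star u H.choose) (cut M (4 * ‖x - emb H.choose‖))) (x - emb H.choose)
  else interp u x

/-- Positive weights on the edges of the lattice. -/
def Wts (lam : ℤ × ℤ → Fin 6 → ℝ) : Prop := ∀ v, (∀ k, 0 < lam v k) ∧ ∑ k, lam v k = 1

/-- Harmonicity at `v`. -/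
def HarmAt {E : Type*} [AddCommGroup E] [Module ℝ E] (lam : ℤ × ℤ → Fin 6 → ℝ)
    (u : ℤ × ℤ → E) (v : ℤ × ℤ) : Prop := u v = ∑ k, lam v k • u (v + dir k)

/-- Number of triangles at `v` in which `v` is the middle vertex. -/
def sc (f : ℤ × ℤ → ℝ) (v : ℤ × ℤ) : ℕ :=
  (Finset.univ.filter (fun k : Fin 6 =>
    (f (v + dir k) - f v) * (f (v + dir (k + 1)) - f v) < 0)).card

/-! ## Sobolev spaces and the final statement -/

/-- `F` is the weak derivative of `f` on the open set `Ω`. -/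
def HasWeakDeriv (Ω : Set E3) (f : E3 → E3) (F : E3 → E3 →L[ℝ] E3) : Prop :=
  ∀ φ : E3 → ℝ, ContDiff ℝ ∞ φ → HasCompactSupport φ → tsupport φ ⊆ Ω → ∀ v : E3,
    ∫ x in Ω, (fderiv ℝ φ x v) • f x = -∫ x in Ω, φ x • F x v

/-- `f` lies in `W^{1,p}(Ω, ℝ³)`, with weak derivative `F`. -/
structure MemW (Ω : Set E3) (p : ENNReal) (f : E3 → E3) (F : E3 → E3 →L[ℝ] E3) : Prop where
  memf : MemLp f p (volume.restrict Ω)
  memF : MemLp F p (volume.restrict Ω)
  weak : HasWeakDeriv Ω f F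

/-- Piecewise affine homeomorphisms (onto the image). -/
structure IsPAHomeo (Ω : Set E3) (f : E3 → E3) : Prop where
  cont : ContinuousOn f Ω
  inj : InjOn f Ω
  cont_inv : ∃ g : E3 → E3, ContinuousOn g (f '' Ω) ∧ ∀ x ∈ Ω, g (f x) = x
  pieces : ∃ (ι : Type) (_ : Countable ι) (s : ι → Fin 4 → E3),
    (∀ i, AffineIndependent ℝ (s i)) ∧
    (∀ i, convexHull ℝ (range (s i)) ⊆ Ω) ∧
    (∀ i j, i ≠ j → Disjoint (interior (convexHull ℝ (range (s i))))
      (interior (convexHull ℝ (range (s j))))) ∧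
    (Ω ⊆ ⋃ i, convexHull ℝ (range (s i))) ∧
    (∀ K : Set E3, IsCompact K → K ⊆ Ω → {i | (convexHull ℝ (range (s i)) ∩ K).Nonempty}.Finite) ∧
    (∀ i, ∃ A : E3 →ᵃ[ℝ] E3, EqOn f A (convexHull ℝ (range (s i))))

/-- Diffeomorphisms of `Ω` onto an open image. -/
structure IsDiffeoOn (Ω : Set E3) (g : E3 → E3) : Prop where
  smooth : ContDiffOn ℝ ∞ g Ω
  inj : InjOn g Ω
  open_image : IsOpen (g '' Ω)
  smooth_inv : ∃ k : E3 → E3, ContDiffOn ℝ ∞ k (g '' Ω) ∧ ∀ x ∈ Ω, k (g x) = x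

end SM
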